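import Pool.Agent.LRig.VDefs

/-!
# LR (MP_74f563_an, all n), file VA: calculus of curves

PROOFS.  Compare `Pool.Agent.NOne.ACv` (the same for scalar curves) and
`Pool.Agent.MechAlpha.Curve`.
Gluing at `b`: the velocity `if t ≤ b then u t else u' t` is measurable (`Measurable.ite`), the
exceptional set is the union of the two exceptional sets and `{b}`; near `t ≠ b` the glued curve
agrees with one of the two.  Bounds: maximum of the two.
`VCv.ftc` and `VCv.ftc_comp`: fundamental theorem of calculus with countably many exceptions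
(`intervalIntegral.integral_eq_of_hasDerivAt_off_countable...`, Mathlib name
`MeasureTheory.integral_eq_of_hasDerivAt_off_countable_of_le`), the velocity is integrable (bounded
and
measurable).  `integrable_cost`: `t ↦ E (θ t) (u t) t` is bounded on `[a, b]` (continuity of `E` on
the
compact set `θ([a,b]) × closedBall × [a,b]`) and a.e. strongly measurable on `[a, b]` (`θ` is
continuous on `[a, b]`).  `cost_glue`: `cost_add` and congruence of the integrands off one point.
`lev_diff`: derivative of `lev j m (θ t) t` is `⟪zv j, h + u t⟫ + m = ⟪zv j, u t⟫`.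
`cost_shift`: substitution `t ↦ t + k` and the periodicity of `E`.
-/

set_option autoImplicit false

namespace Pool.Agent.LRig

open Set MeasureTheory Pool.Agent.MechAlpha
open scoped RealInnerProductSpace ContDiff

variable {n : ℕ} {z u z' u' θ θ' : ℝ → Vec n} {a b c a' b' : ℝ} {h : Vec n}
  {E : Vec n → Vec n → ℝ → ℝ}

theorem VCv.restrict (hz : VCv z u a b) (h1 : a ≤ a') (h2 : a' ≤ b') (h3 : b' ≤ b) :
    VCv z u a' b' := by
  obtain ⟨N, hN, hd⟩ := hz.der
  obtain ⟨M, hM⟩ := hz.bdd
  exact ⟨h2, hz.cont.mono (Icc_subset_Icc h1 h3),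
    ⟨N, hN, fun t ht hn => hd t (Ioo_subset_Ioo h1 h3 ht) hn⟩, hz.meas,
    ⟨M, fun t ht => hM t (Icc_subset_Icc h1 h3 ht)⟩⟩

private theorem glue_left {α : Type*} {z z' : ℝ → α} {b t : ℝ} (ht : t ≤ b) :
    (if t ≤ b then z t else z' t) = z t := if_pos ht

private theorem glue_right {α : Type*} {z z' : ℝ → α} {b t : ℝ} (hb : z b = z' b)
    (ht : b ≤ t) : (if t ≤ b then z t else z' t) = z' t := by
  rcases ht.eq_or_lt with rfl | h1
  · rw [if_pos le_rfl, hb]
  · exact if_neg (not_le.2 h1)

theorem VCv.glue (hz : VCv z u a b) (hz' : VCv z' u' b c) (hb : z b = z' b) :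
    VCv (fun t => if t ≤ b then z t else z' t) (fun t => if t ≤ b then u t else u' t) a c := by
  obtain ⟨N, hN, hd⟩ := hz.der
  obtain ⟨M, hM⟩ := hz.bdd
  obtain ⟨N', hN', hd'⟩ := hz'.der
  obtain ⟨M', hM'⟩ := hz'.bdd
  refine ⟨hz.le.trans hz'.le, ?_, ⟨N ∪ N' ∪ {b}, (hN.union hN').union (countable_singleton b), ?_⟩,
    Measurable.ite measurableSet_Iic hz.meas hz'.meas, ⟨max M M', ?_⟩⟩
  · rw [← Icc_union_Icc_eq_Icc hz.le hz'.le]
    exact ContinuousOn.union_of_isClosed (hz.cont.congr fun t ht => glue_left ht.2)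
      (hz'.cont.congr fun t ht => glue_right hb ht.1) isClosed_Icc isClosed_Icc
  · intro t ht hn
    rw [mem_union, mem_union, mem_singleton_iff, not_or, not_or] at hn
    rcases lt_or_gt_of_ne hn.2 with h1 | h1
    · rw [if_pos h1.le]
      refine (hd t ⟨ht.1, h1⟩ hn.1.1).congr_of_eventuallyEq ?_
      filter_upwards [Ioo_mem_nhds ht.1 h1] with s hs
      exact glue_left hs.2.le
    · rw [if_neg (not_le.2 h1)]
      refine (hd' t ⟨h1, ht.2⟩ hn.1.2).congr_of_eventuallyEq ?_
      filter_upwards [Ioo_mem_nhds h1 ht.2] with s hs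
      exact glue_right hb hs.1.le
  · intro t ht
    rcases le_or_gt t b with h1 | h1
    · rw [if_pos h1]
      exact (hM t ⟨ht.1, h1⟩).trans (le_max_left _ _)
    · rw [if_neg (not_le.2 h1)]
      exact (hM' t ⟨h1.le, ht.2⟩).trans (le_max_right _ _)

theorem VCv.shift (hz : VCv z u a b) (r : ℝ) (w : Vec n) :
    VCv (fun t => z (t - r) + w) (fun t => u (t - r)) (a + r) (b + r) := by
  obtain ⟨N, hN, hd⟩ := hz.der
  obtain ⟨M, hM⟩ := hz.bdd
  refine ⟨by linarith [hz.le], ?_, ⟨(fun t => t + r) '' N, hN.image _, ?_⟩,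
    hz.meas.comp (measurable_id.sub_const _), ⟨M, ?_⟩⟩
  · refine ContinuousOn.add ?_ continuousOn_const
    refine hz.cont.comp (continuous_id.sub continuous_const).continuousOn fun t ht => ?_
    exact ⟨by simpa using sub_le_sub_right ht.1 r, by simpa using sub_le_sub_right ht.2 r⟩
  · intro t ht hn
    have h1 : t - r ∈ Ioo a b := ⟨by linarith [ht.1], by linarith [ht.2]⟩
    have h2 : t - r ∉ N := fun h3 => hn ⟨t - r, h3, by simp⟩
    have h3 := (hd _ h1 h2).comp_sub_const t r
    exact h3.add_const _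
  · intro t ht
    exact hM _ ⟨by linarith [ht.1], by linarith [ht.2]⟩

/-- straight lines -/
theorem VCv.line (x v : Vec n) (hab : a ≤ b) :
    VCv (fun t => x + (t - a) • v) (fun _ => v) a b := by
  refine ⟨hab, ?_, ⟨∅, countable_empty, fun t _ _ => ?_⟩, measurable_const,
    ⟨‖v‖, fun _ _ => le_rfl⟩⟩
  · exact (continuous_const.add ((continuous_id.sub continuous_const).smul
      continuous_const)).continuousOn
  · have h1 := (((hasDerivAt_id t).sub_const a).smul_const v).const_add x
    simpa using h1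

/-- curves which agree on `[a, b]` -/
theorem VCv.congr (hz : VCv z u a b) (h1 : ∀ t ∈ Icc a b, z' t = z t) (h2 : Measurable u')
    (h3 : ∀ t ∈ Icc a b, u' t = u t) : VCv z' u' a b := by
  obtain ⟨N, hN, hd⟩ := hz.der
  obtain ⟨M, hM⟩ := hz.bdd
  refine ⟨hz.le, hz.cont.congr h1, ⟨N, hN, fun t ht hn => ?_⟩, h2, ⟨M, fun t ht => ?_⟩⟩
  · rw [h3 t (Ioo_subset_Icc_self ht)]
    refine (hd t ht hn).congr_of_eventuallyEq ?_
    filter_upwards [Ioo_mem_nhds ht.1 ht.2] with s hs
    exact h1 s (Ioo_subset_Icc_self hs)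
  · rw [h3 t ht]
    exact hM t ht

theorem VCv.integrable (hz : VCv z u a b) : IntervalIntegrable u volume a b := by
  obtain ⟨M, hM⟩ := hz.bdd
  rw [intervalIntegrable_iff_integrableOn_Icc_of_le hz.le]
  refine Measure.integrableOn_of_bounded (M := M) ?_ hz.meas.aestronglyMeasurable ?_
  · exact (isCompact_Icc (a := a) (b := b)).measure_lt_top.ne
  · refine (ae_restrict_mem measurableSet_Icc).mono fun t ht => ?_
    exact hM t ht

theorem VCv.ftc (hz : VCv z u a b) : ∫ t in a..b, u t = z b - z a := by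
  obtain ⟨N, hN, hd⟩ := hz.der
  exact integral_eq_of_hasDerivAt_off_countable_of_le z u hz.le hN hz.cont
    (fun x hx => hd x hx.1 hx.2) hz.integrable

private theorem int_comp {Φ : ℝ × Vec n × Vec n → ℝ} (hΦ : Continuous Φ) (hz : VCv z u a b) :
    IntervalIntegrable (fun t => Φ (t, z t, u t)) volume a b := by
  obtain ⟨M, hM⟩ := hz.bdd
  have hK : IsCompact (Icc a b ×ˢ ((z '' Icc a b) ×ˢ Metric.closedBall (0 : Vec n) M)) :=
    isCompact_Icc.prod ((isCompact_Icc.image_of_continuousOn hz.cont).prod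
      (isCompact_closedBall _ _))
  obtain ⟨C, hC⟩ := hK.exists_bound_of_continuousOn hΦ.continuousOn
  rw [intervalIntegrable_iff_integrableOn_Icc_of_le hz.le]
  have h1 : Continuous (IccExtend hz.le (domRestrict (Icc a b) z)) :=
    (continuousOn_iff_continuous_domRestrict.1 hz.cont).Icc_extend'
  have h2 : Measurable fun t => Φ (t, IccExtend hz.le (domRestrict (Icc a b) z) t, u t) :=
    hΦ.measurable.comp (measurable_id.prodMk (h1.measurable.prodMk hz.meas))
  have e : ∀ t ∈ Icc a b, Φ (t, IccExtend hz.le (domRestrict (Icc a b) z) t, u t) =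
      Φ (t, z t, u t) := by
    intro t ht
    rw [IccExtend_of_mem hz.le _ ht]
    rfl
  have h3 : IntegrableOn (fun t => Φ (t, IccExtend hz.le (domRestrict (Icc a b) z) t, u t))
      (Icc a b) volume := by
    refine Measure.integrableOn_of_bounded (M := C) ?_ h2.aestronglyMeasurable ?_
    · exact (isCompact_Icc (a := a) (b := b)).measure_lt_top.ne
    · refine (ae_restrict_mem measurableSet_Icc).mono fun t ht => ?_
      rw [e t ht]
      exact hC _ ⟨ht, ⟨t, ht, rfl⟩, mem_closedBall_zero_iff.2 (hM t ht)⟩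
  exact h3.congr_fun e measurableSet_Icc

/-- composition with a `C¹` function -/
theorem VCv.ftc_comp {F : ℝ × Vec n → ℝ} (hF : ContDiff ℝ 1 F) (hz : VCv z u a b) :
    IntervalIntegrable (fun t => fderiv ℝ F (t, z t) (1, u t)) volume a b ∧
      ∫ t in a..b, fderiv ℝ F (t, z t) (1, u t) = F (b, z b) - F (a, z a) := by
  have hc : Continuous fun q : ℝ × Vec n × Vec n => fderiv ℝ F (q.1, q.2.1) (1, q.2.2) := by
    have h1 : Continuous fun q : ℝ × Vec n × Vec n => fderiv ℝ F (q.1, q.2.1) :=
      (hF.continuous_fderiv one_ne_zero).comp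
        (continuous_fst.prodMk (continuous_fst.comp continuous_snd))
    exact h1.clm_apply (continuous_const.prodMk (continuous_snd.comp continuous_snd))
  have hi : IntervalIntegrable (fun t => fderiv ℝ F (t, z t) (1, u t)) volume a b :=
    int_comp hc hz
  refine ⟨hi, ?_⟩
  obtain ⟨N, hN, hd⟩ := hz.der
  refine integral_eq_of_hasDerivAt_off_countable_of_le (fun t => F (t, z t))
    (fun t => fderiv ℝ F (t, z t) (1, u t)) hz.le hN ?_ ?_ hi
  · exact hF.continuous.comp_continuousOn (continuousOn_id.prodMk hz.cont)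
  · intro t ht
    have h1 := (hF.differentiable one_ne_zero (t, z t)).hasFDerivAt
    have h2 : HasDerivAt (fun t => (t, z t)) (1, u t) t :=
      (hasDerivAt_id t).prodMk (hd t ht.1 ht.2)
    exact HasFDerivAt.comp_hasDerivAt t h1 h2

theorem TCv.restrict (hz : TCv h θ u a b) (h1 : a ≤ a') (h2 : a' ≤ b') (h3 : b' ≤ b) :
    TCv h θ u a' b' := VCv.restrict hz h1 h2 h3

theorem TCv.glue (hz : TCv h θ u a b) (hz' : TCv h θ' u' b c) (hb : θ b = θ' b) :
    TCv h (fun t => if t ≤ b then θ t else θ' t) (fun t => if t ≤ b then u t else u' t) a c := by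
  have h1 := VCv.glue hz hz' hb
  have e : (fun t => if t ≤ b then h + u t else h + u' t) =
      fun t => h + if t ≤ b then u t else u' t := by
    funext t
    split_ifs <;> rfl
  rw [e] at h1
  exact h1

theorem TCv.shift (hz : TCv h θ u a b) (r : ℝ) (w : Vec n) :
    TCv h (fun t => θ (t - r) + w) (fun t => u (t - r)) (a + r) (b + r) :=
  VCv.shift hz r w

theorem TCv.line (x v : Vec n) (hab : a ≤ b) :
    TCv h (fun t => x + (t - a) • (h + v)) (fun _ => v) a b :=
  VCv.line x (h + v) hab

/-! ## Costs -/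

theorem integrable_cost (hE : Continuous fun q : Vec n × Vec n × ℝ => E q.1 q.2.1 q.2.2)
    (hθ : TCv h θ u a b) : IntervalIntegrable (fun t => E (θ t) (u t) t) volume a b := by
  have hc : Continuous fun q : ℝ × Vec n × Vec n => E q.2.1 (q.2.2 - h) q.1 :=
    hE.comp ((continuous_fst.comp continuous_snd).prodMk
      (((continuous_snd.comp continuous_snd).sub continuous_const).prodMk continuous_fst))
  have h1 := int_comp hc hθ
  simp only [add_sub_cancel_left] at h1
  exact h1

theorem cost_add (hE : Continuous fun q : Vec n × Vec n × ℝ => E q.1 q.2.1 q.2.2)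
    (hθ : TCv h θ u a c) (h1 : a ≤ b) (h2 : b ≤ c) :
    cost E θ u a b + cost E θ u b c = cost E θ u a c :=
  intervalIntegral.integral_add_adjacent_intervals
    (integrable_cost hE (hθ.restrict le_rfl h1 h2)) (integrable_cost hE (hθ.restrict h1 h2 le_rfl))

theorem cost_glue (hE : Continuous fun q : Vec n × Vec n × ℝ => E q.1 q.2.1 q.2.2)
    (hθ : TCv h θ u a b) (hθ' : TCv h θ' u' b c) (hb : θ b = θ' b) :
    cost E (fun t => if t ≤ b then θ t else θ' t) (fun t => if t ≤ b then u t else u' t) a c =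
      cost E θ u a b + cost E θ' u' b c := by
  rw [← cost_add hE (hθ.glue hθ' hb) (VCv.le hθ) (VCv.le hθ')]
  congr 1
  · unfold cost
    refine intervalIntegral.integral_congr fun t ht => ?_
    rw [uIcc_of_le (VCv.le hθ)] at ht
    beta_reduce
    rw [if_pos ht.2, if_pos ht.2]
  · unfold cost
    rw [intervalIntegral.integral_of_le (VCv.le hθ'), intervalIntegral.integral_of_le (VCv.le hθ')]
    refine setIntegral_congr_fun measurableSet_Ioc fun t ht => ?_
    beta_reduce
    rw [if_neg (not_le.2 ht.1), if_neg (not_le.2 ht.1)]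

theorem cost_shift (h1 : ∀ (θ u : Vec n) (t : ℝ) (l : Fin n → ℤ), E (θ + zv l) u t = E θ u t)
    (h2 : ∀ (θ u : Vec n) (t : ℝ), E θ u (t + 1) = E θ u t) (θ u : ℝ → Vec n) (a b : ℝ)
    (k : ℤ) (l : Fin n → ℤ) :
    cost E (fun t => θ (t - k) + zv l) (fun t => u (t - k)) (a + k) (b + k) =
      cost E θ u a b := by
  unfold cost
  have h3 := intervalIntegral.integral_comp_sub_right (a := a + k) (b := b + k)
    (fun t => E (θ t) (u t) t) (k : ℝ)
  rw [add_sub_cancel_right, add_sub_cancel_right] at h3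
  rw [← h3]
  refine intervalIntegral.integral_congr fun t _ => ?_
  beta_reduce
  rw [h1]
  have hq : Function.Periodic (fun s => E (θ (t - k)) (u (t - k)) s) 1 := fun s => h2 _ _ s
  have h4 := hq.int_mul k (t - k)
  rw [mul_one] at h4
  rw [sub_add_cancel] at h4
  exact h4

/-- a lower bound of the cost -/
theorem cost_ge (hE : Continuous fun q : Vec n × Vec n × ℝ => E q.1 q.2.1 q.2.2)
    (hθ : TCv h θ u a b) {g : ℝ → ℝ} (hg : IntervalIntegrable g volume a b)
    (hle : ∀ t ∈ Icc a b, g t ≤ E (θ t) (u t) t) : ∫ t in a..b, g t ≤ cost E θ u a b :=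
  intervalIntegral.integral_mono_on (VCv.le hθ) hg (integrable_cost hE hθ) hle

/-- an upper bound of the cost -/
theorem cost_le (hE : Continuous fun q : Vec n × Vec n × ℝ => E q.1 q.2.1 q.2.2)
    (hθ : TCv h θ u a b) {r : ℝ} (hle : ∀ t ∈ Icc a b, E (θ t) (u t) t ≤ r) :
    cost E θ u a b ≤ r * (b - a) := by
  have h1 := intervalIntegral.integral_mono_on (VCv.le hθ) (integrable_cost hE hθ)
    (intervalIntegrable_const (c := r) (μ := volume) (a := a) (b := b)) hle
  rw [intervalIntegral.integral_const, smul_eq_mul, mul_comm] at h1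
  exact h1

/-- the cost depends continuously on the starting time -/
theorem cost_tendsto (hE : Continuous fun q : Vec n × Vec n × ℝ => E q.1 q.2.1 q.2.2)
    (hθ : TCv h θ u a b) : ContinuousOn (fun t => cost E θ u t b) (Icc a b) := by
  have h1 := intervalIntegral.continuousOn_primitive_interval' (integrable_cost hE hθ)
    (right_mem_uIcc (a := a) (b := b))
  rw [uIcc_of_le (VCv.le hθ)] at h1
  refine h1.neg.congr fun t _ => ?_
  exact intervalIntegral.integral_symm b t

/-! ## Levels -/

theorem lev_cont (hθ : TCv h θ u a b) (j : Fin n → ℤ) (m : ℤ) :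
    ContinuousOn (fun t => lev j m (θ t) t) (Icc a b) := by
  unfold lev
  exact (continuousOn_const.inner (VCv.cont hθ)).add
    (continuousOn_const.mul continuousOn_id)

theorem lev_diff (hθ : TCv h θ u a b) {j : Fin n → ℤ} {m : ℤ} (hres : ⟪zv j, h⟫ + m = 0) :
    IntervalIntegrable (fun t => ⟪zv j, u t⟫) volume a b ∧
      ∫ t in a..b, ⟪zv j, u t⟫ = lev j m (θ b) b - lev j m (θ a) a := by
  have h1 : IntervalIntegrable (fun t => h + u t) volume a b := VCv.integrable hθ
  have h2 : IntervalIntegrable (fun t => ⟪zv j, h + u t⟫) volume a b :=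
    ⟨h1.1.const_inner _, h1.2.const_inner _⟩
  have e : (fun t => ⟪zv j, u t⟫) = fun t => ⟪zv j, h + u t⟫ - ⟪zv j, h⟫ := by
    funext t
    rw [inner_add_right, add_sub_cancel_left]
  have h3 : ∫ t in a..b, ⟪zv j, h + u t⟫ = ⟪zv j, θ b - θ a⟫ := by
    rw [← VCv.ftc hθ]
    exact (innerSL ℝ (zv j)).intervalIntegral_comp_comm h1
  refine ⟨?_, ?_⟩
  · rw [e]
    exact h2.sub intervalIntegrable_const
  · rw [e, intervalIntegral.integral_sub h2 intervalIntegrable_const, h3,
      intervalIntegral.integral_const, smul_eq_mul, inner_sub_right]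
    unfold lev
    have h4 : ⟪zv j, h⟫ = -(m : ℝ) := by linarith
    rw [h4]
    ring

theorem lev_int (j : Fin n → ℤ) (m : ℤ) (θ : Vec n) (t : ℝ) (l : Fin n → ℤ) (k : ℤ) :
    lev j m (θ + zv l) (t + k) = lev j m θ t + (⟪zv j, zv l⟫ + m * k) := by
  unfold lev
  rw [inner_add_right]
  ring

/-- a closed curve may be started at another time -/
theorem exists_rot (hE : Continuous fun q : Vec n × Vec n × ℝ => E q.1 q.2.1 q.2.2)
    (h1 : ∀ (θ u : Vec n) (t : ℝ) (l : Fin n → ℤ), E (θ + zv l) u t = E θ u t)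
    (h2 : ∀ (θ u : Vec n) (t : ℝ), E θ u (t + 1) = E θ u t) {T : ℕ} {l : Fin n → ℤ}
    (hθ : TCv h θ u a (a + T)) (hl : θ (a + T) = θ a + zv l) {t : ℝ}
    (ht : t ∈ Icc a (a + T)) : ∃ θ' u' : ℝ → Vec n, TCv h θ' u' t (t + T) ∧ θ' t = θ t ∧
      θ' (t + T) = θ' t + zv l ∧ cost E θ' u' t (t + T) = cost E θ u a (a + T) := by
  have hT : (0 : ℝ) ≤ T := Nat.cast_nonneg T
  have g1 : TCv h θ u t (a + T) := hθ.restrict ht.1 ht.2 le_rfl
  have g2 : TCv h (fun s => θ (s - T) + zv l) (fun s => u (s - T)) (a + T) (t + T) :=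
    (hθ.shift T (zv l)).restrict le_rfl (by linarith [ht.1]) (by linarith [ht.2])
  have hb : θ (a + T) = (fun s => θ (s - T) + zv l) (a + T) := by
    beta_reduce
    rw [add_sub_cancel_right, hl]
  refine ⟨_, _, g1.glue g2 hb, ?_, ?_, ?_⟩
  · exact if_pos ht.2
  · have e1 : (if t ≤ a + T then θ t else (fun s => θ (s - T) + zv l) t) = θ t := if_pos ht.2
    have e2 : (if t + T ≤ a + T then θ (t + T) else (fun s => θ (s - T) + zv l) (t + T)) =
        (fun s => θ (s - T) + zv l) (t + T) :=
      glue_right (z' := fun s => θ (s - T) + zv l) hb (add_le_add_left ht.1 _)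
    rw [e1, e2]
    beta_reduce
    rw [add_sub_cancel_right]
  · have e3 := cost_shift h1 h2 θ u a t (T : ℤ) l
    rw [Int.cast_natCast] at e3
    rw [cost_glue hE g1 g2 hb, e3, add_comm]
    exact cost_add hE hθ ht.1 ht.2

end Pool.Agent.LRig
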