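import Mathlib

/-!
# LR (MP_74f563_an, local theorem for all n): definitions of the Newton scheme

The complete mathematical text is `/team-store/LR_Proof.md`.  Complex points `y = (z, h)`: `z 0` is
the time, `z a.succ` the angle `θ_a`, `h` the frequency vector of the torus; `hh h = (1, h)`.
-/

set_option autoImplicit false

namespace Pool.Agent.LRig

open Complex Set MeasureTheory
open scoped ComplexConjugate

/-- the points `(z, h)` : time and angles, frequencies -/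
abbrev CE (n : ℕ) : Type := (Fin (n + 1) → ℂ) × (Fin n → ℂ)

variable {n : ℕ}

/-- the unit vectors of the variables `z` -/
def ez (i : Fin (n + 1)) : CE n := (Pi.single i 1, 0)

/-- the unit vectors of the variables `h` -/
def eh (a : Fin n) : CE n := (0, Pi.single a 1)

/-- the frequency vector `(1, h)` -/
def hh (h : Fin n → ℂ) : Fin (n + 1) → ℂ := Fin.cons 1 h

/-- the complex conjugate point -/
def cj (y : CE n) : CE n := (fun i => conj (y.1 i), fun a => conj (y.2 a))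

/-- the real points `(x, h)` -/
def rp (x : Fin (n + 1) → ℝ) (h : Fin n → ℝ) : CE n := (fun i => (x i : ℂ), fun a => (h a : ℂ))

/-- the domains -/
def Om (n : ℕ) (δ s : ℝ) : Set (CE n) := {y | (∀ i, |(y.1 i).im| < δ) ∧ ∀ a, |(y.2 a).im| < s}

/-- the derivatives with respect to time and angles -/
noncomputable def dz (i : Fin (n + 1)) (F : CE n → ℂ) : CE n → ℂ := fun y => fderiv ℂ F y (ez i)

/-- the derivatives with respect to the frequencies -/
noncomputable def dh (a : Fin n) (F : CE n → ℂ) : CE n → ℂ := fun y => fderiv ℂ F y (eh a)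

/-- the derivative in the direction of the flow -/
noncomputable def DD (F : CE n → ℂ) : CE n → ℂ := fun y => fderiv ℂ F y (hh y.2, 0)

/-- holomorphic on `Om δ s`, periodic in `z`, real at real points -/
structure Fn (δ s : ℝ) (F : CE n → ℂ) : Prop where
  hol : DifferentiableOn ℂ F (Om n δ s)
  per : ∀ (i : Fin (n + 1)) (y : CE n), F (y + ez i) = F y
  real : ∀ y : CE n, F (cj y) = conj (F y)

/-- bounded by `c` on `Om δ s` -/
def Bd (δ s c : ℝ) (F : CE n → ℂ) : Prop := ∀ y ∈ Om n δ s, ‖F y‖ ≤ c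

/-- `k · z` -/
def kz (k : Fin (n + 1) → ℤ) (z : Fin (n + 1) → ℂ) : ℂ := ∑ i, (k i : ℂ) * z i

/-- the exponentials `e^{2 π i k · z}` -/
noncomputable def ek (k : Fin (n + 1) → ℤ) (y : CE n) : ℂ := exp (2 * Real.pi * I * kz k y.1)

/-- the divisors `k · (1, h)` -/
noncomputable def dv (k : Fin (n + 1) → ℤ) (y : CE n) : ℂ := kz k (hh y.2)

/-- the norm `∑ |k i|` -/
def nk (k : Fin (n + 1) → ℤ) : ℕ := ∑ i, (k i).natAbs

/-- the angular part of `k` is not zero -/
def Nz (k : Fin (n + 1) → ℤ) : Prop := ∃ a : Fin n, k a.succ ≠ 0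

/-- the mean over `z` -/
noncomputable def avg (F : CE n → ℂ) : CE n → ℂ := fun y =>
  ∫ x in Icc (0 : Fin (n + 1) → ℝ) 1, F (fun i => (x i : ℂ), y.2)

/-- the Fourier coefficients with respect to `z` -/
noncomputable def cf (k : Fin (n + 1) → ℤ) (F : CE n → ℂ) : CE n → ℂ := fun y =>
  ∫ x in Icc (0 : Fin (n + 1) → ℝ) 1,
    F (fun i => (x i : ℂ), y.2) * exp (-(2 * Real.pi * I * kz k fun i => (x i : ℂ)))

/-- the projection of the frequencies to the resonance hyperplane `k · (1, h) = 0` -/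
noncomputable def pk (k : Fin (n + 1) → ℤ) (y : CE n) : CE n :=
  (y.1, fun a => y.2 a - dv k y * (k a.succ : ℂ) / ∑ b : Fin n, ((k b.succ : ℂ)) ^ 2)

/-! ## States of the Newton scheme

`A` is a symmetric real matrix, `B` its inverse, the Hamiltonian is `½ ⟨B p, p⟩ + R (t, x, p)`.  The
torus with frequency `h` is `X = θ + u`, `Q = A h + q`. -/

/-- the positions -/
def Xf (u : Fin n → CE n → ℂ) (a : Fin n) : CE n → ℂ := fun y => y.1 a.succ + u a y

/-- the momenta -/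
def Qf (A : Matrix (Fin n) (Fin n) ℝ) (q : Fin n → CE n → ℂ) (a : Fin n) : CE n → ℂ :=
  fun y => ∑ b, (A a b : ℂ) * y.2 b + q a y

/-- the map `Ψ = ((time, X), Q)` -/
def Ps (A : Matrix (Fin n) (Fin n) ℝ) (u q : Fin n → CE n → ℂ) : CE n → CE n :=
  fun y => (Fin.cons (y.1 0) fun a => Xf u a y, fun a => Qf A q a y)

/-- the error in the first Hamilton equation -/
noncomputable def E1 (A B : Matrix (Fin n) (Fin n) ℝ) (R : CE n → ℂ) (u q : Fin n → CE n → ℂ)
    (a : Fin n) : CE n → ℂ :=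
  fun y => DD (u a) y - ∑ b, (B a b : ℂ) * q b y - dh a R (Ps A u q y)

/-- the error in the second Hamilton equation -/
noncomputable def E2 (A : Matrix (Fin n) (Fin n) ℝ) (R : CE n → ℂ) (u q : Fin n → CE n → ℂ)
    (a : Fin n) : CE n → ℂ :=
  fun y => DD (q a) y + dz a.succ R (Ps A u q y)

/-- the action (up to `½ ⟨A h, h⟩` and a total derivative) -/
noncomputable def Lm (A B : Matrix (Fin n) (Fin n) ℝ) (R : CE n → ℂ) (u q : Fin n → CE n → ℂ) :
    CE n → ℂ :=
  fun y => ∑ a, q a y * DD (u a) y - (∑ a, ∑ b, (B a b : ℂ) * q a y * q b y) / 2 -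
    R (Ps A u q y)

/-- the correction `g` of the cohomology class `A h + g` -/
noncomputable def gg (A B : Matrix (Fin n) (Fin n) ℝ) (R : CE n → ℂ) (u q : Fin n → CE n → ℂ)
    (a : Fin n) : CE n → ℂ := dh a (avg (Lm A B R u q))

/-- the twist `τ` -/
noncomputable def ta (A B : Matrix (Fin n) (Fin n) ℝ) (R : CE n → ℂ) (u q : Fin n → CE n → ℂ)
    (a b : Fin n) : CE n → ℂ := fun y => A a b + dh a (gg A B R u q b) y

/-- the error `Z` of the generating function `w` -/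
noncomputable def ZZ (A B : Matrix (Fin n) (Fin n) ℝ) (R : CE n → ℂ) (u q : Fin n → CE n → ℂ)
    (w : CE n → ℂ) : CE n → ℂ :=
  fun y => DD w y - Lm A B R u q y + avg (Lm A B R u q) y

/-- the error `H` of the graph property -/
noncomputable def HH (A B : Matrix (Fin n) (Fin n) ℝ) (R : CE n → ℂ) (u q : Fin n → CE n → ℂ)
    (w : CE n → ℂ) (a : Fin n) : CE n → ℂ :=
  fun y => dz a.succ w y + gg A B R u q a y - q a y - ∑ b, q b y * dz a.succ (u b) y

/-- the function `K` -/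
noncomputable def KK (A : Matrix (Fin n) (Fin n) ℝ) (u q : Fin n → CE n → ℂ)
    (w : CE n → ℂ) (a : Fin n) : CE n → ℂ :=
  fun y => dh a w y + ∑ b, (A b a : ℂ) * u b y - ∑ b, q b y * dh a (u b) y

/-- `Θ_ab = Ω(Ψ_θa, Ψ_θb)` -/
noncomputable def Th (A : Matrix (Fin n) (Fin n) ℝ) (u q : Fin n → CE n → ℂ) (a b : Fin n) :
    CE n → ℂ :=
  fun y => ∑ c, (dz a.succ (Qf A q c) y * dz b.succ (Xf u c) y -
    dz b.succ (Qf A q c) y * dz a.succ (Xf u c) y)

/-- `T_ab = Ω(Ψ_ha, Ψ_θb)` -/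
noncomputable def TT (A : Matrix (Fin n) (Fin n) ℝ) (u q : Fin n → CE n → ℂ) (a b : Fin n) :
    CE n → ℂ :=
  fun y => ∑ c, (dh a (Qf A q c) y * dz b.succ (Xf u c) y -
    dz b.succ (Qf A q c) y * dh a (Xf u c) y)

/-- `Σ_ab = Ω(Ψ_ha, Ψ_hb)` -/
noncomputable def Sg (A : Matrix (Fin n) (Fin n) ℝ) (u q : Fin n → CE n → ℂ) (a b : Fin n) :
    CE n → ℂ :=
  fun y => ∑ c, (dh a (Qf A q c) y * dh b (Xf u c) y - dh b (Qf A q c) y * dh a (Xf u c) y)

/-- the inverse of the twist -/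
noncomputable def ti (A B : Matrix (Fin n) (Fin n) ℝ) (R : CE n → ℂ) (u q : Fin n → CE n → ℂ)
    (a b : Fin n) : CE n → ℂ :=
  fun y => (Matrix.of fun c d => ta A B R u q c d y)⁻¹ a b

/-- the coefficients `β` of the correction -/
noncomputable def be (A B : Matrix (Fin n) (Fin n) ℝ) (R : CE n → ℂ) (u q : Fin n → CE n → ℂ)
    (w : CE n → ℂ) (a : Fin n) : CE n → ℂ :=
  fun y => ∑ b, ti A B R u q a b y * HH A B R u q w b y

/-- the coefficients `a` of the correction -/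
noncomputable def al (A B : Matrix (Fin n) (Fin n) ℝ) (R : CE n → ℂ) (u q : Fin n → CE n → ℂ)
    (w : CE n → ℂ) (a : Fin n) : CE n → ℂ :=
  fun y => -∑ b, ti A B R u q a b y * (KK A u q w b y - avg (KK A u q w b) y +
    ∑ c, avg (Sg A u q b c) y * be A B R u q w c y)

/-- the correction of a function `F` (`= X_b` or `Q_b`) of the family -/
noncomputable def co (A B : Matrix (Fin n) (Fin n) ℝ) (R : CE n → ℂ) (u q : Fin n → CE n → ℂ)
    (w F : CE n → ℂ) : CE n → ℂ :=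
  fun y => ∑ a, dz a.succ F y * al A B R u q w a y + ∑ a, dh a F y * be A B R u q w a y

/-- the Hamiltonian: `A` symmetric with inverse `B`, `R` holomorphic and bounded by `1` -/
structure Ctx (A B : Matrix (Fin n) (Fin n) ℝ) (M σ : ℝ) (R : CE n → ℂ) : Prop where
  symm : ∀ i j, A i j = A j i
  inv : B * A = 1
  inv' : A * B = 1
  M_ge : 1 ≤ M
  A_le : ∀ i j, |A i j| ≤ M
  B_le : ∀ i j, |B i j| ≤ M
  σ_pos : 0 < σ
  σ_le : σ ≤ 1
  R_fn : Fn σ σ R
  R_bd : Bd σ σ 1 R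

/-- the smallness of the states: `b ≤ b₀` -/
noncomputable def b0 (n : ℕ) (M σ : ℝ) : ℝ := σ / (64 * (n + 1) ^ 2 * M)

/-- approximate families of tori -/
structure St (A B : Matrix (Fin n) (Fin n) ℝ) (M σ : ℝ) (R : CE n → ℂ) (δ s b ε : ℝ)
    (u q : Fin n → CE n → ℂ) : Prop where
  δ_pos : 0 < δ
  δ_le : δ ≤ σ / 8
  s_pos : 0 < s
  s_le : (n + 1) * M * s ≤ σ / 8
  b_nonneg : 0 ≤ b
  b_le : b ≤ b0 n M σ
  ε_nonneg : 0 ≤ ε
  ε_le : ε ≤ 1
  ufn : ∀ a, Fn δ s (u a)
  qfn : ∀ a, Fn δ s (q a)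
  u0 : ∀ a, Bd δ s b (u a)
  q0 : ∀ a, Bd δ s b (q a)
  uz : ∀ a i, Bd δ s b (dz i (u a))
  qz : ∀ a i, Bd δ s b (dz i (q a))
  uh : ∀ a c, Bd δ s b (dh c (u a))
  qh : ∀ a c, Bd δ s b (dh c (q a))
  tau : ∀ a c, Bd δ s b (dh a (gg A B R u q c))
  e1 : ∀ a, Bd δ s ε (E1 A B R u q a)
  e2 : ∀ a, Bd δ s ε (E2 A R u q a)

end Pool.Agent.LRig
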