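import Pool.Agent.LRig.Defs
import Pool.Agent.NOne.KHol

/-!
# LR (MP_74f563_an, all n), file FA: domains, the class `Fn`, bounds

PROOFS.  `Om n δ s` is a finite intersection of open half spaces (real-linear conditions on the
imaginary parts): open, convex.  The closure properties of `Fn` are those of `DifferentiableOn` plus
pointwise computations.

Derivatives (`Fn.dz`, `Fn.dh`): holomorphic by the directional lemma of `Pool.Agent.NOne.KHol`
(`kh_dir` there is private: copy its proof; it is stated for finite-dimensional complex normed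
spaces):
for `f` complex differentiable on the open set `V` the function `x ↦ fderiv ℂ f x v` is complex
differentiable on `V`.  It is the public theorem `hol_dir` here.  `smooth_of_hol`: by induction
(`contDiffOn_succ_iff_fderiv_of_isOpen`, the derivative is a finite sum of coordinate derivatives;
see
`kh_smooth` in `KHol`), or through `hol_dir` and a basis.  Periodicity: `fderiv` of a function
which is
invariant under the translation by `ez i` is invariant (`fderiv_comp_add_right`).  Reality: with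
`c = cj` (a real-linear involution, conjugate linear) `F ∘ c = conj ∘ F` gives
`fderiv ℂ F (c y) v = conj (fderiv ℂ F y (c v))`, also when `F` is not differentiable at `y` (then
it
is not at `c y`, both sides are `0`); `c (ez i) = ez i`, `c (eh a) = eh a`,
`c (hh y.2, 0) = (hh (c y).2, 0)`.  (Compare `rsym_p1` in `Pool.Agent.NOne`.)
`DD_eq`: `(hh y.2, 0) = ez 0 + ∑ a, y.2 a • ez a.succ` and linearity of `fderiv ℂ F y`; this shows
that `DD F` is in `Fn`.
-/

set_option autoImplicit false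

namespace Pool.Agent.LRig

open Complex Set MeasureTheory
open scoped ComplexConjugate ContDiff

variable {n : ℕ} {δ s δ' s' c c' : ℝ} {F G : CE n → ℂ} {y : CE n}

/-! ## Domains -/

theorem isOpen_Om (δ s : ℝ) : IsOpen (Om n δ s) := by
  have h1 : Om n δ s = (⋂ i : Fin (n + 1), {y : CE n | |(y.1 i).im| < δ}) ∩
      ⋂ a : Fin n, {y : CE n | |(y.2 a).im| < s} := by
    ext y
    simp [Om]
  rw [h1]
  refine IsOpen.inter (isOpen_iInter_of_finite fun i => ?_) (isOpen_iInter_of_finite fun a => ?_)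
  · exact isOpen_lt (by fun_prop) continuous_const
  · exact isOpen_lt (by fun_prop) continuous_const

theorem convex_Om (δ s : ℝ) : Convex ℝ (Om n δ s) := by
  intro x hx y hy a b ha hb hab
  refine ⟨fun i => ?_, fun i => ?_⟩
  · have h1 := (convex_Ioo (-δ) δ) (abs_lt.1 (hx.1 i)) (abs_lt.1 (hy.1 i)) ha hb hab
    rw [abs_lt]
    have e : ((a • x + b • y).1 i).im = a • (x.1 i).im + b • (y.1 i).im := by simp
    rw [e]
    exact h1
  · have h1 := (convex_Ioo (-s) s) (abs_lt.1 (hx.2 i)) (abs_lt.1 (hy.2 i)) ha hb hab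
    rw [abs_lt]
    have e : ((a • x + b • y).2 i).im = a • (x.2 i).im + b • (y.2 i).im := by simp
    rw [e]
    exact h1

theorem Om_mono (h1 : δ' ≤ δ) (h2 : s' ≤ s) : Om n δ' s' ⊆ Om n δ s := by
  exact fun y hy => ⟨fun i => (hy.1 i).trans_le h1, fun a => (hy.2 a).trans_le h2⟩

theorem cj_mem (h : y ∈ Om n δ s) : cj y ∈ Om n δ s := by
  refine ⟨fun i => ?_, fun a => ?_⟩
  · change |(conj (y.1 i)).im| < δ
    rw [conj_im, abs_neg]
    exact h.1 i
  · change |(conj (y.2 a)).im| < s
    rw [conj_im, abs_neg]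
    exact h.2 a

theorem cj_cj (y : CE n) : cj (cj y) = y := by
  refine Prod.ext (funext fun i => ?_) (funext fun a => ?_)
  · exact conj_conj (y.1 i)
  · exact conj_conj (y.2 a)

theorem rp_mem (hδ : 0 < δ) (hs : 0 < s) (x : Fin (n + 1) → ℝ) (h : Fin n → ℝ) :
    rp x h ∈ Om n δ s := by
  refine ⟨fun i => ?_, fun a => ?_⟩
  · change |((x i : ℂ)).im| < δ
    rw [ofReal_im, abs_zero]
    exact hδ
  · change |((h a : ℂ)).im| < s
    rw [ofReal_im, abs_zero]
    exact hs

theorem cj_rp (x : Fin (n + 1) → ℝ) (h : Fin n → ℝ) : cj (rp x h) = rp x h := by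
  refine Prod.ext (funext fun i => ?_) (funext fun a => ?_)
  · exact conj_ofReal (x i)
  · exact conj_ofReal (h a)

/-- a point can be moved by a small vector -/
theorem add_mem_Om {v : CE n} {a b : ℝ} (h : y ∈ Om n δ s) (h1 : ∀ i, ‖v.1 i‖ ≤ a)
    (h2 : ∀ i, ‖v.2 i‖ ≤ b) : y + v ∈ Om n (δ + a) (s + b) := by
  refine ⟨fun i => ?_, fun i => ?_⟩
  · change |(y.1 i + v.1 i).im| < δ + a
    rw [add_im]
    have h3 := abs_add_le (y.1 i).im (v.1 i).im
    have h4 := h.1 i
    have h5 := abs_im_le_norm (v.1 i)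
    have h6 := h1 i
    linarith
  · change |(y.2 i + v.2 i).im| < s + b
    rw [add_im]
    have h3 := abs_add_le (y.2 i).im (v.2 i).im
    have h4 := h.2 i
    have h5 := abs_im_le_norm (v.2 i)
    have h6 := h2 i
    linarith

/-- real angles -/
theorem real_mem_Om (hδ : 0 < δ) (h : y ∈ Om n δ' s) (x : Fin (n + 1) → ℝ) :
    ((fun i => (x i : ℂ)), y.2) ∈ Om n δ s := by
  refine ⟨fun i => ?_, h.2⟩
  change |((x i : ℂ)).im| < δ
  rw [ofReal_im, abs_zero]
  exact hδ

theorem Om_pos_of_mem (h : y ∈ Om n δ s) : 0 < δ := by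
  exact (abs_nonneg _).trans_lt (h.1 0)

/-! ## General facts on holomorphic functions -/

open Metric Filter Topology in
/-- directional derivatives of holomorphic functions are holomorphic -/
theorem hol_dir {E : Type*} [NormedAddCommGroup E] [NormedSpace ℂ E] [FiniteDimensional ℂ E]
    {f : E → ℂ} {V : Set E} (hV : IsOpen V) (hf : DifferentiableOn ℂ f V) (v : E) :
    DifferentiableOn ℂ (fun x => fderiv ℂ f x v) V := by
  -- copied from KHol
  intro x0 hx0
  apply DifferentiableAt.differentiableWithinAt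
  obtain ⟨r0, hr0, hball⟩ := Metric.isOpen_iff.mp hV x0 hx0
  set r := r0 / 4 with hr
  have hrpos : 0 < r := by positivity
  set ρ := r / (‖v‖ + 1) with hρ
  have hρpos : 0 < ρ := by positivity
  have hρv : ρ * ‖v‖ ≤ r := by
    rw [hρ, div_mul_eq_mul_div, div_le_iff₀ (by positivity)]
    nlinarith [norm_nonneg v]
  have hK : closedBall x0 (2 * r) ⊆ V := by
    refine (closedBall_subset_ball ?_).trans hball
    rw [hr]; linarith
  have hmem : ∀ x ∈ ball x0 r, ∀ ζ ∈ closedBall (0 : ℂ) ρ, x + ζ • v ∈ V := by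
    intro x hx ζ hζ
    apply hK
    rw [mem_closedBall, dist_eq_norm]
    rw [mem_ball, dist_eq_norm] at hx
    rw [mem_closedBall_zero_iff] at hζ
    calc ‖x + ζ • v - x0‖ = ‖(x - x0) + ζ • v‖ := by congr 1; abel
      _ ≤ ‖x - x0‖ + ‖ζ • v‖ := norm_add_le _ _
      _ ≤ r + ρ * ‖v‖ := by
        rw [norm_smul]; gcongr
      _ ≤ 2 * r := by linarith
  have hformula : ∀ x ∈ ball x0 r, fderiv ℂ f x v =
      (2 * Real.pi * Complex.I : ℂ)⁻¹ * ∮ ζ in C(0, ρ), (ζ - 0)⁻¹ * (ζ⁻¹ * f (x + ζ • v)) := by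
    intro x hx
    have hd : DifferentiableOn ℂ (fun ζ : ℂ => f (x + ζ • v)) (closedBall 0 ρ) := by
      intro ζ hζ
      have h1 : DifferentiableAt ℂ f (x + ζ • v) :=
        (hf _ (hmem x hx ζ hζ)).differentiableAt (hV.mem_nhds (hmem x hx ζ hζ))
      have h2 : DifferentiableAt ℂ (fun ζ : ℂ => x + ζ • v) ζ := by fun_prop
      exact (h1.comp ζ h2).differentiableWithinAt
    have hder : deriv (fun ζ : ℂ => f (x + ζ • v)) 0 = fderiv ℂ f x v := by
      have h0 : x + (0 : ℂ) • v = x := by simp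
      have h1 : HasFDerivAt f (fderiv ℂ f x) (x + (0 : ℂ) • v) := by
        rw [h0]
        have : x ∈ V := by simpa using hmem x hx 0 (by simp [hρpos.le])
        exact ((hf x this).differentiableAt (hV.mem_nhds this)).hasFDerivAt
      have h2 : HasDerivAt (fun ζ : ℂ => x + ζ • v) v 0 := by
        simpa using ((hasDerivAt_id (0 : ℂ)).smul_const v).const_add x
      exact (h1.comp_hasDerivAt (0 : ℂ) h2).deriv
    have h3 := hd.deriv_eq_smul_circleIntegral hρpos
    rw [hder] at h3
    have h4 : (∮ ζ in C(0, ρ), (ζ - 0)⁻¹ * (ζ⁻¹ * f (x + ζ • v))) =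
        ∮ z in C(0, ρ), (1 / (z - 0) ^ 2) • f (x + z • v) := by
      congr 1
      funext ζ
      rw [smul_eq_mul, one_div, sub_zero, pow_two, mul_inv, mul_assoc]
    rw [h4, h3, smul_eq_mul, inv_mul_cancel_left₀]
    simp [Real.pi_ne_zero]
  have hev : (fun x => fderiv ℂ f x v) =ᶠ[𝓝 x0] fun x =>
      (2 * Real.pi * Complex.I : ℂ)⁻¹ * ∮ ζ in C(0, ρ), (ζ - 0)⁻¹ * (ζ⁻¹ * f (x + ζ • v)) := by
    filter_upwards [ball_mem_nhds x0 hrpos] with x hx using hformula x hx
  refine DifferentiableAt.congr_of_eventuallyEq ?_ hev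
  apply DifferentiableAt.const_mul
  let g : ℂ × E → ℂ := fun w => w.1⁻¹ * f (w.2 + w.1 • v)
  let Q : Set (ℂ × E) := {w | w.1 ≠ 0} ∩ (fun w : ℂ × E => w.2 + w.1 • v) ⁻¹' V
  have hQ : IsOpen Q := by
    refine IsOpen.inter ?_ (hV.preimage (by fun_prop))
    exact isOpen_ne_fun continuous_fst continuous_const
  have hg : DifferentiableOn ℂ g Q := by
    intro w hw
    apply DifferentiableAt.differentiableWithinAt
    have h1 : DifferentiableAt ℂ f (w.2 + w.1 • v) :=
      (hf _ hw.2).differentiableAt (hV.mem_nhds hw.2)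
    have h2 : DifferentiableAt ℂ (fun w : ℂ × E => w.2 + w.1 • v) w := by fun_prop
    have h3 : DifferentiableAt ℂ (fun w : ℂ × E => w.1⁻¹) w :=
      differentiableAt_fst.inv hw.1
    exact h3.mul (h1.comp w h2)
  have hsub : sphere (0 : ℂ) ρ ×ˢ ball x0 r ⊆ Q := by
    rintro w ⟨hw1, hw2⟩
    refine ⟨?_, hmem _ hw2 _ (sphere_subset_closedBall hw1)⟩
    rw [mem_sphere_zero_iff_norm] at hw1
    intro h0
    rw [h0, norm_zero] at hw1
    exact hρpos.ne hw1
  have hmain := Pool.Agent.MEP.differentiableOn_circleIntegral_param hρpos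
    (isOpen_ball (x := x0) (ε := r)) hQ hg hsub
  have hx : ((0 : ℂ), x0) ∈ ball (0 : ℂ) ρ ×ˢ ball x0 r :=
    ⟨mem_ball_self hρpos, mem_ball_self hrpos⟩
  have h1 := (hmain _ hx).differentiableAt ((isOpen_ball.prod isOpen_ball).mem_nhds hx)
  have h2 : DifferentiableAt ℂ (fun x : E => ((0 : ℂ), x)) x0 := by fun_prop
  exact h1.comp x0 h2

private theorem fa_smooth {E : Type*} [NormedAddCommGroup E] [NormedSpace ℂ E]
    [FiniteDimensional ℂ E] {V : Set E} (hV : IsOpen V) :
    ∀ (n : ℕ) {f : E → ℂ}, DifferentiableOn ℂ f V → ContDiffOn ℂ n f V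
  | 0, f, hf => by
    rw [Nat.cast_zero, contDiffOn_zero]
    exact hf.continuousOn
  | n + 1, f, hf => by
    rw [Nat.cast_add, Nat.cast_one, contDiffOn_succ_iff_fderiv_of_isOpen hV]
    refine ⟨hf, fun h => absurd h (by simp), ?_⟩
    rw [contDiffOn_clm_apply]
    intro v
    exact fa_smooth hV n (hol_dir hV hf v)

/-- holomorphic functions are smooth -/
theorem smooth_of_hol {E : Type*} [NormedAddCommGroup E] [NormedSpace ℂ E]
    [FiniteDimensional ℂ E] {f : E → ℂ} {V : Set E} (hV : IsOpen V)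
    (hf : DifferentiableOn ℂ f V) : ContDiffOn ℂ ∞ f V := by
  rw [contDiffOn_infty]
  exact fun n => fa_smooth hV n hf

/-! ## The class `Fn` -/

theorem Fn.mono (h : Fn δ s F) (h1 : δ' ≤ δ) (h2 : s' ≤ s) : Fn δ' s' F := by
  exact ⟨h.hol.mono (Om_mono h1 h2), h.per, h.real⟩

theorem Fn.dat (h : Fn δ s F) (hy : y ∈ Om n δ s) : DifferentiableAt ℂ F y := by
  exact (h.hol y hy).differentiableAt ((isOpen_Om δ s).mem_nhds hy)

theorem Fn.cont (h : Fn δ s F) : ContinuousOn F (Om n δ s) := by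
  exact h.hol.continuousOn

theorem fn_const (r : ℝ) : Fn δ s fun _ : CE n => (r : ℂ) := by
  exact ⟨differentiableOn_const _, fun _ _ => rfl, fun _ => (conj_ofReal r).symm⟩

theorem fn_h (a : Fin n) : Fn δ s fun y : CE n => y.2 a := by
  refine ⟨?_, fun i y => ?_, fun _ => rfl⟩
  · exact (by fun_prop : Differentiable ℂ fun y : CE n => y.2 a).differentiableOn
  · change y.2 a + (0 : Fin n → ℂ) a = y.2 a
    rw [Pi.zero_apply, add_zero]

theorem Fn.add (hF : Fn δ s F) (hG : Fn δ s G) : Fn δ s fun y => F y + G y := by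
  refine ⟨hF.hol.add hG.hol, fun i y => ?_, fun y => ?_⟩
  · rw [hF.per, hG.per]
  · rw [hF.real, hG.real, map_add]

theorem Fn.sub (hF : Fn δ s F) (hG : Fn δ s G) : Fn δ s fun y => F y - G y := by
  refine ⟨hF.hol.sub hG.hol, fun i y => ?_, fun y => ?_⟩
  · rw [hF.per, hG.per]
  · rw [hF.real, hG.real, map_sub]

theorem Fn.neg (hF : Fn δ s F) : Fn δ s fun y => -F y := by
  refine ⟨hF.hol.neg, fun i y => ?_, fun y => ?_⟩
  · rw [hF.per]
  · rw [hF.real, map_neg]

theorem Fn.mul (hF : Fn δ s F) (hG : Fn δ s G) : Fn δ s fun y => F y * G y := by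
  refine ⟨hF.hol.mul hG.hol, fun i y => ?_, fun y => ?_⟩
  · rw [hF.per, hG.per]
  · rw [hF.real, hG.real, map_mul]

theorem Fn.smul (r : ℝ) (hF : Fn δ s F) : Fn δ s fun y => (r : ℂ) * F y := by
  exact (fn_const r).mul hF

theorem Fn.sum {ι : Type*} {S : Finset ι} {f : ι → CE n → ℂ} (h : ∀ i ∈ S, Fn δ s (f i)) :
    Fn δ s fun y => ∑ i ∈ S, f i y := by
  refine ⟨DifferentiableOn.fun_sum fun i hi => (h i hi).hol, fun j y => ?_, fun y => ?_⟩
  · exact Finset.sum_congr rfl fun i hi => (h i hi).per j y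
  · rw [map_sum]
    exact Finset.sum_congr rfl fun i hi => (h i hi).real y

theorem Fn.inv (hF : Fn δ s F) (h0 : ∀ y ∈ Om n δ s, F y ≠ 0) : Fn δ s fun y => (F y)⁻¹ := by
  refine ⟨hF.hol.inv h0, fun i y => ?_, fun y => ?_⟩
  · rw [hF.per]
  · rw [hF.real, map_inv₀]

/-- the real points -/
theorem Fn.im_rp (hF : Fn δ s F) (x : Fin (n + 1) → ℝ) (h : Fin n → ℝ) : (F (rp x h)).im = 0 := by
  have h1 := hF.real (rp x h)
  rw [cj_rp] at h1
  exact conj_eq_iff_im.1 h1.symm

/-- integer periods -/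
theorem Fn.per_int (hF : Fn δ s F) (l : Fin (n + 1) → ℤ) (y : CE n) :
    F (y + ((fun i => (l i : ℂ)), 0)) = F y := by
  have key1 : ∀ (i : Fin (n + 1)) (m : ℤ) (y : CE n), F (y + (m : ℂ) • ez i) = F y := by
    intro i m
    induction m using Int.induction_on with
    | zero =>
      intro y
      rw [Int.cast_zero, zero_smul, add_zero]
    | succ m ih =>
      intro y
      rw [Int.cast_add, Int.cast_one, add_smul, one_smul, ← add_assoc, hF.per, ih]
    | pred m ih =>
      intro y
      have h1 := hF.per i (y + ((-(m : ℤ) - 1 : ℤ) : ℂ) • ez i)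
      rw [← h1, ← ih y]
      congr 1
      rw [Int.cast_sub, Int.cast_one, sub_smul, one_smul]
      abel
  have key2 : ∀ (S : Finset (Fin (n + 1))) (y : CE n),
      F (y + ∑ i ∈ S, (l i : ℂ) • ez i) = F y := by
    intro S
    induction S using Finset.induction_on with
    | empty =>
      intro y
      rw [Finset.sum_empty, add_zero]
    | insert i S hi ih =>
      intro y
      rw [Finset.sum_insert hi, ← add_assoc, ih, key1]
  have h3 : (((fun i => (l i : ℂ)), 0) : CE n) = ∑ i, (l i : ℂ) • ez i := by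
    refine Prod.ext ?_ ?_
    · rw [Prod.fst_sum]
      funext j
      rw [Finset.sum_apply]
      simp [ez, Pi.single_apply]
    · rw [Prod.snd_sum]
      simp [ez]
  rw [h3]
  exact key2 _ y

private theorem fa_cj_add (y v : CE n) : cj (y + v) = cj y + cj v := by
  refine Prod.ext (funext fun i => ?_) (funext fun a => ?_)
  · exact map_add conj (y.1 i) (v.1 i)
  · exact map_add conj (y.2 a) (v.2 a)

private theorem fa_cj_smul (c : ℂ) (v : CE n) : cj (c • v) = conj c • cj v := by
  refine Prod.ext (funext fun i => ?_) (funext fun a => ?_)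
  · exact map_mul conj c (v.1 i)
  · exact map_mul conj c (v.2 a)

private theorem fa_norm_cj (v : CE n) : ‖cj v‖ = ‖v‖ := by
  have h1 : ∀ {m : ℕ} (z : Fin m → ℂ), ‖fun i => conj (z i)‖ = ‖z‖ := by
    intro m z
    rw [Pi.norm_def, Pi.norm_def]
    congr 1
    refine Finset.sup_congr rfl fun i _ => ?_
    apply NNReal.eq
    rw [coe_nnnorm, coe_nnnorm]
    exact Complex.norm_conj (z i)
  rw [Prod.norm_def, Prod.norm_def]
  change max ‖fun i => conj (v.1 i)‖ ‖fun a => conj (v.2 a)‖ = _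
  rw [h1, h1]

private theorem fa_continuous_cj : Continuous (cj : CE n → CE n) := by
  unfold cj
  fun_prop

/-- the conjugate of a linear form -/
private noncomputable def fa_cl (A : CE n →L[ℂ] ℂ) : CE n →L[ℂ] ℂ :=
  LinearMap.toContinuousLinearMap
    { toFun := fun v => conj (A (cj v))
      map_add' := fun v w => by rw [fa_cj_add, map_add, map_add]
      map_smul' := fun c v => by
        rw [fa_cj_smul, map_smul, smul_eq_mul, map_mul, conj_conj, RingHom.id_apply, smul_eq_mul] }

private theorem fa_cl_apply (A : CE n →L[ℂ] ℂ) (v : CE n) : fa_cl A v = conj (A (cj v)) := rfl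

private theorem fa_has (hreal : ∀ y : CE n, F (cj y) = conj (F y)) {A : CE n →L[ℂ] ℂ}
    (h : HasFDerivAt F A y) : HasFDerivAt F (fa_cl A) (cj y) := by
  rw [hasFDerivAt_iff_isLittleO_nhds_zero] at h ⊢
  have h0 : Filter.Tendsto (cj : CE n → CE n) (nhds 0) (nhds 0) := by
    have h1 := (fa_continuous_cj (n := n)).tendsto 0
    have h2 : cj (0 : CE n) = 0 := by
      refine Prod.ext (funext fun i => ?_) (funext fun a => ?_)
      · exact map_zero conj
      · exact map_zero conj
    rwa [h2] at h1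
  have h3 := h.comp_tendsto h0
  refine (Asymptotics.IsLittleO.of_norm_norm ?_)
  refine (h3.norm_norm).congr (fun v => ?_) fun v => ?_
  · change ‖F (y + cj v) - F y - A (cj v)‖ = ‖F (cj y + v) - F (cj y) - fa_cl A v‖
    have e1 : cj y + v = cj (y + cj v) := by rw [fa_cj_add, cj_cj]
    rw [e1, hreal, hreal, fa_cl_apply, ← map_sub, ← map_sub, Complex.norm_conj]
  · exact fa_norm_cj v

private theorem fa_real (hreal : ∀ y : CE n, F (cj y) = conj (F y)) (y v : CE n) :
    fderiv ℂ F (cj y) v = conj (fderiv ℂ F y (cj v)) := by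
  by_cases h : DifferentiableAt ℂ F y
  · rw [(fa_has hreal h.hasFDerivAt).fderiv]
    rfl
  · have h2 : ¬ DifferentiableAt ℂ F (cj y) := by
      intro h3
      have h4 := (fa_has hreal h3.hasFDerivAt).differentiableAt
      rw [cj_cj] at h4
      exact h h4
    rw [fderiv_zero_of_not_differentiableAt h, fderiv_zero_of_not_differentiableAt h2]
    exact (map_zero conj).symm

private theorem fa_per (hper : ∀ (i : Fin (n + 1)) (y : CE n), F (y + ez i) = F y)
    (i : Fin (n + 1)) (y : CE n) : fderiv ℂ F (y + ez i) = fderiv ℂ F y := by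
  rw [← fderiv_comp_add_right]
  congr 1
  funext x
  exact hper i x

private theorem fa_cj_ez (i : Fin (n + 1)) : cj (ez i : CE n) = ez i := by
  refine Prod.ext (funext fun j => ?_) (funext fun a => ?_)
  · change conj ((Pi.single i 1 : Fin (n + 1) → ℂ) j) = (Pi.single i 1 : Fin (n + 1) → ℂ) j
    by_cases h : j = i
    · subst h
      rw [Pi.single_eq_same, map_one]
    · rw [Pi.single_eq_of_ne h, map_zero]
  · exact map_zero conj

private theorem fa_cj_eh (a : Fin n) : cj (eh a : CE n) = eh a := by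
  refine Prod.ext (funext fun j => ?_) (funext fun b => ?_)
  · exact map_zero conj
  · change conj ((Pi.single a 1 : Fin n → ℂ) b) = (Pi.single a 1 : Fin n → ℂ) b
    by_cases h : b = a
    · subst h
      rw [Pi.single_eq_same, map_one]
    · rw [Pi.single_eq_of_ne h, map_zero]

theorem Fn.dz (hF : Fn δ s F) (i : Fin (n + 1)) : Fn δ s (dz i F) := by
  refine ⟨hol_dir (isOpen_Om δ s) hF.hol _, fun j y => ?_, fun y => ?_⟩
  · change fderiv ℂ F (y + ez j) (ez i) = fderiv ℂ F y (ez i)
    rw [fa_per hF.per]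
  · change fderiv ℂ F (cj y) (ez i) = conj (fderiv ℂ F y (ez i))
    rw [fa_real hF.real, fa_cj_ez]

theorem Fn.dh (hF : Fn δ s F) (a : Fin n) : Fn δ s (dh a F) := by
  refine ⟨hol_dir (isOpen_Om δ s) hF.hol _, fun j y => ?_, fun y => ?_⟩
  · change fderiv ℂ F (y + ez j) (eh a) = fderiv ℂ F y (eh a)
    rw [fa_per hF.per]
  · change fderiv ℂ F (cj y) (eh a) = conj (fderiv ℂ F y (eh a))
    rw [fa_real hF.real, fa_cj_eh]

/-- `D` in coordinates -/
theorem DD_eq (F : CE n → ℂ) (y : CE n) :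
    DD F y = Pool.Agent.LRig.dz 0 F y + ∑ a, y.2 a * Pool.Agent.LRig.dz a.succ F y := by
  have h1 : ((hh y.2, 0) : CE n) = ez 0 + ∑ a, y.2 a • ez a.succ := by
    refine Prod.ext ?_ ?_
    · rw [Prod.fst_add, Prod.fst_sum]
      funext i
      rw [Pi.add_apply, Finset.sum_apply]
      refine Fin.cases ?_ (fun b => ?_) i
      · simp [ez, hh]
      · simp [ez, hh, Pi.single_apply, Fin.succ_ne_zero]
    · rw [Prod.snd_add, Prod.snd_sum]
      simp [ez]
  change fderiv ℂ F y (hh y.2, 0) = fderiv ℂ F y (ez 0) + ∑ a, y.2 a * fderiv ℂ F y (ez a.succ)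
  rw [h1, map_add, map_sum]
  congr 1
  refine Finset.sum_congr rfl fun a _ => ?_
  rw [map_smul, smul_eq_mul]

theorem Fn.DD (hF : Fn δ s F) : Fn δ s (DD F) := by
  have h1 : Pool.Agent.LRig.DD F = fun y => Pool.Agent.LRig.dz 0 F y +
      ∑ a, y.2 a * Pool.Agent.LRig.dz a.succ F y := funext (DD_eq F)
  rw [h1]
  exact (hF.dz 0).add (Fn.sum fun a _ => (fn_h a).mul (hF.dz a.succ))

/-! ## Bounds -/

theorem Bd.mono (h : Bd δ s c F) (h1 : δ' ≤ δ) (h2 : s' ≤ s) (h3 : c ≤ c') : Bd δ' s' c' F := by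
  exact fun y hy => (h y (Om_mono h1 h2 hy)).trans h3

theorem Bd.add (hF : Bd δ s c F) (hG : Bd δ s c' G) : Bd δ s (c + c') fun y => F y + G y := by
  exact fun y hy => (norm_add_le _ _).trans (add_le_add (hF y hy) (hG y hy))

theorem Bd.sub (hF : Bd δ s c F) (hG : Bd δ s c' G) : Bd δ s (c + c') fun y => F y - G y := by
  exact fun y hy => (norm_sub_le _ _).trans (add_le_add (hF y hy) (hG y hy))

theorem Bd.neg (hF : Bd δ s c F) : Bd δ s c fun y => -F y := by
  exact fun y hy => (norm_neg (F y)).le.trans (hF y hy)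

theorem Bd.mul (hF : Bd δ s c F) (hG : Bd δ s c' G) (hc : 0 ≤ c) :
    Bd δ s (c * c') fun y => F y * G y := by
  exact fun y hy => (norm_mul_le _ _).trans (mul_le_mul (hF y hy) (hG y hy) (norm_nonneg _) hc)

theorem Bd.sum {ι : Type*} {S : Finset ι} {f : ι → CE n → ℂ} {e : ι → ℝ}
    (h : ∀ i ∈ S, Bd δ s (e i) (f i)) : Bd δ s (∑ i ∈ S, e i) fun y => ∑ i ∈ S, f i y := by
  exact fun y hy => norm_sum_le_of_le S fun i hi => h i hi y hy

/-- sums over the coordinates with the same bound -/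
theorem Bd.sum' {f : Fin n → CE n → ℂ} (h : ∀ i, Bd δ s c (f i)) :
    Bd δ s (n * c) fun y => ∑ i, f i y := by
  have h1 := Bd.sum (S := Finset.univ) (e := fun _ => c) fun i _ => h i
  rw [Finset.sum_const, Finset.card_univ, Fintype.card_fin, nsmul_eq_mul] at h1
  exact h1

end Pool.Agent.LRig
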