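import Pool.Agent.LRig.FR
import Pool.Agent.NOne.KCau

/-!
# LR (MP_74f563_an, all n), file FB: Cauchy's estimates and Taylor's formula

PROOFS.  `Bd.cdz`: for `y ∈ Om n δ' s` and `r < δ - δ'` the function `ζ ↦ F (y + ζ • ez i)` is
holomorphic and bounded by `c` on `|ζ| ≤ r`, its derivative at `0` is `dz i F y`, so
`‖dz i F y‖ ≤ c / r` (`Complex.norm_deriv_le_of_forall_mem_sphere_norm_le`); let `r → δ - δ'`.  (If
the domain is empty there is nothing to prove; `c ≥ 0` as there is a point.)  The same for `dh`.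
`tay1`, `tay2`: let `v : CE n` with `‖v.1 i‖ ≤ e`, `‖v.2 a‖ ≤ e` and `y ∈ Om n δ s`, and let
`φ(x) = F (y + x v)`, holomorphic for complex `|x| < r/e` (`e ≤ r / 2`), bounded by `c`.
`φ(1) - φ(0)` is bounded by `2 e c / r · 2` and `φ(1) - φ(0) - φ'(0)` by `4 c e² / r²`: compare
`taylor1`, `taylor2` in `Pool.Agent.NOne.KCau` (public theorems, use them with `R = r / e ≥ 2`).
`φ'(0) = fderiv ℂ F y v = ∑ i, v.1 i * dz i F y + ∑ a, v.2 a * dh a F y`.
-/

set_option autoImplicit false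

namespace Pool.Agent.LRig

open Complex Set MeasureTheory

variable {n : ℕ} {δ s δ' s' c c' : ℝ} {F G : CE n → ℂ} {y : CE n}

private theorem line_deriv {y : CE n} (hF : DifferentiableAt ℂ F y) (v : CE n) :
    HasDerivAt (fun z : ℂ => F (y + z • v)) (fderiv ℂ F y v) 0 := by
  have h1 : HasDerivAt (fun z : ℂ => y + z • v) v 0 := by
    simpa using ((hasDerivAt_id (0 : ℂ)).smul_const v).const_add y
  have h2 : HasFDerivAt F (fderiv ℂ F y) (y + (0 : ℂ) • v) := by
    rw [zero_smul, add_zero]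
    exact hF.hasFDerivAt
  exact h2.comp_hasDerivAt (0 : ℂ) h1

private theorem line_diff {V : Set (CE n)} (hF : DifferentiableOn ℂ F V) (y v : CE n) :
    DifferentiableOn ℂ (fun z : ℂ => F (y + z • v)) {z | y + z • v ∈ V} := by
  have h1 : DifferentiableOn ℂ (fun z : ℂ => y + z • v) {z | y + z • v ∈ V} := by
    apply Differentiable.differentiableOn
    fun_prop
  exact DifferentiableOn.comp (g := F) hF h1 fun z hz => hz

private theorem im_add_lt {x z : ℂ} {a b : ℝ} (hx : |x.im| < a) (hz : ‖z‖ ≤ b) :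
    |(x + z).im| < a + b := by
  rw [add_im]
  have h1 := abs_add_le x.im z.im
  have h2 := abs_im_le_norm z
  linarith

private theorem cauchy_line (hF : Fn δ s F) (hb : Bd δ s c F) {y v : CE n} {R : ℝ}
    (hR : 0 < R) (hy : y ∈ Om n δ s)
    (hsub : Metric.closedBall (0 : ℂ) R ⊆ {z | y + z • v ∈ Om n δ s}) :
    ‖fderiv ℂ F y v‖ ≤ c / R := by
  have h1 := Complex.norm_deriv_le_of_forall_mem_sphere_norm_le hR
    ((line_diff hF.hol y v).diffContOnCl_ball hsub)
    fun z hz => hb _ (hsub (Metric.sphere_subset_closedBall hz))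
  rwa [(line_deriv (hF.dat hy) v).deriv] at h1

theorem Bd.cdz (hb : Bd δ s c F) (hF : Fn δ s F) (h : δ' < δ) (i : Fin (n + 1)) :
    Bd δ' s (c / (δ - δ')) (dz i F) := by
  intro y hy
  refine cauchy_line hF hb (sub_pos.2 h) (Om_mono h.le le_rfl hy) ?_
  intro z hz
  rw [mem_closedBall_zero_iff] at hz
  refine ⟨fun j => ?_, fun a => ?_⟩
  · change |(y.1 j + z * (Pi.single i (1 : ℂ) : Fin (n + 1) → ℂ) j).im| < δ
    have h1 : ‖z * (Pi.single i (1 : ℂ) : Fin (n + 1) → ℂ) j‖ ≤ δ - δ' := by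
      rw [norm_mul]
      refine le_trans (mul_le_of_le_one_right (norm_nonneg _) ?_) hz
      rw [Pi.single_apply]
      split_ifs <;> simp
    have h2 := im_add_lt (hy.1 j) h1
    linarith
  · change |(y.2 a + z * 0).im| < s
    rw [mul_zero, add_zero]
    exact hy.2 a

theorem Bd.cdh (hb : Bd δ s c F) (hF : Fn δ s F) (h : s' < s) (a : Fin n) :
    Bd δ s' (c / (s - s')) (dh a F) := by
  intro y hy
  refine cauchy_line hF hb (sub_pos.2 h) (Om_mono le_rfl h.le hy) ?_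
  intro z hz
  rw [mem_closedBall_zero_iff] at hz
  refine ⟨fun j => ?_, fun b => ?_⟩
  · change |(y.1 j + z * 0).im| < δ
    rw [mul_zero, add_zero]
    exact hy.1 j
  · change |(y.2 b + z * (Pi.single a (1 : ℂ) : Fin n → ℂ) b).im| < s
    have h1 : ‖z * (Pi.single a (1 : ℂ) : Fin n → ℂ) b‖ ≤ s - s' := by
      rw [norm_mul]
      refine le_trans (mul_le_of_le_one_right (norm_nonneg _) ?_) hz
      rw [Pi.single_apply]
      split_ifs <;> simp
    have h2 := im_add_lt (hy.2 b) h1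
    linarith

/-- the derivative in coordinates -/
theorem fderiv_coord (F : CE n → ℂ) (y v : CE n) :
    fderiv ℂ F y v = ∑ i, v.1 i * dz i F y + ∑ a, v.2 a * dh a F y := by
  have h1 : v = ∑ i, v.1 i • (ez i : CE n) + ∑ a, v.2 a • (eh a : CE n) := by
    refine Prod.ext ?_ ?_
    · funext j
      simp [ez, eh, Prod.fst_sum, Finset.sum_apply, Pi.single_apply]
    · funext j
      simp [ez, eh, Prod.snd_sum, Finset.sum_apply, Pi.single_apply]
  conv_lhs => rw [h1]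
  rw [map_add, map_sum, map_sum]
  simp only [map_smul, smul_eq_mul]
  rfl

private theorem tay_aux {e r : ℝ} {v : CE n} (hb : Bd (δ + r) (s + r) c F)
    (hF : Fn (δ + r) (s + r) F) (hy : y ∈ Om n δ s) (he : 0 < e) (hr : 2 * e ≤ r)
    (h1 : ∀ i, ‖v.1 i‖ ≤ e) (h2 : ∀ a, ‖v.2 a‖ ≤ e) :
    0 ≤ c ∧ 2 ≤ r / e ∧ y ∈ Om n (δ + r) (s + r) ∧
      DifferentiableOn ℂ (fun z : ℂ => F (y + z • v)) (Metric.ball 0 (r / e)) ∧
      ∀ z ∈ Metric.ball (0 : ℂ) (r / e), ‖F (y + z • v)‖ ≤ c := by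
  have hr0 : 0 < r := by linarith
  have hy' : y ∈ Om n (δ + r) (s + r) := Om_mono (by linarith) (by linarith) hy
  have hmem : Metric.ball (0 : ℂ) (r / e) ⊆ {z | y + z • v ∈ Om n (δ + r) (s + r)} := by
    intro z hz
    rw [mem_ball_zero_iff, lt_div_iff₀ he] at hz
    have h3 : ∀ w : ℂ, ‖w‖ ≤ e → ‖z * w‖ ≤ r := by
      intro w hw
      rw [norm_mul]
      exact (mul_le_mul_of_nonneg_left hw (norm_nonneg _)).trans hz.le
    exact ⟨fun j => im_add_lt (hy.1 j) (h3 _ (h1 j)), fun a => im_add_lt (hy.2 a) (h3 _ (h2 a))⟩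
  refine ⟨(norm_nonneg _).trans (hb y hy'), ?_, hy', (line_diff hF.hol y v).mono hmem,
    fun z hz => hb _ (hmem hz)⟩
  rw [le_div_iff₀ he]
  exact hr

/-- the first difference -/
theorem tay1 {e r : ℝ} {v : CE n} (hb : Bd (δ + r) (s + r) c F) (hF : Fn (δ + r) (s + r) F)
    (hy : y ∈ Om n δ s) (he : 0 < e) (hr : 2 * e ≤ r) (h1 : ∀ i, ‖v.1 i‖ ≤ e)
    (h2 : ∀ a, ‖v.2 a‖ ≤ e) : ‖F (y + v) - F y‖ ≤ 4 * c * e / r := by
  obtain ⟨hc, hR, hy', hd, hM⟩ := tay_aux hb hF hy he hr h1 h2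
  have hr0 : 0 < r := by linarith
  have h3 := Pool.Agent.NOne.taylor1 hR hd hM
  simp only [one_smul, zero_smul, add_zero] at h3
  refine h3.trans ?_
  have h4 : 2 * c / (r / e) = 2 * c * e / r := by
    field_simp
  rw [h4]
  have h5 : 0 ≤ c * e := mul_nonneg hc he.le
  exact div_le_div_of_nonneg_right (by linarith) hr0.le

/-- the second difference -/
theorem tay2 {e r : ℝ} {v : CE n} (hb : Bd (δ + r) (s + r) c F) (hF : Fn (δ + r) (s + r) F)
    (hy : y ∈ Om n δ s) (he : 0 < e) (hr : 2 * e ≤ r) (h1 : ∀ i, ‖v.1 i‖ ≤ e)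
    (h2 : ∀ a, ‖v.2 a‖ ≤ e) :
    ‖F (y + v) - F y - (∑ i, v.1 i * dz i F y + ∑ a, v.2 a * dh a F y)‖ ≤
      4 * c * e ^ 2 / r ^ 2 := by
  obtain ⟨hc, hR, hy', hd, hM⟩ := tay_aux hb hF hy he hr h1 h2
  have hr0 : 0 < r := by linarith
  have h3 := Pool.Agent.NOne.taylor2 hR hd hM
  rw [(line_deriv (hF.dat hy') v).deriv, fderiv_coord] at h3
  simp only [one_smul, zero_smul, add_zero] at h3
  refine h3.trans ?_
  have h4 : 2 * c / (r / e) ^ 2 = 2 * c * e ^ 2 / r ^ 2 := by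
    field_simp
  rw [h4]
  have h5 : 0 ≤ c * e ^ 2 := mul_nonneg hc (by positivity)
  exact div_le_div_of_nonneg_right (by linarith) (by positivity)

end Pool.Agent.LRig
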