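import Pool.Agent.LRig.FA

/-!
# LR (MP_74f563_an, all n), file FC: holomorphic dependence of cube integrals

PROOF of `cube_hol`.  Let `Q = Icc 0 1` in `Fin m → ℝ` (compact, finite measure) and `y₀ ∈ V`;
choose a
closed ball `Kr` around `y₀` with radius `2 r` in `V`; `g` is continuous on the compact set
`Q ×ˢ Kr`, so bounded there by `C`.  By Cauchy's estimate (for the functions `ζ ↦ g x (y + ζ v)`,
`‖v‖ ≤ 1`, `|ζ| ≤ r`) `‖fderiv ℂ (g x) y‖ ≤ C / r` for `y` in the ball of radius `r`, `x ∈ Q`.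
Then `hasFDerivAt_integral_of_dominated_of_fderiv_le` (over `𝕜 = ℂ`) on the measure
`volume.restrict Q`: measurability of `x ↦ g x y` from continuity on `Q`; measurability of
`x ↦ fderiv ℂ (g x) y₀`: it is enough (finite dimension) to have it for `x ↦ fderiv ℂ (g x) y₀ v`,
which is a limit of the difference quotients `k (g x (y₀ + v / k) - g x y₀)`, `k → ∞`, continuous on
`Q` (`aestronglyMeasurable_of_tendsto_ae`).  Compare `hasDerivAt_par` in
`Pool.Agent.NOne` (file `KAvg` or `KFou`), the case of one variable.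
-/

set_option autoImplicit false

namespace Pool.Agent.LRig

open Complex Set MeasureTheory

/-- Cauchy's estimate for the derivative -/
private theorem cauchy_fderiv {E : Type*} [NormedAddCommGroup E] [NormedSpace ℂ E] {f : E → ℂ}
    {y : E} {r C : ℝ} (hr : 0 < r) (hd : ∀ z ∈ Metric.closedBall y r, DifferentiableAt ℂ f z)
    (hC : ∀ z ∈ Metric.closedBall y r, ‖f z‖ ≤ C) : ‖fderiv ℂ f y‖ ≤ C / r := by
  have hy : y ∈ Metric.closedBall y r := Metric.mem_closedBall_self hr.le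
  have hC0 : 0 ≤ C := (norm_nonneg _).trans (hC y hy)
  refine ContinuousLinearMap.opNorm_le_bound _ (div_nonneg hC0 hr.le) fun v => ?_
  by_cases hv : v = 0
  · rw [hv, map_zero, norm_zero, norm_zero, mul_zero]
  · have hv0 : 0 < ‖v‖ := norm_pos_iff.2 hv
    have hR : 0 < r / ‖v‖ := div_pos hr hv0
    have hin : ∀ ζ ∈ Metric.closedBall (0 : ℂ) (r / ‖v‖), y + ζ • v ∈ Metric.closedBall y r := by
      intro ζ hζ
      rw [mem_closedBall_zero_iff] at hζ
      rw [mem_closedBall_iff_norm, add_sub_cancel_left, norm_smul]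
      calc ‖ζ‖ * ‖v‖ ≤ r / ‖v‖ * ‖v‖ := mul_le_mul_of_nonneg_right hζ hv0.le
        _ = r := div_mul_cancel₀ r hv0.ne'
    have haff : ∀ ζ : ℂ, HasDerivAt (fun ζ : ℂ => y + ζ • v) v ζ := by
      intro ζ
      have h1 := ((hasDerivAt_id ζ).smul_const v).const_add y
      rwa [one_smul] at h1
    have hder : ∀ ζ ∈ Metric.closedBall (0 : ℂ) (r / ‖v‖),
        HasDerivAt (fun ζ : ℂ => f (y + ζ • v)) (fderiv ℂ f (y + ζ • v) v) ζ := by
      intro ζ hζ
      exact (hd _ (hin ζ hζ)).hasFDerivAt.comp_hasDerivAt ζ (haff ζ)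
    have h0 := hder 0 (Metric.mem_closedBall_self hR.le)
    rw [zero_smul, add_zero] at h0
    have hdc : DiffContOnCl ℂ (fun ζ : ℂ => f (y + ζ • v)) (Metric.ball 0 (r / ‖v‖)) := by
      refine DifferentiableOn.diffContOnCl ?_
      rw [closure_ball (0 : ℂ) hR.ne']
      exact fun ζ hζ => (hder ζ hζ).differentiableAt.differentiableWithinAt
    have h1 := Complex.norm_deriv_le_of_forall_mem_sphere_norm_le hR hdc
      fun ζ hζ => hC _ (hin ζ (Metric.sphere_subset_closedBall hζ))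
    rw [h0.deriv] at h1
    refine h1.trans (le_of_eq ?_)
    field_simp

/-- holomorphic dependence for an integral over a compact set -/
private theorem gen_hol {X : Type*} [MetricSpace X] [MeasurableSpace X] [BorelSpace X]
    [SecondCountableTopology X] (μ : Measure X) [IsFiniteMeasureOnCompacts μ] {K : Set X}
    (hK : IsCompact K) {E : Type*} [NormedAddCommGroup E] [NormedSpace ℂ E]
    [FiniteDimensional ℂ E] {g : X → E → ℂ} {V : Set E} (hV : IsOpen V)
    (hg : ContinuousOn (fun q : X × E => g q.1 q.2) (K ×ˢ V))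
    (hd : ∀ x ∈ K, DifferentiableOn ℂ (g x) V) {y₀ : E} (hy₀ : y₀ ∈ V) :
    HasFDerivAt (fun y => ∫ x in K, g x y ∂μ) (∫ x in K, fderiv ℂ (g x) y₀ ∂μ) y₀ ∧
      Integrable (fun x => fderiv ℂ (g x) y₀) (μ.restrict K) := by
  have hprop : ProperSpace E := FiniteDimensional.proper ℂ E
  obtain ⟨ρ, hρ, hρV⟩ := Metric.nhds_basis_closedBall.mem_iff.1 (hV.mem_nhds hy₀)
  have hcomp : IsCompact (K ×ˢ Metric.closedBall y₀ ρ) :=
    hK.prod (isCompact_closedBall y₀ ρ)
  have hcont : ContinuousOn (fun q : X × E => g q.1 q.2) (K ×ˢ Metric.closedBall y₀ ρ) :=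
    hg.mono (prod_mono subset_rfl hρV)
  obtain ⟨C, hC⟩ := hcomp.exists_bound_of_continuousOn hcont
  have hdiff : ∀ x ∈ K, ∀ y ∈ V, DifferentiableAt ℂ (g x) y :=
    fun x hx y hy => (hd x hx).differentiableAt (hV.mem_nhds hy)
  have hsec : ∀ y ∈ V, ContinuousOn (fun x => g x y) K := by
    intro y hy
    exact hg.comp (Continuous.prodMk_left y).continuousOn fun x hx => ⟨hx, hy⟩
  have hFc : ContinuousOn (fun x => fderiv ℂ (g x) y₀) K := by
    have huc := hcomp.uniformContinuousOn_of_continuous hcont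
    rw [Metric.uniformContinuousOn_iff] at huc
    rw [Metric.continuousOn_iff]
    intro x hx ε hε
    obtain ⟨δ, hδ, h1⟩ := huc (ε / 2 * ρ) (mul_pos (half_pos hε) hρ)
    refine ⟨δ, hδ, fun x' hx' hdist => ?_⟩
    have h2 : fderiv ℂ (g x') y₀ - fderiv ℂ (g x) y₀ = fderiv ℂ (fun y => g x' y - g x y) y₀ :=
      (fderiv_fun_sub (hdiff x' hx' y₀ hy₀) (hdiff x hx y₀ hy₀)).symm
    rw [dist_eq_norm, h2]
    have h3 : ‖fderiv ℂ (fun y => g x' y - g x y) y₀‖ ≤ ε / 2 * ρ / ρ := by
      refine cauchy_fderiv hρ (fun z hz => (hdiff x' hx' z (hρV hz)).sub (hdiff x hx z (hρV hz)))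
        fun z hz => ?_
      have h4 := h1 (x', z) ⟨hx', hz⟩ (x, z) ⟨hx, hz⟩ (by
        rw [Prod.dist_eq, dist_self]
        exact max_lt hdist hδ)
      rw [dist_eq_norm] at h4
      exact h4.le
    rw [mul_div_cancel_right₀ _ hρ.ne'] at h3
    linarith
  have hFi : Integrable (fun x => fderiv ℂ (g x) y₀) (μ.restrict K) :=
    hFc.integrableOn_compact hK
  refine ⟨?_, hFi⟩
  have hfin : IsFiniteMeasure (μ.restrict K) := ⟨by
    rw [Measure.restrict_apply_univ]
    exact hK.measure_lt_top⟩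
  refine hasFDerivAt_integral_of_dominated_of_fderiv_le (𝕜 := ℂ) (F := fun y x => g x y)
    (F' := fun y x => fderiv ℂ (g x) y) (bound := fun _ => C / (ρ / 2))
    (s := Metric.ball y₀ (ρ / 2)) (Metric.ball_mem_nhds y₀ (half_pos hρ)) ?_ ?_
    hFi.aestronglyMeasurable ?_ (integrable_const _) ?_
  · filter_upwards [hV.mem_nhds hy₀] with y hy
    exact (hsec y hy).aestronglyMeasurable hK.measurableSet
  · exact (hsec y₀ hy₀).integrableOn_compact hK
  · refine (ae_restrict_iff' hK.measurableSet).2 (Filter.Eventually.of_forall fun x hx y hy => ?_)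
    have hsub : Metric.closedBall y (ρ / 2) ⊆ Metric.closedBall y₀ ρ := by
      refine Metric.closedBall_subset_closedBall' ?_
      rw [Metric.mem_ball] at hy
      linarith
    exact cauchy_fderiv (half_pos hρ) (fun z hz => hdiff x hx z (hρV (hsub hz)))
      fun z hz => hC (x, z) ⟨hx, hsub hz⟩
  · refine (ae_restrict_iff' hK.measurableSet).2 (Filter.Eventually.of_forall fun x hx y hy => ?_)
    have hy' : y ∈ Metric.closedBall y₀ ρ :=
      Metric.closedBall_subset_closedBall (by linarith) (Metric.ball_subset_closedBall hy)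
    exact (hdiff x hx y (hρV hy')).hasFDerivAt

/-- integrals over the cube of functions which are holomorphic in the parameter -/
theorem cube_hol {m : ℕ} {E : Type*} [NormedAddCommGroup E] [NormedSpace ℂ E]
    [FiniteDimensional ℂ E] {g : (Fin m → ℝ) → E → ℂ} {V : Set E} (hV : IsOpen V)
    (hg : ContinuousOn (fun q : (Fin m → ℝ) × E => g q.1 q.2) (Icc 0 1 ×ˢ V))
    (hd : ∀ x ∈ Icc (0 : Fin m → ℝ) 1, DifferentiableOn ℂ (g x) V) :
    DifferentiableOn ℂ (fun y => ∫ x in Icc (0 : Fin m → ℝ) 1, g x y) V ∧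
      ∀ y ∈ V, ∀ v, fderiv ℂ (fun y => ∫ x in Icc (0 : Fin m → ℝ) 1, g x y) y v =
        ∫ x in Icc (0 : Fin m → ℝ) 1, fderiv ℂ (g x) y v := by
  have hK : IsCompact (Icc (0 : Fin m → ℝ) 1) := isCompact_Icc
  refine ⟨fun y hy => (gen_hol volume hK hV hg hd hy).1.differentiableAt.differentiableWithinAt,
    fun y hy v => ?_⟩
  obtain ⟨h1, h2⟩ := gen_hol volume hK hV hg hd hy
  rw [h1.fderiv, ContinuousLinearMap.integral_apply h2]

/-- the same for an integral over `[0, 1]` -/
theorem int_hol {E : Type*} [NormedAddCommGroup E] [NormedSpace ℂ E]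
    [FiniteDimensional ℂ E] {g : ℝ → E → ℂ} {V : Set E} (hV : IsOpen V)
    (hg : ContinuousOn (fun q : ℝ × E => g q.1 q.2) (Icc 0 1 ×ˢ V))
    (hd : ∀ x ∈ Icc (0 : ℝ) 1, DifferentiableOn ℂ (g x) V) :
    DifferentiableOn ℂ (fun y => ∫ x in (0 : ℝ)..1, g x y) V ∧
      ∀ y ∈ V, ∀ v, fderiv ℂ (fun y => ∫ x in (0 : ℝ)..1, g x y) y v =
        ∫ x in (0 : ℝ)..1, fderiv ℂ (g x) y v := by
  have hK : IsCompact (Icc (0 : ℝ) 1) := isCompact_Icc
  have hi : ∀ f : ℝ → ℂ, ∫ x in (0 : ℝ)..1, f x = ∫ x in Icc (0 : ℝ) 1, f x := by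
    intro f
    rw [intervalIntegral.integral_of_le zero_le_one, integral_Icc_eq_integral_Ioc]
  have hF : (fun y => ∫ x in (0 : ℝ)..1, g x y) = fun y => ∫ x in Icc (0 : ℝ) 1, g x y :=
    funext fun y => hi _
  rw [hF]
  refine ⟨fun y hy => (gen_hol volume hK hV hg hd hy).1.differentiableAt.differentiableWithinAt,
    fun y hy v => ?_⟩
  obtain ⟨h1, h2⟩ := gen_hol volume hK hV hg hd hy
  rw [h1.fderiv, ContinuousLinearMap.integral_apply h2, hi]

end Pool.Agent.LRig
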