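import Pool.Agent.LRig.Defs

/-!
# LR (MP_74f563_an, all n), file FX: the sum of `e^{-2π r |k|}` over `ℤ^{n+1}`

PROOF of `sum_exp`.  The sum over `k ∈ ℤ^{n+1}` is the product of `n + 1` sums
`∑_{l ∈ ℤ} e^{-2π r |l|} = (1 + x)/(1 - x)`, `x = e^{-2πr}`, and `(1 + x)/(1 - x) ≤ 1 / r` for
`0 < r ≤ 1/2`: with `t = 2πr ≤ π`, `x ≤ 1/(1 + t + t²/2)` (`Real.quadratic_le_exp_of_nonneg`), so
`(1 - x)/(1 + x) ≥ (t + t²/2)/(2 + t + t²/2) ≥ t/(2π) = r`, since `2π (1 + t/2) ≥ 2 + t + t²/2` for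
`0 ≤ t ≤ π` (`π ≥ 3`: at `t`: `6 + 3t - 2 - t - t²/2 = 4 + 2t - t²/2 ≥ 0` for `t ≤ 4`).
Summability and the product formula: by induction on the dimension (`Fin.consEquiv`,
`Summable.mul_of_nonneg`, ...), or: it is enough to bound the sums over boxes
`Fintype.piFinset fun _ => Icc (-N) N` by the product (`Finset.prod_univ_sum`), since every finite
set
is contained in a box (`summable_of_sum_le`, `Real.tsum_le_of_sum_le`).
-/

set_option autoImplicit false

namespace Pool.Agent.LRig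

open Complex Set MeasureTheory

variable {n : ℕ}

/-- the frequencies of order at most `K` -/
noncomputable def kB (n K : ℕ) : Finset (Fin (n + 1) → ℤ) :=
  (Fintype.piFinset fun _ => Finset.Icc (-(K : ℤ)) K).filter fun k => nk k ≤ K

private theorem natAbs_le_nk (k : Fin (n + 1) → ℤ) (i : Fin (n + 1)) : (k i).natAbs ≤ nk k :=
  Finset.single_le_sum (f := fun i => (k i).natAbs) (fun _ _ => Nat.zero_le _)
    (Finset.mem_univ i)

private theorem mem_box {K : ℕ} {k : Fin (n + 1) → ℤ} (h : nk k ≤ K) :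
    k ∈ Fintype.piFinset fun _ : Fin (n + 1) => Finset.Icc (-(K : ℤ)) K := by
  rw [Fintype.mem_piFinset]
  intro i
  have h1 := natAbs_le_nk k i
  rw [Finset.mem_Icc]
  constructor <;> omega

theorem mem_kB {K : ℕ} {k : Fin (n + 1) → ℤ} : k ∈ kB n K ↔ nk k ≤ K := by
  unfold kB
  rw [Finset.mem_filter]
  exact ⟨fun h => h.2, fun h => ⟨mem_box h, h⟩⟩

theorem card_kB (n K : ℕ) : (kB n K).card ≤ (2 * K + 1) ^ (n + 1) := by
  refine (Finset.card_filter_le _ _).trans (le_of_eq ?_)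
  rw [Fintype.card_piFinset, Finset.prod_const, Finset.card_univ, Fintype.card_fin, Int.card_Icc]
  congr 1
  omega

private theorem sum_one {x : ℝ} (hx : x < 1) (N : ℕ) :
    ∑ l ∈ Finset.Icc (-(N : ℤ)) N, x ^ l.natAbs =
      (1 + x) / (1 - x) - 2 * x ^ (N + 1) / (1 - x) := by
  have h1 : (1 - x) ≠ 0 := by linarith
  induction N with
  | zero =>
    simp only [Nat.cast_zero, neg_zero, Finset.Icc_self, Finset.sum_singleton, Int.natAbs_zero,
      pow_zero, zero_add, pow_one]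
    field_simp
    ring
  | succ N ih =>
    have e : Finset.Icc (-((N + 1 : ℕ) : ℤ)) ((N + 1 : ℕ) : ℤ) =
        insert ((N + 1 : ℕ) : ℤ) (insert (-((N + 1 : ℕ) : ℤ)) (Finset.Icc (-(N : ℤ)) N)) := by
      ext l
      simp only [Finset.mem_insert, Finset.mem_Icc]
      push_cast
      omega
    rw [e, Finset.sum_insert, Finset.sum_insert, ih, Int.natAbs_neg, Int.natAbs_natCast]
    · field_simp
      ring
    · rw [Finset.mem_Icc]
      push_cast
      omega
    · rw [Finset.mem_insert, Finset.mem_Icc]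
      push_cast
      omega

private theorem exp_bound {r : ℝ} (h0 : 0 < r) (h1 : r ≤ 1 / 2) :
    (1 + Real.exp (-(2 * Real.pi * r))) / (1 - Real.exp (-(2 * Real.pi * r))) ≤ 1 / r := by
  have hp3 := Real.pi_gt_three
  have hp4 := Real.pi_lt_four
  have ht : 0 < 2 * Real.pi * r := by positivity
  have ht4 : 2 * Real.pi * r ≤ 4 := by nlinarith
  have hq := Real.quadratic_le_exp_of_nonneg ht.le
  have hlt : Real.exp (-(2 * Real.pi * r)) < 1 := by
    rw [Real.exp_lt_one_iff]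
    linarith
  rw [div_le_div_iff₀ (by linarith) h0, one_mul]
  have hE : Real.exp (-(2 * Real.pi * r)) * Real.exp (2 * Real.pi * r) = 1 := by
    rw [← Real.exp_add, neg_add_cancel, Real.exp_zero]
  have hxpos := Real.exp_pos (-(2 * Real.pi * r))
  have htr : 6 * r ≤ 2 * Real.pi * r := by nlinarith
  generalize Real.exp (-(2 * Real.pi * r)) = x at *
  generalize Real.exp (2 * Real.pi * r) = E at *
  generalize 2 * Real.pi * r = t at *
  have key : 1 + r ≤ (1 - r) * E := by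
    have k1 : (1 - r) * (1 + t + t ^ 2 / 2) ≤ (1 - r) * E :=
      mul_le_mul_of_nonneg_left hq (by linarith)
    have k2 : 1 + r ≤ (1 - r) * (1 + t + t ^ 2 / 2) := by
      nlinarith [mul_nonneg ht.le (sub_nonneg.2 ht4), mul_nonneg h0.le ht.le,
        mul_nonneg (mul_nonneg h0.le ht.le) (sub_nonneg.2 ht4),
        mul_nonneg (sub_nonneg.2 htr) ht.le]
    linarith
  have k3 : x * (1 + r) ≤ x * ((1 - r) * E) := mul_le_mul_of_nonneg_left key hxpos.le
  have k4 : x * ((1 - r) * E) = 1 - r := by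
    calc x * ((1 - r) * E) = (1 - r) * (x * E) := by ring
      _ = 1 - r := by rw [hE, mul_one]
  linarith

private theorem one_dim {r : ℝ} (h0 : 0 < r) (h1 : r ≤ 1 / 2) (N : ℕ) :
    ∑ l ∈ Finset.Icc (-(N : ℤ)) N, Real.exp (-(2 * Real.pi * r * (l.natAbs : ℝ))) ≤ 1 / r := by
  have ht : 0 < 2 * Real.pi * r := by positivity
  have hlt : Real.exp (-(2 * Real.pi * r)) < 1 := by
    rw [Real.exp_lt_one_iff]
    linarith
  have hxpos := Real.exp_pos (-(2 * Real.pi * r))
  have e : ∀ l : ℤ, Real.exp (-(2 * Real.pi * r * (l.natAbs : ℝ))) =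
      Real.exp (-(2 * Real.pi * r)) ^ l.natAbs := by
    intro l
    rw [← Real.exp_nat_mul]
    congr 1
    ring
  rw [Finset.sum_congr rfl fun l _ => e l, sum_one hlt]
  refine le_trans ?_ (exp_bound h0 h1)
  have : 0 ≤ 2 * Real.exp (-(2 * Real.pi * r)) ^ (N + 1) /
      (1 - Real.exp (-(2 * Real.pi * r))) := by
    apply div_nonneg (by positivity) (by linarith)
  linarith

theorem sum_exp {r : ℝ} (h0 : 0 < r) (h1 : r ≤ 1 / 2) :
    Summable (fun k : Fin (n + 1) → ℤ => Real.exp (-(2 * Real.pi * r * nk k))) ∧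
      ∑' k : Fin (n + 1) → ℤ, Real.exp (-(2 * Real.pi * r * nk k)) ≤ (1 / r) ^ (n + 1) := by
  have hf : (0 : (Fin (n + 1) → ℤ) → ℝ) ≤
      fun k : Fin (n + 1) → ℤ => Real.exp (-(2 * Real.pi * r * nk k)) :=
    fun k => (Real.exp_pos _).le
  have hs : ∀ s : Finset (Fin (n + 1) → ℤ),
      ∑ k ∈ s, Real.exp (-(2 * Real.pi * r * nk k)) ≤ (1 / r) ^ (n + 1) := by
    intro s
    have hsub : s ⊆ Fintype.piFinset fun _ : Fin (n + 1) =>
        Finset.Icc (-((s.sup nk : ℕ) : ℤ)) (s.sup nk : ℕ) :=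
      fun k hk => mem_box (Finset.le_sup (f := nk) hk)
    refine (Finset.sum_le_sum_of_subset_of_nonneg hsub fun k _ _ => (Real.exp_pos _).le).trans ?_
    have e : ∀ k : Fin (n + 1) → ℤ, Real.exp (-(2 * Real.pi * r * nk k)) =
        ∏ i, Real.exp (-(2 * Real.pi * r * ((k i).natAbs : ℝ))) := by
      intro k
      rw [← Real.exp_sum]
      congr 1
      unfold nk
      push_cast
      rw [Finset.mul_sum, Finset.sum_neg_distrib]
    rw [Finset.sum_congr rfl fun k _ => e k, ← Finset.prod_univ_sum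
      (fun _ : Fin (n + 1) => Finset.Icc (-((s.sup nk : ℕ) : ℤ)) ((s.sup nk : ℕ) : ℤ))
      (fun (_ : Fin (n + 1)) (l : ℤ) => Real.exp (-(2 * Real.pi * r * (l.natAbs : ℝ))))]
    refine (Finset.prod_le_prod (fun i _ => Finset.sum_nonneg fun l _ => (Real.exp_pos _).le)
      fun i _ => one_dim h0 h1 _).trans (le_of_eq ?_)
    rw [Finset.prod_const, Finset.card_univ, Fintype.card_fin]
  exact ⟨summable_of_sum_le hf hs, Real.tsum_le_of_sum_le hf hs⟩

end Pool.Agent.LRig
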