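import Pool.Agent.LRig.FK
import Pool.Agent.LRig.FX

/-!
# LR (MP_74f563_an, all n), file FD: Fourier series on the complex domain

PROOF of `hasSum_cf`.  Fix `y = (x + i η, h) ∈ Om n δ s` (`x`, `η` real vectors).  The function
`g(ξ) = F ((ξ + i η), h)`, `ξ` real, is continuous and periodic; its Fourier coefficient is
`∫ g(ξ) e^{-2πi k·ξ} dξ = e^{-2π k·η} cf k F y` (`cube_shift` for the function
`z ↦ F (z, h) e^{-2πi k·z}`, shift `i η`).  These coefficients are summable: with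
`max |η_i| < δ' < δ` and a bound `c` of `F` on the compact set `{|Im z_i| ≤ δ', Re z_i ∈ [0, 1]}`,
`h` fixed (periodicity) `‖cf k F y‖ ≤ c e^{-2π δ' |k|}` (proof of `cf_bound`), and
`|e^{-2π k·η}| ≤ e^{2π max|η| |k|}`; `sum_exp` (file FX) gives summability.  Mathlib:
`UnitAddTorus.hasSum_mFourier_series_apply_of_summable` for the continuous function on the torus
`UnitAddTorus (Fin (n+1))` given by `g`, with `mFourierCoeff` computed by
`UnitAddTorus.mFourierCoeff_eq_integral` (a = 0; `Ioc` and `Icc` cubes).  The sum at `ξ = x` is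
`∑ cf k F y e^{-2π k·η} e^{2πi k·x} = ∑ cf k F y * ek k y`.

`norm_le_of_cf`: `‖F y‖ ≤ ∑ ‖cf k F y‖ ‖ek k y‖ ≤ ∑ c e^{-2π ρ |k|} e^{2π (ρ - r) |k|}`.
`norm_tail`: `F - ∑_{|k| ≤ K} cf k F ek k = ∑_{|k| > K} ...`, and for `|k| > K`:
`e^{-2π r |k|} ≤ e^{-π r K} e^{-π r |k|}`, `∑ e^{-π r |k|} ≤ (2/r)^{n+1}` (`sum_exp` with `r/2`).
-/

set_option autoImplicit false

namespace Pool.Agent.LRig

open Complex Set MeasureTheory

variable {n : ℕ} {δ s δ' s' c c' : ℝ} {F G : CE n → ℂ} {y : CE n}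

/-! ### Periodic functions of several real variables -/

private theorem per_int {m : ℕ} {g : (Fin m → ℝ) → ℂ}
    (hp : ∀ (i : Fin m) (x : Fin m → ℝ), g (x + Pi.single i 1) = g x) (i : Fin m) (k : ℤ)
    (x : Fin m → ℝ) : g (x + Pi.single i (k : ℝ)) = g x := by
  have hpos : ∀ (k : ℕ) (x : Fin m → ℝ), g (x + Pi.single i (k : ℝ)) = g x := by
    intro k
    induction k with
    | zero =>
      intro x
      simp
    | succ k ih =>
      intro x
      have h : (x + Pi.single i ((k + 1 : ℕ) : ℝ) : Fin m → ℝ) =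
          x + Pi.single i (k : ℝ) + Pi.single i 1 := by
        rw [add_assoc, ← Pi.single_add]
        push_cast
        rfl
      rw [h, hp, ih]
  rcases Int.eq_nat_or_neg k with ⟨l, rfl | rfl⟩
  · exact_mod_cast hpos l x
  · have h := hpos l (x + Pi.single i ((-(l : ℤ) : ℤ) : ℝ))
    rw [← h, add_assoc, ← Pi.single_add]
    simp

private theorem per_all {m : ℕ} {g : (Fin m → ℝ) → ℂ}
    (hp : ∀ (i : Fin m) (x : Fin m → ℝ), g (x + Pi.single i 1) = g x) (k : Fin m → ℤ)
    (x : Fin m → ℝ) : g (x + fun i => (k i : ℝ)) = g x := by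
  have key : ∀ S : Finset (Fin m), g (x + ∑ i ∈ S, Pi.single i (k i : ℝ)) = g x := by
    intro S
    induction S using Finset.induction_on with
    | empty => simp
    | insert i S hi ih =>
      rw [Finset.sum_insert hi, ← add_assoc, add_right_comm, per_int hp, ih]
  have h := key Finset.univ
  rwa [Finset.univ_sum_single] at h

/-- the projection to the torus -/
private def tor {m : ℕ} (x : Fin m → ℝ) : UnitAddTorus (Fin m) := fun i => (x i : UnitAddCircle)

private theorem tor_open {m : ℕ} : IsOpenQuotientMap (tor (m := m)) :=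
  IsOpenQuotientMap.piMap fun _ => QuotientAddGroup.isOpenQuotientMap_mk

private theorem tor_lift {m : ℕ} {g : (Fin m → ℝ) → ℂ} (hg : Continuous g)
    (hp : ∀ (i : Fin m) (x : Fin m → ℝ), g (x + Pi.single i 1) = g x) :
    ∃ G : C(UnitAddTorus (Fin m), ℂ), ∀ x, G (tor x) = g x := by
  have hsurj := (tor_open (m := m)).surjective
  have hval : ∀ x, g (Function.surjInv hsurj (tor x)) = g x := by
    intro x
    have h1 := Function.surjInv_eq hsurj (tor x)
    have h2 : ∀ i, ∃ k : ℤ, Function.surjInv hsurj (tor x) i = x i + k := by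
      intro i
      have h3 : ((Function.surjInv hsurj (tor x) i : ℝ) : UnitAddCircle) = ((x i : ℝ) :) :=
        congrFun h1 i
      have h4 : ((Function.surjInv hsurj (tor x) i - x i : ℝ) : UnitAddCircle) = 0 := by
        rw [AddCircle.coe_sub, h3, sub_self]
      obtain ⟨k, hk⟩ := (AddCircle.coe_eq_zero_iff (1 : ℝ)).1 h4
      refine ⟨k, ?_⟩
      rw [zsmul_eq_mul, mul_one] at hk
      linarith
    choose k hk using h2
    have h4 : Function.surjInv hsurj (tor x) = x + fun i => (k i : ℝ) := by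
      ext i
      exact hk i
    rw [h4, per_all hp]
  refine ⟨⟨fun t => g (Function.surjInv hsurj t), ?_⟩, hval⟩
  rw [← (tor_open (m := m)).continuous_comp_iff]
  have h5 : (fun t => g (Function.surjInv hsurj t)) ∘ tor = g := by
    ext x
    exact hval x
  rw [h5]
  exact hg

private theorem mF_tor {m : ℕ} (k : Fin m → ℤ) (x : Fin m → ℝ) :
    UnitAddTorus.mFourier k (tor x) = exp (2 * Real.pi * I * ∑ i, (k i : ℂ) * (x i : ℂ)) := by
  change ∏ i, fourier (k i) ((x i : ℝ) : UnitAddCircle) = _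
  rw [Finset.mul_sum, Complex.exp_sum]
  refine Finset.prod_congr rfl fun i _ => ?_
  rw [fourier_coe_apply]
  congr 1
  push_cast
  ring

private theorem coeff_tor {m : ℕ} {g : (Fin m → ℝ) → ℂ} {G : UnitAddTorus (Fin m) → ℂ}
    (hG : ∀ x, G (tor x) = g x) (k : Fin m → ℤ) :
    UnitAddTorus.mFourierCoeff G k = ∫ x in Icc (0 : Fin m → ℝ) 1,
      exp (-(2 * Real.pi * I * ∑ i, (k i : ℂ) * (x i : ℂ))) * g x := by
  rw [UnitAddTorus.mFourierCoeff_eq_integral G k 0]
  have h1 : {x : Fin m → ℝ | ∀ i, x i ∈ Ioc ((0 : Fin m → ℝ) i) ((0 : Fin m → ℝ) i + 1)} =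
      univ.pi fun i => Ioc ((0 : Fin m → ℝ) i) ((1 : Fin m → ℝ) i) := by
    ext x
    simp [Set.mem_pi]
  rw [h1, volume_pi, setIntegral_congr_set Measure.univ_pi_Ioc_ae_eq_Icc]
  refine integral_congr_ae (Filter.Eventually.of_forall fun x => ?_)
  change UnitAddTorus.mFourier (-k) (tor x) • G (tor x) = _
  rw [mF_tor, hG, smul_eq_mul]
  congr 2
  simp only [Pi.neg_apply, Int.cast_neg, neg_mul, Finset.sum_neg_distrib, mul_neg]

/-! ### The main facts -/

private theorem kz_add (k : Fin (n + 1) → ℤ) (z w : Fin (n + 1) → ℂ) :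
    kz k (z + w) = kz k z + kz k w := by
  simp only [kz, Pi.add_apply, mul_add, Finset.sum_add_distrib]

/-- the shifted integral -/
private theorem cf_shift (hF : Fn δ s F) (hy : y ∈ Om n δ s) (k : Fin (n + 1) → ℤ)
    {w : Fin (n + 1) → ℂ} (hw : ∀ i, |(w i).im| < δ) :
    cf k F y = ∫ x in Icc (0 : Fin (n + 1) → ℝ) 1,
      F ((fun i => (x i : ℂ)) + w, y.2) *
        exp (-(2 * Real.pi * I * kz k ((fun i => (x i : ℂ)) + w))) := by
  have hδ : 0 < δ := (abs_nonneg _).trans_lt (hw 0)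
  have h := cube_shift (g := fun z => F (z, y.2) * exp (-(2 * Real.pi * I * kz k z))) hδ ?_ ?_ hw
  · rw [h]
    rfl
  · intro z hz
    have h1 : DifferentiableAt ℂ F (z, y.2) :=
      (hF.hol (z, y.2) ⟨hz, hy.2⟩).differentiableAt ((isOpen_Om δ s).mem_nhds ⟨hz, hy.2⟩)
    have h2 : DifferentiableAt ℂ (fun z : Fin (n + 1) → ℂ => F (z, y.2)) z :=
      DifferentiableAt.comp z h1 (differentiableAt_id.prodMk (differentiableAt_const _))
    have h3 : Differentiable ℂ (fun z : Fin (n + 1) → ℂ => kz k z) := by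
      unfold kz
      fun_prop
    exact (h2.mul (by fun_prop)).differentiableWithinAt
  · intro i z
    have h1 : F (z + Pi.single i 1, y.2) = F (z, y.2) := by
      have h2 := hF.per i (z, y.2)
      simpa [ez] using h2
    have h3 : kz k (Pi.single i 1 : Fin (n + 1) → ℂ) = (k i : ℂ) := by
      simp [kz, Pi.single_apply]
    change F (z + Pi.single i 1, y.2) * exp (-(2 * Real.pi * I * kz k (z + Pi.single i 1))) = _
    rw [h1, kz_add, h3]
    congr 1
    have h4 : -(2 * Real.pi * I * (kz k z + (k i : ℂ))) =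
        -(2 * Real.pi * I * kz k z) + ((-(k i) : ℤ) : ℂ) * (2 * Real.pi * I) := by
      push_cast
      ring
    rw [h4, Complex.exp_periodic.int_mul (-(k i))]

/-- the sum of the products of the frequencies and the imaginary parts -/
private theorem kz_im (k : Fin (n + 1) → ℤ) (x v : Fin (n + 1) → ℝ) :
    -(2 * Real.pi * I * kz k ((fun i => (x i : ℂ)) + fun i => (v i : ℂ) * I)) =
      -(2 * Real.pi * I * ∑ i, (k i : ℂ) * (x i : ℂ)) +
        ((2 * Real.pi * ∑ i, (k i : ℝ) * v i : ℝ) : ℂ) := by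
  have h1 : kz k (fun i => (v i : ℂ) * I) = I * ∑ i, (k i : ℂ) * (v i : ℂ) := by
    rw [kz, Finset.mul_sum]
    exact Finset.sum_congr rfl fun i _ => by ring
  rw [kz_add, h1]
  push_cast
  rw [kz]
  linear_combination (-(2 * Real.pi * ∑ i, (k i : ℂ) * (v i : ℂ))) * I_mul_I

private theorem norm_kz (k : Fin (n + 1) → ℤ) (x v : Fin (n + 1) → ℝ) :
    ‖exp (-(2 * Real.pi * I * kz k ((fun i => (x i : ℂ)) + fun i => (v i : ℂ) * I)))‖ =
      Real.exp (2 * Real.pi * ∑ i, (k i : ℝ) * v i) := by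
  rw [kz_im, Complex.exp_add, norm_mul, ← Complex.ofReal_exp, Complex.norm_real,
    Real.norm_of_nonneg (Real.exp_pos _).le]
  have h2 : (-(2 * Real.pi * I * ∑ i, (k i : ℂ) * (x i : ℂ))) =
      ((-(2 * Real.pi * ∑ i, (k i : ℝ) * x i) : ℝ) : ℂ) * I := by
    push_cast
    ring
  rw [h2, Complex.norm_exp_ofReal_mul_I, one_mul]

private theorem nk_cast (k : Fin (n + 1) → ℤ) : (nk k : ℝ) = ∑ i, ((k i).natAbs : ℝ) := by
  rw [nk]
  push_cast
  rfl

private theorem cf_decay (hF : Fn δ s F) (hy : y ∈ Om n δ s) (h0 : 0 < δ') (h1 : δ' < δ) :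
    ∃ C : ℝ, 0 ≤ C ∧ ∀ k : Fin (n + 1) → ℤ,
      ‖cf k F y‖ ≤ C * Real.exp (-(2 * Real.pi * δ' * nk k)) := by
  have hco : ContinuousOn (fun q : (Fin (n + 1) → ℝ) × (Fin (n + 1) → ℝ) =>
      F ((fun i => (q.1 i : ℂ)) + fun i => (q.2 i : ℂ) * I, y.2))
      (Icc 0 1 ×ˢ Icc (fun _ => -δ') fun _ => δ') := by
    refine hF.hol.continuousOn.comp (by fun_prop) ?_
    rintro ⟨x, v⟩ ⟨-, hv⟩
    refine ⟨fun i => ?_, hy.2⟩
    have h2 : |v i| ≤ δ' := abs_le.2 ⟨hv.1 i, hv.2 i⟩
    simpa using h2.trans_lt h1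
  obtain ⟨C, hC⟩ := (isCompact_Icc.prod isCompact_Icc).exists_bound_of_continuousOn hco
  have hC0 : 0 ≤ C := (norm_nonneg _).trans (hC (0, 0) ⟨⟨le_rfl, fun _ => zero_le_one⟩,
    ⟨fun _ => by simpa using h0.le, fun _ => h0.le⟩⟩)
  refine ⟨C, hC0, fun k => ?_⟩
  have hv : ∀ i, |(-((k i).sign : ℝ) * δ')| ≤ δ' := by
    intro i
    rw [abs_mul, abs_neg, abs_of_pos h0]
    have h2 : |((k i).sign : ℝ)| ≤ 1 := by
      rcases lt_trichotomy (k i) 0 with h | h | h
      · simp [Int.sign_eq_neg_one_of_neg h]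
      · simp [h]
      · simp [Int.sign_eq_one_of_pos h]
    nlinarith
  have hw : ∀ i, |(((-((k i).sign : ℝ) * δ' : ℝ) : ℂ) * I).im| < δ := by
    intro i
    have h2 : ∀ a : ℝ, ((a : ℂ) * I).im = a := fun a => by simp
    rw [h2]
    exact (hv i).trans_lt h1
  rw [cf_shift hF hy k hw]
  have hsum : ∑ i, (k i : ℝ) * (-((k i).sign : ℝ) * δ') = -(δ' * nk k) := by
    rw [nk_cast, Finset.mul_sum, ← Finset.sum_neg_distrib]
    refine Finset.sum_congr rfl fun i _ => ?_
    have h2 : (k i : ℝ) * ((k i).sign : ℝ) = ((k i).natAbs : ℝ) := by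
      rw [← Int.cast_mul, Int.mul_sign_self, Int.cast_natCast]
    linear_combination (-δ') * h2
  have hvol : volume (Icc (0 : Fin (n + 1) → ℝ) 1) = 1 := by
    rw [Real.volume_Icc_pi]
    simp
  have hb := norm_setIntegral_le_of_norm_le_const (μ := volume)
    (s := Icc (0 : Fin (n + 1) → ℝ) 1) (C := C * Real.exp (-(2 * Real.pi * δ' * nk k)))
    (f := fun x => F ((fun i => (x i : ℂ)) + fun i => ((-((k i).sign : ℝ) * δ' : ℝ) : ℂ) * I, y.2) *
        exp (-(2 * Real.pi * I * kz k ((fun i => (x i : ℂ)) +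
          fun i => ((-((k i).sign : ℝ) * δ' : ℝ) : ℂ) * I)))) ?_ ?_
  · refine hb.trans (le_of_eq ?_)
    rw [measureReal_def, hvol]
    simp
  · rw [hvol]
    exact ENNReal.one_lt_top
  · intro x hx
    rw [norm_mul, norm_kz, hsum]
    have h3 := hC (x, fun i => -((k i).sign : ℝ) * δ')
      ⟨hx, ⟨fun i => (abs_le.1 (hv i)).1, fun i => (abs_le.1 (hv i)).2⟩⟩
    have h4 : 2 * Real.pi * -(δ' * (nk k : ℝ)) = -(2 * Real.pi * δ' * nk k) := by ring
    rw [h4]
    exact mul_le_mul_of_nonneg_right h3 (Real.exp_pos _).le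

theorem hasSum_cf (hF : Fn δ s F) (hy : y ∈ Om n δ s) :
    HasSum (fun k : Fin (n + 1) → ℤ => cf k F y * ek k y) (F y) := by
  obtain ⟨η, hη⟩ : ∃ η : Fin (n + 1) → ℝ, ∀ i, η i = (y.1 i).im := ⟨_, fun _ => rfl⟩
  obtain ⟨x, hx⟩ : ∃ x : Fin (n + 1) → ℝ, ∀ i, x i = (y.1 i).re := ⟨_, fun _ => rfl⟩
  have hyx : y.1 = (fun i => (x i : ℂ)) + fun i => (η i : ℂ) * I := by
    ext i
    rw [Pi.add_apply, hη, hx, Complex.re_add_im]
  have hηδ : ∀ i, |η i| < δ := fun i => by
    rw [hη]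
    exact hy.1 i
  obtain ⟨i0, hi0⟩ := Finite.exists_max fun i => |η i|
  have him : ∀ (ξ : Fin (n + 1) → ℝ) (i : Fin (n + 1)),
      (((fun i => (ξ i : ℂ)) + fun i => (η i : ℂ) * I) i).im = η i := by
    intro ξ i
    simp
  obtain ⟨g, hg⟩ : ∃ g : (Fin (n + 1) → ℝ) → ℂ, ∀ ξ,
      g ξ = F ((fun i => (ξ i : ℂ)) + fun i => (η i : ℂ) * I, y.2) := ⟨_, fun _ => rfl⟩
  have hgc : Continuous g := by
    have h1 : g = fun ξ => F ((fun i => (ξ i : ℂ)) + fun i => (η i : ℂ) * I, y.2) := funext hg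
    rw [h1]
    refine hF.hol.continuousOn.comp_continuous (by fun_prop) fun ξ => ⟨fun i => ?_, hy.2⟩
    rw [him]
    exact hηδ i
  have hgp : ∀ (i : Fin (n + 1)) (ξ : Fin (n + 1) → ℝ), g (ξ + Pi.single i 1) = g ξ := by
    intro i ξ
    rw [hg, hg]
    have h1 := hF.per i ((fun i => (ξ i : ℂ)) + fun i => (η i : ℂ) * I, y.2)
    rw [← h1]
    congr 1
    ext j
    · by_cases hj : j = i
      · subst hj
        simp [ez]
        ring
      · simp [ez, Pi.single_eq_of_ne hj]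
    · simp [ez]
  obtain ⟨G, hG⟩ := tor_lift hgc hgp
  have hcoeff : ∀ k, UnitAddTorus.mFourierCoeff G k =
      ((Real.exp (-(2 * Real.pi * ∑ i, (k i : ℝ) * η i)) : ℝ) : ℂ) * cf k F y := by
    intro k
    have hw : ∀ i, |((fun i => (η i : ℂ) * I) i).im| < δ := by
      intro i
      have h2 : ((η i : ℂ) * I).im = η i := by simp
      rw [h2]
      exact hηδ i
    rw [coeff_tor hG, cf_shift hF hy k hw, ← integral_const_mul]
    refine integral_congr_ae (Filter.Eventually.of_forall fun ξ => ?_)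
    simp only
    rw [kz_im, hg, Complex.exp_add, Real.exp_neg, Complex.ofReal_inv, Complex.ofReal_exp]
    have h3 : exp ((2 * Real.pi * ∑ i, (k i : ℝ) * η i : ℝ) : ℂ) ≠ 0 := Complex.exp_ne_zero _
    field_simp
  have hsumm : Summable (UnitAddTorus.mFourierCoeff G) := by
    obtain ⟨δ', h0, h1⟩ := exists_between ((hηδ i0) : |η i0| < δ)
    have hδ' : 0 < δ' := (abs_nonneg _).trans_lt h0
    obtain ⟨C, hC0, hC⟩ := cf_decay hF hy hδ' h1
    have hr0 : 0 < min (δ' - |η i0|) (1 / 2) := lt_min (by linarith) (by norm_num)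
    refine Summable.of_norm_bounded
      ((sum_exp (n := n) hr0 (min_le_right _ _)).1.mul_left C) fun k => ?_
    rw [hcoeff, norm_mul, Complex.norm_real, Real.norm_of_nonneg (Real.exp_pos _).le]
    have h2 : -(∑ i, (k i : ℝ) * η i) ≤ |η i0| * nk k := by
      rw [nk_cast, Finset.mul_sum, ← Finset.sum_neg_distrib]
      refine Finset.sum_le_sum fun i _ => ?_
      calc -((k i : ℝ) * η i) ≤ |(k i : ℝ) * η i| := neg_le_abs _
        _ = |η i| * |(k i : ℝ)| := by rw [abs_mul, mul_comm]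
        _ ≤ |η i0| * |(k i : ℝ)| := mul_le_mul_of_nonneg_right (hi0 i) (abs_nonneg _)
        _ = |η i0| * ((k i).natAbs : ℝ) := by rw [Nat.cast_natAbs, Int.cast_abs]
    have hpi := Real.pi_pos
    have hnk : (0 : ℝ) ≤ nk k := Nat.cast_nonneg _
    calc Real.exp (-(2 * Real.pi * ∑ i, (k i : ℝ) * η i)) * ‖cf k F y‖
        ≤ Real.exp (2 * Real.pi * (|η i0| * nk k)) *
          (C * Real.exp (-(2 * Real.pi * δ' * nk k))) := by
          refine mul_le_mul (Real.exp_le_exp.2 ?_) (hC k) (norm_nonneg _) (Real.exp_pos _).le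
          nlinarith
      _ = C * Real.exp (2 * Real.pi * (|η i0| * nk k) + -(2 * Real.pi * δ' * nk k)) := by
          rw [Real.exp_add]
          ring
      _ ≤ C * Real.exp (-(2 * Real.pi * min (δ' - |η i0|) (1 / 2) * nk k)) := by
          refine mul_le_mul_of_nonneg_left (Real.exp_le_exp.2 ?_) hC0
          have h5 : min (δ' - |η i0|) (1 / 2) * (nk k : ℝ) ≤ (δ' - |η i0|) * nk k :=
            mul_le_mul_of_nonneg_right (min_le_left _ _) hnk
          nlinarith
  have hfin := UnitAddTorus.hasSum_mFourier_series_apply_of_summable hsumm (tor x)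
  rw [hG, hg, ← hyx] at hfin
  convert hfin using 2 with k
  rw [hcoeff, mF_tor, smul_eq_mul, ek, hyx]
  have h6 : 2 * Real.pi * I * kz k ((fun i => (x i : ℂ)) + fun i => (η i : ℂ) * I) =
      2 * Real.pi * I * ∑ i, (k i : ℂ) * (x i : ℂ) +
        ((-(2 * Real.pi * ∑ i, (k i : ℝ) * η i) : ℝ) : ℂ) := by
    have h7 := kz_im k x η
    rw [Complex.ofReal_neg]
    linear_combination (-1 : ℂ) * h7
  rw [h6, Complex.exp_add, Complex.ofReal_exp]
  ring

theorem norm_le_of_cf {ρ r : ℝ} (hF : Fn δ s F) (hc : 0 ≤ c) (h0 : 0 < r) (h1 : r ≤ 1 / 2)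
    (hy : y ∈ Om n δ s) (hy' : y ∈ Om n (ρ - r) s)
    (h : ∀ k : Fin (n + 1) → ℤ, ‖cf k F y‖ ≤ c * Real.exp (-(2 * Real.pi * ρ * nk k))) :
    ‖F y‖ ≤ c / r ^ (n + 1) := by
  obtain ⟨hs, hb⟩ := sum_exp (n := n) h0 h1
  refine ((hasSum_cf hF hy).norm_le_of_bounded (hs.hasSum.mul_left c) fun k => ?_).trans ?_
  · rw [norm_mul]
    have h2 := ek_norm (y := y) k fun i => (hy'.1 i).le
    calc ‖cf k F y‖ * ‖ek k y‖ ≤ c * Real.exp (-(2 * Real.pi * ρ * nk k)) *
          Real.exp (2 * Real.pi * (ρ - r) * nk k) :=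
          mul_le_mul (h k) h2 (norm_nonneg _) (mul_nonneg hc (Real.exp_pos _).le)
      _ = c * Real.exp (-(2 * Real.pi * r * nk k)) := by
          rw [mul_assoc, ← Real.exp_add]
          congr 2
          ring
  · refine (mul_le_mul_of_nonneg_left hb hc).trans (le_of_eq ?_)
    rw [one_div, inv_pow, div_eq_mul_inv]

theorem norm_tail {r : ℝ} (K : ℕ) (hF : Fn δ s F) (hb : Bd δ s c F) (h0 : 0 < r)
    (h1 : r ≤ 1 / 2) (hr : r < δ) (hy : y ∈ Om n (δ - r) s) :
    ‖F y - ∑ k ∈ kB n K, cf k F y * ek k y‖ ≤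
      c * Real.exp (-(Real.pi * r * K)) * (2 / r) ^ (n + 1) := by
  classical
  have hyδ : y ∈ Om n δ s := Om_mono (by linarith) le_rfl hy
  have hδ : 0 < δ := h0.trans hr
  have hc : 0 ≤ c := (norm_nonneg _).trans (hb y hyδ)
  obtain ⟨hs, hbd⟩ := sum_exp (n := n) (r := r / 2) (by linarith) (by linarith)
  have hS : HasSum (fun k => if k ∈ kB n K then cf k F y * ek k y else 0)
      (∑ k ∈ kB n K, cf k F y * ek k y) := by
    have h2 : HasSum (fun k => if k ∈ kB n K then cf k F y * ek k y else 0)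
        (∑ k ∈ kB n K, if k ∈ kB n K then cf k F y * ek k y else 0) :=
      hasSum_sum_of_ne_finset_zero fun k hk => if_neg hk
    convert h2 using 1
    exact Finset.sum_congr rfl fun k hk => (if_pos hk).symm
  have hD := (hasSum_cf hF hyδ).sub hS
  have hcE : 0 ≤ c * Real.exp (-(Real.pi * r * K)) := mul_nonneg hc (Real.exp_pos _).le
  refine (hD.norm_le_of_bounded (hs.hasSum.mul_left (c * Real.exp (-(Real.pi * r * K))))
    fun k => ?_).trans ?_
  · by_cases hk : k ∈ kB n K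
    · rw [if_pos hk, sub_self, norm_zero]
      exact mul_nonneg hcE (Real.exp_pos _).le
    · rw [if_neg hk, sub_zero, norm_mul]
      have hk' : (K : ℝ) ≤ nk k := by
        have h3 : ¬ nk k ≤ K := fun h4 => hk (mem_kB.2 h4)
        exact_mod_cast (not_le.1 h3).le
      have h2 := ek_norm (y := y) k fun i => (hy.1 i).le
      have h3 := cf_bound hF hb hδ k hy
      have hpi := Real.pi_pos
      calc ‖cf k F y‖ * ‖ek k y‖ ≤ c * Real.exp (-(2 * Real.pi * δ * nk k)) *
            Real.exp (2 * Real.pi * (δ - r) * nk k) :=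
            mul_le_mul h3 h2 (norm_nonneg _) (mul_nonneg hc (Real.exp_pos _).le)
        _ = c * Real.exp (-(2 * Real.pi * r * nk k)) := by
            rw [mul_assoc, ← Real.exp_add]
            congr 2
            ring
        _ ≤ c * Real.exp (-(Real.pi * r * K) + -(2 * Real.pi * (r / 2) * nk k)) := by
            refine mul_le_mul_of_nonneg_left (Real.exp_le_exp.2 ?_) hc
            have h4 : Real.pi * r * K ≤ Real.pi * r * nk k :=
              mul_le_mul_of_nonneg_left hk' (mul_pos hpi h0).le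
            nlinarith
        _ = c * Real.exp (-(Real.pi * r * K)) * Real.exp (-(2 * Real.pi * (r / 2) * nk k)) := by
            rw [Real.exp_add]
            ring
  · refine (mul_le_mul_of_nonneg_left hbd hcE).trans (le_of_eq ?_)
    rw [one_div_div]

end Pool.Agent.LRig
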