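import Pool.Agent.LRig.FB
import Pool.Agent.LRig.FD

/-!
# LR (MP_74f563_an, all n), file FE: division by the small divisors

PROOF of `cf_small`.  `f = cf k F` satisfies `2πi (dv k y) f(y) = cf k (DD F) y` (`cf_DD`), which is
bounded by `M e^{-2πδ|k|}` on the strip `s` (`cf_bound` for `DD F`).  Let `k ≠ 0`.
If `k` has no angular part then `dv k y = k 0`, a nonzero integer, and
`‖f‖ ≤ M e^{-2πδ|k|} / (2π) ≤ (M / r) e^{..}` (`r ≤ 1`).
Otherwise let `a` be such that `J = |k a.succ|` is maximal; only `J ≥ 1` is used.  Let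
`0 < r₁ < r` and `y` in the strip `s - r`.  The function `ζ ↦ f (y + ζ • eh a)` is holomorphic on
`|ζ| ≤ r₁`, and `dv k (y + ζ • eh a) = dv k y + ζ k_{a+1}`.  If `‖dv k y‖ ≤ (3/4) r₁ J` then on the
circle
`|ζ| = r₁` the divisor is at least `r₁ J / 4`, otherwise on the circle `|ζ| = r₁ / 2` it is at least
`(3/4 - 1/2) r₁ J`.  Maximum principle (`Complex.norm_le_of_forall_mem_frontier_norm_le` on the
disc):
`‖f y‖ ≤ M e^{-2πδ|k|} · 4 / (2π r₁ J) ≤ (M / r₁) e^{-2πδ|k|}`; `r₁ → r`.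
PROOF of `div_DD`.  `G = F - avg F` has `cf 0 G = 0` and `cf k G = cf k F` for `k ≠ 0` (`cf_sub`,
`cf_zi`); `norm_le_of_cf` with `ρ = δ`.
-/

set_option autoImplicit false

namespace Pool.Agent.LRig

open Complex Set MeasureTheory

variable {n : ℕ} {δ s δ' s' c c' : ℝ} {F G : CE n → ℂ} {y : CE n}

private theorem fe_dv (k : Fin (n + 1) → ℤ) (y : CE n) :
    dv k y = (k 0 : ℂ) + ∑ a : Fin n, (k a.succ : ℂ) * y.2 a := by
  unfold dv kz hh
  rw [Fin.sum_univ_succ, Fin.cons_zero, mul_one]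
  simp only [Fin.cons_succ]

private theorem fe_dv_line (k : Fin (n + 1) → ℤ) (y : CE n) (a : Fin n) (ζ : ℂ) :
    dv k (y + ζ • eh a) = dv k y + ζ * (k a.succ : ℂ) := by
  rw [fe_dv, fe_dv]
  have h1 : ∀ b : Fin n, (y + ζ • eh a).2 b = y.2 b + ζ * (Pi.single a (1 : ℂ) : Fin n → ℂ) b :=
    fun b => rfl
  simp only [h1, mul_add, Finset.sum_add_distrib]
  have h2 : ∑ b : Fin n, (k b.succ : ℂ) * (ζ * (Pi.single a (1 : ℂ) : Fin n → ℂ) b) =
      ζ * (k a.succ : ℂ) := by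
    rw [Finset.sum_eq_single a]
    · rw [Pi.single_eq_same]
      ring
    · intro b _ hb
      rw [Pi.single_eq_of_ne hb]
      ring
    · intro ha
      exact absurd (Finset.mem_univ a) ha
  rw [h2]
  ring

private theorem fe_mem {r : ℝ} (hy : y ∈ Om n δ' (s - r)) (a : Fin n) {ζ : ℂ} (hζ : ‖ζ‖ ≤ r) :
    y + ζ • eh a ∈ Om n δ' s := by
  refine ⟨fun i => ?_, fun b => ?_⟩
  · have h1 : (y + ζ • eh a).1 i = y.1 i + ζ * 0 := rfl
    rw [h1, mul_zero, add_zero]
    exact hy.1 i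
  · have h1 : (y + ζ • eh a).2 b = y.2 b + ζ * (Pi.single a (1 : ℂ) : Fin n → ℂ) b := rfl
    have h2 : ‖ζ * (Pi.single a (1 : ℂ) : Fin n → ℂ) b‖ ≤ r := by
      by_cases hb : b = a
      · rw [hb, Pi.single_eq_same, mul_one]
        exact hζ
      · rw [Pi.single_eq_of_ne hb, mul_zero, norm_zero]
        exact (norm_nonneg ζ).trans hζ
    rw [h1, Complex.add_im]
    have h3 := abs_add_le (y.2 b).im (ζ * (Pi.single a (1 : ℂ) : Fin n → ℂ) b).im
    have h4 := Complex.abs_im_le_norm (ζ * (Pi.single a (1 : ℂ) : Fin n → ℂ) b)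
    have h5 := hy.2 b
    linarith

theorem cf_small {M r : ℝ} (hF : Fn δ s F) (hM : Bd δ s M (DD F)) (hδ : 0 < δ) (h0 : 0 < r)
    (h1 : r ≤ 1) (hr : r < s) {k : Fin (n + 1) → ℤ} (hk : k ≠ 0) (hy : y ∈ Om n δ' (s - r)) :
    ‖cf k F y‖ ≤ M / r * Real.exp (-(2 * Real.pi * δ * nk k)) := by
  set E := Real.exp (-(2 * Real.pi * δ * nk k)) with hE
  have hE0 : 0 < E := Real.exp_pos _
  have hpi : (3 : ℝ) < Real.pi := Real.pi_gt_three
  have hdiv : ∀ y : CE n, y ∈ Om n δ' s →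
      2 * Real.pi * ‖dv k y‖ * ‖cf k F y‖ ≤ M * E := by
    intro y hy
    have h2 := cf_bound hF.DD hM hδ k hy
    rw [cf_DD hF hδ k hy, norm_mul, norm_mul, norm_mul, norm_mul, Complex.norm_I,
      Complex.norm_real, Real.norm_of_nonneg Real.pi_pos.le] at h2
    have h3 : ‖(2 : ℂ)‖ = 2 := by norm_num
    rwa [h3, mul_one] at h2
  have hys : y ∈ Om n δ' s := Om_mono le_rfl (by linarith) hy
  have hME : 0 ≤ M * E := le_trans (by positivity) (hdiv y hys)
  have goal_of : ∀ x : ℝ, x * r ≤ M * E → x ≤ M / r * E := by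
    intro x hx
    rw [div_mul_eq_mul_div, le_div_iff₀ h0]
    exact hx
  by_cases hA : ∃ a : Fin n, k a.succ ≠ 0
  · obtain ⟨a, ha⟩ := hA
    have hJ : (1 : ℝ) ≤ ‖((k a.succ : ℤ) : ℂ)‖ := by
      rw [Complex.norm_intCast]
      exact_mod_cast Int.one_le_abs ha
    obtain ⟨ρ, hρ0, hρr, hρ⟩ : ∃ ρ, 0 < ρ ∧ ρ ≤ r ∧ ∀ ζ : ℂ, ‖ζ‖ = ρ →
        r / 4 ≤ ‖dv k (y + ζ • eh a)‖ := by
      by_cases hc : ‖dv k y‖ ≤ 3 / 4 * (r * ‖((k a.succ : ℤ) : ℂ)‖)
      · refine ⟨r, h0, le_rfl, fun ζ hζ => ?_⟩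
        rw [fe_dv_line]
        have h3 := norm_sub_le (dv k y + ζ * ((k a.succ : ℤ) : ℂ)) (dv k y)
        rw [add_sub_cancel_left, norm_mul, hζ] at h3
        nlinarith
      · refine ⟨r / 2, by linarith, by linarith, fun ζ hζ => ?_⟩
        rw [fe_dv_line]
        have h3 := norm_sub_le (dv k y + ζ * ((k a.succ : ℤ) : ℂ)) (ζ * ((k a.succ : ℤ) : ℂ))
        rw [add_sub_cancel_right, norm_mul, hζ] at h3
        push Not at hc
        nlinarith
    have hline : Differentiable ℂ fun ζ : ℂ => y + ζ • (eh a : CE n) := by fun_prop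
    have hU : DifferentiableOn ℂ (fun ζ : ℂ => cf k F (y + ζ • eh a))
        ((fun ζ : ℂ => y + ζ • (eh a : CE n)) ⁻¹' Om n δ' s) :=
      (cf_hol hF hδ k δ').comp hline.differentiableOn fun ζ hζ => hζ
    have hball : Metric.closedBall (0 : ℂ) ρ ⊆
        (fun ζ : ℂ => y + ζ • (eh a : CE n)) ⁻¹' Om n δ' s := by
      intro ζ hζ
      rw [mem_closedBall_zero_iff] at hζ
      exact fe_mem hy a (hζ.trans hρr)
    have hdc := hU.diffContOnCl_ball hball
    have h4 := Complex.norm_le_of_forall_mem_frontier_norm_le Metric.isBounded_ball hdc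
      (C := M / r * E) (fun ζ hζ => by
        have hζ' : ‖ζ‖ = ρ := by
          have := Metric.frontier_ball_subset_sphere hζ
          rwa [mem_sphere_zero_iff_norm] at this
        refine goal_of _ ?_
        have h5 := hdiv (y + ζ • eh a) (fe_mem hy a (hζ'.le.trans hρr))
        have h6 := hρ ζ hζ'
        have h7 : 0 ≤ ‖cf k F (y + ζ • eh a)‖ := norm_nonneg _
        have h8 : 2 * Real.pi * (r / 4) * ‖cf k F (y + ζ • eh a)‖ ≤ M * E :=
          le_trans (mul_le_mul_of_nonneg_right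
            (mul_le_mul_of_nonneg_left h6 (by positivity)) h7) h5
        have h9 : 0 ≤ r * ‖cf k F (y + ζ • eh a)‖ := by positivity
        nlinarith) (z := 0) (subset_closure (Metric.mem_ball_self hρ0))
    simpa using h4
  · push Not at hA
    have h2 : dv k y = (k 0 : ℂ) := by
      rw [fe_dv, Finset.sum_eq_zero, add_zero]
      intro a _
      rw [hA a]
      simp
    have h3 : k 0 ≠ 0 := by
      intro h
      apply hk
      funext i
      refine Fin.cases h (fun a => hA a) i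
    have h4 : (1 : ℝ) ≤ ‖dv k y‖ := by
      rw [h2, Complex.norm_intCast]
      exact_mod_cast Int.one_le_abs h3
    have h5 := hdiv y hys
    refine goal_of _ ?_
    have h7 : 0 ≤ ‖cf k F y‖ := norm_nonneg _
    have h8 : 2 * Real.pi * 1 * ‖cf k F y‖ ≤ M * E :=
      le_trans (mul_le_mul_of_nonneg_right
        (mul_le_mul_of_nonneg_left h4 (by positivity)) h7) h5
    nlinarith

/-- division: `F` is bounded by `D F` -/
theorem div_DD {M r r' : ℝ} (hF : Fn δ s F) (hM : Bd δ s M (DD F)) (h0 : 0 < r) (h1 : r ≤ 1)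
    (hr : r < s) (h0' : 0 < r') (h1' : r' ≤ 1 / 2) (hr' : r' < δ) :
    Bd (δ - r') (s - r) (M / (r * r' ^ (n + 1))) fun y => F y - avg F y := by
  have hδ : 0 < δ := h0'.trans hr'
  intro y hy
  have hys : y ∈ Om n δ s := Om_mono (by linarith) (by linarith) hy
  have hM0 : 0 ≤ M := (norm_nonneg _).trans (hM y hys)
  have hav := avg_fn hF hδ δ
  have h2 := norm_le_of_cf (c := M / r) (ρ := δ) (r := r') (hF.sub hav) (by positivity) h0' h1'
    hys (Om_mono le_rfl (by linarith) hy) (fun k => by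
      rw [cf_sub hF hav hδ k hys, cf_zi (avg_Zi F)]
      split_ifs with hk
      · rw [hk, cf_zero, sub_self, norm_zero]
        positivity
      · rw [sub_zero]
        exact cf_small hF hM hδ h0 h1 hr hk hy)
  rwa [div_div] at h2

end Pool.Agent.LRig
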