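import Pool.Agent.LRig.FV

/-!
# LR (MP_74f563_an, all n), file FK: Fourier coefficients

PROOFS.  `cf k F = avg (fun y => F y * ek (-k) y)` (`cf_eq_avg`), where `ek (-k)` is entire,
periodic
in `z` (`exp (2πi integer) = 1`), but not real at real points; so the facts of `FV`, proved for
`Fn`,
must be used in a form without `real`: prove them again from `cube_hol`, `cube_shift` (the proofs
are
the same), or split `ek (-k)` into `(ek (-k) + ek k)/2` and `(ek (-k) - ek k)/(2i)` (both are real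
at
real points: `cos`, `sin`), so that `cf k F = avg (F * cos) - i avg (F * sin)`: this reduces
everything
to `FV`.
`cf_dz`: mean zero of `dz i (F * ek (-k)) = (dz i F) * ek (-k) - 2πi k_i F * ek (-k)`.
`cf_DD`: `DD_eq`, `cf_dz`, `dv k y = k_0 + ∑ k_{a+1} y.2 a`.  `cf_dh`: `ek` does not depend on `h`.
`cf_bound`: for `0 < δ' < δ` shift the contour (`cube_shift` for `g z = F (z, h) exp (-2πi k·z)`) by
`w i = -i sign(k i) δ'`: `|exp (-2πi k·(x + w))| = exp (-2π δ' ∑ |k i|)`, so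
`‖cf k F‖ ≤ c exp (-2π δ' |k|)`; let `δ' → δ` (as in `cf_bound` of `Pool.Agent.NOne.KFou`).
`cf_conj`: conjugate the integral.  `cf_trig`: orthogonality: `∫_{[0,1]^{n+1}} e^{2πi l·x} dx = 1`
for
`l = 0`, `0` otherwise (from `cube_shift_real` with a shift `w` with `e^{2πi l·w} ≠ 1`, e.g.
`w = e_i / (2 l_i)`, or by Fubini).
-/

set_option autoImplicit false

namespace Pool.Agent.LRig

open Complex Set MeasureTheory
open scoped ComplexConjugate

variable {n : ℕ} {δ s δ' s' c c' : ℝ} {F G : CE n → ℂ} {y : CE n} {k : Fin (n + 1) → ℤ}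

/-! ## The pairing `k · z` -/

private theorem kz_add (k : Fin (n + 1) → ℤ) (z w : Fin (n + 1) → ℂ) :
    kz k (z + w) = kz k z + kz k w := by
  simp [kz, mul_add, Finset.sum_add_distrib]

private theorem kz_neg (k : Fin (n + 1) → ℤ) (z : Fin (n + 1) → ℂ) : kz (-k) z = -kz k z := by
  simp [kz]

private theorem kz_sub (l k : Fin (n + 1) → ℤ) (z : Fin (n + 1) → ℂ) :
    kz (l - k) z = kz l z - kz k z := by
  simp [kz, sub_mul]

private theorem kz_single (k : Fin (n + 1) → ℤ) (i : Fin (n + 1)) (c : ℂ) :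
    kz k (Pi.single i c) = k i * c := by
  unfold kz
  rw [Finset.sum_eq_single i]
  · rw [Pi.single_eq_same]
  · intro j _ hj
    rw [Pi.single_eq_of_ne hj, mul_zero]
  · intro h
    exact absurd (Finset.mem_univ i) h

private theorem kz_conj (k : Fin (n + 1) → ℤ) (z : Fin (n + 1) → ℂ) :
    kz k (fun i => conj (z i)) = conj (kz k z) := by
  simp [kz]

private theorem kz_im (k : Fin (n + 1) → ℤ) (z : Fin (n + 1) → ℂ) :
    (kz k z).im = ∑ i, (k i : ℝ) * (z i).im := by
  unfold kz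
  rw [Complex.im_sum]
  refine Finset.sum_congr rfl fun i _ => ?_
  rw [Complex.mul_im, Complex.intCast_im, Complex.intCast_re]
  ring

private theorem conj_two : (starRingEnd ℂ) (2 : ℂ) = 2 :=
  Complex.conj_eq_iff_im.2 (by simp)

private theorem exp_per (k : Fin (n + 1) → ℤ) (z : Fin (n + 1) → ℂ) (i : Fin (n + 1)) :
    exp (-(2 * Real.pi * I * kz k (z + Pi.single i 1))) = exp (-(2 * Real.pi * I * kz k z)) := by
  rw [kz_add, kz_single, mul_one]
  have e : -(2 * (Real.pi : ℂ) * I * (kz k z + (k i : ℂ))) =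
      -(2 * Real.pi * I * kz k z) + ((-k i : ℤ) : ℂ) * (2 * Real.pi * I) := by
    push_cast
    ring
  rw [e, Complex.exp_add, Complex.exp_int_mul_two_pi_mul_I, mul_one]

/-! ## The exponentials -/

private noncomputable def Lk (k : Fin (n + 1) → ℤ) : CE n →L[ℂ] ℂ :=
  (∑ i, (k i : ℂ) • (ContinuousLinearMap.proj i : (Fin (n + 1) → ℂ) →L[ℂ] ℂ)).comp
    (ContinuousLinearMap.fst ℂ (Fin (n + 1) → ℂ) (Fin n → ℂ))

private theorem Lk_apply (k : Fin (n + 1) → ℤ) (y : CE n) : Lk k y = kz k y.1 := by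
  simp [Lk, kz]

private theorem ek_has (k : Fin (n + 1) → ℤ) (y : CE n) :
    HasFDerivAt (ek k) (ek k y • ((2 * Real.pi * I : ℂ) • Lk k)) y := by
  have h1 : HasFDerivAt (fun y : CE n => (2 * Real.pi * I : ℂ) * Lk k y)
      ((2 * Real.pi * I : ℂ) • Lk k) y := (Lk k).hasFDerivAt.const_mul _
  have h2 := h1.cexp
  have e : (fun y : CE n => exp ((2 * Real.pi * I : ℂ) * Lk k y)) = ek k := by
    funext y
    rw [Lk_apply]
    rfl
  have e' : exp ((2 * Real.pi * I : ℂ) * Lk k y) = ek k y := congrFun e y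
  rw [e, e'] at h2
  exact h2

private theorem ek_fderiv (k : Fin (n + 1) → ℤ) (y v : CE n) :
    fderiv ℂ (ek k) y v = 2 * Real.pi * I * kz k v.1 * ek k y := by
  rw [(ek_has k y).fderiv]
  change ek k y * (2 * Real.pi * I * Lk k v) = _
  rw [Lk_apply]
  ring

private theorem ek_diff' (k : Fin (n + 1) → ℤ) : Differentiable ℂ (ek (n := n) k) :=
  fun y => (ek_has k y).differentiableAt

private theorem ek_per' (k : Fin (n + 1) → ℤ) (i : Fin (n + 1)) (y : CE n) :
    ek k (y + ez i) = ek k y := by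
  have h := exp_per (-k) y.1 i
  rw [kz_neg, kz_neg, mul_neg, neg_neg, mul_neg, neg_neg] at h
  exact h

private theorem ek_neg_real (k : Fin (n + 1) → ℤ) (x : Fin (n + 1) → ℝ) (h : Fin n → ℂ) :
    ek (-k) (fun i => (x i : ℂ), h) = exp (-(2 * Real.pi * I * kz k fun i => (x i : ℂ))) := by
  unfold ek
  rw [kz_neg, mul_neg]

/-! ## General facts on the mean -/

private theorem gen_cont (hF : ContinuousOn F (Om n δ s)) (hδ : 0 < δ) (hy : y ∈ Om n δ' s) :
    Continuous fun x : Fin (n + 1) → ℝ => F (fun i => (x i : ℂ), y.2) := by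
  refine hF.comp_continuous ?_ fun x => real_mem_Om hδ hy x
  fun_prop

private theorem gen_int (hF : ContinuousOn F (Om n δ s)) (hδ : 0 < δ) (hy : y ∈ Om n δ' s) :
    IntegrableOn (fun x : Fin (n + 1) → ℝ => F (fun i => (x i : ℂ), y.2))
      (Icc (0 : Fin (n + 1) → ℝ) 1) :=
  (gen_cont hF hδ hy).continuousOn.integrableOn_compact isCompact_Icc

private theorem mem_V (hδ : 0 < δ) (h : ∀ a, |(y.2 a).im| < s) (x : Fin (n + 1) → ℝ) :
    ((fun i => (x i : ℂ)), y.2) ∈ Om n δ s :=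
  ⟨fun i => by simpa using hδ, h⟩

private theorem open_V (s : ℝ) : IsOpen {y : CE n | ∀ a, |(y.2 a).im| < s} := by
  have e : {y : CE n | ∀ a, |(y.2 a).im| < s} = ⋂ a, {y : CE n | |(y.2 a).im| < s} := by
    ext y
    simp
  rw [e]
  refine isOpen_iInter_of_finite fun a => isOpen_lt ?_ continuous_const
  fun_prop

private theorem gen_hol (hF : DifferentiableOn ℂ F (Om n δ s)) (hδ : 0 < δ) :
    DifferentiableOn ℂ (avg F) {y : CE n | ∀ a, |(y.2 a).im| < s} ∧
      ∀ y ∈ {y : CE n | ∀ a, |(y.2 a).im| < s}, ∀ v, fderiv ℂ (avg F) y v =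
        ∫ x in Icc (0 : Fin (n + 1) → ℝ) 1,
          fderiv ℂ (fun y : CE n => F (fun i => (x i : ℂ), y.2)) y v := by
  refine cube_hol (g := fun x y => F (fun i => (x i : ℂ), y.2)) (open_V s) ?_ ?_
  · refine hF.continuousOn.comp (f := fun q : (Fin (n + 1) → ℝ) × CE n =>
      ((fun i => (q.1 i : ℂ), q.2.2) : CE n)) ?_ ?_
    · exact Continuous.continuousOn (by fun_prop)
    · rintro ⟨x, y⟩ ⟨-, hy⟩
      exact mem_V hδ hy x
  · intro x _
    refine hF.comp (f := fun y : CE n => ((fun i => (x i : ℂ), y.2) : CE n)) ?_ ?_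
    · exact ((differentiable_const _).prodMk differentiable_snd).differentiableOn
    · intro y hy
      exact mem_V hδ hy x

private theorem gen_dh (hF : DifferentiableOn ℂ F (Om n δ s)) (hδ : 0 < δ) (a : Fin n)
    (hy : y ∈ Om n δ' s) : avg (dh a F) y = dh a (avg F) y := by
  unfold dh
  rw [(gen_hol hF hδ).2 y hy.2]
  unfold avg
  congr 1
  funext x
  have hm := real_mem_Om hδ hy x
  have h1 : HasFDerivAt F (fderiv ℂ F (fun i => (x i : ℂ), y.2)) (fun i => (x i : ℂ), y.2) :=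
    (hF.differentiableAt ((isOpen_Om δ s).mem_nhds hm)).hasFDerivAt
  have h2 : HasFDerivAt (fun y : CE n => ((fun i => (x i : ℂ), y.2) : CE n))
      ((0 : CE n →L[ℂ] (Fin (n + 1) → ℂ)).prod
        (ContinuousLinearMap.snd ℂ (Fin (n + 1) → ℂ) (Fin n → ℂ))) y :=
    (hasFDerivAt_const _ _).prodMk hasFDerivAt_snd
  have h3 := (HasFDerivAt.comp y h1 h2).fderiv
  have e : fderiv ℂ (fun y : CE n => F (fun i => (x i : ℂ), y.2)) y =
      (fderiv ℂ F (fun i => (x i : ℂ), y.2)).comp ((0 : CE n →L[ℂ] (Fin (n + 1) → ℂ)).prod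
        (ContinuousLinearMap.snd ℂ (Fin (n + 1) → ℂ) (Fin n → ℂ))) := h3
  rw [e]
  rfl

private theorem gen_dz (hF : DifferentiableOn ℂ F (Om n δ s))
    (hp : ∀ (i : Fin (n + 1)) (y : CE n), F (y + ez i) = F y) (hδ : 0 < δ) (i : Fin (n + 1))
    (hy : y ∈ Om n δ' s) : avg (dz i F) y = 0 := by
  have hV : IsOpen {ζ : ℂ | |ζ.im| < δ} := isOpen_lt (by fun_prop) continuous_const
  have hmem : ∀ (x : Fin (n + 1) → ℝ) (ζ : ℂ), |ζ.im| < δ →
      (((fun i => (x i : ℂ)) + Pi.single i ζ, y.2) : CE n) ∈ Om n δ s := by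
    intro x ζ hζ
    refine ⟨fun j => ?_, hy.2⟩
    by_cases hj : j = i
    · subst hj
      simpa using hζ
    · simpa [Pi.single_eq_of_ne hj] using hδ
  have hlin : ∀ x : Fin (n + 1) → ℝ, ∀ ζ : ℂ, HasFDerivAt
      (fun ζ : ℂ => (((fun i => (x i : ℂ)) + Pi.single i ζ, y.2) : CE n))
      ((ContinuousLinearMap.single ℂ (fun _ : Fin (n + 1) => ℂ) i).prod
        (0 : ℂ →L[ℂ] (Fin n → ℂ))) ζ := by
    intro x ζ
    exact (((ContinuousLinearMap.single ℂ (fun _ : Fin (n + 1) => ℂ) i).hasFDerivAt).const_add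
      (fun i => (x i : ℂ))).prodMk (hasFDerivAt_const _ _)
  have h1 := cube_hol (m := n + 1) (E := ℂ)
    (g := fun x ζ => F ((fun i => (x i : ℂ)) + Pi.single i ζ, y.2)) hV (by
      refine hF.continuousOn.comp (f := fun q : (Fin (n + 1) → ℝ) × ℂ =>
        (((fun i => (q.1 i : ℂ)) + Pi.single i q.2, y.2) : CE n)) ?_ ?_
      · refine Continuous.continuousOn (Continuous.prodMk (Continuous.add (by fun_prop) ?_)
          continuous_const)
        exact (ContinuousLinearMap.single ℂ (fun _ : Fin (n + 1) => ℂ) i).continuous.comp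
          continuous_snd
      · rintro ⟨x, ζ⟩ ⟨-, hζ⟩
        exact hmem x ζ hζ) (by
      intro x _
      refine hF.comp (f := fun ζ : ℂ => (((fun i => (x i : ℂ)) + Pi.single i ζ, y.2) : CE n))
        (fun ζ _ => (hlin x ζ).differentiableAt.differentiableWithinAt) ?_
      intro ζ hζ
      exact hmem x ζ hζ)
  have h0 : (0 : ℂ) ∈ {ζ : ℂ | |ζ.im| < δ} := by simpa using hδ
  have h2 := h1.2 0 h0 1
  have h3 : ∀ ζ ∈ {ζ : ℂ | |ζ.im| < δ},
      ∫ x in Icc (0 : Fin (n + 1) → ℝ) 1, F ((fun i => (x i : ℂ)) + Pi.single i ζ, y.2) =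
      ∫ x in Icc (0 : Fin (n + 1) → ℝ) 1, F (fun i => (x i : ℂ), y.2) := by
    intro ζ hζ
    refine cube_shift (δ := δ) (g := fun z => F (z, y.2)) hδ ?_ ?_ ?_
    · refine hF.comp (f := fun z : Fin (n + 1) → ℂ => ((z, y.2) : CE n)) ?_ ?_
      · exact (differentiable_id.prodMk (differentiable_const _)).differentiableOn
      · intro z hz
        exact ⟨hz, hy.2⟩
    · intro j z
      have h4 := hp j (z, y.2)
      have h5 : ((z, y.2) : CE n) + ez j = (z + Pi.single j 1, y.2) := by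
        simp [ez]
      rw [h5] at h4
      exact h4
    · intro j
      by_cases hj : j = i
      · subst hj
        simpa using hζ
      · simpa [Pi.single_eq_of_ne hj] using hδ
  have h4 : fderiv ℂ (fun ζ : ℂ => ∫ x in Icc (0 : Fin (n + 1) → ℝ) 1,
      F ((fun i => (x i : ℂ)) + Pi.single i ζ, y.2)) 0 = 0 := by
    have h5 : (fun ζ : ℂ => ∫ x in Icc (0 : Fin (n + 1) → ℝ) 1,
        F ((fun i => (x i : ℂ)) + Pi.single i ζ, y.2)) =ᶠ[nhds 0] fun _ =>
        ∫ x in Icc (0 : Fin (n + 1) → ℝ) 1, F (fun i => (x i : ℂ), y.2) :=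
      Filter.eventuallyEq_of_mem (hV.mem_nhds h0) h3
    rw [h5.fderiv_eq, fderiv_fun_const]
    rfl
  rw [h4] at h2
  have h6 : (0 : ℂ) = avg (dz i F) y := by
    refine h2.trans ?_
    unfold avg dz
    congr 1
    funext x
    have hm : (((fun i => (x i : ℂ)) + Pi.single i 0, y.2) : CE n) ∈ Om n δ s :=
      hmem x 0 h0
    have k1 : HasFDerivAt F (fderiv ℂ F ((fun i => (x i : ℂ)) + Pi.single i 0, y.2))
        ((fun i => (x i : ℂ)) + Pi.single i 0, y.2) :=
      (hF.differentiableAt ((isOpen_Om δ s).mem_nhds hm)).hasFDerivAt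
    have k2 : fderiv ℂ (fun ζ : ℂ => F ((fun i => (x i : ℂ)) + Pi.single i ζ, y.2)) 0 =
        (fderiv ℂ F ((fun i => (x i : ℂ)) + Pi.single i 0, y.2)).comp
          ((ContinuousLinearMap.single ℂ (fun _ : Fin (n + 1) => ℂ) i).prod
            (0 : ℂ →L[ℂ] (Fin n → ℂ))) :=
      (HasFDerivAt.comp (0 : ℂ) k1 (hlin x 0)).fderiv
    rw [k2, Pi.single_zero, add_zero]
    rfl
  exact h6.symm

/-! ## Fourier coefficients -/

theorem cf_eq_avg (k : Fin (n + 1) → ℤ) (F : CE n → ℂ) :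
    cf k F = avg fun y => F y * ek (-k) y := by
  funext y
  unfold cf avg
  congr 1
  funext x
  change _ = F (fun i => (x i : ℂ), y.2) * ek (-k) (fun i => (x i : ℂ), y.2)
  rw [ek_neg_real]

theorem cf_Zi (k : Fin (n + 1) → ℤ) (F : CE n → ℂ) : Zi (cf k F) := fun _ _ _ => rfl

theorem cf_zero (F : CE n → ℂ) : cf 0 F = avg F := by
  funext y
  unfold cf avg
  congr 1
  funext x
  have h : kz (0 : Fin (n + 1) → ℤ) (fun i => (x i : ℂ)) = 0 := by
    simp [kz]
  rw [h, mul_zero, neg_zero, Complex.exp_zero, mul_one]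

private theorem hol_mul (hF : Fn δ s F) (k : Fin (n + 1) → ℤ) :
    DifferentiableOn ℂ (fun y => F y * ek k y) (Om n δ s) :=
  hF.hol.mul (ek_diff' k).differentiableOn

private theorem per_mul (hF : Fn δ s F) (k : Fin (n + 1) → ℤ) (i : Fin (n + 1)) (y : CE n) :
    F (y + ez i) * ek k (y + ez i) = F y * ek k y := by
  rw [hF.per, ek_per']

private theorem cf_int (hF : Fn δ s F) (hδ : 0 < δ) (k : Fin (n + 1) → ℤ) (hy : y ∈ Om n δ' s) :
    IntegrableOn (fun x : Fin (n + 1) → ℝ => F (fun i => (x i : ℂ), y.2) *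
      exp (-(2 * Real.pi * I * kz k fun i => (x i : ℂ)))) (Icc (0 : Fin (n + 1) → ℝ) 1) := by
  have h := gen_int (hol_mul hF (-k)).continuousOn hδ hy
  refine h.congr_fun (fun x _ => ?_) measurableSet_Icc
  change F (fun i => (x i : ℂ), y.2) * ek (-k) (fun i => (x i : ℂ), y.2) = _
  rw [ek_neg_real]

theorem cf_hol (hF : Fn δ s F) (hδ : 0 < δ) (k : Fin (n + 1) → ℤ) (δ' : ℝ) :
    DifferentiableOn ℂ (cf k F) (Om n δ' s) := by
  rw [cf_eq_avg]
  exact (gen_hol (hol_mul hF (-k)) hδ).1.mono fun y hy => hy.2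

private theorem vol_cube (m : ℕ) : (volume (Icc (0 : Fin m → ℝ) 1)).toReal = 1 := by
  rw [Real.volume_Icc_pi]
  simp

private theorem cf_bound_aux (hF : Fn δ s F) (hb : Bd δ s c F) (k : Fin (n + 1) → ℤ)
    (hy : y ∈ Om n δ' s) {d : ℝ} (hd : 0 < d) (hdδ : d < δ) :
    ‖cf k F y‖ ≤ c * Real.exp (-(2 * Real.pi * d * nk k)) := by
  have hδ : 0 < δ := hd.trans hdδ
  have hw : ∀ i : Fin (n + 1), |((-I * ((Int.sign (k i) : ℝ) * d : ℝ) : ℂ)).im| ≤ d := by
    intro i
    have e : ((-I * ((Int.sign (k i) : ℝ) * d : ℝ) : ℂ)).im = -((Int.sign (k i) : ℝ) * d) := by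
      simp
    rw [e, abs_neg, abs_mul, abs_of_pos hd]
    have h1 : |(Int.sign (k i) : ℝ)| ≤ 1 := by
      rcases Int.sign_trichotomy (k i) with h | h | h <;> rw [h] <;> simp
    nlinarith
  have hsum : ∀ x : Fin (n + 1) → ℝ, (kz k ((fun i => (x i : ℂ)) +
      fun i => (-I * ((Int.sign (k i) : ℝ) * d : ℝ) : ℂ))).im = -(d * nk k) := by
    intro x
    rw [kz_im]
    have e : ∀ i : Fin (n + 1), (k i : ℝ) * ((((fun i => (x i : ℂ)) +
        fun i => (-I * ((Int.sign (k i) : ℝ) * d : ℝ) : ℂ)) i : ℂ)).im =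
        -d * ((k i).natAbs : ℝ) := by
      intro i
      have e1 : ((((fun i => (x i : ℂ)) +
        fun i => (-I * ((Int.sign (k i) : ℝ) * d : ℝ) : ℂ)) i : ℂ)).im =
          -((Int.sign (k i) : ℝ) * d) := by
        simp
      rw [e1]
      have e2 : (k i : ℝ) * (Int.sign (k i) : ℝ) = ((k i).natAbs : ℝ) := by
        have h3 := Int.mul_sign_self (k i)
        have h4 : ((k i * Int.sign (k i) : ℤ) : ℝ) = (((k i).natAbs : ℤ) : ℝ) := by rw [h3]
        push_cast at h4
        rw [h4]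
        simp
      rw [← e2]
      ring
    rw [Finset.sum_congr rfl fun i _ => e i, ← Finset.mul_sum]
    unfold nk
    push_cast
    ring
  have h1 : ∫ x in Icc (0 : Fin (n + 1) → ℝ) 1,
      F (((fun i => (x i : ℂ)) + fun i => (-I * ((Int.sign (k i) : ℝ) * d : ℝ) : ℂ)), y.2) *
        exp (-(2 * Real.pi * I * kz k ((fun i => (x i : ℂ)) +
          fun i => (-I * ((Int.sign (k i) : ℝ) * d : ℝ) : ℂ)))) = cf k F y := by
    refine cube_shift (δ := δ) (g := fun z => F (z, y.2) * exp (-(2 * Real.pi * I * kz k z)))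
      hδ ?_ ?_ ?_
    · have h2 := (hol_mul hF (-k)).comp (f := fun z : Fin (n + 1) → ℂ => ((z, y.2) : CE n))
        (s := {z | ∀ i, |(z i).im| < δ})
        (differentiable_id.prodMk (differentiable_const _)).differentiableOn
        (fun z hz => ⟨hz, hy.2⟩)
      refine h2.congr fun z _ => ?_
      change _ = F (z, y.2) * ek (-k) (z, y.2)
      unfold ek
      rw [kz_neg, mul_neg]
    · intro i z
      have h4 := hF.per i (z, y.2)
      have h5 : ((z, y.2) : CE n) + ez i = (z + Pi.single i 1, y.2) := by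
        simp [ez]
      rw [h5] at h4
      rw [h4, exp_per]
    · intro i
      exact (hw i).trans_lt hdδ
  rw [← h1]
  have h2 : ∀ x ∈ Icc (0 : Fin (n + 1) → ℝ) 1,
      ‖F (((fun i => (x i : ℂ)) + fun i => (-I * ((Int.sign (k i) : ℝ) * d : ℝ) : ℂ)), y.2) *
        exp (-(2 * Real.pi * I * kz k ((fun i => (x i : ℂ)) +
          fun i => (-I * ((Int.sign (k i) : ℝ) * d : ℝ) : ℂ))))‖ ≤
        c * Real.exp (-(2 * Real.pi * d * nk k)) := by
    intro x _
    rw [norm_mul, Complex.norm_exp]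
    have e : (-(2 * Real.pi * I * kz k ((fun i => (x i : ℂ)) +
          fun i => (-I * ((Int.sign (k i) : ℝ) * d : ℝ) : ℂ)))).re =
        -(2 * Real.pi * d * nk k) := by
      have e1 : ∀ w : ℂ, (-(2 * Real.pi * I * w)).re = 2 * Real.pi * w.im := by
        intro w
        simp
      rw [e1, hsum x]
      ring
    rw [e]
    refine mul_le_mul_of_nonneg_right (hb _ ⟨fun i => ?_, hy.2⟩) (Real.exp_pos _).le
    refine lt_of_le_of_lt ?_ hdδ
    have e2 : ((((fun i => (x i : ℂ)) +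
        fun i => (-I * ((Int.sign (k i) : ℝ) * d : ℝ) : ℂ)) i : ℂ)).im =
        ((-I * ((Int.sign (k i) : ℝ) * d : ℝ) : ℂ)).im := by
      simp
    rw [e2]
    exact hw i
  have h3 := norm_setIntegral_le_of_norm_le_const (μ := volume)
    (s := Icc (0 : Fin (n + 1) → ℝ) 1) (by
      rw [Real.volume_Icc_pi]
      simp) h2
  rw [measureReal_def, vol_cube, mul_one] at h3
  exact h3

theorem cf_bound (hF : Fn δ s F) (hb : Bd δ s c F) (hδ : 0 < δ) (k : Fin (n + 1) → ℤ)
    (hy : y ∈ Om n δ' s) : ‖cf k F y‖ ≤ c * Real.exp (-(2 * Real.pi * δ * nk k)) := by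
  have hcont : Continuous fun d : ℝ => c * Real.exp (-(2 * Real.pi * d * nk k)) := by fun_prop
  have h1 : Filter.Tendsto (fun d : ℝ => c * Real.exp (-(2 * Real.pi * d * nk k)))
      (nhdsWithin δ (Iio δ)) (nhds (c * Real.exp (-(2 * Real.pi * δ * nk k)))) :=
    (hcont.tendsto δ).mono_left nhdsWithin_le_nhds
  refine ge_of_tendsto h1 ?_
  filter_upwards [Ioo_mem_nhdsLT hδ] with d hd
  exact cf_bound_aux hF hb k hy hd.1 hd.2

theorem cf_add (hF : Fn δ s F) (hG : Fn δ s G) (hδ : 0 < δ) (k : Fin (n + 1) → ℤ)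
    (hy : y ∈ Om n δ' s) : cf k (fun y => F y + G y) y = cf k F y + cf k G y := by
  unfold cf
  rw [← integral_add (cf_int hF hδ k hy) (cf_int hG hδ k hy)]
  congr 1
  funext x
  ring

theorem cf_sub (hF : Fn δ s F) (hG : Fn δ s G) (hδ : 0 < δ) (k : Fin (n + 1) → ℤ)
    (hy : y ∈ Om n δ' s) : cf k (fun y => F y - G y) y = cf k F y - cf k G y := by
  unfold cf
  rw [← integral_sub (cf_int hF hδ k hy) (cf_int hG hδ k hy)]
  congr 1
  funext x
  ring

theorem cf_dz (hF : Fn δ s F) (hδ : 0 < δ) (k : Fin (n + 1) → ℤ) (i : Fin (n + 1))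
    (hy : y ∈ Om n δ' s) : cf k (dz i F) y = 2 * Real.pi * I * k i * cf k F y := by
  have h1 := gen_dz (hol_mul hF (-k)) (per_mul hF (-k)) hδ i hy
  have h2 : avg (dz i fun y => F y * ek (-k) y) y =
      cf k (dz i F) y - 2 * Real.pi * I * k i * cf k F y := by
    unfold cf
    rw [← integral_const_mul, ← integral_sub (cf_int (hF.dz i) hδ k hy)
      ((cf_int hF hδ k hy).const_mul _)]
    unfold avg
    refine setIntegral_congr_fun measurableSet_Icc fun x _ => ?_
    have hm := real_mem_Om hδ hy x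
    change dz i (fun y => F y * ek (-k) y) (fun i => (x i : ℂ), y.2) = _
    rw [dz_mul i (hF.dat hm) (ek_diff' (-k) _)]
    have h3 : dz i (ek (-k)) (fun i => (x i : ℂ), y.2) =
        -(2 * Real.pi * I * k i) * ek (-k) (fun i => (x i : ℂ), y.2) := by
      unfold dz
      rw [ek_fderiv]
      change 2 * Real.pi * I * kz (-k) (Pi.single i 1) * _ = _
      rw [kz_neg, kz_single]
      ring
    rw [h3, ek_neg_real]
    ring
  rw [h1] at h2
  exact (sub_eq_zero.1 h2.symm)

theorem cf_DD (hF : Fn δ s F) (hδ : 0 < δ) (k : Fin (n + 1) → ℤ) (hy : y ∈ Om n δ' s) :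
    cf k (DD F) y = 2 * Real.pi * I * dv k y * cf k F y := by
  have h1 : cf k (DD F) y = cf k (dz 0 F) y + ∑ a : Fin n, y.2 a * cf k (dz a.succ F) y := by
    have e : ∀ a : Fin n, y.2 a * cf k (dz a.succ F) y =
        ∫ x in Icc (0 : Fin (n + 1) → ℝ) 1, y.2 a * (dz a.succ F (fun i => (x i : ℂ), y.2) *
          exp (-(2 * Real.pi * I * kz k fun i => (x i : ℂ)))) := by
      intro a
      unfold cf
      rw [integral_const_mul]
    rw [Finset.sum_congr rfl fun a _ => e a]
    rw [← integral_finsetSum _ fun a _ => (cf_int (hF.dz a.succ) hδ k hy).const_mul (y.2 a)]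
    unfold cf
    rw [← integral_add (cf_int (hF.dz 0) hδ k hy)
      (integrable_finsetSum _ fun a _ => (cf_int (hF.dz a.succ) hδ k hy).const_mul (y.2 a))]
    congr 1
    funext x
    rw [DD_eq, add_mul, Finset.sum_mul]
    congr 1
    refine Finset.sum_congr rfl fun a _ => ?_
    ring
  have h2 : dv k y = k 0 + ∑ a : Fin n, (k a.succ : ℂ) * y.2 a := by
    unfold dv kz hh
    rw [Fin.sum_univ_succ, Fin.cons_zero, mul_one]
    simp only [Fin.cons_succ]
  rw [h1, cf_dz hF hδ k 0 hy, h2]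
  rw [Finset.sum_congr rfl fun a _ => by rw [cf_dz hF hδ k a.succ hy]]
  rw [mul_add, add_mul, Finset.mul_sum, Finset.sum_mul]
  congr 1
  refine Finset.sum_congr rfl fun a _ => ?_
  ring

theorem cf_dh (hF : Fn δ s F) (hδ : 0 < δ) (k : Fin (n + 1) → ℤ) (a : Fin n)
    (hy : y ∈ Om n δ' s) : cf k (dh a F) y = dh a (cf k F) y := by
  rw [cf_eq_avg k F, ← gen_dh (hol_mul hF (-k)) hδ a hy]
  unfold cf avg
  refine setIntegral_congr_fun measurableSet_Icc fun x _ => ?_
  have hm := real_mem_Om hδ hy x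
  change _ = dh a (fun y => F y * ek (-k) y) (fun i => (x i : ℂ), y.2)
  rw [dh_mul a (hF.dat hm) (ek_diff' (-k) _)]
  have h3 : dh a (ek (-k)) (fun i => (x i : ℂ), y.2) = 0 := by
    unfold dh
    rw [ek_fderiv]
    change 2 * Real.pi * I * kz (-k) 0 * _ = _
    have h4 : kz (-k) (0 : Fin (n + 1) → ℂ) = 0 := by simp [kz]
    rw [h4]
    ring
  rw [h3, ek_neg_real, mul_zero, add_zero]

theorem cf_conj (hF : Fn δ s F) (k : Fin (n + 1) → ℤ) (y : CE n) :
    cf (-k) F (cj y) = conj (cf k F y) := by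
  unfold cf
  rw [← integral_conj]
  congr 1
  funext x
  have h1 := hF.real (fun i => (x i : ℂ), y.2)
  have h2 : cj ((fun i => (x i : ℂ), y.2) : CE n) = (fun i => (x i : ℂ), (cj y).2) := by
    unfold cj
    simp
  rw [h2] at h1
  have h3 : kz k (fun i => (x i : ℂ)) = conj (kz k fun i => (x i : ℂ)) := by
    rw [← kz_conj]
    simp
  rw [map_mul, ← h1, ← Complex.exp_conj, kz_neg]
  congr 2
  rw [map_neg, map_mul, ← h3, map_mul, map_mul, conj_two, Complex.conj_ofReal, Complex.conj_I]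
  ring

private theorem int_exp (k : Fin (n + 1) → ℤ) :
    ∫ x in Icc (0 : Fin (n + 1) → ℝ) 1, exp (-(2 * Real.pi * I * kz k fun i => (x i : ℂ))) =
      if k = 0 then 1 else 0 := by
  split_ifs with hk
  · subst hk
    have h : ∀ x : Fin (n + 1) → ℝ,
        exp (-(2 * Real.pi * I * kz (0 : Fin (n + 1) → ℤ) fun i => (x i : ℂ))) = 1 := by
      intro x
      simp [kz]
    simp_rw [h]
    rw [setIntegral_const, measureReal_def, vol_cube, one_smul]
  · obtain ⟨i, hi⟩ := Function.ne_iff.1 hk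
    have hi' : (k i : ℂ) ≠ 0 := by exact_mod_cast hi
    have hc : ∀ (x w : Fin (n + 1) → ℝ), (fun i => (((x + w) i : ℝ) : ℂ)) =
        (fun i => (x i : ℂ)) + fun i => (w i : ℂ) := by
      intro x w
      funext j
      simp
    have h1 := cube_shift_real (m := n + 1)
      (g := fun x => exp (-(2 * Real.pi * I * kz k fun i => (x i : ℂ)))) (by
        unfold kz
        fun_prop) (by
        intro j x
        rw [hc]
        have e : (fun i => ((Pi.single j 1 : Fin (n + 1) → ℝ) i : ℂ)) =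
            (Pi.single j 1 : Fin (n + 1) → ℂ) := by
          funext l
          by_cases hl : l = j
          · subst hl
            simp
          · simp [Pi.single_eq_of_ne hl]
        rw [e, exp_per]) (Pi.single i (1 / (2 * (k i : ℝ))))
    have h2 : ∀ x : Fin (n + 1) → ℝ, exp (-(2 * Real.pi * I * kz k fun j =>
        (((x + Pi.single i (1 / (2 * (k i : ℝ))) : Fin (n + 1) → ℝ) j : ℝ) : ℂ))) =
        -exp (-(2 * Real.pi * I * kz k fun j => (x j : ℂ))) := by
      intro x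
      rw [hc, kz_add]
      have e : (fun j => ((Pi.single i (1 / (2 * (k i : ℝ))) : Fin (n + 1) → ℝ) j : ℂ)) =
          (Pi.single i (1 / (2 * (k i : ℂ))) : Fin (n + 1) → ℂ) := by
        funext l
        by_cases hl : l = i
        · subst hl
          simp
        · simp [Pi.single_eq_of_ne hl]
      rw [e, kz_single]
      have e2 : -(2 * (Real.pi : ℂ) * I * ((kz k fun j => (x j : ℂ)) +
          (k i : ℂ) * (1 / (2 * (k i : ℂ))))) =
          -(2 * Real.pi * I * kz k fun j => (x j : ℂ)) + -(Real.pi * I) := by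
        field_simp
        ring
      rw [e2, Complex.exp_add, Complex.exp_neg (Real.pi * I), Complex.exp_pi_mul_I]
      simp
    simp only [h2] at h1
    rw [integral_neg] at h1
    have h3 : (2 : ℂ) * ∫ x in Icc (0 : Fin (n + 1) → ℝ) 1,
        exp (-(2 * Real.pi * I * kz k fun i => (x i : ℂ))) = 0 := by
      rw [two_mul]
      nth_rewrite 1 [← h1]
      ring
    exact (mul_eq_zero.1 h3).resolve_left two_ne_zero

theorem cf_zi (hG : Zi G) (k : Fin (n + 1) → ℤ) : cf k G y = if k = 0 then G y else 0 := by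
  have h : cf k G y = G y * ∫ x in Icc (0 : Fin (n + 1) → ℝ) 1,
      exp (-(2 * Real.pi * I * kz k fun i => (x i : ℂ))) := by
    unfold cf
    rw [← integral_const_mul]
    congr 1
    funext x
    rw [show G (fun i => (x i : ℂ), y.2) = G y from hG _ y.1 y.2]
  rw [h, int_exp]
  split_ifs <;> simp

theorem cf_trig (S : Finset (Fin (n + 1) → ℤ)) {g : (Fin (n + 1) → ℤ) → CE n → ℂ}
    (hg : ∀ k ∈ S, Zi (g k)) (l : Fin (n + 1) → ℤ) :
    cf l (fun y => ∑ k ∈ S, g k y * ek k y) y = if l ∈ S then g l y else 0 := by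
  have hcont : ∀ k : Fin (n + 1) → ℤ, IntegrableOn (fun x : Fin (n + 1) → ℝ =>
      g k y * exp (-(2 * Real.pi * I * kz (l - k) fun i => (x i : ℂ))))
      (Icc (0 : Fin (n + 1) → ℝ) 1) := by
    intro k
    refine Continuous.integrableOn_Icc ?_
    unfold kz
    fun_prop
  have h : cf l (fun y => ∑ k ∈ S, g k y * ek k y) y =
      ∑ k ∈ S, g k y * ∫ x in Icc (0 : Fin (n + 1) → ℝ) 1,
        exp (-(2 * Real.pi * I * kz (l - k) fun i => (x i : ℂ))) := by
    unfold cf
    simp_rw [← integral_const_mul]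
    rw [← integral_finsetSum _ fun k _ => hcont k]
    congr 1
    funext x
    rw [Finset.sum_mul]
    refine Finset.sum_congr rfl fun k hk => ?_
    rw [show g k (fun i => (x i : ℂ), y.2) = g k y from hg k hk _ y.1 y.2]
    unfold ek
    rw [mul_assoc, ← Complex.exp_add, kz_sub]
    congr 2
    ring
  rw [h]
  have e : ∀ k ∈ S, g k y * ∫ x in Icc (0 : Fin (n + 1) → ℝ) 1,
      exp (-(2 * Real.pi * I * kz (l - k) fun i => (x i : ℂ))) =
      if l = k then g k y else 0 := by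
    intro k _
    rw [int_exp]
    by_cases hlk : l = k
    · subst hlk
      simp
    · rw [if_neg (sub_ne_zero.2 hlk), if_neg hlk, mul_zero]
  rw [Finset.sum_congr rfl e, Finset.sum_ite_eq]

theorem ek_dz (k : Fin (n + 1) → ℤ) (i : Fin (n + 1)) :
    dz i (ek k) y = 2 * Real.pi * I * k i * ek k y := by
  unfold dz
  rw [ek_fderiv]
  change 2 * Real.pi * I * kz k (Pi.single i 1) * _ = _
  rw [kz_single, mul_one]

theorem ek_dh (k : Fin (n + 1) → ℤ) (a : Fin n) : dh a (ek k) y = 0 := by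
  unfold dh
  rw [ek_fderiv]
  change 2 * Real.pi * I * kz k 0 * _ = _
  have h4 : kz k (0 : Fin (n + 1) → ℂ) = 0 := by simp [kz]
  rw [h4]
  ring

theorem ek_DD (k : Fin (n + 1) → ℤ) : DD (ek k) y = 2 * Real.pi * I * dv k y * ek k y := by
  unfold DD
  rw [ek_fderiv]
  rfl

theorem ek_diff (k : Fin (n + 1) → ℤ) : Differentiable ℂ (ek (n := n) k) := ek_diff' k

theorem ek_per (k : Fin (n + 1) → ℤ) (i : Fin (n + 1)) : ek k (y + ez i) = ek k y :=
  ek_per' k i y

theorem ek_conj (k : Fin (n + 1) → ℤ) : ek (-k) (cj y) = conj (ek k y) := by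
  unfold ek
  rw [← Complex.exp_conj, kz_neg]
  have h : kz k (cj y).1 = conj (kz k y.1) := kz_conj k y.1
  rw [h]
  congr 1
  rw [map_mul, map_mul, map_mul, conj_two, Complex.conj_ofReal, Complex.conj_I]
  ring

theorem ek_norm (k : Fin (n + 1) → ℤ) (h : ∀ i, |(y.1 i).im| ≤ δ) :
    ‖ek k y‖ ≤ Real.exp (2 * Real.pi * δ * nk k) := by
  unfold ek
  rw [Complex.norm_exp]
  refine Real.exp_le_exp.2 ?_
  have e1 : (2 * Real.pi * I * kz k y.1).re = -(2 * Real.pi * (kz k y.1).im) := by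
    simp
  rw [e1, kz_im]
  have e2 : -(∑ i, (k i : ℝ) * (y.1 i).im) ≤ δ * nk k := by
    rw [← Finset.sum_neg_distrib]
    unfold nk
    push_cast
    rw [Finset.mul_sum]
    refine Finset.sum_le_sum fun i _ => ?_
    have h1 : |(k i : ℝ) * (y.1 i).im| ≤ |(k i : ℝ)| * δ := by
      rw [abs_mul]
      exact mul_le_mul_of_nonneg_left (h i) (abs_nonneg _)
    have h2 : ((k i).natAbs : ℝ) = |(k i : ℝ)| := by
      rw [Nat.cast_natAbs]
      push_cast
      rfl
    have h3 := neg_abs_le ((k i : ℝ) * (y.1 i).im)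
    rw [h2]
    linarith
  have hpi := Real.pi_pos
  nlinarith

end Pool.Agent.LRig
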