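import Pool.Agent.LRig.FB
import Pool.Agent.LRig.FK

/-!
# LR (MP_74f563_an, all n), file FP: the projection to the resonance hyperplane

PROOFS.  Let `j a = k a.succ`, `S = ∑ j_a²` (as a complex number: nonzero for `Nz k`, a positive
integer), `d = dv k y = k 0 + ∑ j_a h_a`.  `dv k (pk k y) = d - d (∑ j_a²)/S = 0`.
`pk k` is affine in `y`.  Imaginary part: `Im (pk k y).2 a = η_a - (∑ j_b η_b) j_a / S`,
`η = Im h`, as `k` and `S` are real; with `|η_b| < s / (n + 1)`:
`|(∑ j_b η_b) j_a / S| ≤ s/(n+1) · (∑ |j_b|) |j_a| / S ≤ s/(n+1) · n` because `|j_a| |j_b| ≤ S` for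
all
`a, b`; so the sum is less than `s/(n+1) (1 + n) = s` (`n ≥ 1` since `Nz k`).
If `dv k y = 0` then `pk k y = y`.  `pk_cj`: conjugation, `dv k (cj y) = conj (dv k y)`,
`pk k` and `pk (-k)` agree (`dv (-k) = -dv k`).
`wk` is the coefficient of the solution: for `Nz k` and `y` in the strip `s/(n+1)`
`dv k y · wk k F y = (cf k F y - cf k F (pk k y)) / (2πi)`.
PROOF of `exists_wk`: let `f = cf k F` and `c(x, y) = pk k y + x (y - pk k y)` (the point with
`h`-component `h + (x - 1) d j / S`), `x ∈ [0, 1]`; by convexity of the strip `c(x, y)` is in the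
strip
`s`.  `y - pk k y = (0, d j / S) = d • (0, j / S)`, so
`f y - f (pk k y) = ∫_0^1 fderiv ℂ f (c(x,y)) (y - pk k y) dx`
`= d ∫_0^1 fderiv ℂ f (c(x,y)) (0, j/S) dx`
(`intervalIntegral.integral_eq_sub_of_hasDerivAt`), and
`wk = (2πi)⁻¹ ∫_0^1 fderiv ℂ f (c(x,y)) (0, j/S) dx` is holomorphic by `int_hol` (the integrand is
jointly continuous, holomorphic in `y`: composition of `hol_dir` with an affine map), does not
depend
on `z` (`cf_Zi`).
-/

set_option autoImplicit false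

namespace Pool.Agent.LRig

open Complex Set MeasureTheory
open scoped ComplexConjugate

variable {n : ℕ} {δ s δ' s' c c' : ℝ} {F G : CE n → ℂ} {y : CE n} {k : Fin (n + 1) → ℤ}

theorem dv_eq (k : Fin (n + 1) → ℤ) (y : CE n) :
    dv k y = k 0 + ∑ a : Fin n, (k a.succ : ℂ) * y.2 a := by
  unfold dv kz hh
  rw [Fin.sum_univ_succ, Fin.cons_zero, mul_one]
  rfl

theorem dv_cj (k : Fin (n + 1) → ℤ) (y : CE n) : dv k (cj y) = conj (dv k y) := by
  rw [dv_eq, dv_eq, map_add, map_sum, map_intCast]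
  refine congrArg₂ _ rfl (Finset.sum_congr rfl fun a _ => ?_)
  rw [map_mul, map_intCast]
  rfl

theorem dv_neg (k : Fin (n + 1) → ℤ) (y : CE n) : dv (-k) y = -dv k y := by
  rw [dv_eq, dv_eq, neg_add, ← Finset.sum_neg_distrib]
  refine congrArg₂ _ ?_ (Finset.sum_congr rfl fun a _ => ?_)
  · rw [Pi.neg_apply, Int.cast_neg]
  · rw [Pi.neg_apply, Int.cast_neg, neg_mul]

/-- if `k` has no angular part the divisor is an integer -/
theorem dv_of_not_Nz (hk : ¬ Nz k) (y : CE n) : dv k y = k 0 := by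
  have h : ∀ a : Fin n, k a.succ = 0 := by
    intro a
    by_contra h
    exact hk ⟨a, h⟩
  rw [dv_eq, Finset.sum_eq_zero, add_zero]
  intro a _
  rw [h a, Int.cast_zero, zero_mul]

private theorem sr_pos (hk : Nz k) : 0 < ∑ b : Fin n, ((k b.succ : ℝ)) ^ 2 := by
  obtain ⟨a, ha⟩ := hk
  refine Finset.sum_pos' (fun b _ => sq_nonneg _) ⟨a, Finset.mem_univ a, ?_⟩
  have h1 : (k a.succ : ℝ) ≠ 0 := Int.cast_ne_zero.2 ha
  positivity

private theorem sc_eq (k : Fin (n + 1) → ℤ) :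
    ∑ b : Fin n, ((k b.succ : ℂ)) ^ 2 = ((∑ b : Fin n, ((k b.succ : ℝ)) ^ 2 : ℝ) : ℂ) := by
  push_cast
  rfl

private theorem sc_ne (hk : Nz k) : ∑ b : Fin n, ((k b.succ : ℂ)) ^ 2 ≠ 0 := by
  rw [sc_eq]
  exact Complex.ofReal_ne_zero.2 (sr_pos hk).ne'

theorem dv_pk (hk : Nz k) (y : CE n) : dv k (pk k y) = 0 := by
  have hS := sc_ne hk
  rw [dv_eq]
  unfold pk
  have h1 : ∑ a : Fin n, (k a.succ : ℂ) * (y.2 a - dv k y * (k a.succ : ℂ) /
      ∑ b : Fin n, ((k b.succ : ℂ)) ^ 2) = ∑ a : Fin n, (k a.succ : ℂ) * y.2 a -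
      dv k y := by
    have h2 : ∀ a : Fin n, (k a.succ : ℂ) * (y.2 a - dv k y * (k a.succ : ℂ) /
        ∑ b : Fin n, ((k b.succ : ℂ)) ^ 2) = (k a.succ : ℂ) * y.2 a -
        dv k y / (∑ b : Fin n, ((k b.succ : ℂ)) ^ 2) * (k a.succ : ℂ) ^ 2 := by
      intro a
      ring
    rw [Finset.sum_congr rfl fun a _ => h2 a, Finset.sum_sub_distrib, ← Finset.mul_sum,
      div_mul_cancel₀ _ hS]
  rw [h1]
  rw [dv_eq k y]
  ring

theorem pk_of_dv (h : dv k y = 0) : pk k y = y := by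
  unfold pk
  refine Prod.ext rfl ?_
  funext a
  change y.2 a - dv k y * (k a.succ : ℂ) / _ = y.2 a
  rw [h, zero_mul, zero_div, sub_zero]

theorem pk_mem (hk : Nz k) (hy : y ∈ Om n δ (s / (n + 1))) : pk k y ∈ Om n δ s := by
  refine ⟨fun i => hy.1 i, fun a => ?_⟩
  have hS := sr_pos hk
  have hn : (0 : ℝ) < (n : ℝ) + 1 := by positivity
  have him : (dv k y).im = ∑ b : Fin n, (k b.succ : ℝ) * (y.2 b).im := by
    rw [dv_eq, Complex.add_im, Complex.im_sum, Complex.intCast_im, zero_add]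
    refine Finset.sum_congr rfl fun b _ => ?_
    rw [Complex.mul_im, Complex.intCast_re, Complex.intCast_im, zero_mul, add_zero]
  have h1 : ((pk k y).2 a).im = (y.2 a).im -
      (∑ b : Fin n, (k b.succ : ℝ) * (y.2 b).im) *
        ((k a.succ : ℝ) / ∑ b : Fin n, ((k b.succ : ℝ)) ^ 2) := by
    change (y.2 a - dv k y * (k a.succ : ℂ) / ∑ b : Fin n, ((k b.succ : ℂ)) ^ 2).im = _
    have e : dv k y * (k a.succ : ℂ) / ∑ b : Fin n, ((k b.succ : ℂ)) ^ 2 =
        dv k y * (((k a.succ : ℝ) / ∑ b : Fin n, ((k b.succ : ℝ)) ^ 2 : ℝ) : ℂ) := by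
      rw [sc_eq, mul_div_assoc]
      push_cast
      rfl
    rw [e, Complex.sub_im, Complex.im_mul_ofReal, him]
  have h2 : ∀ b : Fin n, |(k b.succ : ℝ)| * |(k a.succ : ℝ)| ≤
      ∑ b : Fin n, ((k b.succ : ℝ)) ^ 2 := by
    intro b
    have h3 := Finset.single_le_sum (f := fun b : Fin n => ((k b.succ : ℝ)) ^ 2)
      (fun b _ => sq_nonneg _) (Finset.mem_univ b)
    have h4 := Finset.single_le_sum (f := fun b : Fin n => ((k b.succ : ℝ)) ^ 2)
      (fun b _ => sq_nonneg _) (Finset.mem_univ a)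
    have h5 := sq_nonneg (|(k b.succ : ℝ)| - |(k a.succ : ℝ)|)
    have h6 := sq_abs (k b.succ : ℝ)
    have h7 := sq_abs (k a.succ : ℝ)
    nlinarith
  have h3 : |(∑ b : Fin n, (k b.succ : ℝ) * (y.2 b).im) *
      ((k a.succ : ℝ) / ∑ b : Fin n, ((k b.succ : ℝ)) ^ 2)| ≤ ∑ b : Fin n, |(y.2 b).im| := by
    rw [Finset.sum_mul]
    refine (Finset.abs_sum_le_sum_abs _ _).trans (Finset.sum_le_sum fun b _ => ?_)
    rw [abs_mul, abs_mul, abs_div, abs_of_pos hS]
    have h4 : |(k b.succ : ℝ)| * |(y.2 b).im| * (|(k a.succ : ℝ)| /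
        ∑ b : Fin n, ((k b.succ : ℝ)) ^ 2) = (|(k b.succ : ℝ)| * |(k a.succ : ℝ)|) /
        (∑ b : Fin n, ((k b.succ : ℝ)) ^ 2) * |(y.2 b).im| := by
      ring
    rw [h4]
    have h5 : (|(k b.succ : ℝ)| * |(k a.succ : ℝ)|) /
        (∑ b : Fin n, ((k b.succ : ℝ)) ^ 2) ≤ 1 := (div_le_one hS).2 (h2 b)
    calc _ ≤ 1 * |(y.2 b).im| := mul_le_mul_of_nonneg_right h5 (abs_nonneg _)
      _ = _ := one_mul _
  have h4 : ∑ b : Fin n, |(y.2 b).im| ≤ n * (s / (n + 1)) := by
    have h5 := Finset.sum_le_sum fun (b : Fin n) (_ : b ∈ Finset.univ) => (hy.2 b).le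
    rw [Finset.sum_const, Finset.card_univ, Fintype.card_fin, nsmul_eq_mul] at h5
    exact h5
  have h5 := hy.2 a
  have h6 : s / (n + 1) + n * (s / (n + 1)) = s := by
    field_simp
    ring
  rw [h1]
  calc _ ≤ |(y.2 a).im| + |(∑ b : Fin n, (k b.succ : ℝ) * (y.2 b).im) *
      ((k a.succ : ℝ) / ∑ b : Fin n, ((k b.succ : ℝ)) ^ 2)| := abs_sub _ _
    _ < s := by linarith

theorem pk_diff (k : Fin (n + 1) → ℤ) : Differentiable ℂ (pk (n := n) k) := by
  refine Differentiable.prodMk differentiable_fst (differentiable_pi.2 fun a => ?_)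
  have h1 : Differentiable ℂ (fun y : CE n => dv k y) := by
    have e : (fun y : CE n => dv k y) = fun y : CE n =>
        (k 0 : ℂ) + ∑ a : Fin n, (k a.succ : ℂ) * y.2 a := funext fun y => dv_eq k y
    rw [e]
    fun_prop
  have h2 : Differentiable ℂ (fun y : CE n => y.2 a) := by fun_prop
  have h3 : Differentiable ℂ (fun y : CE n => dv k y * (k a.succ : ℂ) /
      ∑ b : Fin n, ((k b.succ : ℂ)) ^ 2) := by
    simp only [div_eq_mul_inv]
    exact (h1.mul_const _).mul_const _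
  exact h2.sub h3

theorem pk_cj (k : Fin (n + 1) → ℤ) (y : CE n) : pk (-k) (cj y) = cj (pk k y) := by
  refine Prod.ext rfl ?_
  funext a
  change conj (y.2 a) - dv (-k) (cj y) * (((-k) a.succ : ℤ) : ℂ) /
      ∑ b : Fin n, ((((-k) b.succ : ℤ) : ℂ)) ^ 2 =
    conj (y.2 a - dv k y * (k a.succ : ℂ) / ∑ b : Fin n, ((k b.succ : ℂ)) ^ 2)
  rw [map_sub, map_div₀, map_mul, map_sum, dv_neg, dv_cj, map_intCast]
  have e : ∀ b : Fin n, ((((-k) b.succ : ℤ) : ℂ)) ^ 2 = conj (((k b.succ : ℂ)) ^ 2) := by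
    intro b
    rw [map_pow, map_intCast, Pi.neg_apply, Int.cast_neg, neg_sq]
  rw [Finset.sum_congr rfl fun b _ => e b, Pi.neg_apply, Int.cast_neg, neg_mul_neg]

private theorem zi_fderiv {f : CE n → ℂ} (hf : Zi f) (z z' : Fin (n + 1) → ℂ)
    (h : Fin n → ℂ) : fderiv ℂ f (z', h) = fderiv ℂ f (z, h) := by
  have e : (fun y : CE n => f (y + (z' - z, 0))) = f := by
    funext y
    have e1 : y + (z' - z, 0) = (y.1 + (z' - z), y.2) := by
      refine Prod.ext rfl ?_
      change y.2 + 0 = y.2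
      rw [add_zero]
    rw [e1]
    exact hf _ _ _
  have e2 := fderiv_comp_add_right (𝕜 := ℂ) (f := f) (x := ((z, h) : CE n)) ((z' - z, 0) : CE n)
  rw [e] at e2
  rw [e2]
  congr 1
  refine Prod.ext ?_ ?_
  · change z' = z + (z' - z)
    abel
  · change h = h + 0
    rw [add_zero]

/-- the segment from `pk k y` to `y` -/
private noncomputable def sgm (k : Fin (n + 1) → ℤ) (x : ℝ) (y : CE n) : CE n :=
  pk k y + (x : ℂ) • (y - pk k y)

private theorem sgm_mem (hk : Nz k) (hs : 0 < s) {x : ℝ} (hx : x ∈ Icc (0 : ℝ) 1)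
    (hy : y ∈ Om n δ (s / (n + 1))) : sgm k x y ∈ Om n δ s := by
  have h1 := pk_mem hk hy
  have hn : (0 : ℝ) < (n : ℝ) + 1 := by positivity
  have h2 : y ∈ Om n δ s := by
    refine Om_mono le_rfl ?_ hy
    rw [div_le_iff₀ hn]
    nlinarith [(Nat.cast_nonneg n : (0 : ℝ) ≤ n)]
  have h3 := (convex_Om (n := n) δ s).add_smul_sub_mem h1 h2 hx
  exact h3

private theorem sgm_cont (k : Fin (n + 1) → ℤ) :
    Continuous fun q : ℝ × CE n => sgm k q.1 q.2 := by
  have h1 : Continuous fun q : ℝ × CE n => pk k q.2 := (pk_diff k).continuous.comp continuous_snd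
  have h2 : Continuous fun q : ℝ × CE n => (q.1 : ℂ) :=
    Complex.continuous_ofReal.comp continuous_fst
  exact h1.add (h2.smul (continuous_snd.sub h1))

private theorem sgm_diff (k : Fin (n + 1) → ℤ) (x : ℝ) :
    Differentiable ℂ fun y : CE n => sgm k x y :=
  (pk_diff k).add ((differentiable_id.sub (pk_diff k)).const_smul (x : ℂ))

/-- the direction of the projection -/
private noncomputable def jv (k : Fin (n + 1) → ℤ) : CE n :=
  (0, fun a => (k a.succ : ℂ) / ∑ b : Fin n, ((k b.succ : ℂ)) ^ 2)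

private theorem sub_pk (k : Fin (n + 1) → ℤ) (y : CE n) : y - pk k y = dv k y • jv k := by
  refine Prod.ext ?_ ?_
  · change y.1 - y.1 = dv k y • (0 : Fin (n + 1) → ℂ)
    rw [sub_self, smul_zero]
  · funext a
    change y.2 a - (y.2 a - dv k y * (k a.succ : ℂ) / ∑ b : Fin n, ((k b.succ : ℂ)) ^ 2) =
      dv k y * ((k a.succ : ℂ) / ∑ b : Fin n, ((k b.succ : ℂ)) ^ 2)
    ring

/-- division of `f_k(h) - f_k(π_k h)` by the divisor -/
theorem exists_wk (hF : Fn δ s F) (hδ : 0 < δ) (hs : 0 < s) (hk : Nz k) : ∃ w : CE n → ℂ, Zi w ∧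
    (∀ δ', DifferentiableOn ℂ w (Om n δ' (s / (n + 1)))) ∧
    ∀ y ∈ Om n δ (s / (n + 1)),
      2 * Real.pi * I * dv k y * w y = cf k F y - cf k F (pk k y) := by
  have hf : ∀ δ', DifferentiableOn ℂ (cf k F) (Om n δ' s) := fun δ' => cf_hol hF hδ k δ'
  have hf' : ∀ δ', DifferentiableOn ℂ (fun p => fderiv ℂ (cf k F) p (jv k)) (Om n δ' s) :=
    fun δ' => hol_dir (isOpen_Om δ' s) (hf δ') (jv k)
  refine ⟨fun y => (2 * Real.pi * I)⁻¹ * ∫ x in (0 : ℝ)..1,
    fderiv ℂ (cf k F) (sgm k x y) (jv k), ?_, ?_, ?_⟩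
  · intro z z' h
    have h1 : ∀ x : ℝ, fderiv ℂ (cf k F) (sgm k x (z, h)) =
        fderiv ℂ (cf k F) (sgm k x (z', h)) := by
      intro x
      have e1 : sgm k x (z, h) = (z, (sgm k x (z, h)).2) := by
        refine Prod.ext ?_ rfl
        change z + (x : ℂ) • (z - z) = z
        rw [sub_self, smul_zero, add_zero]
      have e2 : sgm k x (z', h) = (z', (sgm k x (z, h)).2) := by
        refine Prod.ext ?_ rfl
        change z' + (x : ℂ) • (z' - z') = z'
        rw [sub_self, smul_zero, add_zero]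
      rw [e2, e1]
      exact (zi_fderiv (cf_Zi k F) z z' _).symm
    simp only [h1]
  · intro δ'
    have h1 := (int_hol (g := fun x y => fderiv ℂ (cf k F) (sgm k x y) (jv k))
      (V := Om n δ' (s / (n + 1))) (isOpen_Om δ' _) ?_ ?_).1
    · exact h1.const_mul _
    · refine (hf' δ').continuousOn.comp (sgm_cont k).continuousOn ?_
      rintro ⟨x, y⟩ ⟨hx, hy⟩
      exact sgm_mem hk hs hx hy
    · intro x hx
      exact (hf' δ').comp (sgm_diff k x).differentiableOn fun y hy => sgm_mem hk hs hx hy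
  · intro y hy
    have hpi : (2 * Real.pi * I : ℂ) ≠ 0 := by
      have := Real.pi_ne_zero
      simp [this]
    have h1 : ∀ x ∈ uIcc (0 : ℝ) 1, HasDerivAt (fun x : ℝ => cf k F (sgm k x y))
        (fderiv ℂ (cf k F) (sgm k x y) (y - pk k y)) x := by
      intro x hx
      rw [uIcc_of_le zero_le_one] at hx
      have h2 : HasDerivAt (fun x : ℝ => sgm k x y) (y - pk k y) x := by
        have h3 : HasDerivAt (fun x : ℝ => (x : ℂ)) 1 x := Complex.ofRealCLM.hasDerivAt
        have h4 := (h3.smul_const (y - pk k y)).const_add (pk k y)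
        rw [one_smul] at h4
        exact h4
      have h5 : DifferentiableAt ℂ (cf k F) (sgm k x y) :=
        (hf δ _ (sgm_mem hk hs hx hy)).differentiableAt
          ((isOpen_Om δ s).mem_nhds (sgm_mem hk hs hx hy))
      exact (h5.hasFDerivAt.restrictScalars ℝ).comp_hasDerivAt x h2
    have h6 : ∀ x : ℝ, fderiv ℂ (cf k F) (sgm k x y) (y - pk k y) =
        dv k y * fderiv ℂ (cf k F) (sgm k x y) (jv k) := by
      intro x
      rw [sub_pk, map_smul, smul_eq_mul]
    have h7 : ContinuousOn (fun x : ℝ => fderiv ℂ (cf k F) (sgm k x y) (jv k))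
        (uIcc (0 : ℝ) 1) := by
      have h8 : Continuous fun x : ℝ => sgm k x y :=
        (sgm_cont k).comp (continuous_id.prodMk continuous_const)
      refine (hf' δ).continuousOn.comp h8.continuousOn fun x hx => ?_
      rw [uIcc_of_le zero_le_one] at hx
      exact sgm_mem hk hs hx hy
    have h9 := intervalIntegral.integral_eq_sub_of_hasDerivAt h1 (by
      simp only [h6]
      exact (h7.const_smul (dv k y)).intervalIntegrable)
    simp only [h6] at h9
    rw [intervalIntegral.integral_const_mul] at h9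
    have h10 : sgm k 1 y = y := by
      unfold sgm
      rw [Complex.ofReal_one, one_smul, add_sub_cancel]
    have h11 : sgm k 0 y = pk k y := by
      unfold sgm
      rw [Complex.ofReal_zero, zero_smul, add_zero]
    rw [h10, h11] at h9
    rw [← h9]
    have h12 : (2 * Real.pi * I : ℂ) * dv k y * ((2 * Real.pi * I)⁻¹ * ∫ x in (0 : ℝ)..1,
        fderiv ℂ (cf k F) (sgm k x y) (jv k)) = ((2 * Real.pi * I : ℂ) * (2 * Real.pi * I)⁻¹) *
        (dv k y * ∫ x in (0 : ℝ)..1, fderiv ℂ (cf k F) (sgm k x y) (jv k)) := by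
      ring
    rw [h12, mul_inv_cancel₀ hpi, one_mul]

end Pool.Agent.LRig
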