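import Pool.Agent.LRig.FA

/-!
# LR (MP_74f563_an, all n), file FR: rules for the derivatives `dz`, `dh`, `DD`

PROOFS.  The rules are those of `fderiv` (`fderiv_add`, `fderiv_mul`, ...), applied to a vector.
`dz_dz`, `dz_dh`, `dh_dh`: symmetry of the second derivative of a holomorphic function:
`smooth_of_hol` gives `ContDiffAt ℂ 2 F y`, then `ContDiffAt.isSymmSndFDerivAt` (over `ℂ`), and
`fderiv ℂ (fun y => fderiv ℂ F y v) y w = fderiv ℂ (fderiv ℂ F) y w v` (`fderiv_clm_apply`).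
`dz_DD`, `dh_DD`: differentiate `DD_eq` (`DD F = dz 0 F + ∑ y.2 a * dz a.succ F` as functions), with
`dz i (y ↦ y.2 a) = 0`, `dh b (y ↦ y.2 a) = 1` for `a = b`, `0` else.
Functions which do not depend on `z` (`Zi`): `dz i G = 0`: if `G` is differentiable at `y` then the
derivative in the direction `ez i` is the derivative of a constant function (`HasFDerivAt.comp` with
the line, or `fderiv` of `G = G' ∘ Prod.snd`); otherwise `fderiv = 0`.
-/

set_option autoImplicit false

namespace Pool.Agent.LRig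

open Complex Set MeasureTheory

variable {n : ℕ} {δ s δ' s' c c' : ℝ} {F G : CE n → ℂ} {y : CE n}

/-! ## Sums and products -/

theorem dz_add (i : Fin (n + 1)) (hF : DifferentiableAt ℂ F y) (hG : DifferentiableAt ℂ G y) :
    dz i (fun y => F y + G y) y = dz i F y + dz i G y := by
  change fderiv ℂ (fun y => F y + G y) y (ez i) = _
  rw [fderiv_fun_add hF hG]
  rfl

theorem dh_add (a : Fin n) (hF : DifferentiableAt ℂ F y) (hG : DifferentiableAt ℂ G y) :
    dh a (fun y => F y + G y) y = dh a F y + dh a G y := by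
  change fderiv ℂ (fun y => F y + G y) y (eh a) = _
  rw [fderiv_fun_add hF hG]
  rfl

theorem DD_add (hF : DifferentiableAt ℂ F y) (hG : DifferentiableAt ℂ G y) :
    DD (fun y => F y + G y) y = DD F y + DD G y := by
  change fderiv ℂ (fun y => F y + G y) y (hh y.2, 0) = _
  rw [fderiv_fun_add hF hG]
  rfl

theorem dz_sub (i : Fin (n + 1)) (hF : DifferentiableAt ℂ F y) (hG : DifferentiableAt ℂ G y) :
    dz i (fun y => F y - G y) y = dz i F y - dz i G y := by
  change fderiv ℂ (fun y => F y - G y) y (ez i) = _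
  rw [fderiv_fun_sub hF hG]
  rfl

theorem dh_sub (a : Fin n) (hF : DifferentiableAt ℂ F y) (hG : DifferentiableAt ℂ G y) :
    dh a (fun y => F y - G y) y = dh a F y - dh a G y := by
  change fderiv ℂ (fun y => F y - G y) y (eh a) = _
  rw [fderiv_fun_sub hF hG]
  rfl

theorem DD_sub (hF : DifferentiableAt ℂ F y) (hG : DifferentiableAt ℂ G y) :
    DD (fun y => F y - G y) y = DD F y - DD G y := by
  change fderiv ℂ (fun y => F y - G y) y (hh y.2, 0) = _
  rw [fderiv_fun_sub hF hG]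
  rfl

theorem dz_neg (i : Fin (n + 1)) : dz i (fun y => -F y) y = -dz i F y := by
  change fderiv ℂ (fun y => -F y) y (ez i) = _
  rw [fderiv_fun_neg]
  rfl

theorem dh_neg (a : Fin n) : dh a (fun y => -F y) y = -dh a F y := by
  change fderiv ℂ (fun y => -F y) y (eh a) = _
  rw [fderiv_fun_neg]
  rfl

theorem DD_neg : DD (fun y => -F y) y = -DD F y := by
  change fderiv ℂ (fun y => -F y) y (hh y.2, 0) = _
  rw [fderiv_fun_neg]
  rfl

private theorem fr_mul (hF : DifferentiableAt ℂ F y) (hG : DifferentiableAt ℂ G y) (v : CE n) :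
    fderiv ℂ (fun y => F y * G y) y v = fderiv ℂ F y v * G y + F y * fderiv ℂ G y v := by
  rw [fderiv_fun_mul hF hG]
  change F y * fderiv ℂ G y v + G y * fderiv ℂ F y v = _
  ring

theorem dz_mul (i : Fin (n + 1)) (hF : DifferentiableAt ℂ F y) (hG : DifferentiableAt ℂ G y) :
    dz i (fun y => F y * G y) y = dz i F y * G y + F y * dz i G y := by
  exact fr_mul hF hG _

theorem dh_mul (a : Fin n) (hF : DifferentiableAt ℂ F y) (hG : DifferentiableAt ℂ G y) :
    dh a (fun y => F y * G y) y = dh a F y * G y + F y * dh a G y := by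
  exact fr_mul hF hG _

theorem DD_mul (hF : DifferentiableAt ℂ F y) (hG : DifferentiableAt ℂ G y) :
    DD (fun y => F y * G y) y = DD F y * G y + F y * DD G y := by
  exact fr_mul hF hG _

private theorem fr_cmul (r : ℂ) (v : CE n) :
    fderiv ℂ (fun y => r * F y) y v = r * fderiv ℂ F y v := by
  have h : (fun y => r * F y) = r • F := rfl
  rw [h, ← fderivWithin_univ, fderivWithin_const_smul_field r uniqueDiffWithinAt_univ,
    fderivWithin_univ]
  rfl

theorem dz_cmul (i : Fin (n + 1)) (r : ℂ) : dz i (fun y => r * F y) y = r * dz i F y := by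
  exact fr_cmul r _

theorem dh_cmul (a : Fin n) (r : ℂ) : dh a (fun y => r * F y) y = r * dh a F y := by
  exact fr_cmul r _

theorem DD_cmul (r : ℂ) : DD (fun y => r * F y) y = r * DD F y := by
  exact fr_cmul r _

private theorem fr_sum {ι : Type*} {S : Finset ι} {f : ι → CE n → ℂ}
    (h : ∀ j ∈ S, DifferentiableAt ℂ (f j) y) (v : CE n) :
    fderiv ℂ (fun y => ∑ j ∈ S, f j y) y v = ∑ j ∈ S, fderiv ℂ (f j) y v := by
  rw [fderiv_fun_sum h, sum_apply]

theorem dz_sum {ι : Type*} {S : Finset ι} {f : ι → CE n → ℂ} (i : Fin (n + 1))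
    (h : ∀ j ∈ S, DifferentiableAt ℂ (f j) y) :
    dz i (fun y => ∑ j ∈ S, f j y) y = ∑ j ∈ S, dz i (f j) y := by
  exact fr_sum h _

theorem dh_sum {ι : Type*} {S : Finset ι} {f : ι → CE n → ℂ} (a : Fin n)
    (h : ∀ j ∈ S, DifferentiableAt ℂ (f j) y) :
    dh a (fun y => ∑ j ∈ S, f j y) y = ∑ j ∈ S, dh a (f j) y := by
  exact fr_sum h _

theorem DD_sum {ι : Type*} {S : Finset ι} {f : ι → CE n → ℂ}
    (h : ∀ j ∈ S, DifferentiableAt ℂ (f j) y) :
    DD (fun y => ∑ j ∈ S, f j y) y = ∑ j ∈ S, DD (f j) y := by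
  exact fr_sum h _

theorem dz_const (i : Fin (n + 1)) (r : ℂ) : dz i (fun _ : CE n => r) y = 0 := by
  change fderiv ℂ (fun _ : CE n => r) y (ez i) = 0
  rw [fderiv_fun_const]
  rfl

theorem dh_const (a : Fin n) (r : ℂ) : dh a (fun _ : CE n => r) y = 0 := by
  change fderiv ℂ (fun _ : CE n => r) y (eh a) = 0
  rw [fderiv_fun_const]
  rfl

theorem DD_const (r : ℂ) : DD (fun _ : CE n => r) y = 0 := by
  change fderiv ℂ (fun _ : CE n => r) y (hh y.2, 0) = 0
  rw [fderiv_fun_const]
  rfl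

/-! ## The coordinates -/

private theorem fr_z (j : Fin (n + 1)) (v : CE n) :
    fderiv ℂ (fun y : CE n => y.1 j) y v = v.1 j := by
  have h : HasFDerivAt (fun y : CE n => y.1 j)
      ((ContinuousLinearMap.proj j).comp
        (ContinuousLinearMap.fst ℂ (Fin (n + 1) → ℂ) (Fin n → ℂ))) y :=
    ((ContinuousLinearMap.proj j).comp
        (ContinuousLinearMap.fst ℂ (Fin (n + 1) → ℂ) (Fin n → ℂ))).hasFDerivAt
  rw [h.fderiv]
  rfl

private theorem fr_h (j : Fin n) (v : CE n) :
    fderiv ℂ (fun y : CE n => y.2 j) y v = v.2 j := by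
  have h : HasFDerivAt (fun y : CE n => y.2 j)
      ((ContinuousLinearMap.proj j).comp
        (ContinuousLinearMap.snd ℂ (Fin (n + 1) → ℂ) (Fin n → ℂ))) y :=
    ((ContinuousLinearMap.proj j).comp
        (ContinuousLinearMap.snd ℂ (Fin (n + 1) → ℂ) (Fin n → ℂ))).hasFDerivAt
  rw [h.fderiv]
  rfl

theorem dz_z (i j : Fin (n + 1)) : dz i (fun y : CE n => y.1 j) y = if i = j then 1 else 0 := by
  refine (fr_z j _).trans ?_
  change (Pi.single i 1 : Fin (n + 1) → ℂ) j = _
  rw [Pi.single_apply]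
  exact if_congr eq_comm rfl rfl

theorem dh_z (a : Fin n) (j : Fin (n + 1)) : dh a (fun y : CE n => y.1 j) y = 0 := by
  exact fr_z j _

theorem DD_z (a : Fin n) : DD (fun y : CE n => y.1 a.succ) y = y.2 a := by
  exact fr_z a.succ _

theorem dz_h (i : Fin (n + 1)) (a : Fin n) : dz i (fun y : CE n => y.2 a) y = 0 := by
  exact fr_h a _

theorem dh_h (a b : Fin n) : dh a (fun y : CE n => y.2 b) y = if a = b then 1 else 0 := by
  refine (fr_h b _).trans ?_
  change (Pi.single a 1 : Fin n → ℂ) b = _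
  rw [Pi.single_apply]
  exact if_congr eq_comm rfl rfl

theorem DD_h (a : Fin n) : DD (fun y : CE n => y.2 a) y = 0 := by
  exact fr_h a _

/-! ## Commutation -/

private theorem fr_symm (hF : Fn δ s F) (v w : CE n) (hy : y ∈ Om n δ s) :
    fderiv ℂ (fun y => fderiv ℂ F y v) y w = fderiv ℂ (fun y => fderiv ℂ F y w) y v := by
  have h0 := smooth_of_hol (isOpen_Om δ s) hF.hol
  rw [contDiffOn_infty] at h0
  have h1 : ContDiffAt ℂ 2 F y := (h0 2).contDiffAt ((isOpen_Om δ s).mem_nhds hy)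
  have h2 : IsSymmSndFDerivAt ℂ F y := h1.isSymmSndFDerivAt (by simp)
  have h3 : DifferentiableAt ℂ (fderiv ℂ F) y :=
    (h1.fderiv_right (m := 1) (by norm_num)).differentiableAt (by norm_num)
  have h4 : ∀ v w : CE n, fderiv ℂ (fun y => fderiv ℂ F y v) y w =
      fderiv ℂ (fderiv ℂ F) y w v := by
    intro v w
    rw [fderiv_clm_apply h3 (differentiableAt_const v), fderiv_fun_const]
    simp
  rw [h4, h4]
  exact h2 w v

theorem dz_dz (hF : Fn δ s F) (i j : Fin (n + 1)) (hy : y ∈ Om n δ s) :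
    dz i (dz j F) y = dz j (dz i F) y := by
  exact fr_symm hF _ _ hy

theorem dz_dh (hF : Fn δ s F) (i : Fin (n + 1)) (a : Fin n) (hy : y ∈ Om n δ s) :
    dz i (dh a F) y = dh a (dz i F) y := by
  exact fr_symm hF _ _ hy

theorem dh_dh (hF : Fn δ s F) (a b : Fin n) (hy : y ∈ Om n δ s) :
    dh a (dh b F) y = dh b (dh a F) y := by
  exact fr_symm hF _ _ hy

theorem dz_DD (hF : Fn δ s F) (i : Fin (n + 1)) (hy : y ∈ Om n δ s) :
    dz i (DD F) y = DD (dz i F) y := by
  have h1 : DD F = fun y => dz 0 F y + ∑ a, y.2 a * dz a.succ F y := funext (DD_eq F)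
  have h2 : ∀ a : Fin n, DifferentiableAt ℂ (fun y : CE n => y.2 a * dz a.succ F y) y := fun a =>
    (fn_h (δ := δ) (s := s) a).dat hy |>.mul ((hF.dz a.succ).dat hy)
  rw [h1, dz_add i ((hF.dz 0).dat hy) (DifferentiableAt.fun_sum fun a _ => h2 a),
    dz_sum i (fun a _ => h2 a), DD_eq, dz_dz hF i 0 hy]
  congr 1
  refine Finset.sum_congr rfl fun a _ => ?_
  rw [dz_mul i ((fn_h (δ := δ) (s := s) a).dat hy) ((hF.dz a.succ).dat hy), dz_h, zero_mul,
    zero_add, dz_dz hF i a.succ hy]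

theorem dh_DD (hF : Fn δ s F) (a : Fin n) (hy : y ∈ Om n δ s) :
    dh a (DD F) y = DD (dh a F) y + dz a.succ F y := by
  have h1 : DD F = fun y => dz 0 F y + ∑ a, y.2 a * dz a.succ F y := funext (DD_eq F)
  have h2 : ∀ a : Fin n, DifferentiableAt ℂ (fun y : CE n => y.2 a * dz a.succ F y) y := fun a =>
    (fn_h (δ := δ) (s := s) a).dat hy |>.mul ((hF.dz a.succ).dat hy)
  have h3 : ∀ b : Fin n, dh a (fun y : CE n => y.2 b * dz b.succ F y) y =
      (if a = b then 1 else 0) * dz b.succ F y + y.2 b * dz b.succ (dh a F) y := by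
    intro b
    rw [dh_mul a ((fn_h (δ := δ) (s := s) b).dat hy) ((hF.dz b.succ).dat hy), dh_h,
      ← dz_dh hF b.succ a hy]
  rw [h1, dh_add a ((hF.dz 0).dat hy) (DifferentiableAt.fun_sum fun a _ => h2 a),
    dh_sum a (fun a _ => h2 a), DD_eq, ← dz_dh hF 0 a hy, Finset.sum_congr rfl fun b _ => h3 b,
    Finset.sum_add_distrib]
  have h4 : ∑ b, (if a = b then (1 : ℂ) else 0) * dz b.succ F y = dz a.succ F y := by
    simp
  rw [h4]
  ring

/-! ## Functions of the frequency -/

/-- functions which do not depend on `z` -/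
def Zi (G : CE n → ℂ) : Prop := ∀ (z z' : Fin (n + 1) → ℂ) (h : Fin n → ℂ), G (z, h) = G (z', h)

private theorem fr_zi (h : Zi G) (v : CE n) (hv : v.2 = 0) : fderiv ℂ G y v = 0 := by
  by_cases hd : DifferentiableAt ℂ G y
  · have h1 : HasDerivAt (fun t : ℂ => G (y + t • v)) (fderiv ℂ G y v) 0 :=
      hd.hasFDerivAt.hasLineDerivAt v
    have h2 : (fun t : ℂ => G (y + t • v)) = fun _ => G y := by
      funext t
      have h3 : (y + t • v).2 = y.2 := by
        rw [Prod.snd_add, Prod.smul_snd, hv, smul_zero, add_zero]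
      have h4 : y + t • v = ((y + t • v).1, y.2) := Prod.ext rfl h3
      rw [h4]
      exact h _ y.1 y.2
    rw [h2] at h1
    exact h1.unique (hasDerivAt_const 0 (G y))
  · rw [fderiv_zero_of_not_differentiableAt hd]
    rfl

theorem Zi.dz (h : Zi G) (i : Fin (n + 1)) : dz i G y = 0 := by
  exact fr_zi h _ rfl

theorem Zi.DD (h : Zi G) : DD G y = 0 := by
  exact fr_zi h _ rfl

theorem Zi.dh (h : Zi G) (a : Fin n) : Zi (dh a G) := by
  intro z z' k
  have h1 : (fun y : CE n => G (y + (z' - z, 0))) = G := by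
    funext y
    have h2 : y + ((z' - z, 0) : CE n) = (y.1 + (z' - z), y.2) :=
      Prod.ext rfl (add_zero y.2)
    rw [h2]
    exact h _ y.1 y.2
  have h3 : fderiv ℂ G (z, k) = fderiv ℂ G ((z, k) + (z' - z, 0)) := by
    conv_lhs => rw [← h1]
    exact fderiv_comp_add_right _
  have h4 : ((z, k) : CE n) + (z' - z, 0) = (z', k) :=
    Prod.ext (add_sub_cancel z z') (add_zero k)
  change fderiv ℂ G (z, k) (eh a) = fderiv ℂ G (z', k) (eh a)
  rw [h3, h4]

/-- for functions of the frequency the domain in `z` does not matter -/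
theorem Zi.fn (h : Zi G) (hG : Fn δ s G) (hδ : 0 < δ) (δ' : ℝ) : Fn δ' s G := by
  refine ⟨fun y hy => ?_, hG.per, hG.real⟩
  have h1 : G = fun y : CE n => G (0, y.2) := funext fun y => h y.1 0 y.2
  have h2 : ((0, y.2) : CE n) ∈ Om n δ s := by
    refine ⟨fun i => ?_, hy.2⟩
    change |(0 : ℂ).im| < δ
    rw [zero_im, abs_zero]
    exact hδ
  rw [h1]
  have h3 : DifferentiableAt ℂ (fun y : CE n => ((0, y.2) : CE n)) y := by fun_prop
  exact (DifferentiableAt.comp y (hG.dat h2) h3).differentiableWithinAt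

theorem Zi.bd (h : Zi G) (hG : Bd δ s c G) (hδ : 0 < δ) (δ' : ℝ) : Bd δ' s c G := by
  intro y hy
  have h2 : ((0, y.2) : CE n) ∈ Om n δ s := by
    refine ⟨fun i => ?_, hy.2⟩
    change |(0 : ℂ).im| < δ
    rw [zero_im, abs_zero]
    exact hδ
  have h3 := hG _ h2
  rwa [h 0 y.1 y.2] at h3

private theorem fr_congr (hy : y ∈ Om n δ s) (h : ∀ y ∈ Om n δ s, F y = G y) :
    fderiv ℂ F y = fderiv ℂ G y := by
  refine Filter.EventuallyEq.fderiv_eq ?_
  filter_upwards [(isOpen_Om δ s).mem_nhds hy] with x hx using h x hx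

/-- locally equal functions have equal derivatives -/
theorem dz_congr (i : Fin (n + 1)) (hy : y ∈ Om n δ s) (h : ∀ y ∈ Om n δ s, F y = G y) :
    dz i F y = dz i G y := by
  change fderiv ℂ F y _ = fderiv ℂ G y _
  rw [fr_congr hy h]

theorem dh_congr (a : Fin n) (hy : y ∈ Om n δ s) (h : ∀ y ∈ Om n δ s, F y = G y) :
    dh a F y = dh a G y := by
  change fderiv ℂ F y _ = fderiv ℂ G y _
  rw [fr_congr hy h]

theorem DD_congr (hy : y ∈ Om n δ s) (h : ∀ y ∈ Om n δ s, F y = G y) : DD F y = DD G y := by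
  change fderiv ℂ F y _ = fderiv ℂ G y _
  rw [fr_congr hy h]

end Pool.Agent.LRig
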