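import Pool.Agent.LRig.FC

/-!
# LR (MP_74f563_an, all n), file FS: translation invariance of the mean over the cube

PROOF of `cube_shift_real`.  `∫_{[0,1]^m} g (x + w) dx = ∫_{[0,1]^m} g x dx` for continuous `g` with
period `1` in every variable and `w` real: pass to the torus: `g` factors through a continuous
function on `UnitAddTorus (Fin m)`; `UnitAddTorus.integral_preimage` (file
`Mathlib/Analysis/Fourier/AddCircleMulti`) identifies the integral over `∏ Ioc (a i) (a i + 1)` with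
the integral over the torus, for every `a`; `Icc 0 1` and `∏ Ioc 0 1` differ by a null set
(`Measure.univ_pi_Ioc_ae_eq_Icc`), and `x ↦ x + w` maps `Icc 0 1` to `Icc w (w + 1)` (translation
invariance of the Lebesgue measure, `MeasurePreserving.setIntegral_image_emb` or
`integral_image_eq...`).
`cube_shift`: `g` holomorphic on the strip `|Im z_i| < δ`, periodic.  Fix `w` in the strip, write
`w = a + i b`; `ψ(ζ) = ∫ g (x + a + ζ b) dx` is holomorphic on the open set
`U = {ζ : ∀ i, |Im ζ * b i| < δ}` (a convex strip containing `ℝ` and `i`) by `cube_hol` (with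
`E = ℂ`)
and constant on `ℝ` by `cube_shift_real`; by the identity theorem
(`AnalyticOnNhd.eqOn_of_preconnected_of_frequently_eq`) it is constant, so
`∫ g (x + w) = ψ(i) = ψ(0) = ∫ g`.
-/

set_option autoImplicit false

namespace Pool.Agent.LRig

open Complex Set MeasureTheory

private theorem fs_per1 {m : ℕ} {g : (Fin m → ℝ) → ℂ}
    (hp : ∀ (i : Fin m) (x : Fin m → ℝ), g (x + Pi.single i 1) = g x) (i : Fin m) (k : ℤ) :
    ∀ x : Fin m → ℝ, g (x + Pi.single i (k : ℝ)) = g x := by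
  induction k using Int.induction_on with
  | zero =>
    intro x
    rw [Int.cast_zero, Pi.single_zero, add_zero]
  | succ k ih =>
    intro x
    have h : x + Pi.single i (((k : ℤ) + 1 : ℤ) : ℝ) =
        x + Pi.single i ((k : ℤ) : ℝ) + Pi.single i 1 := by
      rw [add_assoc, ← Pi.single_add, Int.cast_add, Int.cast_one]
    rw [h, hp, ih]
  | pred k ih =>
    intro x
    have h : x + Pi.single i ((-(k : ℤ) - 1 : ℤ) : ℝ) + Pi.single i 1 =
        x + Pi.single i ((-(k : ℤ) : ℤ) : ℝ) := by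
      rw [add_assoc, ← Pi.single_add, Int.cast_sub, Int.cast_one, sub_add_cancel]
    rw [← hp, h, ih]

private theorem fs_per {m : ℕ} {g : (Fin m → ℝ) → ℂ}
    (hp : ∀ (i : Fin m) (x : Fin m → ℝ), g (x + Pi.single i 1) = g x) (k : Fin m → ℤ)
    (x : Fin m → ℝ) : g (x + fun i => (k i : ℝ)) = g x := by
  have h : ∀ s : Finset (Fin m), g (x + ∑ i ∈ s, Pi.single i ((k i : ℤ) : ℝ)) = g x := by
    intro s
    induction s using Finset.induction_on with
    | empty => rw [Finset.sum_empty, add_zero]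
    | insert a s ha ih =>
      rw [Finset.sum_insert ha, add_comm (Pi.single a _), ← add_assoc, fs_per1 hp, ih]
  have h2 := h Finset.univ
  rwa [Finset.univ_sum_single fun i => (k i : ℝ)] at h2

private theorem fs_box {m : ℕ} {g : (Fin m → ℝ) → ℂ}
    (hp : ∀ (i : Fin m) (x : Fin m → ℝ), g (x + Pi.single i 1) = g x) (a b : Fin m → ℝ) :
    ∫ x in Icc a (a + 1), g x = ∫ x in Icc b (b + 1), g x := by
  have h1 : ∀ y : UnitAddTorus (Fin m), ∃ x : Fin m → ℝ,
      ∀ i, ((x i : ℝ) : UnitAddCircle) = y i := by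
    intro y
    have h2 : ∀ i, ∃ t : ℝ, ((t : ℝ) : UnitAddCircle) = y i := fun i =>
      QuotientAddGroup.mk_surjective (y i)
    choose x hx using h2
    exact ⟨x, hx⟩
  choose r hr using h1
  have h3 : ∀ x : Fin m → ℝ, g (r fun i => ((x i : ℝ) : UnitAddCircle)) = g x := by
    intro x
    have h4 : ∀ i, ∃ k : ℤ, (r fun i => ((x i : ℝ) : UnitAddCircle)) i = x i + k := by
      intro i
      have h5 := hr (fun i => ((x i : ℝ) : UnitAddCircle)) i
      have h6 := (QuotientAddGroup.eq.1 h5.symm)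
      obtain ⟨k, hk⟩ := AddSubgroup.mem_zmultiples_iff.1 h6
      refine ⟨k, ?_⟩
      have h7 : (k : ℤ) • (1 : ℝ) = -x i + (r fun i => ((x i : ℝ) : UnitAddCircle)) i := hk
      rw [zsmul_eq_mul, mul_one] at h7
      linarith
    choose k hk using h4
    have h8 : (r fun i => ((x i : ℝ) : UnitAddCircle)) = x + fun i => (k i : ℝ) := by
      funext i
      rw [hk i]
      rfl
    rw [h8, fs_per hp]
  have h9 : ∀ c : Fin m → ℝ, ∫ x in Icc c (c + 1), g x =
      ∫ x in {x : Fin m → ℝ | ∀ i, x i ∈ Ioc (c i) (c i + 1)},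
        g (r fun i => ((x i : ℝ) : UnitAddCircle)) := by
    intro c
    have h10 : {x : Fin m → ℝ | ∀ i, x i ∈ Ioc (c i) (c i + 1)} =
        Set.pi univ fun i => Ioc (c i) ((c + 1) i) := by
      ext x
      simp [Set.mem_pi]
    have h11 := Measure.univ_pi_Ioc_ae_eq_Icc (μ := fun _ : Fin m => (volume : Measure ℝ))
      (f := c) (g := c + 1)
    rw [h10, ← setIntegral_congr_set (μ := (volume : Measure (Fin m → ℝ))) (f := g) h11]
    exact integral_congr_ae (Filter.Eventually.of_forall fun x => (h3 x).symm)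
  rw [h9, h9]
  exact (UnitAddTorus.integral_preimage (fun y => g (r y)) a).symm.trans
    (UnitAddTorus.integral_preimage (fun y => g (r y)) b)

theorem cube_shift_real {m : ℕ} {g : (Fin m → ℝ) → ℂ} (hg : Continuous g)
    (hp : ∀ (i : Fin m) (x : Fin m → ℝ), g (x + Pi.single i 1) = g x) (w : Fin m → ℝ) :
    ∫ x in Icc (0 : Fin m → ℝ) 1, g (x + w) = ∫ x in Icc (0 : Fin m → ℝ) 1, g x := by
  have h0 := measurePreserving_add_right (volume : Measure (Fin m → ℝ)) w
  have h1 := h0.setIntegral_preimage_emb (measurableEmbedding_addRight w) g (Icc w (w + 1))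
  rw [preimage_add_const_Icc, sub_self, add_sub_cancel_left] at h1
  rw [h1, fs_box hp w 0, zero_add]

theorem cube_shift {m : ℕ} {δ : ℝ} {g : (Fin m → ℂ) → ℂ} (hδ : 0 < δ)
    (hg : DifferentiableOn ℂ g {z | ∀ i, |(z i).im| < δ})
    (hp : ∀ (i : Fin m) (z : Fin m → ℂ), g (z + Pi.single i 1) = g z) {w : Fin m → ℂ}
    (hw : ∀ i, |(w i).im| < δ) :
    ∫ x in Icc (0 : Fin m → ℝ) 1, g ((fun i => (x i : ℂ)) + w) =
      ∫ x in Icc (0 : Fin m → ℝ) 1, g fun i => (x i : ℂ) := by
  obtain ⟨Ψ, hΨ⟩ : ∃ Ψ : (Fin m → ℝ) × ℂ → (Fin m → ℂ), Ψ = fun q i =>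
    (q.1 i : ℂ) + ((w i).re + (w i).im * q.2) := ⟨_, rfl⟩
  obtain ⟨U, hU⟩ : ∃ U : Set ℂ, U = {ζ | ∀ i, |(w i).im * ζ.im| < δ} := ⟨_, rfl⟩
  have him : ∀ (q : (Fin m → ℝ) × ℂ) (i : Fin m), (Ψ q i).im = (w i).im * q.2.im := by
    intro q i
    rw [hΨ]
    simp
  have hmem : ∀ (x : Fin m → ℝ) (ζ : ℂ), ζ ∈ U →
      Ψ (x, ζ) ∈ {z : Fin m → ℂ | ∀ i, |(z i).im| < δ} := by
    intro x ζ hζ i
    rw [hU] at hζ
    rw [him]
    exact hζ i
  have hUo : IsOpen U := by
    have h1 : U = ⋂ i, {ζ : ℂ | |(w i).im * ζ.im| < δ} := by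
      rw [hU]
      ext ζ
      simp
    rw [h1]
    refine isOpen_iInter_of_finite fun i => ?_
    exact isOpen_lt ((continuous_const.mul continuous_im).abs) continuous_const
  have hUc : Convex ℝ U := by
    have h1 : U = ⋂ i, {ζ : ℂ | |(w i).im * ζ.im| < δ} := by
      rw [hU]
      ext ζ
      simp
    rw [h1]
    refine convex_iInter fun i => ?_
    intro x hx y hy a b ha hb hab
    have hx' : |(w i).im * x.im| < δ := hx
    have hy' : |(w i).im * y.im| < δ := hy
    show |(w i).im * (a • x + b • y).im| < δ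
    have e : (w i).im * (a • x + b • y).im =
        a * ((w i).im * x.im) + b * ((w i).im * y.im) := by
      simp
      ring
    rw [e]
    rw [abs_lt] at hx' hy' ⊢
    constructor
    · have hb1 : b = 1 - a := by linarith
      subst hb1
      rcases ha.eq_or_lt with rfl | ha'
      · simpa using hy'.1
      · nlinarith [mul_lt_mul_of_pos_left hx'.1 ha', mul_le_mul_of_nonneg_left hy'.1.le hb]
    · have hb1 : b = 1 - a := by linarith
      subst hb1
      rcases ha.eq_or_lt with rfl | ha'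
      · simpa using hy'.2
      · nlinarith [mul_lt_mul_of_pos_left hx'.2 ha', mul_le_mul_of_nonneg_left hy'.2.le hb]
  have hΨc : Continuous Ψ := by
    rw [hΨ]
    fun_prop
  have hG : ContinuousOn (fun q : (Fin m → ℝ) × ℂ => g (Ψ (q.1, q.2))) (Icc 0 1 ×ˢ U) :=
    hg.continuousOn.comp hΨc.continuousOn fun q hq => hmem q.1 q.2 hq.2
  have hd : ∀ x ∈ Icc (0 : Fin m → ℝ) 1, DifferentiableOn ℂ (fun ζ => g (Ψ (x, ζ))) U := by
    intro x _
    refine hg.comp ?_ fun ζ hζ => hmem x ζ hζ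
    rw [hΨ]
    refine Differentiable.differentiableOn ?_
    refine differentiable_pi.2 fun i => ?_
    show Differentiable ℂ fun ζ : ℂ => (x i : ℂ) + ((w i).re + (w i).im * ζ)
    fun_prop
  have hψ := (cube_hol (E := ℂ) (g := fun x ζ => g (Ψ (x, ζ))) hUo hG hd).1
  obtain ⟨g0, hg0⟩ : ∃ g0 : (Fin m → ℝ) → ℂ, g0 = fun x => g fun i => (x i : ℂ) := ⟨_, rfl⟩
  have hg0c : Continuous g0 := by
    rw [hg0]
    refine hg.continuousOn.comp_continuous (by fun_prop) fun x i => ?_
    show |((x i : ℝ) : ℂ).im| < δ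
    rw [ofReal_im, abs_zero]
    exact hδ
  have hg0p : ∀ (i : Fin m) (x : Fin m → ℝ), g0 (x + Pi.single i 1) = g0 x := by
    intro i x
    rw [hg0]
    show g (fun j => ((x + Pi.single i 1 : Fin m → ℝ) j : ℂ)) = g fun j => (x j : ℂ)
    rw [← hp i fun j => (x j : ℂ)]
    congr 1
    funext j
    show (((x + Pi.single i 1 : Fin m → ℝ) j : ℝ) : ℂ) =
      (x j : ℂ) + (Pi.single i 1 : Fin m → ℂ) j
    rw [Pi.add_apply, ofReal_add]
    congr 1
    by_cases hij : j = i
    · subst hij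
      simp
    · simp [Pi.single_eq_of_ne hij]
  have hreal : ∀ t : ℝ, ∫ x in Icc (0 : Fin m → ℝ) 1, g (Ψ (x, (t : ℂ))) =
      ∫ x in Icc (0 : Fin m → ℝ) 1, g fun i => (x i : ℂ) := by
    intro t
    have h1 := cube_shift_real hg0c hg0p fun i => (w i).re + (w i).im * t
    rw [hg0] at h1
    rw [← h1]
    refine integral_congr_ae (Filter.Eventually.of_forall fun x => ?_)
    show g (Ψ (x, (t : ℂ))) =
      g (fun i => ((x + fun i => (w i).re + (w i).im * t : Fin m → ℝ) i : ℂ))
    congr 1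
    funext i
    rw [hΨ]
    simp
  have h0 : (0 : ℂ) ∈ U := by
    rw [hU]
    intro i
    rw [zero_im, mul_zero, abs_zero]
    exact hδ
  have hI : I ∈ U := by
    rw [hU]
    intro i
    rw [I_im, mul_one]
    exact hw i
  have ht : Filter.Tendsto (fun n : ℕ => ((1 / ((n : ℝ) + 1) : ℝ) : ℂ)) Filter.atTop
      (nhdsWithin (0 : ℂ) {0}ᶜ) := by
    refine tendsto_nhdsWithin_iff.2 ⟨?_, Filter.Eventually.of_forall fun n => ?_⟩
    · have h1 := tendsto_one_div_add_atTop_nhds_zero_nat (𝕜 := ℝ)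
      exact (continuous_ofReal.tendsto' 0 0 ofReal_zero).comp h1
    · rw [mem_compl_iff, mem_singleton_iff, ofReal_eq_zero]
      positivity
  have key := AnalyticOnNhd.eqOn_of_preconnected_of_frequently_eq
    (g := fun _ => ∫ x in Icc (0 : Fin m → ℝ) 1, g fun i => (x i : ℂ))
    (hψ.analyticOnNhd hUo) analyticOnNhd_const hUc.isPreconnected h0
    (ht.frequently (Filter.Frequently.of_forall fun n => hreal _)) hI
  have key' : ∫ x in Icc (0 : Fin m → ℝ) 1, g (Ψ (x, I)) =
      ∫ x in Icc (0 : Fin m → ℝ) 1, g fun i => (x i : ℂ) := key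
  rw [← key']
  refine integral_congr_ae (Filter.Eventually.of_forall fun x => ?_)
  show g ((fun i => (x i : ℂ)) + w) = g (Ψ (x, I))
  congr 1
  funext i
  rw [hΨ]
  show (x i : ℂ) + w i = (x i : ℂ) + ((w i).re + (w i).im * I)
  rw [re_add_im]

end Pool.Agent.LRig
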