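import Pool.Agent.LRig.FP

/-!
# LR (MP_74f563_an, all n), file FT: three lines

PROOF of `three_lines`.  Hadamard's three lines theorem on the strip `0 ≤ Im ζ ≤ ρ`, `1 < ρ < 4`
(Mathlib: `Complex.HadamardThreeLines`, stated for vertical strips `0 ≤ Re z ≤ 1`; use
`z ↦ g (I ρ z)`-type reparametrisation, `norm_le_interpStrip_of_mem_verticalClosedStrip` or its
variants with explicit bounds): `‖g I‖ ≤ eR^(1 - 1/ρ) eC^(1/ρ)`; then `ρ → 4`.  (`g` is bounded by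
`eC`
on the closed strip.)  The cases `eR = 0` or `eC = 0`: replace `eR`, `eC` by `eR + t`, `eC + t`,
`t ↓ 0`, or use the version of the theorem which allows zero.
PROOF of `res_interp`.  Let `y ∈ Om n δ (s/4)`, `dv k y = 0`, `y.2 = a + i b` (real `a`, `b`), so
`k 0 + ∑ k_{c+1} a_c = 0` and `∑ k_{c+1} b_c = 0`.  Put `g ζ = cf k F (0, a + ζ b)`: for
`|Im ζ| < 4` the
point is in the strip `s` (`|b_c| < s/4`) and on the resonance hyperplane; `g` is holomorphic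
(`cf_hol`, `cf_Zi`), `‖g ζ‖ ≤ eC`, for real `ζ` the point is real: `‖g ζ‖ ≤ eR`; `g I = cf k F y`.
-/

set_option autoImplicit false

namespace Pool.Agent.LRig

open Complex Set MeasureTheory

variable {n : ℕ} {δ s δ' s' c c' : ℝ} {F G : CE n → ℂ} {y : CE n}

private theorem three_aux {g : ℂ → ℂ} {eR eC ρ : ℝ} (hg : DifferentiableOn ℂ g {ζ | |ζ.im| < 4})
    (hC : ∀ ζ : ℂ, |ζ.im| < 4 → ‖g ζ‖ ≤ eC) (hR : ∀ t : ℝ, ‖g t‖ ≤ eR) (h1 : 1 < ρ)
    (h4 : ρ < 4) : ‖g I‖ ≤ eR ^ (1 - 1 / ρ) * eC ^ (1 / ρ) := by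
  have hρ : 0 < ρ := by linarith
  have him : ∀ z : ℂ, (I * (ρ : ℂ) * z).im = ρ * z.re := by
    intro z
    simp [mul_im, mul_re]
  have hm : ∀ z ∈ HadamardThreeLines.verticalClosedStrip 0 1, |(I * (ρ : ℂ) * z).im| < 4 := by
    intro z hz
    rw [him, abs_of_nonneg (mul_nonneg hρ.le hz.1)]
    have h2 : z.re ≤ 1 := hz.2
    nlinarith [hz.1]
  have hcl : closure (HadamardThreeLines.verticalStrip 0 1) ⊆
      HadamardThreeLines.verticalClosedStrip 0 1 :=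
    closure_minimal (fun z hz => ⟨hz.1.le, hz.2.le⟩) (isClosed_Icc.preimage continuous_re)
  have hd : DiffContOnCl ℂ (fun z : ℂ => g (I * (ρ : ℂ) * z))
      (HadamardThreeLines.verticalStrip 0 1) := by
    refine DifferentiableOn.diffContOnCl (DifferentiableOn.comp (t := {ζ : ℂ | |ζ.im| < 4}) hg
      (by fun_prop) ?_)
    intro z hz
    exact hm z (hcl hz)
  have hz : ((1 / ρ : ℝ) : ℂ) ∈ HadamardThreeLines.verticalClosedStrip 0 1 := by
    refine ⟨?_, ?_⟩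
    · rw [ofReal_re]
      positivity
    · rw [ofReal_re, div_le_one hρ]
      exact h1.le
  have hB : BddAbove ((norm ∘ fun z : ℂ => g (I * (ρ : ℂ) * z)) ''
      HadamardThreeLines.verticalClosedStrip 0 1) := by
    refine ⟨eC, ?_⟩
    rintro _ ⟨z, hz, rfl⟩
    exact hC _ (hm z hz)
  have hk := HadamardThreeLines.norm_le_interp_of_mem_verticalClosedStrip₀₁'
    (fun z : ℂ => g (I * (ρ : ℂ) * z)) (a := eR) (b := eC) hz hd hB ?_ ?_
  · rw [ofReal_re] at hk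
    have e : I * (ρ : ℂ) * ((1 / ρ : ℝ) : ℂ) = I := by
      have h0 : (ρ : ℂ) ≠ 0 := by exact_mod_cast hρ.ne'
      push_cast
      field_simp
    simp only [e] at hk
    exact hk
  · intro z hz0
    have h0 : z.re = 0 := hz0
    have e : I * (ρ : ℂ) * z = ((-(ρ * z.im) : ℝ) : ℂ) := by
      apply Complex.ext
      · simp [mul_im, mul_re]
      · rw [him, h0, mul_zero, ofReal_im]
    change ‖g (I * (ρ : ℂ) * z)‖ ≤ eR
    rw [e]
    exact hR _
  · intro z hz1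
    have h0 : z.re = 1 := hz1
    exact hC _ (hm z ⟨by rw [h0]; exact zero_le_one, by rw [h0]⟩)

theorem three_lines {g : ℂ → ℂ} {eR eC : ℝ} (hg : DifferentiableOn ℂ g {ζ | |ζ.im| < 4})
    (hC : ∀ ζ : ℂ, |ζ.im| < 4 → ‖g ζ‖ ≤ eC) (hR : ∀ t : ℝ, ‖g t‖ ≤ eR) :
    ‖g I‖ ≤ eR ^ (3 / 4 : ℝ) * eC ^ (1 / 4 : ℝ) := by
  have h0R : 0 ≤ eR := (norm_nonneg _).trans (hR 0)
  have h0C : 0 ≤ eC := (norm_nonneg _).trans (hC 0 (by simp))
  have hp : 0 ≤ eR ^ (3 / 4 : ℝ) * eC ^ (1 / 4 : ℝ) :=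
    mul_nonneg (Real.rpow_nonneg h0R _) (Real.rpow_nonneg h0C _)
  have k2 := three_aux hg hC hR (ρ := 2) (by norm_num) (by norm_num)
  by_cases hR0 : eR = 0
  · refine le_trans ?_ hp
    rw [hR0, Real.zero_rpow (by norm_num), zero_mul] at k2
    exact k2
  by_cases hC0 : eC = 0
  · refine le_trans ?_ hp
    rw [hC0, Real.zero_rpow (by norm_num), mul_zero] at k2
    exact k2
  have hc : ContinuousAt (fun ρ : ℝ => eR ^ (1 - 1 / ρ) * eC ^ (1 / ρ)) 4 := by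
    have c1 : ContinuousAt (fun ρ : ℝ => 1 / ρ) 4 :=
      continuousAt_const.div continuousAt_id (by norm_num)
    exact (ContinuousAt.rpow continuousAt_const (continuousAt_const.sub c1) (Or.inl hR0)).mul
      (ContinuousAt.rpow continuousAt_const c1 (Or.inl hC0))
  have ht := hc.tendsto.mono_left (nhdsWithin_le_nhds (s := Iio 4))
  have e : (3 / 4 : ℝ) = 1 - 1 / 4 := by norm_num
  rw [e]
  refine ge_of_tendsto ht ?_
  filter_upwards [Ioo_mem_nhdsLT (by norm_num : (1 : ℝ) < 4)] with ρ h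
  exact three_aux hg hC hR h.1 h.2

theorem res_interp {eR eC : ℝ} {k : Fin (n + 1) → ℤ} (hF : Fn δ s F) (hδ : 0 < δ)
    (hR : ∀ h : Fin n → ℝ, dv k (rp 0 h) = 0 → ‖cf k F (rp 0 h)‖ ≤ eR)
    (hC : ∀ y ∈ Om n δ s, dv k y = 0 → ‖cf k F y‖ ≤ eC) (hy : y ∈ Om n δ (s / 4))
    (h : dv k y = 0) : ‖cf k F y‖ ≤ eR ^ (3 / 4 : ℝ) * eC ^ (1 / 4 : ℝ) := by
  have h0 : (k 0 : ℂ) + ∑ a : Fin n, (k a.succ : ℂ) * y.2 a = 0 := by
    rw [← dv_eq]
    exact h
  have hre : (k 0 : ℝ) + ∑ a : Fin n, (k a.succ : ℝ) * (y.2 a).re = 0 := by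
    have := congrArg Complex.re h0
    simpa [mul_re] using this
  have him : ∑ a : Fin n, (k a.succ : ℝ) * (y.2 a).im = 0 := by
    have := congrArg Complex.im h0
    simpa [mul_im] using this
  have hdv : ∀ ζ : ℂ, dv k
      ((0, fun a => (((y.2 a).re : ℝ) : ℂ) + ζ * (((y.2 a).im : ℝ) : ℂ)) : CE n) = 0 := by
    intro ζ
    rw [dv_eq]
    have e1 : (k 0 : ℂ) + ∑ a : Fin n, (k a.succ : ℂ) *
        ((((y.2 a).re : ℝ) : ℂ) + ζ * (((y.2 a).im : ℝ) : ℂ)) =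
        (((k 0 : ℝ) + ∑ a : Fin n, (k a.succ : ℝ) * (y.2 a).re : ℝ) : ℂ) +
        ζ * ((∑ a : Fin n, (k a.succ : ℝ) * (y.2 a).im : ℝ) : ℂ) := by
      push_cast
      rw [Finset.mul_sum, add_assoc, ← Finset.sum_add_distrib]
      congr 1
      exact Finset.sum_congr rfl fun a _ => by ring
    refine e1.trans ?_
    rw [hre, him, ofReal_zero, mul_zero, add_zero]
  have hmem : ∀ ζ : ℂ, |ζ.im| < 4 →
      ((0, fun a => (((y.2 a).re : ℝ) : ℂ) + ζ * (((y.2 a).im : ℝ) : ℂ)) : CE n) ∈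
        Om n δ s := by
    intro ζ hζ
    refine ⟨fun i => ?_, fun a => ?_⟩
    · change |(0 : ℂ).im| < δ
      rw [zero_im, abs_zero]
      exact hδ
    · have e : ((((y.2 a).re : ℝ) : ℂ) + ζ * (((y.2 a).im : ℝ) : ℂ)).im =
          ζ.im * (y.2 a).im := by
        simp [add_im, mul_im]
      change |((((y.2 a).re : ℝ) : ℂ) + ζ * (((y.2 a).im : ℝ) : ℂ)).im| < s
      rw [e, abs_mul]
      have h2 := hy.2 a
      nlinarith [abs_nonneg ζ.im, abs_nonneg (y.2 a).im]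
  have hg : DifferentiableOn ℂ (fun ζ : ℂ => cf k F
      ((0, fun a => (((y.2 a).re : ℝ) : ℂ) + ζ * (((y.2 a).im : ℝ) : ℂ)) : CE n))
      {ζ | |ζ.im| < 4} := by
    refine DifferentiableOn.comp (g := cf k F) (f := fun ζ : ℂ =>
      ((0, fun a => (((y.2 a).re : ℝ) : ℂ) + ζ * (((y.2 a).im : ℝ) : ℂ)) : CE n))
      (t := Om n δ s) (cf_hol hF hδ k δ) ?_ fun ζ hζ => hmem ζ hζ
    refine Differentiable.differentiableOn ?_
    refine Differentiable.prodMk (differentiable_const _) ?_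
    exact differentiable_pi.2 fun a => by fun_prop
  have key := three_lines hg (eR := eR) (eC := eC) (fun ζ hζ => hC _ (hmem ζ hζ) (hdv ζ)) ?_
  · have e : cf k F ((0, fun a => (((y.2 a).re : ℝ) : ℂ) + I * (((y.2 a).im : ℝ) : ℂ)) : CE n) =
        cf k F y := by
      have e2 : (fun a => (((y.2 a).re : ℝ) : ℂ) + I * (((y.2 a).im : ℝ) : ℂ)) = y.2 := by
        funext a
        rw [mul_comm I]
        exact re_add_im _
      rw [e2]
      exact cf_Zi k F _ _ _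
    rw [e] at key
    exact key
  · intro t
    have e : ((0, fun a => (((y.2 a).re : ℝ) : ℂ) + (t : ℂ) * (((y.2 a).im : ℝ) : ℂ)) : CE n) =
        rp 0 fun a => (y.2 a).re + t * (y.2 a).im := by
      refine Prod.ext ?_ ?_
      · funext i
        change (0 : ℂ) = (((0 : Fin (n + 1) → ℝ) i : ℝ) : ℂ)
        rw [Pi.zero_apply, ofReal_zero]
      · funext a
        change (((y.2 a).re : ℝ) : ℂ) + (t : ℂ) * (((y.2 a).im : ℝ) : ℂ) =
          (((y.2 a).re + t * (y.2 a).im : ℝ) : ℂ)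
        push_cast
        rfl
    have h2 := hdv t
    rw [e] at h2
    change ‖cf k F ((0, fun a => (((y.2 a).re : ℝ) : ℂ) +
      (t : ℂ) * (((y.2 a).im : ℝ) : ℂ)) : CE n)‖ ≤ eR
    rw [e]
    exact hR _ h2

end Pool.Agent.LRig
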