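import Pool.Agent.LRig.FR
import Pool.Agent.LRig.FS

/-!
# LR (MP_74f563_an, all n), file FV: the mean over the angles and time

PROOFS.  `avg F` does not depend on `z` by definition.  Holomorphic: `cube_hol` with
`g x y = F ((x : complex), y.2)` on `V = {y | y.2 in the strip s}` (continuous on `Icc 0 1 ×ˢ V`,
holomorphic in `y`, since the point is in `Om n δ s`, `0 < δ`); its second part gives
`fderiv (avg F) y (eh a) = ∫ fderiv (y ↦ F (x, y.2)) y (eh a) = ∫ dh a F (x, y.2)`, which is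
`avg_dh`.
Real: `conj` commutes with the integral (`integral_conj`) and the points `(x, conj h)` are the
conjugate points.
`avg_dz`: for fixed `h` the function `ψ(ζ) = ∫ F (x + ζ e_i, h) dx` is constant near `0`
(`cube_shift`), and by `cube_hol` its derivative at `0` is `∫ dz i F (x, h) dx`.
`avg_DD`: `DD_eq` and linearity: the factors `y.2 a` do not depend on `x`.
`avg_zmul`: factors of class `Zi` can be taken out of the integral.
`avg_zi`: the cube has volume one.  `avg_bd`: `norm_setIntegral_le_of_norm_le_const`.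
Integrability: the integrands are continuous on the compact cube
(`ContinuousOn.integrableOn_compact`).
-/

set_option autoImplicit false

namespace Pool.Agent.LRig

open Complex Set MeasureTheory
open scoped ComplexConjugate

variable {n : ℕ} {δ s δ' s' c c' : ℝ} {F G : CE n → ℂ} {y : CE n}

/-- the domain of the frequency -/
private def VV (n : ℕ) (s : ℝ) : Set (CE n) := {y | ∀ a, |(y.2 a).im| < s}

private theorem VV_open (s : ℝ) : IsOpen (VV n s) := by
  have h1 : VV n s = ⋂ a : Fin n, {y : CE n | |(y.2 a).im| < s} := by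
    ext y
    simp [VV]
  rw [h1]
  refine isOpen_iInter_of_finite fun a => ?_
  exact isOpen_lt (by fun_prop) continuous_const

private theorem VV_real (hδ : 0 < δ) (hy : y ∈ VV n s) (x : Fin (n + 1) → ℝ) :
    ((fun i => (x i : ℂ)), y.2) ∈ Om n δ s :=
  real_mem_Om hδ (δ' := ∑ i, |(y.1 i).im| + 1) (s := s)
    ⟨fun i => lt_of_le_of_lt (Finset.single_le_sum (f := fun i => |(y.1 i).im|)
      (fun _ _ => abs_nonneg _) (Finset.mem_univ i)) (lt_add_one _), hy⟩ x

private theorem VV_of_Om (hy : y ∈ Om n δ' s) : y ∈ VV n s := hy.2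

private theorem par_cont (hF : ContinuousOn F (Om n δ s)) (hδ : 0 < δ) :
    ContinuousOn (fun q : (Fin (n + 1) → ℝ) × CE n => F (fun i => (q.1 i : ℂ), q.2.2))
      (Icc 0 1 ×ˢ VV n s) := by
  refine hF.comp (f := fun q : (Fin (n + 1) → ℝ) × CE n => ((fun i => (q.1 i : ℂ)), q.2.2))
    (Continuous.continuousOn (by fun_prop)) ?_
  rintro ⟨x, z⟩ ⟨-, hz⟩
  exact VV_real hδ hz x

private theorem par_fd (hF : DifferentiableOn ℂ F (Om n δ s)) (hδ : 0 < δ) (hy : y ∈ VV n s)
    (x : Fin (n + 1) → ℝ) :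
    HasFDerivAt (fun y : CE n => F (fun i => (x i : ℂ), y.2))
      ((fderiv ℂ F (fun i => (x i : ℂ), y.2)).comp
        ((0 : CE n →L[ℂ] (Fin (n + 1) → ℂ)).prod
          (ContinuousLinearMap.snd ℂ (Fin (n + 1) → ℂ) (Fin n → ℂ)))) y := by
  have h1 : DifferentiableAt ℂ F (fun i => (x i : ℂ), y.2) :=
    hF.differentiableAt ((isOpen_Om δ s).mem_nhds (VV_real hδ hy x))
  have h2 : HasFDerivAt (fun y : CE n => ((fun i => (x i : ℂ)), y.2))
      ((0 : CE n →L[ℂ] (Fin (n + 1) → ℂ)).prod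
          (ContinuousLinearMap.snd ℂ (Fin (n + 1) → ℂ) (Fin n → ℂ))) y :=
    (hasFDerivAt_const _ y).prodMk hasFDerivAt_snd
  exact h1.hasFDerivAt.comp y h2

private theorem slice_cont (hF : ContinuousOn F (Om n δ s)) (hδ : 0 < δ) (hy : y ∈ VV n s) :
    Continuous fun x : Fin (n + 1) → ℝ => F (fun i => (x i : ℂ), y.2) := by
  rw [← continuousOn_univ]
  refine hF.comp (f := fun x : Fin (n + 1) → ℝ => ((fun i => (x i : ℂ)), y.2))
    (Continuous.continuousOn (by fun_prop)) ?_
  intro x _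
  exact VV_real hδ hy x

private theorem slice_int (hF : ContinuousOn F (Om n δ s)) (hδ : 0 < δ) (hy : y ∈ VV n s) :
    IntegrableOn (fun x : Fin (n + 1) → ℝ => F (fun i => (x i : ℂ), y.2)) (Icc 0 1) :=
  (slice_cont hF hδ hy).continuousOn.integrableOn_compact isCompact_Icc

private theorem avg_hol (hF : DifferentiableOn ℂ F (Om n δ s)) (hδ : 0 < δ) :
    DifferentiableOn ℂ (avg F) (VV n s) ∧ ∀ y ∈ VV n s, ∀ v, fderiv ℂ (avg F) y v =
      ∫ x in Icc (0 : Fin (n + 1) → ℝ) 1,
        fderiv ℂ (fun y : CE n => F (fun i => (x i : ℂ), y.2)) y v := by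
  refine cube_hol (g := fun (x : Fin (n + 1) → ℝ) (y : CE n) => F (fun i => (x i : ℂ), y.2))
    (VV_open s) (par_cont hF.continuousOn hδ) ?_
  intro x _ z hz
  exact (par_fd hF hδ hz x).differentiableAt.differentiableWithinAt

private theorem vol_cube (n : ℕ) : volume (Icc (0 : Fin (n + 1) → ℝ) 1) = 1 := by
  rw [Real.volume_Icc_pi]
  simp

theorem avg_Zi (F : CE n → ℂ) : Zi (avg F) := by
  intro z z' h
  rfl

theorem avg_fn (hF : Fn δ s F) (hδ : 0 < δ) (δ' : ℝ) : Fn δ' s (avg F) := by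
  refine ⟨(avg_hol hF.hol hδ).1.mono fun y hy => hy.2, ?_, ?_⟩
  · intro i y
    change avg F (y.1 + Pi.single i 1, y.2 + 0) = avg F y
    rw [add_zero]
    rfl
  · intro y
    simp only [avg]
    rw [← integral_conj]
    refine integral_congr_ae (Filter.Eventually.of_forall fun x => ?_)
    change F (fun i => (x i : ℂ), (cj y).2) = conj (F (fun i => (x i : ℂ), y.2))
    rw [← hF.real]
    congr 1
    refine Prod.ext ?_ rfl
    funext i
    exact (Complex.conj_ofReal _).symm

theorem avg_bd (hb : Bd δ s c F) (hδ : 0 < δ) (δ' : ℝ) : Bd δ' s c (avg F) := by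
  intro y hy
  have h1 : ∀ x ∈ Icc (0 : Fin (n + 1) → ℝ) 1, ‖F (fun i => (x i : ℂ), y.2)‖ ≤ c :=
    fun x _ => hb _ (real_mem_Om hδ hy x)
  have h2 := norm_setIntegral_le_of_norm_le_const (μ := (volume : Measure (Fin (n + 1) → ℝ)))
    (s := Icc (0 : Fin (n + 1) → ℝ) 1) (by rw [vol_cube]; exact ENNReal.one_lt_top) h1
  simp only [avg]
  refine h2.trans (le_of_eq ?_)
  rw [measureReal_def, vol_cube]
  simp

theorem avg_dh (hF : Fn δ s F) (hδ : 0 < δ) (a : Fin n) (hy : y ∈ Om n δ' s) :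
    avg (dh a F) y = dh a (avg F) y := by
  have h1 := (avg_hol hF.hol hδ).2 y hy.2 (eh a)
  change avg (dh a F) y = fderiv ℂ (avg F) y (eh a)
  rw [h1]
  simp only [avg]
  refine integral_congr_ae (Filter.Eventually.of_forall fun x => ?_)
  change fderiv ℂ F (fun i => (x i : ℂ), y.2) (eh a) =
    fderiv ℂ (fun y : CE n => F (fun i => (x i : ℂ), y.2)) y (eh a)
  rw [(par_fd hF.hol hδ hy.2 x).fderiv]
  rfl

theorem avg_dz (hF : Fn δ s F) (hδ : 0 < δ) (i : Fin (n + 1)) (hy : y ∈ Om n δ' s) :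
    avg (dz i F) y = 0 := by
  have hV : IsOpen {ζ : ℂ | |ζ.im| < δ} := isOpen_lt (by fun_prop) continuous_const
  have hmem : ∀ (x : Fin (n + 1) → ℝ) (ζ : ℂ), |ζ.im| < δ →
      (((fun i => (x i : ℂ)) + ζ • Pi.single i 1, y.2) : CE n) ∈ Om n δ s := by
    intro x ζ hζ
    refine ⟨fun j => ?_, hy.2⟩
    by_cases hj : j = i
    · subst hj
      simpa using hζ
    · simpa [Pi.single_eq_of_ne hj] using hδ
  have hfd : ∀ (x : Fin (n + 1) → ℝ) (ζ : ℂ), |ζ.im| < δ →
      HasFDerivAt (fun ζ : ℂ => F ((fun i => (x i : ℂ)) + ζ • Pi.single i 1, y.2))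
        ((fderiv ℂ F ((fun i => (x i : ℂ)) + ζ • Pi.single i 1, y.2)).comp
          (((ContinuousLinearMap.id ℂ ℂ).smulRight (Pi.single i 1 : Fin (n + 1) → ℂ)).prod
            (0 : ℂ →L[ℂ] (Fin n → ℂ)))) ζ := by
    intro x ζ hζ
    have h1 := hF.dat (hmem x ζ hζ)
    have h2 : HasFDerivAt (fun ζ : ℂ => (((fun i => (x i : ℂ)) + ζ • Pi.single i 1, y.2) : CE n))
        (((ContinuousLinearMap.id ℂ ℂ).smulRight (Pi.single i 1 : Fin (n + 1) → ℂ)).prod
            (0 : ℂ →L[ℂ] (Fin n → ℂ))) ζ := by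
      refine HasFDerivAt.prodMk ?_ (hasFDerivAt_const _ ζ)
      exact ((hasFDerivAt_id ζ).smul_const (Pi.single i 1 : Fin (n + 1) → ℂ)).const_add _
    exact h1.hasFDerivAt.comp ζ h2
  have h3 := (cube_hol (E := ℂ)
    (g := fun (x : Fin (n + 1) → ℝ) (ζ : ℂ) => F ((fun i => (x i : ℂ)) + ζ • Pi.single i 1, y.2))
    (V := {ζ : ℂ | |ζ.im| < δ}) hV ?_ ?_).2 0 (by simpa using hδ) 1
  · have h4 : (fun ζ : ℂ => ∫ x in Icc (0 : Fin (n + 1) → ℝ) 1,
        F ((fun i => (x i : ℂ)) + ζ • Pi.single i 1, y.2)) =ᶠ[nhds 0]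
        fun _ => ∫ x in Icc (0 : Fin (n + 1) → ℝ) 1, F (fun i => (x i : ℂ), y.2) := by
      filter_upwards [hV.mem_nhds (show (0 : ℂ) ∈ {ζ : ℂ | |ζ.im| < δ} by simpa using hδ)]
        with ζ hζ
      refine cube_shift (g := fun z => F (z, y.2)) hδ ?_ ?_ ?_
      · intro z hz
        have h5 : DifferentiableAt ℂ F (z, y.2) := hF.dat ⟨hz, hy.2⟩
        have h6 : DifferentiableAt ℂ (fun z : Fin (n + 1) → ℂ => ((z, y.2) : CE n)) z :=
          differentiableAt_id.prodMk (differentiableAt_const _)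
        exact (DifferentiableAt.comp (g := F) z h5 h6).differentiableWithinAt
      · intro j z
        have h5 := hF.per j (z, y.2)
        have h6 : ((z, y.2) : CE n) + ez j = (z + Pi.single j 1, y.2) := by
          refine Prod.ext rfl ?_
          change y.2 + 0 = y.2
          rw [add_zero]
        rw [h6] at h5
        exact h5
      · intro j
        by_cases hj : j = i
        · subst hj
          simpa using hζ
        · simpa [Pi.single_eq_of_ne hj] using hδ
    rw [h4.fderiv_eq] at h3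
    simp only [fderiv_fun_const, Pi.zero_apply, zero_apply] at h3
    rw [h3]
    simp only [avg]
    refine integral_congr_ae (Filter.Eventually.of_forall fun x => ?_)
    change fderiv ℂ F (fun i => (x i : ℂ), y.2) (ez i) =
      fderiv ℂ (fun ζ : ℂ => F ((fun i => (x i : ℂ)) + ζ • Pi.single i 1, y.2)) 0 1
    rw [(hfd x 0 (by simpa using hδ)).fderiv]
    have h7 : ((fun i => (x i : ℂ)) + (0 : ℂ) • Pi.single i 1 : Fin (n + 1) → ℂ) =
        fun i => (x i : ℂ) := by
      rw [zero_smul, add_zero]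
    rw [h7]
    change _ = fderiv ℂ F (fun i => (x i : ℂ), y.2) ((1 : ℂ) • Pi.single i 1, 0)
    rw [one_smul]
    rfl
  · refine hF.cont.comp (f := fun q : (Fin (n + 1) → ℝ) × ℂ =>
      (((fun i => (q.1 i : ℂ)) + q.2 • Pi.single i 1, y.2) : CE n))
      (Continuous.continuousOn (by fun_prop)) ?_
    rintro ⟨x, ζ⟩ ⟨-, hζ⟩
    exact hmem x ζ hζ
  · intro x _ ζ hζ
    exact (hfd x ζ hζ).differentiableAt.differentiableWithinAt

theorem avg_DD (hF : Fn δ s F) (hδ : 0 < δ) (hy : y ∈ Om n δ' s) : avg (DD F) y = 0 := by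
  have h0 : ∀ i, avg (dz i F) y = 0 := fun i => avg_dz hF hδ i hy
  have hi : ∀ i, IntegrableOn (fun x : Fin (n + 1) → ℝ => dz i F (fun i => (x i : ℂ), y.2))
      (Icc 0 1) := fun i => slice_int (hF.dz i).cont hδ hy.2
  have h1 : avg (DD F) y = ∫ x in Icc (0 : Fin (n + 1) → ℝ) 1,
      (dz 0 F (fun i => (x i : ℂ), y.2) +
        ∑ a, y.2 a * dz a.succ F (fun i => (x i : ℂ), y.2)) := by
    simp only [avg]
    refine integral_congr_ae (Filter.Eventually.of_forall fun x => ?_)
    exact DD_eq F _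
  rw [h1, integral_add (hi 0) (integrable_finsetSum _ fun a _ => (hi a.succ).const_mul _),
    integral_finsetSum _ fun a _ => (hi a.succ).const_mul _]
  have h2 : ∫ x in Icc (0 : Fin (n + 1) → ℝ) 1, dz 0 F (fun i => (x i : ℂ), y.2) = 0 := h0 0
  rw [h2, zero_add]
  refine Finset.sum_eq_zero fun a _ => ?_
  rw [integral_const_mul]
  have h3 : ∫ x in Icc (0 : Fin (n + 1) → ℝ) 1, dz a.succ F (fun i => (x i : ℂ), y.2) = 0 :=
    h0 a.succ
  rw [h3, mul_zero]

theorem dz_avg (F : CE n → ℂ) (i : Fin (n + 1)) : dz i (avg F) y = 0 := by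
  exact Zi.dz (avg_Zi F) i

theorem DD_avg (F : CE n → ℂ) : DD (avg F) y = 0 := by
  exact Zi.DD (avg_Zi F)

theorem avg_add (hF : Fn δ s F) (hG : Fn δ s G) (hδ : 0 < δ) (hy : y ∈ Om n δ' s) :
    avg (fun y => F y + G y) y = avg F y + avg G y := by
  exact integral_add (slice_int hF.cont hδ hy.2) (slice_int hG.cont hδ hy.2)

theorem avg_sub (hF : Fn δ s F) (hG : Fn δ s G) (hδ : 0 < δ) (hy : y ∈ Om n δ' s) :
    avg (fun y => F y - G y) y = avg F y - avg G y := by
  exact integral_sub (slice_int hF.cont hδ hy.2) (slice_int hG.cont hδ hy.2)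

theorem avg_zmul (hG : Zi G) (F : CE n → ℂ) : avg (fun y => G y * F y) y = G y * avg F y := by
  have h1 : ∀ x : Fin (n + 1) → ℝ, G (fun i => (x i : ℂ), y.2) = G y := fun x => hG _ _ _
  simp only [avg, h1]
  rw [integral_const_mul]

theorem avg_zi (hG : Zi G) : avg G y = G y := by
  have h1 : ∀ x : Fin (n + 1) → ℝ, G (fun i => (x i : ℂ), y.2) = G y := fun x => hG _ _ _
  simp only [avg, h1]
  rw [setIntegral_const, measureReal_def, vol_cube]
  simp

/-- the mean of functions which agree on a domain -/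
theorem avg_congr (hδ : 0 < δ) (h : ∀ y ∈ Om n δ s, F y = G y) (hy : y ∈ Om n δ' s) :
    avg F y = avg G y := by
  refine setIntegral_congr_fun measurableSet_Icc fun x _ => ?_
  exact h _ (real_mem_Om hδ hy x)

end Pool.Agent.LRig
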