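import Pool.Agent.LRig.FP
import Pool.Agent.LRig.FD

/-!
# LR (MP_74f563_an, all n), file FW: the solution `w` of `D w = F - avg F` up to resonances

PROOF of `exists_w`.  For `k ∈ kB n K`, `k ≠ 0`: `w_k` from `exists_wk` if `Nz k`, and
`w_k = cf k F / (2πi k 0)` if not (`k 0 ≠ 0`, `dv k y = k 0`).  `w₀ = ∑ w_k ek k` (finite sum): by
`ek_DD` and `DD_mul` (`w_k` is `Zi`: `DD w_k = 0`)
`DD w₀ = ∑ 2πi (dv k) w_k ek k`
`= ∑_{k ≠ 0, |k| ≤ K} cf k F ek k - ∑_{Nz k, |k| ≤ K} cf k F (pk k y) ek k`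
and `avg F = cf 0 F ek 0`, so the identity holds for `w₀`.  `w₀` is holomorphic on
`Om n δ' (s/(n+1))` for
every `δ'`, periodic in `z`.  Reality: replace `w₀` by `w y = (w₀ y + conj (w₀ (cj y))) / 2`
(holomorphic: `DifferentiableOn` of `conj ∘ w₀ ∘ cj`; for the finite sum it is enough to treat
`w_k`, a function of several variables: the reflection of a holomorphic function is holomorphic:
from
`HasFDerivAt f L (cj y)` follows `HasFDerivAt (conj ∘ f ∘ cj) (conj ∘ L ∘ cj) y` with the
complex-linear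
map `v ↦ conj (L (cj v))`).  The identity for `w`: the right-hand side is real at real points in the
same sense: `conj` of the right-hand side at `cj y` is the right-hand side at `y` (`cf_conj`,
`pk_cj`,
`ek_conj`, the sets `kB n K`, `Nz` are invariant under `k ↦ -k`), and
`DD (conj ∘ w₀ ∘ cj) y = conj (DD w₀ (cj y))`.  Outside the domain `w₀` must be periodic and `w`
real
for all `y`: clear from the formulas.
-/

set_option autoImplicit false

namespace Pool.Agent.LRig

open Complex Set MeasureTheory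
open scoped ComplexConjugate

variable {n : ℕ} {δ s δ' s' c c' : ℝ} {F G : CE n → ℂ} {y : CE n}

open Classical in
/-- the resonances of order at most `K` -/
noncomputable def kR (n K : ℕ) : Finset (Fin (n + 1) → ℤ) := (kB n K).filter Nz

theorem mem_kR {K : ℕ} {k : Fin (n + 1) → ℤ} : k ∈ kR n K ↔ nk k ≤ K ∧ Nz k := by
  classical
  rw [kR, Finset.mem_filter, mem_kB]

private theorem fw_cj_add (a b : CE n) : cj (a + b) = cj a + cj b := by
  refine Prod.ext (funext fun i => ?_) (funext fun i => ?_) <;> simp [cj]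

private theorem fw_cj_smul (r : ℂ) (a : CE n) : cj (r • a) = conj r • cj a := by
  refine Prod.ext (funext fun i => ?_) (funext fun i => ?_) <;> simp [cj]

private theorem fw_cj_rsmul (r : ℝ) (a : CE n) : cj (r • a) = r • cj a := by
  refine Prod.ext (funext fun i => ?_) (funext fun i => ?_) <;> simp [cj]

private noncomputable def fwL (n : ℕ) : CE n →L[ℝ] CE n :=
  LinearMap.toContinuousLinearMap
    { toFun := cj
      map_add' := fw_cj_add
      map_smul' := fw_cj_rsmul }

private theorem fw_refl {f : CE n → ℂ} {t : ℝ} (hf : DifferentiableOn ℂ f (Om n δ t)) :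
    DifferentiableOn ℂ (fun y => conj (f (cj y))) (Om n δ t) := by
  intro y hy
  have h1 : HasFDerivAt f (fderiv ℂ f (cj y)) (cj y) :=
    ((hf _ (cj_mem hy)).differentiableAt ((isOpen_Om _ _).mem_nhds (cj_mem hy))).hasFDerivAt
  obtain ⟨L, hL⟩ : ∃ L, L = fderiv ℂ f (cj y) := ⟨_, rfl⟩
  rw [← hL] at h1
  have h0 : HasFDerivAt (fun y : CE n => cj y) (fwL n) y := (fwL n).hasFDerivAt
  have h2 : HasFDerivAt (fun y => conj (f (cj y)))
      ((Complex.conjCLE : ℂ →L[ℝ] ℂ).comp ((L.restrictScalars ℝ).comp (fwL n))) y :=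
    (Complex.conjCLE : ℂ →L[ℝ] ℂ).hasFDerivAt.comp y ((h1.restrictScalars ℝ).comp y h0)
  let L' : CE n →L[ℂ] ℂ := LinearMap.toContinuousLinearMap
    { toFun := fun v => conj (L (cj v))
      map_add' := fun a b => by rw [fw_cj_add, map_add, map_add]
      map_smul' := fun r a => by
        rw [fw_cj_smul, map_smul, smul_eq_mul, map_mul, Complex.conj_conj]
        rfl }
  have h3 : L'.restrictScalars ℝ =
      (Complex.conjCLE : ℂ →L[ℝ] ℂ).comp ((L.restrictScalars ℝ).comp (fwL n)) := by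
    ext v <;> rfl
  exact (hasFDerivAt_of_restrictScalars ℝ h2 h3).differentiableAt.differentiableWithinAt

private theorem fw_nz_neg {k : Fin (n + 1) → ℤ} : Nz (-k) ↔ Nz k := by
  constructor
  · rintro ⟨a, ha⟩
    exact ⟨a, fun h => ha (by rw [Pi.neg_apply, h, neg_zero])⟩
  · rintro ⟨a, ha⟩
    exact ⟨a, fun h => ha (by rw [Pi.neg_apply] at h; exact neg_eq_zero.1 h)⟩

private theorem fw_nk_neg (k : Fin (n + 1) → ℤ) : nk (-k) = nk k := by
  unfold nk
  refine Finset.sum_congr rfl fun i _ => ?_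
  rw [Pi.neg_apply, Int.natAbs_neg]

private theorem fw_le (hs : 0 < s) : s / ((n : ℝ) + 1) ≤ s := by
  apply div_le_self hs.le
  have : (0 : ℝ) ≤ n := Nat.cast_nonneg n
  linarith

open Classical in
private theorem fw_W (hF : Fn δ s F) (hδ : 0 < δ) (hs : 0 < s) (k : Fin (n + 1) → ℤ)
    (hk : k ≠ 0) : ∃ w : CE n → ℂ, Zi w ∧
    (∀ δ', DifferentiableOn ℂ w (Om n δ' (s / (n + 1)))) ∧
    ∀ y ∈ Om n δ (s / (n + 1)), 2 * Real.pi * I * dv k y * w y =
      cf k F y - (if Nz k then cf k F (pk k y) else 0) := by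
  by_cases h : Nz k
  · obtain ⟨w, h1, h2, h3⟩ := exists_wk hF hδ hs h
    refine ⟨w, h1, h2, fun y hy => ?_⟩
    rw [if_pos h]
    exact h3 y hy
  · have h0 : k 0 ≠ 0 := by
      intro h0
      apply hk
      funext i
      refine Fin.cases h0 (fun a => ?_) i
      by_contra hc
      exact h ⟨a, hc⟩
    have h1 : (2 * Real.pi * I * (k 0 : ℂ)) ≠ 0 := by
      have h2 : (Real.pi : ℂ) ≠ 0 := by
        exact_mod_cast Real.pi_ne_zero
      have h3 : ((k 0 : ℤ) : ℂ) ≠ 0 := by
        exact_mod_cast h0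
      exact mul_ne_zero (mul_ne_zero (mul_ne_zero two_ne_zero h2) I_ne_zero) h3
    refine ⟨fun y => cf k F y / (2 * Real.pi * I * (k 0 : ℂ)), ?_, ?_, ?_⟩
    · intro z z' x
      show cf k F (z, x) / _ = cf k F (z', x) / _
      rw [cf_Zi k F z z' x]
    · intro δ'
      have h2 : DifferentiableOn ℂ (cf k F) (Om n δ' (s / (n + 1))) :=
        (cf_hol hF hδ k δ').mono (Om_mono le_rfl (fw_le hs))
      exact h2.mul_const (2 * Real.pi * I * (k 0 : ℂ))⁻¹
    · intro y _
      rw [if_neg h, sub_zero, dv_of_not_Nz h]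
      show 2 * Real.pi * I * (k 0 : ℂ) * (cf k F y / (2 * Real.pi * I * (k 0 : ℂ))) = _
      exact mul_div_cancel₀ _ h1

open Classical in
private theorem fw_U (hF : Fn δ s F) (hδ : 0 < δ) (hs : 0 < s) :
    ∃ U : (Fin (n + 1) → ℤ) → CE n → ℂ, (∀ k, Zi (U k)) ∧
    (∀ k δ', DifferentiableOn ℂ (U k) (Om n δ' (s / (n + 1)))) ∧
    (∀ k, k ≠ 0 → ∀ y ∈ Om n δ (s / (n + 1)), 2 * Real.pi * I * dv k y * U k y =
      cf k F y - (if Nz k then cf k F (pk k y) else 0)) ∧
    ∀ k y, U (-k) (cj y) = conj (U k y) := by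
  have h : ∀ k : Fin (n + 1) → ℤ, ∃ w : CE n → ℂ, Zi w ∧
      (∀ δ', DifferentiableOn ℂ w (Om n δ' (s / (n + 1)))) ∧
      (k ≠ 0 → ∀ y ∈ Om n δ (s / (n + 1)), 2 * Real.pi * I * dv k y * w y =
        cf k F y - (if Nz k then cf k F (pk k y) else 0)) := by
    intro k
    by_cases hk : k = 0
    · exact ⟨fun _ => 0, fun _ _ _ => rfl, fun _ => differentiableOn_const 0,
        fun h => absurd hk h⟩
    · obtain ⟨w, h1, h2, h3⟩ := fw_W hF hδ hs k hk
      exact ⟨w, h1, h2, fun _ => h3⟩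
  choose W hZ hD hE using h
  refine ⟨fun k y => (W k y + conj (W (-k) (cj y))) / 2, ?_, ?_, ?_, ?_⟩
  · intro k z z' x
    show (W k (z, x) + conj (W (-k) (cj (z, x)))) / 2 =
      (W k (z', x) + conj (W (-k) (cj (z', x)))) / 2
    rw [hZ k z z' x]
    have h1 : W (-k) (cj (z, x)) = W (-k) (cj (z', x)) := hZ (-k) _ _ _
    rw [h1]
  · intro k δ'
    exact ((hD k δ').add (fw_refl (hD (-k) δ'))).mul_const (2 : ℂ)⁻¹
  · intro k hk y hy
    have h1 := hE k hk y hy
    have hk' : -k ≠ 0 := neg_ne_zero.2 hk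
    have h2 := hE (-k) hk' (cj y) (cj_mem hy)
    rw [dv_neg, dv_cj, cf_conj hF, pk_cj, cf_conj hF] at h2
    have h3 := congrArg (fun z => conj z) h2
    simp only [map_mul, map_sub, map_neg, Complex.conj_conj, Complex.conj_I,
      Complex.conj_ofReal, map_ofNat] at h3
    have h4 : conj (if Nz (-k) then conj (cf k F (pk k y)) else 0) =
        if Nz k then cf k F (pk k y) else 0 := by
      by_cases h : Nz k
      · rw [if_pos (fw_nz_neg.2 h), if_pos h, Complex.conj_conj]
      · rw [if_neg (fun h' => h (fw_nz_neg.1 h')), if_neg h, map_zero]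
    rw [h4] at h3
    show 2 * Real.pi * I * dv k y * ((W k y + conj (W (-k) (cj y))) / 2) = _
    linear_combination (1 / 2 : ℂ) * h1 + (1 / 2 : ℂ) * h3
  · intro k y
    show (W (-k) (cj y) + conj (W (- -k) (cj (cj y)))) / 2 =
      conj ((W k y + conj (W (-k) (cj y))) / 2)
    rw [neg_neg, cj_cj, map_div₀, map_add, Complex.conj_conj, map_ofNat, add_comm]

theorem exists_w (hF : Fn δ s F) (hδ : 0 < δ) (hs : 0 < s) (K : ℕ) : ∃ w : CE n → ℂ,
    (∀ δ', Fn δ' (s / (n + 1)) w) ∧ ∀ y ∈ Om n δ (s / (n + 1)),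
      DD w y - F y + avg F y = -∑ k ∈ kR n K, cf k F (pk k y) * ek k y -
        (F y - ∑ k ∈ kB n K, cf k F y * ek k y) := by
  classical
  obtain ⟨U, hZ, hD, hE, hC⟩ := fw_U hF hδ hs
  have hmem : ∀ k ∈ (kB n K).erase 0, -k ∈ (kB n K).erase 0 := by
    intro k hk
    rw [Finset.mem_erase, mem_kB] at hk ⊢
    exact ⟨neg_ne_zero.2 hk.1, by rw [fw_nk_neg]; exact hk.2⟩
  refine ⟨fun y => ∑ k ∈ (kB n K).erase 0, U k y * ek k y, ?_, ?_⟩
  · intro δ'
    refine ⟨?_, ?_, ?_⟩
    · exact DifferentiableOn.fun_sum fun k _ => (hD k δ').mul (ek_diff k).differentiableOn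
    · intro i y
      refine Finset.sum_congr rfl fun k _ => ?_
      have h1 : U k (y + ez i) = U k y := by
        have h2 : y + ez i = ((y + ez i).1, y.2) := by
          refine Prod.ext rfl ?_
          show y.2 + 0 = y.2
          exact add_zero _
        rw [h2]
        exact hZ k _ _ _
      rw [h1, ek_per]
    · intro y
      rw [map_sum]
      refine Finset.sum_nbij' (fun k => -k) (fun k => -k) hmem hmem (fun k _ => neg_neg k)
        (fun k _ => neg_neg k) fun k _ => ?_
      have h1 := hC (-k) y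
      have h2 := ek_conj (y := y) (-k)
      rw [neg_neg] at h1 h2
      rw [h1, h2, map_mul]
  · intro y hy
    have hU : ∀ k, DifferentiableAt ℂ (U k) y := fun k =>
      (hD k δ y hy).differentiableAt ((isOpen_Om _ _).mem_nhds hy)
    have h1 : DD (fun y => ∑ k ∈ (kB n K).erase 0, U k y * ek k y) y =
        ∑ k ∈ (kB n K).erase 0, (cf k F y - (if Nz k then cf k F (pk k y) else 0)) * ek k y := by
      rw [DD_sum (f := fun k y => U k y * ek k y)
        fun k _ => (hU k).mul (ek_diff k).differentiableAt]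
      refine Finset.sum_congr rfl fun k hk => ?_
      rw [DD_mul (hU k) (ek_diff k).differentiableAt, (hZ k).DD, ek_DD,
        ← hE k (Finset.mem_erase.1 hk).1 y hy]
      ring
    rw [h1]
    have h0 : (0 : Fin (n + 1) → ℤ) ∈ kB n K := by
      rw [mem_kB]
      have : nk (0 : Fin (n + 1) → ℤ) = 0 := by simp [nk]
      rw [this]
      exact Nat.zero_le _
    have h2 : ∑ k ∈ kB n K, cf k F y * ek k y =
        avg F y + ∑ k ∈ (kB n K).erase 0, cf k F y * ek k y := by
      rw [← Finset.add_sum_erase _ _ h0, cf_zero]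
      have : ek (0 : Fin (n + 1) → ℤ) y = 1 := by simp [ek, kz]
      rw [this, mul_one]
    have h3 : ∑ k ∈ kR n K, cf k F (pk k y) * ek k y =
        ∑ k ∈ (kB n K).erase 0, (if Nz k then cf k F (pk k y) else 0) * ek k y := by
      have h4 : kR n K = ((kB n K).erase 0).filter Nz := by
        ext k
        rw [mem_kR, Finset.mem_filter, Finset.mem_erase, mem_kB]
        constructor
        · rintro ⟨h5, h6⟩
          refine ⟨⟨?_, h5⟩, h6⟩
          rintro rfl
          obtain ⟨a, ha⟩ := h6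
          exact ha rfl
        · rintro ⟨⟨_, h5⟩, h6⟩
          exact ⟨h5, h6⟩
      rw [h4, Finset.sum_filter]
      refine Finset.sum_congr rfl fun k _ => ?_
      split_ifs
      · rfl
      · rw [zero_mul]
    rw [h2, h3]
    simp only [sub_mul, Finset.sum_sub_distrib]
    ring

end Pool.Agent.LRig
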