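import Pool.Agent.LRig.FB
import Pool.Agent.LRig.FV

/-!
# LR (MP_74f563_an, all n), file IA: the composition with `Ψ`

PROOFS.  `Ps_mem`: for `y ∈ Om n δ s`: `|Im (y.1 0)| < δ ≤ σ/8`; `|Im X_a| < δ + b ≤ σ/8 + σ/64`;
`|Im Q_a| ≤ ∑_b |A_ab| |Im h_b| + b ≤ n M s + b ≤ σ/8 + σ/64` (`A` is real), all `< σ/4`.
`Ps (y + ez i) = Ps y + ez i` (`u`, `q` are periodic), `Ps (cj y) = cj (Ps y)` (`A` real); this and
the
chain rule give `comp_fn`.  The chain rules: `Ps` is differentiable at `y`; its derivative in the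
direction `v` is
`(Fin.cons (v.1 0) fun a => fderiv ℂ (Xf u a) y v, fun a => fderiv ℂ (Qf A q a) y v)`;
then `fderiv_coord` (file FB) for `G` at `Ps y`.
`dz_X`, ..: sums of a coordinate function and `u` (file FR).
-/

set_option autoImplicit false

namespace Pool.Agent.LRig

open Complex Set MeasureTheory

variable {n : ℕ} {A B : Matrix (Fin n) (Fin n) ℝ} {M σ δ s b ε : ℝ} {R G w : CE n → ℂ}
  {u q : Fin n → CE n → ℂ} {y : CE n}

private theorem small_b (hc : Ctx A B M σ R) (hs : St A B M σ R δ s b ε u q) : b ≤ σ / 64 := by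
  refine hs.b_le.trans ?_
  unfold b0
  have h1 := hc.M_ge
  have h2 : (1 : ℝ) ≤ ((n : ℝ) + 1) ^ 2 := by
    have : (0 : ℝ) ≤ n := Nat.cast_nonneg n
    nlinarith
  refine div_le_div_of_nonneg_left hc.σ_pos.le (by norm_num) ?_
  nlinarith

private theorem nMs (hc : Ctx A B M σ R) (hs : St A B M σ R δ s b ε u q) :
    (n : ℝ) * (M * s) ≤ σ / 8 := by
  have h1 := hs.s_le
  have h2 : 0 ≤ M * s := mul_nonneg (by linarith [hc.M_ge]) hs.s_pos.le
  linarith

private theorem re_ofReal_mul' (A : Matrix (Fin n) (Fin n) ℝ) (a c : Fin n) (y : CE n) :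
    |((A a c : ℂ) * y.2 c).im| = |A a c| * |(y.2 c).im| := by
  rw [im_ofReal_mul, abs_mul]

theorem Ps_mem (hc : Ctx A B M σ R) (hs : St A B M σ R δ s b ε u q) (hy : y ∈ Om n δ s) :
    Ps A u q y ∈ Om n (σ / 4) (σ / 4) := by
  have hσ := hc.σ_pos
  have hb := small_b hc hs
  have hδ := hs.δ_le
  refine ⟨fun i => ?_, fun a => ?_⟩
  · refine Fin.cases ?_ (fun a => ?_) i
    · change |(y.1 0).im| < σ / 4
      have h1 := hy.1 0
      linarith
    · change |(y.1 a.succ + u a y).im| < σ / 4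
      rw [add_im]
      have h1 := abs_add_le (y.1 a.succ).im (u a y).im
      have h2 := abs_im_le_norm (u a y)
      have h3 := hs.u0 a y hy
      have h4 := hy.1 a.succ
      linarith
  · change |(∑ c, (A a c : ℂ) * y.2 c + q a y).im| < σ / 4
    rw [add_im, im_sum]
    have h1 := abs_add_le (∑ c, ((A a c : ℂ) * y.2 c).im) (q a y).im
    have h2 := abs_im_le_norm (q a y)
    have h3 := hs.q0 a y hy
    have h4 : |∑ c, ((A a c : ℂ) * y.2 c).im| ≤ n * (M * s) := by
      refine (Finset.abs_sum_le_sum_abs _ _).trans ?_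
      have h5 : ∑ c : Fin n, |((A a c : ℂ) * y.2 c).im| ≤ ∑ _c : Fin n, M * s := by
        refine Finset.sum_le_sum fun c _ => ?_
        rw [re_ofReal_mul' A a c y]
        exact mul_le_mul (hc.A_le a c) (hy.2 c).le (abs_nonneg _) (by linarith [hc.M_ge])
      rw [Finset.sum_const, Finset.card_univ, Fintype.card_fin, nsmul_eq_mul] at h5
      exact h5
    have h5 := nMs hc hs
    linarith

private theorem Ps_add (hs : St A B M σ R δ s b ε u q) (i : Fin (n + 1)) (y : CE n) :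
    Ps A u q (y + ez i) = Ps A u q y + ez i := by
  refine Prod.ext (funext fun j => ?_) (funext fun a => ?_)
  · refine Fin.cases ?_ (fun a => ?_) j
    · rfl
    · change (y.1 a.succ + (Pi.single i (1 : ℂ) : Fin (n + 1) → ℂ) a.succ) + u a (y + ez i) =
        (y.1 a.succ + u a y) + (Pi.single i (1 : ℂ) : Fin (n + 1) → ℂ) a.succ
      rw [(hs.ufn a).per]
      ring
  · change ∑ c, (A a c : ℂ) * (y.2 c + (0 : Fin n → ℂ) c) + q a (y + ez i) =
      (∑ c, (A a c : ℂ) * y.2 c + q a y) + (0 : Fin n → ℂ) a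
    rw [(hs.qfn a).per]
    simp only [Pi.zero_apply, add_zero]

private theorem Ps_cj (hs : St A B M σ R δ s b ε u q) (y : CE n) :
    Ps A u q (cj y) = cj (Ps A u q y) := by
  refine Prod.ext (funext fun j => ?_) (funext fun a => ?_)
  · refine Fin.cases ?_ (fun a => ?_) j
    · rfl
    · change starRingEnd ℂ (y.1 a.succ) + u a (cj y) = starRingEnd ℂ (y.1 a.succ + u a y)
      rw [(hs.ufn a).real, map_add]
  · change ∑ c, (A a c : ℂ) * starRingEnd ℂ (y.2 c) + q a (cj y) =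
      starRingEnd ℂ (∑ c, (A a c : ℂ) * y.2 c + q a y)
    rw [(hs.qfn a).real, map_add, map_sum]
    congr 1
    refine Finset.sum_congr rfl fun c _ => ?_
    rw [map_mul, conj_ofReal]

private theorem X_dat (hs : St A B M σ R δ s b ε u q) (c : Fin n) (hy : y ∈ Om n δ s) :
    DifferentiableAt ℂ (Xf u c) y := by
  have h1 : DifferentiableAt ℂ (fun y : CE n => y.1 c.succ) y := by fun_prop
  exact h1.add ((hs.ufn c).dat hy)

private theorem Q_dat (hs : St A B M σ R δ s b ε u q) (c : Fin n) (hy : y ∈ Om n δ s) :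
    DifferentiableAt ℂ (Qf A q c) y := by
  have h1 : DifferentiableAt ℂ (fun y : CE n => ∑ b, (A c b : ℂ) * y.2 b) y := by fun_prop
  exact h1.add ((hs.qfn c).dat hy)

private theorem Ps_has (hs : St A B M σ R δ s b ε u q) (hy : y ∈ Om n δ s) :
    ∃ L : CE n →L[ℂ] CE n, HasFDerivAt (Ps A u q) L y ∧ ∀ v : CE n, L v =
      (Fin.cons (v.1 0) fun a => fderiv ℂ (Xf u a) y v, fun a => fderiv ℂ (Qf A q a) y v) := by
  obtain ⟨P0, hP0⟩ : ∃ P0 : CE n →L[ℂ] ℂ, P0 =
      (ContinuousLinearMap.proj (0 : Fin (n + 1))).comp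
        (ContinuousLinearMap.fst ℂ (Fin (n + 1) → ℂ) (Fin n → ℂ)) := ⟨_, rfl⟩
  obtain ⟨L1, hL1⟩ : ∃ L1 : Fin (n + 1) → CE n →L[ℂ] ℂ, L1 =
      Fin.cons P0 fun a => fderiv ℂ (Xf u a) y := ⟨_, rfl⟩
  have e0 : L1 0 = P0 := by rw [hL1]; rfl
  have e1 : ∀ a, L1 (Fin.succ a) = fderiv ℂ (Xf u a) y := fun a => by rw [hL1]; rfl
  refine ⟨(ContinuousLinearMap.pi L1).prod
    (ContinuousLinearMap.pi fun a => fderiv ℂ (Qf A q a) y), ?_, ?_⟩
  · refine HasFDerivAt.prodMk (hasFDerivAt_pi.2 fun i => ?_)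
      (hasFDerivAt_pi.2 fun a => (Q_dat hs a hy).hasFDerivAt)
    refine Fin.cases ?_ (fun a => ?_) i
    · rw [e0, hP0]
      exact ((ContinuousLinearMap.proj (R := ℂ) (φ := fun _ : Fin (n + 1) => ℂ) 0).comp
        (ContinuousLinearMap.fst ℂ (Fin (n + 1) → ℂ) (Fin n → ℂ))).hasFDerivAt
    · rw [e1]
      exact (X_dat hs a hy).hasFDerivAt
  · intro v
    refine Prod.ext (funext fun j => ?_) rfl
    change L1 j v = _
    refine Fin.cases ?_ (fun a => ?_) j
    · rw [e0, hP0]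
      rfl
    · rw [e1]
      rfl

private theorem G_dat (hc : Ctx A B M σ R) (hs : St A B M σ R δ s b ε u q) (hG : Fn σ σ G)
    (hy : y ∈ Om n δ s) : DifferentiableAt ℂ G (Ps A u q y) := by
  have hσ := hc.σ_pos
  exact hG.dat (Om_mono (by linarith) (by linarith) (Ps_mem hc hs hy))

theorem comp_fn (hc : Ctx A B M σ R) (hs : St A B M σ R δ s b ε u q) (hG : Fn σ σ G) :
    Fn δ s fun y => G (Ps A u q y) := by
  refine ⟨fun y hy => ?_, fun i y => ?_, fun y => ?_⟩
  · obtain ⟨L, hL, -⟩ := Ps_has hs hy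
    exact ((G_dat hc hs hG hy).comp y hL.differentiableAt).differentiableWithinAt
  · rw [Ps_add hs, hG.per]
  · rw [Ps_cj hs, hG.real]

/-! ## Derivatives of the positions and momenta -/

theorem dz_X (hs : St A B M σ R δ s b ε u q) (i : Fin (n + 1)) (c : Fin n) (hy : y ∈ Om n δ s) :
    dz i (Xf u c) y = (if i = c.succ then 1 else 0) + dz i (u c) y := by
  have h1 : DifferentiableAt ℂ (fun y : CE n => y.1 c.succ) y := by fun_prop
  rw [← dz_z (y := y)]
  exact dz_add i h1 ((hs.ufn c).dat hy)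

theorem dh_X (hs : St A B M σ R δ s b ε u q) (a c : Fin n) (hy : y ∈ Om n δ s) :
    dh a (Xf u c) y = dh a (u c) y := by
  have h1 : DifferentiableAt ℂ (fun y : CE n => y.1 c.succ) y := by fun_prop
  have h2 := dh_add a h1 ((hs.ufn c).dat hy)
  rw [dh_z, zero_add] at h2
  exact h2

theorem DD_X (hs : St A B M σ R δ s b ε u q) (c : Fin n) (hy : y ∈ Om n δ s) :
    DD (Xf u c) y = y.2 c + DD (u c) y := by
  have h1 : DifferentiableAt ℂ (fun y : CE n => y.1 c.succ) y := by fun_prop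
  rw [← DD_z (y := y)]
  exact DD_add h1 ((hs.ufn c).dat hy)

theorem dz_Q (hs : St A B M σ R δ s b ε u q) (i : Fin (n + 1)) (c : Fin n) (hy : y ∈ Om n δ s) :
    dz i (Qf A q c) y = dz i (q c) y := by
  have h1 : DifferentiableAt ℂ (fun y : CE n => ∑ b, (A c b : ℂ) * y.2 b) y := by fun_prop
  have h2 := dz_add i h1 ((hs.qfn c).dat hy)
  have h3 : dz i (fun y : CE n => ∑ b, (A c b : ℂ) * y.2 b) y = 0 := by
    rw [dz_sum i fun b _ => by fun_prop]
    refine Finset.sum_eq_zero fun b _ => ?_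
    rw [dz_cmul, dz_h, mul_zero]
  rw [h3, zero_add] at h2
  exact h2

theorem dh_Q (hs : St A B M σ R δ s b ε u q) (a c : Fin n) (hy : y ∈ Om n δ s) :
    dh a (Qf A q c) y = A c a + dh a (q c) y := by
  have h1 : DifferentiableAt ℂ (fun y : CE n => ∑ b, (A c b : ℂ) * y.2 b) y := by fun_prop
  have h2 := dh_add a h1 ((hs.qfn c).dat hy)
  have h3 : dh a (fun y : CE n => ∑ b, (A c b : ℂ) * y.2 b) y = A c a := by
    rw [dh_sum a fun b _ => by fun_prop, Finset.sum_eq_single a]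
    · rw [dh_cmul, dh_h, if_pos rfl, mul_one]
    · intro b _ hb
      rw [dh_cmul, dh_h, if_neg hb.symm, mul_zero]
    · intro h
      exact absurd (Finset.mem_univ a) h
  rw [h3] at h2
  exact h2

theorem DD_Q (hs : St A B M σ R δ s b ε u q) (c : Fin n) (hy : y ∈ Om n δ s) :
    DD (Qf A q c) y = DD (q c) y := by
  have h1 : DifferentiableAt ℂ (fun y : CE n => ∑ b, (A c b : ℂ) * y.2 b) y := by fun_prop
  have h2 := DD_add h1 ((hs.qfn c).dat hy)
  have h3 : DD (fun y : CE n => ∑ b, (A c b : ℂ) * y.2 b) y = 0 := by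
    rw [DD_sum fun b _ => by fun_prop]
    refine Finset.sum_eq_zero fun b _ => ?_
    rw [DD_cmul, DD_h, mul_zero]
  rw [h3, zero_add] at h2
  exact h2

/-! ## Chain rules -/

private theorem chain (hc : Ctx A B M σ R) (hs : St A B M σ R δ s b ε u q) (hG : Fn σ σ G)
    (v : CE n) (hy : y ∈ Om n δ s) :
    fderiv ℂ (fun y => G (Ps A u q y)) y v = v.1 0 * dz 0 G (Ps A u q y) +
      ∑ c, dz c.succ G (Ps A u q y) * fderiv ℂ (Xf u c) y v +
        ∑ c, dh c G (Ps A u q y) * fderiv ℂ (Qf A q c) y v := by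
  obtain ⟨L, hL, hLv⟩ := Ps_has hs hy
  have h1 : HasFDerivAt (fun y => G (Ps A u q y)) ((fderiv ℂ G (Ps A u q y)).comp L) y :=
    (G_dat hc hs hG hy).hasFDerivAt.comp y hL
  rw [h1.fderiv]
  change fderiv ℂ G (Ps A u q y) (L v) = _
  rw [fderiv_coord, hLv, Fin.sum_univ_succ]
  congr 1
  · congr 1
    refine Finset.sum_congr rfl fun c _ => ?_
    rw [mul_comm]
    rfl
  · refine Finset.sum_congr rfl fun c _ => ?_
    rw [mul_comm]

theorem dz_comp (hc : Ctx A B M σ R) (hs : St A B M σ R δ s b ε u q) (hG : Fn σ σ G)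
    (a : Fin n) (hy : y ∈ Om n δ s) :
    dz a.succ (fun y => G (Ps A u q y)) y =
      ∑ c, dz c.succ G (Ps A u q y) * dz a.succ (Xf u c) y +
        ∑ c, dh c G (Ps A u q y) * dz a.succ (Qf A q c) y := by
  have h1 := chain hc hs hG (ez a.succ) hy
  have h2 : (ez a.succ : CE n).1 0 = 0 := by
    change (Pi.single a.succ (1 : ℂ) : Fin (n + 1) → ℂ) 0 = 0
    rw [Pi.single_apply, if_neg (Fin.succ_ne_zero a).symm]
  rw [h2, zero_mul, zero_add] at h1
  exact h1

theorem dh_comp (hc : Ctx A B M σ R) (hs : St A B M σ R δ s b ε u q) (hG : Fn σ σ G)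
    (a : Fin n) (hy : y ∈ Om n δ s) :
    dh a (fun y => G (Ps A u q y)) y =
      ∑ c, dz c.succ G (Ps A u q y) * dh a (Xf u c) y +
        ∑ c, dh c G (Ps A u q y) * dh a (Qf A q c) y := by
  have h1 := chain hc hs hG (eh a) hy
  have h2 : (eh a : CE n).1 0 = 0 := rfl
  rw [h2, zero_mul, zero_add] at h1
  exact h1

theorem DD_comp (hc : Ctx A B M σ R) (hs : St A B M σ R δ s b ε u q) (hG : Fn σ σ G)
    (hy : y ∈ Om n δ s) :
    DD (fun y => G (Ps A u q y)) y = dz 0 G (Ps A u q y) +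
      ∑ c, dz c.succ G (Ps A u q y) * DD (Xf u c) y +
        ∑ c, dh c G (Ps A u q y) * DD (Qf A q c) y := by
  have h1 := chain hc hs hG (hh y.2, 0) hy
  have h2 : ((hh y.2, 0) : CE n).1 0 = 1 := rfl
  rw [h2, one_mul] at h1
  exact h1

end Pool.Agent.LRig
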