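import Pool.Agent.LRig.IE

/-!
# LR (MP_74f563_an, all n), file IB: the conservation laws

All identities hold on `Om n δ s`, where all functions are holomorphic.  Write `∂_a = dz a.succ`,
`η_a = dh a`, `D = DD`, `R_{x b} = dz b.succ R (Ps)`, `R_{p b} = dh b R (Ps)`, `Λ = Lm`.

PROOF of `dz_Lm`. 
`∂_a Λ = ∑ ∂_a q_b D u_b + ∑ q_b ∂_a D u_b - ∑_b (∑_c B_bc q_c) ∂_a q_b - ∂_a (R ∘ Ψ)`
(`B` is symmetric: `B = A⁻¹`, `A` symmetric) and
`∂_a (R ∘ Ψ) = ∑ R_{x b} ∂_a X_b + ∑ R_{p b} ∂_a q_b` (`dz_comp`, `dz_Q`).  With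
`D u_b = E1 b + ∑ B_bc q_c + R_{p b}` the terms with `∂_a q_b` give `∑ ∂_a q_b E1 b`.  With
`R_{x b} = E2 b - D q_b`: `-∑ R_{x b} ∂_a X_b = -E2 a - ∑ E2 b ∂_a u_b + D q_a + ∑ D q_b ∂_a u_b`
(`dz_X`: `∂_a X_b = δ_ab + ∂_a u_b`), and `∑ q_b ∂_a D u_b + ∑ D q_b ∂_a u_b = D (∑ q_b ∂_a u_b)`
(`dz_DD`, `DD_mul`).
PROOF of `DD_HH`.  `D H_a = D ∂_a w + 0 - D q_a - D (∑ q_b ∂_a u_b)` (`gg` is `Zi`), and
`D ∂_a w = ∂_a D w = ∂_a (Z + Λ - avg Λ) = ∂_a Z + ∂_a Λ` (`dz_avg`); insert `dz_Lm`.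
PROOF of `dh_Lm`: the same computation with `η_a`:
`η_a Λ = ∑ η_a q_b D u_b + ∑ q_b η_a D u_b - ∑_b (∑_c B_bc q_c) η_a q_b - ∑ R_{x b} η_a X_b`
`- ∑ R_{p b} η_a Q_b`,
`η_a X_b = η_a u_b`, `η_a Q_b = A_ba + η_a q_b`, `η_a D u_b = D η_a u_b + ∂_a u_b` (`dh_DD`).
PROOF of `DD_KK`.  `D K_a = D η_a w + ∑ A_ba D u_b - D (∑ q_b η_a u_b)`,
`D η_a w = η_a D w - ∂_a w = η_a Z + η_a Λ - η_a (avg Λ) - ∂_a w` and `η_a (avg Λ) = gg a`.  Insert
`dh_Lm`; `∑ A_ba (D u_b - R_{p b}) = ∑ A_ba E1 b + ∑_b A_ba ∑_c B_bc q_c = ∑ A_ba E1 b + q_a`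
(`A` symmetric, `A B = 1`); the remaining terms are
`-(gg a + ∂_a w - q_a - ∑ q_b ∂_a u_b) = -H_a`.
-/

set_option autoImplicit false

namespace Pool.Agent.LRig

open Complex Set MeasureTheory

variable {n : ℕ} {A B : Matrix (Fin n) (Fin n) ℝ} {M σ δ s b ε : ℝ} {R G w : CE n → ℂ}
  {u q : Fin n → CE n → ℂ} {y : CE n}

theorem B_symm (hc : Ctx A B M σ R) (i j : Fin n) : B i j = B j i := by
  have hA : A.transpose = A := by
    ext i j
    exact hc.symm j i
  have h1 : A * B.transpose = 1 := by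
    have h := congrArg Matrix.transpose hc.inv
    rwa [Matrix.transpose_mul, Matrix.transpose_one, hA] at h
  have h2 : B.transpose = B := by
    calc B.transpose = (B * A) * B.transpose := by rw [hc.inv, one_mul]
      _ = B * (A * B.transpose) := by rw [mul_assoc]
      _ = B := by rw [h1, mul_one]
  exact (congrFun (congrFun h2 i) j).symm

/-- the derivative of the action in the direction `v` -/
private theorem der_Lm (hc : Ctx A B M σ R) (hs : St A B M σ R δ s b ε u q)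
    (hy : y ∈ Om n δ s) (v : CE n) :
    fderiv ℂ (Lm A B R u q) y v =
      ∑ c, fderiv ℂ (q c) y v * (DD (u c) y - ∑ d, (B c d : ℂ) * q d y) +
        ∑ c, q c y * fderiv ℂ (DD (u c)) y v - fderiv ℂ (fun y => R (Ps A u q y)) y v := by
  have hq : ∀ c, HasFDerivAt (q c) (fderiv ℂ (q c) y) y :=
    fun c => ((hs.qfn c).dat hy).hasFDerivAt
  have hu : ∀ c, HasFDerivAt (DD (u c)) (fderiv ℂ (DD (u c)) y) y :=
    fun c => ((hs.ufn c).DD.dat hy).hasFDerivAt
  have hR : HasFDerivAt (fun y => R (Ps A u q y)) (fderiv ℂ (fun y => R (Ps A u q y)) y) y :=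
    ((comp_fn hc hs hc.R_fn).dat hy).hasFDerivAt
  have h1 : HasFDerivAt (fun y => ∑ a, q a y * DD (u a) y)
      (∑ a, (q a y • fderiv ℂ (DD (u a)) y + DD (u a) y • fderiv ℂ (q a) y)) y :=
    HasFDerivAt.fun_sum fun a _ => (hq a).mul (hu a)
  have h2 : HasFDerivAt (fun y => ∑ a, ∑ b, (B a b : ℂ) * q a y * q b y)
      (∑ a, ∑ b, (((B a b : ℂ) * q a y) • fderiv ℂ (q b) y +
        q b y • ((B a b : ℂ) • fderiv ℂ (q a) y))) y :=
    HasFDerivAt.fun_sum fun a _ => HasFDerivAt.fun_sum fun b _ =>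
      ((hq a).const_mul (B a b : ℂ)).mul (hq b)
  have e : Lm A B R u q = fun y => (∑ a, q a y * DD (u a) y) -
      (1 / 2 : ℂ) * (∑ a, ∑ b, (B a b : ℂ) * q a y * q b y) - R (Ps A u q y) := by
    funext y
    unfold Lm
    ring
  have h3 := ((h1.fun_sub (h2.const_mul (1 / 2 : ℂ))).fun_sub hR).fderiv
  rw [e, h3]
  have h4 : ∑ a, ∑ b, (B a b : ℂ) * q a y * fderiv ℂ (q b) y v =
      ∑ a, fderiv ℂ (q a) y v * ∑ b, (B a b : ℂ) * q b y := by
    rw [Finset.sum_comm]
    refine Finset.sum_congr rfl fun a _ => ?_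
    rw [Finset.mul_sum]
    refine Finset.sum_congr rfl fun b _ => ?_
    rw [B_symm hc b a]
    ring
  have h5 : ∑ a, ∑ b, q b y * ((B a b : ℂ) * fderiv ℂ (q a) y v) =
      ∑ a, fderiv ℂ (q a) y v * ∑ b, (B a b : ℂ) * q b y := by
    refine Finset.sum_congr rfl fun a _ => ?_
    rw [Finset.mul_sum]
    refine Finset.sum_congr rfl fun b _ => ?_
    ring
  have h6 : (∑ a, (q a y • fderiv ℂ (DD (u a)) y + DD (u a) y • fderiv ℂ (q a) y) -
      (1 / 2 : ℂ) • (∑ a, ∑ b, (((B a b : ℂ) * q a y) • fderiv ℂ (q b) y +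
        q b y • ((B a b : ℂ) • fderiv ℂ (q a) y))) - fderiv ℂ (fun y => R (Ps A u q y)) y) v =
      ∑ a, (q a y * fderiv ℂ (DD (u a)) y v + DD (u a) y * fderiv ℂ (q a) y v) -
      (1 / 2 : ℂ) * (∑ a, ∑ b, (((B a b : ℂ) * q a y) * fderiv ℂ (q b) y v +
        q b y * ((B a b : ℂ) * fderiv ℂ (q a) y v))) - fderiv ℂ (fun y => R (Ps A u q y)) y v := by
    simp
  rw [h6]
  simp only [Finset.sum_add_distrib, mul_sub, Finset.sum_sub_distrib]
  rw [h4, h5]
  have h7 : ∑ a, DD (u a) y * fderiv ℂ (q a) y v = ∑ a, fderiv ℂ (q a) y v * DD (u a) y :=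
    Finset.sum_congr rfl fun a _ => mul_comm _ _
  rw [h7]
  ring

private theorem DD_qu (hs : St A B M σ R δ s b ε u q) (hy : y ∈ Om n δ s)
    {f : Fin n → CE n → ℂ} (hf : ∀ c, Fn δ s (f c)) :
    DD (fun y => ∑ c, q c y * f c y) y = ∑ c, (DD (q c) y * f c y + q c y * DD (f c) y) := by
  rw [DD_sum fun c _ => ((hs.qfn c).mul (hf c)).dat hy]
  exact Finset.sum_congr rfl fun c _ => DD_mul ((hs.qfn c).dat hy) ((hf c).dat hy)

theorem dz_Lm (hc : Ctx A B M σ R) (hs : St A B M σ R δ s b ε u q) (a : Fin n)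
    (hy : y ∈ Om n δ s) :
    dz a.succ (Lm A B R u q) y = ∑ c, dz a.succ (q c) y * E1 A B R u q c y +
      DD (fun y => ∑ c, q c y * dz a.succ (u c) y) y + DD (q a) y - E2 A R u q a y -
        ∑ c, dz a.succ (u c) y * E2 A R u q c y := by
  have h1 := der_Lm hc hs hy (ez a.succ)
  have h2 : dz a.succ (fun y => R (Ps A u q y)) y = dz a.succ R (Ps A u q y) +
      ∑ c, dz c.succ R (Ps A u q y) * dz a.succ (u c) y +
        ∑ c, dh c R (Ps A u q y) * dz a.succ (q c) y := by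
    rw [dz_comp hc hs hc.R_fn a hy]
    congr 1
    · have h3 : ∀ c, dz c.succ R (Ps A u q y) * dz a.succ (Xf u c) y =
          (if a = c then dz c.succ R (Ps A u q y) else 0) +
            dz c.succ R (Ps A u q y) * dz a.succ (u c) y := by
        intro c
        rw [dz_X hs a.succ c hy]
        by_cases hac : a = c
        · rw [if_pos (congrArg Fin.succ hac), if_pos hac]
          ring
        · rw [if_neg fun h => hac (Fin.succ_injective n h), if_neg hac]
          ring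
      rw [Finset.sum_congr rfl fun c _ => h3 c, Finset.sum_add_distrib, Finset.sum_ite_eq,
        if_pos (Finset.mem_univ a)]
    · exact Finset.sum_congr rfl fun c _ => by rw [dz_Q hs a.succ c hy]
  have h3 : ∀ c, fderiv ℂ (DD (u c)) y (ez a.succ) = DD (dz a.succ (u c)) y :=
    fun c => dz_DD (hs.ufn c) a.succ hy
  change fderiv ℂ (Lm A B R u q) y (ez a.succ) = _
  rw [h1, DD_qu hs hy fun c => (hs.ufn c).dz a.succ]
  change ∑ c, dz a.succ (q c) y * (DD (u c) y - ∑ d, (B c d : ℂ) * q d y) +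
    ∑ c, q c y * fderiv ℂ (DD (u c)) y (ez a.succ) - dz a.succ (fun y => R (Ps A u q y)) y = _
  have h6 : ∀ c, q c y * fderiv ℂ (DD (u c)) y (ez a.succ) = q c y * DD (dz a.succ (u c)) y := by
    intro c
    rw [h3 c]
  rw [h2, Finset.sum_congr rfl fun c _ => h6 c]
  have h4 : ∀ c, dz a.succ (q c) y * (DD (u c) y - ∑ d, (B c d : ℂ) * q d y) =
      dz a.succ (q c) y * E1 A B R u q c y + dh c R (Ps A u q y) * dz a.succ (q c) y := by
    intro c
    unfold E1
    ring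
  have h5 : ∀ c, dz a.succ (u c) y * E2 A R u q c y = DD (q c) y * dz a.succ (u c) y +
      dz c.succ R (Ps A u q y) * dz a.succ (u c) y := by
    intro c
    unfold E2
    ring
  rw [Finset.sum_congr rfl fun c _ => h4 c, Finset.sum_congr rfl fun c _ => h5 c]
  simp only [Finset.sum_add_distrib]
  unfold E2
  ring

theorem dh_Lm (hc : Ctx A B M σ R) (hs : St A B M σ R δ s b ε u q) (a : Fin n)
    (hy : y ∈ Om n δ s) :
    dh a (Lm A B R u q) y = ∑ c, dh a (q c) y * E1 A B R u q c y +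
      DD (fun y => ∑ c, q c y * dh a (u c) y) y + ∑ c, q c y * dz a.succ (u c) y -
        ∑ c, (A c a : ℂ) * dh c R (Ps A u q y) - ∑ c, dh a (u c) y * E2 A R u q c y := by
  have h1 := der_Lm hc hs hy (eh a)
  have h2 : dh a (fun y => R (Ps A u q y)) y =
      ∑ c, dz c.succ R (Ps A u q y) * dh a (u c) y +
        (∑ c, (A c a : ℂ) * dh c R (Ps A u q y) +
          ∑ c, dh c R (Ps A u q y) * dh a (q c) y) := by
    have h7 : ∑ c, dh c R (Ps A u q y) * dh a (Qf A q c) y =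
        ∑ c, (A c a : ℂ) * dh c R (Ps A u q y) + ∑ c, dh c R (Ps A u q y) * dh a (q c) y := by
      rw [← Finset.sum_add_distrib]
      refine Finset.sum_congr rfl fun c _ => ?_
      rw [dh_Q hs a c hy]
      ring
    have h8 : ∀ c, dz c.succ R (Ps A u q y) * dh a (Xf u c) y =
        dz c.succ R (Ps A u q y) * dh a (u c) y := by
      intro c
      rw [dh_X hs a c hy]
    rw [dh_comp hc hs hc.R_fn a hy, h7, Finset.sum_congr rfl fun c _ => h8 c]
  have h3 : ∀ c, fderiv ℂ (DD (u c)) y (eh a) = DD (dh a (u c)) y + dz a.succ (u c) y :=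
    fun c => dh_DD (hs.ufn c) a hy
  change fderiv ℂ (Lm A B R u q) y (eh a) = _
  rw [h1, DD_qu hs hy fun c => (hs.ufn c).dh a]
  change ∑ c, dh a (q c) y * (DD (u c) y - ∑ d, (B c d : ℂ) * q d y) +
    ∑ c, q c y * fderiv ℂ (DD (u c)) y (eh a) - dh a (fun y => R (Ps A u q y)) y = _
  have h4 : ∀ c, dh a (q c) y * (DD (u c) y - ∑ d, (B c d : ℂ) * q d y) =
      dh a (q c) y * E1 A B R u q c y + dh c R (Ps A u q y) * dh a (q c) y := by
    intro c
    unfold E1
    ring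
  have h5 : ∀ c, dh a (u c) y * E2 A R u q c y = DD (q c) y * dh a (u c) y +
      dz c.succ R (Ps A u q y) * dh a (u c) y := by
    intro c
    unfold E2
    ring
  have h6 : ∀ c, q c y * fderiv ℂ (DD (u c)) y (eh a) = q c y * DD (dh a (u c)) y +
      q c y * dz a.succ (u c) y := by
    intro c
    rw [h3 c]
    ring
  rw [h2, Finset.sum_congr rfl fun c _ => h4 c, Finset.sum_congr rfl fun c _ => h5 c,
    Finset.sum_congr rfl fun c _ => h6 c]
  simp only [Finset.sum_add_distrib]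
  ring

theorem DD_HH (hc : Ctx A B M σ R) (hs : St A B M σ R δ s b ε u q) (hw : Fn δ s w)
    (a : Fin n) (hy : y ∈ Om n δ s) :
    DD (HH A B R u q w a) y = ∑ c, dz a.succ (Qf A q c) y * E1 A B R u q c y -
      ∑ c, dz a.succ (Xf u c) y * E2 A R u q c y + dz a.succ (ZZ A B R u q w) y := by
  have hg := gg_fn hc hs a δ
  have hqu : Fn δ s fun y => ∑ c, q c y * dz a.succ (u c) y :=
    Fn.sum fun c _ => (hs.qfn c).mul ((hs.ufn c).dz a.succ)
  have hL := Lm_fn hc hs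
  have hA : Fn δ s (avg (Lm A B R u q)) := avg_fn hL hs.δ_pos δ
  have h1 : DD (HH A B R u q w a) y = DD (dz a.succ w) y - DD (q a) y -
      DD (fun y => ∑ c, q c y * dz a.succ (u c) y) y := by
    change DD (fun y => dz a.succ w y + gg A B R u q a y - q a y -
      ∑ b, q b y * dz a.succ (u b) y) y = _
    rw [DD_sub ((((hw.dz a.succ).add hg).sub (hs.qfn a)).dat hy) (hqu.dat hy),
      DD_sub (((hw.dz a.succ).add hg).dat hy) ((hs.qfn a).dat hy),
      DD_add ((hw.dz a.succ).dat hy) (hg.dat hy), (gg_Zi A B R u q a).DD, add_zero]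
  have h2 : dz a.succ (ZZ A B R u q w) y = DD (dz a.succ w) y - dz a.succ (Lm A B R u q) y := by
    change dz a.succ (fun y => DD w y - Lm A B R u q y + avg (Lm A B R u q) y) y = _
    rw [dz_add _ ((hw.DD.sub hL).dat hy) (hA.dat hy), dz_sub _ (hw.DD.dat hy) (hL.dat hy),
      dz_avg, add_zero, dz_DD hw a.succ hy]
  have h3 : ∑ c, dz a.succ (Xf u c) y * E2 A R u q c y = E2 A R u q a y +
      ∑ c, dz a.succ (u c) y * E2 A R u q c y := by
    have h4 : ∀ c, dz a.succ (Xf u c) y * E2 A R u q c y =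
        (if a = c then E2 A R u q c y else 0) + dz a.succ (u c) y * E2 A R u q c y := by
      intro c
      rw [dz_X hs a.succ c hy]
      by_cases hac : a = c
      · rw [if_pos (congrArg Fin.succ hac), if_pos hac]
        ring
      · rw [if_neg fun h => hac (Fin.succ_injective n h), if_neg hac]
        ring
    rw [Finset.sum_congr rfl fun c _ => h4 c, Finset.sum_add_distrib, Finset.sum_ite_eq,
      if_pos (Finset.mem_univ a)]
  have h5 : ∑ c, dz a.succ (Qf A q c) y * E1 A B R u q c y =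
      ∑ c, dz a.succ (q c) y * E1 A B R u q c y :=
    Finset.sum_congr rfl fun c _ => by rw [dz_Q hs a.succ c hy]
  rw [h1, h2, h3, h5, dz_Lm hc hs a hy]
  ring

theorem DD_KK (hc : Ctx A B M σ R) (hs : St A B M σ R δ s b ε u q) (hw : Fn δ s w)
    (a : Fin n) (hy : y ∈ Om n δ s) :
    DD (KK A u q w a) y = ∑ c, dh a (Qf A q c) y * E1 A B R u q c y -
      ∑ c, dh a (Xf u c) y * E2 A R u q c y - HH A B R u q w a y +
        dh a (ZZ A B R u q w) y := by
  have hqu : Fn δ s fun y => ∑ c, q c y * dh a (u c) y :=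
    Fn.sum fun c _ => (hs.qfn c).mul ((hs.ufn c).dh a)
  have hAu : Fn δ s fun y => ∑ c, (A c a : ℂ) * u c y :=
    Fn.sum fun c _ => (hs.ufn c).smul (A c a)
  have hL := Lm_fn hc hs
  have hA : Fn δ s (avg (Lm A B R u q)) := avg_fn hL hs.δ_pos δ
  have h1 : DD (KK A u q w a) y = DD (dh a w) y + ∑ c, (A c a : ℂ) * DD (u c) y -
      DD (fun y => ∑ c, q c y * dh a (u c) y) y := by
    change DD (fun y => dh a w y + ∑ b, (A b a : ℂ) * u b y - ∑ b, q b y * dh a (u b) y) y = _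
    rw [DD_sub (((hw.dh a).add hAu).dat hy) (hqu.dat hy),
      DD_add ((hw.dh a).dat hy) (hAu.dat hy),
      DD_sum fun c _ => ((hs.ufn c).smul (A c a)).dat hy]
    simp only [DD_cmul]
  have h2 : dh a (ZZ A B R u q w) y = DD (dh a w) y + dz a.succ w y -
      dh a (Lm A B R u q) y + gg A B R u q a y := by
    change dh a (fun y => DD w y - Lm A B R u q y + avg (Lm A B R u q) y) y = _
    rw [dh_add _ ((hw.DD.sub hL).dat hy) (hA.dat hy), dh_sub _ (hw.DD.dat hy) (hL.dat hy),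
      dh_DD hw a hy]
    rfl
  have h3 : ∑ c, dh a (Xf u c) y * E2 A R u q c y = ∑ c, dh a (u c) y * E2 A R u q c y :=
    Finset.sum_congr rfl fun c _ => by rw [dh_X hs a c hy]
  have h4 : ∑ c, dh a (Qf A q c) y * E1 A B R u q c y =
      ∑ c, (A c a : ℂ) * E1 A B R u q c y + ∑ c, dh a (q c) y * E1 A B R u q c y := by
    rw [← Finset.sum_add_distrib]
    refine Finset.sum_congr rfl fun c _ => ?_
    rw [dh_Q hs a c hy]
    ring
  have h5 : ∑ c, (A c a : ℂ) * ∑ d, (B c d : ℂ) * q d y = q a y := by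
    have h6 : ∀ d, ∑ c, (A c a : ℂ) * (B c d : ℂ) = if a = d then 1 else 0 := by
      intro d
      have h7 : (A * B) a d = (1 : Matrix (Fin n) (Fin n) ℝ) a d := by rw [hc.inv']
      rw [Matrix.mul_apply, Matrix.one_apply] at h7
      have h8 : ((∑ c, A a c * B c d : ℝ) : ℂ) = ((if a = d then 1 else 0 : ℝ) : ℂ) := by
        rw [h7]
      rw [Complex.ofReal_sum] at h8
      have h9 : ((if a = d then 1 else 0 : ℝ) : ℂ) = if a = d then 1 else 0 := by
        split_ifs <;> simp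
      rw [← h9, ← h8]
      refine Finset.sum_congr rfl fun c _ => ?_
      rw [Complex.ofReal_mul, hc.symm a c]
    simp only [Finset.mul_sum]
    rw [Finset.sum_comm]
    have h7 : ∀ d, ∑ c, (A c a : ℂ) * ((B c d : ℂ) * q d y) = if a = d then q d y else 0 := by
      intro d
      have h8 : ∑ c, (A c a : ℂ) * ((B c d : ℂ) * q d y) =
          (∑ c, (A c a : ℂ) * (B c d : ℂ)) * q d y := by
        rw [Finset.sum_mul]
        exact Finset.sum_congr rfl fun c _ => by ring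
      rw [h8, h6 d]
      split_ifs <;> simp
    rw [Finset.sum_congr rfl fun d _ => h7 d, Finset.sum_ite_eq, if_pos (Finset.mem_univ a)]
  have h6 : ∑ c, (A c a : ℂ) * E1 A B R u q c y = ∑ c, (A c a : ℂ) * DD (u c) y -
      ∑ c, (A c a : ℂ) * ∑ d, (B c d : ℂ) * q d y -
        ∑ c, (A c a : ℂ) * dh c R (Ps A u q y) := by
    rw [← Finset.sum_sub_distrib, ← Finset.sum_sub_distrib]
    refine Finset.sum_congr rfl fun c _ => ?_
    unfold E1
    ring
  rw [h5] at h6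
  rw [h1, h2, h3, h4, h6, dh_Lm hc hs a hy]
  unfold HH
  ring

end Pool.Agent.LRig
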