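import Pool.Agent.LRig.IE

/-!
# LR (MP_74f563_an, all n), file IC: the symplectic identities

PROOFS.  `∂_a = dz a.succ`, `η_a = dh a`.  On `Om n δ s`:
`Th_eq`: `∂_a H_b - ∂_b H_a = -∂_a q_b + ∂_b q_a - ∑_c (∂_a q_c ∂_b u_c - ∂_b q_c ∂_a u_c)` (mixed
derivatives of `w`, `u_c` commute, `gg` is `Zi`), and `Th_ab = ∑_c (∂_a q_c (δ_cb + ∂_b u_c) -
∂_b q_c (δ_ca + ∂_a u_c))` (`dz_X`, `dz_Q`).
`TT_eq`: `TT_ab = ∑_c ((A_ca + η_a q_c)(δ_cb + ∂_b u_c) - ∂_b q_c η_a u_c)` and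
`-η_a H_b + ∂_b K_a = -η_a gg_b + η_a q_b + ∑ η_a q_c ∂_b u_c + ∑ A_ca ∂_b u_c - ∑ ∂_b q_c η_a u_c`,
`ta_ab = A_ab + η_a gg_b`, `A_ab = A_ba`.
`Sg_eq`: `Sg_ab = ∑_c ((A_ca + η_a q_c) η_b u_c - (A_cb + η_b q_c) η_a u_c)` and
`η_a K_b - η_b K_a = ∑ (A_cb η_a u_c - A_ca η_b u_c) - ∑ (η_a q_c η_b u_c - η_b q_c η_a u_c)`.
-/

set_option autoImplicit false

namespace Pool.Agent.LRig

open Complex Set MeasureTheory

variable {n : ℕ} {A B : Matrix (Fin n) (Fin n) ℝ} {M σ δ s b ε : ℝ} {R G w : CE n → ℂ}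
  {u q : Fin n → CE n → ℂ} {y : CE n}

private theorem dz_HH (hc : Ctx A B M σ R) (hs : St A B M σ R δ s b ε u q) (hw : Fn δ s w)
    (i : Fin (n + 1)) (c : Fin n) (hy : y ∈ Om n δ s) :
    dz i (HH A B R u q w c) y = dz i (dz c.succ w) y - dz i (q c) y -
      ∑ e, (dz i (q e) y * dz c.succ (u e) y + q e y * dz i (dz c.succ (u e)) y) := by
  have h1 : DifferentiableAt ℂ (dz c.succ w) y := (hw.dz _).dat hy
  have h2 : DifferentiableAt ℂ (gg A B R u q c) y := (gg_fn hc hs c δ).dat hy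
  have h3 : DifferentiableAt ℂ (q c) y := (hs.qfn c).dat hy
  have h4 : ∀ e ∈ Finset.univ, DifferentiableAt ℂ (fun y => q e y * dz c.succ (u e) y) y :=
    fun e _ => ((hs.qfn e).mul ((hs.ufn e).dz _)).dat hy
  have h5 : DifferentiableAt ℂ (fun y => ∑ e, q e y * dz c.succ (u e) y) y :=
    (Fn.sum fun e _ => (hs.qfn e).mul ((hs.ufn e).dz _)).dat hy
  unfold HH
  rw [dz_sub i (F := fun y => dz c.succ w y + gg A B R u q c y - q c y) ((h1.add h2).sub h3) h5,
    dz_sub i (F := fun y => dz c.succ w y + gg A B R u q c y) (h1.add h2) h3,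
    dz_add i h1 h2, dz_sum i h4, (gg_Zi A B R u q c).dz, add_zero]
  congr 1
  refine Finset.sum_congr rfl fun e _ => ?_
  rw [dz_mul i ((hs.qfn e).dat hy) (((hs.ufn e).dz _).dat hy)]

private theorem dh_HH (hc : Ctx A B M σ R) (hs : St A B M σ R δ s b ε u q) (hw : Fn δ s w)
    (a : Fin n) (c : Fin n) (hy : y ∈ Om n δ s) :
    dh a (HH A B R u q w c) y = dh a (dz c.succ w) y + dh a (gg A B R u q c) y -
      dh a (q c) y -
      ∑ e, (dh a (q e) y * dz c.succ (u e) y + q e y * dh a (dz c.succ (u e)) y) := by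
  have h1 : DifferentiableAt ℂ (dz c.succ w) y := (hw.dz _).dat hy
  have h2 : DifferentiableAt ℂ (gg A B R u q c) y := (gg_fn hc hs c δ).dat hy
  have h3 : DifferentiableAt ℂ (q c) y := (hs.qfn c).dat hy
  have h4 : ∀ e ∈ Finset.univ, DifferentiableAt ℂ (fun y => q e y * dz c.succ (u e) y) y :=
    fun e _ => ((hs.qfn e).mul ((hs.ufn e).dz _)).dat hy
  have h5 : DifferentiableAt ℂ (fun y => ∑ e, q e y * dz c.succ (u e) y) y :=
    (Fn.sum fun e _ => (hs.qfn e).mul ((hs.ufn e).dz _)).dat hy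
  unfold HH
  rw [dh_sub a (F := fun y => dz c.succ w y + gg A B R u q c y - q c y) ((h1.add h2).sub h3) h5,
    dh_sub a (F := fun y => dz c.succ w y + gg A B R u q c y) (h1.add h2) h3,
    dh_add a h1 h2, dh_sum a h4]
  congr 1
  refine Finset.sum_congr rfl fun e _ => ?_
  rw [dh_mul a ((hs.qfn e).dat hy) (((hs.ufn e).dz _).dat hy)]

private theorem dz_KK (hs : St A B M σ R δ s b ε u q) (hw : Fn δ s w)
    (i : Fin (n + 1)) (a : Fin n) (hy : y ∈ Om n δ s) :
    dz i (KK A u q w a) y = dz i (dh a w) y + ∑ e, (A e a : ℂ) * dz i (u e) y -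
      ∑ e, (dz i (q e) y * dh a (u e) y + q e y * dz i (dh a (u e)) y) := by
  have h1 : DifferentiableAt ℂ (dh a w) y := (hw.dh _).dat hy
  have h2 : DifferentiableAt ℂ (fun y => ∑ e, (A e a : ℂ) * u e y) y :=
    (Fn.sum fun e _ => (hs.ufn e).smul (A e a)).dat hy
  have h2' : ∀ e ∈ Finset.univ, DifferentiableAt ℂ (fun y => (A e a : ℂ) * u e y) y :=
    fun e _ => ((hs.ufn e).smul (A e a)).dat hy
  have h4 : ∀ e ∈ Finset.univ, DifferentiableAt ℂ (fun y => q e y * dh a (u e) y) y :=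
    fun e _ => ((hs.qfn e).mul ((hs.ufn e).dh _)).dat hy
  have h5 : DifferentiableAt ℂ (fun y => ∑ e, q e y * dh a (u e) y) y :=
    (Fn.sum fun e _ => (hs.qfn e).mul ((hs.ufn e).dh _)).dat hy
  unfold KK
  rw [dz_sub i (F := fun y => dh a w y + ∑ e, (A e a : ℂ) * u e y) (h1.add h2) h5,
    dz_add i h1 h2, dz_sum i h2', dz_sum i h4]
  congr 1
  · congr 1
    exact Finset.sum_congr rfl fun e _ => dz_cmul i _
  · refine Finset.sum_congr rfl fun e _ => ?_
    rw [dz_mul i ((hs.qfn e).dat hy) (((hs.ufn e).dh _).dat hy)]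

private theorem dh_KK (hs : St A B M σ R δ s b ε u q) (hw : Fn δ s w)
    (c : Fin n) (a : Fin n) (hy : y ∈ Om n δ s) :
    dh c (KK A u q w a) y = dh c (dh a w) y + ∑ e, (A e a : ℂ) * dh c (u e) y -
      ∑ e, (dh c (q e) y * dh a (u e) y + q e y * dh c (dh a (u e)) y) := by
  have h1 : DifferentiableAt ℂ (dh a w) y := (hw.dh _).dat hy
  have h2 : DifferentiableAt ℂ (fun y => ∑ e, (A e a : ℂ) * u e y) y :=
    (Fn.sum fun e _ => (hs.ufn e).smul (A e a)).dat hy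
  have h2' : ∀ e ∈ Finset.univ, DifferentiableAt ℂ (fun y => (A e a : ℂ) * u e y) y :=
    fun e _ => ((hs.ufn e).smul (A e a)).dat hy
  have h4 : ∀ e ∈ Finset.univ, DifferentiableAt ℂ (fun y => q e y * dh a (u e) y) y :=
    fun e _ => ((hs.qfn e).mul ((hs.ufn e).dh _)).dat hy
  have h5 : DifferentiableAt ℂ (fun y => ∑ e, q e y * dh a (u e) y) y :=
    (Fn.sum fun e _ => (hs.qfn e).mul ((hs.ufn e).dh _)).dat hy
  unfold KK
  rw [dh_sub c (F := fun y => dh a w y + ∑ e, (A e a : ℂ) * u e y) (h1.add h2) h5,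
    dh_add c h1 h2, dh_sum c h2', dh_sum c h4]
  congr 1
  · congr 1
    exact Finset.sum_congr rfl fun e _ => dh_cmul c _
  · refine Finset.sum_congr rfl fun e _ => ?_
    rw [dh_mul c ((hs.qfn e).dat hy) (((hs.ufn e).dh _).dat hy)]

private theorem sum_delta (f : Fin n → ℂ) (c : Fin n) :
    ∑ e, f e * (if c.succ = e.succ then 1 else 0) = f c := by
  rw [Finset.sum_eq_single c]
  · rw [if_pos rfl, mul_one]
  · intro e _ he
    rw [if_neg fun h => he (Fin.succ_injective _ h).symm, mul_zero]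
  · intro h
    exact absurd (Finset.mem_univ _) h

theorem Th_eq (hc : Ctx A B M σ R) (hs : St A B M σ R δ s b ε u q) (hw : Fn δ s w)
    (a c : Fin n) (hy : y ∈ Om n δ s) :
    Th A u q a c y = -(dz a.succ (HH A B R u q w c) y - dz c.succ (HH A B R u q w a) y) := by
  rw [dz_HH hc hs hw _ _ hy, dz_HH hc hs hw _ _ hy, dz_dz hw a.succ c.succ hy]
  have h1 : Th A u q a c y = ∑ e, dz a.succ (q e) y * (if c.succ = e.succ then 1 else 0) -
      ∑ e, dz c.succ (q e) y * (if a.succ = e.succ then 1 else 0) +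
      ∑ e, (dz a.succ (q e) y * dz c.succ (u e) y - dz c.succ (q e) y * dz a.succ (u e) y) := by
    unfold Th
    rw [← Finset.sum_sub_distrib, ← Finset.sum_add_distrib]
    refine Finset.sum_congr rfl fun e _ => ?_
    rw [dz_X hs _ _ hy, dz_X hs _ _ hy, dz_Q hs _ _ hy, dz_Q hs _ _ hy]
    ring
  have h2 : ∑ e, (dz a.succ (q e) y * dz c.succ (u e) y +
        q e y * dz a.succ (dz c.succ (u e)) y) -
      ∑ e, (dz c.succ (q e) y * dz a.succ (u e) y + q e y * dz c.succ (dz a.succ (u e)) y) =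
      ∑ e, (dz a.succ (q e) y * dz c.succ (u e) y - dz c.succ (q e) y * dz a.succ (u e) y) := by
    rw [← Finset.sum_sub_distrib]
    refine Finset.sum_congr rfl fun e _ => ?_
    rw [dz_dz (hs.ufn e) a.succ c.succ hy]
    ring
  rw [h1, sum_delta, sum_delta]
  linear_combination -h2

theorem TT_eq (hc : Ctx A B M σ R) (hs : St A B M σ R δ s b ε u q) (hw : Fn δ s w)
    (a c : Fin n) (hy : y ∈ Om n δ s) :
    TT A u q a c y = ta A B R u q a c y - dh a (HH A B R u q w c) y +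
      dz c.succ (KK A u q w a) y := by
  rw [dh_HH hc hs hw _ _ hy, dz_KK hs hw _ _ hy, dz_dh hw c.succ a hy]
  have h0 : ta A B R u q a c y = (A a c : ℂ) + dh a (gg A B R u q c) y := rfl
  have h1 : TT A u q a c y = ∑ e, ((A e a : ℂ) + dh a (q e) y) *
        (if c.succ = e.succ then 1 else 0) +
      ∑ e, (A e a : ℂ) * dz c.succ (u e) y +
      ∑ e, (dh a (q e) y * dz c.succ (u e) y - dz c.succ (q e) y * dh a (u e) y) := by
    unfold TT
    rw [← Finset.sum_add_distrib, ← Finset.sum_add_distrib]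
    refine Finset.sum_congr rfl fun e _ => ?_
    rw [dz_X hs _ _ hy, dh_X hs _ _ hy, dz_Q hs _ _ hy, dh_Q hs _ _ hy]
    ring
  have h2 : ∑ e, (dh a (q e) y * dz c.succ (u e) y + q e y * dh a (dz c.succ (u e)) y) -
      ∑ e, (dz c.succ (q e) y * dh a (u e) y + q e y * dz c.succ (dh a (u e)) y) =
      ∑ e, (dh a (q e) y * dz c.succ (u e) y - dz c.succ (q e) y * dh a (u e) y) := by
    rw [← Finset.sum_sub_distrib]
    refine Finset.sum_congr rfl fun e _ => ?_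
    rw [dz_dh (hs.ufn e) c.succ a hy]
    ring
  rw [h1, sum_delta (fun e => (A e a : ℂ) + dh a (q e) y) c, h0, hc.symm a c]
  linear_combination -h2

theorem Sg_eq (hc : Ctx A B M σ R) (hs : St A B M σ R δ s b ε u q) (hw : Fn δ s w)
    (a c : Fin n) (hy : y ∈ Om n δ s) :
    Sg A u q a c y = -(dh a (KK A u q w c) y - dh c (KK A u q w a) y) := by
  rw [dh_KK hs hw _ _ hy, dh_KK hs hw _ _ hy, dh_dh hw a c hy]
  have h1 : Sg A u q a c y = ∑ e, (A e a : ℂ) * dh c (u e) y - ∑ e, (A e c : ℂ) * dh a (u e) y +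
      ∑ e, (dh a (q e) y * dh c (u e) y - dh c (q e) y * dh a (u e) y) := by
    unfold Sg
    rw [← Finset.sum_sub_distrib, ← Finset.sum_add_distrib]
    refine Finset.sum_congr rfl fun e _ => ?_
    rw [dh_X hs _ _ hy, dh_X hs _ _ hy, dh_Q hs _ _ hy, dh_Q hs _ _ hy]
    ring
  have h2 : ∑ e, (dh a (q e) y * dh c (u e) y + q e y * dh a (dh c (u e)) y) -
      ∑ e, (dh c (q e) y * dh a (u e) y + q e y * dh c (dh a (u e)) y) =
      ∑ e, (dh a (q e) y * dh c (u e) y - dh c (q e) y * dh a (u e) y) := by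
    rw [← Finset.sum_sub_distrib]
    refine Finset.sum_congr rfl fun e _ => ?_
    rw [dh_dh (hs.ufn e) a c hy]
    ring
  rw [h1]
  linear_combination -h2

end Pool.Agent.LRig
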