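import Pool.Agent.LRig.IB
import Pool.Agent.LRig.FK

/-!
# LR (MP_74f563_an, all n), file ID: the a-priori bound of the resonant coefficients

PROOF.  Let `k a.succ ≠ 0`, `∂_a = dz a.succ`, `Λ = Lm`.  `2πi k_{a+1} cf k Λ = cf k (∂_a Λ)`
(`cf_dz`);
by `dz_Lm` (the coefficients of functions which agree on `Om n δ s` agree) and
`cf k (D G) = 2πi (dv k y) cf k G = 0` (`cf_DD`, for `G = ∑ q_c ∂_a u_c` and `G = q_a`) this is
`cf k (∑ ∂_a q_c E1 c - E2 a - ∑ ∂_a u_c E2 c)`.  The function in the bracket is bounded on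
`Om n δ s` by
`n b ε + ε + n b ε ≤ 2 ε`, so (`cf_bound`) the coefficient is at most `2 ε e^{-2πδ|k|}`, and
`|2πi k_{a+1}| ≥ 2π`.
-/

set_option autoImplicit false

namespace Pool.Agent.LRig

open Complex Set MeasureTheory

variable {n : ℕ} {A B : Matrix (Fin n) (Fin n) ℝ} {M σ δ s b ε : ℝ} {R G w : CE n → ℂ}
  {u q : Fin n → CE n → ℂ} {y : CE n}

private theorem id_congr {δ₀ s₀ δ₁ : ℝ} {F₁ F₂ : CE n → ℂ} (hδ : 0 < δ₀)
    (h : ∀ y ∈ Om n δ₀ s₀, F₁ y = F₂ y) (k : Fin (n + 1) → ℤ) {y₀ : CE n}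
    (hy : y₀ ∈ Om n δ₁ s₀) : cf k F₁ y₀ = cf k F₂ y₀ := by
  unfold cf
  refine setIntegral_congr_fun measurableSet_Icc fun x _ => ?_
  have h1 := h _ (real_mem_Om hδ hy x)
  change F₁ (fun i => (x i : ℂ), y₀.2) * _ = F₂ (fun i => (x i : ℂ), y₀.2) * _
  rw [h1]

private theorem id_b (hc : Ctx A B M σ R) (hs : St A B M σ R δ s b ε u q) :
    2 * ((n : ℝ) * b) ≤ 1 := by
  have h1 := hs.b_le
  unfold b0 at h1
  have hM := hc.M_ge
  have hσ := hc.σ_le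
  have hn : (0 : ℝ) ≤ n := Nat.cast_nonneg n
  have hpos : (0 : ℝ) < 64 * (n + 1) ^ 2 * M := by positivity
  rw [le_div_iff₀ hpos] at h1
  have hb := hs.b_nonneg
  have h2 : 2 * ((n : ℝ) * b) ≤ b * (64 * (n + 1) ^ 2 * M) := by
    have h3 : 2 * (n : ℝ) ≤ 64 * (n + 1) ^ 2 * M := by
      have h4 : 2 * (n : ℝ) ≤ 64 * (n + 1) ^ 2 := by nlinarith
      have h5 : (64 * ((n : ℝ) + 1) ^ 2) * 1 ≤ 64 * (n + 1) ^ 2 * M :=
        mul_le_mul_of_nonneg_left hM (by positivity)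
      linarith
    have h6 := mul_le_mul_of_nonneg_left h3 hb
    linarith
  linarith

theorem res_bound (hc : Ctx A B M σ R) (hs : St A B M σ R δ s b ε u q)
    {k : Fin (n + 1) → ℤ} (hk : Nz k) {δ' : ℝ} (hy : y ∈ Om n δ' s) (h0 : dv k y = 0) :
    ‖cf k (Lm A B R u q) y‖ ≤ ε * Real.exp (-(2 * Real.pi * δ * nk k)) := by
  obtain ⟨a, ha⟩ := hk
  have hδ := hs.δ_pos
  have hL := Lm_fn hc hs
  have hG : Fn δ s (fun y => ∑ c, q c y * dz a.succ (u c) y) :=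
    Fn.sum fun c _ => (hs.qfn c).mul ((hs.ufn c).dz a.succ)
  have hW : Fn δ s (fun y => ∑ c, dz a.succ (q c) y * E1 A B R u q c y - E2 A R u q a y -
      ∑ c, dz a.succ (u c) y * E2 A R u q c y) :=
    ((Fn.sum fun c _ => ((hs.qfn c).dz a.succ).mul (E1_fn hc hs c)).sub (E2_fn hc hs a)).sub
      (Fn.sum fun c _ => ((hs.ufn c).dz a.succ).mul (E2_fn hc hs c))
  have hWb : Bd δ s (2 * ε) (fun y => ∑ c, dz a.succ (q c) y * E1 A B R u q c y -
      E2 A R u q a y - ∑ c, dz a.succ (u c) y * E2 A R u q c y) := by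
    have h1 : Bd δ s (n * (b * ε)) (fun y => ∑ c, dz a.succ (q c) y * E1 A B R u q c y) :=
      Bd.sum' fun c => (hs.qz c a.succ).mul (hs.e1 c) hs.b_nonneg
    have h2 : Bd δ s (n * (b * ε)) (fun y => ∑ c, dz a.succ (u c) y * E2 A R u q c y) :=
      Bd.sum' fun c => (hs.uz c a.succ).mul (hs.e2 c) hs.b_nonneg
    refine ((h1.sub (hs.e2 a)).sub h2).mono le_rfl le_rfl ?_
    have h3 := mul_le_mul_of_nonneg_right (id_b hc hs) hs.ε_nonneg
    nlinarith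
  have h1 : cf k (dz a.succ (Lm A B R u q)) y =
      cf k (fun y => (∑ c, dz a.succ (q c) y * E1 A B R u q c y - E2 A R u q a y -
        ∑ c, dz a.succ (u c) y * E2 A R u q c y) +
          (DD (fun y => ∑ c, q c y * dz a.succ (u c) y) y + DD (q a) y)) y := by
    refine id_congr hδ (fun z hz => ?_) k hy
    rw [dz_Lm hc hs a hz]
    ring
  rw [cf_dz hL hδ k a.succ hy, cf_add hW (hG.DD.add (hs.qfn a).DD) hδ k hy,
    cf_add hG.DD (hs.qfn a).DD hδ k hy, cf_DD hG hδ k hy, cf_DD (hs.qfn a) hδ k hy, h0,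
    mul_zero, zero_mul, zero_mul, add_zero, add_zero] at h1
  have h2 := cf_bound hW hWb hδ k hy
  rw [← h1, norm_mul] at h2
  have h3 : 2 * Real.pi ≤ ‖(2 * Real.pi * I * (k a.succ : ℂ) : ℂ)‖ := by
    rw [norm_mul, norm_mul, norm_mul, Complex.norm_I, mul_one, Complex.norm_real,
      Complex.norm_intCast]
    have h4 : (1 : ℝ) ≤ |(k a.succ : ℝ)| := by
      have h5 : (1 : ℤ) ≤ |k a.succ| := Int.one_le_abs ha
      exact_mod_cast h5
    have h6 : ‖(2 : ℂ)‖ = 2 := by simp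
    rw [h6, Real.norm_of_nonneg Real.pi_pos.le]
    nlinarith [Real.pi_pos]
  have h7 := mul_le_mul_of_nonneg_right h3 (norm_nonneg (cf k (Lm A B R u q) y))
  have h8 : 0 ≤ ε * Real.exp (-(2 * Real.pi * δ * nk k)) :=
    mul_nonneg hs.ε_nonneg (Real.exp_pos _).le
  have h9 := Real.two_le_pi
  have h10 := norm_nonneg (cf k (Lm A B R u q) y)
  nlinarith

end Pool.Agent.LRig
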