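import Pool.Agent.LRig.IA

/-!
# LR (MP_74f563_an, all n), file IE: membership in `Fn`

PROOFS.  All functions are sums and products of functions in `Fn` (file FA), `comp_fn` for `R` and
its
derivatives (`R_fn.dh`, ...), `avg_fn`, `Fn.dz`, `Fn.dh`, `Fn.DD`.
`dzX_fn`: on `Om` the function `dz i (Xf u b)` is a constant plus `dz i (u b)`; periodicity and
reality
everywhere: `Xf u b (y + ez j) = Xf u b y + const`, `Xf u b (cj y) = conj (Xf u b y)`, the
derivatives `fderiv ℂ (Xf u b)` transform as in the proof of `Fn.dz`.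
`Lm_bd`: on `Om n δ s` `DD (u a) = E1 a + ∑ B q + dh a R (Ps)`, so
`‖DD (u a)‖ ≤ 1 + n M b + 2/σ ≤ 4/σ` (Cauchy: `‖dh a R‖ ≤ 1/(σ - σ/2) = 2/σ` on
`Om (σ/2) (σ/2)`), and with `b ≤ b0 = σ/(64 (n+1)² M)`:
`‖Lm‖ ≤ n b 4/σ + n² M b²/2 + 1 ≤ 2`.
-/

set_option autoImplicit false

namespace Pool.Agent.LRig

open Complex Set MeasureTheory
open scoped ComplexConjugate

variable {n : ℕ} {A B : Matrix (Fin n) (Fin n) ℝ} {M σ δ s b ε : ℝ} {R G w : CE n → ℂ}
  {u q : Fin n → CE n → ℂ} {y : CE n}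

/-! ## Conjugation (private copies of the lemmas of file FA) -/

private theorem ie_cj_cj (y : CE n) : cj (cj y) = y := cj_cj y

private theorem ie_cj_add (y v : CE n) : cj (y + v) = cj y + cj v := by
  refine Prod.ext (funext fun i => ?_) (funext fun a => ?_)
  · exact map_add conj (y.1 i) (v.1 i)
  · exact map_add conj (y.2 a) (v.2 a)

private theorem ie_cj_smul (c : ℂ) (v : CE n) : cj (c • v) = conj c • cj v := by
  refine Prod.ext (funext fun i => ?_) (funext fun a => ?_)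
  · exact map_mul conj c (v.1 i)
  · exact map_mul conj c (v.2 a)

private theorem ie_norm_cj (v : CE n) : ‖cj v‖ = ‖v‖ := by
  have h1 : ∀ {m : ℕ} (z : Fin m → ℂ), ‖fun i => conj (z i)‖ = ‖z‖ := by
    intro m z
    rw [Pi.norm_def, Pi.norm_def]
    congr 1
    refine Finset.sup_congr rfl fun i _ => ?_
    apply NNReal.eq
    rw [coe_nnnorm, coe_nnnorm]
    exact Complex.norm_conj (z i)
  rw [Prod.norm_def, Prod.norm_def]
  change max ‖fun i => conj (v.1 i)‖ ‖fun a => conj (v.2 a)‖ = _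
  rw [h1, h1]

private theorem ie_continuous_cj : Continuous (cj : CE n → CE n) := by
  unfold cj
  fun_prop

/-- the conjugate of a linear form -/
private noncomputable def ieCl (L : CE n →L[ℂ] ℂ) : CE n →L[ℂ] ℂ :=
  LinearMap.toContinuousLinearMap
    { toFun := fun v => conj (L (cj v))
      map_add' := fun v w => by rw [ie_cj_add, map_add, map_add]
      map_smul' := fun c v => by
        rw [ie_cj_smul, map_smul, smul_eq_mul, map_mul, conj_conj, RingHom.id_apply, smul_eq_mul] }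

private theorem ieCl_apply (L : CE n →L[ℂ] ℂ) (v : CE n) : ieCl L v = conj (L (cj v)) := rfl

private theorem ie_has {F : CE n → ℂ} (hreal : ∀ y : CE n, F (cj y) = conj (F y))
    {L : CE n →L[ℂ] ℂ} (h : HasFDerivAt F L y) : HasFDerivAt F (ieCl L) (cj y) := by
  rw [hasFDerivAt_iff_isLittleO_nhds_zero] at h ⊢
  have h0 : Filter.Tendsto (cj : CE n → CE n) (nhds 0) (nhds 0) := by
    have h1 := (ie_continuous_cj (n := n)).tendsto 0
    have h2 : cj (0 : CE n) = 0 := by
      refine Prod.ext (funext fun i => ?_) (funext fun a => ?_)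
      · exact map_zero conj
      · exact map_zero conj
    rwa [h2] at h1
  have h3 := h.comp_tendsto h0
  refine (Asymptotics.IsLittleO.of_norm_norm ?_)
  refine (h3.norm_norm).congr (fun v => ?_) fun v => ?_
  · change ‖F (y + cj v) - F y - L (cj v)‖ = ‖F (cj y + v) - F (cj y) - ieCl L v‖
    have e1 : cj y + v = cj (y + cj v) := by rw [ie_cj_add, ie_cj_cj]
    rw [e1, hreal, hreal, ieCl_apply, ← map_sub, ← map_sub, Complex.norm_conj]
  · exact ie_norm_cj v

private theorem ie_real {F : CE n → ℂ} (hreal : ∀ y : CE n, F (cj y) = conj (F y))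
    (y v : CE n) : fderiv ℂ F (cj y) v = conj (fderiv ℂ F y (cj v)) := by
  by_cases h : DifferentiableAt ℂ F y
  · rw [(ie_has hreal h.hasFDerivAt).fderiv]
    rfl
  · have h2 : ¬ DifferentiableAt ℂ F (cj y) := by
      intro h3
      have h4 := (ie_has hreal h3.hasFDerivAt).differentiableAt
      rw [ie_cj_cj] at h4
      exact h h4
    rw [fderiv_zero_of_not_differentiableAt h, fderiv_zero_of_not_differentiableAt h2]
    exact (map_zero conj).symm

private theorem ie_cj_ez (i : Fin (n + 1)) : cj (ez i : CE n) = ez i := by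
  refine Prod.ext (funext fun j => ?_) (funext fun a => ?_)
  · change conj ((Pi.single i 1 : Fin (n + 1) → ℂ) j) = (Pi.single i 1 : Fin (n + 1) → ℂ) j
    by_cases h : j = i
    · subst h
      rw [Pi.single_eq_same, map_one]
    · rw [Pi.single_eq_of_ne h, map_zero]
  · exact map_zero conj

private theorem ie_cj_eh (a : Fin n) : cj (eh a : CE n) = eh a := by
  refine Prod.ext (funext fun j => ?_) (funext fun b => ?_)
  · exact map_zero conj
  · change conj ((Pi.single a 1 : Fin n → ℂ) b) = (Pi.single a 1 : Fin n → ℂ) b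
    by_cases h : b = a
    · subst h
      rw [Pi.single_eq_same, map_one]
    · rw [Pi.single_eq_of_ne h, map_zero]

private theorem X_real (hs : St A B M σ R δ s b ε u q) (c : Fin n) (y : CE n) :
    Xf u c (cj y) = conj (Xf u c y) := by
  change conj (y.1 c.succ) + u c (cj y) = conj (y.1 c.succ + u c y)
  rw [(hs.ufn c).real, map_add]

private theorem X_per (hs : St A B M σ R δ s b ε u q) (c : Fin n) (j : Fin (n + 1)) (y : CE n) :
    fderiv ℂ (Xf u c) (y + ez j) = fderiv ℂ (Xf u c) y := by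
  rw [← fderiv_comp_add_right]
  have h1 : (fun x : CE n => Xf u c (x + ez j)) =
      fun x => Xf u c x + (ez j : CE n).1 c.succ := by
    funext x
    change x.1 c.succ + (ez j : CE n).1 c.succ + u c (x + ez j) =
      x.1 c.succ + u c x + (ez j : CE n).1 c.succ
    rw [(hs.ufn c).per]
    ring
  rw [h1, fderiv_add_const]

/-! ## Membership in `Fn` -/

theorem dzX_fn (hs : St A B M σ R δ s b ε u q) (i : Fin (n + 1)) (c : Fin n) :
    Fn δ s (dz i (Xf u c)) := by
  refine ⟨?_, fun j y => ?_, fun y => ?_⟩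
  · exact ((differentiableOn_const (if i = c.succ then (1 : ℂ) else 0)).add
      ((hs.ufn c).dz i).hol).congr fun y hy => dz_X hs i c hy
  · change fderiv ℂ (Xf u c) (y + ez j) (ez i) = fderiv ℂ (Xf u c) y (ez i)
    rw [X_per hs]
  · change fderiv ℂ (Xf u c) (cj y) (ez i) = conj (fderiv ℂ (Xf u c) y (ez i))
    rw [ie_real (X_real hs c), ie_cj_ez]

theorem dhX_fn (hs : St A B M σ R δ s b ε u q) (a c : Fin n) : Fn δ s (dh a (Xf u c)) := by
  refine ⟨?_, fun j y => ?_, fun y => ?_⟩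
  · exact ((hs.ufn c).dh a).hol.congr fun y hy => dh_X hs a c hy
  · change fderiv ℂ (Xf u c) (y + ez j) (eh a) = fderiv ℂ (Xf u c) y (eh a)
    rw [X_per hs]
  · change fderiv ℂ (Xf u c) (cj y) (eh a) = conj (fderiv ℂ (Xf u c) y (eh a))
    rw [ie_real (X_real hs c), ie_cj_eh]

theorem Q_fn (hs : St A B M σ R δ s b ε u q) (c : Fin n) : Fn δ s (Qf A q c) :=
  (Fn.sum fun b _ => (fn_h b).smul (A c b)).add (hs.qfn c)

theorem E1_fn (hc : Ctx A B M σ R) (hs : St A B M σ R δ s b ε u q) (a : Fin n) :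
    Fn δ s (E1 A B R u q a) :=
  ((hs.ufn a).DD.sub (Fn.sum fun b _ => (hs.qfn b).smul (B a b))).sub
    (comp_fn hc hs (hc.R_fn.dh a))

theorem E2_fn (hc : Ctx A B M σ R) (hs : St A B M σ R δ s b ε u q) (a : Fin n) :
    Fn δ s (E2 A R u q a) :=
  (hs.qfn a).DD.add (comp_fn hc hs (hc.R_fn.dz a.succ))

theorem Lm_fn (hc : Ctx A B M σ R) (hs : St A B M σ R δ s b ε u q) :
    Fn δ s (Lm A B R u q) := by
  have h1 : Fn δ s fun y => ∑ a, q a y * DD (u a) y :=
    Fn.sum fun a _ => (hs.qfn a).mul (hs.ufn a).DD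
  have h2 : Fn δ s fun y => ∑ a, ∑ b, (B a b : ℂ) * q a y * q b y :=
    Fn.sum fun a _ => Fn.sum fun b _ => ((hs.qfn a).smul (B a b)).mul (hs.qfn b)
  have h3 := (h1.sub (h2.smul (1 / 2))).sub (comp_fn hc hs hc.R_fn)
  have h4 : Lm A B R u q = fun y => ∑ a, q a y * DD (u a) y -
      ((1 / 2 : ℝ) : ℂ) * ∑ a, ∑ b, (B a b : ℂ) * q a y * q b y - R (Ps A u q y) := by
    funext y
    simp only [Lm]
    push_cast
    ring
  rw [h4]
  exact h3

private theorem dR_bd' (hc : Ctx A B M σ R) (hs : St A B M σ R δ s b ε u q) (i : Fin (n + 1))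
    (a : Fin n) : Bd δ s (2 / σ) (fun y => dz i R (Ps A u q y)) ∧
      Bd δ s (2 / σ) (fun y => dh a R (Ps A u q y)) := by
  have hσ := hc.σ_pos
  have h1 : σ / 2 < σ := by linarith
  have h2 : 1 / (σ - σ / 2) = 2 / σ := by
    rw [sub_half, one_div_div]
  have h3 := hc.R_bd.cdz hc.R_fn h1 i
  have h4 := hc.R_bd.cdh hc.R_fn h1 a
  rw [h2] at h3 h4
  exact ⟨fun y hy => h3 _ (Om_mono (by linarith) (by linarith) (Ps_mem hc hs hy)),
    fun y hy => h4 _ (Om_mono (by linarith) (by linarith) (Ps_mem hc hs hy))⟩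

private theorem nMb_le (hc : Ctx A B M σ R) (hs : St A B M σ R δ s b ε u q) :
    (n : ℝ) * M * b ≤ σ / 64 := by
  have hσ := hc.σ_pos
  have hM : 0 < M := lt_of_lt_of_le one_pos hc.M_ge
  have h1 := hs.b_le
  have hn : (0 : ℝ) ≤ n := Nat.cast_nonneg n
  have h2 : b * (64 * ((n : ℝ) + 1) ^ 2 * M) ≤ σ := by
    rw [b0, le_div_iff₀ (by positivity)] at h1
    exact h1
  have hb := hs.b_nonneg
  have h3 : 64 * ((n : ℝ) * M * b) ≤ b * (64 * ((n : ℝ) + 1) ^ 2 * M) := by
    have h4 : (n : ℝ) ≤ ((n : ℝ) + 1) ^ 2 := by nlinarith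
    have h5 := mul_le_mul_of_nonneg_right h4 (mul_nonneg hM.le hb)
    nlinarith
  linarith

theorem Lm_bd (hc : Ctx A B M σ R) (hs : St A B M σ R δ s b ε u q) :
    Bd δ s 2 (Lm A B R u q) := by
  have hσ := hc.σ_pos
  have hσ1 := hc.σ_le
  have hM : 1 ≤ M := hc.M_ge
  have hb := hs.b_nonneg
  have hn : (0 : ℝ) ≤ n := Nat.cast_nonneg n
  have hk := nMb_le hc hs
  have hnb : (n : ℝ) * b ≤ σ / 64 := by
    have h1 := mul_le_mul_of_nonneg_left hM (mul_nonneg hn hb)
    nlinarith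
  have hq : ∀ a, Bd δ s b (q a) := hs.q0
  have hBq : ∀ a, Bd δ s (n * (M * b)) fun y => ∑ c, (B a c : ℂ) * q c y := by
    intro a
    refine Bd.sum' fun c => ?_
    refine Bd.mul (c := M) (fun y _ => ?_) (hq c) (by linarith)
    rw [Complex.norm_real, Real.norm_eq_abs]
    exact hc.B_le a c
  have hD : ∀ a, Bd δ s (4 / σ) (DD (u a)) := by
    intro a y hy
    have h1 := hs.e1 a y hy
    have h2 := hBq a y hy
    have h3 := (dR_bd' hc hs 0 a).2 y hy
    have h4 : DD (u a) y = E1 A B R u q a y + ∑ c, (B a c : ℂ) * q c y +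
        dh a R (Ps A u q y) := by
      simp only [E1]
      ring
    rw [h4]
    refine (norm_add_le _ _).trans ?_
    have h5 := norm_add_le (E1 A B R u q a y) (∑ c, (B a c : ℂ) * q c y)
    have h6 : (2 : ℝ) ≤ 2 / σ := by
      rw [le_div_iff₀ hσ]
      linarith
    have h7 : 4 / σ = 2 / σ + 2 / σ := by
      rw [← add_div]
      norm_num
    have h8 : (n : ℝ) * (M * b) ≤ 1 := by
      rw [← mul_assoc]
      linarith
    have h9 := hs.ε_le
    simp only at h2 h3
    rw [h7]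
    linarith
  intro y hy
  have h1 : ‖∑ a, q a y * DD (u a) y‖ ≤ n * (b * (4 / σ)) :=
    Bd.sum' (f := fun a y => q a y * DD (u a) y) (fun a => (hq a).mul (hD a) hb) y hy
  have h2 : ‖∑ a, ∑ c, (B a c : ℂ) * q a y * q c y‖ ≤ n * (b * (n * (M * b))) := by
    have h3 : ∑ a, ∑ c, (B a c : ℂ) * q a y * q c y =
        ∑ a, q a y * ∑ c, (B a c : ℂ) * q c y := by
      refine Finset.sum_congr rfl fun a _ => ?_
      rw [Finset.mul_sum]
      exact Finset.sum_congr rfl fun c _ => by ring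
    rw [h3]
    exact Bd.sum' (f := fun a y => q a y * ∑ c, (B a c : ℂ) * q c y)
      (fun a => (hq a).mul (hBq a) hb) y hy
  have h3 : ‖R (Ps A u q y)‖ ≤ 1 :=
    hc.R_bd _ (Om_mono (by linarith) (by linarith) (Ps_mem hc hs hy))
  have h4 : (n : ℝ) * (b * (4 / σ)) ≤ 1 / 16 := by
    have h5 : (n : ℝ) * (b * (4 / σ)) = (n * b) * (4 / σ) := by ring
    rw [h5]
    have h6 := mul_le_mul_of_nonneg_right hnb (show 0 ≤ 4 / σ by positivity)
    refine h6.trans (le_of_eq ?_)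
    field_simp
    norm_num
  have h5 : (n : ℝ) * (b * (n * (M * b))) ≤ 1 / 64 := by
    have h6 : (n : ℝ) * (b * (n * (M * b))) = (n * b) * (n * M * b) := by ring
    rw [h6]
    have h7 : (n : ℝ) * b ≤ 1 / 64 := by linarith
    have h8 : (n : ℝ) * M * b ≤ 1 := by linarith
    have h9 : 0 ≤ (n : ℝ) * M * b := by positivity
    nlinarith [mul_nonneg hn hb]
  have h6 : ‖(∑ a, ∑ c, (B a c : ℂ) * q a y * q c y) / 2‖ =
      ‖∑ a, ∑ c, (B a c : ℂ) * q a y * q c y‖ / 2 := by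
    rw [norm_div]
    norm_num
  simp only [Lm]
  refine (norm_sub_le _ _).trans ?_
  have h7 := norm_sub_le (∑ a, q a y * DD (u a) y)
    ((∑ a, ∑ c, (B a c : ℂ) * q a y * q c y) / 2)
  rw [h6] at h7
  linarith

theorem gg_Zi (A B : Matrix (Fin n) (Fin n) ℝ) (R : CE n → ℂ) (u q : Fin n → CE n → ℂ)
    (a : Fin n) : Zi (gg A B R u q a) :=
  (avg_Zi _).dh a

theorem gg_fn (hc : Ctx A B M σ R) (hs : St A B M σ R δ s b ε u q) (a : Fin n) (δ' : ℝ) :
    Fn δ' s (gg A B R u q a) :=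
  (avg_fn (Lm_fn hc hs) hs.δ_pos δ').dh a

theorem ta_Zi (A B : Matrix (Fin n) (Fin n) ℝ) (R : CE n → ℂ) (u q : Fin n → CE n → ℂ)
    (a c : Fin n) : Zi (ta A B R u q a c) := by
  intro z z' h
  have h1 := (gg_Zi A B R u q c).dh a z z' h
  simp only [ta]
  rw [h1]

theorem ta_fn (hc : Ctx A B M σ R) (hs : St A B M σ R δ s b ε u q) (a c : Fin n) (δ' : ℝ) :
    Fn δ' s (ta A B R u q a c) :=
  (fn_const (A a c)).add ((gg_fn hc hs c δ').dh a)

theorem ta_symm (hc : Ctx A B M σ R) (hs : St A B M σ R δ s b ε u q) (a c : Fin n)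
    (hy : y ∈ Om n δ s) : ta A B R u q a c y = ta A B R u q c a y := by
  have h1 := dh_dh (avg_fn (Lm_fn hc hs) hs.δ_pos δ) a c hy
  simp only [ta, gg]
  rw [h1, hc.symm a c]

theorem ZZ_fn (hc : Ctx A B M σ R) (hs : St A B M σ R δ s b ε u q) (hw : Fn δ s w) :
    Fn δ s (ZZ A B R u q w) :=
  (hw.DD.sub (Lm_fn hc hs)).add (avg_fn (Lm_fn hc hs) hs.δ_pos δ)

/-- the mean of `Z` is zero -/
theorem ZZ_avg (hc : Ctx A B M σ R) (hs : St A B M σ R δ s b ε u q) (hw : Fn δ s w)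
    (hy : y ∈ Om n δ s) : avg (ZZ A B R u q w) y = 0 := by
  have hL := Lm_fn hc hs
  have h1 := avg_add (hw.DD.sub hL) (avg_fn hL hs.δ_pos δ) hs.δ_pos hy
  have h2 := avg_sub hw.DD hL hs.δ_pos hy
  have h3 : avg (ZZ A B R u q w) y =
      avg (fun y => DD w y - Lm A B R u q y + avg (Lm A B R u q) y) y := rfl
  rw [h3, h1, h2, avg_DD hw hs.δ_pos hy, avg_zi (avg_Zi _)]
  ring

theorem HH_fn (hc : Ctx A B M σ R) (hs : St A B M σ R δ s b ε u q) (hw : Fn δ s w)
    (a : Fin n) : Fn δ s (HH A B R u q w a) :=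
  (((hw.dz a.succ).add (gg_fn hc hs a δ)).sub (hs.qfn a)).sub
    (Fn.sum fun b _ => (hs.qfn b).mul ((hs.ufn b).dz a.succ))

theorem KK_fn (hc : Ctx A B M σ R) (hs : St A B M σ R δ s b ε u q) (hw : Fn δ s w)
    (a : Fin n) : Fn δ s (KK A u q w a) :=
  ((hw.dh a).add (Fn.sum fun b _ => (hs.ufn b).smul (A b a))).sub
    (Fn.sum fun b _ => (hs.qfn b).mul ((hs.ufn b).dh a))

theorem Sg_fn (hs : St A B M σ R δ s b ε u q) (a c : Fin n) : Fn δ s (Sg A u q a c) :=
  Fn.sum fun d _ => (((Q_fn hs d).dh a).mul (dhX_fn hs c d)).sub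
    (((Q_fn hs d).dh c).mul (dhX_fn hs a d))

/-- bounds of the derivatives of `R` along `Ψ` -/
theorem dR_bd (hc : Ctx A B M σ R) (hs : St A B M σ R δ s b ε u q) (i : Fin (n + 1))
    (a : Fin n) : Bd δ s (2 / σ) (fun y => dz i R (Ps A u q y)) ∧
      Bd δ s (2 / σ) (fun y => dh a R (Ps A u q y)) :=
  dR_bd' hc hs i a

end Pool.Agent.LRig
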