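import Pool.Agent.LRig.VH

/-!
# LR (MP_74f563_an, all n), file VI: curves in the coordinates of a leaf

PROOFS.  `X (t, ·)` is a `C¹` map of `ℝⁿ` with `‖X_θ - id‖ ≤ 1/4` (`near`), so `θ ↦ X (t, θ) - θ` is
`1/4`-Lipschitz (mean value inequality) and `X (t, ·)` is bijective: for given `x` the map
`θ ↦ θ - X (t, θ) + x` is a contraction.  Let `Y (t, x)` be the inverse.  It is `C¹` (or at least
continuous, and differentiable with invertible derivative): `G (t, θ) = (t, X (t, θ))` is a `C¹`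
bijection of `ℝ × ℝⁿ` with invertible derivative, so its inverse is `C¹`
(`ContDiffAt.to_localInverse`, `HasStrictFDerivAt.to_localInverse`, uniqueness of the inverse).
`conv1`: `θ̄ t = θ (max a (min t b))` is continuous on `ℝ`; `z t = X (t, θ̄ t)`,
`v t = fderiv X (t, θ̄ t) (1, h + u t)` is measurable (`fderiv X` is continuous, evaluation),
bounded on
`[a, b]`; off the exceptional set the chain rule.
`conv2`: `θ t = Y (t, z t)` (with `z` replaced by the clamped curve), and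
`u t = (fderiv Y (t, z̄ t) (1, v t)) - h`: this is measurable and bounded, and
`fderiv X (t, θ t) (1, h + u t) = v t` for every `t ∈ [a, b]` by the chain rule for
`X (t, Y (t, x)) = x`.
`EE_int`: for `t ∈ [a, b]`
`EE .. = lf L (z t) (v t) t - ⟪c, h + u t⟫ - fderiv W (t, θ t) (1, h + u t) + A`.
Integrate: `∫ ⟪c, h + u⟫ = ⟪c, θ (a+T) - θ a⟫ = ⟪c, zv l⟫ = ⟪c, z (a+T) - z a⟫ = ∫ ⟪c, v⟫`
(`VCv.ftc`),
`∫ fderiv W (1, h + u) = W (a + T, θ a + zv l) - W (a, θ a) = 0` (`VCv.ftc_comp`, periodicity).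
-/

set_option autoImplicit false

namespace Pool.Agent.LRig

open Set MeasureTheory Pool.Agent.MechAlpha
open scoped RealInnerProductSpace ContDiff

variable {n : ℕ} {L : Torus n → Vec n → UnitAddCircle → ℝ} {H : Vec n → Vec n → ℝ → ℝ}
  {Hp : Vec n → Vec n → ℝ → Vec n} {h c : Vec n} {Λ : ℝ} {j : Fin n → ℤ} {m : ℤ}
  {Rb : ℝ → ℝ} {κ : ℝ} {X Q : ℝ × Vec n → Vec n} {W : ℝ × Vec n → ℝ}

private theorem X_lip (hf : Leaf H Hp h c Λ j m Rb κ X Q W) (t : ℝ) (θ θ' : Vec n) :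
    ‖(X (t, θ) - θ) - (X (t, θ') - θ')‖ ≤ 1 / 4 * ‖θ - θ'‖ := by
  have hd : ∀ x : Vec n, HasFDerivAt (fun x : Vec n => X (t, x) - x)
      ((fderiv ℝ X (t, x)).comp (ContinuousLinearMap.inr ℝ ℝ (Vec n)) -
        ContinuousLinearMap.id ℝ (Vec n)) x := by
    intro x
    have h1 : HasFDerivAt X (fderiv ℝ X (t, x)) (t, x) :=
      (hf.X_c1.differentiable one_ne_zero (t, x)).hasFDerivAt
    exact (h1.comp x (hasFDerivAt_prodMk_right t x)).sub (hasFDerivAt_id x)
  refine Convex.norm_image_sub_le_of_norm_hasFDerivWithin_le (s := Set.univ)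
    (f := fun x : Vec n => X (t, x) - x) (fun x _ => (hd x).hasFDerivWithinAt) (fun x _ => ?_)
    convex_univ (mem_univ θ') (mem_univ θ)
  refine ContinuousLinearMap.opNorm_le_bound _ (by norm_num) fun v => ?_
  have h2 := hf.near t x v
  change ‖fderiv ℝ X (t, x) (0, v) - v‖ ≤ 1 / 4 * ‖v‖
  linarith

theorem X_inj (hf : Leaf H Hp h c Λ j m Rb κ X Q W) {t : ℝ} {θ θ' : Vec n}
    (he : X (t, θ) = X (t, θ')) : θ = θ' := by
  have h1 := X_lip hf t θ θ'
  have h2 : (X (t, θ) - θ) - (X (t, θ') - θ') = -(θ - θ') := by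
    rw [he]
    abel
  rw [h2, norm_neg] at h1
  have h3 : ‖θ - θ'‖ = 0 := by linarith [norm_nonneg (θ - θ')]
  exact sub_eq_zero.1 (norm_eq_zero.1 h3)

private theorem X_surj (hf : Leaf H Hp h c Λ j m Rb κ X Q W) (t : ℝ) (x : Vec n) :
    ∃ θ, X (t, θ) = x := by
  have hc : ContractingWith (1 / 4 : NNReal) (fun θ : Vec n => θ - X (t, θ) + x) := by
    refine ⟨?_, LipschitzWith.of_dist_le_mul fun θ θ' => ?_⟩
    · rw [← NNReal.coe_lt_coe]
      norm_num
    · rw [dist_eq_norm, dist_eq_norm]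
      have h1 := X_lip hf t θ θ'
      have h2 : (θ - X (t, θ) + x) - (θ' - X (t, θ') + x) =
          -((X (t, θ) - θ) - (X (t, θ') - θ')) := by abel
      rw [h2, norm_neg]
      refine h1.trans (le_of_eq ?_)
      norm_num
  have h1 : ContractingWith.fixedPoint (fun θ : Vec n => θ - X (t, θ) + x) hc -
      X (t, ContractingWith.fixedPoint (fun θ : Vec n => θ - X (t, θ) + x) hc) + x =
        ContractingWith.fixedPoint (fun θ : Vec n => θ - X (t, θ) + x) hc :=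
    hc.fixedPoint_isFixedPt
  refine ⟨ContractingWith.fixedPoint (fun θ : Vec n => θ - X (t, θ) + x) hc, ?_⟩
  have h2 := congrArg (fun y => y - ContractingWith.fixedPoint
    (fun θ : Vec n => θ - X (t, θ) + x) hc +
      X (t, ContractingWith.fixedPoint (fun θ : Vec n => θ - X (t, θ) + x) hc)) h1
  simp only [sub_self, zero_add] at h2
  rw [← h2]
  abel

private theorem exists_Y (hf : Leaf H Hp h c Λ j m Rb κ X Q W) :
    ∃ Y : ℝ × Vec n → Vec n, ContDiff ℝ 1 Y ∧ (∀ t θ, Y (t, X (t, θ)) = θ) ∧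
      ∀ t x, X (t, Y (t, x)) = x := by
  let G : ℝ × Vec n → ℝ × Vec n := fun p => (p.1, X p)
  have hG : ContDiff ℝ 1 G := contDiff_fst.prodMk hf.X_c1
  have hinj : Function.Injective G := by
    rintro ⟨t, θ⟩ ⟨s, θ'⟩ he
    have h1 : t = s := congrArg Prod.fst he
    subst h1
    have h2 : X (t, θ) = X (t, θ') := congrArg Prod.snd he
    rw [X_inj hf h2]
  have hsurj : Function.Surjective G := by
    rintro ⟨t, x⟩
    obtain ⟨θ, hθ⟩ := X_surj hf t x
    exact ⟨(t, θ), Prod.ext rfl hθ⟩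
  have hd : ∀ p, HasStrictFDerivAt G
      ((ContinuousLinearMap.fst ℝ ℝ (Vec n)).prod (fderiv ℝ X p)) p := fun p =>
    hasStrictFDerivAt_fst.prodMk (hf.X_c1.hasStrictFDerivAt one_ne_zero)
  have hinv : ∀ p, ∃ e : (ℝ × Vec n) ≃L[ℝ] (ℝ × Vec n),
      (e : (ℝ × Vec n) →L[ℝ] (ℝ × Vec n)) =
        (ContinuousLinearMap.fst ℝ ℝ (Vec n)).prod (fderiv ℝ X p) := by
    intro p
    have hi : Function.Injective (((ContinuousLinearMap.fst ℝ ℝ (Vec n)).prod (fderiv ℝ X p) :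
        (ℝ × Vec n) →L[ℝ] (ℝ × Vec n)) : (ℝ × Vec n) →ₗ[ℝ] (ℝ × Vec n)) := by
      rw [injective_iff_map_eq_zero]
      rintro ⟨s, v⟩ h0
      have h1 : s = 0 := congrArg Prod.fst h0
      subst h1
      have h2 : fderiv ℝ X p (0, v) = 0 := congrArg Prod.snd h0
      have h3 : ‖fderiv ℝ X p (0, v) - v‖ ≤ ‖v‖ / 4 := hf.near p.1 p.2 v
      rw [h2, zero_sub, norm_neg] at h3
      have h4 : ‖v‖ = 0 := by linarith [norm_nonneg v]
      rw [norm_eq_zero.1 h4]
      rfl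
    refine ⟨(LinearEquiv.ofInjectiveEndo (((ContinuousLinearMap.fst ℝ ℝ (Vec n)).prod
      (fderiv ℝ X p) : (ℝ × Vec n) →L[ℝ] (ℝ × Vec n)) :
        (ℝ × Vec n) →ₗ[ℝ] (ℝ × Vec n)) hi).toContinuousLinearEquiv, ?_⟩
    refine ContinuousLinearMap.ext fun x => rfl
  choose e he using hinv
  have hd' : ∀ p, HasStrictFDerivAt G (e p : (ℝ × Vec n) →L[ℝ] (ℝ × Vec n)) p := fun p => by
    rw [he]
    exact hd p
  let Φ := (Equiv.ofBijective G ⟨hinj, hsurj⟩).toHomeomorphOfContinuousOpen hG.continuous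
    (isOpenMap_of_hasStrictFDerivAt_equiv hd')
  have hΦ : ContDiff ℝ 1 Φ.symm := Φ.contDiff_symm (f₀' := e) (fun p => (hd' p).hasFDerivAt) hG
  refine ⟨fun p => (Φ.symm p).2, hΦ.snd, fun t θ => ?_, fun t x => ?_⟩
  · have h1 : Φ.symm (Φ (t, θ)) = (t, θ) := Φ.symm_apply_apply _
    exact congrArg Prod.snd h1
  · have h1 : Φ (Φ.symm (t, x)) = (t, x) := Φ.apply_symm_apply _
    have h2 : (Φ.symm (t, x)).1 = t := congrArg Prod.fst h1
    have h3 : X (Φ.symm (t, x)) = x := congrArg Prod.snd h1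
    have h4 : (t, (Φ.symm (t, x)).2) = Φ.symm (t, x) := Prod.ext h2.symm rfl
    change X (t, (Φ.symm (t, x)).2) = x
    rw [h4]
    exact h3

private theorem conv_gen {F : ℝ × Vec n → Vec n} (hF : ContDiff ℝ 1 F) {z u : ℝ → Vec n}
    {a b : ℝ} (hz : VCv z u a b) : ∃ z' v' : ℝ → Vec n, VCv z' v' a b ∧
      ∀ t ∈ Icc a b, z' t = F (t, z t) ∧ v' t = fderiv ℝ F (t, z t) (1, u t) := by
  obtain ⟨hab, hc, ⟨N, hN, hd⟩, hm, M, hM⟩ := hz
  have hcl : Continuous fun t => z (max a (min t b)) := by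
    have h1 : Continuous fun t : ℝ => max a (min t b) := by fun_prop
    exact hc.comp_continuous h1 fun t => ⟨le_max_left _ _, max_le hab (min_le_right _ _)⟩
  have hcle : ∀ t ∈ Icc a b, z (max a (min t b)) = z t := fun t ht => by
    rw [min_eq_left ht.2, max_eq_right ht.1]
  have hΦ : Continuous fun p : ℝ × Vec n =>
      fderiv ℝ F (p.1, z (max a (min p.1 b))) (1, p.2) :=
    ((hF.continuous_fderiv one_ne_zero).comp
      (continuous_fst.prodMk (hcl.comp continuous_fst))).clm_apply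
        (continuous_const.prodMk continuous_snd)
  obtain ⟨C, hC⟩ := ((isCompact_Icc (a := a) (b := b)).prod
    (isCompact_closedBall (0 : Vec n) M)).exists_bound_of_continuousOn hΦ.continuousOn
  refine ⟨fun t => F (t, z (max a (min t b))),
    fun t => fderiv ℝ F (t, z (max a (min t b))) (1, u t),
    ⟨hab, (hF.continuous.comp (continuous_id.prodMk hcl)).continuousOn,
      ⟨N, hN, fun t ht htN => ?_⟩, hΦ.measurable.comp (measurable_id.prodMk hm), C,
      fun t ht => hC (t, u t) ⟨ht, ?_⟩⟩, fun t ht => ?_⟩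
  · have h1 : HasDerivAt (fun s => (s, z s)) ((1 : ℝ), u t) t :=
      (hasDerivAt_id t).prodMk (hd t ht htN)
    have h2 : HasFDerivAt F (fderiv ℝ F (t, z t)) (t, z t) :=
      (hF.differentiable one_ne_zero _).hasFDerivAt
    have h3 := h2.comp_hasDerivAt t h1
    rw [hcle t ⟨ht.1.le, ht.2.le⟩]
    refine h3.congr_of_eventuallyEq ?_
    filter_upwards [Ioo_mem_nhds ht.1 ht.2] with s hs
    rw [hcle s ⟨hs.1.le, hs.2.le⟩]
    rfl
  · rw [mem_closedBall_zero_iff]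
    exact hM t ht
  · beta_reduce
    rw [hcle t ht]
    exact ⟨rfl, rfl⟩

theorem conv1 (hf : Leaf H Hp h c Λ j m Rb κ X Q W) {θ u : ℝ → Vec n} {a b : ℝ}
    (hθ : TCv h θ u a b) : ∃ z v : ℝ → Vec n, VCv z v a b ∧
      ∀ t ∈ Icc a b, z t = X (t, θ t) ∧ v t = fderiv ℝ X (t, θ t) (1, h + u t) :=
  conv_gen hf.X_c1 hθ

theorem conv2 (hf : Leaf H Hp h c Λ j m Rb κ X Q W) {z v : ℝ → Vec n} {a b : ℝ}
    (hz : VCv z v a b) : ∃ θ u : ℝ → Vec n, TCv h θ u a b ∧
      ∀ t ∈ Icc a b, z t = X (t, θ t) ∧ v t = fderiv ℝ X (t, θ t) (1, h + u t) := by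
  obtain ⟨Y, hY, h1, h2⟩ := exists_Y hf
  obtain ⟨θ, w, hw, he⟩ := conv_gen hY hz
  refine ⟨θ, fun t => w t - h, ?_, fun t ht => ?_⟩
  · have h3 : (fun t => h + (w t - h)) = w := by
      funext t
      abel
    unfold TCv
    rw [h3]
    exact hw
  · obtain ⟨e1, e2⟩ := he t ht
    refine ⟨by rw [e1, h2], ?_⟩
    rw [add_sub_cancel, e2, e1]
    have h3 : HasFDerivAt Y (fderiv ℝ Y (t, z t)) (t, z t) :=
      (hY.differentiable one_ne_zero _).hasFDerivAt
    have h4 : HasFDerivAt X (fderiv ℝ X (t, Y (t, z t))) (t, Y (t, z t)) :=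
      (hf.X_c1.differentiable one_ne_zero _).hasFDerivAt
    have h5 : HasFDerivAt (fun p : ℝ × Vec n => (p.1, Y p))
        ((ContinuousLinearMap.fst ℝ ℝ (Vec n)).prod (fderiv ℝ Y (t, z t))) (t, z t) :=
      hasFDerivAt_fst.prodMk h3
    have h6 := HasFDerivAt.comp (t, z t) (g := X) h4 h5
    have h7 : (X ∘ fun p : ℝ × Vec n => (p.1, Y p)) = Prod.snd := by
      funext p
      exact h2 p.1 p.2
    rw [h7] at h6
    have h8 := h6.unique hasFDerivAt_snd
    exact (DFunLike.congr_fun h8 (1, v t)).symm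

theorem EE_int (hL : Continuous fun q : Vec n × Vec n × ℝ => lf L q.1 q.2.1 q.2.2)
    (hf : Leaf H Hp h c Λ j m Rb κ X Q W) (A : ℝ) {θ u z v : ℝ → Vec n} {a : ℝ} {T : ℕ}
    {l : Fin n → ℤ} (hθ : TCv h θ u a (a + T)) (hz : VCv z v a (a + T))
    (he : ∀ t ∈ Icc a (a + T), z t = X (t, θ t) ∧ v t = fderiv ℝ X (t, θ t) (1, h + u t))
    (hc : θ (a + T) = θ a + zv l) :
    cost (EE L h c A X W) θ u a (a + T) =
      (∫ t in a..(a + T), (lf L (z t) (v t) t - ⟪c, v t⟫)) + A * T := by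
  have haT : a ≤ a + T := hz.le
  have e0 : ∀ t ∈ uIcc a (a + T), EE L h c A X W (θ t) (u t) t =
      (lf L (z t) (v t) t - ⟪c, v t⟫) + ⟪c, v t⟫ - ⟪c, h + u t⟫ -
        fderiv ℝ W (t, θ t) (1, h + u t) + A := by
    intro t ht
    rw [uIcc_of_le haT] at ht
    obtain ⟨e1, e2⟩ := he t ht
    unfold EE
    rw [← e1, ← e2]
    ring
  have hT0 : TCv 0 z v a (a + T) := by
    unfold TCv
    simpa using hz
  have i1 : IntervalIntegrable (fun t => lf L (z t) (v t) t) volume a (a + T) :=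
    integrable_cost (E := fun x v t => lf L x v t) hL hT0
  have hF : ContDiff ℝ 1 (fun p : ℝ × Vec n => ⟪c, p.2⟫) := contDiff_const.inner ℝ contDiff_snd
  have hFd : ∀ p w : ℝ × Vec n, fderiv ℝ (fun p : ℝ × Vec n => ⟪c, p.2⟫) p w = ⟪c, w.2⟫ := by
    intro p w
    have h1 : HasFDerivAt (fun p : ℝ × Vec n => ⟪c, p.2⟫)
        ((innerSL ℝ c).comp (ContinuousLinearMap.snd ℝ ℝ (Vec n))) p :=
      ((innerSL ℝ c).comp (ContinuousLinearMap.snd ℝ ℝ (Vec n))).hasFDerivAt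
    rw [h1.fderiv]
    rfl
  have i2 := VCv.ftc_comp hF hz
  have i3 := VCv.ftc_comp hF hθ
  have i4 := VCv.ftc_comp hf.W_c1 hθ
  simp only [hFd] at i2 i3
  have hWT : ∀ (k : ℕ) (x : Vec n), W (a + k, x) = W (a, x) := by
    intro k x
    induction k with
    | zero => rw [Nat.cast_zero, add_zero]
    | succ k ih => rw [Nat.cast_succ, ← add_assoc, hf.W_pert, ih]
  have hXT : ∀ (k : ℕ) (x : Vec n), X (a + k, x) = X (a, x) := by
    intro k x
    induction k with
    | zero => rw [Nat.cast_zero, add_zero]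
    | succ k ih => rw [Nat.cast_succ, ← add_assoc, hf.X_pert, ih]
  have hza := (he a (left_mem_Icc.2 haT)).1
  have hzb := (he (a + T) (right_mem_Icc.2 haT)).1
  rw [hc, hf.X_per, hXT, ← hza] at hzb
  obtain ⟨i2a, i2b⟩ := i2
  obtain ⟨i3a, i3b⟩ := i3
  obtain ⟨i4a, i4b⟩ := i4
  rw [hzb, inner_add_right] at i2b
  rw [hc, inner_add_right] at i3b
  rw [hc, hf.W_per, hWT, sub_self] at i4b
  unfold cost
  rw [intervalIntegral.integral_congr e0,
    intervalIntegral.integral_add ((((i1.sub i2a).add i2a).sub i3a).sub i4a)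
      intervalIntegrable_const,
    intervalIntegral.integral_sub (((i1.sub i2a).add i2a).sub i3a) i4a,
    intervalIntegral.integral_sub ((i1.sub i2a).add i2a) i3a,
    intervalIntegral.integral_add (i1.sub i2a) i2a, intervalIntegral.integral_const, i2b, i3b,
    i4b, smul_eq_mul]
  ring

end Pool.Agent.LRig
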