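import Pool.Agent.LRig.VG
import Pool.Agent.LRig.VI

/-!
# LR (MP_74f563_an, all n), file VJ: a leaf with a large resonant potential contradicts convexity

PROOF.  `c₁`, `κ'`, `C` from `EE_bounds`, `D'`, `p` from `wind n κ' C`; `D = c₁ (D' + 1)`.  Suppose
`r := sup - inf of Rb` (attained: `Rb` is continuous and periodic) satisfies `r > D K^p κ²`.  Put
`κ₁ = c₁ κ²`: `0 < κ₁ ≤ 1` (`D κ ≤ 1`, `κ ≤ 1`), `κ₁ D' K^p ≤ r`.
Let `A s = alpha L φ (c + s • zv j) + s m`.  For every real `s` the function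
`E = EE L h c (A s) X W`
satisfies `WD E j m h f κ₁ κ' C` with `f x = Λ - ⟪c, h⟫ + A s + Rb x`: `EE_cont`, `EE_per`,
`EE_bounds`, and
`zero`: for a closed curve `θ` with winding `0` let `(z, v)` be from `conv1`; `z (a+T) = z a + zv l`
(`X_per`, `X_pert`), and by `EE_int` and `Clo L (c + s zv j) (alpha ..)`:
`cost = ∫ (lf L - ⟪c, v⟫) + A s T`
`= ∫ (lf L - ⟪c + s zv j, v⟫) + alpha(..) T + s (⟪zv j, zv l⟫ + m T) ≥ 0`
(`∫ ⟪zv j, v⟫ = ⟪zv j, zv l⟫`).
`wind` (the oscillation of `f` is that of `Rb`; `LipOsc`): with `c₂ = √(κ' κ₁)/K > 0`: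
`cost E θ u ≥ c₂ |⟪zv j, zv l⟫ + m T|` for all closed `θ`-curves.  Let `|s'| ≤ c₂`.  For every
closed curve
`(z, v)` of class `l` let `(θ, u)` be from `conv2`; `θ (a+T) = θ a + zv l` by `X_inj`; then
`∫ (lf L - ⟪c + s' zv j, v⟫) + (A s - s' m) T = cost - s' (⟪zv j, zv l⟫ + m T) ≥ 0`, that is
`Clo L (c + s' zv j) (A s - s' m)`, so by `hU`: `alpha (c + s' zv j) ≤ A s - s' m`, `A s' ≤ A s`.
So `A s' ≤ A s` for all `s`, `|s'| ≤ c₂`; hence `A` is constant on `[-c₂, c₂]`; but `A` is strictly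
convex
(strictly convex function on a line (`zv j ≠ 0`) plus an affine function): contradiction at the
points
`-c₂, 0, c₂`.
-/

set_option autoImplicit false

namespace Pool.Agent.LRig

open Set MeasureTheory Pool.Agent.MechAlpha
open scoped RealInnerProductSpace ContDiff

section

variable {n : ℕ} {L : Torus n → Vec n → UnitAddCircle → ℝ} {φ : ℝ → Phase n → Phase n}
  {H : Vec n → Vec n → ℝ → ℝ} {Hp : Vec n → Vec n → ℝ → Vec n} {h c : Vec n} {Λ : ℝ}
  {j : Fin n → ℤ} {m : ℤ} {Rb : ℝ → ℝ} {κ : ℝ} {X Q : ℝ × Vec n → Vec n} {W : ℝ × Vec n → ℝ}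

private theorem X_pertn (hf : Leaf H Hp h c Λ j m Rb κ X Q W) (t : ℝ) (θ : Vec n) (T : ℕ) :
    X (t + T, θ) = X (t, θ) := by
  induction T with
  | zero => rw [Nat.cast_zero, add_zero]
  | succ T ih =>
    rw [Nat.cast_succ, ← add_assoc, hf.X_pert, ih]

private theorem X_clo (hf : Leaf H Hp h c Λ j m Rb κ X Q W) (t : ℝ) (θ : Vec n) (T : ℕ)
    (l : Fin n → ℤ) : X (t + T, θ + zv l) = X (t, θ) + zv l := by
  rw [hf.X_per, X_pertn hf]

private theorem int_inner {z v : ℝ → Vec n} {a b : ℝ} (hz : VCv z v a b) (w : Vec n) :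
    IntervalIntegrable (fun t => ⟪w, v t⟫) volume a b ∧
      ∫ t in a..b, ⟪w, v t⟫ = ⟪w, z b - z a⟫ := by
  have hz' : TCv 0 z v a b := by
    change VCv z (fun t => 0 + v t) a b
    simpa only [zero_add] using hz
  refine ⟨?_, ?_⟩
  · exact integrable_cost (E := fun _ v _ => ⟪w, v⟫) (by fun_prop) hz'
  · have h1 := (innerSL ℝ w).intervalIntegral_comp_comm hz.integrable
    rw [hz.ftc] at h1
    exact h1

private theorem int_lag (hL : Continuous fun q : Vec n × Vec n × ℝ => lf L q.1 q.2.1 q.2.2)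
    {z v : ℝ → Vec n} {a b : ℝ} (hz : VCv z v a b) (c : Vec n) :
    IntervalIntegrable (fun t => lf L (z t) (v t) t - ⟪c, v t⟫) volume a b := by
  have hz' : TCv 0 z v a b := by
    change VCv z (fun t => 0 + v t) a b
    simpa only [zero_add] using hz
  exact integrable_cost (E := fun x v t => lf L x v t - ⟪c, v⟫)
    (hL.sub (continuous_const.inner (continuous_fst.comp continuous_snd))) hz'

/-- change of the cohomology class -/
private theorem int_change (hL : Continuous fun q : Vec n × Vec n × ℝ => lf L q.1 q.2.1 q.2.2)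
    {z v : ℝ → Vec n} {a b : ℝ} (hz : VCv z v a b) (c w : Vec n) (s : ℝ) {d : Vec n}
    (hd : z b - z a = d) :
    (∫ t in a..b, (lf L (z t) (v t) t - ⟪c + s • w, v t⟫)) =
      (∫ t in a..b, (lf L (z t) (v t) t - ⟪c, v t⟫)) - s * ⟪w, d⟫ := by
  obtain ⟨i1, i2⟩ := int_inner hz w
  have i3 := int_lag hL hz c
  have e1 : (fun t => lf L (z t) (v t) t - ⟪c + s • w, v t⟫) =
      fun t => (lf L (z t) (v t) t - ⟪c, v t⟫) - s * ⟪w, v t⟫ := by
    funext t
    rw [inner_add_left, real_inner_smul_left]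
    ring
  rw [e1, intervalIntegral.integral_sub i3 (i1.const_mul s),
    intervalIntegral.integral_const_mul, i2, hd]

private theorem nj_pos (hj : j ≠ 0) : 1 ≤ nj j := by
  by_contra hc
  have h0 : nj j = 0 := by omega
  apply hj
  funext i
  have h1 := (Finset.sum_eq_zero_iff.1 h0) i (Finset.mem_univ i)
  exact Int.natAbs_eq_zero.1 h1

private theorem osc (hf : Leaf H Hp h c Λ j m Rb κ X Q W) : ∃ x y, ∀ z, Rb z ≤ Rb x ∧
    Rb y ≤ Rb z := by
  have hper : Function.Periodic Rb 1 := hf.Rb_per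
  obtain ⟨x, -, hx⟩ := isCompact_Icc.exists_isMaxOn (Set.nonempty_Icc.2 zero_le_one)
    (hf.Rb_cont.continuousOn (s := Icc (0 : ℝ) 1))
  obtain ⟨y, -, hy⟩ := isCompact_Icc.exists_isMinOn (Set.nonempty_Icc.2 zero_le_one)
    (hf.Rb_cont.continuousOn (s := Icc (0 : ℝ) 1))
  refine ⟨x, y, fun z => ?_⟩
  obtain ⟨w, hw, hzw⟩ := hper.exists_mem_Ico₀ one_pos z
  have hw' : w ∈ Icc (0 : ℝ) 1 := ⟨hw.1, hw.2.le⟩
  rw [hzw]
  exact ⟨hx hw', hy hw'⟩

end

theorem no_leaf (n : ℕ) (a₀ a₁ : ℝ) (ha : 0 < a₀) : ∃ D : ℝ, ∃ p : ℕ, 1 ≤ D ∧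
    ∀ {L : Torus n → Vec n → UnitAddCircle → ℝ} {φ : ℝ → Phase n → Phase n}
      {H : Vec n → Vec n → ℝ → ℝ} {Hp : Vec n → Vec n → ℝ → Vec n} {h c : Vec n} {Λ : ℝ}
      {j : Fin n → ℤ} {m : ℤ} {Rb : ℝ → ℝ} {κ K : ℝ} {X Q : ℝ × Vec n → Vec n}
      {W : ℝ × Vec n → ℝ},
      Continuous (fun q : Vec n × Vec n × ℝ => lf L q.1 q.2.1 q.2.2) →
      (∀ c, Clo L c (alpha L φ c)) → (∀ c α, Clo L c α → alpha L φ c ≤ α) →
      StrictConvexOn ℝ univ (alpha L φ) → Wei L H Hp a₀ a₁ →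
      Leaf H Hp h c Λ j m Rb κ X Q W → 0 < κ → κ * D ≤ 1 → nj j ≤ K →
      LipOsc (7 * K ^ 2) Rb → ∀ x y, Rb x - Rb y ≤ D * K ^ p * κ ^ 2 := by
  obtain ⟨c₁, κ', C, hc1, hκ'0, hκ'1, hC, hbd⟩ := EE_bounds (n := n) a₀ a₁ ha
  obtain ⟨D', p, hD', hwind⟩ := wind n κ' C
  refine ⟨c₁ * (D' + 1), p, by nlinarith, ?_⟩
  intro L φ H Hp h c Λ j m Rb κ K X Q W hL hClo hU hconv hWei hf hκ hκD hnj hLip x y
  by_contra hcon
  push Not at hcon
  obtain ⟨xM, xm, hM⟩ := osc hf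
  have hK : 1 ≤ K := le_trans (by exact_mod_cast nj_pos hf.j_ne) hnj
  have hKp : 1 ≤ K ^ p := one_le_pow₀ hK
  obtain ⟨r, hr⟩ : ∃ r, r = Rb xM - Rb xm := ⟨_, rfl⟩
  have hr0 : c₁ * (D' + 1) * K ^ p * κ ^ 2 < r := by
    rw [hr]
    have h1 := (hM x).1
    have h2 := (hM y).2
    linarith
  obtain ⟨κ₁, hκ₁⟩ : ∃ κ₁, κ₁ = c₁ * κ ^ 2 := ⟨_, rfl⟩
  have hκ₁0 : 0 < κ₁ := by
    rw [hκ₁]
    positivity
  have hκ1 : κ ≤ 1 := by nlinarith
  have hκ₁1 : κ₁ ≤ 1 := by
    rw [hκ₁]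
    have h1 : c₁ * κ ≤ 1 := by nlinarith
    nlinarith
  have hκr : κ₁ * (D' * K ^ p) ≤ r := by
    refine le_trans ?_ hr0.le
    rw [hκ₁]
    have h1 : 0 ≤ c₁ * K ^ p * κ ^ 2 := by positivity
    nlinarith
  obtain ⟨c₂, hc₂⟩ : ∃ c₂, c₂ = √(κ' * κ₁) / K := ⟨_, rfl⟩
  have hc₂0 : 0 < c₂ := by
    rw [hc₂]
    have : 0 < κ' * κ₁ := mul_pos hκ'0 hκ₁0
    positivity
  obtain ⟨A, hA⟩ : ∃ A : ℝ → ℝ, A = fun s => alpha L φ (c + s • zv j) + s * m := ⟨_, rfl⟩
  -- the identity of the actions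
  have key : ∀ (s s' : ℝ) {θ u z v : ℝ → Vec n} {a : ℝ} {T : ℕ} {l : Fin n → ℤ},
      TCv h θ u a (a + T) → VCv z v a (a + T) →
      (∀ t ∈ Icc a (a + T), z t = X (t, θ t) ∧ v t = fderiv ℝ X (t, θ t) (1, h + u t)) →
      θ (a + T) = θ a + zv l → z (a + T) = z a + zv l →
      (∫ t in a..(a + T), (lf L (z t) (v t) t - ⟪c + s' • zv j, v t⟫)) =
        cost (EE L h c (A s) X W) θ u a (a + T) - A s * T - s' * ⟪zv j, zv l⟫ := by
    intro s s' θ u z v a T l hθ hz he hc' hzc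
    rw [int_change hL hz c (zv j) s' (d := zv l) (by rw [hzc]; abel),
      EE_int hL hf (A s) hθ hz he hc']
    ring
  have hWD : ∀ s : ℝ, WD (EE L h c (A s) X W) j m h
      (fun x => Λ - ⟪c, h⟫ + A s + Rb x) κ₁ κ' C := by
    intro s
    refine { E_cont := EE_cont hL hf (A s)
             E_perθ := fun θ u t l => (EE_per hf (A s) θ u t).1 l
             E_pert := fun θ u t => (EE_per hf (A s) θ u t).2
             low := fun θ u t => ?_
             up := fun θ u t => ?_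
             f_cont := continuous_const.add hf.Rb_cont
             f_per := fun x => ?_
             res := hf.res
             j_ne := hf.j_ne
             prim := hf.prim
             κ₁_pos := hκ₁0
             κ₁_le := hκ₁1
             κ'_pos := hκ'0
             κ'_le := hκ'1
             C_ge := hC
             zero := ?_ }
    · rw [hκ₁]
      exact (hbd hWei hf hκ.le (A s) θ u t).1
    · rw [hκ₁]
      exact (hbd hWei hf hκ.le (A s) θ u t).2
    · rw [hf.Rb_per]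
    · intro θ u a T l hT hθ hθc hw
      obtain ⟨z, v, hz, he⟩ := conv1 hf hθ
      have haT : a ≤ a + T := by linarith [(Nat.cast_nonneg T : (0 : ℝ) ≤ T)]
      have hzc : z (a + T) = z a + zv l := by
        rw [(he (a + T) (right_mem_Icc.2 haT)).1, (he a (left_mem_Icc.2 haT)).1, hθc,
          X_clo hf]
      have h1 := hClo (c + s • zv j) z v a T l hT hz hzc
      rw [key s s hθ hz he hθc hzc] at h1
      have h2 : A s = alpha L φ (c + s • zv j) + s * m := by rw [hA]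
      have h3 : s * (⟪zv j, zv l⟫ + m * T) = 0 := by rw [hw, mul_zero]
      rw [h2] at h1
      rw [h2]
      linarith
  have hcost : ∀ (s : ℝ) (θ u : ℝ → Vec n) (a : ℝ) (T : ℕ) (l : Fin n → ℤ), 0 < T →
      TCv h θ u a (a + T) → θ (a + T) = θ a + zv l →
      c₂ * |(⟪zv j, zv l⟫ : ℝ) + m * T| ≤ cost (EE L h c (A s) X W) θ u a (a + T) := by
    intro s
    rw [hc₂]
    refine hwind (r := r) (hWD s) hnj ?_ ⟨xM, xm, ?_⟩ ?_ hκr
    · intro x y
      have h1 := (hM x).1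
      have h2 := (hM y).2
      linarith
    · rw [hr]
      ring
    · intro x y
      have h1 := hLip r (fun x y => by
        have h1 := (hM x).1
        have h2 := (hM y).2
        linarith) x y
      have h2 : Λ - ⟪c, h⟫ + A s + Rb x - (Λ - ⟪c, h⟫ + A s + Rb y) = Rb x - Rb y := by ring
      rw [h2]
      exact h1
  have hAle : ∀ s s' : ℝ, |s'| ≤ c₂ → A s' ≤ A s := by
    intro s s' hs'
    have h1 : Clo L (c + s' • zv j) (A s - s' * m) := by
      intro z v a T l hT hz hzc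
      obtain ⟨θ, u, hθ, he⟩ := conv2 hf hz
      have haT : a ≤ a + T := by linarith [(Nat.cast_nonneg T : (0 : ℝ) ≤ T)]
      have hθc : θ (a + T) = θ a + zv l := by
        apply X_inj hf (t := a + T)
        rw [X_clo hf, ← (he (a + T) (right_mem_Icc.2 haT)).1,
          ← (he a (left_mem_Icc.2 haT)).1, hzc]
      rw [key s s' hθ hz he hθc hzc]
      have h2 := hcost s θ u a T l hT hθ hθc
      have h3 : s' * (⟪zv j, zv l⟫ + m * T) ≤ c₂ * |(⟪zv j, zv l⟫ : ℝ) + m * T| := by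
        refine (le_abs_self _).trans ?_
        rw [abs_mul]
        exact mul_le_mul_of_nonneg_right hs' (abs_nonneg _)
      linarith
    have h2 := hU _ _ h1
    have h3 : A s' = alpha L φ (c + s' • zv j) + s' * m := by rw [hA]
    rw [h3]
    linarith
  have e1 := hAle 0 c₂ (by rw [abs_of_pos hc₂0])
  have e2 := hAle 0 (-c₂) (by rw [abs_neg, abs_of_pos hc₂0])
  have hne : c + c₂ • zv j ≠ c + (-c₂) • zv j := by
    intro h1
    have h2 : (c₂ + c₂) • (zv j : Vec n) = 0 := by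
      have h3 := sub_eq_zero.2 h1
      rw [← h3]
      module
    rcases smul_eq_zero.1 h2 with h3 | h3
    · linarith
    · exact zv_ne hf.j_ne h3
  have h1 := hconv.2 (mem_univ (c + c₂ • zv j)) (mem_univ (c + (-c₂) • zv j)) hne
    (show (0 : ℝ) < 1 / 2 by norm_num) (show (0 : ℝ) < 1 / 2 by norm_num) (by norm_num)
  have h2 : (1 / 2 : ℝ) • (c + c₂ • zv j) + (1 / 2 : ℝ) • (c + (-c₂) • zv j) = c := by
    module
  rw [h2] at h1
  rw [hA] at e1 e2
  simp only [zero_smul, add_zero, zero_mul] at e1 e2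
  simp only [smul_eq_mul] at h1
  linarith

end Pool.Agent.LRig
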