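import Pool.Agent.LRig.RE
import Pool.Agent.LRig.VJ

/-!
# LR (MP_74f563_an, all n), file RF: the resonance lemma

`ResOK` : the resonant coefficients of every state with error `η^16` are at most `η^20`.

PROOF of `res_ok`.  Let `k = l k₀` (`exists_prim`), `dv k₀ (cp 0 0 h) = 0`, `1 ≤ nk k₀ ≤ K`. 
`d = η^5`,
`d K ≤ 1`.  `exists_h0`: `h₀` with `|h₀ a - h a| ≤ C₁ K^{p₁} d`.  `exists_leaf` at `h₀` with
`ε = η^16`
(`e^{-π(δ/2)K} ≤ η^32 = ε²`): a leaf with `κ = C₂ N^{p₂} η^11`.  `no_leaf`: (`κ D ≤ 1`,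
`nj (ja k₀) ≤ K` by `nj_ja`, `LipOsc` by `Rbs_lip`): the oscillation of `Rb` is at most
`D K^{p₃} κ² = D C₂² K^{p₃} N^{2p₂} η^22`, so `‖cf k F (cp 0 0 h₀)‖ ≤ D C₂² N^{p₃+2p₂} η^22`
(`Rbs_coef`, `l ∈ mK K k₀`, `F = Lm`).
Transfer to `h`: let `e = h₀ - h`; if `e = 0` nothing is to be shown.  Let `ρ = max |e a| > 0` and
`g x = cf k F (point with frequency h + x e)`, `x ∈ ℂ`, `|x - x₀| ≤ s/(2ρ)` for real `x₀`: the
point is in
the strip `s` and on the hyperplane (`dv k` is affine and vanishes at `h`, `h₀`), so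
`‖g x‖ ≤ η^16` (`res_bound`); by Cauchy's estimate `‖g'‖ ≤ 2ρ η^16/s` on `[0, 1]`, so
`‖g 0 - g 1‖ ≤ 2 ρ η^16/s ≤ 2 C₁ N^{p₁+1} η^21`.
Sum: `≤ η^20` if `η N^{p₀} C₀ ≤ 1` with suitable `C₀`, `p₀`.
-/

set_option autoImplicit false

namespace Pool.Agent.LRig

open Complex Set MeasureTheory Pool.Agent.MechAlpha
open scoped RealInnerProductSpace ContDiff

variable {n : ℕ}

/-- the resonant coefficients of good states are very small -/
def ResOK (A B : Matrix (Fin n) (Fin n) ℝ) (M σ : ℝ) (R : CE n → ℂ) (C₀ : ℝ) (p₀ : ℕ) : Prop :=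
  ∀ {δ s b η N : ℝ} {u q : Fin n → CE n → ℂ} {K : ℕ}, St A B M σ R δ s b (η ^ 16) u q →
    Big σ δ s N → (K : ℝ) ≤ N → 0 < η → C₀ * N ^ p₀ * η ≤ 1 →
    Real.exp (-(Real.pi * (δ / 2) * K)) ≤ η ^ 32 → ∀ k : Fin (n + 1) → ℤ, nk k ≤ K → Nz k →
      ∀ h : Vec n, dv k (cp 0 0 h) = 0 → ‖cf k (Lm A B R u q) (cp 0 0 h)‖ ≤ η ^ 20

private theorem dv_zsmul (l : ℤ) (k : Fin (n + 1) → ℤ) (y : CE n) :
    dv (l • k) y = l * dv k y := by
  rw [dv_eq, dv_eq, mul_add, Finset.mul_sum]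
  refine congrArg₂ _ ?_ (Finset.sum_congr rfl fun a _ => ?_)
  · rw [Pi.smul_apply, smul_eq_mul, Int.cast_mul]
  · rw [Pi.smul_apply, smul_eq_mul, Int.cast_mul, mul_assoc]

private theorem nk_zsmul (l : ℤ) (k : Fin (n + 1) → ℤ) : nk (l • k) = l.natAbs * nk k := by
  unfold nk
  rw [Finset.mul_sum]
  refine Finset.sum_congr rfl fun i _ => ?_
  rw [Pi.smul_apply, smul_eq_mul, Int.natAbs_mul]

private theorem nk_one {k : Fin (n + 1) → ℤ} (hk : Nz k) : 1 ≤ nk k := by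
  obtain ⟨a, ha⟩ := hk
  have h1 : (k a.succ).natAbs ≤ nk k :=
    Finset.single_le_sum (f := fun i => (k i).natAbs) (fun _ _ => Nat.zero_le _)
      (Finset.mem_univ a.succ)
  have h2 : (k a.succ).natAbs ≠ 0 := Int.natAbs_ne_zero.2 ha
  omega

/-- the point with the frequency `h + z e` -/
private noncomputable def Pt (h h₀ : Vec n) (z : ℂ) : CE n :=
  ((cp 0 0 h).1, fun a => (h a : ℂ) + z * ((h₀ a - h a : ℝ) : ℂ))

private theorem Pt_zero (h h₀ : Vec n) : Pt h h₀ 0 = cp 0 0 h := by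
  refine Prod.ext rfl (funext fun a => ?_)
  change (h a : ℂ) + 0 * ((h₀ a - h a : ℝ) : ℂ) = (h a : ℂ)
  rw [zero_mul, add_zero]

private theorem Pt_one (h h₀ : Vec n) : Pt h h₀ 1 = cp 0 0 h₀ := by
  refine Prod.ext rfl (funext fun a => ?_)
  change (h a : ℂ) + 1 * ((h₀ a - h a : ℝ) : ℂ) = (h₀ a : ℂ)
  push_cast
  ring

private theorem Pt_dv (k : Fin (n + 1) → ℤ) {h h₀ : Vec n} (h1 : dv k (cp 0 0 h) = 0)
    (h2 : dv k (cp 0 0 h₀) = 0) (z : ℂ) : dv k (Pt h h₀ z) = 0 := by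
  rw [dv_eq] at h1 h2 ⊢
  have e1 : ∑ a : Fin n, (k a.succ : ℂ) * (cp 0 0 h).2 a = ∑ a : Fin n, (k a.succ : ℂ) * h a :=
    rfl
  have e2 : ∑ a : Fin n, (k a.succ : ℂ) * (cp 0 0 h₀).2 a =
      ∑ a : Fin n, (k a.succ : ℂ) * h₀ a := rfl
  have e3 : ∑ a : Fin n, (k a.succ : ℂ) * (Pt h h₀ z).2 a =
      ∑ a : Fin n, (k a.succ : ℂ) * h a + z * (∑ a : Fin n, (k a.succ : ℂ) * h₀ a -
        ∑ a : Fin n, (k a.succ : ℂ) * h a) := by
    rw [← Finset.sum_sub_distrib, Finset.mul_sum, ← Finset.sum_add_distrib]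
    refine Finset.sum_congr rfl fun a _ => ?_
    change (k a.succ : ℂ) * ((h a : ℂ) + z * ((h₀ a - h a : ℝ) : ℂ)) = _
    push_cast
    ring
  rw [e1] at h1
  rw [e2] at h2
  rw [e3]
  linear_combination (1 - z) * h1 + z * h2

private theorem Pt_mem {δ s ρ : ℝ} (hδ : 0 < δ) (hs : 0 < s) {h h₀ : Vec n}
    (hh : ∀ a, |h₀ a - h a| ≤ ρ) {z : ℂ} (hz : |z.im| * ρ < s) : Pt h h₀ z ∈ Om n δ s := by
  refine ⟨fun i => (cp_mem hδ hs 0 0 h).1 i, fun a => ?_⟩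
  change |((h a : ℂ) + z * ((h₀ a - h a : ℝ) : ℂ)).im| < s
  rw [add_im, ofReal_im, zero_add, im_mul_ofReal, abs_mul]
  exact lt_of_le_of_lt (mul_le_mul_of_nonneg_left (hh a) (abs_nonneg _)) hz

private theorem transfer {δ s e ρ : ℝ} {F : CE n → ℂ} (hF : Fn δ s F) (hδ : 0 < δ) (hs : 0 < s)
    (hρ : 0 < ρ) {k : Fin (n + 1) → ℤ} {h h₀ : Vec n}
    (hb : ∀ y ∈ Om n δ s, dv k y = 0 → ‖cf k F y‖ ≤ e) (hh : ∀ a, |h₀ a - h a| ≤ ρ)
    (h1 : dv k (cp 0 0 h) = 0) (h2 : dv k (cp 0 0 h₀) = 0) :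
    ‖cf k F (cp 0 0 h)‖ ≤ ‖cf k F (cp 0 0 h₀)‖ + e / (s / (2 * ρ)) := by
  have hR : 0 < s / (2 * ρ) := by positivity
  obtain ⟨g, hg⟩ : ∃ g : ℂ → ℂ, g = fun z => cf k F (Pt h h₀ z) := ⟨_, rfl⟩
  obtain ⟨U, hU⟩ : ∃ U : Set ℂ, U = {z : ℂ | |z.im| * ρ < s} := ⟨_, rfl⟩
  have hPt : Differentiable ℂ (Pt h h₀) := by
    unfold Pt
    fun_prop
  have hgU : DifferentiableOn ℂ g U := by
    rw [hg]
    refine (cf_hol hF hδ k δ).comp hPt.differentiableOn fun z hz => ?_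
    rw [hU] at hz
    exact Pt_mem hδ hs hh hz
  have hgb : ∀ z ∈ U, ‖g z‖ ≤ e := by
    intro z hz
    rw [hU] at hz
    rw [hg]
    exact hb _ (Pt_mem hδ hs hh hz) (Pt_dv k h1 h2 z)
  have hball : ∀ x : ℂ, x.im = 0 → Metric.closedBall x (s / (2 * ρ)) ⊆ U := by
    intro x hx z hz
    rw [mem_closedBall_iff_norm] at hz
    have h3 : |z.im| ≤ s / (2 * ρ) := by
      have h4 := abs_im_le_norm (z - x)
      rw [sub_im, hx, sub_zero] at h4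
      exact h4.trans hz
    rw [hU]
    change |z.im| * ρ < s
    have h5 : |z.im| * ρ ≤ s / (2 * ρ) * ρ := mul_le_mul_of_nonneg_right h3 hρ.le
    have h6 : s / (2 * ρ) * ρ = s / 2 := by
      field_simp
    linarith
  have hopen : IsOpen U := by
    rw [hU]
    exact isOpen_lt (by fun_prop) continuous_const
  have hxU : ∀ x : ℂ, x.im = 0 → x ∈ U := fun x hx =>
    hball x hx (Metric.mem_closedBall_self hR.le)
  have hmv := Convex.norm_image_sub_le_of_norm_deriv_le (𝕜 := ℂ) (f := g)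
    (C := e / (s / (2 * ρ))) (s := {x : ℂ | x.im = 0}) (x := 1) (y := 0)
    (fun x hx => (hgU x (hxU x hx)).differentiableAt (hopen.mem_nhds (hxU x hx)))
    (fun x hx => Complex.norm_deriv_le_of_forall_mem_sphere_norm_le hR
      (hgU.diffContOnCl_ball (hball x hx))
      fun z hz => hgb z (hball x hx (Metric.sphere_subset_closedBall hz)))
    (by
      intro x hx y hy a b _ _ _
      change (a • x + b • y).im = 0
      have hx' : x.im = 0 := hx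
      have hy' : y.im = 0 := hy
      rw [add_im, smul_im, smul_im, hx', hy', smul_zero, smul_zero, add_zero])
    one_im zero_im
  rw [hg] at hmv
  simp only at hmv
  rw [Pt_zero, Pt_one, zero_sub, norm_neg, norm_one, mul_one] at hmv
  have h7 := norm_sub_norm_le (cf k F (cp 0 0 h)) (cf k F (cp 0 0 h₀))
  linarith

theorem res_ok (n : ℕ) (M σ a₀ a₁ : ℝ) (ha : 0 < a₀) : ∃ C₀ : ℝ, ∃ p₀ : ℕ, 1 ≤ C₀ ∧
    ∀ {A B : Matrix (Fin n) (Fin n) ℝ} {R : CE n → ℂ}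
      {L : Torus n → Vec n → UnitAddCircle → ℝ} {φ : ℝ → Phase n → Phase n},
      Ctx A B M σ R → Continuous (fun q : Vec n × Vec n × ℝ => lf L q.1 q.2.1 q.2.2) →
      (∀ c, Clo L c (alpha L φ c)) → (∀ c α, Clo L c α → alpha L φ c ≤ α) →
      StrictConvexOn ℝ univ (alpha L φ) → Wei L (Hr B R) (Hpr B R) a₀ a₁ →
      ResOK A B M σ R C₀ p₀ := by
  obtain ⟨C₁, p₁, hC₁, H1⟩ := exists_h0 n
  obtain ⟨C₂, p₂, hC₂, H2⟩ := exists_leaf n M
  obtain ⟨D, p₃, hD, H3⟩ := no_leaf n a₀ a₁ ha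
  have hC₁0 : 0 < C₁ := by linarith
  have hC₂0 : 0 < C₂ := by linarith
  have hD0 : 0 < D := by linarith
  have hDC : 1 ≤ D * C₂ ^ 2 := one_le_mul_of_one_le_of_one_le hD (one_le_pow₀ hC₂)
  refine ⟨D * C₂ ^ 2 + 4 * C₁, p₃ + 2 * p₂ + p₁ + 1, by linarith, ?_⟩
  intro A B R L φ hc hL hClo hU hconv hWei δ s b η N u q K hs hN hKN hη hsm hexp k hk hNz h hdv
  have hN1 := hN.one
  have hδ := hs.δ_pos
  have hs0 := hs.s_pos
  have hF : Fn δ s (Lm A B R u q) := Lm_fn hc hs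
  -- powers of `N`
  have hpow : ∀ {i j : ℕ}, i ≤ j → N ^ i ≤ N ^ j := fun hij => pow_le_pow_right₀ hN1 hij
  have hpow1 : ∀ i : ℕ, 1 ≤ N ^ i := fun i => one_le_pow₀ hN1
  have hX : D * C₂ ^ 2 * N ^ (p₃ + 2 * p₂) * η ≤ 1 := by
    refine le_trans (mul_le_mul_of_nonneg_right ?_ hη.le) hsm
    exact mul_le_mul (by linarith) (hpow (by omega)) (by positivity) (by linarith)
  have hY : 4 * C₁ * N ^ (p₁ + 1) * η ≤ 1 := by
    refine le_trans (mul_le_mul_of_nonneg_right ?_ hη.le) hsm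
    exact mul_le_mul (by linarith) (hpow (by omega)) (by positivity) (by linarith)
  have hNη : N * η ≤ 1 := by
    refine le_trans (mul_le_mul_of_nonneg_right ?_ hη.le) hY
    have h1 : N ^ 1 ≤ N ^ (p₁ + 1) := hpow (by omega)
    rw [pow_one] at h1
    nlinarith
  have hη1 : η ≤ 1 := by nlinarith
  have hηp : ∀ i : ℕ, η ^ (i + 1) ≤ η := fun i => by
    rw [pow_succ]
    exact mul_le_of_le_one_left hη.le (pow_le_one₀ hη.le hη1)
  -- the primitive vector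
  obtain ⟨k₀, l, hkl, hl0, hprim, hNz0, hk0⟩ := exists_prim hNz
  have hl0' : (l : ℂ) ≠ 0 := Int.cast_ne_zero.2 hl0
  have hdv0 : dv k₀ (cp 0 0 h) = 0 := by
    rw [hkl, dv_zsmul] at hdv
    exact (mul_eq_zero.1 hdv).resolve_left hl0'
  have hnk0 : 1 ≤ nk k₀ := nk_one hNz0
  have hK1 : 1 ≤ K := hnk0.trans (hk0.trans hk)
  have hK1' : (1 : ℝ) ≤ K := by exact_mod_cast hK1
  have hKp : ∀ i : ℕ, (K : ℝ) ^ i ≤ N ^ i := fun i => pow_le_pow_left₀ (by linarith) hKN i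
  have hd0 : 0 < η ^ 5 := by positivity
  have hdK : η ^ 5 * K ≤ 1 := by
    have h1 : η ^ 5 * K ≤ η * N := mul_le_mul (hηp 4) hKN (by linarith) hη.le
    linarith
  obtain ⟨h₀, hh1, hh2, hh3⟩ := H1 hK1 hprim hNz0 (hk0.trans hk) hdv0 hd0 hdK
  -- the leaf
  have hε : 0 < η ^ 16 := by positivity
  have hexp' : Real.exp (-(Real.pi * (δ / 2) * K)) ≤ (η ^ 16) ^ 2 := by
    rw [← pow_mul]
    exact hexp
  obtain ⟨c, Λ, X, Q, W, hleaf⟩ := H2 hc hs hN hε hexp' hprim hNz0 (hk0.trans hk) hh1 hd0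
    (pow_le_one₀ hη.le hη1) hh3
  have hκ : C₂ * N ^ p₂ * η ^ 16 / η ^ 5 = C₂ * N ^ p₂ * η ^ 11 := by
    rw [show (16 : ℕ) = 11 + 5 by norm_num, pow_add, ← mul_assoc,
      mul_div_assoc, div_self hd0.ne', mul_one]
  rw [hκ] at hleaf
  have hκ0 : 0 < C₂ * N ^ p₂ * η ^ 11 := by
    have : 0 < N ^ p₂ := lt_of_lt_of_le one_pos (hpow1 p₂)
    positivity
  have hκD : C₂ * N ^ p₂ * η ^ 11 * D ≤ 1 := by
    have h1 : C₂ * N ^ p₂ * D ≤ D * C₂ ^ 2 * N ^ (p₃ + 2 * p₂) := by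
      have h2 : C₂ * D ≤ D * C₂ ^ 2 := by
        have h4 : C₂ * D * 1 ≤ C₂ * D * C₂ :=
          mul_le_mul_of_nonneg_left hC₂ (by positivity)
        have h5 : D * C₂ ^ 2 = C₂ * D * C₂ := by ring
        rw [h5]
        linarith
      have h3 : N ^ p₂ ≤ N ^ (p₃ + 2 * p₂) := hpow (by omega)
      calc C₂ * N ^ p₂ * D = C₂ * D * N ^ p₂ := by ring
        _ ≤ D * C₂ ^ 2 * N ^ (p₃ + 2 * p₂) := mul_le_mul h2 h3 (by positivity) (by linarith)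
    calc C₂ * N ^ p₂ * η ^ 11 * D = C₂ * N ^ p₂ * D * η ^ 11 := by ring
      _ ≤ D * C₂ ^ 2 * N ^ (p₃ + 2 * p₂) * η := mul_le_mul h1 (hηp 10) (by positivity)
        (by positivity)
      _ ≤ 1 := hX
  have hosc := H3 (κ := C₂ * N ^ p₂ * η ^ 11) (K := K) hL hClo hU hconv hWei hleaf hκ0 hκD
    (by exact_mod_cast (nj_ja k₀).trans (hk0.trans hk)) (Rbs_lip hF K k₀ h₀)
  have hlmem : l ∈ mK K k₀ := by
    unfold mK
    rw [Finset.mem_filter, Finset.mem_Icc]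
    have h1 : nk (l • k₀) ≤ K := by
      rw [← hkl]
      exact hk
    have h2 : l.natAbs ≤ K := by
      rw [nk_zsmul] at h1
      exact (Nat.le_mul_of_pos_right _ hnk0).trans h1
    refine ⟨⟨by omega, by omega⟩, hl0, h1⟩
  have hcoef := Rbs_coef hF hosc hlmem
  rw [← hkl] at hcoef
  -- the transfer
  have hρ : 0 < C₁ * (K : ℝ) ^ p₁ * η ^ 5 := by positivity
  have hdvk : dv k (cp 0 0 h₀) = 0 := by
    rw [hkl, dv_zsmul, hh1, mul_zero]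
  have htr := transfer (e := η ^ 16) hF hδ hs0 hρ (k := k) (h := h) (h₀ := h₀)
    (fun y hy h0 => (res_bound hc hs hNz hy h0).trans
      (mul_le_of_le_one_right (by positivity) (Real.exp_le_one_iff.2 (by
        have : 0 ≤ 2 * Real.pi * δ * nk k := by positivity
        linarith)))) hh2 hdv hdvk
  -- the numbers
  have e1 : D * (K : ℝ) ^ p₃ * (C₂ * N ^ p₂ * η ^ 11) ^ 2 / 2 ≤ η ^ 20 / 2 := by
    have h1 : D * (K : ℝ) ^ p₃ * (C₂ * N ^ p₂ * η ^ 11) ^ 2 =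
        D * C₂ ^ 2 * ((K : ℝ) ^ p₃ * N ^ (2 * p₂)) * η * η ^ 21 := by
      rw [mul_comm 2 p₂, pow_mul]
      ring
    have h2 : (K : ℝ) ^ p₃ * N ^ (2 * p₂) ≤ N ^ (p₃ + 2 * p₂) := by
      rw [pow_add]
      exact mul_le_mul_of_nonneg_right (hKp p₃) (by positivity)
    have h3 : D * C₂ ^ 2 * ((K : ℝ) ^ p₃ * N ^ (2 * p₂)) * η ≤ 1 := by
      refine le_trans (mul_le_mul_of_nonneg_right (mul_le_mul_of_nonneg_left h2 ?_) hη.le) hX
      positivity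
    have h4 : η ^ 21 ≤ η ^ 20 := pow_le_pow_of_le_one hη.le hη1 (by norm_num)
    have h5 : D * C₂ ^ 2 * ((K : ℝ) ^ p₃ * N ^ (2 * p₂)) * η * η ^ 21 ≤ η ^ 21 :=
      mul_le_of_le_one_left (by positivity) h3
    rw [h1]
    linarith
  have e2 : η ^ 16 / (s / (2 * (C₁ * (K : ℝ) ^ p₁ * η ^ 5))) ≤ η ^ 20 / 2 := by
    have h1 : η ^ 16 / (s / (2 * (C₁ * (K : ℝ) ^ p₁ * η ^ 5))) =
        4 * C₁ * ((K : ℝ) ^ p₁ * (1 / s)) * η * (η ^ 20 / 2) := by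
      field_simp
      ring
    have h2 : (K : ℝ) ^ p₁ * (1 / s) ≤ N ^ (p₁ + 1) := by
      rw [pow_succ]
      exact mul_le_mul (hKp p₁) hN.hs (by positivity) (by positivity)
    have h3 : 4 * C₁ * ((K : ℝ) ^ p₁ * (1 / s)) * η ≤ 1 := by
      refine le_trans (mul_le_mul_of_nonneg_right (mul_le_mul_of_nonneg_left h2 ?_) hη.le) hY
      positivity
    rw [h1]
    exact mul_le_of_le_one_left (by positivity) h3
  linarith

end Pool.Agent.LRig
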