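import Pool.Agent.LRig.NF
import Pool.Agent.LRig.FT
import Pool.Agent.LRig.RF

/-!
# LR (MP_74f563_an, all n), file JA: one step of the iteration

PROOF.  `F = Lm A B R u q`, `c = 2` (`Lm_fn`, `Lm_bd`), `w` from `exists_w` for `F`, `K`.  For `k`
with
`nk k ≤ K`, `Nz k`: for real `h` on the resonance hyperplane `‖cf k F‖ ≤ η^20` (`ResOK`; `rp 0 h`
and
`cp 0 0 h` are the same point up to `EuclideanSpace` coercions), on the complex hyperplane in the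
strip `s`: `‖cf k F‖ ≤ η^16 e^{-2πδ nk k}` (`res_bound`).  `res_interp` (file FT):
`‖cf k F y‖ ≤ (η^20)^{3/4} (η^16 e^{-2πδ nk k})^{1/4} = η^19 e^{-(π/2)δ nk k}` on the hyperplane in
the strip
`s/4`.  `Z_bd` (file RC) with `s₁ = s/4`, `e = η^19`: `‖ZZ w‖ ≤ ζ` on `Om (δ/8) (s/(4(n+1)))`,
`ζ = η^19 (8/δ)^{n+1} + 2 η^32 (4/δ)^{n+1} ≤ 3 · 8^{n+1} N^{n+1} η^19`.  The state restricted to
`(δ/8, s/(4(n+1)))` is a state (`St.mono`), `Big` holds with `8(n+1)N` (`4(n+1) N`, `8 N`).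
`newton` (file NF, constants `C₁`, `p₁`) with `ε = η^16`: `ε + ζ ≤ 2 η^16` and
`C₁ (8(n+1)N)^{p₁} (ε + ζ) ≤ η^15`, `C₁ (..)^{p₁} ((ε+ζ)² + ζ) ≤ C N^{p} η^19 ≤ η^17`, if
`C N^p η ≤ 1` with `C`, `p` large.  The result is a state on `(δ/512, s/(256(n+1)))`; restrict with
`St.mono` to the widths of the statement and enlarge `b`, `ε`.
-/

set_option autoImplicit false

namespace Pool.Agent.LRig

open Complex Set MeasureTheory

private lemma nums {n p₀ p₁ : ℕ} {C₀ C₁ N η : ℝ} (hC₁ : 1 ≤ C₁) (hN : 1 ≤ N) (hη : 0 < η)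
    (h : (|C₀| + 8 * (C₁ * (8 * (n + 1)) ^ p₁) * (3 * 8 ^ (n + 1))) *
      N ^ (p₀ + p₁ + (n + 1)) * η ≤ 1) :
    C₀ * N ^ p₀ * η ≤ 1 ∧
      8 * (C₁ * (8 * (n + 1) * N) ^ p₁) * (3 * 8 ^ (n + 1) * N ^ (n + 1)) * η ≤ 1 := by
  have hn : (0 : ℝ) ≤ n := Nat.cast_nonneg n
  have hN0 : 0 < N := by linarith
  have e1 : (0 : ℝ) < 8 * (n + 1) := by positivity
  have h1 : 0 ≤ 8 * (C₁ * (8 * ((n : ℝ) + 1)) ^ p₁) * (3 * 8 ^ (n + 1)) := by positivity
  have h2 : |C₀| * N ^ (p₀ + p₁ + (n + 1)) * η ≤ 1 := by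
    refine le_trans ?_ h
    gcongr
    linarith
  have h3 : 8 * (C₁ * (8 * ((n : ℝ) + 1)) ^ p₁) * (3 * 8 ^ (n + 1)) *
      N ^ (p₀ + p₁ + (n + 1)) * η ≤ 1 := by
    refine le_trans ?_ h
    gcongr
    linarith [abs_nonneg C₀]
  constructor
  · refine le_trans ?_ h2
    have h4 : N ^ p₀ ≤ N ^ (p₀ + p₁ + (n + 1)) := pow_le_pow_right₀ hN (by omega)
    have h5 : C₀ * N ^ p₀ ≤ |C₀| * N ^ (p₀ + p₁ + (n + 1)) :=
      mul_le_mul (le_abs_self _) h4 (by positivity) (abs_nonneg _)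
    exact mul_le_mul_of_nonneg_right h5 hη.le
  · refine le_trans ?_ h3
    have h4 : N ^ p₁ * N ^ (n + 1) ≤ N ^ (p₀ + p₁ + (n + 1)) := by
      rw [← pow_add]
      exact pow_le_pow_right₀ hN (by omega)
    have h5 : 8 * (C₁ * (8 * ((n : ℝ) + 1) * N) ^ p₁) * (3 * 8 ^ (n + 1) * N ^ (n + 1)) =
        8 * (C₁ * (8 * ((n : ℝ) + 1)) ^ p₁) * (3 * 8 ^ (n + 1)) * (N ^ p₁ * N ^ (n + 1)) := by
      rw [mul_pow _ N]
      ring
    rw [h5]
    gcongr

private lemma nums2 {a β η : ℝ} (ha : 1 ≤ a) (hβ : 1 ≤ β) (hη : 0 < η)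
    (h : 8 * a * β * η ≤ 1) :
    η ≤ 1 ∧ a * (η ^ 16 + β * η ^ 19) ≤ η ^ 15 ∧
      a * ((η ^ 16 + β * η ^ 19) ^ 2 + β * η ^ 19) ≤ η ^ 17 := by
  have h0 : 0 < a * β := by positivity
  have h1 : 1 ≤ a * β := by nlinarith
  have hη1 : η ≤ 1 := by nlinarith
  have ha1 : a * η ≤ 1 / 8 := by
    have : a * η ≤ a * β * η := by
      have : a * η * 1 ≤ a * η * β := mul_le_mul_of_nonneg_left hβ (by positivity)
      linarith
    linarith
  have hb1 : β * η ≤ 1 := by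
    have : β * η ≤ a * β * η := by
      have : β * η * 1 ≤ β * η * a := mul_le_mul_of_nonneg_left ha (by positivity)
      linarith
    linarith
  have hab : a * β * η ≤ 1 / 8 := by linarith
  have e1 : β * η ^ 19 ≤ η ^ 16 := by
    calc β * η ^ 19 = (β * η) * (η ^ 2 * η ^ 16) := by ring
      _ ≤ 1 * (1 * η ^ 16) := by
        have : η ^ 2 ≤ 1 := pow_le_one₀ hη.le hη1
        gcongr
      _ = η ^ 16 := by ring
  refine ⟨hη1, ?_, ?_⟩
  · calc a * (η ^ 16 + β * η ^ 19) ≤ a * (η ^ 16 + η ^ 16) := by gcongr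
      _ = 2 * (a * η) * η ^ 15 := by ring
      _ ≤ 2 * (1 / 8) * η ^ 15 := by gcongr
      _ ≤ η ^ 15 := by
        have : 0 < η ^ 15 := by positivity
        linarith
  · have e2 : (η ^ 16 + β * η ^ 19) ^ 2 ≤ 4 * η ^ 32 := by
      calc (η ^ 16 + β * η ^ 19) ^ 2 ≤ (η ^ 16 + η ^ 16) ^ 2 := by gcongr
        _ = 4 * η ^ 32 := by ring
    have e3 : η ^ 14 ≤ 1 := pow_le_one₀ hη.le hη1
    calc a * ((η ^ 16 + β * η ^ 19) ^ 2 + β * η ^ 19) ≤ a * (4 * η ^ 32 + β * η ^ 19) := by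
          gcongr
      _ = (4 * (a * η) * η ^ 14 + a * β * η * η) * η ^ 17 := by ring
      _ ≤ (4 * (1 / 8) * 1 + 1 / 8 * 1) * η ^ 17 := by gcongr
      _ ≤ η ^ 17 := by
        have : 0 < η ^ 17 := by positivity
        linarith

theorem step (n : ℕ) (M C₀ : ℝ) (p₀ : ℕ) : ∃ C : ℝ, ∃ p : ℕ, 1 ≤ C ∧
    ∀ {A B : Matrix (Fin n) (Fin n) ℝ} {σ δ s b η N : ℝ} {R : CE n → ℂ}
      {u q : Fin n → CE n → ℂ} {K : ℕ}, Ctx A B M σ R → ResOK A B M σ R C₀ p₀ →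
      St A B M σ R δ s b (η ^ 16) u q → Big σ δ s N → (K : ℝ) ≤ N → 0 < η →
      C * N ^ p * η ≤ 1 → Real.exp (-(Real.pi * (δ / 2) * K)) ≤ η ^ 32 →
      b + η ^ 15 ≤ b0 n M σ → ∃ u' q' : Fin n → CE n → ℂ,
        St A B M σ R (δ / (512 * (n + 1))) (s / (512 * (n + 1))) (b + η ^ 15) (η ^ 17)
          u' q' ∧
        (∀ c : Fin n, Bd (δ / (512 * (n + 1))) (s / (512 * (n + 1))) (η ^ 15)
          fun y => u' c y - u c y) ∧
        (∀ c : Fin n, Bd (δ / (512 * (n + 1))) (s / (512 * (n + 1))) (η ^ 15)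
          fun y => q' c y - q c y) ∧
        ∀ a c : Fin n, Bd (δ / (512 * (n + 1))) (s / (512 * (n + 1))) (η ^ 15)
          (Th A u q a c) := by
  obtain ⟨C₁, p₁, hC₁, H⟩ := newton n M
  have hn : (0 : ℝ) ≤ n := Nat.cast_nonneg n
  have hn1 : (1 : ℝ) ≤ n + 1 := by linarith
  have hn0 : (0 : ℝ) < n + 1 := by linarith
  have hA1 : (1 : ℝ) ≤ C₁ * (8 * (n + 1)) ^ p₁ := by
    have : (1 : ℝ) ≤ (8 * (n + 1)) ^ p₁ := one_le_pow₀ (by linarith)
    nlinarith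
  have hB1 : (1 : ℝ) ≤ 8 ^ (n + 1) := one_le_pow₀ (by norm_num)
  refine ⟨|C₀| + 8 * (C₁ * (8 * (n + 1)) ^ p₁) * (3 * 8 ^ (n + 1)), p₀ + p₁ + (n + 1), ?_, ?_⟩
  · have h1 : (1 : ℝ) ≤ C₁ * (8 * (n + 1)) ^ p₁ * 8 ^ (n + 1) := by nlinarith
    have h2 := abs_nonneg C₀
    nlinarith
  intro A B σ δ s b η N R u q K hc hres hs hN hK hη hC hexp hb
  have hδ := hs.δ_pos
  have hs0 := hs.s_pos
  have hN1 := hN.one
  have hN0 : 0 < N := by linarith
  have hM := hc.M_ge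
  obtain ⟨hC0, hC8⟩ := nums hC₁ hN1 hη hC
  set a : ℝ := C₁ * (8 * (n + 1) * N) ^ p₁ with ha
  set β : ℝ := 3 * 8 ^ (n + 1) * N ^ (n + 1) with hβ
  have ha1 : 1 ≤ a := by
    have : (1 : ℝ) ≤ (8 * (n + 1) * N) ^ p₁ := one_le_pow₀ (by nlinarith)
    rw [ha]
    nlinarith
  have hNn : 1 ≤ N ^ (n + 1) := one_le_pow₀ hN1
  have hβ1 : 1 ≤ β := by
    rw [hβ]
    nlinarith
  obtain ⟨hη1, hn2, hn3⟩ := nums2 ha1 hβ1 hη hC8
  have hF := Lm_fn hc hs
  have hFb := Lm_bd hc hs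
  obtain ⟨w, hw1, hw2⟩ := exists_w hF hδ hs0 K
  -- the resonant coefficients
  have hcf : ∀ k : Fin (n + 1) → ℤ, nk k ≤ K → Nz k → ∀ y ∈ Om n δ (s / 4), dv k y = 0 →
      ‖cf k (Lm A B R u q) y‖ ≤ η ^ 19 * Real.exp (-(Real.pi / 2 * δ * nk k)) := by
    intro k hk hz y hy h0
    have hr : ∀ h : Fin n → ℝ, dv k (rp 0 h) = 0 →
        ‖cf k (Lm A B R u q) (rp 0 h)‖ ≤ η ^ 20 := by
      intro h hh0
      have e : cp 0 0 (WithLp.toLp 2 h) = (rp 0 h : CE n) := by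
        unfold cp
        congr 1
        funext i
        refine Fin.cases ?_ (fun a => ?_) i
        · simp [rv]
        · simp [rv]
      have := hres hs hN hK hη hC0 hexp k hk hz (WithLp.toLp 2 h)
      rw [e] at this
      exact this hh0
    have hcx : ∀ y ∈ Om n δ s, dv k y = 0 →
        ‖cf k (Lm A B R u q) y‖ ≤ η ^ 16 * Real.exp (-(2 * Real.pi * δ * nk k)) :=
      fun y hy h0 => res_bound hc hs hz hy h0
    refine (res_interp hF hδ hr hcx hy h0).trans (le_of_eq ?_)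
    have e1 : (η ^ 20) ^ (3 / 4 : ℝ) = η ^ 15 := by
      rw [← Real.rpow_natCast η 20, ← Real.rpow_mul hη.le, ← Real.rpow_natCast η 15]
      norm_num
    have e2 : (η ^ 16) ^ (1 / 4 : ℝ) = η ^ 4 := by
      rw [← Real.rpow_natCast η 16, ← Real.rpow_mul hη.le, ← Real.rpow_natCast η 4]
      norm_num
    have e3 : (Real.exp (-(2 * Real.pi * δ * nk k))) ^ (1 / 4 : ℝ) =
        Real.exp (-(Real.pi / 2 * δ * nk k)) := by
      rw [← Real.exp_mul]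
      congr 1
      ring
    rw [Real.mul_rpow (by positivity) (Real.exp_pos _).le, e1, e2, e3]
    ring
  have hδσ := hs.δ_le
  have hσ1 := hc.σ_le
  have hδ1 : δ ≤ 1 := by linarith
  have hZ0 := Z_bd (c := 2) (e := η ^ 19) (s₁ := s / 4) (K := K) hF hFb hδ hδ1
    (by positivity) (by linarith) (by positivity) hcf hw2
  have hδN : 1 / δ ≤ N := hN.hδ
  have hζ : η ^ 19 * (8 / δ) ^ (n + 1) +
      2 * Real.exp (-(Real.pi * (δ / 2) * K)) * (4 / δ) ^ (n + 1) ≤ β * η ^ 19 := by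
    have h1 : (8 / δ) ^ (n + 1) ≤ 8 ^ (n + 1) * N ^ (n + 1) := by
      rw [← mul_pow]
      refine pow_le_pow_left₀ (by positivity) ?_ _
      have : 8 / δ = 8 * (1 / δ) := by ring
      rw [this]
      linarith
    have h2 : (4 / δ) ^ (n + 1) ≤ 8 ^ (n + 1) * N ^ (n + 1) := by
      refine le_trans ?_ h1
      gcongr
      norm_num
    have h3 : Real.exp (-(Real.pi * (δ / 2) * K)) ≤ η ^ 19 :=
      hexp.trans (pow_le_pow_of_le_one hη.le hη1 (by norm_num))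
    calc _ ≤ η ^ 19 * (8 ^ (n + 1) * N ^ (n + 1)) +
          2 * η ^ 19 * (8 ^ (n + 1) * N ^ (n + 1)) := by gcongr
      _ = β * η ^ 19 := by
        rw [hβ]
        ring
  have hs1 : (0 : ℝ) < s / 4 / (n + 1) := by positivity
  have hs2 : s / 4 / (n + 1) ≤ s / 4 := div_le_self (by positivity) hn1
  have hs3 : s / 4 / (n + 1) ≤ s / (n + 1) := by gcongr; linarith
  have hZ : Bd (δ / 8) (s / 4 / (n + 1)) (β * η ^ 19) (ZZ A B R u q w) :=
    hZ0.mono le_rfl le_rfl hζ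
  have hst : St A B M σ R (δ / 8) (s / 4 / (n + 1)) b (η ^ 16) u q :=
    hs.mono (by positivity) (by linarith) hs1 (by linarith) le_rfl hs.b_le le_rfl hs.ε_le
      (by linarith)
  have hBig : Big σ (δ / 8) (s / 4 / (n + 1)) (8 * (n + 1) * N) := by
    have h8 : N ≤ 8 * (n + 1) * N := by nlinarith
    refine ⟨by linarith, hN.hσ.trans h8, ?_, ?_⟩
    · have e : 1 / (δ / 8) = 8 * (1 / δ) := by field_simp
      rw [e]
      have : 8 * N ≤ 8 * (n + 1) * N := by nlinarith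
      linarith
    · have e : 1 / (s / 4 / (n + 1)) = 4 * (n + 1) * (1 / s) := by field_simp
      rw [e]
      have h1 : 4 * ((n : ℝ) + 1) * (1 / s) ≤ 4 * (n + 1) * N := by
        have := hN.hs
        gcongr
      have : 4 * ((n : ℝ) + 1) * N ≤ 8 * (n + 1) * N := by nlinarith
      linarith
  have hbb : b + a * (η ^ 16 + β * η ^ 19) ≤ b + η ^ 15 := by linarith
  obtain ⟨u', q', hst', hu', hq', hTh⟩ := H hc hst ((hw1 (δ / 8)).mono le_rfl hs3)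
    (by positivity) hZ hBig (hbb.trans hb)
  have w1 : δ / (512 * (n + 1)) ≤ δ / 8 / 64 := by
    rw [div_div]
    exact div_le_div_of_nonneg_left hδ.le (by norm_num) (by linarith)
  have w2 : s / (512 * (n + 1)) ≤ s / 4 / (n + 1) / 64 := by
    rw [div_div, div_div]
    exact div_le_div_of_nonneg_left hs0.le (by positivity) (by linarith)
  refine ⟨u', q', ?_, ?_, ?_, ?_⟩
  · exact hst'.mono (by positivity) w1 (by positivity) w2 hbb hb hn3
      (pow_le_one₀ hη.le hη1) (by linarith)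
  · exact fun c => (hu' c).mono w1 w2 hn2
  · exact fun c => (hq' c).mono w1 w2 hn2
  · exact fun c d => (hTh c d).mono w1 w2 hn2

end Pool.Agent.LRig
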