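import Pool.Agent.LRig.NA

/-!
# LR (MP_74f563_an, all n), file JB: the numbers of the iteration

`η_k = η₀^((17/16)^k)`, widths `δ₀/G^k`, `s₀/G^k`.

PROOF.  Let `ℓ_k = log (1/η_k) = (17/16)^k log (1/η₀)`.  `K_k = ⌈21 G^k ℓ_k/δ₀⌉` (natural): then
`π (δ₀/G^k/2) K_k ≥ 32 ℓ_k` (`21 π/2 ≥ 32`), so `exp (-..) ≤ η_k^32`.
`N_k = (25/(σ δ₀ s₀)) G^k (1 + ℓ_k)`: `≥ 1, 1/σ, G^k/δ₀, G^k/s₀` and `≥ K_k` (`21 G^k ℓ_k/δ₀ + 1`).
`C N_k^p η_k ≤ 1`: `η_k = e^{-ℓ_k}` and `(1 + ℓ_k)^p e^{-ℓ_k/2} ≤ C'` (bounded), so it is enough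
that
`C C'' G^{kp} e^{-ℓ_k/2} ≤ 1`, that is `ℓ_k ≥ 2 (log (C C'') + k p log G)`; since
`ℓ_k ≥ ℓ_0 (1 + k/16)` (Bernoulli) this holds for all `k` if `ℓ_0 ≥ 2 log (C C'') + 32 p log G`,
i.e. for
`η₀ ≤ η₁`.
`∑_{j<k} η_j^15 ≤ η₀^14`: `η_j ≤ η₀ · η₀^{j/16}` (`(17/16)^j ≥ 1 + j/16`), so
`η_j^15 ≤ η₀^15 (η₀^{15/16})^j`, geometric series with ratio `≤ 1/2` and `2 η₀ ≤ 1`.
Summability of `η_k^15 (G^{k+1})^i`: `η_k ≤ e^{-ℓ_0 (17/16)^k}` decays faster than every geometric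
sequence: compare `summable_eps` in `Pool.Agent.NOne.KNum` (there with `3/2` instead of `17/16`):
`η_k^15 G^{ki} ≤ C_i 2^{-k}` because `15 ℓ_0 (17/16)^k - k i log G - k log 2` is bounded below.
-/

set_option autoImplicit false

namespace Pool.Agent.LRig

private theorem jb_exp {l : ℝ} (x : ℝ) : Real.exp (-l) ^ x = Real.exp (-(l * x)) := by
  rw [← Real.exp_mul]
  congr 1
  ring

private theorem jb_bern (k : ℕ) : 1 + (k : ℝ) / 16 ≤ (17 / 16 : ℝ) ^ k := by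
  have h := one_add_mul_le_pow (a := (1 / 16 : ℝ)) (by norm_num) k
  have h' : (1 + 1 / 16 : ℝ) = 17 / 16 := by norm_num
  rw [h'] at h
  linarith

private theorem jb_poly (p : ℕ) {l : ℝ} (hl : 0 ≤ l) :
    (1 + l) ^ p ≤ (2 * ((p : ℝ) + 1)) ^ p * Real.exp (l / 2) := by
  have hp : (0 : ℝ) < 2 * ((p : ℝ) + 1) := by positivity
  have h1 : 1 + l ≤ 2 * ((p : ℝ) + 1) * Real.exp (l / (2 * ((p : ℝ) + 1))) := by
    have h2 := Real.add_one_le_exp (l / (2 * ((p : ℝ) + 1)))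
    have h3 : 2 * ((p : ℝ) + 1) * (l / (2 * ((p : ℝ) + 1)) + 1) ≤
        2 * ((p : ℝ) + 1) * Real.exp (l / (2 * ((p : ℝ) + 1))) :=
      mul_le_mul_of_nonneg_left h2 hp.le
    have h4 : 2 * ((p : ℝ) + 1) * (l / (2 * ((p : ℝ) + 1)) + 1) = l + 2 * ((p : ℝ) + 1) := by
      rw [mul_add, mul_div_cancel₀ _ hp.ne', mul_one]
    rw [h4] at h3
    have h5 : (0 : ℝ) ≤ p := by positivity
    linarith
  calc (1 + l) ^ p ≤ (2 * ((p : ℝ) + 1) * Real.exp (l / (2 * ((p : ℝ) + 1)))) ^ p :=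
        pow_le_pow_left₀ (by positivity) h1 p
    _ = (2 * ((p : ℝ) + 1)) ^ p * Real.exp (p * (l / (2 * ((p : ℝ) + 1)))) := by
        rw [mul_pow, ← Real.exp_nat_mul]
    _ ≤ (2 * ((p : ℝ) + 1)) ^ p * Real.exp (l / 2) := by
        refine mul_le_mul_of_nonneg_left (Real.exp_le_exp.2 ?_) (by positivity)
        rw [mul_div_assoc', div_le_div_iff₀ hp (by norm_num)]
        nlinarith

theorem eta_succ {η₀ : ℝ} (h : 0 < η₀) (k : ℕ) :
    (η₀ ^ ((17 / 16 : ℝ) ^ k)) ^ 17 = (η₀ ^ ((17 / 16 : ℝ) ^ (k + 1))) ^ 16 := by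
  rw [← Real.rpow_mul_natCast h.le, ← Real.rpow_mul_natCast h.le]
  congr 1
  rw [pow_succ]
  push_cast
  ring

private theorem jb_sum {η₀ G : ℝ} (h0 : 0 < η₀) (h1 : η₀ < 1) (hG : 0 < G) (i : ℕ) :
    Summable fun k : ℕ => (η₀ ^ ((17 / 16 : ℝ) ^ k)) ^ 15 * (G ^ (k + 1)) ^ i := by
  have hpos : ∀ k : ℕ, 0 < η₀ ^ ((17 / 16 : ℝ) ^ k) := fun k => Real.rpow_pos_of_pos h0 _
  have ht : Filter.Tendsto (fun k : ℕ => η₀ ^ ((17 / 16 : ℝ) ^ k)) Filter.atTop (nhds 0) :=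
    (tendsto_rpow_atTop_of_base_lt_one η₀ (by linarith) h1).comp
      (tendsto_pow_atTop_atTop_of_one_lt (by norm_num))
  refine summable_of_ratio_test_tendsto_lt_one (l := 0) one_pos
    (Filter.Eventually.of_forall fun k => (mul_pos (pow_pos (hpos k) 15)
      (pow_pos (pow_pos hG _) _)).ne') ?_
  have h2 : Filter.Tendsto (fun k : ℕ => ((η₀ ^ ((17 / 16 : ℝ) ^ k)) ^ (1 / 16 : ℝ)) ^ 15 * G ^ i)
      Filter.atTop (nhds 0) := by
    have h3 := ((ht.rpow_const (p := (1 / 16 : ℝ)) (Or.inr (by norm_num))).pow 15).mul_const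
      (G ^ i)
    rw [Real.zero_rpow (by norm_num), zero_pow (by norm_num), zero_mul] at h3
    exact h3
  refine h2.congr fun k => ?_
  have h5 := hpos k
  have h6 : η₀ ^ ((17 / 16 : ℝ) ^ (k + 1)) =
      η₀ ^ ((17 / 16 : ℝ) ^ k) * (η₀ ^ ((17 / 16 : ℝ) ^ k)) ^ (1 / 16 : ℝ) := by
    rw [← Real.rpow_mul h0.le, ← Real.rpow_add h0]
    congr 1
    rw [pow_succ]
    ring
  rw [Real.norm_of_nonneg (mul_pos (pow_pos (hpos (k + 1)) 15) (pow_pos (pow_pos hG _) _)).le,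
    Real.norm_of_nonneg (mul_pos (pow_pos (hpos k) 15) (pow_pos (pow_pos hG _) _)).le, h6,
    pow_succ G (k + 1), mul_pow, mul_pow]
  field_simp

theorem numerics (C : ℝ) (p : ℕ) (G σ δ₀ s₀ : ℝ) (hC : 1 ≤ C) (hG : 2 ≤ G) (hσ : 0 < σ)
    (hσ1 : σ ≤ 1) (hδ : 0 < δ₀) (hδ1 : δ₀ ≤ 1) (hs : 0 < s₀) (hs1 : s₀ ≤ 1) :
    ∃ η₁ : ℝ, 0 < η₁ ∧ η₁ ≤ 1 / 2 ∧ ∀ η₀ : ℝ, 0 < η₀ → η₀ ≤ η₁ →
      (∀ k : ℕ, ∃ (N : ℝ) (K : ℕ), Big σ (δ₀ / G ^ k) (s₀ / G ^ k) N ∧ (K : ℝ) ≤ N ∧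
        C * N ^ p * η₀ ^ ((17 / 16 : ℝ) ^ k) ≤ 1 ∧
        Real.exp (-(Real.pi * (δ₀ / G ^ k / 2) * K)) ≤ (η₀ ^ ((17 / 16 : ℝ) ^ k)) ^ 32) ∧
      (∀ k : ℕ, ∑ j ∈ Finset.range k, (η₀ ^ ((17 / 16 : ℝ) ^ j)) ^ 15 ≤ η₀ ^ 14) ∧
      ∀ i : ℕ, Summable fun k : ℕ => (η₀ ^ ((17 / 16 : ℝ) ^ k)) ^ 15 * (G ^ (k + 1)) ^ i := by
  have hG0 : 0 < G := by linarith
  have hu0 : 0 < σ * δ₀ * s₀ := by positivity
  have hsd : δ₀ * s₀ ≤ 1 := mul_le_one₀ hδ1 hs.le hs1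
  obtain ⟨A, hA⟩ : ∃ A : ℝ, A = 1 / (σ * δ₀ * s₀) := ⟨_, rfl⟩
  have hA0 : 0 < A := by rw [hA]; positivity
  have hAσ : 1 / σ ≤ A := by
    rw [hA]
    refine one_div_le_one_div_of_le hu0 ?_
    nlinarith
  have hAδ : 1 / δ₀ ≤ A := by
    rw [hA]
    refine one_div_le_one_div_of_le hu0 ?_
    have h1 : σ * s₀ ≤ 1 := mul_le_one₀ hσ1 hs.le hs1
    nlinarith
  have hAs : 1 / s₀ ≤ A := by
    rw [hA]
    refine one_div_le_one_div_of_le hu0 ?_
    have h1 : σ * δ₀ ≤ 1 := mul_le_one₀ hσ1 hδ.le hδ1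
    nlinarith
  have hA1 : 1 ≤ A := by
    refine le_trans ?_ hAσ
    rw [le_div_iff₀ hσ]
    linarith
  obtain ⟨B, hB⟩ : ∃ B : ℝ, B = C * (25 * A) ^ p * (2 * ((p : ℝ) + 1)) ^ p := ⟨_, rfl⟩
  have hB0 : 0 < B := by rw [hB]; positivity
  refine ⟨min (1 / 4) (min ((1 / B) ^ 2) ((1 / G ^ p) ^ 32)),
    lt_min (by norm_num) (lt_min (by positivity) (by positivity)),
    (min_le_left _ _).trans (by norm_num), ?_⟩
  intro η₀ h0 h1
  have h4 : η₀ ≤ 1 / 4 := h1.trans (min_le_left _ _)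
  have hBη : η₀ ≤ (1 / B) ^ 2 := h1.trans ((min_le_right _ _).trans (min_le_left _ _))
  have hGη : η₀ ≤ (1 / G ^ p) ^ 32 := h1.trans ((min_le_right _ _).trans (min_le_right _ _))
  obtain ⟨l, hl⟩ : ∃ l : ℝ, η₀ = Real.exp (-l) := ⟨-Real.log η₀, by
    rw [neg_neg, Real.exp_log h0]⟩
  have hl0 : 0 < l := by
    by_contra hcon
    have h5 : Real.exp 0 ≤ Real.exp (-l) := Real.exp_le_exp.2 (by linarith)
    rw [Real.exp_zero, ← hl] at h5
    linarith
  have hB2 : Real.exp (-(l / 2)) ≤ 1 / B := by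
    refine le_of_pow_le_pow_left₀ (n := 2) (by norm_num) (by positivity) ?_
    rw [← Real.exp_nat_mul]
    refine le_trans (le_of_eq ?_) hBη
    rw [hl]
    congr 1
    push_cast
    ring
  have hG2 : Real.exp (-(l / 32)) ≤ 1 / G ^ p := by
    refine le_of_pow_le_pow_left₀ (n := 32) (by norm_num) (by positivity) ?_
    rw [← Real.exp_nat_mul]
    refine le_trans (le_of_eq ?_) hGη
    rw [hl]
    congr 1
    push_cast
    ring
  refine ⟨?_, ?_, fun i => jb_sum h0 (by linarith) hG0 i⟩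
  · intro k
    obtain ⟨L, hL⟩ : ∃ L : ℝ, L = l * (17 / 16 : ℝ) ^ k := ⟨_, rfl⟩
    have hL0 : 0 < L := by rw [hL]; positivity
    have hη : η₀ ^ ((17 / 16 : ℝ) ^ k) = Real.exp (-L) := by
      rw [hl, hL, jb_exp]
    have hGk : 1 ≤ G ^ k := one_le_pow₀ (by linarith)
    have hGk0 : 0 < G ^ k := by positivity
    have hAG : A * G ^ k ≤ 25 * A * G ^ k * (1 + L) := by
      have h5 : 0 < A * G ^ k := by positivity
      nlinarith [mul_pos h5 hL0]
    have hAG1 : A ≤ A * G ^ k := le_mul_of_one_le_right hA0.le hGk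
    refine ⟨25 * A * G ^ k * (1 + L), ⌈21 * G ^ k * L / δ₀⌉₊, ⟨?_, ?_, ?_, ?_⟩, ?_, ?_, ?_⟩
    · linarith
    · linarith
    · refine le_trans ?_ hAG
      rw [one_div_div]
      calc G ^ k / δ₀ = 1 / δ₀ * G ^ k := by ring
        _ ≤ A * G ^ k := mul_le_mul_of_nonneg_right hAδ hGk0.le
    · refine le_trans ?_ hAG
      rw [one_div_div]
      calc G ^ k / s₀ = 1 / s₀ * G ^ k := by ring
        _ ≤ A * G ^ k := mul_le_mul_of_nonneg_right hAs hGk0.le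
    · have h5 : (⌈21 * G ^ k * L / δ₀⌉₊ : ℝ) < 21 * G ^ k * L / δ₀ + 1 :=
        Nat.ceil_lt_add_one (by positivity)
      have h6 : 21 * G ^ k * L / δ₀ ≤ 21 * (A * G ^ k * L) := by
        calc 21 * G ^ k * L / δ₀ = 21 * (1 / δ₀ * G ^ k * L) := by ring
          _ ≤ 21 * (A * G ^ k * L) := by gcongr
      have h7 : 0 < A * G ^ k * L := by positivity
      nlinarith
    · rw [hη]
      have h5 : Real.exp (-(L / 2)) * (G ^ k) ^ p * B ≤ 1 := by
        have h6 : Real.exp (-(L / 2)) ≤ Real.exp (-(l / 2)) * Real.exp (-(l / 32)) ^ k := by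
          rw [← Real.exp_nat_mul, ← Real.exp_add]
          refine Real.exp_le_exp.2 ?_
          have h7 := mul_le_mul_of_nonneg_left (jb_bern k) hl0.le
          rw [← hL] at h7
          linarith
        have h8 : Real.exp (-(l / 32)) ^ k ≤ (1 / G ^ p) ^ k :=
          pow_le_pow_left₀ (Real.exp_pos _).le hG2 k
        calc Real.exp (-(L / 2)) * (G ^ k) ^ p * B
            ≤ 1 / B * (1 / G ^ p) ^ k * (G ^ k) ^ p * B := by
              refine mul_le_mul_of_nonneg_right (mul_le_mul_of_nonneg_right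
                (h6.trans (mul_le_mul hB2 h8 (by positivity) (by positivity)))
                (by positivity)) hB0.le
          _ = 1 := by
              rw [one_div_pow, ← pow_mul, ← pow_mul, mul_comm p k]
              have h9 : G ^ (k * p) ≠ 0 := by positivity
              field_simp
      have h10 := jb_poly p hL0.le
      have h11 : Real.exp (-L) = Real.exp (-(L / 2)) * Real.exp (-(L / 2)) := by
        rw [← Real.exp_add]
        congr 1
        ring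
      have h12 : Real.exp (L / 2) * Real.exp (-(L / 2)) = 1 := by
        rw [← Real.exp_add, add_neg_cancel, Real.exp_zero]
      have h13 : 0 < Real.exp (-(L / 2)) := Real.exp_pos _
      have h14 : 0 < Real.exp (L / 2) := Real.exp_pos _
      calc C * (25 * A * G ^ k * (1 + L)) ^ p * Real.exp (-L)
          = C * (25 * A) ^ p * (G ^ k) ^ p * Real.exp (-(L / 2)) * Real.exp (-(L / 2)) *
            (1 + L) ^ p := by
              rw [h11, mul_pow, mul_pow (25 * A)]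
              ring
        _ ≤ C * (25 * A) ^ p * (G ^ k) ^ p * Real.exp (-(L / 2)) * Real.exp (-(L / 2)) *
            ((2 * ((p : ℝ) + 1)) ^ p * Real.exp (L / 2)) :=
              mul_le_mul_of_nonneg_left h10 (by positivity)
        _ = (Real.exp (-(L / 2)) * (G ^ k) ^ p * B) *
            (Real.exp (L / 2) * Real.exp (-(L / 2))) := by
              rw [hB]
              ring
        _ ≤ 1 := by
              rw [h12, mul_one]
              exact h5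
    · rw [hη, ← Real.exp_nat_mul]
      refine Real.exp_le_exp.2 ?_
      have h5 : 21 * G ^ k * L / δ₀ ≤ (⌈21 * G ^ k * L / δ₀⌉₊ : ℝ) := Nat.le_ceil _
      have h6 : 0 < Real.pi * (δ₀ / G ^ k / 2) := by positivity
      have h7 := mul_le_mul_of_nonneg_left h5 h6.le
      have h8 : Real.pi * (δ₀ / G ^ k / 2) * (21 * G ^ k * L / δ₀) = 21 / 2 * Real.pi * L := by
        field_simp
      rw [h8] at h7
      have h9 : 32 * L ≤ 21 / 2 * Real.pi * L := by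
        refine mul_le_mul_of_nonneg_right ?_ hL0.le
        have h10 := Real.pi_gt_d2
        linarith
      push_cast
      linarith
  · intro k
    have hr : Real.exp (-(l * (15 / 16))) ≤ 1 / 2 := by
      refine le_of_pow_le_pow_left₀ (n := 2) (by norm_num) (by norm_num) ?_
      rw [← Real.exp_nat_mul]
      have h5 : Real.exp (((2 : ℕ) : ℝ) * -(l * (15 / 16))) ≤ Real.exp (-l) := by
        refine Real.exp_le_exp.2 ?_
        push_cast
        linarith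
      rw [← hl] at h5
      linarith
    have hterm : ∀ j : ℕ, (η₀ ^ ((17 / 16 : ℝ) ^ j)) ^ 15 ≤ η₀ ^ 15 * (1 / 2) ^ j := by
      intro j
      calc (η₀ ^ ((17 / 16 : ℝ) ^ j)) ^ 15
          ≤ η₀ ^ 15 * Real.exp (-(l * (15 / 16))) ^ j := by
            rw [hl, jb_exp, ← Real.exp_nat_mul, ← Real.exp_nat_mul, ← Real.exp_nat_mul,
              ← Real.exp_add]
            refine Real.exp_le_exp.2 ?_
            have h7 := mul_le_mul_of_nonneg_left (jb_bern j) hl0.le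
            push_cast
            linarith
        _ ≤ η₀ ^ 15 * (1 / 2) ^ j := by
            refine mul_le_mul_of_nonneg_left ?_ (by positivity)
            exact pow_le_pow_left₀ (Real.exp_pos _).le hr j
    calc ∑ j ∈ Finset.range k, (η₀ ^ ((17 / 16 : ℝ) ^ j)) ^ 15
        ≤ ∑ j ∈ Finset.range k, η₀ ^ 15 * (1 / 2) ^ j := Finset.sum_le_sum fun j _ => hterm j
      _ = η₀ ^ 15 * ∑ j ∈ Finset.range k, (1 / 2 : ℝ) ^ j := by rw [Finset.mul_sum]
      _ ≤ η₀ ^ 15 * 2 := by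
          refine mul_le_mul_of_nonneg_left ?_ (by positivity)
          have h5 : ∀ m : ℕ, ∑ j ∈ Finset.range m, (1 / 2 : ℝ) ^ j = 2 - 2 * (1 / 2) ^ m := by
            intro m
            induction m with
            | zero => simp
            | succ m ih => rw [Finset.sum_range_succ, ih, pow_succ]; ring
          rw [h5]
          have h6 : (0 : ℝ) < (1 / 2) ^ k := by positivity
          linarith
      _ = η₀ ^ 14 * (2 * η₀) := by ring
      _ ≤ η₀ ^ 14 * 1 := mul_le_mul_of_nonneg_left (by linarith) (by positivity)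
      _ = η₀ ^ 14 := mul_one _

end Pool.Agent.LRig
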