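import Pool.Agent.LRig.FB
import Pool.Agent.LRig.FV

/-!
# LR (MP_74f563_an, all n), file JC: the initial state

PROOF.  `u = q = 0`.  `Ps A 0 0 y = (y.1, A h)`; for `y ∈ Om n (σ/8) (2 s₀)`, `s₀ = σ/(16 (n+1) M)`,
it is in `Om n (σ/4) (σ/4)`.  `DD 0 = 0`: `E1 a = -dh a R (Ps)`, `E2 a = dz a.succ R (Ps)`, bounded
by
`r/(σ/2)` (Cauchy from `Om σ σ`).  `Lm = -R (Ps)` is in `Fn (σ/8) (2 s₀)` (composition of `R` with a
linear map: periodic, real since `A` is real; holomorphic) and bounded by `r`; so `avg Lm` is, and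
`dh a (gg c) = dh a (dh c (avg Lm))` is bounded on the strip `s₀` by `r/((s₀/2)²)` (Cauchy twice:
`2 s₀ → 3s₀/2 → s₀`).  So with `C₁ = max (2/σ) (4/s₀²) (≥ 1)` all bounds are at most `C₁ r`.
The other fields are trivial (`u`, `q` vanish; derivatives of the zero function).
-/

set_option autoImplicit false

namespace Pool.Agent.LRig

open Complex Set MeasureTheory

private noncomputable def LL {n : ℕ} (A : Matrix (Fin n) (Fin n) ℝ) (y : CE n) : CE n :=
  (y.1, fun a => ∑ b, (A a b : ℂ) * y.2 b)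

private theorem Ps_zero {n : ℕ} (A : Matrix (Fin n) (Fin n) ℝ) (y : CE n) :
    Ps A (fun _ _ => 0) (fun _ _ => 0) y = LL A y := by
  refine Prod.ext ?_ ?_
  · funext i
    refine Fin.cases ?_ (fun a => ?_) i
    · rfl
    · change y.1 a.succ + 0 = y.1 a.succ
      rw [add_zero]
  · funext a
    change ∑ b, (A a b : ℂ) * y.2 b + 0 = ∑ b, (A a b : ℂ) * y.2 b
    rw [add_zero]

private theorem Lm_zero {n : ℕ} (A B : Matrix (Fin n) (Fin n) ℝ) (R : CE n → ℂ) :
    Lm A B R (fun _ _ => 0) (fun _ _ => 0) = fun y => -R (LL A y) := by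
  funext y
  simp only [Lm, Ps_zero]
  simp

private theorem E1_zero {n : ℕ} (A B : Matrix (Fin n) (Fin n) ℝ) (R : CE n → ℂ) (a : Fin n)
    (y : CE n) : E1 A B R (fun _ _ => 0) (fun _ _ => 0) a y = -dh a R (LL A y) := by
  simp only [E1, Ps_zero, DD_const]
  simp

private theorem E2_zero {n : ℕ} (A : Matrix (Fin n) (Fin n) ℝ) (R : CE n → ℂ) (a : Fin n)
    (y : CE n) : E2 A R (fun _ _ => 0) (fun _ _ => 0) a y = dz a.succ R (LL A y) := by
  simp only [E2, Ps_zero, DD_const]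
  simp

private theorem LL_mem {n : ℕ} {A : Matrix (Fin n) (Fin n) ℝ} {M δ s s' : ℝ} (hM : 1 ≤ M)
    (hs : 0 < s) (hA : ∀ i j, |A i j| ≤ M) (h : (n + 1) * M * s ≤ s') {y : CE n}
    (hy : y ∈ Om n δ s) : LL A y ∈ Om n δ s' := by
  refine ⟨hy.1, fun a => ?_⟩
  change |(∑ b, (A a b : ℂ) * y.2 b).im| < s'
  rw [im_sum]
  have h1 : |∑ b, ((A a b : ℂ) * y.2 b).im| ≤ ∑ b : Fin n, M * s := by
    refine (Finset.abs_sum_le_sum_abs _ _).trans (Finset.sum_le_sum fun b _ => ?_)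
    rw [im_ofReal_mul, abs_mul]
    exact mul_le_mul (hA a b) (hy.2 b).le (abs_nonneg _) (by linarith)
  rw [Finset.sum_const, Finset.card_univ, Fintype.card_fin, nsmul_eq_mul] at h1
  have h2 : 0 < M * s := mul_pos (by linarith) hs
  have h3 : ((n : ℝ) + 1) * M * s = n * (M * s) + M * s := by ring
  linarith

private theorem LL_diff {n : ℕ} (A : Matrix (Fin n) (Fin n) ℝ) :
    Differentiable ℂ (LL A : CE n → CE n) := by
  unfold LL
  fun_prop

private theorem fn_comp {n : ℕ} {A : Matrix (Fin n) (Fin n) ℝ} {M δ s σ : ℝ} {R : CE n → ℂ}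
    (hM : 1 ≤ M) (hs : 0 < s) (hA : ∀ i j, |A i j| ≤ M) (h : (n + 1) * M * s ≤ σ)
    (hδ : δ ≤ σ) (hR : Fn σ σ R) : Fn δ s fun y => R (LL A y) := by
  refine ⟨?_, fun i y => ?_, fun y => ?_⟩
  · exact DifferentiableOn.comp (g := R) hR.hol (LL_diff A).differentiableOn
      fun y hy => Om_mono hδ le_rfl (LL_mem hM hs hA h hy)
  · have h1 : LL A (y + ez i) = LL A y + ez i := by
      refine Prod.ext rfl ?_
      funext a
      change ∑ b, (A a b : ℂ) * (y.2 b + 0) = ∑ b, (A a b : ℂ) * y.2 b + 0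
      simp only [add_zero]
    change R (LL A (y + ez i)) = R (LL A y)
    rw [h1, hR.per]
  · have h1 : LL A (cj y) = cj (LL A y) := by
      refine Prod.ext rfl ?_
      funext a
      change ∑ b, (A a b : ℂ) * (starRingEnd ℂ) (y.2 b) =
        (starRingEnd ℂ) (∑ b, (A a b : ℂ) * y.2 b)
      rw [map_sum]
      refine Finset.sum_congr rfl fun b _ => ?_
      rw [map_mul, conj_ofReal]
    change R (LL A (cj y)) = (starRingEnd ℂ) (R (LL A y))
    rw [h1, hR.real]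

theorem init (n : ℕ) (M σ : ℝ) : ∃ C₁ : ℝ, 1 ≤ C₁ ∧
    ∀ {A B : Matrix (Fin n) (Fin n) ℝ} {R : CE n → ℂ} {r : ℝ}, Ctx A B M σ R → 0 ≤ r →
      Bd σ σ r R → C₁ * r ≤ b0 n M σ →
      St A B M σ R (σ / 16) (σ / (16 * (n + 1) * M)) (C₁ * r) (C₁ * r)
        (fun _ _ => 0) (fun _ _ => 0) := by
  set s₀ : ℝ := σ / (16 * (n + 1) * M) with hs₀
  refine ⟨max 1 (max (2 / σ) (4 / s₀ ^ 2)), le_max_left _ _, ?_⟩
  intro A B R r hC hr hR hb
  set C₁ : ℝ := max 1 (max (2 / σ) (4 / s₀ ^ 2)) with hC₁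
  have c1 : 1 ≤ C₁ := le_max_left _ _
  have c2 : 2 / σ ≤ C₁ := (le_max_left _ _).trans (le_max_right _ _)
  have c3 : 4 / s₀ ^ 2 ≤ C₁ := (le_max_right _ _).trans (le_max_right _ _)
  have hσ := hC.σ_pos
  have hM := hC.M_ge
  have hM0 : 0 < M := by linarith
  have hn : (0 : ℝ) < n + 1 := by positivity
  have hs0 : 0 < s₀ := by positivity
  have e0 : (n + 1) * M * s₀ = σ / 16 := by
    rw [hs₀]
    field_simp
  have hCr : 0 ≤ C₁ * r := mul_nonneg (by linarith) hr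
  have hz : ∀ {δ s : ℝ}, Bd δ s (C₁ * r) (fun _ : CE n => (0 : ℂ)) := by
    intro δ s y _
    rw [norm_zero]
    exact hCr
  have hfz : ∀ {δ s : ℝ}, Fn δ s (fun _ : CE n => (0 : ℂ)) := by
    intro δ s
    have h1 := fn_const (n := n) (δ := δ) (s := s) 0
    rwa [ofReal_zero] at h1
  have hdz : ∀ i, dz i (fun _ : CE n => (0 : ℂ)) = fun _ => 0 := fun i =>
    funext fun y => dz_const i 0
  have hdh : ∀ i, dh i (fun _ : CE n => (0 : ℂ)) = fun _ => 0 := fun i =>
    funext fun y => dh_const i 0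
  have hLm := Lm_zero A B R
  have hLf : Fn (σ / 8) (2 * s₀) (Lm A B R (fun _ _ => 0) fun _ _ => 0) := by
    rw [hLm]
    refine (fn_comp hM (by linarith) hC.A_le ?_ (by linarith) hC.R_fn).neg
    have e1 : (n + 1) * M * (2 * s₀) = 2 * ((n + 1) * M * s₀) := by ring
    rw [e1, e0]
    linarith
  have hLb : Bd (σ / 8) (2 * s₀) r (Lm A B R (fun _ _ => 0) fun _ _ => 0) := by
    rw [hLm]
    refine Bd.neg fun y hy => hR _ (Om_mono (δ' := σ / 8) (by linarith) le_rfl ?_)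
    refine LL_mem (s := 2 * s₀) hM (by linarith) hC.A_le ?_ hy
    have e1 : (n + 1) * M * (2 * s₀) = 2 * ((n + 1) * M * s₀) := by ring
    rw [e1, e0]
    linarith
  have hav := avg_fn hLf (by linarith) (σ / 16)
  have hab := avg_bd hLb (by linarith) (σ / 16)
  refine ⟨by linarith, by linarith, hs0, by rw [e0]; linarith, hCr, hb, hCr, ?_, fun _ => hfz,
    fun _ => hfz, fun _ => hz, fun _ => hz, ?_, ?_, ?_, ?_, ?_, ?_, ?_⟩
  · refine hb.trans ?_
    unfold b0
    rw [div_le_one (by positivity)]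
    have h1 : (1 : ℝ) ≤ (n + 1) ^ 2 := by
      have h2 : (0 : ℝ) ≤ n := Nat.cast_nonneg n
      nlinarith
    have h2 : (1 : ℝ) ≤ (n + 1) ^ 2 * M := by nlinarith
    have h3 := hC.σ_le
    linarith
  · intro a i
    change Bd (σ / 16) s₀ (C₁ * r) (dz i fun _ : CE n => (0 : ℂ))
    rw [hdz]
    exact hz
  · intro a i
    change Bd (σ / 16) s₀ (C₁ * r) (dz i fun _ : CE n => (0 : ℂ))
    rw [hdz]
    exact hz
  · intro a i
    change Bd (σ / 16) s₀ (C₁ * r) (dh i fun _ : CE n => (0 : ℂ))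
    rw [hdh]
    exact hz
  · intro a i
    change Bd (σ / 16) s₀ (C₁ * r) (dh i fun _ : CE n => (0 : ℂ))
    rw [hdh]
    exact hz
  · intro a c
    have h1 := hab.cdh hav (show 3 / 2 * s₀ < 2 * s₀ by linarith) c
    have h2 := h1.cdh ((hav.dh c).mono le_rfl (by linarith)) (show s₀ < 3 / 2 * s₀ by linarith) a
    refine h2.mono le_rfl le_rfl ?_
    have h3 : r / (2 * s₀ - 3 / 2 * s₀) / (3 / 2 * s₀ - s₀) = 4 / s₀ ^ 2 * r := by
      have h4 : 2 * s₀ - 3 / 2 * s₀ = s₀ / 2 := by ring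
      have h5 : 3 / 2 * s₀ - s₀ = s₀ / 2 := by ring
      rw [h4, h5]
      field_simp
      ring
    rw [h3]
    exact mul_le_mul_of_nonneg_right c3 hr
  · intro a y hy
    rw [E1_zero, norm_neg]
    have h1 := hR.cdh hC.R_fn (show σ / 2 < σ by linarith) a
    have h2 := h1 (LL A y) (Om_mono (δ' := σ / 16) (by linarith) le_rfl
      (LL_mem (s' := σ / 2) hM hs0 hC.A_le (by rw [e0]; linarith) hy))
    refine h2.trans ?_
    have h3 : r / (σ - σ / 2) = 2 / σ * r := by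
      have h4 : σ - σ / 2 = σ / 2 := by ring
      rw [h4]
      field_simp
    rw [h3]
    exact mul_le_mul_of_nonneg_right c2 hr
  · intro a y hy
    rw [E2_zero]
    have h1 := hR.cdz hC.R_fn (show σ / 2 < σ by linarith) a.succ
    have h2 := h1 (LL A y) (Om_mono (δ' := σ / 16) (by linarith) le_rfl
      (LL_mem (s' := σ) hM hs0 hC.A_le (by rw [e0]; linarith) hy))
    refine h2.trans ?_
    have h3 : r / (σ - σ / 2) = 2 / σ * r := by
      have h4 : σ - σ / 2 = σ / 2 := by ring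
      rw [h4]
      field_simp
    rw [h3]
    exact mul_le_mul_of_nonneg_right c2 hr

end Pool.Agent.LRig
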