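import Pool.Agent.LRig.RDefs

/-!
# LR (MP_74f563_an, all n), file JDefs: sequences of states and the limit family (definitions)
-/

set_option autoImplicit false

namespace Pool.Agent.LRig

open Complex Set MeasureTheory Filter Topology Pool.Agent.MechAlpha
open scoped RealInnerProductSpace ContDiff

variable {n : ℕ}

/-- a sequence of approximate families produced by the Newton scheme -/
structure NSq (A B : Matrix (Fin n) (Fin n) ℝ) (M σ : ℝ) (R : CE n → ℂ)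
    (U V : ℕ → Fin n → CE n → ℂ) (d e : ℕ → ℝ) : Prop where
  d_pos : ∀ k, 0 < d k
  d_anti : ∀ k, d (k + 1) ≤ d k
  e_nonneg : ∀ k, 0 ≤ e k
  zeroU : U 0 = fun _ _ => 0
  zeroV : V 0 = fun _ _ => 0
  fnU : ∀ k a, Fn (d k) (d k) (U k a)
  fnV : ∀ k a, Fn (d k) (d k) (V k a)
  psi : ∀ k, ∀ y ∈ Om n (d k) (d k), Ps A (U k) (V k) y ∈ Om n (σ / 4) (σ / 4)
  uz : ∀ k a i, Bd (d k) (d k) (b0 n M σ) (dz i (U k a))
  vz : ∀ k a i, Bd (d k) (d k) (b0 n M σ) (dz i (V k a))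
  uh : ∀ k a c, Bd (d k) (d k) (b0 n M σ) (dh c (U k a))
  vh : ∀ k a c, Bd (d k) (d k) (b0 n M σ) (dh c (V k a))
  difU : ∀ k a, Bd (d (k + 1)) (d (k + 1)) (e k) fun y => U (k + 1) a y - U k a y
  difV : ∀ k a, Bd (d (k + 1)) (d (k + 1)) (e k) fun y => V (k + 1) a y - V k a y
  err1 : ∀ k a, Bd (d k) (d k) (e k) (E1 A B R (U k) (V k) a)
  err2 : ∀ k a, Bd (d k) (d k) (e k) (E2 A R (U k) (V k) a)
  th : ∀ k a c, Bd (d (k + 1)) (d (k + 1)) (e k) (Th A (U k) (V k) a c)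
  sum : ∀ i : ℕ, Summable fun k => e k / d (k + 1) ^ i

/-- the linear map `A` on `Vec n` -/
noncomputable def am (A : Matrix (Fin n) (Fin n) ℝ) (w : Vec n) : Vec n :=
  WithLp.toLp 2 fun a => ∑ b, A a b * w b

/-- a smooth family of invariant isotropic tori, `x = (t, θ, h)` -/
structure Fam (A B : Matrix (Fin n) (Fin n) ℝ) (R : CE n → ℂ) (b : ℝ)
    (X Q : ℝ × Vec n × Vec n → Vec n) : Prop where
  X_smooth : ContDiff ℝ ∞ X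
  Q_smooth : ContDiff ℝ ∞ Q
  X_per : ∀ (t : ℝ) (θ h : Vec n) (l : Fin n → ℤ), X (t, θ + zv l, h) = X (t, θ, h) + zv l
  Q_per : ∀ (t : ℝ) (θ h : Vec n) (l : Fin n → ℤ), Q (t, θ + zv l, h) = Q (t, θ, h)
  X_pert : ∀ (t : ℝ) (θ h : Vec n), X (t + 1, θ, h) = X (t, θ, h)
  Q_pert : ∀ (t : ℝ) (θ h : Vec n), Q (t + 1, θ, h) = Q (t, θ, h)
  X_near : ∀ (x : ℝ × Vec n × Vec n) (v w : Vec n),
    ‖fderiv ℝ X x (0, v, w) - v‖ ≤ b * (‖v‖ + ‖w‖)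
  Q_near : ∀ (x : ℝ × Vec n × Vec n) (v w : Vec n),
    ‖fderiv ℝ Q x (0, v, w) - am A w‖ ≤ b * (‖v‖ + ‖w‖)
  ham1 : ∀ (t : ℝ) (θ h : Vec n),
    fderiv ℝ X (t, θ, h) (1, h, 0) = Hpr B R (X (t, θ, h)) (Q (t, θ, h)) t
  ham2 : ∀ (t : ℝ) (θ h : Vec n),
    fderiv ℝ Q (t, θ, h) (1, h, 0) = -Hxr R (X (t, θ, h)) (Q (t, θ, h)) t
  iso : ∀ (x : ℝ × Vec n × Vec n) (v v' : Vec n),
    ⟪fderiv ℝ Q x (0, v, 0), fderiv ℝ X x (0, v', 0)⟫ =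
      ⟪fderiv ℝ Q x (0, v', 0), fderiv ℝ X x (0, v, 0)⟫

end Pool.Agent.LRig
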