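import Pool.Agent.LRig.JA
import Pool.Agent.LRig.JB
import Pool.Agent.LRig.JC
import Pool.Agent.LRig.JDefs

/-!
# LR (MP_74f563_an, all n), file JD: the sequence of states

PROOF.  `δ₀ = σ/16`, `s₀ = σ/(16 (n+1) M)` (`M ≥ 1`; if `M < 1` there is no `Ctx`; `σ` likewise),
`G = 512 (n+1)`,
`C`, `p` from `step n M C₀ p₀`, `C₁` from `init`, `η₁` from `numerics`.  `η₀ ≤ η₁` so small that
`2 η₀^14 ≤ b0 n M σ`; `r₁ = η₀^16/C₁`, so `C₁ r₁ = η₀^16 ≤ η₀^14`.  Initial state: `b = η₀^14` (by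
`St.mono`), `ε = η₀^16`.  Put `η_k = η₀^((17/16)^k)`,
`b_k = η₀^14 + ∑_{j<k} η_j^15 ≤ 2 η₀^14 ≤ b0`.  The
property `St A B M σ R (δ₀/G^k) (s₀/G^k) (b_k) (η_k^16) u q` passes from `k` to `k + 1` by `step`
and
`eta_succ`; dependent choice (recursion on the subtype of pairs `(u, q)` with this property; compare
`exists_NSeq` in `Pool.Agent.NOne.KIt`).
`d k = min (δ₀/G^k) (s₀/G^k)`, `e k = η_k^15` (`≥ η_k^16`).  The fields of `NSq`: `psi` is `Ps_mem`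
(file IA; the domain `Om (d k) (d k)` is contained in the domain of the state); `sum`:
`e k / d (k+1)^i = η_k^15 (G^{k+1})^i / (min δ₀ s₀)^i`.
-/

set_option autoImplicit false

namespace Pool.Agent.LRig

open Complex Set MeasureTheory

theorem exists_seq (n : ℕ) (M σ C₀ : ℝ) (p₀ : ℕ) (hM : 1 ≤ M) (hσ : 0 < σ) (hσ1 : σ ≤ 1) :
    ∃ r₁ : ℝ, 0 < r₁ ∧ ∀ {A B : Matrix (Fin n) (Fin n) ℝ} {R : CE n → ℂ},
      Ctx A B M σ R → Bd σ σ r₁ R → ResOK A B M σ R C₀ p₀ →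
      ∃ (U V : ℕ → Fin n → CE n → ℂ) (d e : ℕ → ℝ), NSq A B M σ R U V d e := by
  have hM0 : 0 < M := lt_of_lt_of_le one_pos hM
  have hn0 : (0 : ℝ) ≤ n := Nat.cast_nonneg n
  obtain ⟨G, hG⟩ : ∃ G : ℝ, G = 512 * (n + 1) := ⟨_, rfl⟩
  have hG2 : 2 ≤ G := by
    rw [hG]
    linarith
  have hG0 : 0 < G := by linarith
  obtain ⟨δ₀, hδ₀⟩ : ∃ δ₀ : ℝ, δ₀ = σ / 16 := ⟨_, rfl⟩
  obtain ⟨s₀, hs₀⟩ : ∃ s₀ : ℝ, s₀ = σ / (16 * (n + 1) * M) := ⟨_, rfl⟩
  have hδ₀0 : 0 < δ₀ := by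
    rw [hδ₀]
    positivity
  have hs₀0 : 0 < s₀ := by
    rw [hs₀]
    positivity
  have hδ₀1 : δ₀ ≤ 1 := by
    rw [hδ₀]
    linarith
  have hs₀1 : s₀ ≤ 1 := by
    rw [hs₀, div_le_one (by positivity)]
    have h1 : (1 : ℝ) ≤ 16 * (n + 1) := by linarith
    have h2 : (1 : ℝ) ≤ 16 * (n + 1) * M := one_le_mul_of_one_le_of_one_le h1 hM
    linarith
  have hb0 : 0 < b0 n M σ := by
    unfold b0
    positivity
  obtain ⟨C, p, hC, hstep⟩ := step n M C₀ p₀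
  obtain ⟨C₁, hC₁, hinit⟩ := init n M σ
  obtain ⟨η₁, hη₁, hη₁', hnum⟩ := numerics C p G σ δ₀ s₀ hC hG2 hσ hσ1 hδ₀0 hδ₀1 hs₀0 hs₀1
  obtain ⟨η₀, hη₀⟩ : ∃ η₀ : ℝ, η₀ = min η₁ (b0 n M σ / 2) := ⟨_, rfl⟩
  have hη₀0 : 0 < η₀ := by
    rw [hη₀]
    exact lt_min hη₁ (by linarith)
  have hη₀1 : η₀ ≤ η₁ := by
    rw [hη₀]
    exact min_le_left _ _
  have hη₀2 : η₀ ≤ b0 n M σ / 2 := by
    rw [hη₀]
    exact min_le_right _ _
  have hη₀3 : η₀ ≤ 1 := by linarith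
  have hp14 : η₀ ^ 14 ≤ b0 n M σ / 2 :=
    (pow_le_of_le_one hη₀0.le hη₀3 (by norm_num)).trans hη₀2
  have hp16 : η₀ ^ 16 ≤ η₀ ^ 14 := pow_le_pow_of_le_one hη₀0.le hη₀3 (by norm_num)
  have hC₁0 : 0 < C₁ := by linarith
  obtain ⟨hnA, hnB, hnC⟩ := hnum η₀ hη₀0 hη₀1
  refine ⟨η₀ ^ 16 / C₁, by positivity, ?_⟩
  intro A B R hc hR hres
  have hCr : C₁ * (η₀ ^ 16 / C₁) = η₀ ^ 16 := mul_div_cancel₀ _ hC₁0.ne'
  have hst0 := hinit hc (r := η₀ ^ 16 / C₁) (by positivity) hR (by rw [hCr]; linarith)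
  rw [hCr, ← hδ₀, ← hs₀] at hst0
  obtain ⟨η, hη⟩ : ∃ η : ℕ → ℝ, η = fun k => η₀ ^ ((17 / 16 : ℝ) ^ k) := ⟨_, rfl⟩
  have hηk : ∀ k, η₀ ^ ((17 / 16 : ℝ) ^ k) = η k := fun k => by rw [hη]
  have hη0 : ∀ k, 0 < η k := fun k => by
    rw [← hηk]
    exact Real.rpow_pos_of_pos hη₀0 _
  have hη1 : ∀ k, η k ≤ 1 := fun k => by
    rw [← hηk]
    exact Real.rpow_le_one hη₀0.le hη₀3 (by positivity)
  have hηs : ∀ k, η k ^ 17 = η (k + 1) ^ 16 := fun k => by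
    have h1 := eta_succ hη₀0 k
    rw [hηk, hηk] at h1
    exact h1
  have hη00 : η 0 = η₀ := by
    rw [← hηk, pow_zero, Real.rpow_one]
  let δ : ℕ → ℝ := fun k => δ₀ / G ^ k
  let t : ℕ → ℝ := fun k => s₀ / G ^ k
  let b : ℕ → ℝ := fun k => η₀ ^ 14 + ∑ j ∈ Finset.range k, η j ^ 15
  have hδp : ∀ k, 0 < δ k := fun k => by positivity
  have htp : ∀ k, 0 < t k := fun k => by positivity
  have hδs : ∀ k, δ (k + 1) = δ k / (512 * (n + 1)) := fun k => by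
    change δ₀ / G ^ (k + 1) = δ₀ / G ^ k / (512 * (n + 1))
    rw [← hG, pow_succ, div_div]
  have hts : ∀ k, t (k + 1) = t k / (512 * (n + 1)) := fun k => by
    change s₀ / G ^ (k + 1) = s₀ / G ^ k / (512 * (n + 1))
    rw [← hG, pow_succ, div_div]
  have hbs : ∀ k, b (k + 1) = b k + η k ^ 15 := fun k => by
    change η₀ ^ 14 + ∑ j ∈ Finset.range (k + 1), η j ^ 15 =
      η₀ ^ 14 + ∑ j ∈ Finset.range k, η j ^ 15 + η k ^ 15
    rw [Finset.sum_range_succ, add_assoc]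
  have hb1 : ∀ k, b k ≤ b0 n M σ := fun k => by
    change η₀ ^ 14 + ∑ j ∈ Finset.range k, η j ^ 15 ≤ b0 n M σ
    have h1 := hnB k
    simp only [hηk] at h1
    linarith
  let Q : ℕ → (Fin n → CE n → ℂ) × (Fin n → CE n → ℂ) → Prop := fun k x =>
    St A B M σ R (δ k) (t k) (b k) (η k ^ 16) x.1 x.2
  have hQ0 : Q 0 (fun _ _ => 0, fun _ _ => 0) := by
    change St A B M σ R (δ₀ / G ^ 0) (s₀ / G ^ 0) (η₀ ^ 14 + ∑ j ∈ Finset.range 0, η j ^ 15)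
      (η 0 ^ 16) _ _
    rw [pow_zero, div_one, div_one, Finset.sum_range_zero, add_zero, hη00]
    exact hst0.mono hδ₀0 le_rfl hs₀0 le_rfl hp16 (by linarith) le_rfl
      (pow_le_one₀ hη₀0.le hη₀3) hM0.le
  have hnx : ∀ k (x : (Fin n → CE n → ℂ) × (Fin n → CE n → ℂ)), Q k x → ∃ x', Q (k + 1) x' ∧
      (∀ c : Fin n, Bd (δ (k + 1)) (t (k + 1)) (η k ^ 15) fun y => x'.1 c y - x.1 c y) ∧
      (∀ c : Fin n, Bd (δ (k + 1)) (t (k + 1)) (η k ^ 15) fun y => x'.2 c y - x.2 c y) ∧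
      ∀ a c : Fin n, Bd (δ (k + 1)) (t (k + 1)) (η k ^ 15) (Th A x.1 x.2 a c) := by
    intro k x hx
    obtain ⟨N, K, hN, hKN, hN1, hN2⟩ := hnA k
    rw [hηk] at hN1 hN2
    obtain ⟨u', q', g1, g2, g3, g4⟩ := hstep hc hres hx hN hKN (hη0 k) hN1 hN2
      (by rw [← hbs]; exact hb1 _)
    refine ⟨(u', q'), ?_, ?_, ?_, ?_⟩
    · change St A B M σ R (δ (k + 1)) (t (k + 1)) (b (k + 1)) (η (k + 1) ^ 16) u' q'
      rw [hδs, hts, hbs, ← hηs]
      exact g1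
    · rw [hδs, hts]
      exact g2
    · rw [hδs, hts]
      exact g3
    · rw [hδs, hts]
      exact g4
  choose nx hnx1 hnx2 hnx3 hnx4 using hnx
  let sq : (k : ℕ) → {x : (Fin n → CE n → ℂ) × (Fin n → CE n → ℂ) // Q k x} := fun k =>
    Nat.rec (motive := fun k => {x : (Fin n → CE n → ℂ) × (Fin n → CE n → ℂ) // Q k x})
      ⟨(fun _ _ => 0, fun _ _ => 0), hQ0⟩ (fun k x => ⟨nx k x.1 x.2, hnx1 k x.1 x.2⟩) k
  have hst : ∀ k, St A B M σ R (δ k) (t k) (b k) (η k ^ 16) (sq k).1.1 (sq k).1.2 :=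
    fun k => (sq k).2
  have h1615 : ∀ k, η k ^ 16 ≤ η k ^ 15 := fun k =>
    pow_le_pow_of_le_one (hη0 k).le (hη1 k) (by norm_num)
  have hG1 : (1 : ℝ) ≤ 512 * (n + 1) := by linarith
  refine ⟨fun k => (sq k).1.1, fun k => (sq k).1.2, fun k => min (δ k) (t k),
    fun k => η k ^ 15, ?_⟩
  exact
    { d_pos := fun k => lt_min (hδp k) (htp k)
      d_anti := fun k => min_le_min (by rw [hδs]; exact div_le_self (hδp k).le hG1)
        (by rw [hts]; exact div_le_self (htp k).le hG1)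
      e_nonneg := fun k => pow_nonneg (hη0 k).le _
      zeroU := rfl
      zeroV := rfl
      fnU := fun k a => ((hst k).ufn a).mono (min_le_left _ _) (min_le_right _ _)
      fnV := fun k a => ((hst k).qfn a).mono (min_le_left _ _) (min_le_right _ _)
      psi := fun k y hy => Ps_mem hc (hst k) (Om_mono (min_le_left _ _) (min_le_right _ _) hy)
      uz := fun k a i => ((hst k).uz a i).mono (min_le_left _ _) (min_le_right _ _) (hb1 k)
      vz := fun k a i => ((hst k).qz a i).mono (min_le_left _ _) (min_le_right _ _) (hb1 k)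
      uh := fun k a c => ((hst k).uh a c).mono (min_le_left _ _) (min_le_right _ _) (hb1 k)
      vh := fun k a c => ((hst k).qh a c).mono (min_le_left _ _) (min_le_right _ _) (hb1 k)
      difU := fun k a => (hnx2 k (sq k).1 (sq k).2 a).mono (min_le_left _ _)
        (min_le_right _ _) le_rfl
      difV := fun k a => (hnx3 k (sq k).1 (sq k).2 a).mono (min_le_left _ _)
        (min_le_right _ _) le_rfl
      err1 := fun k a => ((hst k).e1 a).mono (min_le_left _ _) (min_le_right _ _) (h1615 k)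
      err2 := fun k a => ((hst k).e2 a).mono (min_le_left _ _) (min_le_right _ _) (h1615 k)
      th := fun k a c => (hnx4 k (sq k).1 (sq k).2 a c).mono (min_le_left _ _)
        (min_le_right _ _) le_rfl
      sum := fun i => by
        have h1 := (hnC i).div_const (min δ₀ s₀ ^ i)
        refine h1.congr fun k => ?_
        change (η₀ ^ ((17 / 16 : ℝ) ^ k)) ^ 15 * (G ^ (k + 1)) ^ i / min δ₀ s₀ ^ i =
          η k ^ 15 / (min (δ₀ / G ^ (k + 1)) (s₀ / G ^ (k + 1))) ^ i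
        rw [hηk, min_div_div_right (by positivity), div_pow, div_div_eq_mul_div] }

end Pool.Agent.LRig
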