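import Pool.Agent.MechAlpha.Liouville
import Pool.Agent.NOne.BrDefs

/-!
# LR (MP_74f563_an, all n): definitions for the variational part (V files)

Curves in `ℝⁿ`, closed curve inequalities, the abstract data of the wind theorem, the data of a
leaf.
-/

set_option autoImplicit false

namespace Pool.Agent.LRig

open Set MeasureTheory Pool.Agent.MechAlpha
open scoped RealInnerProductSpace ContDiff

variable {n : ℕ}

/-- a curve on `[a, b]` with bounded measurable velocity `u`: continuous, differentiable off a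
countable set -/
structure VCv (z u : ℝ → Vec n) (a b : ℝ) : Prop where
  le : a ≤ b
  cont : ContinuousOn z (Icc a b)
  der : ∃ N : Set ℝ, N.Countable ∧ ∀ t ∈ Ioo a b, t ∉ N → HasDerivAt z (u t) t
  meas : Measurable u
  bdd : ∃ M : ℝ, ∀ t ∈ Icc a b, ‖u t‖ ≤ M

/-- the Lagrangian as a function of real variables -/
def lf (L : Torus n → Vec n → UnitAddCircle → ℝ) (x v : Vec n) (t : ℝ) : ℝ :=
  L (proj x) v (t : UnitAddCircle)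

/-- the closed curve inequality at the level `α`, for the cohomology class `c` -/
def Clo (L : Torus n → Vec n → UnitAddCircle → ℝ) (c : Vec n) (α : ℝ) : Prop :=
  ∀ (z u : ℝ → Vec n) (a : ℝ) (T : ℕ) (l : Fin n → ℤ), 0 < T → VCv z u a (a + T) →
    z (a + T) = z a + zv l → 0 ≤ (∫ t in a..(a + T), (lf L (z t) (u t) t - ⟪c, u t⟫)) + α * T

/-- the cost of a curve `θ` with velocity `h + u` -/
noncomputable def cost (E : Vec n → Vec n → ℝ → ℝ) (θ u : ℝ → Vec n) (a b : ℝ) : ℝ :=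
  ∫ t in a..b, E (θ t) (u t) t

/-- a curve `θ` on `[a, b]` with velocity `h + u` -/
def TCv (h : Vec n) (θ u : ℝ → Vec n) (a b : ℝ) : Prop := VCv θ (fun t => h + u t) a b

/-- the resonant angle `j·θ + m t` -/
noncomputable def lev (j : Fin n → ℤ) (m : ℤ) (θ : Vec n) (t : ℝ) : ℝ := ⟪zv j, θ⟫ + m * t

/-- the number `∑ |j a|` -/
def nj (j : Fin n → ℤ) : ℕ := ∑ a, (j a).natAbs

/-- the integer vector `(m, j)` is primitive -/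
def Prim (j : Fin n → ℤ) (m : ℤ) : Prop :=
  ∀ d : ℤ, d ∣ m → (∀ a, d ∣ j a) → IsUnit d

/-- the data of the wind theorem -/
structure WD (E : Vec n → Vec n → ℝ → ℝ) (j : Fin n → ℤ) (m : ℤ) (h : Vec n) (f : ℝ → ℝ)
    (κ₁ κ' C : ℝ) : Prop where
  E_cont : Continuous fun q : Vec n × Vec n × ℝ => E q.1 q.2.1 q.2.2
  E_perθ : ∀ (θ u : Vec n) (t : ℝ) (l : Fin n → ℤ), E (θ + zv l) u t = E θ u t
  E_pert : ∀ (θ u : Vec n) (t : ℝ), E θ u (t + 1) = E θ u t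
  low : ∀ (θ u : Vec n) (t : ℝ), f (lev j m θ t) - κ₁ + κ' * ‖u‖ ^ 2 ≤ E θ u t
  up : ∀ (θ u : Vec n) (t : ℝ), E θ u t ≤ f (lev j m θ t) + κ₁ + C * ‖u‖ ^ 2
  f_cont : Continuous f
  f_per : ∀ x, f (x + 1) = f x
  res : ⟪zv j, h⟫ + m = 0
  j_ne : j ≠ 0
  prim : Prim j m
  κ₁_pos : 0 < κ₁
  κ₁_le : κ₁ ≤ 1
  κ'_pos : 0 < κ'
  κ'_le : κ' ≤ 1
  C_ge : 1 ≤ C
  zero : ∀ (θ u : ℝ → Vec n) (a : ℝ) (T : ℕ) (l : Fin n → ℤ), 0 < T → TCv h θ u a (a + T) →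
    θ (a + T) = θ a + zv l → ⟪zv j, zv l⟫ + m * T = 0 → 0 ≤ cost E θ u a (a + T)

/-- the Weierstrass inequalities between a Lagrangian and a Hamiltonian -/
def Wei (L : Torus n → Vec n → UnitAddCircle → ℝ) (H : Vec n → Vec n → ℝ → ℝ)
    (Hp : Vec n → Vec n → ℝ → Vec n) (a₀ a₁ : ℝ) : Prop :=
  ∀ (x p v : Vec n) (t : ℝ), a₀ * ‖v - Hp x p t‖ ^ 2 ≤ lf L x v t - (⟪p, v⟫ - H x p t) ∧
    lf L x v t - (⟪p, v⟫ - H x p t) ≤ a₁ * ‖v - Hp x p t‖ ^ 2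

/-- the data of an approximate torus with a resonant potential `Rb` -/
structure Leaf (H : Vec n → Vec n → ℝ → ℝ) (Hp : Vec n → Vec n → ℝ → Vec n) (h c : Vec n)
    (Λ : ℝ) (j : Fin n → ℤ) (m : ℤ) (Rb : ℝ → ℝ) (κ : ℝ) (X Q : ℝ × Vec n → Vec n)
    (W : ℝ × Vec n → ℝ) : Prop where
  X_c1 : ContDiff ℝ 1 X
  Q_cont : Continuous Q
  W_c1 : ContDiff ℝ 1 W
  X_per : ∀ (t : ℝ) (θ : Vec n) (l : Fin n → ℤ), X (t, θ + zv l) = X (t, θ) + zv l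
  X_pert : ∀ (t : ℝ) (θ : Vec n), X (t + 1, θ) = X (t, θ)
  W_per : ∀ (t : ℝ) (θ : Vec n) (l : Fin n → ℤ), W (t, θ + zv l) = W (t, θ)
  W_pert : ∀ (t : ℝ) (θ : Vec n), W (t + 1, θ) = W (t, θ)
  near : ∀ (t : ℝ) (θ v : Vec n), ‖fderiv ℝ X (t, θ) (0, v) - v‖ ≤ ‖v‖ / 4
  e1 : ∀ (t : ℝ) (θ : Vec n), ‖fderiv ℝ X (t, θ) (1, h) - Hp (X (t, θ)) (Q (t, θ)) t‖ ≤ κ
  graph : ∀ (t : ℝ) (θ v : Vec n), |fderiv ℝ W (t, θ) (0, v) + ⟪c, v⟫ -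
    ⟪Q (t, θ), fderiv ℝ X (t, θ) (0, v)⟫| ≤ κ * ‖v‖
  act : ∀ (t : ℝ) (θ : Vec n), |⟪Q (t, θ), fderiv ℝ X (t, θ) (1, h)⟫ -
    H (X (t, θ)) (Q (t, θ)) t - (Λ + Rb (lev j m θ t) + fderiv ℝ W (t, θ) (1, h))| ≤ κ ^ 2
  Rb_cont : Continuous Rb
  Rb_per : ∀ x, Rb (x + 1) = Rb x
  res : ⟪zv j, h⟫ + m = 0
  j_ne : j ≠ 0
  prim : Prim j m

/-- the Lipschitz constant of `f` is at most `Kl` times its oscillation -/
def LipOsc (Kl : ℝ) (f : ℝ → ℝ) : Prop :=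
  ∀ r : ℝ, (∀ x y, f x - f y ≤ r) → ∀ x y, |f x - f y| ≤ Kl * r * |x - y|

/-! ## Nearly flat Lagrangians, real form -/

/-- `L = |S v|²/2 + P` with `P` smooth and small in the `C²` sense; `a` is a lower bound of
`|S v|² / |v|²`, `P` is real-analytic in the application -/
structure NF (S : Vec n ≃L[ℝ] Vec n) (a m : ℝ) (P : Vec n × Vec n × ℝ → ℝ)
    (L : Torus n → Vec n → UnitAddCircle → ℝ) : Prop where
  a_pos : 0 < a
  a_le : a ≤ 1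
  m_pos : 0 < m
  m_le : 64 * m ≤ a
  low : ∀ v : Vec n, a * ‖v‖ ^ 2 ≤ ‖S v‖ ^ 2
  lag : ∀ (x v : Vec n) (t : ℝ), lf L x v t = ‖S v‖ ^ 2 / 2 + P (x, v, t)
  smooth : ContDiff ℝ ∞ P
  bd : ∀ q, |P q| ≤ m
  lip : ∀ (q w : Vec n × Vec n × ℝ), |fderiv ℝ P q w| ≤ m * ‖w‖
  lip2 : ∀ (x x' v v' : Vec n) (t : ℝ) (w : Vec n × Vec n),
    |fderiv ℝ P (x, v, t) (w.1, w.2, 0) - fderiv ℝ P (x', v', t) (w.1, w.2, 0)| ≤
      m * (‖x - x'‖ + ‖v - v'‖) * ‖w‖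

end Pool.Agent.LRig
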