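import Pool.Agent.LRig.Defs
import Pool.Agent.LRig.VDefs

/-!
# LR (MP_74f563_an, all n): real restrictions, the Hamiltonian as a real function, the leaf of a
state
-/

set_option autoImplicit false

namespace Pool.Agent.LRig

open Complex Set MeasureTheory Pool.Agent.MechAlpha

variable {n : ℕ}

/-- the point `(t, θ)` of `ℝ^{n+1}` -/
def rv (t : ℝ) (θ : Vec n) : Fin (n + 1) → ℝ := Fin.cons t fun a => θ a

/-- the complex point with time `t`, angles `θ` and frequency `h` -/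
def cp (t : ℝ) (θ h : Vec n) : CE n := rp (rv t θ) fun a => h a

/-- the real part of `F` for a fixed real frequency -/
noncomputable def rr (F : CE n → ℂ) (h : Vec n) : ℝ × Vec n → ℝ := fun x => (F (cp x.1 x.2 h)).re

/-- the Hamiltonian `½ ⟨B p, p⟩ + R (t, x, p)` -/
noncomputable def Hr (B : Matrix (Fin n) (Fin n) ℝ) (R : CE n → ℂ) (x p : Vec n) (t : ℝ) : ℝ :=
  (∑ a, ∑ b, B a b * p a * p b) / 2 + (R (cp t x p)).re

/-- `∂H/∂p` -/
noncomputable def Hpr (B : Matrix (Fin n) (Fin n) ℝ) (R : CE n → ℂ) (x p : Vec n) (t : ℝ) :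
    Vec n := WithLp.toLp 2 fun a => ∑ b, B a b * p b + (dh a R (cp t x p)).re

/-- `∂H/∂x` -/
noncomputable def Hxr (R : CE n → ℂ) (x p : Vec n) (t : ℝ) : Vec n :=
  WithLp.toLp 2 fun a => (dz a.succ R (cp t x p)).re

/-- the positions of a state at the frequency `h` -/
noncomputable def Xs (u : Fin n → CE n → ℂ) (h : Vec n) : ℝ × Vec n → Vec n :=
  fun x => x.2 + WithLp.toLp 2 fun a => rr (u a) h x

/-- the momenta of a state at the frequency `h` -/
noncomputable def Qs (A : Matrix (Fin n) (Fin n) ℝ) (q : Fin n → CE n → ℂ) (h : Vec n) :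
    ℝ × Vec n → Vec n :=
  fun x => WithLp.toLp 2 fun a => ∑ b, A a b * h b + rr (q a) h x

/-- the generating function of a leaf -/
noncomputable def Ws (A : Matrix (Fin n) (Fin n) ℝ) (u : Fin n → CE n → ℂ) (w : CE n → ℂ)
    (h : Vec n) : ℝ × Vec n → ℝ :=
  fun x => rr w h x + ∑ a, (∑ b, A a b * h b) * rr (u a) h x

/-- the cohomology class of a leaf -/
noncomputable def cs (A B : Matrix (Fin n) (Fin n) ℝ) (R : CE n → ℂ) (u q : Fin n → CE n → ℂ)
    (h : Vec n) : Vec n :=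
  WithLp.toLp 2 fun a => ∑ b, A a b * h b + (gg A B R u q a (cp 0 0 h)).re

/-- the mean action of a leaf -/
noncomputable def Ls (A B : Matrix (Fin n) (Fin n) ℝ) (R : CE n → ℂ) (u q : Fin n → CE n → ℂ)
    (h : Vec n) : ℝ :=
  (∑ a, ∑ b, A a b * h a * h b) / 2 + (avg (Lm A B R u q) (cp 0 0 h)).re

/-- the angular part of `k` -/
def ja (k : Fin (n + 1) → ℤ) : Fin n → ℤ := fun a => k a.succ

open Classical in
/-- the multiples `l k` of `k` of order at most `K`, `l ≠ 0` -/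
noncomputable def mK (K : ℕ) (k : Fin (n + 1) → ℤ) : Finset ℤ :=
  (Finset.Icc (-(K : ℤ)) K).filter fun l => l ≠ 0 ∧ nk (l • k) ≤ K

/-- the resonant potential `∑ f_{l k} e^{2 π i l x}` -/
noncomputable def Rbs (F : CE n → ℂ) (K : ℕ) (k : Fin (n + 1) → ℤ) (h : Vec n) (x : ℝ) : ℝ :=
  ∑ l ∈ mK K k, (cf (l • k) F (cp 0 0 h) * exp (2 * Real.pi * I * l * x)).re

end Pool.Agent.LRig
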