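import Pool.Agent.LRig.FB
import Pool.Agent.LRig.RDefs

/-!
# LR (MP_74f563_an, all n), file JE: rapidly convergent sequences have smooth limits

`cp` is a real-linear map `ℝ × Vec n × Vec n → CE n`, `x ↦ cp x.1 x.2.1 x.2.2`.

PROOF (compare `smooth_sum` in `Pool.Agent.NOne.KSmo` and `exists_limit` in `KLim`).  A family
`(f, d, e)` is called good if `0 < d k`, `f k` is holomorphic on `Om (d k) (d k)`, bounded there by
`e k`, and
`∑ e k/(d k)^i < ∞` for all `i`.  Then `(dz i (f k), d k/2, 2 e k/d k)` and `(dh a (f k), ..)` are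
good
(`Bd.cdz`, `Bd.cdh`; these lemmas are stated for `Fn`, in the application all functions are in
`Fn`).
The real functions `F_k x = f k (cp x)` have the derivatives
`v ↦ fderiv ℂ (f k) (cp x) (cp v)`
`= v.1 dz 0 (f k) + ∑ v.2.1 a dz a.succ (f k) + ∑ v.2.2 a dh a (f k)`, of norm at
most `C e k/d k`, summable; by `hasFDerivAt_tsum` the sum of the series is differentiable, with
the sum of the derivatives as derivative, whose coordinates are again sums of good families: by
induction `∑ F_k` is `C^j` for all `j`, so smooth.  Apply this to the differences `f (k+1) - f k`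
with
`d (k+1)`, `e k`; `f k = ∑_{j<k} (f (j+1) - f j)` since `f 0 = 0`; all values at real points are
real
(`Fn.im_rp`), so the sum is the complex number of its real part `g`.
-/

set_option autoImplicit false

namespace Pool.Agent.LRig

open Complex Set MeasureTheory Filter Topology Pool.Agent.MechAlpha
open scoped ContDiff

/-- the parameter space -/
private abbrev PE (n : ℕ) : Type := ℝ × Vec n × Vec n

private noncomputable def cq {n : ℕ} (x : PE n) : CE n := cp x.1 x.2.1 x.2.2

/-- the coordinates of `cq` -/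
private noncomputable def lz {n : ℕ} (j : Fin (n + 1) ⊕ Fin n) : PE n →L[ℝ] ℝ :=
  LinearMap.toContinuousLinearMap
    { toFun := fun x => Sum.elim (rv x.1 x.2.1) (fun a => x.2.2 a) j
      map_add' := fun x y => by
        rcases j with j | a
        · refine Fin.cases ?_ (fun b => ?_) j
          · rfl
          · rfl
        · rfl
      map_smul' := fun c x => by
        rcases j with j | a
        · refine Fin.cases ?_ (fun b => ?_) j
          · rfl
          · rfl
        · rfl }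

private theorem lz_apply {n : ℕ} (j : Fin (n + 1) ⊕ Fin n) (x : PE n) :
    lz j x = Sum.elim (rv x.1 x.2.1) (fun a => x.2.2 a) j := rfl

/-- the partial derivatives -/
private noncomputable def dj {n : ℕ} (j : Fin (n + 1) ⊕ Fin n) (F : CE n → ℂ) : CE n → ℂ :=
  Sum.elim (fun i => dz i F) (fun a => dh a F) j

private theorem fderiv_cq {n : ℕ} (F : CE n → ℂ) (y : CE n) (v : PE n) :
    fderiv ℂ F y (cq v) = ∑ j, ((lz j v : ℝ) : ℂ) * dj j F y := by
  rw [fderiv_coord, Fintype.sum_sum_type]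
  rfl

/-- `cq` as a real linear map -/
private noncomputable def cL (n : ℕ) : PE n →L[ℝ] CE n :=
  LinearMap.toContinuousLinearMap
    { toFun := cq
      map_add' := fun x y => by
        refine Prod.ext (funext fun i => ?_) (funext fun a => ?_)
        · change ((lz (Sum.inl i) (x + y) : ℝ) : ℂ) =
            ((lz (Sum.inl i) x : ℝ) : ℂ) + ((lz (Sum.inl i) y : ℝ) : ℂ)
          rw [map_add, ofReal_add]
        · change ((lz (Sum.inr a) (x + y) : ℝ) : ℂ) =
            ((lz (Sum.inr a) x : ℝ) : ℂ) + ((lz (Sum.inr a) y : ℝ) : ℂ)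
          rw [map_add, ofReal_add]
      map_smul' := fun c x => by
        refine Prod.ext (funext fun i => ?_) (funext fun a => ?_)
        · change ((lz (Sum.inl i) (c • x) : ℝ) : ℂ) = c • ((lz (Sum.inl i) x : ℝ) : ℂ)
          rw [map_smul, smul_eq_mul, ofReal_mul, real_smul]
        · change ((lz (Sum.inr a) (c • x) : ℝ) : ℂ) = c • ((lz (Sum.inr a) x : ℝ) : ℂ)
          rw [map_smul, smul_eq_mul, ofReal_mul, real_smul] }

private theorem cL_apply {n : ℕ} (x : PE n) : cL n x = cq x := rfl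

private theorem cq_mem {n : ℕ} {d : ℝ} (hd : 0 < d) (x : PE n) : cq x ∈ Om n d d :=
  rp_mem hd hd _ _

private structure Good {n : ℕ} (f : ℕ → CE n → ℂ) (d e : ℕ → ℝ) : Prop where
  hd : ∀ k, 0 < d k
  he : ∀ k, 0 ≤ e k
  hf : ∀ k, Fn (d k) (d k) (f k)
  hb : ∀ k, Bd (d k) (d k) (e k) (f k)
  hs : ∀ i : ℕ, Summable fun k => e k / d k ^ i

private theorem Good.sumr {n : ℕ} {f : ℕ → CE n → ℂ} {d e : ℕ → ℝ} (h : Good f d e) (i : ℕ) :
    Summable fun k => 2 * e k / d k / (d k / 2) ^ i := by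
  refine ((h.hs (i + 1)).mul_left (2 ^ (i + 1))).congr fun k => ?_
  have h2 := (h.hd k).ne'
  rw [div_pow, pow_succ, pow_succ]
  field_simp

private theorem Good.D {n : ℕ} {f : ℕ → CE n → ℂ} {d e : ℕ → ℝ} (h : Good f d e)
    (j : Fin (n + 1) ⊕ Fin n) :
    Good (fun k => dj j (f k)) (fun k => d k / 2) (fun k => 2 * e k / d k) := by
  refine ⟨fun k => half_pos (h.hd k), fun k => ?_, fun k => ?_, fun k => ?_, h.sumr⟩
  · have h1 := h.hd k
    have h2 := h.he k
    positivity
  · rcases j with i | a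
    · exact ((h.hf k).dz i).mono (half_le_self (h.hd k).le) (half_le_self (h.hd k).le)
    · exact ((h.hf k).dh a).mono (half_le_self (h.hd k).le) (half_le_self (h.hd k).le)
  · have h2 := (h.hd k).ne'
    have h3 : e k / (d k - d k / 2) = 2 * e k / d k := by
      rw [sub_half]
      field_simp
    rcases j with i | a
    · exact ((h.hb k).cdz (h.hf k) (half_lt_self (h.hd k)) i).mono le_rfl
        (half_le_self (h.hd k).le) h3.le
    · exact ((h.hb k).cdh (h.hf k) (half_lt_self (h.hd k)) a).mono (half_le_self (h.hd k).le)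
        le_rfl h3.le

private theorem Good.norm_le {n : ℕ} {f : ℕ → CE n → ℂ} {d e : ℕ → ℝ} (h : Good f d e)
    (x : PE n) (k : ℕ) : ‖f k (cq x)‖ ≤ e k :=
  h.hb k _ (cq_mem (h.hd k) x)

private theorem Good.summable {n : ℕ} {f : ℕ → CE n → ℂ} {d e : ℕ → ℝ} (h : Good f d e)
    (x : PE n) : Summable fun k => f k (cq x) := by
  refine Summable.of_norm_bounded (g := e) ?_ (h.norm_le x)
  simpa using h.hs 0

private noncomputable def Mj {n : ℕ} (j : Fin (n + 1) ⊕ Fin n) : ℂ →L[ℝ] (PE n →L[ℝ] ℂ) :=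
  ContinuousLinearMap.smulRightL ℝ (PE n) ℂ (lz j)

private theorem Mj_apply {n : ℕ} (a : Fin (n + 1) ⊕ Fin n → ℂ) (v : PE n) :
    (∑ j, Mj j (a j)) v = ∑ j, ((lz j v : ℝ) : ℂ) * a j := by
  rw [sum_apply]
  refine Finset.sum_congr rfl fun j _ => ?_
  simp [Mj, ContinuousLinearMap.smulRightL, ContinuousLinearMap.smulRight_apply]

private theorem real_deriv {n : ℕ} {d : ℝ} {F : CE n → ℂ} (hF : Fn d d F) (hd : 0 < d)
    (x : PE n) :
    HasFDerivAt (fun x : PE n => F (cq x)) (∑ j, Mj j (dj j F (cq x))) x := by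
  have h3 := (hF.dat (cq_mem hd x)).hasFDerivAt.restrictScalars ℝ
  have h5 := HasFDerivAt.comp x (g := F) h3 (cL n).hasFDerivAt
  refine h5.congr_fderiv (ContinuousLinearMap.ext fun v => ?_)
  rw [Mj_apply, ← fderiv_cq]
  rfl

private theorem Good.der {n : ℕ} {f : ℕ → CE n → ℂ} {d e : ℕ → ℝ} (h : Good f d e) (x : PE n) :
    HasFDerivAt (fun x : PE n => ∑' k, f k (cq x))
      (∑ j, Mj j (∑' k, dj j (f k) (cq x))) x := by
  have hu : Summable fun k => ∑ j : Fin (n + 1) ⊕ Fin n, ‖Mj (n := n) j‖ * (2 * e k / d k) := by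
    refine summable_sum fun j _ => ?_
    have h1 : Summable fun k => 2 * e k / d k := by simpa using h.sumr 0
    exact h1.mul_left _
  have h1 := hasFDerivAt_tsum (𝕜 := ℝ) (f := fun k (x : PE n) => f k (cq x))
    (f' := fun k x => ∑ j, Mj j (dj j (f k) (cq x))) hu
    (fun k x => real_deriv (h.hf k) (h.hd k) x) (fun k x => ?_) (h.summable 0) x
  · refine h1.congr_fderiv ?_
    rw [Summable.tsum_finsetSum fun j _ => (Mj j).summable ((h.D j).summable x)]
    exact Finset.sum_congr rfl fun j _ => ((Mj j).map_tsum ((h.D j).summable x)).symm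
  · refine norm_sum_le_of_le _ fun j _ => ?_
    exact (ContinuousLinearMap.le_opNorm _ _).trans
      (mul_le_mul_of_nonneg_left ((h.D j).norm_le x k) (norm_nonneg _))

private theorem Good.smooth {n : ℕ} (i : ℕ) : ∀ {f : ℕ → CE n → ℂ} {d e : ℕ → ℝ}, Good f d e →
    ContDiff ℝ i (fun x : PE n => ∑' k, f k (cq x)) := by
  induction i with
  | zero =>
    intro f d e h
    rw [Nat.cast_zero, contDiff_zero]
    exact continuous_iff_continuousAt.2 fun x => (h.der x).continuousAt
  | succ i ih =>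
    intro f d e h
    rw [Nat.cast_add, Nat.cast_one, contDiff_succ_iff_hasFDerivAt]
    exact ⟨fun x => ∑ j, Mj j (∑' k, dj j (f k) (cq x)),
      ContDiff.sum fun j _ => (Mj j).contDiff.comp (ih (h.D j)), fun x => h.der x⟩

private theorem im_lim (g : ℕ → ℂ) (a : ℂ) (hg : ∀ k, (g k).im = 0)
    (hT : Tendsto g atTop (𝓝 a)) : ((a.re : ℝ) : ℂ) = a := by
  have h1 : Tendsto (fun k => (g k).im) atTop (𝓝 a.im) :=
    (Complex.continuous_im.tendsto a).comp hT
  have h2 : a.im = 0 := by
    refine tendsto_nhds_unique h1 ?_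
    simp only [hg]
    exact tendsto_const_nhds
  apply Complex.ext
  · rw [ofReal_re]
  · rw [ofReal_im, h2]

theorem exists_lim {n : ℕ} {f : ℕ → CE n → ℂ} {d e : ℕ → ℝ} (hd : ∀ k, 0 < d k)
    (hda : ∀ k, d (k + 1) ≤ d k) (he : ∀ k, 0 ≤ e k) (h0 : f 0 = fun _ => 0)
    (hf : ∀ k, Fn (d k) (d k) (f k))
    (hdif : ∀ k, Bd (d (k + 1)) (d (k + 1)) (e k) fun y => f (k + 1) y - f k y)
    (hs : ∀ i : ℕ, Summable fun k => e k / d (k + 1) ^ i) :
    ∃ g : ℝ × Vec n × Vec n → ℝ, ContDiff ℝ ∞ g ∧ ∀ x : ℝ × Vec n × Vec n,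
      Tendsto (fun k => f k (cp x.1 x.2.1 x.2.2)) atTop (𝓝 ((g x : ℝ) : ℂ)) ∧
      ∀ v : ℝ × Vec n × Vec n,
        Tendsto (fun k => fderiv ℂ (f k) (cp x.1 x.2.1 x.2.2) (cp v.1 v.2.1 v.2.2)) atTop
          (𝓝 ((fderiv ℝ g x v : ℝ) : ℂ)) := by
  have hfs : ∀ k, Fn (d (k + 1)) (d (k + 1)) fun y => f (k + 1) y - f k y := fun k =>
    (hf (k + 1)).sub ((hf k).mono (hda k) (hda k))
  have hG : Good (fun k y => f (k + 1) y - f k y) (fun k => d (k + 1)) e :=
    ⟨fun k => hd (k + 1), he, hfs, hdif, hs⟩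
  have T0 : ∀ x : PE n, Tendsto (fun k => f k (cq x)) atTop
      (𝓝 (∑' k, (f (k + 1) (cq x) - f k (cq x)))) := by
    intro x
    have h1 := (hG.summable x).hasSum.tendsto_sum_nat
    have h2 : (fun k => f k (cq x)) = fun N => ∑ k ∈ Finset.range N,
        (f (k + 1) (cq x) - f k (cq x)) := by
      funext N
      have h3 : ∑ k ∈ Finset.range N, (f (k + 1) (cq x) - f k (cq x)) = f N (cq x) - f 0 (cq x) :=
        Finset.sum_range_sub (fun k => f k (cq x)) N
      have h4 : f 0 (cq x) = 0 := by rw [h0]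
      rw [h3, h4, sub_zero]
    rw [h2]
    exact h1
  have I0 : ∀ (x : PE n) (k : ℕ), (f k (cq x)).im = 0 := fun x k => (hf k).im_rp _ _
  have hdat : ∀ (x : PE n) (k : ℕ), DifferentiableAt ℂ (f k) (cq x) := fun x k =>
    (hf k).dat (cq_mem (hd k) x)
  have hD : ∀ (x : PE n) (j : Fin (n + 1) ⊕ Fin n) (k : ℕ),
      dj j (fun y => f (k + 1) y - f k y) (cq x) = dj j (f (k + 1)) (cq x) - dj j (f k) (cq x) := by
    intro x j k
    rcases j with i | a
    · exact dz_sub i (hdat x (k + 1)) (hdat x k)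
    · exact dh_sub a (hdat x (k + 1)) (hdat x k)
  have T1 : ∀ (x : PE n) (j : Fin (n + 1) ⊕ Fin n), Tendsto (fun k => dj j (f k) (cq x)) atTop
      (𝓝 (∑' k, dj j (fun y => f (k + 1) y - f k y) (cq x))) := by
    intro x j
    have h1 := ((hG.D j).summable x).hasSum.tendsto_sum_nat
    have h2 : (fun k => dj j (f k) (cq x)) = fun N => ∑ k ∈ Finset.range N,
        dj j (fun y => f (k + 1) y - f k y) (cq x) := by
      funext N
      have h3 : ∑ k ∈ Finset.range N, dj j (fun y => f (k + 1) y - f k y) (cq x) =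
          dj j (f N) (cq x) - dj j (f 0) (cq x) := by
        rw [← Finset.sum_range_sub (fun k => dj j (f k) (cq x)) N]
        exact Finset.sum_congr rfl fun k _ => hD x j k
      have h4 : dj j (f 0) (cq x) = 0 := by
        rw [h0]
        rcases j with i | a
        · change fderiv ℂ (fun _ : CE n => (0 : ℂ)) (cq x) (ez i) = 0
          rw [fderiv_fun_const]
          rfl
        · change fderiv ℂ (fun _ : CE n => (0 : ℂ)) (cq x) (eh a) = 0
          rw [fderiv_fun_const]
          rfl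
      rw [h3, h4, sub_zero]
    rw [h2]
    exact h1
  have I1 : ∀ (x : PE n) (j : Fin (n + 1) ⊕ Fin n) (k : ℕ), (dj j (f k) (cq x)).im = 0 := by
    intro x j k
    rcases j with i | a
    · exact ((hf k).dz i).im_rp _ _
    · exact ((hf k).dh a).im_rp _ _
  refine ⟨fun x => (∑' k, (f (k + 1) (cq x) - f k (cq x))).re,
    Complex.reCLM.contDiff.comp (contDiff_infty.2 fun i => hG.smooth i), fun x => ⟨?_, fun v => ?_⟩⟩
  · rw [im_lim _ _ (I0 x) (T0 x)]
    exact T0 x
  · have h1 : HasFDerivAt (fun x : PE n => (∑' k, (f (k + 1) (cq x) - f k (cq x))).re)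
        (Complex.reCLM.comp (∑ j, Mj j (∑' k, dj j (fun y => f (k + 1) y - f k y) (cq x)))) x :=
      Complex.reCLM.hasFDerivAt.comp x (hG.der x)
    have h2 : Tendsto (fun k => fderiv ℂ (f k) (cq x) (cq v)) atTop
        (𝓝 (∑ j, ((lz j v : ℝ) : ℂ) * ∑' k, dj j (fun y => f (k + 1) y - f k y) (cq x))) := by
      have h3 : (fun k => fderiv ℂ (f k) (cq x) (cq v)) =
          fun k => ∑ j, ((lz j v : ℝ) : ℂ) * dj j (f k) (cq x) :=
        funext fun k => fderiv_cq _ _ _
      rw [h3]
      exact tendsto_finsetSum _ fun j _ => (T1 x j).const_mul _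
    have h4 : ∀ k, (fderiv ℂ (f k) (cq x) (cq v)).im = 0 := by
      intro k
      rw [fderiv_cq, im_sum]
      refine Finset.sum_eq_zero fun j _ => ?_
      rw [im_ofReal_mul, I1, mul_zero]
    have h5 := im_lim _ _ h4 h2
    rw [h1.fderiv]
    have h6 : (Complex.reCLM.comp
        (∑ j, Mj j (∑' k, dj j (fun y => f (k + 1) y - f k y) (cq x)))) v =
        (∑ j, ((lz j v : ℝ) : ℂ) * ∑' k, dj j (fun y => f (k + 1) y - f k y) (cq x)).re := by
      rw [ContinuousLinearMap.comp_apply, Mj_apply]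
      rfl
    rw [h6, h5]
    exact h2

end Pool.Agent.LRig
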