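import Pool.Agent.LRig.JDefs
import Pool.Agent.LRig.JE
import Pool.Agent.LRig.FV

/-!
# LR (MP_74f563_an, all n), file JF: the limit family

PROOF.  `exists_lim` (file JE) for `U · a` and `V · a` gives smooth functions `u a`, `q a` of
`(t, θ, h)`.
`X (t, θ, h) = θ + toLp (u a)`, `Q = am A h + toLp (q a)`.
Periodicity: `U k a (cp t (θ + zv l) h) = U k a (cp t θ h)` (`Fn.per_int`) passes to the limit, also
`t + 1`.
`X_near`: the coordinates of `fderiv X (0, v, w) - v` are the limits of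
`∑ v c dz c.succ (U k a) + ∑ w c dh c (U k a)` (real points are in all domains), of absolute value
at most
`b0 (∑ |v c| + ∑ |w c|) ≤ n b0 (‖v‖ + ‖w‖)`; the norm is at most `n² b0 (‖v‖ + ‖w‖)`.  `Q_near` in
the same
way (`fderiv (am A h) w = am A w`).
`ham1`: the direction `(1, h, 0)` is `cp 1 h 0 = (hh h, 0)`, so
`fderiv ℂ (U k a) (cp t θ h) (cp 1 h 0) =
DD (U k a) (cp t θ h)`.  `E1 (U k) (V k) a (cp t θ h) → 0` (`err1`, `e k → 0` from `sum` with `i =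
0`):
`DD (U k a) - ∑ B a b V k b - dh a R (Ps ..) → 0`; `Ps A (U k) (V k) (cp t θ h) → cp t X Q` and
`dh a R` is
continuous there (`psi`: the points lie in `Om (σ/4) (σ/4)`, the limit lies in `Om (σ/2) (σ/2)`;
`R` is
in `Fn σ σ`).  So `fderiv (u a) (1, h, 0) = ∑ B a b q b + Re dh a R`, and the coordinate `a` of
`fderiv X (1, h, 0)` is `h a + ∑ B a b q b + .. = ∑ B a b Q b + ..` as `B A = 1`.  `ham2`: `err2`
in the same
way.
`iso`: `Th A (U k) (V k) a c (cp t θ h) → 0` (`th`), and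
`dz a.succ (Qf A (V k) c) = dz a.succ (V k c) → ∂_θa Q_c`, `dz b.succ (Xf (U k) c) → ∂_θb X_c`; so
`∑_c (∂_a Q_c ∂_b X_c - ∂_b Q_c ∂_a X_c) = 0` for all `a`, `b`; bilinearity.
-/

set_option autoImplicit false

namespace Pool.Agent.LRig

open Complex Set MeasureTheory Filter Topology Pool.Agent.MechAlpha
open scoped ContDiff RealInnerProductSpace

/-- the parameter space -/
private abbrev PX (n : ℕ) : Type := ℝ × Vec n × Vec n

private noncomputable def l1 {n : ℕ} (a : Fin n) : PX n →L[ℝ] ℝ :=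
  (EuclideanSpace.proj a).comp ((ContinuousLinearMap.fst ℝ (Vec n) (Vec n)).comp
    (ContinuousLinearMap.snd ℝ ℝ (Vec n × Vec n)))

private noncomputable def l2 {n : ℕ} (a : Fin n) : PX n →L[ℝ] ℝ :=
  (EuclideanSpace.proj a).comp ((ContinuousLinearMap.snd ℝ (Vec n) (Vec n)).comp
    (ContinuousLinearMap.snd ℝ ℝ (Vec n × Vec n)))

private noncomputable def l3 {n : ℕ} (A : Matrix (Fin n) (Fin n) ℝ) (a : Fin n) :
    PX n →L[ℝ] ℝ := ∑ b, A a b • l2 b

private theorem l1_apply {n : ℕ} (a : Fin n) (x : PX n) : l1 a x = x.2.1 a := rfl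

private theorem l2_apply {n : ℕ} (a : Fin n) (x : PX n) : l2 a x = x.2.2 a := rfl

private theorem l3_apply {n : ℕ} (A : Matrix (Fin n) (Fin n) ℝ) (a : Fin n) (x : PX n) :
    l3 A a x = ∑ b, A a b * x.2.2 b := by
  unfold l3
  rw [sum_apply]
  rfl

private theorem coord {n : ℕ} {F : PX n → Vec n} {x : PX n} (hF : DifferentiableAt ℝ F x)
    (a : Fin n) {f' : PX n →L[ℝ] ℝ} (hf : HasFDerivAt (fun x => F x a) f' x) (v : PX n) :
    (fderiv ℝ F x v) a = f' v := by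
  have h1 : HasFDerivAt (fun x => F x a)
      ((EuclideanSpace.proj (𝕜 := ℝ) a : Vec n →L[ℝ] ℝ).comp (fderiv ℝ F x)) x :=
    (EuclideanSpace.proj (𝕜 := ℝ) a : Vec n →L[ℝ] ℝ).hasFDerivAt.comp x hF.hasFDerivAt
  rw [hf.unique h1]
  rfl

private noncomputable def XX {n : ℕ} (u : Fin n → PX n → ℝ) : PX n → Vec n :=
  fun x => x.2.1 + WithLp.toLp 2 fun a => u a x

private noncomputable def QQ {n : ℕ} (A : Matrix (Fin n) (Fin n) ℝ) (q : Fin n → PX n → ℝ) :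
    PX n → Vec n :=
  fun x => am A x.2.2 + WithLp.toLp 2 fun a => q a x

private theorem XX_apply {n : ℕ} (u : Fin n → PX n → ℝ) (x : PX n) (a : Fin n) :
    XX u x a = x.2.1 a + u a x := rfl

private theorem QQ_apply {n : ℕ} (A : Matrix (Fin n) (Fin n) ℝ) (q : Fin n → PX n → ℝ)
    (x : PX n) (a : Fin n) : QQ A q x a = ∑ b, A a b * x.2.2 b + q a x := rfl

private structure Lim {n : ℕ} (A B : Matrix (Fin n) (Fin n) ℝ) (M σ : ℝ) (R : CE n → ℂ)
    (U V : ℕ → Fin n → CE n → ℂ) (d e : ℕ → ℝ) (u q : Fin n → PX n → ℝ) : Prop where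
  hc : Ctx A B M σ R
  h : NSq A B M σ R U V d e
  su : ∀ a, ContDiff ℝ ∞ (u a)
  sq : ∀ a, ContDiff ℝ ∞ (q a)
  lu : ∀ a (x : PX n), Tendsto (fun k => U k a (cp x.1 x.2.1 x.2.2)) atTop
    (𝓝 ((u a x : ℝ) : ℂ))
  lq : ∀ a (x : PX n), Tendsto (fun k => V k a (cp x.1 x.2.1 x.2.2)) atTop
    (𝓝 ((q a x : ℝ) : ℂ))
  du : ∀ a (x v : PX n), Tendsto (fun k => fderiv ℂ (U k a) (cp x.1 x.2.1 x.2.2)
    (cp v.1 v.2.1 v.2.2)) atTop (𝓝 ((fderiv ℝ (u a) x v : ℝ) : ℂ))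
  dq : ∀ a (x v : PX n), Tendsto (fun k => fderiv ℂ (V k a) (cp x.1 x.2.1 x.2.2)
    (cp v.1 v.2.1 v.2.2)) atTop (𝓝 ((fderiv ℝ (q a) x v : ℝ) : ℂ))

section

variable {n : ℕ} {A B : Matrix (Fin n) (Fin n) ℝ} {M σ : ℝ} {R : CE n → ℂ}
  {U V : ℕ → Fin n → CE n → ℂ} {d e : ℕ → ℝ} {u q : Fin n → PX n → ℝ}

private theorem Lim.sX (L : Lim A B M σ R U V d e u q) : ContDiff ℝ ∞ (XX u) := by
  rw [contDiff_euclidean]
  intro a
  exact (l1 a).contDiff.add (L.su a)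

private theorem Lim.sQ (L : Lim A B M σ R U V d e u q) : ContDiff ℝ ∞ (QQ A q) := by
  rw [contDiff_euclidean]
  intro a
  have h1 : (fun x : PX n => QQ A q x a) = fun x => l3 A a x + q a x := by
    funext x
    rw [l3_apply]
    rfl
  rw [h1]
  exact (l3 A a).contDiff.add (L.sq a)

private theorem Lim.fX (L : Lim A B M σ R U V d e u q) (x v : PX n) (a : Fin n) :
    (fderiv ℝ (XX u) x v) a = v.2.1 a + fderiv ℝ (u a) x v := by
  have h1 : DifferentiableAt ℝ (XX u) x := (L.sX.differentiable (by simp)) x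
  have h2 : HasFDerivAt (u a) (fderiv ℝ (u a) x) x :=
    ((L.su a).differentiable (by simp) x).hasFDerivAt
  have h3 : HasFDerivAt (fun x => XX u x a) (l1 a + fderiv ℝ (u a) x) x :=
    (l1 a).hasFDerivAt.add h2
  rw [coord h1 a h3]
  rfl

private theorem Lim.fQ (L : Lim A B M σ R U V d e u q) (x v : PX n) (a : Fin n) :
    (fderiv ℝ (QQ A q) x v) a = ∑ b, A a b * v.2.2 b + fderiv ℝ (q a) x v := by
  have h1 : DifferentiableAt ℝ (QQ A q) x := (L.sQ.differentiable (by simp)) x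
  have h2 : HasFDerivAt (q a) (fderiv ℝ (q a) x) x :=
    ((L.sq a).differentiable (by simp) x).hasFDerivAt
  have h3 : HasFDerivAt (fun x => QQ A q x a) (l3 A a + fderiv ℝ (q a) x) x := by
    have h4 : (fun x : PX n => QQ A q x a) = fun x => l3 A a x + q a x := by
      funext x
      rw [l3_apply]
      rfl
    rw [h4]
    exact (l3 A a).hasFDerivAt.add h2
  rw [coord h1 a h3, ← l3_apply]
  rfl

private theorem cp_zv (t : ℝ) (θ h : Vec n) (l : Fin n → ℤ) : cp t (θ + zv l) h =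
    cp t θ h + ((fun i => (((Fin.cons 0 l : Fin (n + 1) → ℤ) i : ℤ) : ℂ)), 0) := by
  refine Prod.ext (funext fun i => ?_) ?_
  · refine Fin.cases ?_ (fun a => ?_) i
    · change ((t : ℝ) : ℂ) = ((t : ℝ) : ℂ) + ((0 : ℤ) : ℂ)
      simp
    · change (((θ + zv l) a : ℝ) : ℂ) = ((θ a : ℝ) : ℂ) + ((l a : ℤ) : ℂ)
      have e : (θ + zv l) a = θ a + (l a : ℝ) := rfl
      rw [e]
      push_cast
      ring
  · exact (add_zero _).symm

private theorem cp_t (t : ℝ) (θ h : Vec n) : cp (t + 1) θ h =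
    cp t θ h + ((fun i => (((Fin.cons 1 0 : Fin (n + 1) → ℤ) i : ℤ) : ℂ)), 0) := by
  refine Prod.ext (funext fun i => ?_) ?_
  · refine Fin.cases ?_ (fun a => ?_) i
    · change (((t + 1 : ℝ)) : ℂ) = ((t : ℝ) : ℂ) + ((1 : ℤ) : ℂ)
      push_cast
      ring
    · change ((θ a : ℝ) : ℂ) = ((θ a : ℝ) : ℂ) + ((0 : ℤ) : ℂ)
      simp
  · exact (add_zero _).symm

private theorem lim_per {F : ℕ → CE n → ℂ} (hF : ∀ k, Fn (d k) (d k) (F k)) {g : PX n → ℝ}
    (hg : ∀ x : PX n, Tendsto (fun k => F k (cp x.1 x.2.1 x.2.2)) atTop (𝓝 ((g x : ℝ) : ℂ)))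
    {x x' : PX n} {l : Fin (n + 1) → ℤ}
    (hx : cp x'.1 x'.2.1 x'.2.2 = cp x.1 x.2.1 x.2.2 + ((fun i => ((l i : ℤ) : ℂ)), 0)) :
    g x' = g x := by
  have h1 := hg x'
  have h2 : (fun k => F k (cp x'.1 x'.2.1 x'.2.2)) = fun k => F k (cp x.1 x.2.1 x.2.2) := by
    funext k
    rw [hx]
    exact (hF k).per_int l _
  rw [h2] at h1
  exact_mod_cast tendsto_nhds_unique h1 (hg x)

private theorem cp_mem {δ : ℝ} (hδ : 0 < δ) (t : ℝ) (θ h : Vec n) : cp t θ h ∈ Om n δ δ :=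
  rp_mem hδ hδ _ _

private theorem fd_cp (F : CE n → ℂ) (y : CE n) (v w : Vec n) :
    fderiv ℂ F y (cp 0 v w) = ∑ c, ((v c : ℝ) : ℂ) * dz c.succ F y +
      ∑ c, ((w c : ℝ) : ℂ) * dh c F y := by
  rw [fderiv_coord, Fin.sum_univ_succ]
  have h1 : (cp 0 v w).1 0 = (0 : ℂ) := by
    change ((0 : ℝ) : ℂ) = 0
    exact ofReal_zero
  rw [h1, zero_mul, zero_add]
  rfl

private theorem fd_DD (F : CE n → ℂ) (t : ℝ) (θ h : Vec n) :
    fderiv ℂ F (cp t θ h) (cp 1 h 0) = DD F (cp t θ h) := by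
  have h1 : cp 1 h (0 : Vec n) = (hh (cp t θ h).2, 0) := by
    refine Prod.ext (funext fun i => ?_) (funext fun a => ?_)
    · refine Fin.cases ?_ (fun a => ?_) i
      · change ((1 : ℝ) : ℂ) = 1
        exact ofReal_one
      · rfl
    · change ((0 : ℝ) : ℂ) = 0
      exact ofReal_zero
  rw [h1]
  rfl

private theorem co_le (v : Vec n) (c : Fin n) : |v c| ≤ ‖v‖ := by
  rw [← Real.norm_eq_abs]
  exact PiLp.norm_apply_le v c

private theorem near_one {F : ℕ → CE n → ℂ} {g : PX n → ℝ} {b : ℝ} (hd : ∀ k, 0 < d k)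
    (hz : ∀ k i, Bd (d k) (d k) b (dz i (F k))) (hh' : ∀ k c, Bd (d k) (d k) b (dh c (F k)))
    (hg : ∀ x v : PX n, Tendsto (fun k => fderiv ℂ (F k) (cp x.1 x.2.1 x.2.2)
      (cp v.1 v.2.1 v.2.2)) atTop (𝓝 ((fderiv ℝ g x v : ℝ) : ℂ))) (x : PX n) (v w : Vec n) :
    |fderiv ℝ g x (0, v, w)| ≤ n * b * (‖v‖ + ‖w‖) := by
  have h1 := (hg x (0, v, w)).norm
  rw [Complex.norm_real, Real.norm_eq_abs] at h1
  refine le_of_tendsto h1 (Eventually.of_forall fun k => ?_)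
  have hb : ∀ c : Fin n, ‖dz c.succ (F k) (cp x.1 x.2.1 x.2.2)‖ ≤ b := fun c =>
    hz k c.succ _ (cp_mem (hd k) _ _ _)
  have hb' : ∀ c : Fin n, ‖dh c (F k) (cp x.1 x.2.1 x.2.2)‖ ≤ b := fun c =>
    hh' k c _ (cp_mem (hd k) _ _ _)
  change ‖fderiv ℂ (F k) (cp x.1 x.2.1 x.2.2) (cp 0 v w)‖ ≤ _
  rw [fd_cp]
  have h2 : ∀ (z : Vec n) (G : Fin n → ℂ), (∀ c, ‖G c‖ ≤ b) →
      ‖∑ c, ((z c : ℝ) : ℂ) * G c‖ ≤ n * b * ‖z‖ := by
    intro z G hG
    refine (norm_sum_le _ _).trans ?_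
    calc ∑ c, ‖((z c : ℝ) : ℂ) * G c‖ ≤ ∑ _c : Fin n, ‖z‖ * b := by
          refine Finset.sum_le_sum fun c _ => ?_
          rw [norm_mul, Complex.norm_real, Real.norm_eq_abs]
          exact mul_le_mul (co_le z c) (hG c) (norm_nonneg _) (norm_nonneg _)
      _ = n * b * ‖z‖ := by
          rw [Finset.sum_const, Finset.card_univ, Fintype.card_fin, nsmul_eq_mul]
          ring
  have h3 := h2 v (fun c => dz c.succ (F k) (cp x.1 x.2.1 x.2.2)) hb
  have h4 := h2 w (fun c => dh c (F k) (cp x.1 x.2.1 x.2.2)) hb'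
  refine (norm_add_le _ _).trans ?_
  rw [mul_add]
  exact add_le_add h3 h4

private theorem norm_of_co {D : Vec n} {C : ℝ} (hC : 0 ≤ C) (hD : ∀ a, |D a| ≤ C) :
    ‖D‖ ≤ n * C := by
  have h1 : ‖D‖ ^ 2 ≤ n * C ^ 2 := by
    rw [EuclideanSpace.norm_sq_eq]
    calc ∑ i, ‖D i‖ ^ 2 ≤ ∑ _i : Fin n, C ^ 2 := by
          refine Finset.sum_le_sum fun i _ => ?_
          rw [Real.norm_eq_abs]
          exact pow_le_pow_left₀ (abs_nonneg _) (hD i) 2
      _ = n * C ^ 2 := by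
          rw [Finset.sum_const, Finset.card_univ, Fintype.card_fin, nsmul_eq_mul]
  have h2 : (n : ℝ) ≤ (n : ℝ) ^ 2 := by
    exact_mod_cast Nat.le_self_pow (by norm_num) n
  have h3 : ‖D‖ ^ 2 ≤ (n * C) ^ 2 := by
    rw [mul_pow]
    exact h1.trans (mul_le_mul_of_nonneg_right h2 (sq_nonneg C))
  exact (sq_le_sq₀ (norm_nonneg _) (by positivity)).1 h3

private theorem b0_nonneg (hc : Ctx A B M σ R) : 0 ≤ b0 n M σ := by
  unfold b0
  have h1 := hc.M_ge
  have h2 := hc.σ_pos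
  positivity

private theorem Lim.nX (L : Lim A B M σ R U V d e u q) (x : PX n) (v w : Vec n) :
    ‖fderiv ℝ (XX u) x (0, v, w) - v‖ ≤ n ^ 2 * b0 n M σ * (‖v‖ + ‖w‖) := by
  have h0 := b0_nonneg L.hc
  have h1 : ∀ a, |(fderiv ℝ (XX u) x (0, v, w) - v) a| ≤ n * b0 n M σ * (‖v‖ + ‖w‖) := by
    intro a
    have e : (fderiv ℝ (XX u) x (0, v, w) - v) a = fderiv ℝ (u a) x (0, v, w) := by
      change (fderiv ℝ (XX u) x (0, v, w)) a - v a = _
      rw [L.fX]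
      change v a + _ - v a = _
      ring
    rw [e]
    exact near_one L.h.d_pos (fun k i => L.h.uz k a i) (fun k c => L.h.uh k a c) (L.du a) x v w
  refine (norm_of_co (by positivity) h1).trans (le_of_eq ?_)
  ring

private theorem Lim.nQ (L : Lim A B M σ R U V d e u q) (x : PX n) (v w : Vec n) :
    ‖fderiv ℝ (QQ A q) x (0, v, w) - am A w‖ ≤ n ^ 2 * b0 n M σ * (‖v‖ + ‖w‖) := by
  have h0 := b0_nonneg L.hc
  have h1 : ∀ a, |(fderiv ℝ (QQ A q) x (0, v, w) - am A w) a| ≤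
      n * b0 n M σ * (‖v‖ + ‖w‖) := by
    intro a
    have e : (fderiv ℝ (QQ A q) x (0, v, w) - am A w) a = fderiv ℝ (q a) x (0, v, w) := by
      change (fderiv ℝ (QQ A q) x (0, v, w)) a - ∑ b, A a b * w b = _
      rw [L.fQ]
      change ∑ b, A a b * w b + _ - _ = _
      ring
    rw [e]
    exact near_one L.h.d_pos (fun k i => L.h.vz k a i) (fun k c => L.h.vh k a c) (L.dq a) x v w
  refine (norm_of_co (by positivity) h1).trans (le_of_eq ?_)
  ring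

private theorem Lim.e0 (L : Lim A B M σ R U V d e u q) : Tendsto e atTop (𝓝 0) := by
  have h1 := (L.h.sum 0).tendsto_atTop_zero
  simpa using h1

private theorem to_zero {G : ℕ → ℂ} (he : Tendsto e atTop (𝓝 0)) (hG : ∀ k, ‖G k‖ ≤ e k) :
    Tendsto G atTop (𝓝 0) :=
  squeeze_zero_norm hG he

private theorem Lim.pts (L : Lim A B M σ R U V d e u q) (x : PX n) :
    Tendsto (fun k => Ps A (U k) (V k) (cp x.1 x.2.1 x.2.2)) atTop
      (𝓝 (cp x.1 (XX u x) (QQ A q x))) := by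
  refine Tendsto.prodMk_nhds ?_ ?_
  · rw [tendsto_pi_nhds]
    intro i
    refine Fin.cases ?_ (fun a => ?_) i
    · change Tendsto (fun _ => ((x.1 : ℝ) : ℂ)) atTop (𝓝 ((x.1 : ℝ) : ℂ))
      exact tendsto_const_nhds
    · change Tendsto (fun k => ((x.2.1 a : ℝ) : ℂ) + U k a (cp x.1 x.2.1 x.2.2)) atTop
        (𝓝 ((XX u x a : ℝ) : ℂ))
      rw [XX_apply, ofReal_add]
      exact (L.lu a x).const_add _
  · rw [tendsto_pi_nhds]
    intro a
    change Tendsto (fun k => ∑ b, (A a b : ℂ) * ((x.2.2 b : ℝ) : ℂ) +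
      V k a (cp x.1 x.2.1 x.2.2)) atTop (𝓝 ((QQ A q x a : ℝ) : ℂ))
    rw [QQ_apply, ofReal_add, ofReal_sum]
    simp only [ofReal_mul]
    exact (L.lq a x).const_add _

private theorem Lim.comp (L : Lim A B M σ R U V d e u q) (x : PX n) {G : CE n → ℂ}
    (hG : Fn σ σ G) : Tendsto (fun k => G (Ps A (U k) (V k) (cp x.1 x.2.1 x.2.2))) atTop
      (𝓝 (G (cp x.1 (XX u x) (QQ A q x)))) := by
  have h1 : ContinuousAt G (cp x.1 (XX u x) (QQ A q x)) :=
    hG.cont.continuousAt ((isOpen_Om σ σ).mem_nhds (cp_mem L.hc.σ_pos _ _ _))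
  exact h1.tendsto.comp (L.pts x)

private theorem Lim.h1 (L : Lim A B M σ R U V d e u q) (t : ℝ) (θ h : Vec n) :
    fderiv ℝ (XX u) (t, θ, h) (1, h, 0) =
      Hpr B R (XX u (t, θ, h)) (QQ A q (t, θ, h)) t := by
  ext a
  rw [L.fX]
  change h a + fderiv ℝ (u a) (t, θ, h) (1, h, 0) =
    ∑ b, B a b * QQ A q (t, θ, h) b +
      (dh a R (cp t (XX u (t, θ, h)) (QQ A q (t, θ, h)))).re
  have hl1 := L.du a (t, θ, h) (1, h, 0)
  simp only at hl1
  have hl2 : Tendsto (fun k => DD (U k a) (cp t θ h)) atTop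
      (𝓝 ((fderiv ℝ (u a) (t, θ, h) (1, h, 0) : ℝ) : ℂ)) := by
    refine hl1.congr fun k => ?_
    exact fd_DD _ t θ h
  have hl3 : Tendsto (fun k => ∑ b, (B a b : ℂ) * V k b (cp t θ h)) atTop
      (𝓝 (∑ b, (B a b : ℂ) * ((q b (t, θ, h) : ℝ) : ℂ))) :=
    tendsto_finsetSum _ fun b _ => (L.lq b (t, θ, h)).const_mul _
  have hl4 := L.comp (t, θ, h) (L.hc.R_fn.dh a)
  have hl5 : Tendsto (fun k => E1 A B R (U k) (V k) a (cp t θ h)) atTop (𝓝 0) :=
    to_zero L.e0 fun k => L.h.err1 k a _ (cp_mem (L.h.d_pos k) _ _ _)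
  have h6 := tendsto_nhds_unique hl5 ((hl2.sub hl3).sub hl4)
  have h7 := congrArg Complex.re h6
  simp only [sub_re, zero_re, ofReal_re, re_sum, ← ofReal_mul] at h7
  have h8 : ∑ b, B a b * QQ A q (t, θ, h) b = h a + ∑ b, B a b * q b (t, θ, h) := by
    have h9 : ∀ b, B a b * QQ A q (t, θ, h) b = ∑ c, B a b * A b c * h c +
        B a b * q b (t, θ, h) := by
      intro b
      rw [QQ_apply, mul_add, Finset.mul_sum]
      congr 1
      exact Finset.sum_congr rfl fun c _ => by ring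
    rw [Finset.sum_congr rfl fun b _ => h9 b, Finset.sum_add_distrib, Finset.sum_comm]
    congr 1
    have h10 : ∀ c, ∑ b, B a b * A b c * h c = (if a = c then 1 else 0) * h c := by
      intro c
      rw [← Finset.sum_mul, ← Matrix.mul_apply, L.hc.inv, Matrix.one_apply]
    rw [Finset.sum_congr rfl fun c _ => h10 c]
    simp
  rw [h8]
  linarith

private theorem Lim.h2 (L : Lim A B M σ R U V d e u q) (t : ℝ) (θ h : Vec n) :
    fderiv ℝ (QQ A q) (t, θ, h) (1, h, 0) =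
      -Hxr R (XX u (t, θ, h)) (QQ A q (t, θ, h)) t := by
  ext a
  rw [L.fQ]
  change ∑ b, A a b * (0 : Vec n) b + fderiv ℝ (q a) (t, θ, h) (1, h, 0) =
    -(dz a.succ R (cp t (XX u (t, θ, h)) (QQ A q (t, θ, h)))).re
  have hl1 := L.dq a (t, θ, h) (1, h, 0)
  simp only at hl1
  have hl2 : Tendsto (fun k => DD (V k a) (cp t θ h)) atTop
      (𝓝 ((fderiv ℝ (q a) (t, θ, h) (1, h, 0) : ℝ) : ℂ)) := by
    refine hl1.congr fun k => ?_
    exact fd_DD _ t θ h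
  have hl4 := L.comp (t, θ, h) (L.hc.R_fn.dz a.succ)
  have hl5 : Tendsto (fun k => E2 A R (U k) (V k) a (cp t θ h)) atTop (𝓝 0) :=
    to_zero L.e0 fun k => L.h.err2 k a _ (cp_mem (L.h.d_pos k) _ _ _)
  have h6 := tendsto_nhds_unique hl5 (hl2.add hl4)
  have h7 := congrArg Complex.re h6
  simp only [add_re, zero_re, ofReal_re] at h7
  have h8 : ∑ b, A a b * (0 : Vec n) b = 0 :=
    Finset.sum_eq_zero fun b _ => mul_zero _
  rw [h8]
  linarith

private theorem dz_Qf {q' : Fin n → CE n → ℂ} {y : CE n} (c : Fin n)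
    (hq : DifferentiableAt ℂ (q' c) y) (i : Fin (n + 1)) :
    dz i (Qf A q' c) y = dz i (q' c) y := by
  have h1 : ∀ b : Fin n, DifferentiableAt ℂ (fun y : CE n => (A c b : ℂ) * y.2 b) y := by
    intro b
    fun_prop
  have h2 : DifferentiableAt ℂ (fun y : CE n => ∑ b, (A c b : ℂ) * y.2 b) y :=
    DifferentiableAt.fun_sum fun b _ => h1 b
  change dz i (fun y => ∑ b, (A c b : ℂ) * y.2 b + q' c y) y = _
  rw [dz_add i h2 hq, dz_sum i fun b _ => h1 b]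
  have h3 : ∑ b, dz i (fun y : CE n => (A c b : ℂ) * y.2 b) y = 0 := by
    refine Finset.sum_eq_zero fun b _ => ?_
    rw [dz_cmul, dz_h, mul_zero]
  rw [h3, zero_add]

private theorem dz_Xf {u' : Fin n → CE n → ℂ} {y : CE n} (c : Fin n)
    (hu : DifferentiableAt ℂ (u' c) y) (b : Fin n) :
    dz b.succ (Xf u' c) y = (if b = c then 1 else 0) + dz b.succ (u' c) y := by
  have h2 : DifferentiableAt ℂ (fun y : CE n => y.1 c.succ) y := by
    fun_prop
  change dz b.succ (fun y => y.1 c.succ + u' c y) y = _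
  rw [dz_add _ h2 hu, dz_z]
  congr 1
  exact if_congr Fin.succ_inj rfl rfl

/-- the bilinear form of the isotropy in terms of `Th` -/
private theorem form_eq {P Y : Fin n → Fin n → ℂ} (v v' : Fin n → ℂ) :
    ∑ c, ((∑ a, v a * P c a) * (∑ b, v' b * Y c b) -
      (∑ b, v' b * P c b) * (∑ a, v a * Y c a)) =
    ∑ a, ∑ b, v a * v' b * ∑ c, (P c a * Y c b - P c b * Y c a) := by
  have h1 : ∀ c, (∑ a, v a * P c a) * (∑ b, v' b * Y c b) -
      (∑ b, v' b * P c b) * (∑ a, v a * Y c a) =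
      ∑ a, ∑ b, v a * v' b * (P c a * Y c b - P c b * Y c a) := by
    intro c
    rw [Finset.sum_mul_sum, Finset.sum_mul_sum]
    rw [Finset.sum_comm (f := fun i j => v' i * P c i * (v j * Y c j))]
    rw [← Finset.sum_sub_distrib]
    refine Finset.sum_congr rfl fun a _ => ?_
    rw [← Finset.sum_sub_distrib]
    refine Finset.sum_congr rfl fun b _ => ?_
    ring
  rw [Finset.sum_congr rfl fun c _ => h1 c, Finset.sum_comm]
  refine Finset.sum_congr rfl fun a _ => ?_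
  rw [Finset.sum_comm]
  refine Finset.sum_congr rfl fun b _ => ?_
  rw [Finset.mul_sum]

private theorem Lim.iso (L : Lim A B M σ R U V d e u q) (x : PX n) (v v' : Vec n) :
    ⟪fderiv ℝ (QQ A q) x (0, v, 0), fderiv ℝ (XX u) x (0, v', 0)⟫ =
      ⟪fderiv ℝ (QQ A q) x (0, v', 0), fderiv ℝ (XX u) x (0, v, 0)⟫ := by
  set y : CE n := cp x.1 x.2.1 x.2.2 with hy
  have hdV : ∀ k c, DifferentiableAt ℂ (V k c) y := fun k c =>
    (L.h.fnV k c).dat (cp_mem (L.h.d_pos k) _ _ _)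
  have hdU : ∀ k c, DifferentiableAt ℂ (U k c) y := fun k c =>
    (L.h.fnU k c).dat (cp_mem (L.h.d_pos k) _ _ _)
  have hQ : ∀ (w : Vec n) (c : Fin n), Tendsto (fun k => ∑ a, ((w a : ℝ) : ℂ) *
      dz a.succ (Qf A (V k) c) y) atTop
      (𝓝 (((fderiv ℝ (QQ A q) x (0, w, 0)) c : ℝ) : ℂ)) := by
    intro w c
    have h1 := L.dq c x (0, w, 0)
    have h2 : (fderiv ℝ (QQ A q) x (0, w, 0)) c = fderiv ℝ (q c) x (0, w, 0) := by
      rw [L.fQ]
      have h8 : ∑ b, A c b * (0 : Vec n) b = 0 :=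
        Finset.sum_eq_zero fun b _ => mul_zero _
      change ∑ b, A c b * (0 : Vec n) b + _ = _
      rw [h8, zero_add]
    rw [h2]
    refine h1.congr fun k => ?_
    change fderiv ℂ (V k c) y (cp 0 w 0) = _
    rw [fd_cp]
    have h3 : ∑ a, (((0 : Vec n) a : ℝ) : ℂ) * dh a (V k c) y = 0 :=
      Finset.sum_eq_zero fun b _ => by
        change ((0 : ℝ) : ℂ) * _ = 0
        rw [ofReal_zero, zero_mul]
    rw [h3, add_zero]
    exact Finset.sum_congr rfl fun a _ => by rw [dz_Qf c (hdV k c)]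
  have hX : ∀ (w : Vec n) (c : Fin n), Tendsto (fun k => ∑ a, ((w a : ℝ) : ℂ) *
      dz a.succ (Xf (U k) c) y) atTop
      (𝓝 (((fderiv ℝ (XX u) x (0, w, 0)) c : ℝ) : ℂ)) := by
    intro w c
    have h1 := (L.du c x (0, w, 0)).const_add ((w c : ℝ) : ℂ)
    have h2 : (fderiv ℝ (XX u) x (0, w, 0)) c = w c + fderiv ℝ (u c) x (0, w, 0) := L.fX _ _ _
    rw [h2, ofReal_add]
    refine h1.congr fun k => ?_
    change ((w c : ℝ) : ℂ) + fderiv ℂ (U k c) y (cp 0 w 0) = _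
    rw [fd_cp]
    have h3 : ∑ a, (((0 : Vec n) a : ℝ) : ℂ) * dh a (U k c) y = 0 :=
      Finset.sum_eq_zero fun b _ => by
        change ((0 : ℝ) : ℂ) * _ = 0
        rw [ofReal_zero, zero_mul]
    have h4 : ∀ a : Fin n, ((w a : ℝ) : ℂ) * dz a.succ (Xf (U k) c) y =
        (if a = c then ((w a : ℝ) : ℂ) else 0) + ((w a : ℝ) : ℂ) * dz a.succ (U k c) y := by
      intro a
      rw [dz_Xf c (hdU k c), mul_add]
      congr 1
      split_ifs <;> simp
    rw [h3, add_zero, Finset.sum_congr rfl fun a _ => h4 a, Finset.sum_add_distrib]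
    simp
  have hS : Tendsto (fun k => ∑ c, ((∑ a, ((v a : ℝ) : ℂ) * dz a.succ (Qf A (V k) c) y) *
      (∑ b, ((v' b : ℝ) : ℂ) * dz b.succ (Xf (U k) c) y) -
      (∑ b, ((v' b : ℝ) : ℂ) * dz b.succ (Qf A (V k) c) y) *
      (∑ a, ((v a : ℝ) : ℂ) * dz a.succ (Xf (U k) c) y))) atTop
      (𝓝 (∑ c, ((((fderiv ℝ (QQ A q) x (0, v, 0)) c : ℝ) : ℂ) *
        (((fderiv ℝ (XX u) x (0, v', 0)) c : ℝ) : ℂ) -
        (((fderiv ℝ (QQ A q) x (0, v', 0)) c : ℝ) : ℂ) *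
        (((fderiv ℝ (XX u) x (0, v, 0)) c : ℝ) : ℂ)))) :=
    tendsto_finsetSum _ fun c _ =>
      ((hQ v c).mul (hX v' c)).sub ((hQ v' c).mul (hX v c))
  have hT : Tendsto (fun k => ∑ a, ∑ b, ((v a : ℝ) : ℂ) * ((v' b : ℝ) : ℂ) *
      Th A (U k) (V k) a b y) atTop (𝓝 (∑ a : Fin n, ∑ b : Fin n,
        ((v a : ℝ) : ℂ) * ((v' b : ℝ) : ℂ) * 0)) := by
    refine tendsto_finsetSum _ fun a _ => tendsto_finsetSum _ fun b _ => ?_
    refine Tendsto.const_mul _ ?_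
    exact to_zero L.e0 fun k => L.h.th k a b _ (cp_mem (L.h.d_pos (k + 1)) _ _ _)
  have hE : ∀ k, ∑ a, ∑ b, ((v a : ℝ) : ℂ) * ((v' b : ℝ) : ℂ) * Th A (U k) (V k) a b y =
      ∑ c, ((∑ a, ((v a : ℝ) : ℂ) * dz a.succ (Qf A (V k) c) y) *
      (∑ b, ((v' b : ℝ) : ℂ) * dz b.succ (Xf (U k) c) y) -
      (∑ b, ((v' b : ℝ) : ℂ) * dz b.succ (Qf A (V k) c) y) *
      (∑ a, ((v a : ℝ) : ℂ) * dz a.succ (Xf (U k) c) y)) := fun k =>
    (form_eq (P := fun c a => dz a.succ (Qf A (V k) c) y)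
      (Y := fun c b => dz b.succ (Xf (U k) c) y) (fun a => ((v a : ℝ) : ℂ))
      fun b => ((v' b : ℝ) : ℂ)).symm
  have h1 := tendsto_nhds_unique (hT.congr hE) hS
  simp only [mul_zero, Finset.sum_const_zero] at h1
  have h2 : ∑ c, ((fderiv ℝ (QQ A q) x (0, v, 0)) c * (fderiv ℝ (XX u) x (0, v', 0)) c -
        (fderiv ℝ (QQ A q) x (0, v', 0)) c * (fderiv ℝ (XX u) x (0, v, 0)) c) = 0 := by
    have h3 := h1.symm
    exact_mod_cast h3
  rw [Finset.sum_sub_distrib, sub_eq_zero] at h2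
  rw [PiLp.inner_apply, PiLp.inner_apply]
  have h4 : ∀ r s : ℝ, ⟪r, s⟫ = r * s := fun r s => by
    rw [real_inner_eq_re_inner ℝ]
    simp [mul_comm]
  simp only [h4]
  exact h2

end

theorem exists_family {n : ℕ} {A B : Matrix (Fin n) (Fin n) ℝ} {M σ : ℝ} {R : CE n → ℂ}
    (hc : Ctx A B M σ R) {U V : ℕ → Fin n → CE n → ℂ} {d e : ℕ → ℝ}
    (h : NSq A B M σ R U V d e) :
    ∃ X Q : ℝ × Vec n × Vec n → Vec n, Fam A B R (n ^ 2 * b0 n M σ) X Q := by
  have h1 := fun a => exists_lim h.d_pos h.d_anti h.e_nonneg (f := fun k => U k a)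
    (congrFun h.zeroU a) (fun k => h.fnU k a) (fun k => h.difU k a) h.sum
  have h2 := fun a => exists_lim h.d_pos h.d_anti h.e_nonneg (f := fun k => V k a)
    (congrFun h.zeroV a) (fun k => h.fnV k a) (fun k => h.difV k a) h.sum
  choose u su lu using h1
  choose q sq lq using h2
  have L : Lim A B M σ R U V d e u q := ⟨hc, h, su, sq, fun a x => (lu a x).1,
    fun a x => (lq a x).1, fun a x => (lu a x).2, fun a x => (lq a x).2⟩
  refine ⟨XX u, QQ A q, L.sX, L.sQ, ?_, ?_, ?_, ?_, L.nX, L.nQ, L.h1, L.h2, L.iso⟩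
  · intro t θ η l
    ext a
    have e1 : (XX u (t, θ, η) + zv l) a = XX u (t, θ, η) a + (l a : ℝ) := rfl
    rw [e1, XX_apply, XX_apply, lim_per (d := d) (fun k => h.fnU k a) (L.lu a)
      (x := (t, θ, η)) (x' := (t, θ + zv l, η)) (cp_zv t θ η l)]
    change θ a + (l a : ℝ) + _ = θ a + _ + (l a : ℝ)
    ring
  · intro t θ η l
    ext a
    rw [QQ_apply, QQ_apply, lim_per (d := d) (fun k => h.fnV k a) (L.lq a)
      (x := (t, θ, η)) (x' := (t, θ + zv l, η)) (cp_zv t θ η l)]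
  · intro t θ η
    ext a
    rw [XX_apply, XX_apply, lim_per (d := d) (fun k => h.fnU k a) (L.lu a)
      (x := (t, θ, η)) (x' := (t + 1, θ, η)) (cp_t t θ η)]
  · intro t θ η
    ext a
    rw [QQ_apply, QQ_apply, lim_per (d := d) (fun k => h.fnV k a) (L.lq a)
      (x := (t, θ, η)) (x' := (t + 1, θ, η)) (cp_t t θ η)]

end Pool.Agent.LRig
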