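import Pool.Agent.LRig.RDefs

/-!
# LR (MP_74f563_an, all n), file LDefs: nearly flat Lagrangians (definitions)
-/

set_option autoImplicit false

namespace Pool.Agent.LRig

open Complex Set MeasureTheory Pool.Agent.MechAlpha
open scoped RealInnerProductSpace

variable {n : ℕ}

/-- `L` is `ε`-close to the flat Lagrangian `|S v|²/2`: the difference extends to a holomorphic
function of `(t, x, v)`, bounded by `ε`, on the domain `|Im t|, |Im x_a|, |Im v_a| < σ` -/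
def NearFlat (S : Vec n ≃L[ℝ] Vec n) (σ ε : ℝ) (L : Torus n → Vec n → UnitAddCircle → ℝ) : Prop :=
  ∃ P : CE n → ℂ, DifferentiableOn ℂ P (Om n σ σ) ∧ (∀ y ∈ Om n σ σ, ‖P y‖ ≤ ε) ∧
    ∀ (x v : Vec n) (t : ℝ), ((L (proj x) v (t : UnitAddCircle) : ℝ) : ℂ) =
      ((‖S v‖ ^ 2 / 2 : ℝ) : ℂ) + P (cp t x v)

/-- the matrix `SᵀS` -/
noncomputable def AS (S : Vec n ≃L[ℝ] Vec n) : Matrix (Fin n) (Fin n) ℝ :=
  Matrix.of fun a b => ⟪S (EuclideanSpace.single a 1), S (EuclideanSpace.single b 1)⟫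

/-- the inverse of `SᵀS` -/
noncomputable def BS (S : Vec n ≃L[ℝ] Vec n) : Matrix (Fin n) (Fin n) ℝ := (AS S)⁻¹

/-- the momentum `SᵀS v + ∂P/∂v` -/
noncomputable def pm (S : Vec n ≃L[ℝ] Vec n) (P : CE n → ℂ) (x v : Vec n) (t : ℝ) : Vec n :=
  WithLp.toLp 2 fun a => ∑ b, AS S a b * v b + (dh a P (cp t x v)).re

/-- `R` is the perturbation of the Legendre transform of `|S v|²/2 + P` -/
structure Leg (S : Vec n ≃L[ℝ] Vec n) (P R : CE n → ℂ) : Prop where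
  vel : ∀ (x v : Vec n) (t : ℝ), Hpr (BS S) R x (pm S P x v t) t = v
  ham : ∀ (x v : Vec n) (t : ℝ), Hr (BS S) R x (pm S P x v t) t =
    ⟪pm S P x v t, v⟫ - (‖S v‖ ^ 2 / 2 + (P (cp t x v)).re)
  hx : ∀ (x v : Vec n) (t : ℝ) (a : Fin n),
    (Hxr R x (pm S P x v t) t) a = -(dz a.succ P (cp t x v)).re
  surj : ∀ (x p : Vec n) (t : ℝ), ∃ v : Vec n, pm S P x v t = p

end Pool.Agent.LRig
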