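import Pool.Agent.LRig.FA
import Pool.Agent.LRig.LDefs

/-!
# LR (MP_74f563_an, all n), file LA: the perturbation in the class `Fn`; the matrices

PROOFS.  `id_thm`: let `y = (x + i η)` with real `x`, `η` (vectors of all coordinates of `CE n`);
`φ ζ = F (x + ζ η)` is holomorphic on the convex open set of those `ζ ∈ ℂ` with
`|Im ζ| |η_i| < δ` (`i` a `z`-coordinate), `< s` (an `h`-coordinate), which contains `ℝ` and `i`,
and
vanishes on `ℝ`; by the identity theorem
(`AnalyticOnNhd.eqOn_zero_of_preconnected_of_frequently_eq_zero`)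
`φ i = 0`.
`exists_P`: from `NearFlat` we have `P`; `F₁ y = P (y + ez i) - P y` vanishes at real points (`L`
has period
`1` in `t` and in `x_a`: `proj (x + e_a) = proj x`), so on `Om n σ σ`; and
`F₂ y = P (cj y) - conj (P y)`, i.e. `y ↦ conj (P (cj y)) - P y` (holomorphic), vanishes at real
points
(`P` is real there).  Put `P' y = P y` for `y ∈ Om n σ σ` and `0` otherwise (`Om n σ σ` is invariant
under `y ↦ y + ez i` and `cj`).
`AS_symm`, `AS_norm`: `‖S v‖² = ∑ AS a b v a v b`.  `AS_inv`: `AS S` is positive definite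
(`v·(AS v) = ‖S v‖² > 0` for `v ≠ 0`), so injective, `IsUnit` (`Matrix.nonsing_inv_mul`,
`Matrix.mul_nonsing_inv`; determinant nonzero e.g. by `Matrix.PosDef.isUnit` or
`Matrix.exists_mulVec_eq_zero_iff`).
`low_S`: `‖v‖ = ‖S⁻¹ S v‖ ≤ ‖S⁻¹‖ ‖S v‖`; `a = min 1 (1/(‖S⁻¹‖² + 1))`.
-/

set_option autoImplicit false

namespace Pool.Agent.LRig

open Complex Set MeasureTheory Pool.Agent.MechAlpha
open scoped RealInnerProductSpace ComplexConjugate

variable {n : ℕ}

/-- the complex line through the real and imaginary parts of `y` -/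
private def ln (y : CE n) (ζ : ℂ) : CE n :=
  (fun i => ((y.1 i).re : ℂ) + ζ * ((y.1 i).im : ℂ),
    fun a => ((y.2 a).re : ℂ) + ζ * ((y.2 a).im : ℂ))

private theorem ln_I (y : CE n) : ln y I = y := by
  refine Prod.ext (funext fun i => ?_) (funext fun a => ?_)
  · change ((y.1 i).re : ℂ) + I * ((y.1 i).im : ℂ) = y.1 i
    rw [mul_comm]
    exact re_add_im _
  · change ((y.2 a).re : ℂ) + I * ((y.2 a).im : ℂ) = y.2 a
    rw [mul_comm]
    exact re_add_im _

private theorem ln_real (y : CE n) (t : ℝ) : ln y t =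
    rp (fun i => (y.1 i).re + t * (y.1 i).im) (fun a => (y.2 a).re + t * (y.2 a).im) := by
  refine Prod.ext (funext fun i => ?_) (funext fun a => ?_)
  · change ((y.1 i).re : ℂ) + t * ((y.1 i).im : ℂ) = (((y.1 i).re + t * (y.1 i).im : ℝ) : ℂ)
    push_cast
    rfl
  · change ((y.2 a).re : ℂ) + t * ((y.2 a).im : ℂ) = (((y.2 a).re + t * (y.2 a).im : ℝ) : ℂ)
    push_cast
    rfl

private theorem cj_ln (y : CE n) (ζ : ℂ) : cj (ln y ζ) = ln y (conj ζ) := by
  refine Prod.ext (funext fun i => ?_) (funext fun a => ?_)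
  · change conj (((y.1 i).re : ℂ) + ζ * ((y.1 i).im : ℂ)) =
      ((y.1 i).re : ℂ) + conj ζ * ((y.1 i).im : ℂ)
    rw [map_add, map_mul, conj_ofReal, conj_ofReal]
  · change conj (((y.2 a).re : ℂ) + ζ * ((y.2 a).im : ℂ)) =
      ((y.2 a).re : ℂ) + conj ζ * ((y.2 a).im : ℂ)
    rw [map_add, map_mul, conj_ofReal, conj_ofReal]

private theorem ln_diff (y : CE n) : Differentiable ℂ (ln y) := by
  unfold ln
  refine Differentiable.prodMk (differentiable_pi.2 fun i => ?_) (differentiable_pi.2 fun a => ?_)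
  · exact (differentiable_id.mul_const _).const_add _
  · exact (differentiable_id.mul_const _).const_add _

private theorem ln_open (y : CE n) (δ s : ℝ) : IsOpen (ln y ⁻¹' Om n δ s) :=
  (isOpen_Om δ s).preimage (ln_diff y).continuous

private theorem ln_convex (y : CE n) (δ s : ℝ) : Convex ℝ (ln y ⁻¹' Om n δ s) := by
  intro ζ₁ h1 ζ₂ h2 a b ha hb hab
  have hab' : (a : ℂ) + (b : ℂ) = 1 := by exact_mod_cast hab
  have e : ln y (a • ζ₁ + b • ζ₂) = a • ln y ζ₁ + b • ln y ζ₂ := by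
    refine Prod.ext (funext fun i => ?_) (funext fun c => ?_)
    · change ((y.1 i).re : ℂ) + (a • ζ₁ + b • ζ₂) * ((y.1 i).im : ℂ) =
        a • (((y.1 i).re : ℂ) + ζ₁ * ((y.1 i).im : ℂ)) +
          b • (((y.1 i).re : ℂ) + ζ₂ * ((y.1 i).im : ℂ))
      rw [real_smul, real_smul, real_smul, real_smul]
      linear_combination (-((y.1 i).re : ℂ)) * hab'
    · change ((y.2 c).re : ℂ) + (a • ζ₁ + b • ζ₂) * ((y.2 c).im : ℂ) =
        a • (((y.2 c).re : ℂ) + ζ₁ * ((y.2 c).im : ℂ)) +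
          b • (((y.2 c).re : ℂ) + ζ₂ * ((y.2 c).im : ℂ))
      rw [real_smul, real_smul, real_smul, real_smul]
      linear_combination (-((y.2 c).re : ℂ)) * hab'
  rw [mem_preimage, e]
  exact convex_Om δ s h1 h2 ha hb hab

private theorem ln_zero_mem {y : CE n} {δ s : ℝ} (hy : y ∈ Om n δ s) :
    (0 : ℂ) ∈ ln y ⁻¹' Om n δ s := by
  refine ⟨fun i => ?_, fun a => ?_⟩
  · change |(((y.1 i).re : ℂ) + 0 * ((y.1 i).im : ℂ)).im| < δ
    rw [zero_mul, add_zero, ofReal_im, abs_zero]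
    exact (abs_nonneg _).trans_lt (hy.1 i)
  · change |(((y.2 a).re : ℂ) + 0 * ((y.2 a).im : ℂ)).im| < s
    rw [zero_mul, add_zero, ofReal_im, abs_zero]
    exact (abs_nonneg _).trans_lt (hy.2 a)

open Filter Topology in
private theorem line_zero {y : CE n} {δ s : ℝ} (hy : y ∈ Om n δ s) {φ : ℂ → ℂ}
    (hφ : DifferentiableOn ℂ φ (ln y ⁻¹' Om n δ s)) (h0 : ∀ t : ℝ, φ t = 0) : φ I = 0 := by
  have hO := ln_open y δ s
  have hA : AnalyticOnNhd ℂ φ (ln y ⁻¹' Om n δ s) := hφ.analyticOnNhd hO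
  have ht : Tendsto (fun x : ℝ => (x : ℂ)) (𝓝[≠] 0) (𝓝[≠] 0) := by
    refine tendsto_nhdsWithin_iff.2 ⟨?_, ?_⟩
    · have h1 : Tendsto (fun x : ℝ => (x : ℂ)) (𝓝 0) (𝓝 ((0 : ℝ) : ℂ)) :=
        continuous_ofReal.tendsto 0
      rw [ofReal_zero] at h1
      exact h1.mono_left nhdsWithin_le_nhds
    · refine eventually_mem_nhdsWithin.mono fun x hx => ?_
      have hx' : x ≠ 0 := hx
      exact ofReal_ne_zero.2 hx'
  have hf : ∃ᶠ z in 𝓝[≠] (0 : ℂ), φ z = 0 :=
    ht.frequently (Eventually.of_forall fun t => h0 t).frequently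
  have h1 := hA.eqOn_zero_of_preconnected_of_frequently_eq_zero
    (ln_convex y δ s).isPreconnected (ln_zero_mem hy) hf
  have h2 : I ∈ ln y ⁻¹' Om n δ s := by
    rw [mem_preimage, ln_I]
    exact hy
  exact h1 h2

private theorem line_comp {y : CE n} {δ s : ℝ} {F : CE n → ℂ}
    (hF : DifferentiableOn ℂ F (Om n δ s)) :
    DifferentiableOn ℂ (fun ζ => F (ln y ζ)) (ln y ⁻¹' Om n δ s) :=
  hF.comp (ln_diff y).differentiableOn fun _ h => h

/-- the identity theorem -/
theorem id_thm {δ s : ℝ} {F : CE n → ℂ} (hF : DifferentiableOn ℂ F (Om n δ s))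
    (h0 : ∀ (x : Fin (n + 1) → ℝ) (h : Fin n → ℝ), F (rp x h) = 0) :
    ∀ y ∈ Om n δ s, F y = 0 := by
  intro y hy
  have h1 := line_zero hy (line_comp hF) fun t => by
    rw [ln_real]
    exact h0 _ _
  rwa [ln_I] at h1

/-- reality -/
private theorem real_thm {δ s : ℝ} {F : CE n → ℂ} (hF : DifferentiableOn ℂ F (Om n δ s))
    (h0 : ∀ (x : Fin (n + 1) → ℝ) (h : Fin n → ℝ), conj (F (rp x h)) = F (rp x h)) :
    ∀ y ∈ Om n δ s, F (cj y) = conj (F y) := by
  intro y hy
  have hO := ln_open y δ s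
  have hd := line_comp (y := y) hF
  have hφ : DifferentiableOn ℂ (fun ζ => conj (F (ln y (conj ζ))) - F (ln y ζ))
      (ln y ⁻¹' Om n δ s) := by
    refine DifferentiableOn.sub ?_ hd
    intro ζ hζ
    have h1 : conj ζ ∈ ln y ⁻¹' Om n δ s := by
      rw [mem_preimage, ← cj_ln]
      exact cj_mem hζ
    have h2 : DifferentiableAt ℂ (fun ζ => F (ln y ζ)) (conj ζ) :=
      (hd _ h1).differentiableAt (hO.mem_nhds h1)
    have h3 := h2.conj_conj
    rw [conj_conj] at h3
    exact h3.differentiableWithinAt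
  have h1 := line_zero hy hφ fun t => by
    rw [conj_ofReal, ln_real, h0, sub_self]
  have h2 : F (ln y (conj I)) = F (cj y) := by rw [← cj_ln, ln_I]
  rw [h2, ln_I, sub_eq_zero] at h1
  rw [← h1, conj_conj]

private theorem add_ez_mem {δ s : ℝ} {y : CE n} (i : Fin (n + 1)) :
    y + ez i ∈ Om n δ s ↔ y ∈ Om n δ s := by
  have h1 : ∀ j, ((y + ez i).1 j).im = (y.1 j).im := by
    intro j
    change (y.1 j + (Pi.single i 1 : Fin (n + 1) → ℂ) j).im = _
    rw [add_im]
    by_cases h : j = i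
    · subst h
      rw [Pi.single_eq_same, one_im, add_zero]
    · rw [Pi.single_eq_of_ne h, zero_im, add_zero]
  have h2 : ∀ a, ((y + ez i).2 a).im = (y.2 a).im := by
    intro a
    change (y.2 a + (0 : Fin n → ℂ) a).im = _
    rw [Pi.zero_apply, add_zero]
  unfold Om
  simp only [mem_ofPred_eq, h1, h2]

private theorem rp_add_ez (x : Fin (n + 1) → ℝ) (h : Fin n → ℝ) (i : Fin (n + 1)) :
    rp x h + ez i = rp (x + Pi.single i 1) h := by
  refine Prod.ext (funext fun j => ?_) (funext fun a => ?_)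
  · change (x j : ℂ) + (Pi.single i 1 : Fin (n + 1) → ℂ) j =
      ((x j + (Pi.single i 1 : Fin (n + 1) → ℝ) j : ℝ) : ℂ)
    by_cases h : j = i
    · subst h
      rw [Pi.single_eq_same, Pi.single_eq_same]
      push_cast
      rfl
    · rw [Pi.single_eq_of_ne h, Pi.single_eq_of_ne h, add_zero, add_zero]
  · change (h a : ℂ) + (0 : Fin n → ℂ) a = (h a : ℂ)
    rw [Pi.zero_apply, add_zero]

private theorem rp_eq_cp (x : Fin (n + 1) → ℝ) (h : Fin n → ℝ) :
    rp x h = cp (x 0) (WithLp.toLp 2 fun a => x a.succ) (WithLp.toLp 2 h) := by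
  refine Prod.ext (funext fun j => ?_) rfl
  change (x j : ℂ) = ((rv (x 0) (WithLp.toLp 2 fun a => x a.succ) j : ℝ) : ℂ)
  refine Fin.cases rfl (fun b => rfl) j

theorem exists_P {S : Vec n ≃L[ℝ] Vec n} {σ ε : ℝ} {L : Torus n → Vec n → UnitAddCircle → ℝ}
    (hσ : 0 < σ) (h : NearFlat S σ ε L) : ∃ P : CE n → ℂ, Fn σ σ P ∧ Bd σ σ ε P ∧
      ∀ (x v : Vec n) (t : ℝ), lf L x v t = ‖S v‖ ^ 2 / 2 + (P (cp t x v)).re := by
  classical
  obtain ⟨P, hP, hb, hL⟩ := h
  -- the values at real points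
  have hval : ∀ (x : Fin (n + 1) → ℝ) (h : Fin n → ℝ), P (rp x h) =
      ((L (fun a => ((x a.succ : ℝ) : UnitAddCircle)) (WithLp.toLp 2 h)
        ((x 0 : ℝ) : UnitAddCircle) - ‖S (WithLp.toLp 2 h)‖ ^ 2 / 2 : ℝ) : ℂ) := by
    intro x h
    rw [rp_eq_cp]
    have h1 := hL (WithLp.toLp 2 fun a => x a.succ) (WithLp.toLp 2 h) (x 0)
    have h2 : proj (WithLp.toLp 2 fun a : Fin n => x a.succ) =
        fun a : Fin n => ((x a.succ : ℝ) : UnitAddCircle) := rfl
    rw [h2] at h1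
    rw [ofReal_sub, h1]
    ring
  have hper : ∀ (i : Fin (n + 1)), ∀ y ∈ Om n σ σ, P (y + ez i) = P y := by
    intro i y hy
    have hd : DifferentiableOn ℂ (fun y => P (y + ez i) - P y) (Om n σ σ) := by
      refine DifferentiableOn.sub ?_ hP
      exact hP.comp (differentiable_id.add_const (ez i)).differentiableOn
        fun y hy => (add_ez_mem i).2 hy
    have h1 := id_thm hd (fun x h => ?_) y hy
    · exact sub_eq_zero.1 h1
    · rw [rp_add_ez, hval, hval]
      have h2 : ∀ j, (((x + Pi.single i 1 : Fin (n + 1) → ℝ) j : ℝ) : UnitAddCircle) =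
          ((x j : ℝ) : UnitAddCircle) := by
        intro j
        rw [Pi.add_apply]
        by_cases h : j = i
        · subst h
          rw [Pi.single_eq_same]
          exact AddCircle.coe_add_period 1 (x j)
        · rw [Pi.single_eq_of_ne h, add_zero]
      simp only [h2, sub_self]
  have hreal : ∀ y ∈ Om n σ σ, P (cj y) = conj (P y) := real_thm hP fun x h => by
    rw [hval, conj_ofReal]
  refine ⟨fun y => if y ∈ Om n σ σ then P y else 0, ⟨?_, ?_, ?_⟩, ?_, ?_⟩
  · exact hP.congr fun y hy => if_pos hy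
  · intro i y
    by_cases hy : y ∈ Om n σ σ
    · rw [if_pos hy, if_pos ((add_ez_mem i).2 hy), hper i y hy]
    · rw [if_neg hy, if_neg fun h => hy ((add_ez_mem i).1 h)]
  · intro y
    by_cases hy : y ∈ Om n σ σ
    · rw [if_pos hy, if_pos (cj_mem hy), hreal y hy]
    · rw [if_neg hy, if_neg, map_zero]
      intro h
      have h2 := cj_mem h
      rw [cj_cj] at h2
      exact hy h2
  · intro y hy
    simp only [if_pos hy]
    exact hb y hy
  · intro x v t
    have hm : cp t x v ∈ Om n σ σ := rp_mem hσ hσ _ _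
    simp only [if_pos hm]
    have h1 := congrArg re (hL x v t)
    rw [add_re, ofReal_re, ofReal_re] at h1
    exact h1

theorem AS_symm (S : Vec n ≃L[ℝ] Vec n) (a b : Fin n) : AS S a b = AS S b a := by
  exact real_inner_comm (S (EuclideanSpace.single b 1)) (S (EuclideanSpace.single a 1))

theorem AS_inner (S : Vec n ≃L[ℝ] Vec n) (v w : Vec n) :
    ⟪S v, S w⟫ = ∑ a, ∑ b, AS S a b * v a * w b := by
  have h1 : ∀ v : Vec n, S v = ∑ a, v a • S (EuclideanSpace.single a 1) := by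
    intro v
    have h2 : v = ∑ a, v a • (EuclideanSpace.single a (1 : ℝ) : Vec n) := by
      ext b
      simp [Finset.sum_apply, Pi.single_apply]
    conv_lhs => rw [h2]
    rw [map_sum]
    exact Finset.sum_congr rfl fun a _ => map_smul S _ _
  rw [h1 v, h1 w, sum_inner]
  refine Finset.sum_congr rfl fun a _ => ?_
  rw [inner_sum]
  refine Finset.sum_congr rfl fun b _ => ?_
  rw [real_inner_smul_left, real_inner_smul_right]
  change v a * (w b * AS S a b) = _
  ring

private theorem AS_det (S : Vec n ≃L[ℝ] Vec n) : IsUnit (AS S).det := by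
  rw [isUnit_iff_ne_zero]
  intro h0
  obtain ⟨v, hv, hv'⟩ := Matrix.exists_mulVec_eq_zero_iff.2 h0
  have h1 := AS_inner S (WithLp.toLp 2 v) (WithLp.toLp 2 v)
  have h2 : ∑ a, ∑ b, AS S a b * (WithLp.toLp 2 v : Vec n) a * (WithLp.toLp 2 v : Vec n) b = 0 := by
    refine Finset.sum_eq_zero fun a _ => ?_
    have h3 := congrFun hv' a
    rw [Matrix.mulVec, dotProduct, Pi.zero_apply] at h3
    have h4 : ∀ b, AS S a b * (WithLp.toLp 2 v : Vec n) a * (WithLp.toLp 2 v : Vec n) b =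
        v a * (AS S a b * v b) := fun b => by
      change AS S a b * v a * v b = _
      ring
    rw [Finset.sum_congr rfl fun b _ => h4 b, ← Finset.mul_sum, h3, mul_zero]
  rw [h2, inner_self_eq_zero] at h1
  have h5 : (WithLp.toLp 2 v : Vec n) = 0 := by
    have := congrArg S.symm h1
    rwa [ContinuousLinearEquiv.symm_apply_apply, map_zero] at this
  apply hv
  funext a
  exact congrArg (fun w : Vec n => w a) h5

theorem BS_mul (S : Vec n ≃L[ℝ] Vec n) : BS S * AS S = 1 := by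
  exact Matrix.nonsing_inv_mul _ (AS_det S)

theorem mul_BS (S : Vec n ≃L[ℝ] Vec n) : AS S * BS S = 1 := by
  exact Matrix.mul_nonsing_inv _ (AS_det S)

theorem BS_symm (S : Vec n ≃L[ℝ] Vec n) (a b : Fin n) : BS S a b = BS S b a := by
  have h1 : (AS S).transpose = AS S := by
    ext i j
    exact AS_symm S j i
  have h2 : (BS S).transpose = BS S := by
    unfold BS
    rw [Matrix.transpose_nonsing_inv, h1]
  have h3 := congrFun (congrFun h2 b) a
  exact h3

theorem low_S (S : Vec n ≃L[ℝ] Vec n) : ∃ a : ℝ, 0 < a ∧ a ≤ 1 ∧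
    ∀ v : Vec n, a * ‖v‖ ^ 2 ≤ ‖S v‖ ^ 2 := by
  obtain ⟨c, hc⟩ : ∃ c, c = ‖(S.symm : Vec n →L[ℝ] Vec n)‖ := ⟨_, rfl⟩
  have hc0 : 0 ≤ c := by rw [hc]; exact norm_nonneg _
  have h1 : ∀ v : Vec n, ‖v‖ ≤ c * ‖S v‖ := by
    intro v
    have h2 := (S.symm : Vec n →L[ℝ] Vec n).le_opNorm (S v)
    rw [← hc] at h2
    have h3 : (S.symm : Vec n →L[ℝ] Vec n) (S v) = v := S.symm_apply_apply v
    rwa [h3] at h2
  refine ⟨1 / (c ^ 2 + 1), by positivity, ?_, fun v => ?_⟩
  · rw [div_le_one (by positivity)]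
    nlinarith
  · have h2 : ‖v‖ ^ 2 ≤ (c * ‖S v‖) ^ 2 := pow_le_pow_left₀ (norm_nonneg _) (h1 v) 2
    rw [div_mul_eq_mul_div, one_mul, div_le_iff₀ (by positivity)]
    nlinarith [sq_nonneg ‖S v‖]

theorem exists_M (S : Vec n ≃L[ℝ] Vec n) : ∃ M : ℝ, 1 ≤ M ∧ (∀ i j, |AS S i j| ≤ M) ∧
    ∀ i j, |BS S i j| ≤ M := by
  have hA : ∀ i j, |AS S i j| ≤ ∑ i, ∑ j, |AS S i j| := fun i j =>
    (Finset.single_le_sum (f := fun j => |AS S i j|) (fun _ _ => abs_nonneg _)
      (Finset.mem_univ j)).trans (Finset.single_le_sum (f := fun i => ∑ j, |AS S i j|)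
        (fun _ _ => Finset.sum_nonneg fun _ _ => abs_nonneg _) (Finset.mem_univ i))
  have hB : ∀ i j, |BS S i j| ≤ ∑ i, ∑ j, |BS S i j| := fun i j =>
    (Finset.single_le_sum (f := fun j => |BS S i j|) (fun _ _ => abs_nonneg _)
      (Finset.mem_univ j)).trans (Finset.single_le_sum (f := fun i => ∑ j, |BS S i j|)
        (fun _ _ => Finset.sum_nonneg fun _ _ => abs_nonneg _) (Finset.mem_univ i))
  have hA0 : 0 ≤ ∑ i, ∑ j, |AS S i j| :=
    Finset.sum_nonneg fun _ _ => Finset.sum_nonneg fun _ _ => abs_nonneg _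
  have hB0 : 0 ≤ ∑ i, ∑ j, |BS S i j| :=
    Finset.sum_nonneg fun _ _ => Finset.sum_nonneg fun _ _ => abs_nonneg _
  refine ⟨1 + ∑ i, ∑ j, |AS S i j| + ∑ i, ∑ j, |BS S i j|, by linarith, fun i j => ?_,
    fun i j => ?_⟩
  · have := hA i j
    linarith
  · have := hB i j
    linarith

end Pool.Agent.LRig
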