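import Pool.Agent.LRig.LA
import Pool.Agent.LRig.FB

/-!
# LR (MP_74f563_an, all n), file LB: the complex velocity

PROOF of `exists_V`.  `A = AS S`, `B = BS S`, `|A_ab|, |B_ab| ≤ M`.  Put
`σ' = min σ 1/(8 (n+1) M)`, and let
`ε₀` be small.  `P ∈ Fn σ σ`, `‖P‖ ≤ ε ≤ ε₀`; by Cauchy (`Bd.cdh`) `‖dh a P‖ ≤ 4ε/σ` on
`Om n (3σ/4) (3σ/4)`, and `‖dh b (dh a P)‖ ≤ 16 ε/σ²` on `Om n (5σ/8) (5σ/8)` (up to a constant).
(1) For `y = (z, p) ∈ Om n σ' σ'` consider `T v = B (p - ∂P(z, v))`, `∂P = (dh a P)_a`, on the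
closed set
`D = {v : |Im v_a| ≤ σ/2}`: `|Im (T v)_a| ≤ n M (σ' + 4ε/σ) ≤ σ/4`, and `T` is a contraction in the
sup
norm (constant `n² M C ε/σ² ≤ 1/2`; mean value inequality on the convex set `D`).  So there is a
unique
`v = V y ∈ D` with `A v + ∂P(z, v) = p` (`ContractingWith.exists_fixedPoint'` on the complete set
`D`),
and `|Im V_a| ≤ σ/4`.
(2) `V` is holomorphic on `Om n σ' σ'`: implicit function theorem for
`G (y, v) = A v + ∂P(z, v) - p` at `(y₀, V y₀)` (holomorphic near this point, derivative in `v` is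
`A + O(ε)`, invertible since `B (A + D)` is close to the identity): there is a holomorphic local
solution `v(y)` with `v(y₀) = V y₀`, and `v(y) ∈ D` for `y` near `y₀`, so it is `V y` by uniqueness.
(`HasStrictFDerivAt.implicitFunction`, or apply the inverse function theorem
`HasStrictFDerivAt.to_localInverse` to `(z, v) ↦ (z, A v + ∂P(z, v))`, whose local inverse at
`(z, p)` is `(z, V)`.)  Alternatively: the iterates `T^k 0` are holomorphic functions of `y` and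
converge
uniformly; locally uniform limits of holomorphic functions of several variables are holomorphic
(Cauchy formula in each direction).
-/

set_option autoImplicit false

namespace Pool.Agent.LRig

open Complex Set MeasureTheory Pool.Agent.MechAlpha
open scoped RealInnerProductSpace ComplexConjugate

variable {n : ℕ}

/-- `V y` is the complex velocity with momentum `y.2` at the point `y.1` -/
structure VLeg (S : Vec n ≃L[ℝ] Vec n) (σ σ' : ℝ) (P : CE n → ℂ) (V : CE n → Fin n → ℂ) :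
    Prop where
  hol : ∀ a, DifferentiableOn ℂ (fun y => V y a) (Om n σ' σ')
  im : ∀ y ∈ Om n σ' σ', ∀ a, |(V y a).im| ≤ σ / 4
  eq : ∀ y ∈ Om n σ' σ', ∀ a, ∑ b, (AS S a b : ℂ) * V y b + dh a P (y.1, V y) = y.2 a
  uniq : ∀ y ∈ Om n σ' σ', ∀ v : Fin n → ℂ, (∀ a, |(v a).im| ≤ σ / 2) →
    (∀ a, ∑ b, (AS S a b : ℂ) * v b + dh a P (y.1, v) = y.2 a) → v = V y

private theorem mat_inv {A B : Matrix (Fin n) (Fin n) ℝ} (h : A * B = 1) (g : Fin n → ℂ)
    (a : Fin n) : ∑ b, (A a b : ℂ) * ∑ c, (B b c : ℂ) * g c = g a := by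
  have h1 : ∀ c, ∑ b, (A a b : ℂ) * ((B b c : ℂ) * g c) = (((A * B) a c : ℝ) : ℂ) * g c := by
    intro c
    rw [Matrix.mul_apply, Complex.ofReal_sum, Finset.sum_mul]
    refine Finset.sum_congr rfl fun b _ => ?_
    rw [Complex.ofReal_mul, mul_assoc]
  simp_rw [Finset.mul_sum]
  rw [Finset.sum_comm, Finset.sum_congr rfl fun c _ => h1 c, h, Finset.sum_eq_single a]
  · rw [Matrix.one_apply_eq, Complex.ofReal_one, one_mul]
  · intro c _ hc
    rw [Matrix.one_apply_ne (Ne.symm hc), Complex.ofReal_zero, zero_mul]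
  · intro hc
    exact absurd (Finset.mem_univ a) hc

/-- the map with the fixed point `V y` -/
private noncomputable def Tv (B : Matrix (Fin n) (Fin n) ℝ) (P : CE n → ℂ) (y : CE n)
    (v : Fin n → ℂ) : Fin n → ℂ :=
  fun a => ∑ b, (B a b : ℂ) * (y.2 b - dh b P (y.1, v))

private def Dv (n : ℕ) (σ : ℝ) : Set (Fin n → ℂ) := {v | ∀ a, |(v a).im| ≤ σ / 2}

private theorem Dv_closed (σ : ℝ) : IsClosed (Dv n σ) := by
  have h1 : Dv n σ = ⋂ a : Fin n, {v : Fin n → ℂ | |(v a).im| ≤ σ / 2} := by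
    ext v
    simp [Dv]
  rw [h1]
  exact isClosed_iInter fun a => isClosed_le (by fun_prop) continuous_const

private theorem Dv_convex (σ : ℝ) : Convex ℝ (Dv n σ) := by
  intro x hx y hy a b ha hb hab i
  have h1 := (convex_Icc (-(σ / 2)) (σ / 2)) (abs_le.1 (hx i)) (abs_le.1 (hy i)) ha hb hab
  have e : ((a • x + b • y) i).im = a • (x i).im + b • (y i).im := by simp
  rw [e, abs_le]
  exact h1

section

variable {A B : Matrix (Fin n) (Fin n) ℝ} {σ σ' M c₁ c₂ : ℝ} {P : CE n → ℂ}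

/-- the collected bounds -/
private structure Dat (A B : Matrix (Fin n) (Fin n) ℝ) (σ σ' M c₁ c₂ : ℝ) (P : CE n → ℂ) :
    Prop where
  AB : A * B = 1
  BA : B * A = 1
  B_le : ∀ i j, |B i j| ≤ M
  M_pos : 0 ≤ M
  σ_pos : 0 < σ
  σ'_le : σ' ≤ σ
  c₁_nn : 0 ≤ c₁
  c₂_nn : 0 ≤ c₂
  P_fn : Fn σ σ P
  b1 : ∀ a, Bd σ (3 * σ / 4) c₁ (dh a P)
  b2 : ∀ a b, Bd σ (5 * σ / 8) c₂ (dh b (dh a P))
  n1 : n * (M * (σ' + c₁)) ≤ σ / 4
  n2 : n * (M * (n * c₂)) ≤ 1 / 2

private theorem mem_pt (hσ : 0 < σ) (h' : σ' ≤ σ) {y : CE n} (hy : y ∈ Om n σ' σ')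
    {v : Fin n → ℂ} (hv : v ∈ Dv n σ) : ((y.1, v) : CE n) ∈ Om n σ (5 * σ / 8) :=
  ⟨fun i => (hy.1 i).trans_le h', fun a => lt_of_le_of_lt (hv a) (by linarith)⟩

private theorem dir_bd (d : Dat A B σ σ' M c₁ c₂ P) (a : Fin n) {x : CE n}
    (hx : x ∈ Om n σ (5 * σ / 8)) (w : Fin n → ℂ) :
    ‖fderiv ℂ (dh a P) x (0, w)‖ ≤ n * c₂ * ‖w‖ := by
  rw [fderiv_coord]
  have h1 : ∑ i : Fin (n + 1), (((0, w) : CE n).1 i) * dz i (dh a P) x = 0 :=
    Finset.sum_eq_zero fun i _ => zero_mul _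
  rw [h1, zero_add]
  calc ‖∑ b : Fin n, (((0, w) : CE n).2 b) * dh b (dh a P) x‖ ≤ ∑ _b : Fin n, ‖w‖ * c₂ := by
        refine norm_sum_le_of_le _ fun b _ => ?_
        rw [norm_mul]
        exact mul_le_mul (norm_le_pi_norm w b) (d.b2 a b x hx) (norm_nonneg _) (norm_nonneg _)
    _ = n * c₂ * ‖w‖ := by
        rw [Finset.sum_const, Finset.card_univ, Fintype.card_fin, nsmul_eq_mul]
        ring

private theorem dh_lip (d : Dat A B σ σ' M c₁ c₂ P) (a : Fin n) {y : CE n}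
    (hy : y ∈ Om n σ' σ') {v w : Fin n → ℂ} (hv : v ∈ Dv n σ) (hw : w ∈ Dv n σ) :
    ‖dh a P (y.1, v) - dh a P (y.1, w)‖ ≤ n * c₂ * ‖v - w‖ := by
  have hc₂ := d.c₂_nn
  refine Convex.norm_image_sub_le_of_norm_hasFDerivWithin_le (𝕜 := ℂ)
    (f := fun v : Fin n → ℂ => dh a P (y.1, v)) (s := Dv n σ)
    (f' := fun v => (fderiv ℂ (dh a P) (y.1, v)).comp
      (ContinuousLinearMap.inr ℂ (Fin (n + 1) → ℂ) (Fin n → ℂ)))
    (fun x hx => ?_) (fun x hx => ?_) (Dv_convex σ) hw hv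
  · have h1 : HasFDerivAt (fun v : Fin n → ℂ => ((y.1, v) : CE n))
        (ContinuousLinearMap.inr ℂ (Fin (n + 1) → ℂ) (Fin n → ℂ)) x :=
      hasFDerivAt_prodMk_right y.1 x
    have h2 : HasFDerivAt (dh a P) (fderiv ℂ (dh a P) (y.1, x)) (y.1, x) :=
      ((d.P_fn.dh a).dat (Om_mono le_rfl (by linarith [d.σ_pos])
        (mem_pt d.σ_pos d.σ'_le hy hx))).hasFDerivAt
    exact (h2.comp x h1).hasFDerivWithinAt
  · refine ContinuousLinearMap.opNorm_le_bound _ (by positivity) fun u => ?_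
    exact dir_bd d a (mem_pt d.σ_pos d.σ'_le hy hx) u

private theorem B_sum (d : Dat A B σ σ' M c₁ c₂ P) {g : Fin n → ℂ} {e : ℝ}
    (hg : ∀ b, ‖g b‖ ≤ e) (a : Fin n) : ‖∑ b, (B a b : ℂ) * g b‖ ≤ n * (M * e) := by
  calc ‖∑ b, (B a b : ℂ) * g b‖ ≤ ∑ _b : Fin n, M * e := by
        refine norm_sum_le_of_le _ fun b _ => ?_
        rw [norm_mul, norm_real, Real.norm_eq_abs]
        exact mul_le_mul (d.B_le a b) (hg b) (norm_nonneg _) d.M_pos
    _ = n * (M * e) := by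
        rw [Finset.sum_const, Finset.card_univ, Fintype.card_fin, nsmul_eq_mul]

private theorem T_im (d : Dat A B σ σ' M c₁ c₂ P) {y : CE n} (hy : y ∈ Om n σ' σ')
    {v : Fin n → ℂ} (hv : v ∈ Dv n σ) (a : Fin n) : |(Tv B P y v a).im| ≤ σ / 4 := by
  refine le_trans ?_ d.n1
  unfold Tv
  rw [im_sum]
  calc |∑ b, ((B a b : ℂ) * (y.2 b - dh b P (y.1, v))).im| ≤ ∑ _b : Fin n, M * (σ' + c₁) := by
        refine (Finset.abs_sum_le_sum_abs _ _).trans (Finset.sum_le_sum fun b _ => ?_)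
        rw [im_ofReal_mul, abs_mul]
        refine mul_le_mul (d.B_le a b) ?_ (abs_nonneg _) d.M_pos
        rw [sub_im]
        refine (abs_sub _ _).trans (add_le_add (hy.2 b).le ?_)
        exact (abs_im_le_norm _).trans (d.b1 b _ (Om_mono le_rfl (by linarith [d.σ_pos])
          (mem_pt d.σ_pos d.σ'_le hy hv)))
    _ = n * (M * (σ' + c₁)) := by
        rw [Finset.sum_const, Finset.card_univ, Fintype.card_fin, nsmul_eq_mul]

private theorem T_lip (d : Dat A B σ σ' M c₁ c₂ P) {y : CE n} (hy : y ∈ Om n σ' σ')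
    {v w : Fin n → ℂ} (hv : v ∈ Dv n σ) (hw : w ∈ Dv n σ) :
    ‖Tv B P y v - Tv B P y w‖ ≤ 1 / 2 * ‖v - w‖ := by
  refine (pi_norm_le_iff_of_nonneg (by positivity)).2 fun a => ?_
  have h1 : (Tv B P y v - Tv B P y w) a =
      ∑ b, (B a b : ℂ) * (dh b P (y.1, w) - dh b P (y.1, v)) := by
    rw [Pi.sub_apply]
    unfold Tv
    rw [← Finset.sum_sub_distrib]
    refine Finset.sum_congr rfl fun b _ => ?_
    ring
  rw [h1]
  refine (B_sum d (e := n * c₂ * ‖v - w‖) (fun b => ?_) a).trans ?_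
  · rw [norm_sub_rev]
    exact dh_lip d b hy hv hw
  · have h2 : (n : ℝ) * (M * (n * c₂ * ‖v - w‖)) = n * (M * (n * c₂)) * ‖v - w‖ := by ring
    rw [h2]
    exact mul_le_mul_of_nonneg_right d.n2 (norm_nonneg _)

private theorem T_maps (d : Dat A B σ σ' M c₁ c₂ P) {y : CE n} (hy : y ∈ Om n σ' σ') :
    MapsTo (Tv B P y) (Dv n σ) (Dv n σ) := by
  intro v hv a
  have h1 := T_im d hy hv a
  have h2 := d.σ_pos
  linarith

private theorem exists_fix (d : Dat A B σ σ' M c₁ c₂ P) {y : CE n} (hy : y ∈ Om n σ' σ') :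
    ∃ v, v ∈ Dv n σ ∧ Tv B P y v = v := by
  have hm := T_maps d hy
  have hc : ContractingWith (1 / 2) (hm.restrict (Tv B P y) (Dv n σ) (Dv n σ)) := by
    refine ⟨by norm_num, LipschitzWith.of_dist_le_mul fun v w => ?_⟩
    have h1 := T_lip d hy v.2 w.2
    rw [Subtype.dist_eq, Subtype.dist_eq, dist_eq_norm, dist_eq_norm]
    exact h1
  have h0 : (0 : Fin n → ℂ) ∈ Dv n σ := fun a => by
    have h2 := d.σ_pos
    rw [Pi.zero_apply, zero_im, abs_zero]
    linarith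
  obtain ⟨v, hv, hfix, -⟩ := ContractingWith.exists_fixedPoint' (Dv_closed σ).isComplete hm hc
    h0 (edist_ne_top _ _)
  exact ⟨v, hv, hfix⟩

private theorem fix_uniq (d : Dat A B σ σ' M c₁ c₂ P) {y : CE n} (hy : y ∈ Om n σ' σ')
    {v w : Fin n → ℂ} (hv : v ∈ Dv n σ) (hw : w ∈ Dv n σ) (h1 : Tv B P y v = v)
    (h2 : Tv B P y w = w) : v = w := by
  have h3 := T_lip d hy hv hw
  rw [h1, h2] at h3
  have h4 : ‖v - w‖ ≤ 0 := by linarith
  exact sub_eq_zero.1 (norm_le_zero_iff.1 h4)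

private theorem fix_iff (d : Dat A B σ σ' M c₁ c₂ P) (y : CE n) (v : Fin n → ℂ) :
    Tv B P y v = v ↔ ∀ a, ∑ b, (A a b : ℂ) * v b + dh a P (y.1, v) = y.2 a := by
  constructor
  · intro h a
    have h1 : ∑ b, (A a b : ℂ) * v b = y.2 a - dh a P (y.1, v) := by
      have h2 := mat_inv d.AB (fun b => y.2 b - dh b P (y.1, v)) a
      rw [← h2]
      refine Finset.sum_congr rfl fun b _ => ?_
      have h3 := congrFun h b
      unfold Tv at h3
      rw [h3]
    rw [h1, sub_add_cancel]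
  · intro h
    funext a
    have h2 := mat_inv d.BA v a
    rw [← h2]
    unfold Tv
    refine Finset.sum_congr rfl fun b _ => ?_
    rw [← h b]
    ring

private theorem V_cont (d : Dat A B σ σ' M c₁ c₂ P) {V : CE n → Fin n → ℂ}
    (hV : ∀ y ∈ Om n σ' σ', V y ∈ Dv n σ ∧ Tv B P y (V y) = V y) {y₀ : CE n}
    (h0 : y₀ ∈ Om n σ' σ') : ContinuousAt V y₀ := by
  have hev : ∀ᶠ y in nhds y₀, y ∈ Om n σ' σ' := (isOpen_Om σ' σ').mem_nhds h0
  have hT : ContinuousAt (fun y => Tv B P y (V y₀)) y₀ := by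
    refine continuousAt_pi.2 fun a => ?_
    unfold Tv
    refine tendsto_finsetSum _ fun b _ => ?_
    have h1 : ContinuousAt (dh b P) (y₀.1, V y₀) :=
      ((d.P_fn.dh b).dat (Om_mono le_rfl (by linarith [d.σ_pos])
        (mem_pt d.σ_pos d.σ'_le h0 (hV y₀ h0).1))).continuousAt
    have h2 : ContinuousAt (fun y : CE n => ((y.1, V y₀) : CE n)) y₀ := by fun_prop
    have h3 : ContinuousAt (fun y : CE n => dh b P (y.1, V y₀)) y₀ :=
      ContinuousAt.comp (g := dh b P) (f := fun y : CE n => ((y.1, V y₀) : CE n)) h1 h2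
    have h4 : ContinuousAt (fun y : CE n => y.2 b) y₀ := by fun_prop
    exact (continuousAt_const.mul (h4.sub h3))
  rw [ContinuousAt, tendsto_iff_norm_sub_tendsto_zero] at hT ⊢
  have hT2 := hT.const_mul 2
  rw [mul_zero] at hT2
  refine squeeze_zero' (Filter.Eventually.of_forall fun y => norm_nonneg _) ?_ hT2
  filter_upwards [hev] with y hy
  have h1 := (hV y hy).2
  have h2 := (hV y₀ h0).2
  have h3 := T_lip d hy (hV y hy).1 (hV y₀ h0).1
  have h4 : ‖V y - V y₀‖ ≤ ‖Tv B P y (V y) - Tv B P y (V y₀)‖ +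
      ‖Tv B P y (V y₀) - Tv B P y₀ (V y₀)‖ := by
    have h5 := norm_add_le (Tv B P y (V y) - Tv B P y (V y₀))
      (Tv B P y (V y₀) - Tv B P y₀ (V y₀))
    rw [sub_add_sub_cancel, h1, h2] at h5
    rw [h1, h2]
    exact h5
  linarith

private theorem V_diff (d : Dat A B σ σ' M c₁ c₂ P) {V : CE n → Fin n → ℂ}
    (hV : ∀ y ∈ Om n σ' σ', V y ∈ Dv n σ ∧ Tv B P y (V y) = V y) {y₀ : CE n}
    (h0 : y₀ ∈ Om n σ' σ') : DifferentiableAt ℂ V y₀ := by
  have hev : ∀ᶠ y in nhds y₀, y ∈ Om n σ' σ' := (isOpen_Om σ' σ').mem_nhds h0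
  obtain ⟨x₀, hx₀⟩ : ∃ x₀ : CE n, x₀ = (y₀.1, V y₀) := ⟨_, rfl⟩
  have hx : x₀ ∈ Om n σ (5 * σ / 8) := by
    rw [hx₀]
    exact mem_pt d.σ_pos d.σ'_le h0 (hV y₀ h0).1
  let f : CE n → CE n := fun x => (x.1, fun a => ∑ b, (A a b : ℂ) * x.2 b + dh a P x)
  let g : CE n → CE n := fun y => (y.1, V y)
  let Lin : Fin n → CE n →L[ℂ] ℂ := fun a => ∑ b, (A a b : ℂ) •
    ((ContinuousLinearMap.proj b : (Fin n → ℂ) →L[ℂ] ℂ).comp
      (ContinuousLinearMap.snd ℂ (Fin (n + 1) → ℂ) (Fin n → ℂ)))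
  have hLin : ∀ a (x : CE n), Lin a x = ∑ b, (A a b : ℂ) * x.2 b := by
    intro a x
    simp [Lin]
  let Ld : Fin n → CE n →L[ℂ] ℂ := fun a => Lin a + fderiv ℂ (dh a P) x₀
  have hLd : ∀ a, HasFDerivAt (fun x : CE n => ∑ b, (A a b : ℂ) * x.2 b + dh a P x)
      (Ld a) x₀ := by
    intro a
    have h1 : HasFDerivAt (fun x : CE n => ∑ b, (A a b : ℂ) * x.2 b) (Lin a) x₀ := by
      have h2 := (Lin a).hasFDerivAt (x := x₀)
      have h3 : (fun x : CE n => ∑ b, (A a b : ℂ) * x.2 b) = fun x => Lin a x :=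
        funext fun x => (hLin a x).symm
      rw [h3]
      exact h2
    have h4 : HasFDerivAt (dh a P) (fderiv ℂ (dh a P) x₀) x₀ :=
      ((d.P_fn.dh a).dat (Om_mono le_rfl (by linarith [d.σ_pos]) hx)).hasFDerivAt
    exact h1.add h4
  let f' : CE n →L[ℂ] CE n :=
    (ContinuousLinearMap.fst ℂ (Fin (n + 1) → ℂ) (Fin n → ℂ)).prod (ContinuousLinearMap.pi Ld)
  have hf : HasFDerivAt f f' x₀ :=
    (hasFDerivAt_fst (p := x₀)).prodMk (hasFDerivAt_pi.2 hLd)
  have hinj : Function.Injective (f' : CE n →ₗ[ℂ] CE n) := by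
    rw [← LinearMap.ker_eq_bot, LinearMap.ker_eq_bot']
    intro w hw
    have hw1 : w.1 = 0 := congrArg Prod.fst hw
    have hw2 : ∀ a, ∑ b, (A a b : ℂ) * w.2 b + fderiv ℂ (dh a P) x₀ w = 0 := by
      intro a
      have h1 : (∑ b, (A a b : ℂ) * w.2 b + fderiv ℂ (dh a P) x₀ w) = Ld a w := by
        rw [← hLin a w]
        rfl
      rw [h1]
      exact congrFun (congrArg Prod.snd hw) a
    have hw3 : w = (0, w.2) := Prod.ext hw1 rfl
    have hw4 : ∀ a, ∑ b, (A a b : ℂ) * w.2 b = -fderiv ℂ (dh a P) x₀ (0, w.2) := by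
      intro a
      have h1 := hw2 a
      rw [hw3] at h1
      exact eq_neg_of_add_eq_zero_left h1
    have hw5 : ‖w.2‖ ≤ 1 / 2 * ‖w.2‖ := by
      refine (pi_norm_le_iff_of_nonneg (by positivity)).2 fun a => ?_
      have h1 := mat_inv d.BA w.2 a
      rw [← h1]
      refine (B_sum d (e := n * c₂ * ‖w.2‖) (fun b => ?_) a).trans ?_
      · rw [hw4 b, norm_neg]
        exact dir_bd d b hx w.2
      · have h2 : (n : ℝ) * (M * (n * c₂ * ‖w.2‖)) = n * (M * (n * c₂)) * ‖w.2‖ := by ring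
        rw [h2]
        exact mul_le_mul_of_nonneg_right d.n2 (norm_nonneg _)
    have hw6 : ‖w.2‖ ≤ 0 := by linarith
    exact Prod.ext hw1 (norm_le_zero_iff.1 hw6)
  let e : CE n ≃L[ℂ] CE n :=
    (LinearEquiv.ofInjectiveEndo (f' : CE n →ₗ[ℂ] CE n) hinj).toContinuousLinearEquiv
  have he : (e : CE n →L[ℂ] CE n) = f' := by
    refine ContinuousLinearMap.ext fun w => ?_
    rfl
  have hg : ContinuousAt g y₀ := continuousAt_fst.prodMk (V_cont d hV h0)
  have hfe : HasFDerivAt f (e : CE n →L[ℂ] CE n) (g y₀) := by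
    rw [he]
    have h1 : g y₀ = x₀ := hx₀.symm
    rw [h1]
    exact hf
  have hfg : ∀ᶠ y in nhds y₀, f (g y) = y := by
    filter_upwards [hev] with y hy
    refine Prod.ext rfl (funext fun a => ?_)
    exact (fix_iff d y (V y)).1 (hV y hy).2 a
  have hgd := (HasFDerivAt.of_local_left_inverse hg hfe hfg).differentiableAt
  exact hgd.snd

end

theorem exists_V (S : Vec n ≃L[ℝ] Vec n) {σ M : ℝ} (hσ : 0 < σ) (hM : 1 ≤ M)
    (hA : ∀ i j, |AS S i j| ≤ M) (hB : ∀ i j, |BS S i j| ≤ M) :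
    ∃ ε₀ : ℝ, 0 < ε₀ ∧ ∀ {ε : ℝ} {P : CE n → ℂ}, 0 ≤ ε → ε ≤ ε₀ → Fn σ σ P →
      Bd σ σ ε P → ∃ V : CE n → Fin n → ℂ,
        VLeg S σ (min σ 1 / (8 * (n + 1) * M)) P V := by
  have _ := hA
  have hn : (0 : ℝ) ≤ n := Nat.cast_nonneg n
  have hM0 : 0 < M := by linarith
  refine ⟨σ ^ 2 / (64 * (n + 1) ^ 2 * M), by positivity, ?_⟩
  intro ε P hε hε₀ hP hPb
  obtain ⟨σ', hσ'⟩ : ∃ σ', σ' = min σ 1 / (8 * ((n : ℝ) + 1) * M) := ⟨_, rfl⟩
  rw [← hσ']
  have hden : 0 < 8 * ((n : ℝ) + 1) * M := by positivity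
  have hσ'1 : σ' * (8 * ((n : ℝ) + 1) * M) ≤ σ := by
    rw [hσ', div_mul_cancel₀ _ hden.ne']
    exact min_le_left _ _
  have hσ'0 : 0 < σ' := by
    rw [hσ']
    exact div_pos (lt_min hσ one_pos) hden
  have hnM : (1 : ℝ) ≤ (n + 1) * M := one_le_mul_of_one_le_of_one_le (by linarith) hM
  have hεe : ε * (64 * ((n : ℝ) + 1) ^ 2 * M) ≤ σ ^ 2 := by
    rw [← le_div_iff₀ (by positivity)]
    exact hε₀
  have d : Dat (AS S) (BS S) σ σ' M (ε / (σ - 3 * σ / 4))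
      (ε / (σ - 3 * σ / 4) / (3 * σ / 4 - 5 * σ / 8)) P := by
    have e1 : σ - 3 * σ / 4 = σ / 4 := by ring
    have e2 : 3 * σ / 4 - 5 * σ / 8 = σ / 8 := by ring
    have hb1 : ∀ a, Bd σ (3 * σ / 4) (ε / (σ - 3 * σ / 4)) (dh a P) := fun a =>
      hPb.cdh hP (by linarith) a
    refine ⟨mul_BS S, BS_mul S, hB, hM0.le, hσ, ?_, ?_, ?_, hP, hb1, ?_, ?_, ?_⟩
    · nlinarith
    · rw [e1]
      positivity
    · rw [e1, e2]
      positivity
    · exact fun a b => (hb1 a).cdh ((hP.dh a).mono le_rfl (by linarith)) (by linarith) b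
    · rw [e1]
      have h1 : (n : ℝ) * (M * σ') ≤ σ / 8 := by
        have h2 : (n : ℝ) * (M * σ') ≤ (n + 1) * (M * σ') :=
          mul_le_mul_of_nonneg_right (by linarith) (by positivity)
        nlinarith
      have h2 : (n : ℝ) * (M * (ε / (σ / 4))) ≤ σ / 8 := by
        have h3 : (n : ℝ) * (M * (ε / (σ / 4))) = (4 * n * M * ε) / σ := by
          field_simp
        rw [h3, div_le_iff₀ hσ]
        have h4 : (n : ℝ) * (M * ε) ≤ (n + 1) ^ 2 * (M * ε) :=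
          mul_le_mul_of_nonneg_right (by nlinarith) (by positivity)
        nlinarith
      have h3 : (n : ℝ) * (M * (σ' + ε / (σ / 4))) =
          (n : ℝ) * (M * σ') + (n : ℝ) * (M * (ε / (σ / 4))) := by ring
      rw [h3]
      linarith
    · rw [e1, e2]
      have h3 : (n : ℝ) * (M * (n * (ε / (σ / 4) / (σ / 8)))) =
          (32 * n ^ 2 * M * ε) / σ ^ 2 := by
        field_simp
        ring
      rw [h3, div_le_iff₀ (by positivity)]
      have h4 : (n : ℝ) ^ 2 * (M * ε) ≤ (n + 1) ^ 2 * (M * ε) :=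
        mul_le_mul_of_nonneg_right (by nlinarith) (by positivity)
      nlinarith
  have hex : ∀ y : CE n, ∃ v, y ∈ Om n σ' σ' → v ∈ Dv n σ ∧ Tv (BS S) P y v = v := by
    intro y
    by_cases hy : y ∈ Om n σ' σ'
    · obtain ⟨v, hv⟩ := exists_fix d hy
      exact ⟨v, fun _ => hv⟩
    · exact ⟨0, fun h => absurd h hy⟩
  choose V hV using hex
  refine ⟨V, fun a y hy => ?_, fun y hy a => ?_, fun y hy => ?_, fun y hy v hv he => ?_⟩
  · have h1 := V_diff d (V := V) (fun y hy => hV y hy) hy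
    exact (differentiableAt_pi.1 h1 a).differentiableWithinAt
  · have h1 := T_im d hy (hV y hy).1 a
    rw [(hV y hy).2] at h1
    exact h1
  · exact (fix_iff d y (V y)).1 (hV y hy).2
  · exact fix_uniq d hy hv (hV y hy).1 ((fix_iff d y v).2 he) (hV y hy).2

end Pool.Agent.LRig
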