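import Pool.Agent.LRig.FR
import Pool.Agent.LRig.RDefs

/-!
# LR (MP_74f563_an, all n), file RB: real restrictions

PROOFS.  The map `(t, θ) ↦ cp t θ h` is affine (real-linear part `(t, θ) ↦ ((t, θ), 0)` with values
in
`CE n`), `F` is holomorphic on `Om n δ s`, which contains all real points, so it is smooth over `ℝ`
there (`smooth_of_hol`, `ContDiffOn.restrict_scalars`), and `rr F h` is smooth; its derivative at
`(t, θ)` in the direction `(τ, v)` is `Re (fderiv ℂ F (cp t θ h) ((τ, v), 0))`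
`= Re (τ dz 0 F + ∑ v a dz a.succ F)` (`HasFDerivAt.restrictScalars`, chain rule, `Complex.reCLM`).
`rr_flow`: the direction `(1, h)` is `(hh h, 0)`.  `rr_im`: at real points `F` is real
(`Fn.im_rp`).  `rr_per`, `rr_pert`: `Fn.per_int` or `per`.
`lev_kz`: `kz k (t, θ) = k 0 t + ∑ k_{a+1} θ_a = lev (ja k) (k 0) θ t`.
`dv_cp`: `dv k (cp t θ h) = k 0 + ∑ k_{a+1} h_a = k 0 + ⟪zv (ja k), h⟫`.
-/

set_option autoImplicit false

namespace Pool.Agent.LRig

open Complex Set MeasureTheory Pool.Agent.MechAlpha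
open scoped RealInnerProductSpace ContDiff

variable {n : ℕ} {δ s : ℝ} {F : CE n → ℂ}

theorem cp_mem (hδ : 0 < δ) (hs : 0 < s) (t : ℝ) (θ h : Vec n) : cp t θ h ∈ Om n δ s :=
  rp_mem hδ hs _ _

private noncomputable def linL (n : ℕ) : (ℝ × Vec n) →ₗ[ℝ] CE n where
  toFun x := (fun i => (rv x.1 x.2 i : ℂ), 0)
  map_add' x y := by
    refine Prod.ext (funext fun i => ?_) (funext fun a => ?_)
    · change ((rv (x.1 + y.1) (x.2 + y.2) i : ℝ) : ℂ) = (rv x.1 x.2 i : ℂ) + (rv y.1 y.2 i : ℂ)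
      refine Fin.cases ?_ (fun a => ?_) i
      · simp [rv]
      · simp [rv]
    · change (0 : ℂ) = 0 + 0
      rw [add_zero]
  map_smul' r x := by
    refine Prod.ext (funext fun i => ?_) (funext fun a => ?_)
    · change ((rv (r * x.1) (r • x.2) i : ℝ) : ℂ) = r • (rv x.1 x.2 i : ℂ)
      refine Fin.cases ?_ (fun a => ?_) i
      · simp [rv]
      · simp [rv]
    · change (0 : ℂ) = r • (0 : ℂ)
      rw [smul_zero]

private noncomputable def lin (n : ℕ) : (ℝ × Vec n) →L[ℝ] CE n :=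
  LinearMap.toContinuousLinearMap (linL n)

private theorem lin_apply (x : ℝ × Vec n) : lin n x = (fun i => (rv x.1 x.2 i : ℂ), 0) := rfl

private theorem cp_eq (h : Vec n) (x : ℝ × Vec n) :
    cp x.1 x.2 h = lin n x + (0, fun a => (h a : ℂ)) := by
  rw [lin_apply]
  refine Prod.ext (funext fun i => ?_) (funext fun a => ?_)
  · change (rv x.1 x.2 i : ℂ) = (rv x.1 x.2 i : ℂ) + 0
    rw [add_zero]
  · change (h a : ℂ) = 0 + (h a : ℂ)
    rw [zero_add]

private theorem lin_sum (τ : ℝ) (v : Vec n) :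
    lin n (τ, v) = (τ : ℂ) • ez 0 + ∑ a, (v a : ℂ) • ez a.succ := by
  rw [lin_apply]
  refine Prod.ext ?_ ?_
  · rw [Prod.fst_add, Prod.fst_sum]
    funext i
    rw [Pi.add_apply, Finset.sum_apply]
    refine Fin.cases ?_ (fun b => ?_) i
    · simp [ez, rv]
    · simp [ez, rv, Pi.single_apply, Fin.succ_ne_zero]
  · rw [Prod.snd_add, Prod.snd_sum]
    simp [ez]

private theorem rr_has (hF : Fn δ s F) (hδ : 0 < δ) (hs : 0 < s) (h : Vec n) (x : ℝ × Vec n) :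
    HasFDerivAt (rr F h) ((reCLM : ℂ →L[ℝ] ℝ).comp
      (((fderiv ℂ F (cp x.1 x.2 h)).restrictScalars ℝ).comp (lin n))) x := by
  have h1 : HasFDerivAt (fun x : ℝ × Vec n => cp x.1 x.2 h) (lin n) x := by
    have e : (fun x : ℝ × Vec n => cp x.1 x.2 h) =
        fun x => lin n x + ((0, fun a => (h a : ℂ)) : CE n) := funext (cp_eq h)
    rw [e]
    exact (lin n).hasFDerivAt.add_const _
  have h2 : HasFDerivAt F ((fderiv ℂ F (cp x.1 x.2 h)).restrictScalars ℝ) (cp x.1 x.2 h) :=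
    (hF.dat (cp_mem hδ hs x.1 x.2 h)).hasFDerivAt.restrictScalars ℝ
  exact (reCLM.hasFDerivAt).comp x (h2.comp x h1)

theorem rr_smooth (hF : Fn δ s F) (hδ : 0 < δ) (hs : 0 < s) (h : Vec n) :
    ContDiff ℝ ∞ (rr F h) := by
  have h1 : ContDiffOn ℝ ∞ F (Om n δ s) :=
    (smooth_of_hol (isOpen_Om δ s) hF.hol).restrict_scalars ℝ
  have h2 : ContDiff ℝ ∞ fun x : ℝ × Vec n => cp x.1 x.2 h := by
    have e : (fun x : ℝ × Vec n => cp x.1 x.2 h) =
        fun x => lin n x + ((0, fun a => (h a : ℂ)) : CE n) := funext (cp_eq h)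
    rw [e]
    exact (lin n).contDiff.add contDiff_const
  exact reCLM.contDiff.comp (h1.comp_contDiff h2 fun x => cp_mem hδ hs x.1 x.2 h)

theorem rr_fderiv (hF : Fn δ s F) (hδ : 0 < δ) (hs : 0 < s) (h : Vec n) (t : ℝ)
    (θ : Vec n) (τ : ℝ) (v : Vec n) :
    fderiv ℝ (rr F h) (t, θ) (τ, v) =
      τ * (dz 0 F (cp t θ h)).re + ∑ a, v a * (dz a.succ F (cp t θ h)).re := by
  rw [(rr_has hF hδ hs h (t, θ)).fderiv]
  change (fderiv ℂ F (cp t θ h) (lin n (τ, v))).re = _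
  rw [lin_sum, map_add, map_sum, add_re, re_sum, map_smul, smul_eq_mul, re_ofReal_mul]
  congr 1
  refine Finset.sum_congr rfl fun a _ => ?_
  rw [map_smul, smul_eq_mul, re_ofReal_mul]
  rfl

theorem rr_flow (hF : Fn δ s F) (hδ : 0 < δ) (hs : 0 < s) (h : Vec n) (t : ℝ)
    (θ : Vec n) : fderiv ℝ (rr F h) (t, θ) (1, h) = (DD F (cp t θ h)).re := by
  rw [(rr_has hF hδ hs h (t, θ)).fderiv]
  change (fderiv ℂ F (cp t θ h) (lin n (1, h))).re =
    (fderiv ℂ F (cp t θ h) (hh (cp t θ h).2, 0)).re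
  have e : lin n (1, h) = (hh (cp t θ h).2, 0) := by
    rw [lin_apply]
    refine Prod.ext (funext fun i => ?_) rfl
    refine Fin.cases ?_ (fun a => ?_) i
    · simp [rv, hh]
    · simp [rv, hh, cp, rp]
  rw [e]

theorem rr_im (hF : Fn δ s F) (t : ℝ) (θ h : Vec n) :
    F (cp t θ h) = ((rr F h (t, θ) : ℝ) : ℂ) := by
  refine Complex.ext ?_ ?_
  · rw [ofReal_re]
    rfl
  · rw [ofReal_im]
    exact hF.im_rp _ _

theorem rr_per (hF : Fn δ s F) (h : Vec n) (t : ℝ) (θ : Vec n) (l : Fin n → ℤ) :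
    rr F h (t, θ + zv l) = rr F h (t, θ) := by
  have e : cp t (θ + zv l) h =
      cp t θ h + ((fun i => (((Fin.cons 0 l : Fin (n + 1) → ℤ) i : ℤ) : ℂ)), 0) := by
    refine Prod.ext (funext fun i => ?_) (funext fun a => ?_)
    · change ((rv t (θ + zv l) i : ℝ) : ℂ) =
        (rv t θ i : ℂ) + (((Fin.cons 0 l : Fin (n + 1) → ℤ) i : ℤ) : ℂ)
      refine Fin.cases ?_ (fun a => ?_) i
      · simp [rv]
      · simp [rv, zv]
    · change (h a : ℂ) = (h a : ℂ) + 0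
      rw [add_zero]
  change (F (cp t (θ + zv l) h)).re = (F (cp t θ h)).re
  rw [e, hF.per_int]

theorem rr_pert (hF : Fn δ s F) (h : Vec n) (t : ℝ) (θ : Vec n) :
    rr F h (t + 1, θ) = rr F h (t, θ) := by
  have e : cp (t + 1) θ h = cp t θ h + ez 0 := by
    refine Prod.ext (funext fun i => ?_) (funext fun a => ?_)
    · change ((rv (t + 1) θ i : ℝ) : ℂ) = (rv t θ i : ℂ) + (ez 0 : CE n).1 i
      refine Fin.cases ?_ (fun a => ?_) i
      · simp [rv, ez]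
      · simp [rv, ez]
    · change (h a : ℂ) = (h a : ℂ) + 0
      rw [add_zero]
  change (F (cp (t + 1) θ h)).re = (F (cp t θ h)).re
  rw [e, hF.per]

private theorem inner_zv (l : Fin n → ℤ) (x : Vec n) : ⟪zv l, x⟫ = ∑ a, (l a : ℝ) * x a := by
  rw [PiLp.inner_apply]
  refine Finset.sum_congr rfl fun a _ => ?_
  simp [zv, mul_comm]

theorem lev_kz (k : Fin (n + 1) → ℤ) (t : ℝ) (θ h : Vec n) :
    kz k (cp t θ h).1 = ((lev (ja k) (k 0) θ t : ℝ) : ℂ) := by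
  change ∑ i, (k i : ℂ) * (rv t θ i : ℂ) = _
  rw [Fin.sum_univ_succ]
  unfold lev
  rw [inner_zv]
  simp [rv, ja, add_comm]

theorem dv_cp (k : Fin (n + 1) → ℤ) (t : ℝ) (θ h : Vec n) :
    dv k (cp t θ h) = (((⟪zv (ja k), h⟫ : ℝ) + k 0 : ℝ) : ℂ) := by
  change ∑ i, (k i : ℂ) * hh (cp t θ h).2 i = _
  rw [Fin.sum_univ_succ, inner_zv]
  simp [hh, ja, cp, rp, add_comm]

theorem nj_ja (k : Fin (n + 1) → ℤ) : nj (ja k) ≤ nk k := by
  unfold nj nk
  rw [Fin.sum_univ_succ]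
  exact Nat.le_add_left _ _

theorem Nz_iff (k : Fin (n + 1) → ℤ) : Nz k ↔ ja k ≠ 0 := by
  rw [Function.ne_iff]
  rfl

end Pool.Agent.LRig
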