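import Pool.Agent.LRig.VDefs

/-!
# LR (MP_74f563_an, all n), file VK: nearly flat Lagrangians, derivatives and Taylor estimates

`lx`, `lv` are the derivatives of `lf L` with respect to `x` and `v`.  (They occur in `IsEL` in
exactly
this form.)

PROOFS.  `lf L x v t = ‖S v‖²/2 + P (x, v, t)`, `P` smooth; derivative of `v ↦ ‖S v‖²/2` is
`w ↦ ⟪S v, S w⟫`.  `tay`: `lf (x+e) (v+w) - lf x v - lx e - lv w = ‖S w‖²/2 + [P-remainder]`, and
by the
mean value theorem for `s ↦ P (x + s e, v + s w, t)` and `lip2` the remainder is at most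
`m (‖e‖ + ‖w‖) max(‖e‖, ‖w‖) ≤ 2 m (‖e‖² + ‖w‖²)`; `a ‖w‖² ≤ ‖S w‖²`, `64 m ≤ a`.
`lv_mono`: `lv x v w - lv x v' w = ⟪S (v - v'), S w⟫ + (P_v(x,v) - P_v(x,v')) w` with `w = v - v'`.
`lv_diff`: two points; `lx_diff`: the same with `lip2`.
`lf_ge`: `lf L ≥ a ‖v‖²/2 - m`.  `lf_cont`: `P` and `S` are continuous.
`low_bdd`: `a ‖v‖²/2 - m - ‖c‖ ‖v‖ ≥ -m - ‖c‖²/(2a)`.
-/

set_option autoImplicit false

namespace Pool.Agent.LRig

open Set MeasureTheory Pool.Agent.MechAlpha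
open scoped RealInnerProductSpace ContDiff

variable {n : ℕ} {S : Vec n ≃L[ℝ] Vec n} {a m : ℝ} {P : Vec n × Vec n × ℝ → ℝ}
  {L : Torus n → Vec n → UnitAddCircle → ℝ}

/-- `∂L/∂x` -/
noncomputable def lx (L : Torus n → Vec n → UnitAddCircle → ℝ) (x v : Vec n) (t : ℝ) :
    Vec n →L[ℝ] ℝ := fderiv ℝ (fun y : Vec n => L (proj y) v (t : UnitAddCircle)) x

/-- `∂L/∂v` -/
noncomputable def lv (L : Torus n → Vec n → UnitAddCircle → ℝ) (x v : Vec n) (t : ℝ) :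
    Vec n →L[ℝ] ℝ := fderiv ℝ (fun w : Vec n => L (proj x) w (t : UnitAddCircle)) v

private theorem oq_proj : IsOpenQuotientMap (proj (n := n)) := by
  have h1 : IsOpenQuotientMap (Pi.map fun (_ : Fin n) (x : ℝ) => (x : UnitAddCircle)) :=
    IsOpenQuotientMap.piMap fun _ => QuotientAddGroup.isOpenQuotientMap_mk
  exact h1.comp (PiLp.homeomorph 2 (fun _ : Fin n => ℝ)).isOpenQuotientMap

private theorem P_diff (hN : NF S a m P L) : Differentiable ℝ P :=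
  hN.smooth.differentiable (by simp)

private theorem lx_form (hN : NF S a m P L) (x v : Vec n) (t : ℝ) :
    lx L x v t =
      (fderiv ℝ P (x, v, t)).comp (ContinuousLinearMap.inl ℝ (Vec n) (Vec n × ℝ)) := by
  have h1 : (fun y : Vec n => L (proj y) v (t : UnitAddCircle)) =
      fun y => ‖S v‖ ^ 2 / 2 + P (y, v, t) := funext fun y => hN.lag y v t
  unfold lx
  rw [h1]
  have h2 : HasFDerivAt (fun y : Vec n => P (y, (v, t)))
      ((fderiv ℝ P (x, v, t)).comp (ContinuousLinearMap.inl ℝ (Vec n) (Vec n × ℝ))) x :=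
    ((P_diff hN) (x, v, t)).hasFDerivAt.comp x (hasFDerivAt_prodMk_left x (v, t))
  exact (h2.const_add (‖S v‖ ^ 2 / 2)).fderiv

private theorem lv_form (hN : NF S a m P L) (x v : Vec n) (t : ℝ) :
    lv L x v t = (innerSL ℝ (S v)).comp (S : Vec n →L[ℝ] Vec n) +
      (fderiv ℝ P (x, v, t)).comp ((ContinuousLinearMap.inr ℝ (Vec n) (Vec n × ℝ)).comp
        (ContinuousLinearMap.inl ℝ (Vec n) ℝ)) := by
  have h1 : (fun w : Vec n => L (proj x) w (t : UnitAddCircle)) =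
      fun w => ‖S w‖ ^ 2 / 2 + P (x, w, t) := funext fun w => hN.lag x w t
  unfold lv
  rw [h1]
  have h2 : HasFDerivAt (fun w : Vec n => P (x, (w, t)))
      ((fderiv ℝ P (x, v, t)).comp ((ContinuousLinearMap.inr ℝ (Vec n) (Vec n × ℝ)).comp
        (ContinuousLinearMap.inl ℝ (Vec n) ℝ))) v :=
    ((P_diff hN) (x, v, t)).hasFDerivAt.comp v
      ((hasFDerivAt_prodMk_right x (v, t)).comp v (hasFDerivAt_prodMk_left v t))
  have h3 : HasFDerivAt (fun w : Vec n => ‖S w‖ ^ 2 / 2)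
      ((innerSL ℝ (S v)).comp (S : Vec n →L[ℝ] Vec n)) v := by
    have h4 := (S.hasFDerivAt (x := v)).norm_sq
    have h5 := h4.mul_const ((2 : ℝ)⁻¹)
    refine (h5.congr_fderiv ?_).congr_of_eventuallyEq
      (Filter.Eventually.of_forall fun w => ?_)
    · ext w
      simp
    · exact div_eq_mul_inv _ _
  exact (h3.add h2).fderiv

theorem lx_eq (hN : NF S a m P L) (x v : Vec n) (t : ℝ) (w : Vec n) :
    lx L x v t w = fderiv ℝ P (x, v, t) (w, 0, 0) := by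
  rw [lx_form hN]
  rfl

theorem lv_eq (hN : NF S a m P L) (x v : Vec n) (t : ℝ) (w : Vec n) :
    lv L x v t w = ⟪S v, S w⟫ + fderiv ℝ P (x, v, t) (0, w, 0) := by
  rw [lv_form hN]
  simp

theorem lf_cont (hN : NF S a m P L) :
    Continuous fun q : Vec n × Vec n × ℝ => lf L q.1 q.2.1 q.2.2 := by
  have h : (fun q : Vec n × Vec n × ℝ => lf L q.1 q.2.1 q.2.2) =
      fun q => ‖S q.2.1‖ ^ 2 / 2 + P q := funext fun q => hN.lag q.1 q.2.1 q.2.2
  rw [h]
  have h1 : Continuous fun q : Vec n × Vec n × ℝ => ‖S q.2.1‖ ^ 2 / 2 :=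
    (((S.continuous.comp (continuous_fst.comp continuous_snd)).norm).pow 2).div_const 2
  exact h1.add hN.smooth.continuous

theorem lv_cont (hN : NF S a m P L) :
    Continuous fun q : Vec n × Vec n × ℝ => lv L q.1 q.2.1 q.2.2 := by
  have h : (fun q : Vec n × Vec n × ℝ => lv L q.1 q.2.1 q.2.2) =
      fun q => (innerSL ℝ (S q.2.1)).comp (S : Vec n →L[ℝ] Vec n) +
        (fderiv ℝ P q).comp ((ContinuousLinearMap.inr ℝ (Vec n) (Vec n × ℝ)).comp
        (ContinuousLinearMap.inl ℝ (Vec n) ℝ)) := funext fun q => lv_form hN q.1 q.2.1 q.2.2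
  rw [h]
  have h1 : Continuous fun q : Vec n × Vec n × ℝ => innerSL ℝ (S q.2.1) :=
    (innerSL ℝ).continuous.comp (S.continuous.comp (continuous_fst.comp continuous_snd))
  have h2 : Continuous fun q : Vec n × Vec n × ℝ => fderiv ℝ P q :=
    hN.smooth.continuous_fderiv (by simp)
  exact (h1.clm_comp continuous_const).add (h2.clm_comp continuous_const)

theorem lx_cont (hN : NF S a m P L) :
    Continuous fun q : Vec n × Vec n × ℝ => lx L q.1 q.2.1 q.2.2 := by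
  have h : (fun q : Vec n × Vec n × ℝ => lx L q.1 q.2.1 q.2.2) =
      fun q => (fderiv ℝ P q).comp (ContinuousLinearMap.inl ℝ (Vec n) (Vec n × ℝ)) :=
    funext fun q => lx_form hN q.1 q.2.1 q.2.2
  rw [h]
  have h2 : Continuous fun q : Vec n × Vec n × ℝ => fderiv ℝ P q :=
    hN.smooth.continuous_fderiv (by simp)
  exact h2.clm_comp continuous_const

private theorem rem (hN : NF S a m P L) (x v e w : Vec n) (t : ℝ) :
    |P (x + e, v + w, t) - P (x, v, t) - fderiv ℝ P (x, v, t) (e, w, 0)| ≤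
      2 * m * (‖e‖ ^ 2 + ‖w‖ ^ 2) := by
  have h1 : ∀ s : ℝ, HasDerivAt
      (fun s : ℝ => P (x + s • e, v + s • w, t) - s * fderiv ℝ P (x, v, t) (e, w, 0))
      (fderiv ℝ P (x + s • e, v + s • w, t) (e, w, 0) - fderiv ℝ P (x, v, t) (e, w, 0)) s := by
    intro s
    have h2 : HasDerivAt (fun s : ℝ => (x + s • e, v + s • w, t)) (e, w, 0) s := by
      refine HasDerivAt.prodMk ?_ (HasDerivAt.prodMk ?_ (hasDerivAt_const s t))
      · simpa using ((hasDerivAt_id s).smul_const e).const_add x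
      · simpa using ((hasDerivAt_id s).smul_const w).const_add v
    have h3 := ((P_diff hN) (x + s • e, v + s • w, t)).hasFDerivAt.comp_hasDerivAt s h2
    have h4 := (hasDerivAt_id s).mul_const (fderiv ℝ P (x, v, t) (e, w, 0))
    rw [one_mul] at h4
    exact h3.sub h4
  have h5 := norm_image_sub_le_of_norm_deriv_le_segment_01'
    (f := fun s : ℝ => P (x + s • e, v + s • w, t) - s * fderiv ℝ P (x, v, t) (e, w, 0))
    (f' := fun s => fderiv ℝ P (x + s • e, v + s • w, t) (e, w, 0) -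
      fderiv ℝ P (x, v, t) (e, w, 0)) (C := 2 * m * (‖e‖ ^ 2 + ‖w‖ ^ 2))
    (fun s _ => (h1 s).hasDerivWithinAt) (fun s hs => by
      rw [Real.norm_eq_abs]
      refine (hN.lip2 (x + s • e) x (v + s • w) v t (e, w)).trans ?_
      rw [add_sub_cancel_left, add_sub_cancel_left, norm_smul, norm_smul, Real.norm_eq_abs,
        abs_of_nonneg hs.1, Prod.norm_mk]
      have hm := hN.m_pos
      have he := norm_nonneg e
      have hw := norm_nonneg w
      have h6 : s * ‖e‖ + s * ‖w‖ ≤ ‖e‖ + ‖w‖ := by nlinarith [hs.2]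
      have h7 : (‖e‖ + ‖w‖) * max ‖e‖ ‖w‖ ≤ 2 * (‖e‖ ^ 2 + ‖w‖ ^ 2) := by
        rcases le_total ‖e‖ ‖w‖ with h8 | h8
        · rw [max_eq_right h8]
          nlinarith
        · rw [max_eq_left h8]
          nlinarith
      have h9 : 0 ≤ max ‖e‖ ‖w‖ := le_max_of_le_left he
      calc m * (s * ‖e‖ + s * ‖w‖) * max ‖e‖ ‖w‖
          ≤ m * (‖e‖ + ‖w‖) * max ‖e‖ ‖w‖ :=
            mul_le_mul_of_nonneg_right (mul_le_mul_of_nonneg_left h6 hm.le) h9
        _ = m * ((‖e‖ + ‖w‖) * max ‖e‖ ‖w‖) := by ring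
        _ ≤ m * (2 * (‖e‖ ^ 2 + ‖w‖ ^ 2)) := mul_le_mul_of_nonneg_left h7 hm.le
        _ = 2 * m * (‖e‖ ^ 2 + ‖w‖ ^ 2) := by ring)
  rw [Real.norm_eq_abs] at h5
  simp only [one_smul, zero_smul, add_zero, one_mul, zero_mul, sub_zero] at h5
  refine le_trans (le_of_eq (congrArg _ ?_)) h5
  ring

private theorem tay_eq (hN : NF S a m P L) (x v e w : Vec n) (t : ℝ) :
    lf L (x + e) (v + w) t - lf L x v t - (lx L x v t e + lv L x v t w) =
      ‖S w‖ ^ 2 / 2 + (P (x + e, v + w, t) - P (x, v, t) -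
        fderiv ℝ P (x, v, t) (e, w, 0)) := by
  rw [hN.lag, hN.lag, lx_eq hN, lv_eq hN]
  have h1 : fderiv ℝ P (x, v, t) (e, w, 0) =
      fderiv ℝ P (x, v, t) (e, 0, 0) + fderiv ℝ P (x, v, t) (0, w, 0) := by
    rw [← map_add]
    simp
  have h2 : ‖S (v + w)‖ ^ 2 = ‖S v‖ ^ 2 + 2 * ⟪S v, S w⟫ + ‖S w‖ ^ 2 := by
    rw [map_add]
    exact norm_add_sq_real _ _
  rw [h1, h2]
  ring

private theorem lv_sub (hN : NF S a m P L) (x x' v v' : Vec n) (t t' : ℝ) (w : Vec n) :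
    (lv L x v t - lv L x' v' t') w - ⟪S (v - v'), S w⟫ =
      fderiv ℝ P (x, v, t) (0, w, 0) - fderiv ℝ P (x', v', t') (0, w, 0) := by
  rw [sub_apply, lv_eq hN, lv_eq hN, map_sub, inner_sub_left]
  ring

private theorem lv_diff0 (hN : NF S a m P L) (x x' v v' : Vec n) (t : ℝ) (w : Vec n) :
    |(lv L x v t - lv L x' v' t) w - ⟪S (v - v'), S w⟫| ≤
      m * (‖x - x'‖ + ‖v - v'‖) * ‖w‖ := by
  rw [lv_sub hN]
  have h := hN.lip2 x x' v v' t (0, w)
  rwa [Prod.norm_mk, norm_zero, max_eq_right (norm_nonneg w)] at h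

theorem tay_ge (hN : NF S a m P L) (x v e w : Vec n) (t : ℝ) :
    a / 4 * ‖w‖ ^ 2 - 2 * m * ‖e‖ ^ 2 ≤
      lf L (x + e) (v + w) t - lf L x v t - (lx L x v t e + lv L x v t w) := by
  rw [tay_eq hN]
  have h1 := (abs_le.1 (rem hN x v e w t)).1
  have h2 := hN.low w
  have h3 := hN.m_le
  nlinarith [sq_nonneg ‖w‖, sq_nonneg ‖e‖]

theorem tay_le (hN : NF S a m P L) (x v e w : Vec n) (t : ℝ) :
    lf L (x + e) (v + w) t - lf L x v t - (lx L x v t e + lv L x v t w) ≤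
      ‖S w‖ ^ 2 / 2 + 2 * m * (‖e‖ ^ 2 + ‖w‖ ^ 2) := by
  rw [tay_eq hN]
  have h1 := (abs_le.1 (rem hN x v e w t)).2
  linarith

theorem lv_mono (hN : NF S a m P L) (x v v' : Vec n) (t : ℝ) :
    a / 2 * ‖v - v'‖ ^ 2 ≤ (lv L x v t - lv L x v' t) (v - v') := by
  have h1 := (abs_le.1 (lv_diff0 hN x x v v' t (v - v'))).1
  rw [sub_self, norm_zero, zero_add, real_inner_self_eq_norm_sq] at h1
  have h2 := hN.low (v - v')
  have h3 := hN.m_le
  have h4 := hN.m_pos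
  nlinarith [sq_nonneg ‖v - v'‖]

theorem lv_inj (hN : NF S a m P L) {x v v' : Vec n} {t : ℝ} (h : lv L x v t = lv L x v' t) :
    v = v' := by
  have h1 := lv_mono hN x v v' t
  rw [h, sub_self] at h1
  have h2 : ‖v - v'‖ ^ 2 ≤ 0 := by
    have h3 := hN.a_pos
    have h4 : a / 2 * ‖v - v'‖ ^ 2 ≤ 0 := h1
    by_contra h5
    push Not at h5
    have := mul_pos (half_pos h3) h5
    linarith
  have h3 : ‖v - v'‖ = 0 := by
    have h4 : ‖v - v'‖ ^ 2 = 0 := le_antisymm h2 (sq_nonneg _)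
    exact pow_eq_zero_iff (by norm_num) |>.1 h4
  exact sub_eq_zero.1 (norm_eq_zero.1 h3)

theorem lx_bd (hN : NF S a m P L) (x v : Vec n) (t : ℝ) : ‖lx L x v t‖ ≤ m := by
  refine ContinuousLinearMap.opNorm_le_bound _ hN.m_pos.le fun w => ?_
  rw [lx_eq hN, Real.norm_eq_abs]
  have h := hN.lip (x, v, t) (w, 0, 0)
  rwa [Prod.norm_mk, Prod.norm_mk, norm_zero, norm_zero, max_self,
    max_eq_left (norm_nonneg w)] at h

theorem lx_diff (hN : NF S a m P L) (x x' v v' : Vec n) (t : ℝ) :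
    ‖lx L x v t - lx L x' v' t‖ ≤ m * (‖x - x'‖ + ‖v - v'‖) := by
  refine ContinuousLinearMap.opNorm_le_bound _
    (mul_nonneg hN.m_pos.le (add_nonneg (norm_nonneg _) (norm_nonneg _))) fun w => ?_
  rw [sub_apply, lx_eq hN, lx_eq hN, Real.norm_eq_abs]
  have h := hN.lip2 x x' v v' t (w, 0)
  rwa [Prod.norm_mk, norm_zero, max_eq_left (norm_nonneg w)] at h

/-- the difference of the momenta is `SᵀS (v - v')` up to a small error -/
theorem lv_diff (hN : NF S a m P L) (x x' v v' : Vec n) (t : ℝ) (w : Vec n) :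
    |(lv L x v t - lv L x' v' t) w - ⟪S (v - v'), S w⟫| ≤
      m * (‖x - x'‖ + ‖v - v'‖) * ‖w‖ := by
  exact lv_diff0 hN x x' v v' t w

/-- at different times the error is bounded by `2 m` -/
theorem lv_diff' (hN : NF S a m P L) (x x' v v' : Vec n) (t t' : ℝ) (w : Vec n) :
    |(lv L x v t - lv L x' v' t') w - ⟪S (v - v'), S w⟫| ≤ 2 * m * ‖w‖ := by
  rw [lv_sub hN]
  have key : ∀ q : Vec n × Vec n × ℝ, |fderiv ℝ P q (0, w, 0)| ≤ m * ‖w‖ := by
    intro q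
    have h := hN.lip q (0, w, 0)
    rwa [Prod.norm_mk, Prod.norm_mk, norm_zero, norm_zero, max_eq_left (norm_nonneg w),
      max_eq_right (norm_nonneg w)] at h
  refine (abs_sub _ _).trans ?_
  linarith [key (x, v, t), key (x', v', t')]

theorem lf_ge (hN : NF S a m P L) (x v : Vec n) (t : ℝ) : a * ‖v‖ ^ 2 / 2 - m ≤ lf L x v t := by
  rw [hN.lag]
  have h1 := (abs_le.1 (hN.bd (x, v, t))).1
  have h2 := hN.low v
  linarith

theorem lf_le (hN : NF S a m P L) (x v : Vec n) (t : ℝ) :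
    lf L x v t ≤ ‖(S : Vec n →L[ℝ] Vec n)‖ ^ 2 * ‖v‖ ^ 2 / 2 + m := by
  rw [hN.lag]
  have h1 := (abs_le.1 (hN.bd (x, v, t))).2
  have h2 : ‖S v‖ ≤ ‖(S : Vec n →L[ℝ] Vec n)‖ * ‖v‖ :=
    (S : Vec n →L[ℝ] Vec n).le_opNorm v
  have h3 : ‖S v‖ ^ 2 ≤ (‖(S : Vec n →L[ℝ] Vec n)‖ * ‖v‖) ^ 2 :=
    pow_le_pow_left₀ (norm_nonneg _) h2 2
  rw [mul_pow] at h3
  linarith

theorem low_bdd (hN : NF S a m P L) (c : Vec n) :
    ∃ C₁ : ℝ, 0 ≤ C₁ ∧ ∀ z : Phase n, -C₁ ≤ L z.1 z.2.1 z.2.2 - ⟪c, z.2.1⟫ := by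
  have ha := hN.a_pos
  refine ⟨m + ‖c‖ ^ 2 / (2 * a), by have := hN.m_pos; positivity, fun z => ?_⟩
  obtain ⟨x, hx⟩ := oq_proj.surjective z.1
  obtain ⟨t, ht⟩ := QuotientAddGroup.mk_surjective z.2.2
  have h1 : L z.1 z.2.1 z.2.2 = lf L x z.2.1 t := by
    show _ = L (proj x) z.2.1 (t : UnitAddCircle)
    rw [hx]
    congr 1
    exact ht.symm
  rw [h1]
  have h2 := lf_ge hN x z.2.1 t
  have h3 : ⟪c, z.2.1⟫ ≤ ‖c‖ * ‖z.2.1‖ := real_inner_le_norm c z.2.1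
  have h4 : ‖c‖ * ‖z.2.1‖ ≤ a * ‖z.2.1‖ ^ 2 / 2 + ‖c‖ ^ 2 / (2 * a) := by
    have h5 : 0 ≤ (a * ‖z.2.1‖ - ‖c‖) ^ 2 / (2 * a) := by positivity
    have h6 : (a * ‖z.2.1‖ - ‖c‖) ^ 2 / (2 * a) =
        a * ‖z.2.1‖ ^ 2 / 2 + ‖c‖ ^ 2 / (2 * a) - ‖c‖ * ‖z.2.1‖ := by
      field_simp
      ring
    linarith
  linarith

theorem L_cont (hN : NF S a m P L) :
    Continuous fun z : Phase n => L z.1 z.2.1 z.2.2 := by
  have h1 : IsOpenQuotientMap (Prod.map (proj (n := n))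
      (Prod.map (id : Vec n → Vec n) ((↑) : ℝ → UnitAddCircle))) :=
    oq_proj.prodMap (IsOpenQuotientMap.id.prodMap QuotientAddGroup.isOpenQuotientMap_mk)
  exact h1.continuous_comp_iff.1 (lf_cont hN)

end Pool.Agent.LRig
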