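import Pool.Agent.LRig.LA
import Pool.Agent.LRig.VK
import Pool.Agent.LRig.FB
import Pool.Agent.LRig.RB

/-!
# LR (MP_74f563_an, all n), file LC: real consequences

PROOFS.  `exists_NF`: `Pr (x, v, t) = (P (cp t x v)).re`.  Smooth: `cp` is real-linear, `P`
holomorphic
(`smooth_of_hol`).  `|Pr| ≤ ε`.  The derivative of `Pr` at `q` in the direction `w` is
`Re (w.2.2 dz 0 P + ∑ w.1 a dz a.succ P + ∑ w.2.1 a dh a P)`, at most `(2n + 1) (2ε/σ) ‖w‖` (Cauchy: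
`‖dz i P‖ ≤ ε/(σ/2)` at real points).  `lip2`: the derivatives `dz`, `dh` have derivatives bounded
by
`16 ε/σ²` at real points (Cauchy twice), mean value inequality:
`≤ C_n (ε/σ²) (‖x - x'‖ + ‖v - v'‖) ‖w‖`.  So `NF S a m Pr L` holds with every
`m ≥ C_n (1 + 1/σ²) ε`,
`m > 0`, `64 m ≤ a`.
`wei`: let `v₀ = Hpr x p t`, so (`Leg.surj`, `Leg.vel`) `p = pm S P x v₀ t`, and
`H x p t = ⟪p, v₀⟫ - lf L x v₀ t`.  With `w = v - v₀`: `lf L x v t - (⟪p, v⟫ - H) =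
lf L x (v₀ + w) t - lf L x v₀ t - ⟪p, w⟫`, and `lv L x v₀ t w = ⟪p,
w⟫` (`lv_eq`, `AS_inner`, the derivative
of `Pr` in the direction `(0, w, 0)` is `∑ w a Re dh a P`).  `tay_ge`, `tay_le` with `e = 0`, and
`‖S w‖² /2 + 2 m ‖w‖² ≤ (‖S‖² + 1) ‖w‖²`.
`ham_of_el`: `γ` solution, `p s = mom L (proj (γ s), γ' s, s)`, the gradient of `w ↦ L`, i.e. the
vector with
`⟪p s, w⟫ = lv L (γ s) (γ' s) s w`, so `p s = pm S P (γ s) (γ' s) s` and `γ' = Hpr ..` (`Leg.vel`);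
the
derivative of `s ↦ lv L ..` is `lx L (γ t) (γ' t) t`, whose coordinates are
`Re dz a.succ P (cp t (γ t) (γ' t)) = -Hxr a` (`Leg.hx`); `HasDerivAt` of `p` from that of the
functional
(`InnerProductSpace.toDual` is an isometry; or coordinates).
-/

set_option autoImplicit false

namespace Pool.Agent.LRig

open Complex Set MeasureTheory Pool.Agent.MechAlpha
open scoped RealInnerProductSpace ComplexConjugate ContDiff

variable {n : ℕ}

/-- the real perturbation -/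
noncomputable def Pr (P : CE n → ℂ) : Vec n × Vec n × ℝ → ℝ := fun q => (P (cp q.2.2 q.1 q.2.1)).re

/-- the real points, as a linear map -/
private noncomputable def lcL (n : ℕ) : (Vec n × Vec n × ℝ) →L[ℝ] CE n :=
  LinearMap.toContinuousLinearMap
    { toFun := fun q => cp q.2.2 q.1 q.2.1
      map_add' := fun x y => by
        refine Prod.ext (funext fun i => ?_) (funext fun a => ?_)
        · change ((rv (x.2.2 + y.2.2) (x.1 + y.1) i : ℝ) : ℂ) =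
            (rv x.2.2 x.1 i : ℂ) + (rv y.2.2 y.1 i : ℂ)
          refine Fin.cases ?_ (fun a => ?_) i
          · simp [rv]
          · simp [rv]
        · change ((x.2.1 a + y.2.1 a : ℝ) : ℂ) = (x.2.1 a : ℂ) + (y.2.1 a : ℂ)
          push_cast
          rfl
      map_smul' := fun r x => by
        refine Prod.ext (funext fun i => ?_) (funext fun a => ?_)
        · change ((rv (r * x.2.2) (r • x.1) i : ℝ) : ℂ) = r • (rv x.2.2 x.1 i : ℂ)
          refine Fin.cases ?_ (fun a => ?_) i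
          · simp [rv]
          · simp [rv]
        · change ((r * x.2.1 a : ℝ) : ℂ) = r • (x.2.1 a : ℂ)
          rw [Complex.real_smul, Complex.ofReal_mul] }

private theorem lcL_mem {δ s : ℝ} (hδ : 0 < δ) (hs : 0 < s) (q : Vec n × Vec n × ℝ) :
    lcL n q ∈ Om n δ s := cp_mem hδ hs _ _ _

private theorem lcL_fst (q : Vec n × Vec n × ℝ) (i : Fin (n + 1)) : ‖(lcL n q).1 i‖ ≤ ‖q‖ := by
  refine Fin.cases ?_ (fun a => ?_) i
  · change ‖((q.2.2 : ℝ) : ℂ)‖ ≤ _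
    rw [Complex.norm_real]
    exact (norm_snd_le q.2).trans (norm_snd_le q)
  · change ‖((q.1 a : ℝ) : ℂ)‖ ≤ _
    rw [Complex.norm_real]
    exact (PiLp.norm_apply_le q.1 a).trans (norm_fst_le q)

private theorem lcL_snd (q : Vec n × Vec n × ℝ) (a : Fin n) : ‖(lcL n q).2 a‖ ≤ ‖q‖ := by
  change ‖((q.2.1 a : ℝ) : ℂ)‖ ≤ _
  rw [Complex.norm_real]
  exact (PiLp.norm_apply_le q.2.1 a).trans ((norm_fst_le q.2).trans (norm_snd_le q))

private theorem sum_bd {f : Fin (n + 1) → ℂ} {g : Fin n → ℂ} {c : ℝ} (hf : ∀ i, ‖f i‖ ≤ c)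
    (hg : ∀ a, ‖g a‖ ≤ c) (q : Vec n × Vec n × ℝ) :
    ‖∑ i, (lcL n q).1 i * f i + ∑ a, (lcL n q).2 a * g a‖ ≤ (2 * n + 1) * c * ‖q‖ := by
  have h1 : ‖∑ i, (lcL n q).1 i * f i‖ ≤ ∑ _i : Fin (n + 1), ‖q‖ * c := by
    refine norm_sum_le_of_le _ fun i _ => ?_
    rw [norm_mul]
    exact mul_le_mul (lcL_fst q i) (hf i) (norm_nonneg _) (norm_nonneg _)
  have h2 : ‖∑ a, (lcL n q).2 a * g a‖ ≤ ∑ _a : Fin n, ‖q‖ * c := by
    refine norm_sum_le_of_le _ fun a _ => ?_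
    rw [norm_mul]
    exact mul_le_mul (lcL_snd q a) (hg a) (norm_nonneg _) (norm_nonneg _)
  refine (norm_add_le _ _).trans ((add_le_add h1 h2).trans (le_of_eq ?_))
  rw [Finset.sum_const, Finset.sum_const, Finset.card_univ, Finset.card_univ, Fintype.card_fin,
    Fintype.card_fin, nsmul_eq_mul, nsmul_eq_mul]
  push_cast
  ring

private theorem comp_has {G : CE n → ℂ} {τ : ℝ} (hτ : 0 < τ) (hG : Fn τ τ G)
    (q : Vec n × Vec n × ℝ) : HasFDerivAt (fun q => G (lcL n q))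
      (((fderiv ℂ G (lcL n q)).restrictScalars ℝ).comp (lcL n)) q :=
  ((hG.dat (lcL_mem hτ hτ q)).hasFDerivAt.restrictScalars ℝ).comp q (lcL n).hasFDerivAt

private theorem Pr_fderiv {P : CE n → ℂ} {τ : ℝ} (hτ : 0 < τ) (hP : Fn τ τ P)
    (q w : Vec n × Vec n × ℝ) :
    fderiv ℝ (Pr P) q w = (fderiv ℂ P (lcL n q) (lcL n w)).re := by
  have h1 : HasFDerivAt (Pr P) ((reCLM : ℂ →L[ℝ] ℝ).comp
      (((fderiv ℂ P (lcL n q)).restrictScalars ℝ).comp (lcL n))) q :=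
    reCLM.hasFDerivAt.comp q (comp_has hτ hP q)
  rw [h1.fderiv]
  rfl

private theorem mv {G : CE n → ℂ} {τ c : ℝ} (hτ : 0 < τ) (hG : Fn τ τ G) (hb : Bd τ τ c G)
    (q q' : Vec n × Vec n × ℝ) :
    ‖G (lcL n q) - G (lcL n q')‖ ≤ (2 * n + 1) * (2 * c / τ) * ‖q - q'‖ := by
  have hc : 0 ≤ c := (norm_nonneg _).trans (hb _ (lcL_mem hτ hτ q))
  have e : c / (τ - τ / 2) = 2 * c / τ := by
    field_simp
    ring
  have hz : ∀ i, Bd (τ / 2) (τ / 2) (2 * c / τ) (dz i G) := fun i =>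
    (Bd.cdz hb hG (by linarith) i).mono le_rfl (by linarith) e.le
  have hh : ∀ a, Bd (τ / 2) (τ / 2) (2 * c / τ) (dh a G) := fun a =>
    (Bd.cdh hb hG (by linarith) a).mono (by linarith) le_rfl e.le
  refine Convex.norm_image_sub_le_of_norm_hasFDerivWithin_le (𝕜 := ℝ)
    (f := fun q => G (lcL n q)) (s := univ)
    (fun x _ => (comp_has hτ hG x).hasFDerivWithinAt) (fun x _ => ?_) convex_univ (mem_univ _)
    (mem_univ _)
  refine ContinuousLinearMap.opNorm_le_bound _ (by positivity) fun w => ?_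
  change ‖fderiv ℂ G (lcL n x) (lcL n w)‖ ≤ _
  rw [fderiv_coord]
  have hx := lcL_mem (half_pos hτ) (half_pos hτ) x
  exact sum_bd (fun i => hz i _ hx) (fun a => hh a _ hx) w

theorem exists_NF (n : ℕ) : ∃ C : ℝ, 1 ≤ C ∧ ∀ {S : Vec n ≃L[ℝ] Vec n} {σ ε a m : ℝ}
    {P : CE n → ℂ} {L : Torus n → Vec n → UnitAddCircle → ℝ}, 0 < σ → Fn σ σ P →
    Bd σ σ ε P → (∀ (x v : Vec n) (t : ℝ), lf L x v t = ‖S v‖ ^ 2 / 2 + (P (cp t x v)).re) →
    0 < a → a ≤ 1 → (∀ v : Vec n, a * ‖v‖ ^ 2 ≤ ‖S v‖ ^ 2) → 0 < m → 64 * m ≤ a →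
    C * (1 + 1 / σ + 1 / σ ^ 2) * ε ≤ m → NF S a m (Pr P) L := by
  have hn : (0 : ℝ) ≤ n := Nat.cast_nonneg n
  have hk : (1 : ℝ) ≤ (2 * n + 1) ^ 2 := one_le_pow₀ (by linarith)
  have hk' : (2 * n + 1 : ℝ) ≤ (2 * n + 1) ^ 2 := by nlinarith
  refine ⟨8 * (2 * n + 1) ^ 2, by linarith, ?_⟩
  intro S σ ε a m P L hσ hP hb hlag ha ha1 hlow hm hma hC
  have hε : 0 ≤ ε := (norm_nonneg _).trans (hb _ (lcL_mem hσ hσ 0))
  have hC0 : 8 * (2 * n + 1) ^ 2 * ε + 8 * (2 * n + 1) ^ 2 * (ε / σ) +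
      8 * (2 * n + 1) ^ 2 * (ε / σ ^ 2) ≤ m := by
    refine le_trans (le_of_eq ?_) hC
    ring
  have p0 : 0 ≤ (2 * (n : ℝ) + 1) ^ 2 * ε := by positivity
  have p1 : 0 ≤ (2 * (n : ℝ) + 1) ^ 2 * (ε / σ) := by positivity
  have p2 : 0 ≤ (2 * (n : ℝ) + 1) ^ 2 * (ε / σ ^ 2) := by positivity
  have e1 : ε / (σ - σ / 2) = 2 * (ε / σ) := by
    field_simp
    ring
  have hz1 : ∀ i, Bd (σ / 2) (σ / 2) (2 * (ε / σ)) (dz i P) := fun i =>
    (Bd.cdz hb hP (by linarith) i).mono le_rfl (by linarith) e1.le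
  have hh1 : ∀ a, Bd (σ / 2) (σ / 2) (2 * (ε / σ)) (dh a P) := fun a =>
    (Bd.cdh hb hP (by linarith) a).mono (by linarith) le_rfl e1.le
  have hσ2 : 0 < σ / 2 := by linarith
  refine ⟨ha, ha1, hm, hma, hlow, hlag, ?_, ?_, ?_, ?_⟩
  · have h1 : ContDiffOn ℝ ∞ P (Om n σ σ) :=
      (smooth_of_hol (isOpen_Om σ σ) hP.hol).restrict_scalars ℝ
    exact reCLM.contDiff.comp (h1.comp_contDiff (lcL n).contDiff fun q => lcL_mem hσ hσ q)
  · intro q
    have h1 : |Pr P q| ≤ ‖P (lcL n q)‖ := abs_re_le_norm _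
    have h2 := hb _ (lcL_mem hσ hσ q)
    have h3 : ε ≤ (2 * n + 1) ^ 2 * ε := le_mul_of_one_le_left hε hk
    linarith
  · intro q w
    rw [Pr_fderiv hσ hP]
    refine (abs_re_le_norm _).trans ?_
    rw [fderiv_coord]
    have hx := lcL_mem hσ2 hσ2 q
    refine (sum_bd (fun i => hz1 i _ hx) (fun a => hh1 a _ hx) w).trans
      (mul_le_mul_of_nonneg_right ?_ (norm_nonneg _))
    have h3 : (2 * n + 1) * (ε / σ) ≤ (2 * n + 1) ^ 2 * (ε / σ) :=
      mul_le_mul_of_nonneg_right hk' (by positivity)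
    linarith
  · intro x x' v v' t w
    rw [Pr_fderiv hσ hP, Pr_fderiv hσ hP, ← sub_re]
    refine (abs_re_le_norm _).trans ?_
    rw [fderiv_coord, fderiv_coord]
    obtain ⟨W, hW⟩ : ∃ W : Vec n × Vec n × ℝ, W = (w.1, w.2, 0) := ⟨_, rfl⟩
    obtain ⟨q, hq⟩ : ∃ q : Vec n × Vec n × ℝ, q = (x, v, t) := ⟨_, rfl⟩
    obtain ⟨q', hq'⟩ : ∃ q' : Vec n × Vec n × ℝ, q' = (x', v', t) := ⟨_, rfl⟩
    rw [← hW, ← hq, ← hq']
    have e2 : ∑ i, (lcL n W).1 i * dz i P (lcL n q) + ∑ a, (lcL n W).2 a * dh a P (lcL n q) -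
        (∑ i, (lcL n W).1 i * dz i P (lcL n q') + ∑ a, (lcL n W).2 a * dh a P (lcL n q')) =
        ∑ i, (lcL n W).1 i * (dz i P (lcL n q) - dz i P (lcL n q')) +
          ∑ a, (lcL n W).2 a * (dh a P (lcL n q) - dh a P (lcL n q')) := by
      simp only [mul_sub, Finset.sum_sub_distrib]
      ring
    rw [e2]
    have hqq : ‖q - q'‖ ≤ ‖x - x'‖ + ‖v - v'‖ := by
      rw [hq, hq', Prod.mk_sub_mk, Prod.mk_sub_mk, sub_self, Prod.norm_mk, Prod.norm_mk,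
        norm_zero]
      have h1 := norm_nonneg (x - x')
      have h2 := norm_nonneg (v - v')
      refine max_le (by linarith) (max_le (by linarith) (by linarith))
    have hWw : ‖W‖ ≤ ‖w‖ := by
      rw [hW, Prod.norm_mk, Prod.norm_mk, norm_zero]
      exact max_le (norm_fst_le w) (max_le (norm_snd_le w) (norm_nonneg w))
    have hs0 : 0 ≤ ‖x - x'‖ + ‖v - v'‖ := add_nonneg (norm_nonneg _) (norm_nonneg _)
    have e3 : 2 * (2 * (ε / σ)) / (σ / 2) = 8 * (ε / σ ^ 2) := by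
      field_simp
      ring
    have hK : 0 ≤ (2 * (n : ℝ) + 1) * (8 * (ε / σ ^ 2)) := by positivity
    have key : ∀ G : CE n → ℂ, Fn (σ / 2) (σ / 2) G → Bd (σ / 2) (σ / 2) (2 * (ε / σ)) G →
        ‖G (lcL n q) - G (lcL n q')‖ ≤
          (2 * n + 1) * (8 * (ε / σ ^ 2)) * (‖x - x'‖ + ‖v - v'‖) := by
      intro G hG hGb
      refine (mv hσ2 hG hGb q q').trans ?_
      rw [e3]
      exact mul_le_mul_of_nonneg_left hqq hK
    have hFn : Fn (σ / 2) (σ / 2) P := hP.mono (by linarith) (by linarith)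
    refine (sum_bd (fun i => key _ (hFn.dz i) (hz1 i)) (fun a => key _ (hFn.dh a) (hh1 a))
      W).trans ?_
    refine mul_le_mul ?_ hWw (norm_nonneg _) (mul_nonneg hm.le hs0)
    rw [← mul_assoc]
    refine mul_le_mul_of_nonneg_right ?_ hs0
    have e4 : (2 * (n : ℝ) + 1) * ((2 * n + 1) * (8 * (ε / σ ^ 2))) =
        8 * ((2 * n + 1) ^ 2 * (ε / σ ^ 2)) := by ring
    rw [e4]
    linarith

private theorem inner_eq (v w : Vec n) : ⟪v, w⟫ = ∑ a, v a * w a := by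
  rw [PiLp.inner_apply]
  refine Finset.sum_congr rfl fun a _ => ?_
  simp [mul_comm]

private theorem fd_v {P : CE n → ℂ} {σ : ℝ} (hσ : 0 < σ) (hP : Fn σ σ P) (x v : Vec n) (t : ℝ)
    (w : Vec n) : fderiv ℝ (Pr P) (x, v, t) (0, w, 0) = ∑ a, w a * (dh a P (cp t x v)).re := by
  rw [Pr_fderiv hσ hP, fderiv_coord]
  have h1 : ∑ i, (lcL n (0, w, 0)).1 i * dz i P (lcL n (x, v, t)) = 0 := by
    refine Finset.sum_eq_zero fun i _ => ?_
    have h2 : (lcL n (0, w, 0)).1 i = 0 := by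
      change ((rv 0 0 i : ℝ) : ℂ) = 0
      refine Fin.cases ?_ (fun a => ?_) i
      · simp [rv]
      · simp [rv]
    rw [h2, zero_mul]
  rw [h1, zero_add, re_sum]
  refine Finset.sum_congr rfl fun a _ => ?_
  change (((w a : ℝ) : ℂ) * dh a P (cp t x v)).re = _
  rw [re_ofReal_mul]

private theorem fd_x {P : CE n → ℂ} {σ : ℝ} (hσ : 0 < σ) (hP : Fn σ σ P) (x v : Vec n) (t : ℝ)
    (w : Vec n) :
    fderiv ℝ (Pr P) (x, v, t) (w, 0, 0) = ∑ a, w a * (dz a.succ P (cp t x v)).re := by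
  rw [Pr_fderiv hσ hP, fderiv_coord]
  have h1 : ∑ a, (lcL n (w, 0, 0)).2 a * dh a P (lcL n (x, v, t)) = 0 := by
    refine Finset.sum_eq_zero fun a _ => ?_
    have h2 : (lcL n (w, 0, 0)).2 a = 0 := by
      change (((0 : Vec n) a : ℝ) : ℂ) = 0
      simp
    rw [h2, zero_mul]
  rw [h1, add_zero, Fin.sum_univ_succ]
  have h3 : (lcL n (w, 0, 0)).1 0 = 0 := by
    change ((0 : ℝ) : ℂ) = 0
    exact ofReal_zero
  rw [h3, zero_mul, zero_add, re_sum]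
  refine Finset.sum_congr rfl fun a _ => ?_
  change (((w a : ℝ) : ℂ) * dz a.succ P (cp t x v)).re = _
  rw [re_ofReal_mul]

/-- the momentum represents `∂L/∂v` -/
private theorem inner_pm {S : Vec n ≃L[ℝ] Vec n} {σ a m : ℝ} {P : CE n → ℂ}
    {L : Torus n → Vec n → UnitAddCircle → ℝ} (hσ : 0 < σ) (hP : Fn σ σ P)
    (hN : NF S a m (Pr P) L) (x v : Vec n) (t : ℝ) (w : Vec n) :
    ⟪pm S P x v t, w⟫ = lv L x v t w := by
  rw [lv_eq hN, fd_v hσ hP, AS_inner, inner_eq, Finset.sum_comm, ← Finset.sum_add_distrib]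
  refine Finset.sum_congr rfl fun b _ => ?_
  change (∑ c, AS S b c * v c + (dh b P (cp t x v)).re) * w b = _
  rw [add_mul, Finset.sum_mul, mul_comm (w b)]
  congr 1
  refine Finset.sum_congr rfl fun c _ => ?_
  rw [AS_symm S b c]

theorem wei {S : Vec n ≃L[ℝ] Vec n} {σ a m : ℝ} {P R : CE n → ℂ}
    {L : Torus n → Vec n → UnitAddCircle → ℝ} (hσ : 0 < σ) (hP : Fn σ σ P)
    (hN : NF S a m (Pr P) L) (hl : Leg S P R) :
    Wei L (Hr (BS S) R) (Hpr (BS S) R) (a / 4) (‖(S : Vec n →L[ℝ] Vec n)‖ ^ 2 + 1) := by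
  intro x p v t
  obtain ⟨v₀, rfl⟩ := hl.surj x p t
  rw [hl.vel, hl.ham]
  have h1 : lf L x v₀ t = ‖S v₀‖ ^ 2 / 2 + (P (cp t x v₀)).re := hN.lag x v₀ t
  rw [← h1]
  have h2 : ⟪pm S P x v₀ t, v⟫ = ⟪pm S P x v₀ t, v₀⟫ + lv L x v₀ t (v - v₀) := by
    rw [← inner_pm hσ hP hN, inner_sub_right]
    ring
  have h3 := tay_ge hN x v₀ 0 (v - v₀) t
  have h4 := tay_le hN x v₀ 0 (v - v₀) t
  rw [add_zero, add_sub_cancel, map_zero, zero_add, norm_zero] at h3 h4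
  have h5 : ‖S (v - v₀)‖ ^ 2 ≤ ‖(S : Vec n →L[ℝ] Vec n)‖ ^ 2 * ‖v - v₀‖ ^ 2 := by
    rw [← mul_pow]
    exact pow_le_pow_left₀ (norm_nonneg _) ((S : Vec n →L[ℝ] Vec n).le_opNorm _) 2
  have h6 := hN.m_le
  have h7 := hN.a_le
  have h8 := sq_nonneg ‖v - v₀‖
  have h9 : 0 ≤ ‖(S : Vec n →L[ℝ] Vec n)‖ ^ 2 * ‖v - v₀‖ ^ 2 := by positivity
  have h10 : m * ‖v - v₀‖ ^ 2 ≤ 1 / 2 * ‖v - v₀‖ ^ 2 :=
    mul_le_mul_of_nonneg_right (by linarith) h8
  rw [h2]
  constructor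
  · linarith
  · linarith

/-- the vector which represents a functional -/
private noncomputable def TV (n : ℕ) : (Vec n →L[ℝ] ℝ) →L[ℝ] Vec n :=
  ∑ a : Fin n, (ContinuousLinearMap.apply ℝ ℝ (EuclideanSpace.single a (1 : ℝ))).smulRight
    (EuclideanSpace.single a (1 : ℝ))

private theorem TV_inner (φ : Vec n →L[ℝ] ℝ) (w : Vec n) : ⟪TV n φ, w⟫ = φ w := by
  have h1 : ∑ a, w a • (EuclideanSpace.single a (1 : ℝ) : Vec n) = w := by
    have h := (EuclideanSpace.basisFun (Fin n) ℝ).sum_repr w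
    simpa using h
  have h2 : TV n φ = ∑ a, φ (EuclideanSpace.single a (1 : ℝ)) •
      (EuclideanSpace.single a (1 : ℝ) : Vec n) := by
    simp [TV]
  rw [h2, sum_inner]
  conv_rhs => rw [← h1, map_sum]
  refine Finset.sum_congr rfl fun a _ => ?_
  rw [real_inner_smul_left, map_smul, smul_eq_mul, EuclideanSpace.inner_single_left]
  simp [mul_comm]

private theorem mom_eq (L : Torus n → Vec n → UnitAddCircle → ℝ) (x v : Vec n) (t : ℝ) :
    mom L (proj x, v, (t : UnitAddCircle)) = TV n (lv L x v t) := by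
  refine ext_inner_right ℝ fun w => ?_
  rw [TV_inner]
  unfold mom gradient
  rw [InnerProductSpace.toDual_symm_apply]
  rfl

theorem ham_of_el {S : Vec n ≃L[ℝ] Vec n} {σ a m : ℝ} {P R : CE n → ℂ}
    {L : Torus n → Vec n → UnitAddCircle → ℝ} (hσ : 0 < σ) (hP : Fn σ σ P)
    (hN : NF S a m (Pr P) L) (hl : Leg S P R) {γ : ℝ → Vec n} (h : IsEL L γ) (t : ℝ) :
    HasDerivAt γ (Hpr (BS S) R (γ t) (mom L (proj (γ t), deriv γ t, (t : UnitAddCircle))) t) t ∧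
    HasDerivAt (fun s => mom L (proj (γ s), deriv γ s, (s : UnitAddCircle)))
      (-Hxr R (γ t) (mom L (proj (γ t), deriv γ t, (t : UnitAddCircle))) t) t := by
  have hm : ∀ s : ℝ, mom L (proj (γ s), deriv γ s, (s : UnitAddCircle)) =
      pm S P (γ s) (deriv γ s) s := by
    intro s
    rw [mom_eq]
    refine ext_inner_right ℝ fun w => ?_
    rw [TV_inner, inner_pm hσ hP hN]
  constructor
  · rw [hm, hl.vel]
    exact (h.1 t).hasDerivAt
  · have h1 : HasDerivAt (fun s => lv L (γ s) (deriv γ s) s) (lx L (γ t) (deriv γ t) t) t := h.2 t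
    have h2 := (TV n).hasFDerivAt.comp_hasDerivAt t h1
    have h3 : (fun s => mom L (proj (γ s), deriv γ s, (s : UnitAddCircle))) =
        (TV n) ∘ fun s => lv L (γ s) (deriv γ s) s := funext fun s => mom_eq L _ _ _
    have h5 : -Hxr R (γ t) (pm S P (γ t) (deriv γ t) t) t =
        TV n (lx L (γ t) (deriv γ t) t) := by
      refine ext_inner_right ℝ fun w => ?_
      rw [TV_inner, lx_eq hN, fd_x hσ hP, inner_eq]
      refine Finset.sum_congr rfl fun a _ => ?_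
      have h4 := hl.hx (γ t) (deriv γ t) t a
      rw [PiLp.neg_apply, h4, neg_neg, mul_comm]
    rw [hm, h3, h5]
    exact h2

end Pool.Agent.LRig
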