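import Pool.Agent.LRig.LB

/-!
# LR (MP_74f563_an, all n), file LE: the Legendre transform

PROOF of `exists_leg`.  `A = AS S`, `B = BS S`, `M` from `exists_M`, `σ' = min σ 1/(8 (n+1) M)`,
`V` from
`exists_V` (`ε ≤ ε₀`, `ε₀` small).
(3) `V (y + ez i) = V y`, `V (cj y) = conj V y` for `y ∈ Om n σ' σ'` by uniqueness (`P` is periodic
and
real: `dh a P (y + ez i) = dh a P y`, `dh a P (cj y) = conj (dh a P y)`, fields of `Fn.dh`).
(4) `R y = -P (z, V) - ½ ∑ B_ab P_a P_b`, `P_a = dh a P (z, V)`, `V = V y`, for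
`y = (z, p) ∈ Om n σ' σ'`, and
`R y = 0` otherwise.  Then `R ∈ Fn σ' σ'` (composition; `(z, V y) ∈ Om n (σ/2) (σ/2)`), and
`‖R‖ ≤ ε + n² M (4ε/σ)²/2 ≤ 2 ε ≤ 1` (Cauchy for `dh a P`).
(5) Derivatives: with `β_a = P_a (z, V)`, `V = B (p - β)`:
`R = ⟨p, V⟩ - ½ ⟨A V, V⟩ - P(z, V) - ½ ⟨B p, p⟩` (expand `½⟨A V, V⟩ = ½ ⟨B (p-β), p-β⟩`; bilinear
forms
over `ℂ`), and the derivative of the right-hand side with respect to `V` is `p - A V - β = 0`; so
by the
chain rule `dh a R = V_a - (B p)_a` and `dz i R = -dz i P (z, V)` on `Om n σ' σ'`.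
At real points: for real `x, v, t` let `p = pm S P x v t`; the point `v` is real, so in `D`, and
solves the
equation (`P` and its derivatives are real at real points: `Fn.im_rp`), so `V (cp t x p) = v` by
`uniq`;
`Hpr (BS S) R x p t = B p + (v - B p) = v`;
`Hr = ½⟨B p, p⟩ + R = ⟨p, v⟩ - ½⟨A v, v⟩ - P`, `½ ⟨A v, v⟩ = ‖S v‖²/2` (`AS_inner`); `hx`:
`dz a.succ R =
-dz a.succ P`.  `surj`: for real `p` the vector `V (cp t x
p)` is real by (3) and solves the equation.
-/

set_option autoImplicit false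

namespace Pool.Agent.LRig

open Complex Set MeasureTheory Pool.Agent.MechAlpha
open scoped RealInnerProductSpace ComplexConjugate

variable {n : ℕ}

/-- bilinear forms -/
private noncomputable def le_q (C : Matrix (Fin n) (Fin n) ℝ) (v w : Fin n → ℂ) : ℂ :=
  ∑ a, ∑ b, (C a b : ℂ) * v a * w b

private theorem le_q_eq (C : Matrix (Fin n) (Fin n) ℝ) (v w : Fin n → ℂ) :
    le_q C v w = ∑ a, v a * ∑ b, (C a b : ℂ) * w b := by
  unfold le_q
  refine Finset.sum_congr rfl fun a _ => ?_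
  rw [Finset.mul_sum]
  exact Finset.sum_congr rfl fun b _ => by ring

private theorem le_q_symm {C : Matrix (Fin n) (Fin n) ℝ} (hC : ∀ a b, C a b = C b a)
    (v w : Fin n → ℂ) : le_q C v w = le_q C w v := by
  unfold le_q
  rw [Finset.sum_comm]
  refine Finset.sum_congr rfl fun a _ => Finset.sum_congr rfl fun b _ => ?_
  rw [hC b a]
  ring

private theorem le_q_bd {C : Matrix (Fin n) (Fin n) ℝ} {M e : ℝ} (hC : ∀ a b, |C a b| ≤ M)
    {v : Fin n → ℂ} (hv : ∀ a, ‖v a‖ ≤ e) (hM : 0 ≤ M) : ‖le_q C v v‖ ≤ n ^ 2 * (M * e ^ 2) := by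
  have h1 : ∀ a b, ‖(C a b : ℂ) * v a * v b‖ ≤ M * e ^ 2 := by
    intro a b
    rw [norm_mul, norm_mul, Complex.norm_real, Real.norm_eq_abs]
    have he : 0 ≤ e := (norm_nonneg _).trans (hv a)
    calc |C a b| * ‖v a‖ * ‖v b‖ ≤ M * e * e := by
          refine mul_le_mul (mul_le_mul (hC a b) (hv a) (norm_nonneg _) hM) (hv b)
            (norm_nonneg _) (mul_nonneg hM he)
      _ = M * e ^ 2 := by ring
  have h2 : ∀ a, ‖∑ b, (C a b : ℂ) * v a * v b‖ ≤ n * (M * e ^ 2) := by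
    intro a
    have h3 := norm_sum_le_of_le Finset.univ fun b (_ : b ∈ Finset.univ) => h1 a b
    rw [Finset.sum_const, Finset.card_univ, Fintype.card_fin, nsmul_eq_mul] at h3
    exact h3
  have h3 := norm_sum_le_of_le Finset.univ fun a (_ : a ∈ Finset.univ) => h2 a
  rw [Finset.sum_const, Finset.card_univ, Fintype.card_fin, nsmul_eq_mul] at h3
  unfold le_q
  refine h3.trans (le_of_eq ?_)
  ring

private theorem le_alg {A B : Matrix (Fin n) (Fin n) ℝ} (hB : ∀ a b, B a b = B b a)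
    (hBA : B * A = 1) {p V β : Fin n → ℂ}
    (h : ∀ a, ∑ b, (A a b : ℂ) * V b + β a = p a) :
    ∑ a, p a * V a - le_q A V V / 2 - le_q B p p / 2 = -(le_q B β β / 2) := by
  set q : Fin n → ℂ := fun a => ∑ b, (A a b : ℂ) * V b with hq
  have hp : ∀ a, p a = q a + β a := fun a => (h a).symm
  have h1 : ∀ c, ∑ a, (B c a : ℂ) * q a = V c := by
    intro c
    have h2 : ∀ b, ∑ a, (B c a : ℂ) * (A a b : ℂ) = if c = b then 1 else 0 := by
      intro b
      have h3 := congrFun (congrFun hBA c) b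
      rw [Matrix.mul_apply, Matrix.one_apply] at h3
      have h4 := congrArg (fun r : ℝ => (r : ℂ)) h3
      simp only [ofReal_sum, ofReal_mul] at h4
      rw [h4]
      split_ifs <;> simp
    have h3 : ∑ a, (B c a : ℂ) * q a = ∑ b, (∑ a, (B c a : ℂ) * (A a b : ℂ)) * V b := by
      simp only [hq, Finset.mul_sum, Finset.sum_mul]
      rw [Finset.sum_comm]
      exact Finset.sum_congr rfl fun b _ => Finset.sum_congr rfl fun a _ => by ring
    rw [h3]
    simp only [h2, ite_mul, one_mul, zero_mul, Finset.sum_ite_eq, Finset.mem_univ, if_true]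
  have h2 : le_q A V V = ∑ a, V a * q a := le_q_eq A V V
  have h3 : le_q B β q = ∑ a, β a * V a := by
    rw [le_q_eq]
    exact Finset.sum_congr rfl fun a _ => by rw [h1]
  have h4 : le_q B q q = ∑ a, V a * q a := by
    rw [le_q_eq]
    exact Finset.sum_congr rfl fun a _ => by rw [h1, mul_comm]
  have h5 : le_q B p p = le_q B q q + le_q B q β + le_q B β q + le_q B β β := by
    unfold le_q
    simp only [← Finset.sum_add_distrib]
    refine Finset.sum_congr rfl fun a _ => Finset.sum_congr rfl fun b _ => ?_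
    rw [hp a, hp b]
    ring
  have h6 : ∑ a, p a * V a = ∑ a, V a * q a + ∑ a, β a * V a := by
    rw [← Finset.sum_add_distrib]
    refine Finset.sum_congr rfl fun a _ => ?_
    rw [hp a]
    ring
  rw [h5, h6, h2, le_q_symm hB q β, h3, h4]
  ring

/-- the perturbation of the Legendre transform -/
private noncomputable def le_R (A B : Matrix (Fin n) (Fin n) ℝ) (P : CE n → ℂ)
    (V : CE n → Fin n → ℂ) (y : CE n) : ℂ :=
  ∑ a, y.2 a * V y a - le_q A (V y) (V y) / 2 - P (y.1, V y) - le_q B y.2 y.2 / 2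

private theorem le_line {f : CE n → ℂ} {y : CE n} (hF : DifferentiableAt ℂ f y) (v : CE n) :
    HasDerivAt (fun z : ℂ => f (y + z • v)) (fderiv ℂ f y v) 0 := by
  have h1 : HasDerivAt (fun z : ℂ => y + z • v) v 0 := by
    simpa using ((hasDerivAt_id (0 : ℂ)).smul_const v).const_add y
  have h2 : HasFDerivAt f (fderiv ℂ f y) (y + (0 : ℂ) • v) := by
    rw [zero_smul, add_zero]
    exact hF.hasFDerivAt
  exact h2.comp_hasDerivAt (0 : ℂ) h1

private theorem le_dq {C : Matrix (Fin n) (Fin n) ℝ} {f : ℂ → Fin n → ℂ} {f' : Fin n → ℂ}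
    (hf : ∀ a, HasDerivAt (fun z => f z a) (f' a) 0) :
    HasDerivAt (fun z => le_q C (f z) (f z)) (le_q C f' (f 0) + le_q C (f 0) f') 0 := by
  have h1 : HasDerivAt (fun z => ∑ a, ∑ b, (C a b : ℂ) * f z a * f z b)
      (∑ a, ∑ b, ((C a b : ℂ) * f' a * f 0 b + (C a b : ℂ) * f 0 a * f' b)) 0 := by
    refine HasDerivAt.fun_sum fun a _ => HasDerivAt.fun_sum fun b _ => ?_
    exact ((hf a).const_mul _).mul (hf b)
  simp only [Finset.sum_add_distrib] at h1
  exact h1

private theorem le_dat {A B : Matrix (Fin n) (Fin n) ℝ} {P : CE n → ℂ} {V : CE n → Fin n → ℂ}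
    {y : CE n} (hV : ∀ a, DifferentiableAt ℂ (fun y => V y a) y)
    (hP : DifferentiableAt ℂ P (y.1, V y)) : DifferentiableAt ℂ (le_R A B P V) y := by
  have h2 : ∀ a, DifferentiableAt ℂ (fun y : CE n => y.2 a) y := fun a => by fun_prop
  have h3 : DifferentiableAt ℂ (fun y : CE n => (y.1, V y)) y :=
    differentiableAt_fst.prodMk (differentiableAt_pi.2 hV)
  have h4 : DifferentiableAt ℂ (fun y : CE n => P (y.1, V y)) y :=
    DifferentiableAt.comp (g := P) y hP h3
  unfold le_R le_q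
  refine ((DifferentiableAt.sub (DifferentiableAt.sub ?_ ?_) h4).sub ?_)
  · exact DifferentiableAt.fun_sum fun a _ => (h2 a).mul (hV a)
  · simp only [div_eq_mul_inv]
    refine DifferentiableAt.mul_const (DifferentiableAt.fun_sum fun a _ =>
      DifferentiableAt.fun_sum fun b _ => ?_) _
    exact ((hV a).const_mul _).mul (hV b)
  · simp only [div_eq_mul_inv]
    refine DifferentiableAt.mul_const (DifferentiableAt.fun_sum fun a _ =>
      DifferentiableAt.fun_sum fun b _ => ?_) _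
    exact ((h2 a).const_mul _).mul (h2 b)

private theorem le_der {A B : Matrix (Fin n) (Fin n) ℝ} (hA : ∀ a b, A a b = A b a)
    (hB : ∀ a b, B a b = B b a) {P : CE n → ℂ} {V : CE n → Fin n → ℂ}
    {y : CE n} (hV : ∀ a, DifferentiableAt ℂ (fun y => V y a) y)
    (hP : DifferentiableAt ℂ P (y.1, V y))
    (h : ∀ a, ∑ b, (A a b : ℂ) * V y b + dh a P (y.1, V y) = y.2 a) (w : CE n) :
    fderiv ℂ (le_R A B P V) y w = ∑ a, w.2 a * (V y a - ∑ b, (B a b : ℂ) * y.2 b) -
      ∑ i, w.1 i * dz i P (y.1, V y) := by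
  set v' : Fin n → ℂ := fun a => fderiv ℂ (fun y => V y a) y w with hv'
  have hv : ∀ a, HasDerivAt (fun z : ℂ => V (y + z • w) a) (v' a) 0 := fun a => le_line (hV a) w
  have hl : HasDerivAt (fun z : ℂ => y + z • w) w 0 := by
    simpa using ((hasDerivAt_id (0 : ℂ)).smul_const w).const_add y
  have h0 : y + (0 : ℂ) • w = y := by rw [zero_smul, add_zero]
  have hl1 : HasDerivAt (fun z : ℂ => (y + z • w).1) w.1 0 := by
    have h1 : HasFDerivAt (fun y : CE n => y.1) (ContinuousLinearMap.fst ℂ _ _)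
      (y + (0 : ℂ) • w) := hasFDerivAt_fst
    exact h1.comp_hasDerivAt (0 : ℂ) hl
  have hl2 : ∀ a, HasDerivAt (fun z : ℂ => (y + z • w).2 a) (w.2 a) 0 := by
    have h1 : HasFDerivAt (fun y : CE n => y.2) (ContinuousLinearMap.snd ℂ _ _)
      (y + (0 : ℂ) • w) := hasFDerivAt_snd
    have h2 := h1.comp_hasDerivAt (0 : ℂ) hl
    exact hasDerivAt_pi.1 h2
  have hg : HasDerivAt (fun z : ℂ => ((y + z • w).1, V (y + z • w))) (w.1, v') 0 :=
    hl1.prodMk (hasDerivAt_pi.2 hv)
  have hPg : HasDerivAt (fun z : ℂ => P ((y + z • w).1, V (y + z • w)))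
      (fderiv ℂ P (y.1, V y) (w.1, v')) 0 := by
    have h1 : HasFDerivAt P (fderiv ℂ P (y.1, V y))
        ((y + (0 : ℂ) • w).1, V (y + (0 : ℂ) • w)) := by
      rw [h0]
      exact hP.hasFDerivAt
    exact h1.comp_hasDerivAt (0 : ℂ) hg
  have hq1 := le_dq (C := A) (f := fun z => V (y + z • w)) hv
  have hq2 := le_dq (C := B) (f := fun z => (y + z • w).2) hl2
  have hs : HasDerivAt (fun z : ℂ => ∑ a, (y + z • w).2 a * V (y + z • w) a)
      (∑ a, (w.2 a * V (y + (0 : ℂ) • w) a + (y + (0 : ℂ) • w).2 a * v' a)) 0 :=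
    HasDerivAt.fun_sum fun a _ => (hl2 a).mul (hv a)
  have hR := ((hs.sub (hq1.div_const 2)).sub hPg).sub (hq2.div_const 2)
  have hU := (le_line (le_dat (A := A) (B := B) hV hP) w).unique hR
  rw [hU, h0, fderiv_coord]
  rw [le_q_symm hA (V y) v', le_q_symm hB y.2 w.2]
  have e1 : le_q A v' (V y) = ∑ a, v' a * ∑ b, (A a b : ℂ) * V y b := le_q_eq _ _ _
  have e2 : le_q B w.2 y.2 = ∑ a, w.2 a * ∑ b, (B a b : ℂ) * y.2 b := le_q_eq _ _ _
  have e3 : ∑ a, v' a * dh a P (y.1, V y) =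
      ∑ a, y.2 a * v' a - ∑ a, v' a * ∑ b, (A a b : ℂ) * V y b := by
    rw [← Finset.sum_sub_distrib]
    refine Finset.sum_congr rfl fun a _ => ?_
    have h1 := h a
    rw [← h1]
    ring
  have e4 : ∑ a, w.2 a * (V y a - ∑ b, (B a b : ℂ) * y.2 b) =
      ∑ a, w.2 a * V y a - ∑ a, w.2 a * ∑ b, (B a b : ℂ) * y.2 b := by
    rw [← Finset.sum_sub_distrib]
    exact Finset.sum_congr rfl fun a _ => by ring
  rw [e4, Finset.sum_add_distrib, e1, e2]
  dsimp only
  rw [e3]
  ring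

theorem exists_leg (S : Vec n ≃L[ℝ] Vec n) {σ : ℝ} (hσ : 0 < σ) : ∃ (M σ' ε₀ : ℝ), 1 ≤ M ∧
    0 < σ' ∧ σ' ≤ 1 ∧ 0 < ε₀ ∧ ∀ {ε : ℝ} {P : CE n → ℂ}, 0 ≤ ε → ε ≤ ε₀ → Fn σ σ P →
      Bd σ σ ε P → ∃ R : CE n → ℂ, Ctx (AS S) (BS S) M σ' R ∧ Bd σ' σ' (2 * ε) R ∧
        Leg S P R := by
  classical
  obtain ⟨M, hM, hA, hB⟩ := exists_M S
  obtain ⟨ε₁, hε₁, hV⟩ := exists_V S hσ hM hA hB
  set σ' : ℝ := min σ 1 / (8 * (n + 1) * M) with hσ'
  have hM0 : 0 < M := by linarith
  have hn : (0 : ℝ) ≤ n := Nat.cast_nonneg n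
  have hmin : 0 < min σ 1 := lt_min hσ one_pos
  have hden : 8 ≤ 8 * (n + 1) * M := by nlinarith
  have hσ'0 : 0 < σ' := div_pos hmin (by linarith)
  have hσ'8 : σ' ≤ min σ 1 / 8 := div_le_div_of_nonneg_left hmin.le (by norm_num) hden
  have hσ'1 : σ' ≤ 1 := by
    have h1 := min_le_right σ 1
    linarith
  have hσ'σ : σ' ≤ σ / 8 := by
    have h1 := min_le_left σ 1
    linarith
  refine ⟨M, σ', min ε₁ (min (1 / 2) (σ ^ 2 / (2 * (n + 1) ^ 2 * M))), hM, hσ'0, hσ'1,
    lt_min hε₁ (lt_min (by norm_num) (by positivity)), ?_⟩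
  intro ε P hε hεε hP hbd
  have hε1 : ε ≤ ε₁ := hεε.trans (min_le_left _ _)
  have hε2 : ε ≤ 1 / 2 := hεε.trans ((min_le_right _ _).trans (min_le_left _ _))
  have hε3 : ε ≤ σ ^ 2 / (2 * (n + 1) ^ 2 * M) :=
    hεε.trans ((min_le_right _ _).trans (min_le_right _ _))
  obtain ⟨V, hV⟩ := hV hε hε1 hP hbd
  have hmem : ∀ y ∈ Om n σ' σ', (y.1, V y) ∈ Om n σ (σ / 2) := by
    intro y hy
    refine ⟨fun i => ?_, fun a => ?_⟩
    · have h1 := hy.1 i
      change |(y.1 i).im| < σ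
      linarith
    · have h1 := hV.im y hy a
      change |(V y a).im| < σ / 2
      linarith
  have hmem' : ∀ y ∈ Om n σ' σ', (y.1, V y) ∈ Om n σ σ := fun y hy =>
    Om_mono le_rfl (by linarith) (hmem y hy)
  have hopen : IsOpen (Om n σ' σ') := isOpen_Om σ' σ'
  have hVd : ∀ y ∈ Om n σ' σ', ∀ a, DifferentiableAt ℂ (fun y => V y a) y := fun y hy a =>
    (hV.hol a y hy).differentiableAt (hopen.mem_nhds hy)
  have hPd : ∀ y ∈ Om n σ' σ', DifferentiableAt ℂ P (y.1, V y) := fun y hy =>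
    hP.dat (hmem' y hy)
  -- periodicity and reality of the velocity
  have hez : ∀ (i : Fin (n + 1)) (y : CE n), y + ez i ∈ Om n σ' σ' ↔ y ∈ Om n σ' σ' := by
    intro i y
    have e1 : ∀ j, ((y + ez i).1 j).im = (y.1 j).im := by
      intro j
      change (y.1 j + (Pi.single i (1 : ℂ) : Fin (n + 1) → ℂ) j).im = _
      rw [add_im, Pi.single_apply]
      split_ifs <;> simp
    have e2 : ∀ a, (y + ez i).2 a = y.2 a := by
      intro a
      change y.2 a + 0 = y.2 a
      rw [add_zero]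
    unfold Om
    simp only [mem_ofPred_eq, e1, e2]
  have hVper : ∀ (i : Fin (n + 1)), ∀ y ∈ Om n σ' σ', V (y + ez i) = V y := by
    intro i y hy
    refine (hV.uniq _ ((hez i y).2 hy) (V y) (fun a => ?_) fun a => ?_).symm
    · have h1 := hV.im y hy a
      linarith
    · have e1 : (((y + ez i).1, V y) : CE n) = (y.1, V y) + ez i := by
        refine Prod.ext rfl ?_
        change V y = V y + 0
        rw [add_zero]
      have e2 : (y + ez i).2 a = y.2 a := by
        change y.2 a + 0 = y.2 a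
        rw [add_zero]
      rw [e1, (hP.dh a).per, e2]
      exact hV.eq y hy a
  have hcj : ∀ y : CE n, cj y ∈ Om n σ' σ' ↔ y ∈ Om n σ' σ' := fun y =>
    ⟨fun h => by
      have h1 := cj_mem h
      rwa [cj_cj] at h1, fun h => cj_mem h⟩
  have hVcj : ∀ y ∈ Om n σ' σ', V (cj y) = fun a => conj (V y a) := by
    intro y hy
    refine (hV.uniq _ ((hcj y).2 hy) (fun a => conj (V y a)) (fun a => ?_) fun a => ?_).symm
    · have h1 := hV.im y hy a
      rw [conj_im, abs_neg]
      linarith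
    · have h1 := congrArg conj (hV.eq y hy a)
      rw [map_add, map_sum, ← (hP.dh a).real] at h1
      simp only [map_mul, conj_ofReal] at h1
      exact h1
  set R : CE n → ℂ := fun y => if y ∈ Om n σ' σ' then le_R (AS S) (BS S) P V y else 0 with hR
  have hRy : ∀ y ∈ Om n σ' σ', R y = le_R (AS S) (BS S) P V y := fun y hy => if_pos hy
  have hRfn : Fn σ' σ' R := by
    refine ⟨fun y hy => ?_, fun i y => ?_, fun y => ?_⟩
    · have h1 : DifferentiableAt ℂ (le_R (AS S) (BS S) P V) y := le_dat (hVd y hy) (hPd y hy)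
      exact (h1.congr_of_eventuallyEq (Filter.eventuallyEq_of_mem (hopen.mem_nhds hy)
        fun z hz => hRy z hz)).differentiableWithinAt
    · by_cases hy : y ∈ Om n σ' σ'
      · rw [hRy _ hy, hRy _ ((hez i y).2 hy)]
        unfold le_R
        have e1 : (((y + ez i).1, V y) : CE n) = (y.1, V y) + ez i := by
          refine Prod.ext rfl ?_
          change V y = V y + 0
          rw [add_zero]
        have e2 : (y + ez i).2 = y.2 := by
          change y.2 + 0 = y.2
          rw [add_zero]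
        rw [hVper i y hy, e1, hP.per, e2]
      · simp only [hR]
        rw [if_neg hy, if_neg (mt (hez i y).1 hy)]
    · by_cases hy : y ∈ Om n σ' σ'
      · rw [hRy _ hy, hRy _ ((hcj y).2 hy)]
        unfold le_R le_q
        rw [hVcj y hy]
        have e1 : (((cj y).1, fun a => conj (V y a)) : CE n) = cj (y.1, V y) := rfl
        rw [e1, hP.real]
        have e2 : ∀ a, (cj y).2 a = conj (y.2 a) := fun a => rfl
        simp only [e2, map_sub, map_sum, map_mul, map_div₀, conj_ofReal, map_ofNat]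
      · simp only [hR]
        rw [if_neg hy, if_neg (mt (hcj y).1 hy), map_zero]
  have hRbd : Bd σ' σ' (2 * ε) R := by
    intro y hy
    rw [hRy y hy]
    have h1 := le_alg (BS_symm S) (BS_mul S) (hV.eq y hy)
    have h2 : le_R (AS S) (BS S) P V y = -P (y.1, V y) -
        le_q (BS S) (fun a => dh a P (y.1, V y)) (fun a => dh a P (y.1, V y)) / 2 := by
      unfold le_R
      linear_combination h1
    have h3 : ∀ a, ‖dh a P (y.1, V y)‖ ≤ ε / (σ - σ / 2) := fun a =>
      hbd.cdh hP (by linarith) a _ (hmem y hy)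
    have h4 := le_q_bd hB h3 hM0.le
    have h5 : ‖P (y.1, V y)‖ ≤ ε := hbd _ (hmem' y hy)
    have h6 : (n : ℝ) ^ 2 * (M * (ε / (σ - σ / 2)) ^ 2) ≤ 2 * ε := by
      have e1 : σ - σ / 2 = σ / 2 := by ring
      rw [e1]
      rw [le_div_iff₀ (by positivity)] at hε3
      have e2 : (n : ℝ) ^ 2 * (M * (ε / (σ / 2)) ^ 2) = 4 * n ^ 2 * M * ε ^ 2 / σ ^ 2 := by
        field_simp
        ring
      rw [e2, div_le_iff₀ (by positivity)]
      have e3 : ε * (2 * (n : ℝ) ^ 2 * M) ≤ ε * (2 * (n + 1) ^ 2 * M) := by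
        have : (n : ℝ) ^ 2 ≤ (n + 1) ^ 2 := by nlinarith
        gcongr
      nlinarith [mul_le_mul_of_nonneg_left (e3.trans hε3) hε]
    rw [h2]
    calc ‖-P (y.1, V y) -
          le_q (BS S) (fun a => dh a P (y.1, V y)) (fun a => dh a P (y.1, V y)) / 2‖
        ≤ ‖-P (y.1, V y)‖ +
          ‖le_q (BS S) (fun a => dh a P (y.1, V y)) (fun a => dh a P (y.1, V y)) / 2‖ :=
          norm_sub_le _ _
      _ ≤ ε + 2 * ε / 2 := by
          rw [norm_neg, norm_div, Complex.norm_ofNat]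
          gcongr
          exact h4.trans h6
      _ = 2 * ε := by ring
  have hder : ∀ y ∈ Om n σ' σ', ∀ w : CE n, fderiv ℂ R y w =
      ∑ a, w.2 a * (V y a - ∑ b, (BS S a b : ℂ) * y.2 b) - ∑ i, w.1 i * dz i P (y.1, V y) := by
    intro y hy w
    have h1 : R =ᶠ[nhds y] le_R (AS S) (BS S) P V :=
      Filter.eventuallyEq_of_mem (hopen.mem_nhds hy) fun z hz => hRy z hz
    rw [h1.fderiv_eq]
    exact le_der (AS_symm S) (BS_symm S) (hVd y hy) (hPd y hy) (hV.eq y hy) w
  have hdh : ∀ y ∈ Om n σ' σ', ∀ a, dh a R y = V y a - ∑ b, (BS S a b : ℂ) * y.2 b := by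
    intro y hy a
    change fderiv ℂ R y (eh a) = _
    rw [hder y hy]
    simp [eh, Pi.single_apply]
  have hdz : ∀ y ∈ Om n σ' σ', ∀ i, dz i R y = -dz i P (y.1, V y) := by
    intro y hy i
    change fderiv ℂ R y (ez i) = _
    rw [hder y hy]
    simp [ez, Pi.single_apply]
  -- real points
  have hcp : ∀ (t : ℝ) (x p : Vec n), cp t x p ∈ Om n σ' σ' := fun t x p =>
    rp_mem hσ'0 hσ'0 _ _
  have hVr : ∀ (x v : Vec n) (t : ℝ), V (cp t x (pm S P x v t)) = fun a => ((v a : ℝ) : ℂ) := by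
    intro x v t
    refine (hV.uniq _ (hcp t x _) (fun a => ((v a : ℝ) : ℂ)) (fun a => ?_) fun a => ?_).symm
    · rw [ofReal_im, abs_zero]
      linarith
    · have e1 : (((cp t x (pm S P x v t)).1, fun a => ((v a : ℝ) : ℂ)) : CE n) = cp t x v := rfl
      have e2 : (cp t x (pm S P x v t)).2 a =
          ((∑ b, AS S a b * v b + (dh a P (cp t x v)).re : ℝ) : ℂ) := rfl
      have e3 : (((dh a P (cp t x v)).re : ℝ) : ℂ) = dh a P (cp t x v) := by
        refine Complex.ext (ofReal_re _) ?_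
        rw [ofReal_im]
        exact ((hP.dh a).im_rp _ _).symm
      rw [e1, e2, ofReal_add, e3, ofReal_sum]
      congr 1
      exact Finset.sum_congr rfl fun b _ => (ofReal_mul _ _).symm
  refine ⟨R, ⟨AS_symm S, BS_mul S, mul_BS S, hM, hA, hB, hσ'0, hσ'1, hRfn,
    hRbd.mono le_rfl le_rfl (by linarith)⟩, hRbd, ?_, ?_, ?_, ?_⟩
  · intro x v t
    ext a
    change ∑ b, BS S a b * (pm S P x v t) b + (dh a R (cp t x (pm S P x v t))).re = v a
    rw [hdh _ (hcp t x _), hVr]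
    have e1 : ∑ b, (BS S a b : ℂ) * (cp t x (pm S P x v t)).2 b =
        ((∑ b, BS S a b * (pm S P x v t) b : ℝ) : ℂ) := by
      rw [ofReal_sum]
      exact Finset.sum_congr rfl fun b _ => (ofReal_mul _ _).symm
    rw [e1, sub_re, ofReal_re, ofReal_re]
    ring
  · intro x v t
    unfold Hr
    rw [hRy _ (hcp t x _)]
    unfold le_R
    rw [hVr]
    have e1 : (((cp t x (pm S P x v t)).1, fun a => ((v a : ℝ) : ℂ)) : CE n) = cp t x v := rfl
    have e2 : ∑ a, (cp t x (pm S P x v t)).2 a * ((v a : ℝ) : ℂ) =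
        ((∑ a, (pm S P x v t) a * v a : ℝ) : ℂ) := by
      rw [ofReal_sum]
      exact Finset.sum_congr rfl fun b _ => (ofReal_mul _ _).symm
    have e3 : ∀ (C : Matrix (Fin n) (Fin n) ℝ) (p : Vec n),
        le_q C (fun a => ((p a : ℝ) : ℂ)) (fun a => ((p a : ℝ) : ℂ)) =
          ((∑ a, ∑ b, C a b * p a * p b : ℝ) : ℂ) := by
      intro C p
      unfold le_q
      simp only [ofReal_sum, ofReal_mul]
    have e4 : le_q (BS S) (cp t x (pm S P x v t)).2 (cp t x (pm S P x v t)).2 =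
        ((∑ a, ∑ b, BS S a b * (pm S P x v t) a * (pm S P x v t) b : ℝ) : ℂ) := e3 _ _
    have e5 : ‖S v‖ ^ 2 = ∑ a, ∑ b, AS S a b * v a * v b := by
      rw [← AS_inner, real_inner_self_eq_norm_sq]
    have e6 : ⟪pm S P x v t, v⟫ = ∑ a, (pm S P x v t) a * v a := by
      rw [PiLp.inner_apply]
      exact Finset.sum_congr rfl fun a _ => mul_comm _ _
    rw [e1, e2, e3, e4, e5, e6]
    simp only [sub_re, div_ofNat_re, ofReal_re]
    ring
  · intro x v t a
    change (dz a.succ R (cp t x (pm S P x v t))).re = _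
    rw [hdz _ (hcp t x _), hVr, neg_re]
    rfl
  · intro x p t
    have h1 := hVcj (cp t x p) (hcp t x p)
    have h2 : cj (cp t x p) = cp t x p := cj_rp _ _
    rw [h2] at h1
    have h3 : ∀ a, ((V (cp t x p) a).re : ℂ) = V (cp t x p) a := fun a =>
      conj_eq_iff_re.1 (congrFun h1 a).symm
    refine ⟨WithLp.toLp 2 fun a => (V (cp t x p) a).re, ?_⟩
    ext a
    change ∑ b, AS S a b * (V (cp t x p) b).re +
      (dh a P (cp t x (WithLp.toLp 2 fun a => (V (cp t x p) a).re))).re = p a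
    have e1 : cp t x (WithLp.toLp 2 fun a => (V (cp t x p) a).re) =
        ((cp t x p).1, V (cp t x p)) := by
      refine Prod.ext rfl (funext fun a => ?_)
      exact h3 a
    have h4 := congrArg re (hV.eq (cp t x p) (hcp t x p) a)
    rw [add_re, re_sum] at h4
    rw [e1]
    have e2 : ((cp t x p).2 a).re = p a := ofReal_re _
    rw [e2] at h4
    rw [← h4]
    congr 1
    exact Finset.sum_congr rfl fun b _ => (re_ofReal_mul _ _).symm

end Pool.Agent.LRig
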