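import Pool.Agent.LRig.VP

/-!
# LR (MP_74f563_an, all n), file VQ: the upper bound of `α`

PROOF of `alpha_le`.  Let `F z = L z.1 z.2.1 z.2.2 - ⟪c, z.2.1⟫ ≥ -C₁` (`low_bdd`), and `μ` an
invariant
probability measure with `F` integrable; we show `∫ F dμ ≥ -α`; then `-sInf ≤ α` since the set of
actions is not empty (`act_mem'` for a closed orbit, e.g. `exists_orbit` with `T = 1`, `l = 0`).
Key estimate: there is `C'` with `∫_0^k F (φ s z) ds ≥ -α (k + 2) - C'` (if `α < 0` write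
`-|α|`-terms into `C'`) for all natural `k ≥ 1` and all `z`: `z = (proj x, v, t)`, let `γ` be the
solution with
`γ t = x`, `γ' t = v` (`IsELFlow.orbit`), so the integral is `∫_t^{t+k} (lf L γ γ' - ⟪c, γ'⟫)`. 
Close the
curve: let `l` be an integer vector with `‖γ t + zv l - γ (t + k)‖ ≤ √n + 1` (round the
coordinates) and
add on `[t + k, t + k + 1]` the line from `γ (t + k)` to `γ t + zv l` with velocity `w`,
`‖w‖ ≤ √n + 1` (`VCv.glue`, `VCv.line`, `el_vcv`); by `Clo L c α` for the closed curve of duration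
`k + 1`: `∫_t^{t+k} (..) + ∫_{t+k}^{t+k+1} (lf L - ⟪c, w⟫) + α (k + 1) ≥ 0`, and the second
integral is at
most `C'' = ‖S‖² (√n+1)²/2 + m + ‖c‖ (√n + 1)` (`lf_le`).  So
`∫_0^k F (φ s z) ds ≥ -α (k+1) - C''`.
Integrate over `μ` (Fubini as in `action_ge` of `Pool.Agent.MechAlpha.Upper` and `act_ge'` of
`Pool.Agent.NOne.BrGe`; invariance: `∫ F (φ s z) dμ = ∫ F dμ`): `k ∫ F dμ ≥ -α (k+1) - C''`; divide
by
`k → ∞`.
-/

set_option autoImplicit false

namespace Pool.Agent.LRig

open Set MeasureTheory Pool.Agent.MechAlpha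
open scoped RealInnerProductSpace ContDiff

variable {n : ℕ} {S : Vec n ≃L[ℝ] Vec n} {a m : ℝ} {P : Vec n × Vec n × ℝ → ℝ}
  {L : Torus n → Vec n → UnitAddCircle → ℝ} {φ : ℝ → Phase n → Phase n}

private theorem vq_surj (q : Torus n) : ∃ x : Vec n, proj x = q := by
  choose f hf using fun i => QuotientAddGroup.mk_surjective (q i)
  exact ⟨WithLp.toLp 2 f, funext hf⟩

/-- the lower bound along the orbits -/
private theorem vq_key (hN : NF S a m P L) (hφ : IsELFlow L φ) {c : Vec n} {α : ℝ}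
    (h : Clo L c α) : ∃ C : ℝ, ∀ (k : ℕ) (z : Phase n), -(α * (k + 1)) - C ≤
      ∫ s in (0 : ℝ)..k, (L (φ s z).1 (φ s z).2.1 (φ s z).2.2 - ⟪c, (φ s z).2.1⟫) := by
  obtain ⟨C0, hC0, hlat⟩ := exists_lattice' (ContinuousLinearEquiv.refl ℝ (Vec n))
  refine ⟨‖(S : Vec n →L[ℝ] Vec n)‖ ^ 2 * C0 ^ 2 / 2 + m + ‖c‖ * C0, fun k z => ?_⟩
  obtain ⟨q, v, τ⟩ := z
  obtain ⟨x, rfl⟩ := vq_surj q
  obtain ⟨t, rfl⟩ := QuotientAddGroup.mk_surjective τ
  obtain ⟨γ, hγ, hx, hv, hfl⟩ := hφ.orbit x v t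
  have hk0 : (0 : ℝ) ≤ k := Nat.cast_nonneg k
  set G : ℝ → ℝ := fun r => lf L (γ r) (deriv γ r) r - ⟪c, deriv γ r⟫ with hG
  have e1 : (∫ s in (0 : ℝ)..k, (L (φ s (proj x, v, (t : UnitAddCircle))).1
        (φ s (proj x, v, (t : UnitAddCircle))).2.1 (φ s (proj x, v, (t : UnitAddCircle))).2.2 -
      ⟪c, (φ s (proj x, v, (t : UnitAddCircle))).2.1⟫)) = ∫ r in t..(t + k), G r := by
    have h1 : ∀ s : ℝ, (L (φ s (proj x, v, (t : UnitAddCircle))).1
        (φ s (proj x, v, (t : UnitAddCircle))).2.1 (φ s (proj x, v, (t : UnitAddCircle))).2.2 -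
      ⟪c, (φ s (proj x, v, (t : UnitAddCircle))).2.1⟫) = G (t + s) := by
      intro s
      rw [hfl s]
      rfl
    rw [intervalIntegral.integral_congr (g := fun s => G (t + s)) (fun s _ => h1 s),
      intervalIntegral.integral_comp_add_left (fun u => G u) t, add_zero]
  change _ ≤ (∫ s in (0 : ℝ)..k, (L (φ s (proj x, v, (t : UnitAddCircle))).1
        (φ s (proj x, v, (t : UnitAddCircle))).2.1 (φ s (proj x, v, (t : UnitAddCircle))).2.2 -
      ⟪c, (φ s (proj x, v, (t : UnitAddCircle))).2.1⟫))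
  rw [e1]
  obtain ⟨l, hl⟩ := hlat (γ (t + k) - γ t)
  set w : Vec n := γ t + zv l - γ (t + k) with hw
  have hwn : ‖w‖ ≤ C0 := by
    have e : w = iv (ContinuousLinearEquiv.refl ℝ (Vec n)) l - (γ (t + k) - γ t) := by
      show γ t + zv l - γ (t + k) = zv l - (γ (t + k) - γ t)
      abel
    rw [e]
    exact hl
  have hz1 : VCv γ (deriv γ) t (t + k) := el_vcv hN hγ (by linarith)
  have hz2 : VCv (fun r => γ (t + k) + (r - (t + k)) • w) (fun _ => w) (t + k) (t + k + 1) :=
    VCv.line _ _ (by linarith)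
  have hz := hz1.glue hz2 (by rw [sub_self, zero_smul, add_zero])
  set Z : ℝ → Vec n := fun r => if r ≤ t + k then γ r else γ (t + k) + (r - (t + k)) • w with hZ
  set U : ℝ → Vec n := fun r => if r ≤ t + k then deriv γ r else w with hU
  have e2 : t + (k + 1 : ℕ) = t + k + 1 := by
    push_cast
    ring
  have h1 := h Z U t (k + 1) l (Nat.succ_pos k) (by rw [e2]; exact hz) (by
    rw [e2]
    have e3 : Z (t + k + 1) = γ (t + k) + (t + k + 1 - (t + k)) • w :=
      if_neg (by linarith)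
    have e4 : Z t = γ t := if_pos (by linarith)
    rw [e3, e4, add_sub_cancel_left, one_smul, hw]
    abel)
  rw [e2] at h1
  have hint : IntervalIntegrable (fun r => lf L (Z r) (U r) r - ⟪c, U r⟫) volume t (t + k + 1) := by
    have i1 := act_int hN hz
    have i2 := hz.integrable
    exact i1.sub ⟨i2.1.const_inner c, i2.2.const_inner c⟩
  have hs1 : uIcc t (t + k) ⊆ uIcc t (t + k + 1) := by
    rw [uIcc_of_le (by linarith), uIcc_of_le (by linarith)]
    exact Icc_subset_Icc le_rfl (by linarith)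
  have hs2 : uIcc (t + k) (t + k + 1) ⊆ uIcc t (t + k + 1) := by
    rw [uIcc_of_le (by linarith), uIcc_of_le (by linarith)]
    exact Icc_subset_Icc (by linarith) le_rfl
  have hi1 := hint.mono_set hs1
  have hi2 := hint.mono_set hs2
  rw [← intervalIntegral.integral_add_adjacent_intervals hi1 hi2] at h1
  have e5 : ∫ r in t..(t + k), (lf L (Z r) (U r) r - ⟪c, U r⟫) = ∫ r in t..(t + k), G r := by
    refine intervalIntegral.integral_congr fun r hr => ?_
    rw [uIcc_of_le (by linarith)] at hr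
    have e6 : Z r = γ r := if_pos hr.2
    have e7 : U r = deriv γ r := if_pos hr.2
    show lf L (Z r) (U r) r - ⟪c, U r⟫ = G r
    rw [e6, e7]
  have e8 : ∫ r in (t + k)..(t + k + 1), (lf L (Z r) (U r) r - ⟪c, U r⟫) ≤
      ‖(S : Vec n →L[ℝ] Vec n)‖ ^ 2 * C0 ^ 2 / 2 + m + ‖c‖ * C0 := by
    have h3 : ∫ r in (t + k)..(t + k + 1), (lf L (Z r) (U r) r - ⟪c, U r⟫) ≤
        ∫ _ in (t + k)..(t + k + 1),
          (‖(S : Vec n →L[ℝ] Vec n)‖ ^ 2 * C0 ^ 2 / 2 + m + ‖c‖ * C0) := by
      rw [intervalIntegral.integral_of_le (by linarith),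
        intervalIntegral.integral_of_le (by linarith)]
      refine setIntegral_mono_on hi2.1 (by simp) measurableSet_Ioc fun r hr => ?_
      have e7 : U r = w := if_neg (not_le.2 hr.1)
      rw [e7]
      have h4 := lf_le hN (Z r) w r
      have h5 : ‖w‖ ^ 2 ≤ C0 ^ 2 := pow_le_pow_left₀ (norm_nonneg _) hwn 2
      have h6 : ‖(S : Vec n →L[ℝ] Vec n)‖ ^ 2 * ‖w‖ ^ 2 ≤
          ‖(S : Vec n →L[ℝ] Vec n)‖ ^ 2 * C0 ^ 2 := mul_le_mul_of_nonneg_left h5 (by positivity)
      have h7 := (abs_le.1 (abs_real_inner_le_norm c w)).1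
      have h8 : ‖c‖ * ‖w‖ ≤ ‖c‖ * C0 := mul_le_mul_of_nonneg_left hwn (norm_nonneg _)
      linarith
    rw [intervalIntegral.integral_const, add_sub_cancel_left, one_smul] at h3
    exact h3
  rw [e5] at h1
  push_cast at h1
  linarith

theorem alpha_le_of_clo (hN : NF S a m P L) (hφ : IsELFlow L φ) {c : Vec n} {α : ℝ}
    (h : Clo L c α) : alpha L φ c ≤ α := by
  have hne : (actions L φ c).Nonempty := by
    obtain ⟨γ, hγ, hp, -⟩ := exists_orbit hN hφ 0 (T := 1) one_pos (0 : Fin n → ℤ)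
    exact ⟨_, act_mem' hN hφ hγ one_pos hp c 0⟩
  unfold alpha
  rw [neg_le]
  refine le_csInf hne fun r hr => ?_
  obtain ⟨C, key⟩ := vq_key hN hφ h
  obtain ⟨μ, ⟨hμ, hinv⟩, hint, rfl⟩ := hr
  set F : Phase n → ℝ := fun z => L z.1 z.2.1 z.2.2 - ⟪c, z.2.1⟫ with hF
  have hFc : Continuous F := by
    have h2 : Continuous fun z : Phase n => z.2.1 := continuous_fst.comp continuous_snd
    exact (L_cont hN).sub (continuous_const.inner h2)
  have hφc : ∀ s, Continuous (φ s) := fun s => by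
    have := hφ.cont.comp (Continuous.prodMk_right (X := ℝ) (Y := Phase n) s)
    exact this
  -- Fubini
  have main : ∀ k : ℕ, -(α * (k + 1)) - C ≤ k * ∫ z, F z ∂μ := by
    intro k
    have hτ : (0 : ℝ) ≤ k := Nat.cast_nonneg k
    have hmeas : ∀ s, MeasurePreserving (φ s) μ μ := fun s => ⟨(hφc s).measurable, hinv s⟩
    have hints : ∀ s, Integrable (fun z => F (φ s z)) μ := fun s =>
      (hmeas s).integrable_comp_of_integrable hint
    have hjoint : Continuous (Function.uncurry fun (s : ℝ) (z : Phase n) => F (φ s z)) :=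
      hFc.comp hφ.cont
    have hprod : Integrable (Function.uncurry fun (s : ℝ) (z : Phase n) => F (φ s z))
        ((volume.restrict (Ioc (0 : ℝ) k)).prod μ) := by
      rw [integrable_prod_iff hjoint.aestronglyMeasurable]
      refine ⟨Filter.Eventually.of_forall fun s => hints s, ?_⟩
      have h1 : ∀ s : ℝ, ∫ z, ‖F (φ s z)‖ ∂μ = ∫ z, ‖F z‖ ∂μ := by
        intro s
        have h2 := integral_map (hmeas s).aemeasurable
          (f := fun z => ‖F z‖) (μ := μ) (hFc.norm.aestronglyMeasurable)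
        rw [hinv s] at h2
        exact h2.symm
      have h2 : (fun s : ℝ => ∫ z, ‖F (φ s z)‖ ∂μ) = fun _ => ∫ z, ‖F z‖ ∂μ := funext h1
      show Integrable (fun s : ℝ => ∫ z, ‖F (φ s z)‖ ∂μ) _
      rw [h2]
      exact integrable_const _
    have hswap := integral_integral_swap
      (μ := volume.restrict (Ioc (0 : ℝ) k)) (ν := μ) hprod
    have h1 : ∀ s : ℝ, ∫ z, F (φ s z) ∂μ = ∫ z, F z ∂μ := by
      intro s
      have h2 := integral_map (hmeas s).aemeasurable (f := F) (μ := μ) hFc.aestronglyMeasurable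
      rw [hinv s] at h2
      exact h2.symm
    have h2 : ∫ s in Ioc (0 : ℝ) k, ∫ z, F (φ s z) ∂μ = k * ∫ z, F z ∂μ := by
      simp only [h1]
      rw [setIntegral_const]
      simp
    rw [← h2, hswap]
    have h3 : ∫ z, (-(α * (k + 1)) - C) ∂μ = -(α * (k + 1)) - C := by
      rw [integral_const]
      simp
    rw [← h3]
    refine integral_mono (integrable_const _) hprod.integral_prod_right fun z => ?_
    have h4 := key k z
    rw [intervalIntegral.integral_of_le hτ] at h4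
    exact h4
  -- the limit
  by_contra hcon
  push Not at hcon
  set r : ℝ := ∫ z, F z ∂μ with hr
  have hd : 0 < -α - r := by
    have : r < -α := hcon
    linarith
  obtain ⟨k, hk⟩ := exists_nat_gt (|α + C| / (-α - r))
  rw [div_lt_iff₀ hd] at hk
  have h1 := main k
  have h2 := le_abs_self (α + C)
  nlinarith

end Pool.Agent.LRig
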