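import Pool.Agent.LRig.ZD
import Pool.Agent.LRig.LE
import Pool.Agent.LRig.JD
import Pool.Agent.LRig.JF
import Pool.Agent.LRig.VQ

/-!
# LR (MP_74f563_an, all n): the local theorem
-/

set_option autoImplicit false

namespace Pool.Agent.LRig

open Set MeasureTheory Pool.Agent.MechAlpha Pool.Agent.NOne
open scoped RealInnerProductSpace ContDiff

variable {n : ℕ}

theorem Ctx.monoM {A B : Matrix (Fin n) (Fin n) ℝ} {M M' σ : ℝ} {R : CE n → ℂ}
    (h : Ctx A B M σ R) (hM : M ≤ M') : Ctx A B M' σ R :=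
  ⟨h.symm, h.inv, h.inv', h.M_ge.trans hM, fun i j => (h.A_le i j).trans hM,
    fun i j => (h.B_le i j).trans hM, h.σ_pos, h.σ_le, h.R_fn, h.R_bd⟩

theorem local_main (n : ℕ) (S : Vec n ≃L[ℝ] Vec n) {σ : ℝ} (hσ : 0 < σ) :
    ∃ ε : ℝ, 0 < ε ∧ ∀ (L : Torus n → Vec n → UnitAddCircle → ℝ) (φ : ℝ → Phase n → Phase n),
      NearFlat S σ ε L → IsELFlow L φ → StrictConvexOn ℝ univ (alpha L φ) →
        CompletelyIntegrable L φ := by
  obtain ⟨M, σ', ε₀, hM, hσ', hσ1, hε₀, hleg⟩ := exists_leg S hσ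
  obtain ⟨a, ha, ha1, hlow⟩ := low_S S
  obtain ⟨C₁, hC₁, hNF⟩ := exists_NF n
  have hM' : M ≤ (n + 1) * M := by
    have : (0 : ℝ) ≤ n := Nat.cast_nonneg n
    nlinarith
  obtain ⟨C₀, p₀, hC₀, hres⟩ := res_ok n ((n + 1) * M) σ' (a / 4)
    (‖(S : Vec n →L[ℝ] Vec n)‖ ^ 2 + 1) (by positivity)
  obtain ⟨r₁, hr₁, hseq⟩ := exists_seq n ((n + 1) * M) σ' C₀ p₀ (hM.trans hM') hσ' hσ1
  set G : ℝ := C₁ * (1 + 1 / σ + 1 / σ ^ 2) with hG
  have hG0 : 0 < G := by positivity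
  refine ⟨min ε₀ (min (r₁ / 2) (a / 64 / G)), by positivity, ?_⟩
  intro L φ hL hφ hα
  set ε : ℝ := min ε₀ (min (r₁ / 2) (a / 64 / G)) with hε
  have hε0 : 0 < ε := by positivity
  have he1 : ε ≤ ε₀ := min_le_left _ _
  have he2 : 2 * ε ≤ r₁ := by
    have : ε ≤ r₁ / 2 := (min_le_right _ _).trans (min_le_left _ _)
    linarith
  have he3 : G * ε ≤ a / 64 := by
    have : ε ≤ a / 64 / G := (min_le_right _ _).trans (min_le_right _ _)
    rw [le_div_iff₀ hG0] at this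
    linarith
  obtain ⟨P, hP, hPb, hPl⟩ := exists_P hσ hL
  obtain ⟨R, hc, hRb, hl⟩ := hleg hε0.le he1 hP hPb
  have hN : NF S a (a / 64) (Pr P) L :=
    hNF hσ hP hPb hPl ha ha1 hlow (by positivity) (by linarith) he3
  have hw := wei hσ hP hN hl
  have hc' : Ctx (AS S) (BS S) ((n + 1) * M) σ' R := hc.monoM hM'
  have hok : ResOK (AS S) (BS S) ((n + 1) * M) σ' R C₀ p₀ :=
    hres hc' (lf_cont hN) (fun c => clo_alpha hN hφ c) (fun c α h => alpha_le_of_clo hN hφ h)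
      hα hw
  obtain ⟨U, V, d, e, hs⟩ := hseq hc' (fun y hy => (hRb y hy).trans he2) hok
  obtain ⟨X, Q, hf⟩ := exists_family hc' hs
  refine ci_of_fam hσ hP hN hl hc hφ ?_ ?_ hf
  · have : (0 : ℝ) < M := by linarith
    unfold b0
    positivity
  · have h1 : (0 : ℝ) < M := by linarith
    have h2 : (0 : ℝ) ≤ n := Nat.cast_nonneg n
    have h3 : 4 * ((n : ℝ) + 1) * M * (n ^ 2 * b0 n ((n + 1) * M) σ') =
        n ^ 2 / (n + 1) ^ 2 * (σ' / 16) := by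
      unfold b0
      field_simp
      ring
    rw [h3]
    have h4 : (n : ℝ) ^ 2 / (n + 1) ^ 2 ≤ 1 := by
      rw [div_le_one (by positivity)]
      nlinarith
    have h5 : 0 ≤ (n : ℝ) ^ 2 / (n + 1) ^ 2 := by positivity
    nlinarith

end Pool.Agent.LRig
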