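import Pool.Agent.LRig.IB
import Pool.Agent.LRig.FE

/-!
# LR (MP_74f563_an, all n), file NA: bounds of `H` and `K`

All bounds of the Newton step have the form `C N^p (...)` with `N ≥ 1/σ, 1/δ, 1/s` (`Big`), `C` and
`p`
depend only on `n` and `M`.

PROOF of `bd_HK`.  Let `Z = ZZ`, `‖Z‖ ≤ ζ` on `Om n δ s`, `e = ε + ζ`.
(1) `‖dz a.succ Z‖ ≤ 4 ζ/δ` on `Om (3δ/4) s` (`Bd.cdz`), so by `DD_HH`,
`‖dz a.succ (Qf c)‖ ≤ b ≤ 1`,
`‖dz a.succ (Xf c)‖ ≤ 1 + b ≤ 2`: `‖D H_a‖ ≤ 3 n ε + 4 ζ/δ ≤ C N e` on `Om (3δ/4) s`.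
(2) `div_DD` (file FE) for `H_a` on `Om (3δ/4) s` with `r' = δ/4`, `r = s/2`:
`‖H_a - avg H_a‖ ≤ C N e/((s/2) (δ/4)^{n+1}) ≤ C' N^{n+3} e` on `Om (δ/2) (s/2)` (`δ ≤ 1/8`,
`s ≤ 1/8`).
(3) `avg (D K_a) = 0` (`avg_DD`) and `DD_KK`: `avg H_a = avg (∑ dh a Q_c E1 c - ∑ dh a X_c E2 c) +
avg (dh a Z)`, and `avg (dh a Z) = dh a (avg Z) = 0` (`avg_dh`, `ZZ_avg`; `avg Z` vanishes on a
neighbourhood), so `‖avg H_a‖ ≤ n (M + b) ε + n b ε` on the strip `s`.  Together the bound of `H_a`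
on
`Om (δ/2) (s/2)`.
(4) `‖dh a Z‖ ≤ 2 ζ/s` on `Om δ (s/2)` (`Bd.cdh`), so by `DD_KK` `‖D K_a‖ ≤ C N^{p} e` on
`Om (δ/2) (s/2)`.
(5) `div_DD` for `K_a` on `Om (δ/2) (s/2)` with `r' = δ/4`, `r = s/4`.
-/

set_option autoImplicit false

namespace Pool.Agent.LRig

open Complex Set MeasureTheory

variable {n : ℕ}

/-- `N` is larger than all inverse widths -/
structure Big (σ δ s N : ℝ) : Prop where
  one : 1 ≤ N
  hσ : 1 / σ ≤ N
  hδ : 1 / δ ≤ N
  hs : 1 / s ≤ N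

private theorem na_sum {f g : Fin n → ℂ} {α β : ℝ} (hα : 0 ≤ α) (hf : ∀ c, ‖f c‖ ≤ α)
    (hg : ∀ c, ‖g c‖ ≤ β) : ‖∑ c, f c * g c‖ ≤ n * (α * β) := by
  calc ‖∑ c, f c * g c‖ ≤ ∑ c : Fin n, ‖f c * g c‖ := norm_sum_le _ _
    _ ≤ ∑ _c : Fin n, α * β := Finset.sum_le_sum fun c _ => by
        rw [norm_mul]
        exact mul_le_mul (hf c) (hg c) (norm_nonneg _) hα
    _ = n * (α * β) := by simp

private theorem na_div {X N s δ k : ℝ} (hX : 0 ≤ X) (hk : 0 < k) (hs : 0 < s) (hδ : 0 < δ)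
    (h1 : 1 ≤ N * s) (h2 : 1 ≤ N * δ) :
    X / (s / k * (δ / 4) ^ (n + 1)) ≤ X * (k * 4 ^ (n + 1)) * (N * N ^ (n + 1)) := by
  rw [div_le_iff₀ (by positivity)]
  have h3 : X * (k * 4 ^ (n + 1)) * (N * N ^ (n + 1)) * (s / k * (δ / 4) ^ (n + 1)) =
      X * ((N * s) * (N * δ) ^ (n + 1)) := by
    rw [div_pow, mul_pow]
    field_simp
  rw [h3]
  exact le_mul_of_one_le_right hX (one_le_mul_of_one_le_of_one_le h1 (one_le_pow₀ h2))

variable {A B : Matrix (Fin n) (Fin n) ℝ} {M σ δ s b ε : ℝ} {R w : CE n → ℂ}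
  {u q : Fin n → CE n → ℂ} {y : CE n}

private theorem na_b (hc : Ctx A B M σ R) (hs : St A B M σ R δ s b ε u q) : b ≤ 1 := by
  refine hs.b_le.trans ?_
  unfold b0
  have h1 := hc.M_ge
  have h2 := hc.σ_le
  have h0 : (0 : ℝ) ≤ n := Nat.cast_nonneg n
  have h3 : (1 : ℝ) ≤ ((n : ℝ) + 1) ^ 2 := one_le_pow₀ (by linarith)
  have h4 : (1 : ℝ) ≤ ((n : ℝ) + 1) ^ 2 * M := one_le_mul_of_one_le_of_one_le h3 h1
  have h5 : (1 : ℝ) ≤ 64 * ((n : ℝ) + 1) ^ 2 * M := by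
    rw [mul_assoc]
    linarith
  rw [div_le_one (by linarith)]
  linarith

private theorem na_s (hc : Ctx A B M σ R) (hs : St A B M σ R δ s b ε u q) : s ≤ 1 / 8 := by
  have h1 := hc.M_ge
  have h2 := hc.σ_le
  have h0 : (0 : ℝ) ≤ n := Nat.cast_nonneg n
  have h3 : (1 : ℝ) ≤ ((n : ℝ) + 1) * M := one_le_mul_of_one_le_of_one_le (by linarith) h1
  have h4 := hs.s_le
  have h5 : 1 * s ≤ ((n : ℝ) + 1) * M * s := mul_le_mul_of_nonneg_right h3 hs.s_pos.le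
  linarith

/-- the bounds of the two sums in the equation for `K` -/
private theorem na_S (hc : Ctx A B M σ R) (hs : St A B M σ R δ s b ε u q) (a : Fin n)
    (hy : y ∈ Om n δ s) :
    ‖∑ c, dh a (Qf A q c) y * E1 A B R u q c y - ∑ c, dh a (Xf u c) y * E2 A R u q c y‖ ≤
      n * (M + 2) * ε := by
  have hb := na_b hc hs
  have h1 : ‖∑ c, dh a (Qf A q c) y * E1 A B R u q c y‖ ≤ n * ((M + 1) * ε) := by
    refine na_sum (by linarith [hc.M_ge]) (fun c => ?_) fun c => hs.e1 c y hy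
    rw [dh_Q hs a c hy]
    refine (norm_add_le _ _).trans ?_
    have h2 : ‖((A c a : ℝ) : ℂ)‖ ≤ M := by
      rw [Complex.norm_real]
      exact hc.A_le c a
    have h3 := hs.qh c a y hy
    linarith
  have h2 : ‖∑ c, dh a (Xf u c) y * E2 A R u q c y‖ ≤ n * (1 * ε) := by
    refine na_sum zero_le_one (fun c => ?_) fun c => hs.e2 c y hy
    rw [dh_X hs a c hy]
    exact (hs.uh c a y hy).trans hb
  refine (norm_sub_le _ _).trans ?_
  calc _ ≤ n * ((M + 1) * ε) + n * (1 * ε) := add_le_add h1 h2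
    _ = n * (M + 2) * ε := by ring

private theorem na_DH (hc : Ctx A B M σ R) (hs : St A B M σ R δ s b ε u q) (hw : Fn δ s w)
    {N ζ : ℝ} (hζ : 0 ≤ ζ) (hZ : Bd δ s ζ (ZZ A B R u q w)) (hN : Big σ δ s N) (a : Fin n) :
    Bd (3 * δ / 4) s ((3 * n + 4) * N * (ε + ζ)) (DD (HH A B R u q w a)) := by
  intro y hy
  have hb := na_b hc hs
  have hδ := hs.δ_pos
  have hy' : y ∈ Om n δ s := Om_mono (by linarith) le_rfl hy
  have h1 : ‖∑ c, dz a.succ (Qf A q c) y * E1 A B R u q c y‖ ≤ n * (1 * ε) := by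
    refine na_sum zero_le_one (fun c => ?_) fun c => hs.e1 c y hy'
    rw [dz_Q hs _ c hy']
    exact (hs.qz c _ y hy').trans hb
  have h2 : ‖∑ c, dz a.succ (Xf u c) y * E2 A R u q c y‖ ≤ n * (2 * ε) := by
    refine na_sum zero_le_two (fun c => ?_) fun c => hs.e2 c y hy'
    rw [dz_X hs _ c hy']
    refine (norm_add_le _ _).trans ?_
    have h3 := hs.uz c a.succ y hy'
    have h4 : ‖(if a.succ = c.succ then 1 else 0 : ℂ)‖ ≤ 1 := by
      split_ifs <;> simp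
    linarith
  have h3 : ‖dz a.succ (ZZ A B R u q w) y‖ ≤ 4 * (N * ζ) := by
    refine (Bd.cdz hZ (ZZ_fn hc hs hw) (δ' := 3 * δ / 4) (by linarith) a.succ y hy).trans ?_
    have h4 : ζ / (δ - 3 * δ / 4) = 4 * (1 / δ * ζ) := by
      field_simp
      ring
    rw [h4]
    exact mul_le_mul_of_nonneg_left (mul_le_mul_of_nonneg_right hN.hδ hζ) (by norm_num)
  rw [DD_HH hc hs hw a hy']
  have h4 : (n : ℝ) * ε ≤ n * (N * ε) := by
    refine mul_le_mul_of_nonneg_left ?_ (Nat.cast_nonneg n)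
    exact le_mul_of_one_le_left hs.ε_nonneg hN.one
  have h5 : 0 ≤ (n : ℝ) * (N * ζ) :=
    mul_nonneg (Nat.cast_nonneg n) (mul_nonneg (by linarith [hN.one]) hζ)
  have h6 : 0 ≤ N * ε := mul_nonneg (by linarith [hN.one]) hs.ε_nonneg
  refine (norm_add_le _ _).trans ((add_le_add (norm_sub_le _ _) le_rfl).trans ?_)
  have h7 : (3 * (n : ℝ) + 4) * N * (ε + ζ) =
      3 * (n * (N * ε)) + 3 * (n * (N * ζ)) + 4 * (N * ε) + 4 * (N * ζ) := by ring
  rw [h7]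
  linarith

private theorem na_avgH (hc : Ctx A B M σ R) (hs : St A B M σ R δ s b ε u q) (hw : Fn δ s w)
    (a : Fin n) (hy : y ∈ Om n δ s) : ‖avg (HH A B R u q w a) y‖ ≤ n * (M + 2) * ε := by
  have hδ := hs.δ_pos
  have hS1 : Fn δ s fun y => ∑ c, dh a (Qf A q c) y * E1 A B R u q c y :=
    Fn.sum (S := Finset.univ) (f := fun c y => dh a (Qf A q c) y * E1 A B R u q c y)
      fun c _ => ((Q_fn hs c).dh a).mul (E1_fn hc hs c)
  have hS2 : Fn δ s fun y => ∑ c, dh a (Xf u c) y * E2 A R u q c y :=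
    Fn.sum (S := Finset.univ) (f := fun c y => dh a (Xf u c) y * E2 A R u q c y)
      fun c _ => (dhX_fn hs a c).mul (E2_fn hc hs c)
  have hH := HH_fn hc hs hw a
  have hZ := ZZ_fn hc hs hw
  have h1 := avg_DD (KK_fn hc hs hw a) hδ hy
  rw [avg_congr hδ (fun y hy => DD_KK hc hs hw a hy) hy,
    avg_add ((hS1.sub hS2).sub hH) (hZ.dh a) hδ hy, avg_sub (hS1.sub hS2) hH hδ hy,
    avg_dh hZ hδ a hy, dh_congr (G := fun _ => 0) a hy (fun y hy => ZZ_avg hc hs hw hy),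
    dh_const, add_zero, sub_eq_zero] at h1
  rw [← h1]
  exact avg_bd (F := fun y => ∑ c, dh a (Qf A q c) y * E1 A B R u q c y -
    ∑ c, dh a (Xf u c) y * E2 A R u q c y) (fun y hy => na_S hc hs a hy) hδ δ y hy

theorem bd_HK (n : ℕ) (M : ℝ) : ∃ C : ℝ, ∃ p : ℕ, 1 ≤ C ∧
    ∀ {A B : Matrix (Fin n) (Fin n) ℝ} {σ δ s b ε N ζ : ℝ} {R w : CE n → ℂ}
      {u q : Fin n → CE n → ℂ}, Ctx A B M σ R → St A B M σ R δ s b ε u q → Fn δ s w →
      0 ≤ ζ → Bd δ s ζ (ZZ A B R u q w) → Big σ δ s N → ∀ a : Fin n,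
        Bd (δ / 2) (s / 2) (C * N ^ p * (ε + ζ)) (HH A B R u q w a) ∧
        Bd (δ / 2) (s / 2) (C * N ^ p * (ε + ζ)) (DD (HH A B R u q w a)) ∧
        Bd (δ / 2) (s / 2) (C * N ^ p * (ε + ζ)) (DD (KK A u q w a)) ∧
        Bd (δ / 4) (s / 4) (C * N ^ p * (ε + ζ))
          (fun y => KK A u q w a y - avg (KK A u q w a) y) := by
  by_cases hM : 1 ≤ M
  swap
  · exact ⟨1, 0, le_rfl, fun hc _ _ _ _ _ _ => absurd hc.M_ge hM⟩
  have hn : (0 : ℝ) ≤ n := Nat.cast_nonneg n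
  have hnM : 0 ≤ (n : ℝ) * (M + 2) := mul_nonneg hn (by linarith)
  obtain ⟨Q, hQ⟩ : ∃ Q : ℝ, Q = 4 ^ (n + 1) := ⟨_, rfl⟩
  have hQ1 : 1 ≤ Q := by
    rw [hQ]
    exact one_le_pow₀ (by norm_num)
  obtain ⟨C1, hC1⟩ : ∃ C1 : ℝ, C1 = (3 * n + 4) * (2 * Q) + n * (M + 2) := ⟨_, rfl⟩
  obtain ⟨C2, hC2⟩ : ∃ C2 : ℝ, C2 = n * (M + 2) + C1 + 2 := ⟨_, rfl⟩
  have hc4 : 3 * (n : ℝ) + 4 ≤ (3 * n + 4) * (2 * Q) :=
    le_mul_of_one_le_right (by linarith) (by linarith)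
  have hC10 : 3 * (n : ℝ) + 4 ≤ C1 := by linarith
  have hC20 : C1 ≤ C2 := by linarith
  have hCC : C2 ≤ C2 * (4 * Q) := le_mul_of_one_le_right (by linarith) (by linarith)
  refine ⟨C2 * (4 * Q), 2 * n + 5, by linarith, ?_⟩
  intro A B σ δ s b ε N ζ R w u q hc hs hw hζ hZ hN a
  have hδ := hs.δ_pos
  have hs0 := hs.s_pos
  have hs1 := na_s hc hs
  have hδ1 : δ ≤ 1 / 8 := by linarith [hs.δ_le, hc.σ_le]
  have hε := hs.ε_nonneg
  obtain ⟨e, he⟩ : ∃ e, e = ε + ζ := ⟨_, rfl⟩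
  have he0 : 0 ≤ e := by linarith
  have hN1 := hN.one
  have hN0 : 0 ≤ N := by linarith
  obtain ⟨P, hP⟩ : ∃ P : ℝ, P = N ^ (n + 3) := ⟨_, rfl⟩
  have hNP : N ≤ P := by
    rw [hP]
    exact le_self_pow₀ hN1 (by omega)
  have hP1 : 1 ≤ P := hN1.trans hNP
  have hPp : P * (N * N ^ (n + 1)) = N ^ (2 * n + 5) := by
    rw [hP]
    ring
  have hPP : P ≤ N ^ (2 * n + 5) := by
    rw [hP]
    exact pow_le_pow_right₀ hN1 (by omega)
  have h1s : 1 ≤ N * s := (div_le_iff₀ hs0).1 hN.hs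
  have h1δ : 1 ≤ N * δ := (div_le_iff₀ hδ).1 hN.hδ
  have hfin : ∀ {K X : ℝ}, K ≤ C2 * (4 * Q) → 0 ≤ X → X ≤ N ^ (2 * n + 5) →
      K * X * e ≤ C2 * (4 * Q) * N ^ (2 * n + 5) * e := by
    intro K X hK hX hX1
    exact mul_le_mul_of_nonneg_right (mul_le_mul hK hX1 hX (by linarith)) he0
  rw [← he]
  have hDH := na_DH hc hs hw hζ hZ hN a
  rw [← he] at hDH
  have hHa := HH_fn hc hs hw a
  -- the bound of H
  have hH : Bd (δ / 2) (s / 2) (C1 * P * e) (HH A B R u q w a) := by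
    intro y hy
    have hys : y ∈ Om n δ s := Om_mono (by linarith) (by linarith) hy
    have h1 := div_DD (hHa.mono (δ' := 3 * δ / 4) (by linarith) le_rfl) hDH (r := s / 2)
      (r' := δ / 4) (by linarith) (by linarith) (by linarith) (by linarith) (by linarith)
      (by linarith) y (Om_mono (by linarith) (by linarith) hy)
    have h2 : (3 * n + 4) * N * e / (s / 2 * (δ / 4) ^ (n + 1)) ≤
        (3 * n + 4) * (2 * Q) * P * e := by
      refine (na_div (by positivity) (by norm_num) hs0 hδ h1s h1δ).trans (le_of_eq ?_)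
      rw [hQ, hP]
      ring
    have h3 := na_avgH hc hs hw a hys
    have h4 : n * (M + 2) * ε ≤ n * (M + 2) * P * e := by
      refine mul_le_mul ?_ (by linarith) hε (mul_nonneg hnM (by linarith))
      exact le_mul_of_one_le_right hnM hP1
    have h5 := norm_add_le (HH A B R u q w a y - avg (HH A B R u q w a) y)
      (avg (HH A B R u q w a) y)
    rw [sub_add_cancel] at h5
    have h6 : C1 * P * e = (3 * n + 4) * (2 * Q) * P * e + n * (M + 2) * P * e := by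
      rw [hC1]
      ring
    rw [h6]
    linarith
  -- the bound of D K
  have hDK : Bd (δ / 2) (s / 2) (C2 * P * e) (DD (KK A u q w a)) := by
    intro y hy
    have hys : y ∈ Om n δ s := Om_mono (by linarith) (by linarith) hy
    have h1 : ‖dh a (ZZ A B R u q w) y‖ ≤ 2 * (N * ζ) := by
      refine (Bd.cdh hZ (ZZ_fn hc hs hw) (s' := s / 2) (by linarith) a y
        (Om_mono (by linarith) le_rfl hy)).trans ?_
      have h4 : ζ / (s - s / 2) = 2 * (1 / s * ζ) := by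
        field_simp
        ring
      rw [h4]
      exact mul_le_mul_of_nonneg_left (mul_le_mul_of_nonneg_right hN.hs hζ) (by norm_num)
    have h2 : N * ζ ≤ P * e := mul_le_mul hNP (by linarith) hζ (by linarith)
    have h3 := na_S hc hs a hys
    have h4 : n * (M + 2) * ε ≤ n * (M + 2) * P * e := by
      refine mul_le_mul ?_ (by linarith) hε (mul_nonneg hnM (by linarith))
      exact le_mul_of_one_le_right hnM hP1
    rw [DD_KK hc hs hw a hys]
    refine (norm_add_le _ _).trans ((add_le_add (norm_sub_le _ _) le_rfl).trans ?_)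
    have h5 := hH y hy
    have h6 : C2 * P * e = n * (M + 2) * P * e + C1 * P * e + 2 * (P * e) := by
      rw [hC2]
      ring
    rw [h6]
    linarith
  refine ⟨fun y hy => (hH y hy).trans (hfin (by linarith) (by linarith) hPP), fun y hy => ?_,
    fun y hy => (hDK y hy).trans (hfin hCC (by linarith) hPP), fun y hy => ?_⟩
  · refine (hDH y (Om_mono (by linarith) (by linarith) hy)).trans ?_
    exact hfin (by linarith) hN0 (hNP.trans hPP)
  · have h1 := div_DD ((KK_fn hc hs hw a).mono (δ' := δ / 2) (s' := s / 2) (by linarith)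
      (by linarith)) hDK (r := s / 4)
      (r' := δ / 4) (by linarith) (by linarith) (by linarith) (by linarith) (by linarith)
      (by linarith) y (Om_mono (by linarith) (by linarith) hy)
    refine h1.trans ((na_div ?_ (by norm_num) hs0 hδ h1s h1δ).trans (le_of_eq ?_))
    · exact mul_nonneg (mul_nonneg (by linarith) (by linarith)) he0
    · rw [← hPp, hQ]
      ring

end Pool.Agent.LRig
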