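import Pool.Agent.LRig.NA
import Pool.Agent.LRig.IC

/-!
# LR (MP_74f563_an, all n), file NB: the inverse of the twist, the coefficients of the correction

PROOFS.  Fix `y ∈ Om n δ s`; the matrix `τ = (ta a c y)` is `A + D` with `|D_ac| ≤ b`.  As
`B A = 1`,
`B τ = 1 + B D`; the entries of `B D` are at most `n M b`, its row sums at most
`n² M b ≤ σ/64 ≤ 1/64`.  So `1 + B D` is invertible (injective: from `x = -B D x` follows
`max |x| ≤ max |x| / 64`; or a determinant/Neumann series argument), `τ` is invertible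
(`IsUnit τ.det`), `τ⁻¹ = (1 + B D)⁻¹ B`; with `Y = τ⁻¹`, `Y = B - B D Y`, so
`max |Y| ≤ M + (1/64) max |Y|`: `|ti a c y| ≤ 2 M`.
`ti_Zi`, `ti_fn`: `ti` is a function of the entries of `τ` which are `Zi` and holomorphic; `det` and
the adjugate are polynomials (`Matrix.inv_def`, `Ring.inverse_eq_inv'`), periodic (clear), real:
`(conj τ)⁻¹ = conj (τ⁻¹)` (`Matrix.map` commutes with `⁻¹`, e.g. through `det` and `adjugate`).
`be_fn`, `al_fn`: finite sums of products of functions in `Fn` (`KK_fn`, `avg_fn`, `Sg_fn`).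
`DD_be`: `D (ti · H) = ti · D H` as `D ti = 0` (`Zi.DD`).  `DD_al`: the same, `D (avg ..) = 0`.
`ta_be`: `∑_c ta a c · be c = HH a` (`τ τ⁻¹ = 1`); `ta_DD_be`, `ta_DD_al` are the same for the
derivatives.
`bd_ab`: from `bd_HK`: `‖be‖ ≤ n 2M C N^p e` and `‖D be‖` the same on `Om (δ/2) (s/2)`; with
`‖Sg a c‖ ≤ n · 2 (M + b) b ≤ 1` on `Om δ s` (`dh_Q`, `dh_X`), so `‖avg (Sg a c)‖ ≤ 1` (`avg_bd`);
`‖al‖`, `‖D al‖` on `Om (δ/4) (s/4)`.
-/

set_option autoImplicit false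

namespace Pool.Agent.LRig

open Complex Set MeasureTheory

variable {n : ℕ} {A B : Matrix (Fin n) (Fin n) ℝ} {M σ δ s b ε : ℝ} {R w : CE n → ℂ}
  {u q : Fin n → CE n → ℂ} {y : CE n}

/-! ### Linear algebra -/

/-- the matrix of the twist -/
private noncomputable def tm (A B : Matrix (Fin n) (Fin n) ℝ) (R : CE n → ℂ)
    (u q : Fin n → CE n → ℂ) (y : CE n) : Matrix (Fin n) (Fin n) ℂ :=
  Matrix.of fun c d => ta A B R u q c d y

private theorem ti_eq (a c : Fin n) (y : CE n) :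
    ti A B R u q a c y = (tm A B R u q y)⁻¹ a c := rfl

/-- small perturbations of an invertible matrix -/
private theorem la_core {b' : ℝ} {A' B' D : Matrix (Fin n) (Fin n) ℂ} (hBA : B' * A' = 1)
    (hM : 0 ≤ M) (hb' : 0 ≤ b') (hB : ∀ i j, ‖B' i j‖ ≤ M) (hD : ∀ i j, ‖D i j‖ ≤ b')
    (hsm : (n : ℝ) ^ 2 * M * b' ≤ 1 / 64) (x : Fin n → ℂ) :
    ‖x‖ ≤ ‖B'.mulVec ((A' + D).mulVec x)‖ + 1 / 64 * ‖x‖ := by
  have h1 : x = B'.mulVec ((A' + D).mulVec x) - B'.mulVec (D.mulVec x) := by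
    rw [Matrix.add_mulVec, Matrix.mulVec_add, Matrix.mulVec_mulVec, hBA, Matrix.one_mulVec]
    simp
  have hDx : ∀ i, ‖D.mulVec x i‖ ≤ n * (b' * ‖x‖) := by
    intro i
    refine (norm_sum_le_of_le (f := fun j => D i j * x j) (n := fun _ => b' * ‖x‖)
      Finset.univ fun j _ => ?_).trans (le_of_eq ?_)
    · rw [norm_mul]
      exact mul_le_mul (hD i j) (norm_le_pi_norm x j) (norm_nonneg _) hb'
    · simp
  have hBDx : ‖B'.mulVec (D.mulVec x)‖ ≤ 1 / 64 * ‖x‖ := by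
    rw [pi_norm_le_iff_of_nonneg (by positivity)]
    intro i
    refine (norm_sum_le_of_le (f := fun j => B' i j * D.mulVec x j)
      (n := fun _ => M * (n * (b' * ‖x‖))) Finset.univ fun j _ => ?_).trans ?_
    · rw [norm_mul]
      exact mul_le_mul (hB i j) (hDx j) (norm_nonneg _) hM
    · rw [Finset.sum_const, Finset.card_univ, Fintype.card_fin, nsmul_eq_mul]
      calc (n : ℝ) * (M * (n * (b' * ‖x‖))) = (n : ℝ) ^ 2 * M * b' * ‖x‖ := by ring
        _ ≤ 1 / 64 * ‖x‖ := mul_le_mul_of_nonneg_right hsm (norm_nonneg _)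
  calc ‖x‖ = ‖B'.mulVec ((A' + D).mulVec x) - B'.mulVec (D.mulVec x)‖ := congrArg _ h1
    _ ≤ ‖B'.mulVec ((A' + D).mulVec x)‖ + ‖B'.mulVec (D.mulVec x)‖ := norm_sub_le _ _
    _ ≤ _ := by linarith

private theorem la_unit {b' : ℝ} {A' B' D : Matrix (Fin n) (Fin n) ℂ} (hBA : B' * A' = 1)
    (hM : 0 ≤ M) (hb' : 0 ≤ b') (hB : ∀ i j, ‖B' i j‖ ≤ M) (hD : ∀ i j, ‖D i j‖ ≤ b')
    (hsm : (n : ℝ) ^ 2 * M * b' ≤ 1 / 64) : (A' + D).det ≠ 0 := by
  intro h0
  obtain ⟨v, hv, hv0⟩ := Matrix.exists_mulVec_eq_zero_iff.2 h0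
  have h1 := la_core hBA hM hb' hB hD hsm v
  rw [hv0, Matrix.mulVec_zero, norm_zero] at h1
  have h2 : 0 < ‖v‖ := norm_pos_iff.2 hv
  linarith

private theorem la_bd {b' : ℝ} {A' B' D : Matrix (Fin n) (Fin n) ℂ} (hBA : B' * A' = 1)
    (hM : 0 ≤ M) (hb' : 0 ≤ b') (hB : ∀ i j, ‖B' i j‖ ≤ M) (hD : ∀ i j, ‖D i j‖ ≤ b')
    (hsm : (n : ℝ) ^ 2 * M * b' ≤ 1 / 64) (i j : Fin n) : ‖(A' + D)⁻¹ i j‖ ≤ 2 * M := by
  have hu : IsUnit (A' + D).det := (la_unit hBA hM hb' hB hD hsm).isUnit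
  have h1 : (A' + D).mulVec (fun k => (A' + D)⁻¹ k j) = Pi.single j 1 := by
    have h2 := Matrix.mul_nonsing_inv (A' + D) hu
    ext k
    have h3 := congrFun (congrFun h2 k) j
    rw [Matrix.one_apply] at h3
    rw [Pi.single_apply]
    exact h3
  have h2 := la_core hBA hM hb' hB hD hsm (fun k => (A' + D)⁻¹ k j)
  rw [h1] at h2
  have h3 : ‖B'.mulVec (Pi.single j 1)‖ ≤ M := by
    rw [pi_norm_le_iff_of_nonneg hM]
    intro k
    rw [Matrix.mulVec_single_one]
    exact hB k j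
  have h4 : ‖(A' + D)⁻¹ i j‖ ≤ ‖fun k => (A' + D)⁻¹ k j‖ :=
    norm_le_pi_norm (fun k => (A' + D)⁻¹ k j) i
  linarith

private theorem fn_prod {δ s : ℝ} {ι : Type*} {S : Finset ι} {f : ι → CE n → ℂ}
    (h : ∀ i ∈ S, Fn δ s (f i)) : Fn δ s fun y => ∏ i ∈ S, f i y := by
  classical
  induction S using Finset.induction_on with
  | empty => simpa using fn_const (n := n) (δ := δ) (s := s) 1
  | insert i S hi ih =>
    have h1 := (h i (Finset.mem_insert_self i S)).mul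
      (ih fun j hj => h j (Finset.mem_insert_of_mem hj))
    simpa only [Finset.prod_insert hi] using h1

private theorem fn_det {δ s : ℝ} {m : CE n → Matrix (Fin n) (Fin n) ℂ}
    (h : ∀ i j, Fn δ s fun y => m y i j) : Fn δ s fun y => (m y).det := by
  simp only [Matrix.det_apply']
  refine Fn.sum fun σ _ => ?_
  have h1 : Fn δ s fun _ : CE n => ((Equiv.Perm.sign σ : ℤ) : ℂ) := by
    have h2 := fn_const (n := n) (δ := δ) (s := s) ((Equiv.Perm.sign σ : ℤ) : ℝ)
    simpa using h2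
  exact h1.mul (fn_prod fun i _ => h (σ i) i)

private theorem fn_adj {δ s : ℝ} {m : CE n → Matrix (Fin n) (Fin n) ℂ}
    (h : ∀ i j, Fn δ s fun y => m y i j) (i j : Fin n) : Fn δ s fun y => (m y).adjugate i j := by
  simp only [Matrix.adjugate_apply]
  refine fn_det fun k l => ?_
  by_cases hk : k = j
  · subst hk
    simp only [Matrix.updateRow_self]
    by_cases hl : l = i
    · subst hl
      simpa using fn_const (n := n) (δ := δ) (s := s) 1
    · simpa [Pi.single_eq_of_ne hl] using fn_const (n := n) (δ := δ) (s := s) 0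
  · simp only [Matrix.updateRow_ne hk]
    exact h k l

private theorem small (hc : Ctx A B M σ R) (hs : St A B M σ R δ s b ε u q) :
    (n : ℝ) ^ 2 * M * b ≤ 1 / 64 := by
  have hM : 0 < M := by linarith [hc.M_ge]
  have h1 := hs.b_le
  rw [b0, le_div_iff₀ (by positivity)] at h1
  have h2 : (n : ℝ) ^ 2 ≤ ((n : ℝ) + 1) ^ 2 := by
    have : (0 : ℝ) ≤ n := Nat.cast_nonneg n
    nlinarith
  have h3 : (n : ℝ) ^ 2 * M * b ≤ ((n : ℝ) + 1) ^ 2 * M * b :=
    mul_le_mul_of_nonneg_right (mul_le_mul_of_nonneg_right h2 hM.le) hs.b_nonneg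
  have h4 := hc.σ_le
  linarith

private theorem tm_eq (y : CE n) : tm A B R u q y =
    A.map (algebraMap ℝ ℂ) + Matrix.of fun a c => dh a (gg A B R u q c) y := by
  ext a c
  rfl

private theorem tm_facts (hc : Ctx A B M σ R) (hs : St A B M σ R δ s b ε u q)
    (hy : y ∈ Om n δ s) : (tm A B R u q y).det ≠ 0 ∧
      ∀ a c, ‖(tm A B R u q y)⁻¹ a c‖ ≤ 2 * M := by
  have hM : 0 ≤ M := by linarith [hc.M_ge]
  have hBA : B.map (algebraMap ℝ ℂ) * A.map (algebraMap ℝ ℂ) = 1 := by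
    rw [← Matrix.map_mul, hc.inv, Matrix.map_one _ (map_zero _) (map_one _)]
  have hB : ∀ i j, ‖B.map (algebraMap ℝ ℂ) i j‖ ≤ M := by
    intro i j
    rw [Matrix.map_apply]
    simpa using hc.B_le i j
  have hD : ∀ a c, ‖(Matrix.of fun a c => dh a (gg A B R u q c) y) a c‖ ≤ b := fun a c =>
    hs.tau a c y hy
  rw [tm_eq]
  exact ⟨la_unit hBA hM hs.b_nonneg hB hD (small hc hs),
    la_bd hBA hM hs.b_nonneg hB hD (small hc hs)⟩

theorem ti_Zi (A B : Matrix (Fin n) (Fin n) ℝ) (R : CE n → ℂ) (u q : Fin n → CE n → ℂ)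
    (a c : Fin n) : Zi (ti A B R u q a c) := by
  intro z z' h
  have h1 : (Matrix.of fun c d => ta A B R u q c d (z, h)) =
      Matrix.of fun c d => ta A B R u q c d (z', h) := by
    ext c d
    exact ta_Zi A B R u q c d z z' h
  unfold ti
  rw [h1]

theorem ti_bd (hc : Ctx A B M σ R) (hs : St A B M σ R δ s b ε u q) (a c : Fin n) (δ' : ℝ) :
    Bd δ' s (2 * M) (ti A B R u q a c) :=
  (ti_Zi A B R u q a c).bd (fun _ hy => (tm_facts hc hs hy).2 a c) hs.δ_pos δ'

theorem ti_fn (hc : Ctx A B M σ R) (hs : St A B M σ R δ s b ε u q) (a c : Fin n) (δ' : ℝ) :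
    Fn δ' s (ti A B R u q a c) := by
  refine (ti_Zi A B R u q a c).fn ?_ hs.δ_pos δ'
  have hent : ∀ i j, Fn δ s fun y => tm A B R u q y i j := fun i j => ta_fn hc hs i j δ
  have h1 := ((fn_det hent).inv fun y hy => (tm_facts hc hs hy).1).mul (fn_adj hent a c)
  have h2 : (fun y => ((tm A B R u q y).det)⁻¹ * (tm A B R u q y).adjugate a c) =
      ti A B R u q a c := by
    funext y
    rw [ti_eq, Matrix.inv_def, Ring.inverse_eq_inv', Matrix.smul_apply, smul_eq_mul]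
  rwa [h2] at h1

theorem ta_ti (hc : Ctx A B M σ R) (hs : St A B M σ R δ s b ε u q) (a c : Fin n)
    (hy : y ∈ Om n δ s) :
    ∑ d, ta A B R u q a d y * ti A B R u q d c y = if a = c then 1 else 0 := by
  have h1 := Matrix.mul_nonsing_inv (tm A B R u q y) (tm_facts hc hs hy).1.isUnit
  have h2 := congrFun (congrFun h1 a) c
  rw [Matrix.mul_apply, Matrix.one_apply] at h2
  exact h2

private theorem ta_ti_sum (hc : Ctx A B M σ R) (hs : St A B M σ R δ s b ε u q) (a : Fin n)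
    (hy : y ∈ Om n δ s) (v : Fin n → ℂ) :
    ∑ c, ta A B R u q a c y * ∑ d, ti A B R u q c d y * v d = v a := by
  calc ∑ c, ta A B R u q a c y * ∑ d, ti A B R u q c d y * v d
      = ∑ d, (∑ c, ta A B R u q a c y * ti A B R u q c d y) * v d := by
        simp only [Finset.mul_sum, Finset.sum_mul]
        rw [Finset.sum_comm]
        exact Finset.sum_congr rfl fun d _ => Finset.sum_congr rfl fun c _ => by ring
    _ = v a := by
        simp only [ta_ti hc hs a _ hy]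
        simp

/-! ### The coefficients -/

theorem be_fn (hc : Ctx A B M σ R) (hs : St A B M σ R δ s b ε u q) (hw : Fn δ s w)
    (a : Fin n) : Fn δ s (be A B R u q w a) :=
  Fn.sum fun c _ => (ti_fn hc hs a c δ).mul (HH_fn hc hs hw c)

private theorem in_fn (hc : Ctx A B M σ R) (hs : St A B M σ R δ s b ε u q) (hw : Fn δ s w)
    (c : Fin n) : Fn δ s fun y => KK A u q w c y - avg (KK A u q w c) y +
      ∑ d, avg (Sg A u q c d) y * be A B R u q w d y :=
  ((KK_fn hc hs hw c).sub (avg_fn (KK_fn hc hs hw c) hs.δ_pos δ)).add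
    (Fn.sum fun d _ => (avg_fn (Sg_fn hs c d) hs.δ_pos δ).mul (be_fn hc hs hw d))

theorem al_fn (hc : Ctx A B M σ R) (hs : St A B M σ R δ s b ε u q) (hw : Fn δ s w)
    (a : Fin n) : Fn δ s (al A B R u q w a) :=
  (Fn.sum fun c _ => (ti_fn hc hs a c δ).mul (in_fn hc hs hw c)).neg

theorem DD_be (hc : Ctx A B M σ R) (hs : St A B M σ R δ s b ε u q) (hw : Fn δ s w)
    (a : Fin n) (hy : y ∈ Om n δ s) :
    DD (be A B R u q w a) y = ∑ c, ti A B R u q a c y * DD (HH A B R u q w c) y := by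
  have h1 : DD (be A B R u q w a) y =
      ∑ c, DD (fun y => ti A B R u q a c y * HH A B R u q w c y) y :=
    DD_sum (S := Finset.univ) fun c _ =>
      ((ti_fn hc hs a c δ).mul (HH_fn hc hs hw c)).dat hy
  rw [h1]
  refine Finset.sum_congr rfl fun c _ => ?_
  rw [DD_mul ((ti_fn hc hs a c δ).dat hy) ((HH_fn hc hs hw c).dat hy), (ti_Zi A B R u q a c).DD,
    zero_mul, zero_add]

private theorem DD_in (hc : Ctx A B M σ R) (hs : St A B M σ R δ s b ε u q) (hw : Fn δ s w)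
    (c : Fin n) (hy : y ∈ Om n δ s) :
    DD (fun y => KK A u q w c y - avg (KK A u q w c) y +
      ∑ d, avg (Sg A u q c d) y * be A B R u q w d y) y =
      DD (KK A u q w c) y + ∑ d, avg (Sg A u q c d) y * DD (be A B R u q w d) y := by
  have hK := KK_fn hc hs hw c
  have hKa := avg_fn hK hs.δ_pos δ
  have hd : ∀ d, Fn δ s fun y => avg (Sg A u q c d) y * be A B R u q w d y := fun d =>
    (avg_fn (Sg_fn hs c d) hs.δ_pos δ).mul (be_fn hc hs hw d)
  have hsum : Fn δ s fun y => ∑ d, avg (Sg A u q c d) y * be A B R u q w d y :=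
    Fn.sum fun d _ => hd d
  rw [DD_add ((hK.sub hKa).dat hy) (hsum.dat hy), DD_sub (hK.dat hy) (hKa.dat hy), DD_avg,
    sub_zero, DD_sum (S := Finset.univ) fun d _ => (hd d).dat hy]
  congr 1
  refine Finset.sum_congr rfl fun d _ => ?_
  rw [DD_mul ((avg_fn (Sg_fn hs c d) hs.δ_pos δ).dat hy) ((be_fn hc hs hw d).dat hy), DD_avg,
    zero_mul, zero_add]

theorem DD_al (hc : Ctx A B M σ R) (hs : St A B M σ R δ s b ε u q) (hw : Fn δ s w)
    (a : Fin n) (hy : y ∈ Om n δ s) :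
    DD (al A B R u q w a) y = -∑ c, ti A B R u q a c y * (DD (KK A u q w c) y +
      ∑ d, avg (Sg A u q c d) y * DD (be A B R u q w d) y) := by
  have h0 : DD (al A B R u q w a) y = -DD (fun y => ∑ c, ti A B R u q a c y *
      (KK A u q w c y - avg (KK A u q w c) y +
        ∑ d, avg (Sg A u q c d) y * be A B R u q w d y)) y := DD_neg
  rw [h0, DD_sum (S := Finset.univ) fun c _ =>
    ((ti_fn hc hs a c δ).mul (in_fn hc hs hw c)).dat hy]
  congr 1
  refine Finset.sum_congr rfl fun c _ => ?_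
  rw [DD_mul ((ti_fn hc hs a c δ).dat hy) ((in_fn hc hs hw c).dat hy), (ti_Zi A B R u q a c).DD,
    zero_mul, zero_add, DD_in hc hs hw c hy]

theorem ta_be (hc : Ctx A B M σ R) (hs : St A B M σ R δ s b ε u q) (hw : Fn δ s w)
    (a : Fin n) (hy : y ∈ Om n δ s) :
    ∑ c, ta A B R u q a c y * be A B R u q w c y = HH A B R u q w a y :=
  ta_ti_sum hc hs a hy fun d => HH A B R u q w d y

theorem ta_DD_be (hc : Ctx A B M σ R) (hs : St A B M σ R δ s b ε u q) (hw : Fn δ s w)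
    (a : Fin n) (hy : y ∈ Om n δ s) :
    ∑ c, ta A B R u q a c y * DD (be A B R u q w c) y = DD (HH A B R u q w a) y := by
  simp only [DD_be hc hs hw _ hy]
  exact ta_ti_sum hc hs a hy fun d => DD (HH A B R u q w d) y

theorem ta_DD_al (hc : Ctx A B M σ R) (hs : St A B M σ R δ s b ε u q) (hw : Fn δ s w)
    (a : Fin n) (hy : y ∈ Om n δ s) :
    ∑ c, ta A B R u q a c y * DD (al A B R u q w c) y = -(DD (KK A u q w a) y +
      ∑ d, avg (Sg A u q a d) y * DD (be A B R u q w d) y) := by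
  simp only [DD_al hc hs hw _ hy, mul_neg, Finset.sum_neg_distrib]
  congr 1
  exact ta_ti_sum hc hs a hy fun c => DD (KK A u q w c) y +
      ∑ d, avg (Sg A u q c d) y * DD (be A B R u q w d) y

private theorem Sg_bd (hc : Ctx A B M σ R) (hs : St A B M σ R δ s b ε u q) (a c : Fin n) :
    Bd δ s 1 (Sg A u q a c) := by
  intro y hy
  have hM := hc.M_ge
  have hb0 := hs.b_nonneg
  have hn : (0 : ℝ) ≤ n := Nat.cast_nonneg n
  have h1 := hs.b_le
  rw [b0, le_div_iff₀ (by positivity)] at h1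
  have h2 : b * (64 * ((n : ℝ) + 1) * M) ≤ 1 := by
    have h3 : b * (64 * ((n : ℝ) + 1) * M) ≤ b * (64 * ((n : ℝ) + 1) ^ 2 * M) := by
      refine mul_le_mul_of_nonneg_left (mul_le_mul_of_nonneg_right ?_ (by linarith)) hb0
      nlinarith
    linarith [hc.σ_le]
  have hb1 : b ≤ M := by
    have h3 : b * 1 ≤ b * (64 * ((n : ℝ) + 1) * M) := by
      refine mul_le_mul_of_nonneg_left ?_ hb0
      nlinarith
    linarith
  have hQ : ∀ a d, ‖dh a (Qf A q d) y‖ ≤ 2 * M := by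
    intro a d
    rw [dh_Q hs a d hy]
    have h3 : ‖(A d a : ℂ)‖ ≤ M := by simpa using hc.A_le d a
    have h4 := hs.qh d a y hy
    exact (norm_add_le _ _).trans (by linarith)
  have hX : ∀ a d, ‖dh a (Xf u d) y‖ ≤ b := by
    intro a d
    rw [dh_X hs a d hy]
    exact hs.uh d a y hy
  have h5 : ‖Sg A u q a c y‖ ≤ ∑ _d : Fin n, (2 * M * b + 2 * M * b) := by
    refine norm_sum_le_of_le _ fun d _ => (norm_sub_le _ _).trans (add_le_add ?_ ?_)
    · rw [norm_mul]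
      exact mul_le_mul (hQ a d) (hX c d) (norm_nonneg _) (by linarith)
    · rw [norm_mul]
      exact mul_le_mul (hQ c d) (hX a d) (norm_nonneg _) (by linarith)
  rw [Finset.sum_const, Finset.card_univ, Fintype.card_fin, nsmul_eq_mul] at h5
  refine h5.trans ?_
  have h6 : (n : ℝ) * (2 * M * b + 2 * M * b) ≤ b * (64 * ((n : ℝ) + 1) * M) := by
    have h7 : 0 ≤ b * M := mul_nonneg hb0 (by linarith)
    nlinarith
  linarith

theorem bd_ab (n : ℕ) (M : ℝ) : ∃ C : ℝ, ∃ p : ℕ, 1 ≤ C ∧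
    ∀ {A B : Matrix (Fin n) (Fin n) ℝ} {σ δ s b ε N ζ : ℝ} {R w : CE n → ℂ}
      {u q : Fin n → CE n → ℂ}, Ctx A B M σ R → St A B M σ R δ s b ε u q → Fn δ s w →
      0 ≤ ζ → Bd δ s ζ (ZZ A B R u q w) → Big σ δ s N → ∀ a : Fin n,
        Bd (δ / 4) (s / 4) (C * N ^ p * (ε + ζ)) (be A B R u q w a) ∧
        Bd (δ / 4) (s / 4) (C * N ^ p * (ε + ζ)) (al A B R u q w a) ∧
        Bd (δ / 4) (s / 4) (C * N ^ p * (ε + ζ)) (DD (be A B R u q w a)) ∧
        Bd (δ / 4) (s / 4) (C * N ^ p * (ε + ζ)) (DD (al A B R u q w a)) := by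
  obtain ⟨C, p, hC1, hHK⟩ := bd_HK n M
  have hK0 : 0 ≤ 2 * (n : ℝ) * |M| := by positivity
  refine ⟨C * (1 + 2 * n * |M| * (1 + n * (2 * n * |M|))), p, ?_, ?_⟩
  · have h1 : 0 ≤ 2 * (n : ℝ) * |M| * (1 + n * (2 * n * |M|)) := by positivity
    nlinarith
  intro A B σ δ s b ε N ζ R w u q hc hs hw hζ hZ hN a
  have hH := hHK hc hs hw hζ hZ hN
  have hM1 := hc.M_ge
  have hM0 : 0 ≤ M := by linarith
  have hMabs : |M| = M := abs_of_nonneg hM0
  rw [hMabs] at hK0 ⊢
  have hδ := hs.δ_pos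
  have hs0 := hs.s_pos
  have hn : (0 : ℝ) ≤ n := Nat.cast_nonneg n
  obtain ⟨E, hE⟩ : ∃ E, E = C * N ^ p * (ε + ζ) := ⟨_, rfl⟩
  have hN1 := hN.one
  have hE0 : 0 ≤ E := by
    have h1 := hs.ε_nonneg
    rw [hE]
    have h2 : 0 ≤ N ^ p := pow_nonneg (by linarith) p
    have h3 : 0 ≤ C := by linarith
    positivity
  rw [← hE] at hH
  have hmono : ∀ {F : CE n → ℂ}, Bd (δ / 2) (s / 2) E F → Bd (δ / 4) (s / 4) E F := fun h =>
    h.mono (by linarith) (by linarith) le_rfl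
  have hti : ∀ a c, Bd (δ / 4) (s / 4) (2 * M) (ti A B R u q a c) := fun a c =>
    (ti_bd hc hs a c (δ / 4)).mono le_rfl (by linarith) le_rfl
  have hSg : ∀ a c, Bd (δ / 4) (s / 4) 1 (avg (Sg A u q a c)) := fun a c =>
    (avg_bd (Sg_bd hc hs a c) hδ (δ / 4)).mono le_rfl (by linarith) le_rfl
  -- the bound of a sum of products
  have hbe : ∀ a, Bd (δ / 4) (s / 4) (n * (2 * M * E)) (be A B R u q w a) := fun a =>
    Bd.sum' fun c => (hti a c).mul (hmono (hH c).1) (by linarith)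
  have hDbe : ∀ a, Bd (δ / 4) (s / 4) (n * (2 * M * E)) (DD (be A B R u q w a)) := by
    intro a y hy
    have hy' : y ∈ Om n δ s := Om_mono (by linarith) (by linarith) hy
    rw [DD_be hc hs hw a hy']
    exact (Bd.sum' fun c => (hti a c).mul (hmono (hH c).2.1) (by linarith)) y hy
  have hin : ∀ {k : Fin n → CE n → ℂ} {v : Fin n → CE n → ℂ} (c : Fin n),
      Bd (δ / 4) (s / 4) E (k c) → (∀ d, Bd (δ / 4) (s / 4) (n * (2 * M * E)) (v d)) →
      Bd (δ / 4) (s / 4) (E + n * (1 * (n * (2 * M * E))))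
        fun y => k c y + ∑ d, avg (Sg A u q c d) y * v d y := by
    intro k v c hk hv
    exact hk.add (Bd.sum' fun d => (hSg c d).mul (hv d) zero_le_one)
  have hal : ∀ a, Bd (δ / 4) (s / 4) (n * (2 * M * (E + n * (1 * (n * (2 * M * E))))))
      (al A B R u q w a) := fun a =>
    (Bd.sum' fun c => (hti a c).mul
      (hin (k := fun c y => KK A u q w c y - avg (KK A u q w c) y) c (hH c).2.2.2 hbe)
      (by linarith)).neg
  have hDal : ∀ a, Bd (δ / 4) (s / 4) (n * (2 * M * (E + n * (1 * (n * (2 * M * E))))))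
      (DD (al A B R u q w a)) := by
    intro a y hy
    have hy' : y ∈ Om n δ s := Om_mono (by linarith) (by linarith) hy
    rw [DD_al hc hs hw a hy']
    exact ((Bd.sum' fun c => (hti a c).mul
      (hin (k := fun c => DD (KK A u q w c)) c (hmono (hH c).2.2.1) hDbe)
      (by linarith)).neg) y hy
  have e1 : C * (1 + 2 * n * M * (1 + n * (2 * n * M))) * N ^ p * (ε + ζ) =
      (1 + 2 * n * M * (1 + n * (2 * n * M))) * E := by
    rw [hE]
    ring
  have k1 : (n : ℝ) * (2 * M * E) ≤ (1 + 2 * n * M * (1 + n * (2 * n * M))) * E := by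
    have h1 : 0 ≤ (1 + 2 * n * M * (n * (2 * n * M))) * E := by positivity
    nlinarith
  have k2 : (n : ℝ) * (2 * M * (E + n * (1 * (n * (2 * M * E))))) ≤
      (1 + 2 * n * M * (1 + n * (2 * n * M))) * E := by
    nlinarith
  rw [e1]
  exact ⟨(hbe a).mono le_rfl le_rfl k1, (hal a).mono le_rfl le_rfl k2,
    (hDbe a).mono le_rfl le_rfl k1, (hDal a).mono le_rfl le_rfl k2⟩

end Pool.Agent.LRig
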