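import Pool.Agent.LRig.NB

/-!
# LR (MP_74f563_an, all n), file NC: the residual of the linearised equation

`rs E F = E + ∑ ∂_a F (D al_a - be_a) + ∑ η_a F D be_a` for `(E, F) = (E1 c, X_c)` and
`(E2 c, Q_c)`,
`∂_a = dz a.succ`, `η_a = dh a`, `D = DD`.

PROOF of `om_th`.  With `Ω(ξ, η) = ∑ (ξ_Q,c η_X,c - ξ_X,c η_Q,c)` the left-hand side is
`Ω(Ψ_θa, r) = [∑ ∂_a Q_c E1 c - ∂_a X_c E2 c] + ∑_b Th_ab (D al - be)_b - ∑_b TT_ba D be_b`
(expand, exchange
the sums over `b`, `c`; definitions of `Th`, `TT`), the bracket is `D H_a - ∂_a Z` (`DD_HH`), and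
`D H_a = ∑_b ta_ab D be_b = ∑_b ta_ba D be_b` (`ta_DD_be`, `ta_symm`).
PROOF of `om_h`. 
`Ω(Ψ_ha, r) = [∑ η_a Q_c E1 c - η_a X_c E2 c] + ∑_b TT_ab (D al - be)_b + ∑_b Sg_ab D be_b`,
the bracket is `D K_a + H_a - η_a Z` (`DD_KK`);
`∑_b ta_ab (D al - be)_b = -D K_a - ∑_b avg Sg_ab D be_b -
H_a` (`ta_DD_al`, `ta_be`).  Write `TT_ab = (TT_ab - ta_ab) + ta_ab`, `Sg = (Sg - avg Sg) + avg Sg`.
PROOF of `lin_alg`.  Let `ρ = max (max |r1_c|, max |r2_c|)` (`n = 0`: nothing to prove).  From the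
first hypothesis: `|r2_a| ≤ e + 2 n b ρ`; from the second `|∑_c A_ca r1_c| ≤ e + 2 n b ρ`, so by
`r1 = B (A r1)` (`A` symmetric) `|r1_c| ≤ n M (e + 2 n b ρ)`.  `2 n² M b ≤ 1/32` (`b ≤ b0`), so
`ρ ≤ n M e + ρ/32`, `ρ ≤ 2 n M e`.
PROOF of `bd_rs`.  On `Om (δ/8) (s/8)`: by `om_th`, `om_h` and `lin_alg` (with `dz_X`, `dz_Q`,
`dh_X`,
`dh_Q`) it is enough to bound the right-hand sides.  `Th_ab`, `TT_ab - ta_ab`, `Sg_ab - avg Sg_ab`
are
differences of `∂ H`, `η H`, `∂ (K - avg K)`, `η (K - avg K)` (`Th_eq`, `TT_eq`, `Sg_eq`; the mean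
of
`Sg_eq` is `avg Sg_ab = -(η_a avg K_b - η_b avg K_a)`, and `∂ avg K = 0`), bounded by Cauchy's
estimates
from `Om (δ/4) (s/4)` by `C N^{p+1} e`, `e = ε + ζ`; `D al`, `be`, `D be` by `bd_ab`; and
`‖∂_a Z‖ ≤ 2 ζ/δ`, `‖η_a Z‖ ≤ 2 ζ/s`.  Sum: `C N^p (e² + ζ)`.
-/

set_option autoImplicit false

namespace Pool.Agent.LRig

open Complex Set MeasureTheory

variable {n : ℕ} {A B : Matrix (Fin n) (Fin n) ℝ} {M σ δ s b ε : ℝ} {R w : CE n → ℂ}
  {u q : Fin n → CE n → ℂ} {y : CE n}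

/-- the residual of the linearised equation -/
noncomputable def rs (A B : Matrix (Fin n) (Fin n) ℝ) (R : CE n → ℂ) (u q : Fin n → CE n → ℂ)
    (w E F : CE n → ℂ) : CE n → ℂ :=
  fun y => E y + ∑ a, dz a.succ F y * (DD (al A B R u q w a) y - be A B R u q w a y) +
    ∑ a, dh a F y * DD (be A B R u q w a) y

private theorem alg_sum (Qa Xa e1 e2 v1 v2 : Fin n → ℂ) (Xt Qt Xh Qh : Fin n → Fin n → ℂ) :
    ∑ c, (Qa c * (e1 c + ∑ b, Xt b c * v1 b + ∑ b, Xh b c * v2 b) -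
      Xa c * (e2 c + ∑ b, Qt b c * v1 b + ∑ b, Qh b c * v2 b)) =
    (∑ c, Qa c * e1 c - ∑ c, Xa c * e2 c) +
      ∑ b, (∑ c, (Qa c * Xt b c - Xa c * Qt b c)) * v1 b +
      ∑ b, (∑ c, (Qa c * Xh b c - Xa c * Qh b c)) * v2 b := by
  have h1 : ∀ (F : Fin n → Fin n → ℂ) (v : Fin n → ℂ),
      ∑ b, (∑ c, F b c) * v b = ∑ c, ∑ b, F b c * v b := by
    intro F v
    rw [Finset.sum_comm]
    exact Finset.sum_congr rfl fun b _ => Finset.sum_mul _ _ _
  rw [h1, h1, ← Finset.sum_sub_distrib, ← Finset.sum_add_distrib, ← Finset.sum_add_distrib]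
  refine Finset.sum_congr rfl fun c _ => ?_
  simp only [sub_mul, Finset.sum_sub_distrib, mul_assoc, ← Finset.mul_sum]
  ring

theorem om_th (hc : Ctx A B M σ R) (hs : St A B M σ R δ s b ε u q) (hw : Fn δ s w)
    (a : Fin n) (hy : y ∈ Om n δ s) :
    ∑ c, (dz a.succ (Qf A q c) y * rs A B R u q w (E1 A B R u q c) (Xf u c) y -
      dz a.succ (Xf u c) y * rs A B R u q w (E2 A R u q c) (Qf A q c) y) =
    ∑ c, Th A u q a c y * (DD (al A B R u q w c) y - be A B R u q w c y) -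
      ∑ c, (TT A u q c a y - ta A B R u q c a y) * DD (be A B R u q w c) y -
      dz a.succ (ZZ A B R u q w) y := by
  refine (alg_sum (fun c => dz a.succ (Qf A q c) y) (fun c => dz a.succ (Xf u c) y)
    (fun c => E1 A B R u q c y) (fun c => E2 A R u q c y)
    (fun b => DD (al A B R u q w b) y - be A B R u q w b y) (fun b => DD (be A B R u q w b) y)
    (fun b c => dz b.succ (Xf u c) y) (fun b c => dz b.succ (Qf A q c) y)
    (fun b c => dh b (Xf u c) y) (fun b c => dh b (Qf A q c) y)).trans ?_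
  have hTh : ∀ b, ∑ c, (dz a.succ (Qf A q c) y * dz b.succ (Xf u c) y -
      dz a.succ (Xf u c) y * dz b.succ (Qf A q c) y) = Th A u q a b y := fun b =>
    Finset.sum_congr rfl fun c _ => by ring
  have hTT : ∀ b, ∑ c, (dz a.succ (Qf A q c) y * dh b (Xf u c) y -
      dz a.succ (Xf u c) y * dh b (Qf A q c) y) = -TT A u q b a y := fun b => by
    unfold TT
    rw [← Finset.sum_neg_distrib]
    exact Finset.sum_congr rfl fun c _ => by ring
  have e1 := DD_HH hc hs hw a hy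
  have e2 : ∑ c, ta A B R u q c a y * DD (be A B R u q w c) y =
      DD (HH A B R u q w a) y := by
    rw [← ta_DD_be hc hs hw a hy]
    exact Finset.sum_congr rfl fun c _ => by rw [ta_symm hc hs c a hy]
  simp only [hTh, hTT, sub_mul, Finset.sum_sub_distrib, neg_mul, Finset.sum_neg_distrib]
  linear_combination -e1 + (-1 : ℂ) * e2

theorem om_h (hc : Ctx A B M σ R) (hs : St A B M σ R δ s b ε u q) (hw : Fn δ s w)
    (a : Fin n) (hy : y ∈ Om n δ s) :
    ∑ c, (dh a (Qf A q c) y * rs A B R u q w (E1 A B R u q c) (Xf u c) y -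
      dh a (Xf u c) y * rs A B R u q w (E2 A R u q c) (Qf A q c) y) =
    ∑ c, (TT A u q a c y - ta A B R u q a c y) *
        (DD (al A B R u q w c) y - be A B R u q w c y) +
      ∑ c, (Sg A u q a c y - avg (Sg A u q a c) y) * DD (be A B R u q w c) y -
      dh a (ZZ A B R u q w) y := by
  refine (alg_sum (fun c => dh a (Qf A q c) y) (fun c => dh a (Xf u c) y)
    (fun c => E1 A B R u q c y) (fun c => E2 A R u q c y)
    (fun b => DD (al A B R u q w b) y - be A B R u q w b y) (fun b => DD (be A B R u q w b) y)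
    (fun b c => dz b.succ (Xf u c) y) (fun b c => dz b.succ (Qf A q c) y)
    (fun b c => dh b (Xf u c) y) (fun b c => dh b (Qf A q c) y)).trans ?_
  have hTT : ∀ b, ∑ c, (dh a (Qf A q c) y * dz b.succ (Xf u c) y -
      dh a (Xf u c) y * dz b.succ (Qf A q c) y) = TT A u q a b y := fun b =>
    Finset.sum_congr rfl fun c _ => by ring
  have hSg : ∀ b, ∑ c, (dh a (Qf A q c) y * dh b (Xf u c) y -
      dh a (Xf u c) y * dh b (Qf A q c) y) = Sg A u q a b y := fun b =>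
    Finset.sum_congr rfl fun c _ => by ring
  have e1 := DD_KK hc hs hw a hy
  have e2 := ta_be hc hs hw a hy
  have e3 := ta_DD_al hc hs hw a hy
  simp only [hTT, hSg, sub_mul, mul_sub, Finset.sum_sub_distrib]
  linear_combination -e1 - e2 + e3

/-- an almost canonical basis -/
theorem lin_alg {e : ℝ} (hA : ∀ i j, A i j = A j i) (hBA : B * A = 1) (hM : 1 ≤ M)
    (hB : ∀ i j, |B i j| ≤ M) (hσ : σ ≤ 1) (hb : 0 ≤ b) (hb0 : b ≤ b0 n M σ)
    {Qt Xt Qh Xh : Fin n → Fin n → ℂ} {r1 r2 : Fin n → ℂ}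
    (h1 : ∀ a c, ‖Qt a c‖ ≤ b) (h2 : ∀ a c, ‖Xt a c - if a = c then 1 else 0‖ ≤ b)
    (h3 : ∀ a c, ‖Qh a c - A c a‖ ≤ b) (h4 : ∀ a c, ‖Xh a c‖ ≤ b)
    (h5 : ∀ a, ‖∑ c, (Qt a c * r1 c - Xt a c * r2 c)‖ ≤ e)
    (h6 : ∀ a, ‖∑ c, (Qh a c * r1 c - Xh a c * r2 c)‖ ≤ e) (c : Fin n) :
    ‖r1 c‖ ≤ 2 * n * M * e ∧ ‖r2 c‖ ≤ 2 * n * M * e := by
  obtain ⟨c0, -, hc0⟩ := Finset.exists_max_image Finset.univ (fun c => max ‖r1 c‖ ‖r2 c‖)
    ⟨c, Finset.mem_univ c⟩
  obtain ⟨ρ, hρ⟩ : ∃ ρ, ρ = max ‖r1 c0‖ ‖r2 c0‖ := ⟨_, rfl⟩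
  have hr1 : ∀ c, ‖r1 c‖ ≤ ρ := fun c => by
    rw [hρ]
    exact (le_max_left _ _).trans (hc0 c (Finset.mem_univ c))
  have hr2 : ∀ c, ‖r2 c‖ ≤ ρ := fun c => by
    rw [hρ]
    exact (le_max_right _ _).trans (hc0 c (Finset.mem_univ c))
  have hρ0 : 0 ≤ ρ := (norm_nonneg _).trans (hr1 c)
  have he : 0 ≤ e := (norm_nonneg _).trans (h5 c)
  have hn : (1 : ℝ) ≤ n := by
    have h0 : 1 ≤ n := c.pos
    exact_mod_cast h0
  have hsum : ∀ (F G : Fin n → ℂ), (∀ c, ‖F c‖ ≤ b) → (∀ c, ‖G c‖ ≤ ρ) →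
      ‖∑ c, F c * G c‖ ≤ n * (b * ρ) := by
    intro F G hF hG
    have h0 : ∑ c : Fin n, ‖F c * G c‖ ≤ ∑ _c : Fin n, b * ρ :=
      Finset.sum_le_sum fun c _ => by
        rw [norm_mul]
        exact mul_le_mul (hF c) (hG c) (norm_nonneg _) hb
    rw [Finset.sum_const, Finset.card_univ, Fintype.card_fin, nsmul_eq_mul] at h0
    exact (norm_sum_le _ _).trans h0
  have k2 : ∀ a, ‖r2 a‖ ≤ e + 2 * n * b * ρ := by
    intro a
    have e1 : r2 a = ∑ c, Qt a c * r1 c - ∑ c, (Qt a c * r1 c - Xt a c * r2 c) -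
        ∑ c, (Xt a c - if a = c then 1 else 0) * r2 c := by
      simp only [sub_mul, Finset.sum_sub_distrib, ite_mul, one_mul, zero_mul,
        Finset.sum_ite_eq, Finset.mem_univ, if_true]
      ring
    have e2 := hsum (Qt a) r1 (h1 a) hr1
    have e3 := hsum (fun c => Xt a c - if a = c then 1 else 0) r2 (h2 a) hr2
    have e4 := h5 a
    have e5 := norm_sub_le (∑ c, Qt a c * r1 c - ∑ c, (Qt a c * r1 c - Xt a c * r2 c))
      (∑ c, (Xt a c - if a = c then 1 else 0) * r2 c)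
    have e6 := norm_sub_le (∑ c, Qt a c * r1 c) (∑ c, (Qt a c * r1 c - Xt a c * r2 c))
    rw [← e1] at e5
    linarith
  have k1 : ∀ a, ‖∑ c, (A c a : ℂ) * r1 c‖ ≤ e + 2 * n * b * ρ := by
    intro a
    have e1 : ∑ c, (A c a : ℂ) * r1 c = ∑ c, (Qh a c * r1 c - Xh a c * r2 c) +
        ∑ c, Xh a c * r2 c - ∑ c, (Qh a c - A c a) * r1 c := by
      simp only [sub_mul, Finset.sum_sub_distrib]
      ring
    have e2 := hsum (Xh a) r2 (h4 a) hr2
    have e3 := hsum (fun c => Qh a c - A c a) r1 (h3 a) hr1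
    have e4 := h6 a
    have e5 := norm_sub_le (∑ c, (Qh a c * r1 c - Xh a c * r2 c) + ∑ c, Xh a c * r2 c)
      (∑ c, (Qh a c - A c a) * r1 c)
    have e6 := norm_add_le (∑ c, (Qh a c * r1 c - Xh a c * r2 c)) (∑ c, Xh a c * r2 c)
    rw [← e1] at e5
    linarith
  have k3 : ∀ c, ‖r1 c‖ ≤ n * (M * (e + 2 * n * b * ρ)) := by
    intro c
    have e1 : ∀ d, ∑ a, (B c a : ℂ) * (A d a : ℂ) = if c = d then 1 else 0 := by
      intro d
      have e2 : (B * A) c d = if c = d then (1 : ℝ) else 0 := by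
        rw [hBA, Matrix.one_apply]
      rw [Matrix.mul_apply] at e2
      have e3 : ((∑ a, B c a * A a d : ℝ) : ℂ) = ((if c = d then (1 : ℝ) else 0 : ℝ) : ℂ) := by
        rw [e2]
      have e4 : ((if c = d then (1 : ℝ) else 0 : ℝ) : ℂ) = if c = d then 1 else 0 := by
        split_ifs <;> simp
      rw [← e4, ← e3]
      push_cast
      exact Finset.sum_congr rfl fun a _ => by rw [hA d a]
    have e4 : r1 c = ∑ a, (B c a : ℂ) * ∑ d, (A d a : ℂ) * r1 d := by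
      simp only [Finset.mul_sum, ← mul_assoc]
      rw [Finset.sum_comm]
      simp only [← Finset.sum_mul, e1, ite_mul, one_mul, zero_mul, Finset.sum_ite_eq,
        Finset.mem_univ, if_true]
    rw [e4]
    have h0 : ∑ a : Fin n, ‖(B c a : ℂ) * ∑ d, (A d a : ℂ) * r1 d‖ ≤
        ∑ _a : Fin n, M * (e + 2 * n * b * ρ) :=
      Finset.sum_le_sum fun a _ => by
        rw [norm_mul, Complex.norm_real]
        exact mul_le_mul (hB c a) (k1 a) (norm_nonneg _) (by linarith)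
    rw [Finset.sum_const, Finset.card_univ, Fintype.card_fin, nsmul_eq_mul] at h0
    exact (norm_sum_le _ _).trans h0
  have hM0 : 0 < M := by linarith
  have kb : 2 * n * (n * M) * b ≤ 1 / 32 := by
    unfold b0 at hb0
    rw [le_div_iff₀ (by positivity)] at hb0
    have h7 : (n : ℝ) * n ≤ (n + 1) ^ 2 := by nlinarith
    have h8 : (n : ℝ) * n * (M * b) ≤ (n + 1) ^ 2 * (M * b) :=
      mul_le_mul_of_nonneg_right h7 (by positivity)
    nlinarith
  have kb2 : 2 * n * b ≤ 2 * n * (n * M) * b := by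
    have h7 : 1 ≤ n * M := by nlinarith
    have h8 : 0 ≤ 2 * (n : ℝ) * b := by positivity
    nlinarith
  have kf : ρ ≤ n * M * e + ρ / 32 := by
    have h7 : 2 * n * (n * M) * b * ρ ≤ 1 / 32 * ρ := mul_le_mul_of_nonneg_right kb hρ0
    have h8 : 2 * n * b * ρ ≤ 2 * n * (n * M) * b * ρ := mul_le_mul_of_nonneg_right kb2 hρ0
    have h9 : e ≤ n * M * e := le_mul_of_one_le_left he (by nlinarith)
    rw [hρ]
    refine max_le ?_ ?_
    · rw [← hρ]
      have := k3 c0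
      nlinarith
    · rw [← hρ]
      have := k2 c0
      linarith
  have hnM : 0 ≤ n * M * e := by positivity
  constructor
  · have := hr1 c
    linarith
  · have := hr2 c
    linarith

private theorem div_N {c d N k : ℝ} (hc : 0 ≤ c) (h : 1 / d ≤ N) (hk : 0 ≤ k) :
    c / (d / k) ≤ k * N * c := by
  have h1 : c / (d / k) = k * (1 / d) * c := by
    rw [div_div_eq_mul_div]
    ring
  rw [h1]
  exact mul_le_mul_of_nonneg_right (mul_le_mul_of_nonneg_left h hk) hc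

private theorem Th_pt {N T : ℝ} (hc : Ctx A B M σ R) (hs : St A B M σ R δ s b ε u q)
    (hw : Fn δ s w) (hδ : 1 / δ ≤ N) (hT : 0 ≤ T)
    (hH : ∀ a, Bd (δ / 2) (s / 2) T (HH A B R u q w a)) (a c : Fin n)
    (hy : y ∈ Om n (δ / 4) (s / 4)) : ‖Th A u q a c y‖ ≤ 8 * N * T := by
  have hδ0 := hs.δ_pos
  have hs0 := hs.s_pos
  have hyy : y ∈ Om n δ s := Om_mono (by linarith) (by linarith) hy
  rw [Th_eq hc hs hw a c hyy, norm_neg]
  have key : ∀ i c, ‖dz i (HH A B R u q w c) y‖ ≤ 4 * N * T := by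
    intro i c
    have h1 := (hH c).cdz ((HH_fn hc hs hw c).mono (by linarith) (by linarith))
      (by linarith : δ / 4 < δ / 2) i y (Om_mono le_rfl (by linarith) hy)
    rw [show δ / 2 - δ / 4 = δ / 4 by ring] at h1
    exact h1.trans (div_N hT hδ (by norm_num))
  have h1 := norm_sub_le (dz a.succ (HH A B R u q w c) y) (dz c.succ (HH A B R u q w a) y)
  have h2 := key a.succ c
  have h3 := key c.succ a
  linarith

private theorem avg_Sg (hc : Ctx A B M σ R) (hs : St A B M σ R δ s b ε u q) (hw : Fn δ s w)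
    (a c : Fin n) (hy : y ∈ Om n δ s) :
    avg (Sg A u q a c) y = -(dh a (avg (KK A u q w c)) y - dh c (avg (KK A u q w a)) y) := by
  have hδ0 := hs.δ_pos
  have h1 : avg (Sg A u q a c) y =
      avg (fun y => dh c (KK A u q w a) y - dh a (KK A u q w c) y) y :=
    avg_congr hδ0 (fun y hy => by
      rw [Sg_eq hc hs hw a c hy]
      ring) hy
  have fa := KK_fn hc hs hw a
  have fc := KK_fn hc hs hw c
  rw [h1, avg_sub (fa.dh c) (fc.dh a) hδ0 hy, avg_dh fa hδ0 c hy, avg_dh fc hδ0 a hy]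
  ring

private theorem pt_bounds {N T ζ : ℝ} (hc : Ctx A B M σ R) (hs : St A B M σ R δ s b ε u q)
    (hw : Fn δ s w) (hζ : 0 ≤ ζ) (hZ : Bd δ s ζ (ZZ A B R u q w)) (hN : Big σ δ s N)
    (hT : 0 ≤ T) (hH : ∀ a, Bd (δ / 2) (s / 2) T (HH A B R u q w a))
    (hK : ∀ a, Bd (δ / 4) (s / 4) T (fun y => KK A u q w a y - avg (KK A u q w a) y))
    (a c : Fin n) (hy : y ∈ Om n (δ / 8) (s / 8)) :
    ‖TT A u q a c y - ta A B R u q a c y‖ ≤ 12 * N * T ∧
    ‖Sg A u q a c y - avg (Sg A u q a c) y‖ ≤ 16 * N * T ∧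
    ‖dz a.succ (ZZ A B R u q w) y‖ ≤ 2 * N * ζ ∧ ‖dh a (ZZ A B R u q w) y‖ ≤ 2 * N * ζ := by
  have hδ0 := hs.δ_pos
  have hs0 := hs.s_pos
  have hyy : y ∈ Om n δ s := Om_mono (by linarith) (by linarith) hy
  have fZ := ZZ_fn hc hs hw
  have fK : ∀ a, Fn (δ / 4) (s / 4) (fun y => KK A u q w a y - avg (KK A u q w a) y) :=
    fun a => ((KK_fn hc hs hw a).sub (avg_fn (KK_fn hc hs hw a) hδ0 δ)).mono
      (by linarith) (by linarith)
  have dK : ∀ a, DifferentiableAt ℂ (KK A u q w a) y := fun a => (KK_fn hc hs hw a).dat hyy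
  have dA : ∀ a, DifferentiableAt ℂ (avg (KK A u q w a)) y := fun a =>
    (avg_fn (KK_fn hc hs hw a) hδ0 δ).dat hyy
  have bH : ∀ a c, ‖dh a (HH A B R u q w c) y‖ ≤ 4 * N * T := by
    intro a c
    have h1 := (hH c).cdh ((HH_fn hc hs hw c).mono (by linarith) (by linarith))
      (by linarith : s / 4 < s / 2) a y (Om_mono (by linarith) (by linarith) hy)
    rw [show s / 2 - s / 4 = s / 4 by ring] at h1
    exact h1.trans (div_N hT hN.hs (by norm_num))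
  have bK : ∀ i a, ‖dz i (KK A u q w a) y‖ ≤ 8 * N * T := by
    intro i a
    have h1 := (hK a).cdz (fK a) (by linarith : δ / 8 < δ / 4) i y
      (Om_mono le_rfl (by linarith) hy)
    rw [show δ / 4 - δ / 8 = δ / 8 by ring, dz_sub i (dK a) (dA a), dz_avg, sub_zero] at h1
    exact h1.trans (div_N hT hN.hδ (by norm_num))
  have bK2 : ∀ c a, ‖dh c (KK A u q w a) y - dh c (avg (KK A u q w a)) y‖ ≤ 8 * N * T := by
    intro c a
    have h1 := (hK a).cdh (fK a) (by linarith : s / 8 < s / 4) c y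
      (Om_mono (by linarith) le_rfl hy)
    rw [show s / 4 - s / 8 = s / 8 by ring, dh_sub c (dK a) (dA a)] at h1
    exact h1.trans (div_N hT hN.hs (by norm_num))
  refine ⟨?_, ?_, ?_, ?_⟩
  · rw [TT_eq hc hs hw a c hyy]
    have e1 : ta A B R u q a c y - dh a (HH A B R u q w c) y + dz c.succ (KK A u q w a) y -
        ta A B R u q a c y = dz c.succ (KK A u q w a) y - dh a (HH A B R u q w c) y := by ring
    rw [e1]
    have h1 := norm_sub_le (dz c.succ (KK A u q w a) y) (dh a (HH A B R u q w c) y)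
    have h2 := bK c.succ a
    have h3 := bH a c
    linarith
  · rw [Sg_eq hc hs hw a c hyy, avg_Sg hc hs hw a c hyy]
    have e1 : -(dh a (KK A u q w c) y - dh c (KK A u q w a) y) -
        -(dh a (avg (KK A u q w c)) y - dh c (avg (KK A u q w a)) y) =
        (dh c (KK A u q w a) y - dh c (avg (KK A u q w a)) y) -
          (dh a (KK A u q w c) y - dh a (avg (KK A u q w c)) y) := by ring
    rw [e1]
    have h1 := norm_sub_le (dh c (KK A u q w a) y - dh c (avg (KK A u q w a)) y)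
      (dh a (KK A u q w c) y - dh a (avg (KK A u q w c)) y)
    have h2 := bK2 c a
    have h3 := bK2 a c
    linarith
  · have h1 := hZ.cdz fZ (by linarith : δ / 2 < δ) a.succ y
      (Om_mono (by linarith) (by linarith) hy)
    rw [show δ - δ / 2 = δ / 2 by ring] at h1
    exact h1.trans (div_N hζ hN.hδ (by norm_num))
  · have h1 := hZ.cdh fZ (by linarith : s / 2 < s) a y
      (Om_mono (by linarith) (by linarith) hy)
    rw [show s - s / 2 = s / 2 by ring] at h1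
    exact h1.trans (div_N hζ hN.hs (by norm_num))

private theorem sum2 {F G H K : Fin n → ℂ} {z : ℂ} {f g h k t : ℝ} (hf : 0 ≤ f) (hh : 0 ≤ h)
    (hF : ∀ c, ‖F c‖ ≤ f) (hG : ∀ c, ‖G c‖ ≤ g) (hH : ∀ c, ‖H c‖ ≤ h) (hK : ∀ c, ‖K c‖ ≤ k)
    (hz : ‖z‖ ≤ t) :
    ‖∑ c, F c * G c - ∑ c, H c * K c - z‖ ≤ n * (f * g) + n * (h * k) + t ∧
    ‖∑ c, F c * G c + ∑ c, H c * K c - z‖ ≤ n * (f * g) + n * (h * k) + t := by
  have key : ∀ {F G : Fin n → ℂ} {f g : ℝ}, 0 ≤ f → (∀ c, ‖F c‖ ≤ f) → (∀ c, ‖G c‖ ≤ g) →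
      ‖∑ c, F c * G c‖ ≤ n * (f * g) := by
    intro F G f g hf hF hG
    have h0 : ∑ c : Fin n, ‖F c * G c‖ ≤ ∑ _c : Fin n, f * g :=
      Finset.sum_le_sum fun c _ => by
        rw [norm_mul]
        exact mul_le_mul (hF c) (hG c) (norm_nonneg _) hf
    rw [Finset.sum_const, Finset.card_univ, Fintype.card_fin, nsmul_eq_mul] at h0
    exact (norm_sum_le _ _).trans h0
  have h1 := key hf hF hG
  have h2 := key hh hH hK
  constructor
  · have h3 := norm_sub_le (∑ c, F c * G c - ∑ c, H c * K c) z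
    have h4 := norm_sub_le (∑ c, F c * G c) (∑ c, H c * K c)
    linarith
  · have h3 := norm_sub_le (∑ c, F c * G c + ∑ c, H c * K c) z
    have h4 := norm_add_le (∑ c, F c * G c) (∑ c, H c * K c)
    linarith

private theorem fin_bd {N C1 C2 e ζ k : ℝ} {p1 p2 : ℕ} (hN : 1 ≤ N) (hC1 : 0 ≤ C1)
    (hC2 : 0 ≤ C2) (hζ : 0 ≤ ζ) (hk0 : 0 ≤ k) (hk : k ≤ 40) :
    k * n * N * (C1 * N ^ p1 * e) * (C2 * N ^ p2 * e) + 2 * N * ζ ≤
      (40 * n * (C1 * C2) + 2) * N ^ (p1 + p2 + 1) * (e ^ 2 + ζ) := by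
  have hN0 : 0 ≤ N := by linarith
  have e1 : k * n * N * (C1 * N ^ p1 * e) * (C2 * N ^ p2 * e) =
      k * (n * (C1 * C2) * N ^ (p1 + p2 + 1) * e ^ 2) := by
    rw [pow_succ, pow_add]
    ring
  have h1 : N ≤ N ^ (p1 + p2 + 1) := by
    rw [pow_succ]
    exact le_mul_of_one_le_left hN0 (one_le_pow₀ hN)
  have h2 : N * ζ ≤ N ^ (p1 + p2 + 1) * ζ := mul_le_mul_of_nonneg_right h1 hζ
  have h3 : k * (n * (C1 * C2) * N ^ (p1 + p2 + 1) * e ^ 2) ≤
      40 * (n * (C1 * C2) * N ^ (p1 + p2 + 1) * e ^ 2) :=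
    mul_le_mul_of_nonneg_right hk (by positivity)
  have h4 : 0 ≤ 40 * (n * (C1 * C2) * N ^ (p1 + p2 + 1) * ζ) := by positivity
  have h5 : 0 ≤ 2 * (N ^ (p1 + p2 + 1) * e ^ 2) := by positivity
  rw [e1]
  linarith

theorem bd_rs (n : ℕ) (M : ℝ) : ∃ C : ℝ, ∃ p : ℕ, 1 ≤ C ∧
    ∀ {A B : Matrix (Fin n) (Fin n) ℝ} {σ δ s b ε N ζ : ℝ} {R w : CE n → ℂ}
      {u q : Fin n → CE n → ℂ}, Ctx A B M σ R → St A B M σ R δ s b ε u q → Fn δ s w →
      0 ≤ ζ → Bd δ s ζ (ZZ A B R u q w) → Big σ δ s N → ∀ c : Fin n,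
        Bd (δ / 8) (s / 8) (C * N ^ p * ((ε + ζ) ^ 2 + ζ))
          (rs A B R u q w (E1 A B R u q c) (Xf u c)) ∧
        Bd (δ / 8) (s / 8) (C * N ^ p * ((ε + ζ) ^ 2 + ζ))
          (rs A B R u q w (E2 A R u q c) (Qf A q c)) := by
  obtain ⟨C1, p1, hC1, hHK⟩ := bd_HK n M
  obtain ⟨C2, p2, hC2, hab⟩ := bd_ab n M
  have hC0 : 0 ≤ 2 * n * |M| * (40 * n * (C1 * C2) + 2) := by positivity
  refine ⟨2 * n * |M| * (40 * n * (C1 * C2) + 2) + 1, p1 + p2 + 1, by linarith, ?_⟩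
  intro A B σ δ s b ε N ζ R w u q hc hs hw hζ hZ hN
  have hHK' := hHK hc hs hw hζ hZ hN
  have hab' := hab hc hs hw hζ hZ hN
  have hδ0 := hs.δ_pos
  have hs0 := hs.s_pos
  have hN1 := hN.one
  have hε := hs.ε_nonneg
  have hM1 := hc.M_ge
  obtain ⟨e, he⟩ : ∃ e, e = ε + ζ := ⟨_, rfl⟩
  rw [← he] at hHK' hab' ⊢
  have he0 : 0 ≤ e := by
    rw [he]
    linarith
  have hT1 : 0 ≤ C1 * N ^ p1 * e := by positivity
  have hT2 : 0 ≤ C2 * N ^ p2 * e := by positivity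
  have hEp : 0 ≤ N ^ (p1 + p2 + 1) * (e ^ 2 + ζ) := by positivity
  have key : ∀ y ∈ Om n (δ / 8) (s / 8), ∀ c,
      ‖rs A B R u q w (E1 A B R u q c) (Xf u c) y‖ ≤
        2 * n * M * ((40 * n * (C1 * C2) + 2) * N ^ (p1 + p2 + 1) * (e ^ 2 + ζ)) ∧
      ‖rs A B R u q w (E2 A R u q c) (Qf A q c) y‖ ≤
        2 * n * M * ((40 * n * (C1 * C2) + 2) * N ^ (p1 + p2 + 1) * (e ^ 2 + ζ)) := by
    intro y hy
    have hyy : y ∈ Om n δ s := Om_mono (by linarith) (by linarith) hy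
    have hy4 : y ∈ Om n (δ / 4) (s / 4) := Om_mono (by linarith) (by linarith) hy
    have bT : ∀ a c, ‖Th A u q a c y‖ ≤ 8 * N * (C1 * N ^ p1 * e) := fun a c =>
      Th_pt hc hs hw hN.hδ hT1 (fun a => (hHK' a).1) a c hy4
    have bP := fun a c => pt_bounds hc hs hw hζ hZ hN hT1 (fun a => (hHK' a).1)
      (fun a => (hHK' a).2.2.2) a c hy
    have bAB : ∀ c, ‖DD (al A B R u q w c) y - be A B R u q w c y‖ ≤
        2 * (C2 * N ^ p2 * e) := fun c => by
      have h1 := (hab' c).1 y hy4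
      have h2 := (hab' c).2.2.2 y hy4
      have h3 := norm_sub_le (DD (al A B R u q w c) y) (be A B R u q w c y)
      linarith
    have bB : ∀ c, ‖DD (be A B R u q w c) y‖ ≤ C2 * N ^ p2 * e := fun c =>
      (hab' c).2.2.1 y hy4
    have f1 := fin_bd (n := n) (p1 := p1) (p2 := p2) (e := e) (k := 28) hN1
      (by linarith : (0 : ℝ) ≤ C1) (by linarith : (0 : ℝ) ≤ C2) hζ (by norm_num) (by norm_num)
    have f2 := fin_bd (n := n) (p1 := p1) (p2 := p2) (e := e) (k := 40) hN1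
      (by linarith : (0 : ℝ) ≤ C1) (by linarith : (0 : ℝ) ≤ C2) hζ (by norm_num) le_rfl
    refine lin_alg hc.symm hc.inv hM1 hc.B_le hc.σ_le hs.b_nonneg hs.b_le
      (Qt := fun a c => dz a.succ (Qf A q c) y) (Xt := fun a c => dz a.succ (Xf u c) y)
      (Qh := fun a c => dh a (Qf A q c) y) (Xh := fun a c => dh a (Xf u c) y)
      (r1 := fun c => rs A B R u q w (E1 A B R u q c) (Xf u c) y)
      (r2 := fun c => rs A B R u q w (E2 A R u q c) (Qf A q c) y) ?_ ?_ ?_ ?_ ?_ ?_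
    · intro a c
      rw [dz_Q hs a.succ c hyy]
      exact hs.qz c a.succ y hyy
    · intro a c
      rw [dz_X hs a.succ c hyy]
      simp only [Fin.succ_inj]
      rw [add_sub_cancel_left]
      exact hs.uz c a.succ y hyy
    · intro a c
      rw [dh_Q hs a c hyy, add_sub_cancel_left]
      exact hs.qh c a y hyy
    · intro a c
      rw [dh_X hs a c hyy]
      exact hs.uh c a y hyy
    · intro a
      rw [om_th hc hs hw a hyy]
      have h1 := (sum2 (by positivity) (by positivity) (bT a) bAB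
        (fun c => (bP c a).1) bB (bP a a).2.2.1).1
      refine (h1.trans (le_of_eq ?_)).trans f1
      ring
    · intro a
      rw [om_h hc hs hw a hyy]
      have h1 := (sum2 (by positivity) (by positivity) (fun c => (bP a c).1) bAB
        (fun c => (bP a c).2.1) bB (bP a a).2.2.2).2
      refine (h1.trans (le_of_eq ?_)).trans f2
      ring
  have hfin : 2 * n * M * ((40 * n * (C1 * C2) + 2) * N ^ (p1 + p2 + 1) * (e ^ 2 + ζ)) ≤
      (2 * n * |M| * (40 * n * (C1 * C2) + 2) + 1) * N ^ (p1 + p2 + 1) * (e ^ 2 + ζ) := by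
    rw [abs_of_nonneg (by linarith)]
    linarith
  exact fun c => ⟨fun y hy => (key y hy c).1.trans hfin, fun y hy => (key y hy c).2.trans hfin⟩

/-- the approximate isotropy of the tori -/
theorem bd_Th (n : ℕ) (M : ℝ) : ∃ C : ℝ, ∃ p : ℕ, 1 ≤ C ∧
    ∀ {A B : Matrix (Fin n) (Fin n) ℝ} {σ δ s b ε N ζ : ℝ} {R w : CE n → ℂ}
      {u q : Fin n → CE n → ℂ}, Ctx A B M σ R → St A B M σ R δ s b ε u q → Fn δ s w →
      0 ≤ ζ → Bd δ s ζ (ZZ A B R u q w) → Big σ δ s N → ∀ a c : Fin n,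
        Bd (δ / 4) (s / 4) (C * N ^ p * (ε + ζ)) (Th A u q a c) := by
  obtain ⟨C1, p1, hC1, hHK⟩ := bd_HK n M
  refine ⟨8 * C1, p1 + 1, by linarith, ?_⟩
  intro A B σ δ s b ε N ζ R w u q hc hs hw hζ hZ hN a c y hy
  have hHK' := hHK hc hs hw hζ hZ hN
  have hN1 := hN.one
  have hε := hs.ε_nonneg
  have h1 := Th_pt hc hs hw hN.hδ (by positivity) (fun a => (hHK' a).1) a c hy
  refine h1.trans (le_of_eq ?_)
  rw [pow_succ]
  ring

end Pool.Agent.LRig
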