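import Pool.Agent.LRig.NC

/-!
# LR (MP_74f563_an, all n), file ND: the new error, the identity

The corrected state is `u' c = u c + co (Xf u c)`, `q' c = q c + co (Qf A q c)` (`un`, `qn`).

PROOFS.  `co F = ∑ ∂_a F al_a + ∑ η_a F be_a` (`∂_a = dz a.succ`, `η_a = dh a`).
`co_fn`: `dzX_fn`, `dhX_fn`, `Q_fn`, `al_fn`, `be_fn`.
`DD_co`, for `F = Xf u c` or `Qf A q c` (holomorphic on `Om`): `D (∂_a F) = ∂_a (D F)` (`dz_DD`),
`D (η_a F) = η_a (D F) - ∂_a F` (`dh_DD`), so
`D (co F) = ∑ ∂_a (D F) al_a + ∑ η_a (D F) be_a + ∑ ∂_a F (D al_a - be_a) + ∑ η_a F D be_a`.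
(`dz_DD` and `dh_DD` are stated for `Fn`; `Xf u c` is `y.1 c.succ + u c`, treat the two summands
separately, `D (y.1 c.succ) = y.2 c`, or use `F` only through `DifferentiableOn`.)
`new_E1`: `E1 (new) c = D u_c + D (co X_c) - ∑ B_cd (q_d + co Q_d) - R_p(Ψ')`, `R_p = dh c R`. 
Since
`D X_c - ∑_d B_cd Q_d - R_p(Ψ) = E1 c` (`DD_X`; `∑_d B_cd ∑_e A_de h_e = h_c`) the derivatives
`∂_a (D X_c) = ∂_a (E1 c) + ∑ B_cd ∂_a Q_d + ∂_a (R_p ∘ Ψ)` and the same for `η_a`; sum with `al_a`,
`be_a`: `∑ ∂_a (D X_c) al_a + ∑ η_a (D X_c) be_a = ∑ ∂_a (E1 c) al_a + ∑ η_a (E1 c) be_a +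
∑_d B_cd co Q_d + [∑_d dz d.succ R_p(Ψ) co X_d + ∑_d dh d R_p(Ψ) co Q_d]` (`dz_comp`, `dh_comp` with
`G = dh c R ∈ Fn σ σ`).  Insert in `DD_co`.
`new_E2`: the same, with `E2 c = D Q_c + R_x(Ψ)`, `R_x = dz c.succ R` (`DD_Q`).
`Ps_new`: `Ψ' = Ψ + (Fin.cons 0 (co X), co Q)`, by definition.
-/

set_option autoImplicit false

namespace Pool.Agent.LRig

open Complex Set MeasureTheory

variable {n : ℕ} {A B : Matrix (Fin n) (Fin n) ℝ} {M σ δ s b ε : ℝ} {R w : CE n → ℂ}
  {u q : Fin n → CE n → ℂ} {y : CE n}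

/-- the corrected `u` -/
noncomputable def un (A B : Matrix (Fin n) (Fin n) ℝ) (R : CE n → ℂ) (u q : Fin n → CE n → ℂ)
    (w : CE n → ℂ) (c : Fin n) : CE n → ℂ :=
  fun y => u c y + co A B R u q w (Xf u c) y

/-- the corrected `q` -/
noncomputable def qn (A B : Matrix (Fin n) (Fin n) ℝ) (R : CE n → ℂ) (u q : Fin n → CE n → ℂ)
    (w : CE n → ℂ) (c : Fin n) : CE n → ℂ :=
  fun y => q c y + co A B R u q w (Qf A q c) y

/-- the displacement of `Ψ` -/
noncomputable def vv (A B : Matrix (Fin n) (Fin n) ℝ) (R : CE n → ℂ) (u q : Fin n → CE n → ℂ)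
    (w : CE n → ℂ) (y : CE n) : CE n :=
  (Fin.cons 0 fun c => co A B R u q w (Xf u c) y, fun c => co A B R u q w (Qf A q c) y)

/-- the second Taylor remainder of `G` along the correction -/
noncomputable def tr2 (A B : Matrix (Fin n) (Fin n) ℝ) (R : CE n → ℂ) (u q : Fin n → CE n → ℂ)
    (w G : CE n → ℂ) : CE n → ℂ :=
  fun y => G (Ps A u q y + vv A B R u q w y) - G (Ps A u q y) -
    (∑ i, (vv A B R u q w y).1 i * dz i G (Ps A u q y) +
      ∑ c, (vv A B R u q w y).2 c * dh c G (Ps A u q y))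

private theorem nd_swap (g1 g2 v1 v2 : Fin n → ℂ) (x1 x2 x3 x4 : Fin n → Fin n → ℂ) :
    ∑ a, (∑ c, g1 c * x1 a c + ∑ c, g2 c * x2 a c) * v1 a +
      ∑ a, (∑ c, g1 c * x3 a c + ∑ c, g2 c * x4 a c) * v2 a =
    ∑ d, g1 d * (∑ a, x1 a d * v1 a + ∑ a, x3 a d * v2 a) +
      ∑ d, g2 d * (∑ a, x2 a d * v1 a + ∑ a, x4 a d * v2 a) := by
  have e : ∀ (g : Fin n → ℂ) (x : Fin n → Fin n → ℂ) (v : Fin n → ℂ),
      ∑ a, (∑ c, g c * x a c) * v a = ∑ d, g d * ∑ a, x a d * v a := by
    intro g x v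
    simp only [Finset.sum_mul, Finset.mul_sum]
    rw [Finset.sum_comm]
    exact Finset.sum_congr rfl fun _ _ => Finset.sum_congr rfl fun _ _ => mul_assoc _ _ _
  simp only [add_mul, mul_add, Finset.sum_add_distrib, e]
  ring

private theorem nd_congr {F G : CE n → ℂ} (hy : y ∈ Om n δ s) (h : ∀ y ∈ Om n δ s, F y = G y) :
    co A B R u q w F y = co A B R u q w G y := by
  unfold co
  congr 1
  · exact Finset.sum_congr rfl fun a _ => by rw [dz_congr a.succ hy h]
  · exact Finset.sum_congr rfl fun a _ => by rw [dh_congr a hy h]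

private theorem nd_add {F G : CE n → ℂ} (hF : DifferentiableAt ℂ F y)
    (hG : DifferentiableAt ℂ G y) : co A B R u q w (fun y => F y + G y) y =
      co A B R u q w F y + co A B R u q w G y := by
  simp only [co, dz_add _ hF hG, dh_add _ hF hG, add_mul, Finset.sum_add_distrib]
  ring

private theorem nd_sub {F G : CE n → ℂ} (hF : DifferentiableAt ℂ F y)
    (hG : DifferentiableAt ℂ G y) : co A B R u q w (fun y => F y - G y) y =
      co A B R u q w F y - co A B R u q w G y := by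
  simp only [co, dz_sub _ hF hG, dh_sub _ hF hG, sub_mul, Finset.sum_sub_distrib]
  ring

private theorem nd_cmul {F : CE n → ℂ} (r : ℂ) : co A B R u q w (fun y => r * F y) y =
      r * co A B R u q w F y := by
  simp only [co, dz_cmul, dh_cmul, mul_assoc, mul_add, Finset.mul_sum]

private theorem nd_sum {f : Fin n → CE n → ℂ} (h : ∀ j, DifferentiableAt ℂ (f j) y) :
    co A B R u q w (fun y => ∑ j, f j y) y = ∑ j, co A B R u q w (f j) y := by
  unfold co
  rw [Finset.sum_add_distrib]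
  congr 1
  · rw [Finset.sum_comm]
    refine Finset.sum_congr rfl fun a _ => ?_
    rw [dz_sum a.succ fun j _ => h j, Finset.sum_mul]
  · rw [Finset.sum_comm]
    refine Finset.sum_congr rfl fun a _ => ?_
    rw [dh_sum a fun j _ => h j, Finset.sum_mul]

private theorem nd_comp {G : CE n → ℂ} (hc : Ctx A B M σ R) (hs : St A B M σ R δ s b ε u q)
    (hG : Fn σ σ G) (hy : y ∈ Om n δ s) :
    co A B R u q w (fun y => G (Ps A u q y)) y =
      ∑ c, dz c.succ G (Ps A u q y) * co A B R u q w (Xf u c) y +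
        ∑ c, dh c G (Ps A u q y) * co A B R u q w (Qf A q c) y := by
  have e1 : co A B R u q w (fun y => G (Ps A u q y)) y =
      ∑ a, (∑ c, dz c.succ G (Ps A u q y) * dz a.succ (Xf u c) y +
        ∑ c, dh c G (Ps A u q y) * dz a.succ (Qf A q c) y) * al A B R u q w a y +
      ∑ a, (∑ c, dz c.succ G (Ps A u q y) * dh a (Xf u c) y +
        ∑ c, dh c G (Ps A u q y) * dh a (Qf A q c) y) * be A B R u q w a y := by
    unfold co
    congr 1
    · exact Finset.sum_congr rfl fun a _ => by rw [dz_comp hc hs hG a hy]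
    · exact Finset.sum_congr rfl fun a _ => by rw [dh_comp hc hs hG a hy]
  rw [e1, nd_swap]
  rfl

/-- the derivative of a correction along the flow -/
private theorem nd_DD {E F : CE n → ℂ} (hc : Ctx A B M σ R) (hs : St A B M σ R δ s b ε u q)
    (hw : Fn δ s w) (hy : y ∈ Om n δ s) (hz : ∀ a : Fin n, Fn δ s (dz a.succ F))
    (hh : ∀ a, Fn δ s (dh a F))
    (h1 : ∀ a : Fin n, DD (dz a.succ F) y = dz a.succ (DD F) y)
    (h2 : ∀ a : Fin n, DD (dh a F) y = dh a (DD F) y - dz a.succ F y) :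
    DD (co A B R u q w F) y = co A B R u q w (DD F) y + rs A B R u q w E F y - E y := by
  have e1 : DD (co A B R u q w F) y =
      DD (fun y => ∑ a, dz a.succ F y * al A B R u q w a y) y +
      DD (fun y => ∑ a, dh a F y * be A B R u q w a y) y :=
    DD_add ((Fn.sum (S := Finset.univ) (f := fun (a : Fin n) y => dz a.succ F y *
        al A B R u q w a y) fun a _ => (hz a).mul (al_fn hc hs hw a)).dat hy)
      ((Fn.sum (S := Finset.univ) (f := fun (a : Fin n) y => dh a F y *
        be A B R u q w a y) fun a _ => (hh a).mul (be_fn hc hs hw a)).dat hy)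
  have e2 : DD (fun y => ∑ a, dz a.succ F y * al A B R u q w a y) y =
      ∑ a, (dz a.succ (DD F) y * al A B R u q w a y +
        dz a.succ F y * DD (al A B R u q w a) y) := by
    rw [DD_sum (S := Finset.univ) (f := fun (a : Fin n) y => dz a.succ F y *
      al A B R u q w a y) fun a _ => ((hz a).mul (al_fn hc hs hw a)).dat hy]
    refine Finset.sum_congr rfl fun a _ => ?_
    rw [DD_mul ((hz a).dat hy) ((al_fn hc hs hw a).dat hy), h1]
  have e3 : DD (fun y => ∑ a, dh a F y * be A B R u q w a y) y =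
      ∑ a, ((dh a (DD F) y - dz a.succ F y) * be A B R u q w a y +
        dh a F y * DD (be A B R u q w a) y) := by
    rw [DD_sum (S := Finset.univ) (f := fun (a : Fin n) y => dh a F y *
      be A B R u q w a y) fun a _ => ((hh a).mul (be_fn hc hs hw a)).dat hy]
    refine Finset.sum_congr rfl fun a _ => ?_
    rw [DD_mul ((hh a).dat hy) ((be_fn hc hs hw a).dat hy), h2]
  rw [e1, e2, e3]
  simp only [co, rs, sub_mul, mul_sub, Finset.sum_add_distrib, Finset.sum_sub_distrib]
  ring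

private theorem nd_X1 (hs : St A B M σ R δ s b ε u q) (c a : Fin n) (hy : y ∈ Om n δ s) :
    DD (dz a.succ (Xf u c)) y = dz a.succ (DD (Xf u c)) y := by
  have e1 : DD (dz a.succ (Xf u c)) y = DD (dz a.succ (u c)) y := by
    rw [DD_congr hy (fun y hy => dz_X hs a.succ c hy),
      DD_add (differentiableAt_const _) (((hs.ufn c).dz a.succ).dat hy), DD_const, zero_add]
  have e2 : dz a.succ (DD (Xf u c)) y = dz a.succ (DD (u c)) y := by
    rw [dz_congr a.succ hy (fun y hy => DD_X hs c hy),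
      dz_add a.succ ((fn_h c).dat hy) (((hs.ufn c).DD).dat hy), dz_h, zero_add]
  rw [e1, e2, dz_DD (hs.ufn c) a.succ hy]

private theorem nd_X2 (hs : St A B M σ R δ s b ε u q) (c a : Fin n) (hy : y ∈ Om n δ s) :
    DD (dh a (Xf u c)) y = dh a (DD (Xf u c)) y - dz a.succ (Xf u c) y := by
  have e1 : DD (dh a (Xf u c)) y = DD (dh a (u c)) y :=
    DD_congr hy (fun y hy => dh_X hs a c hy)
  have e2 : dh a (DD (Xf u c)) y = (if a = c then 1 else 0) + dh a (DD (u c)) y := by
    rw [dh_congr a hy (fun y hy => DD_X hs c hy),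
      dh_add a ((fn_h c).dat hy) (((hs.ufn c).DD).dat hy), dh_h]
  rw [e1, e2, dz_X hs a.succ c hy, dh_DD (hs.ufn c) a hy]
  simp only [Fin.succ_inj]
  ring

theorem coX_fn (hc : Ctx A B M σ R) (hs : St A B M σ R δ s b ε u q) (hw : Fn δ s w)
    (c : Fin n) : Fn δ s (co A B R u q w (Xf u c)) := by
  exact (Fn.sum fun a _ => (dzX_fn hs a.succ c).mul (al_fn hc hs hw a)).add
    (Fn.sum fun a _ => (dhX_fn hs a c).mul (be_fn hc hs hw a))

theorem coQ_fn (hc : Ctx A B M σ R) (hs : St A B M σ R δ s b ε u q) (hw : Fn δ s w)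
    (c : Fin n) : Fn δ s (co A B R u q w (Qf A q c)) := by
  exact (Fn.sum fun a _ => ((Q_fn hs c).dz a.succ).mul (al_fn hc hs hw a)).add
    (Fn.sum fun a _ => ((Q_fn hs c).dh a).mul (be_fn hc hs hw a))

theorem Ps_new (y : CE n) :
    Ps A (un A B R u q w) (qn A B R u q w) y = Ps A u q y + vv A B R u q w y := by
  refine Prod.ext (funext fun i => ?_) (funext fun a => ?_)
  · refine Fin.cases ?_ (fun a => ?_) i
    · exact (add_zero (y.1 0)).symm
    · exact (add_assoc (y.1 a.succ) (u a y) (co A B R u q w (Xf u a) y)).symm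
  · exact (add_assoc (∑ d, (A a d : ℂ) * y.2 d) (q a y) (co A B R u q w (Qf A q a) y)).symm

private theorem nd_tr {G : CE n → ℂ} (hc : Ctx A B M σ R) (hs : St A B M σ R δ s b ε u q)
    (hG : Fn σ σ G) (hy : y ∈ Om n δ s) :
    G (Ps A (un A B R u q w) (qn A B R u q w) y) = tr2 A B R u q w G y + G (Ps A u q y) +
      co A B R u q w (fun y => G (Ps A u q y)) y := by
  rw [Ps_new, nd_comp hc hs hG hy]
  have e1 : ∑ i, (vv A B R u q w y).1 i * dz i G (Ps A u q y) =
      ∑ c : Fin n, dz c.succ G (Ps A u q y) * co A B R u q w (Xf u c) y := by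
    rw [Fin.sum_univ_succ]
    have h0 : (vv A B R u q w y).1 0 = 0 := rfl
    rw [h0, zero_mul, zero_add]
    exact Finset.sum_congr rfl fun _ _ => mul_comm _ _
  have e2 : ∑ c, (vv A B R u q w y).2 c * dh c G (Ps A u q y) =
      ∑ c : Fin n, dh c G (Ps A u q y) * co A B R u q w (Qf A q c) y :=
    Finset.sum_congr rfl fun _ _ => mul_comm _ _
  unfold tr2
  rw [e1, e2]
  ring

theorem new_E1 (hc : Ctx A B M σ R) (hs : St A B M σ R δ s b ε u q) (hw : Fn δ s w)
    (c : Fin n) (hy : y ∈ Om n δ s) :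
    E1 A B R (un A B R u q w) (qn A B R u q w) c y =
      rs A B R u q w (E1 A B R u q c) (Xf u c) y +
      ∑ a, dz a.succ (E1 A B R u q c) y * al A B R u q w a y +
      ∑ a, dh a (E1 A B R u q c) y * be A B R u q w a y - tr2 A B R u q w (dh c R) y := by
  have hR : Fn σ σ (dh c R) := hc.R_fn.dh c
  have hRP : Fn δ s (fun y => dh c R (Ps A u q y)) := comp_fn hc hs hR
  have hBQ : Fn δ s (fun y => ∑ d, (B c d : ℂ) * Qf A q d y) :=
    Fn.sum fun d _ => (Q_fn hs d).smul (B c d)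
  have e1 : DD (un A B R u q w c) y = DD (u c) y + DD (co A B R u q w (Xf u c)) y :=
    DD_add ((hs.ufn c).dat hy) ((coX_fn hc hs hw c).dat hy)
  have e2 := nd_DD (E := E1 A B R u q c) hc hs hw hy (fun a => dzX_fn hs a.succ c)
    (fun a => dhX_fn hs a c) (fun a => nd_X1 hs c a hy) (fun a => nd_X2 hs c a hy)
  have e3 : ∀ y : CE n, ∑ d, (B c d : ℂ) * Qf A q d y = y.2 c + ∑ d, (B c d : ℂ) * q d y := by
    intro y
    have h1 : ∑ d, (B c d : ℂ) * ∑ e, (A d e : ℂ) * y.2 e = y.2 c := by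
      have h2 : ∀ e, ∑ d, (B c d : ℂ) * (A d e : ℂ) = if c = e then 1 else 0 := by
        intro e
        have h3 := congrFun (congrFun hc.inv c) e
        rw [Matrix.mul_apply, Matrix.one_apply] at h3
        have h4 : ((∑ d, B c d * A d e : ℝ) : ℂ) = ((if c = e then 1 else 0 : ℝ) : ℂ) := by
          rw [h3]
        push_cast at h4
        rw [h4]
        split_ifs <;> simp
      simp only [Finset.mul_sum]
      rw [Finset.sum_comm]
      have h5 : ∀ e, ∑ d, (B c d : ℂ) * ((A d e : ℂ) * y.2 e) =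
          (if c = e then 1 else 0) * y.2 e := by
        intro e
        rw [← h2 e, Finset.sum_mul]
        exact Finset.sum_congr rfl fun _ _ => (mul_assoc _ _ _).symm
      simp only [h5, ite_mul, one_mul, zero_mul, Finset.sum_ite_eq, Finset.mem_univ, if_true]
    simp only [Qf, mul_add, Finset.sum_add_distrib]
    rw [h1]
  have e4 : co A B R u q w (DD (Xf u c)) y = co A B R u q w (E1 A B R u q c) y +
      ∑ d, (B c d : ℂ) * co A B R u q w (Qf A q d) y +
        co A B R u q w (fun y => dh c R (Ps A u q y)) y := by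
    have h1 : ∀ y ∈ Om n δ s, DD (Xf u c) y =
        (E1 A B R u q c y + ∑ d, (B c d : ℂ) * Qf A q d y) + dh c R (Ps A u q y) := by
      intro y hy
      rw [DD_X hs c hy, e3]
      unfold E1
      ring
    rw [nd_congr hy h1,
      nd_add (F := fun y => E1 A B R u q c y + ∑ d, (B c d : ℂ) * Qf A q d y)
        (((E1_fn hc hs c).add hBQ).dat hy) (hRP.dat hy),
      nd_add ((E1_fn hc hs c).dat hy) (hBQ.dat hy),
      nd_sum (f := fun d y => (B c d : ℂ) * Qf A q d y)
        (fun d => ((Q_fn hs d).smul (B c d)).dat hy)]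
    simp only [nd_cmul]
  have e5 : E1 A B R (un A B R u q w) (qn A B R u q w) c y = DD (un A B R u q w c) y -
      (∑ d, (B c d : ℂ) * q d y + ∑ d, (B c d : ℂ) * co A B R u q w (Qf A q d) y) -
      dh c R (Ps A (un A B R u q w) (qn A B R u q w) y) := by
    rw [← Finset.sum_add_distrib]
    simp only [← mul_add]
    rfl
  have e6 : E1 A B R u q c y = DD (u c) y - ∑ d, (B c d : ℂ) * q d y - dh c R (Ps A u q y) := rfl
  have e7 : ∑ a, dz a.succ (E1 A B R u q c) y * al A B R u q w a y +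
      ∑ a, dh a (E1 A B R u q c) y * be A B R u q w a y =
        co A B R u q w (E1 A B R u q c) y := rfl
  rw [e5, e1, e2, e4, nd_tr hc hs hR hy, add_assoc (rs A B R u q w _ _ y), e7, e6]
  ring

theorem new_E2 (hc : Ctx A B M σ R) (hs : St A B M σ R δ s b ε u q) (hw : Fn δ s w)
    (c : Fin n) (hy : y ∈ Om n δ s) :
    E2 A R (un A B R u q w) (qn A B R u q w) c y =
      rs A B R u q w (E2 A R u q c) (Qf A q c) y +
      ∑ a, dz a.succ (E2 A R u q c) y * al A B R u q w a y +
      ∑ a, dh a (E2 A R u q c) y * be A B R u q w a y + tr2 A B R u q w (dz c.succ R) y := by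
  have hR : Fn σ σ (dz c.succ R) := hc.R_fn.dz c.succ
  have hRP : Fn δ s (fun y => dz c.succ R (Ps A u q y)) := comp_fn hc hs hR
  have e1 : DD (qn A B R u q w c) y = DD (q c) y + DD (co A B R u q w (Qf A q c)) y :=
    DD_add ((hs.qfn c).dat hy) ((coQ_fn hc hs hw c).dat hy)
  have e2 := nd_DD (E := E2 A R u q c) hc hs hw hy (fun a => (Q_fn hs c).dz a.succ)
    (fun a => (Q_fn hs c).dh a) (fun a => (dz_DD (Q_fn hs c) a.succ hy).symm)
    (fun a => (eq_sub_of_add_eq (dh_DD (Q_fn hs c) a hy).symm))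
  have e4 : co A B R u q w (DD (Qf A q c)) y = co A B R u q w (E2 A R u q c) y -
        co A B R u q w (fun y => dz c.succ R (Ps A u q y)) y := by
    have h1 : ∀ y ∈ Om n δ s, DD (Qf A q c) y =
        E2 A R u q c y - dz c.succ R (Ps A u q y) := by
      intro y hy
      rw [DD_Q hs c hy]
      unfold E2
      ring
    rw [nd_congr hy h1, nd_sub ((E2_fn hc hs c).dat hy) (hRP.dat hy)]
  have e5 : E2 A R (un A B R u q w) (qn A B R u q w) c y = DD (qn A B R u q w c) y +
      dz c.succ R (Ps A (un A B R u q w) (qn A B R u q w) y) := rfl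
  have e6 : E2 A R u q c y = DD (q c) y + dz c.succ R (Ps A u q y) := rfl
  have e7 : ∑ a, dz a.succ (E2 A R u q c) y * al A B R u q w a y +
      ∑ a, dh a (E2 A R u q c) y * be A B R u q w a y =
        co A B R u q w (E2 A R u q c) y := rfl
  rw [e5, e1, e2, e4, nd_tr hc hs hR hy, add_assoc (rs A B R u q w _ _ y), e7, e6]
  ring

end Pool.Agent.LRig
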