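import Pool.Agent.LRig.ND

/-!
# LR (MP_74f563_an, all n), file NE: bounds of the correction and of the new error

PROOFS.  `e = ε + ζ`.  `bd_co`: `‖dz a.succ X_c‖ ≤ 2`, `‖dh a X_c‖ ≤ 1`, `‖dz a.succ Q_c‖ ≤ 1`,
`‖dh a Q_c‖ ≤ 2M` (`dz_X` ...), and `bd_ab`.
`bd_new`: on `Om (δ/8) (s/8)`.  The terms of `new_E1`: `rs` by `bd_rs`; `‖∂_a (E1 c)‖ ≤ 2 ε/δ`,
`‖η_a (E1 c)‖ ≤ 2 ε/s` (`E1_fn`, `Bd.cdz`, `Bd.cdh`), times `al`, `be`: `≤ C N^{p+1} ε e`;
`tr2 (dh c R)` by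
`tay2` (file FB) at the point `Ps y ∈ Om (σ/4) (σ/4)` with `r = σ/4` and `F = dh c R`, which is in
`Fn (σ/2) (σ/2)` with bound `2/σ` (`Bd.cdh`, `R_bd`): the displacement `vv y` has components at most
`e' = C N^p e` (`bd_co`; take `e' > 0`: if `e = 0` replace it by an arbitrary small positive number
or
treat the case `vv = 0` separately), `2 e' ≤ σ/4` by the hypothesis `C N^p e ≤ b0` for a larger
constant
`C` (`b0 ≤ σ/64`), so `‖tr2‖ ≤ 4 (2/σ) e'²/(σ/4)² ≤ C N^{p'} e²`.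
-/

set_option autoImplicit false

namespace Pool.Agent.LRig

open Complex Set MeasureTheory

variable {n : ℕ}

private theorem ne_b0 {A B : Matrix (Fin n) (Fin n) ℝ} {M σ : ℝ} {R : CE n → ℂ}
    (hc : Ctx A B M σ R) : b0 n M σ ≤ σ / 64 := by
  unfold b0
  apply div_le_div_of_nonneg_left hc.σ_pos.le (by norm_num)
  have h1 : (1 : ℝ) ≤ (n + 1) ^ 2 := by
    have h2 : (0 : ℝ) ≤ n := Nat.cast_nonneg n
    nlinarith
  have h2 := hc.M_ge
  nlinarith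

private theorem ne_b1 {A B : Matrix (Fin n) (Fin n) ℝ} {M σ δ s b ε : ℝ} {R : CE n → ℂ}
    {u q : Fin n → CE n → ℂ} (hc : Ctx A B M σ R) (hs : St A B M σ R δ s b ε u q) : b ≤ 1 := by
  have h1 := ne_b0 hc
  have h2 := hs.b_le
  have h3 := hc.σ_le
  linarith

private theorem ne_co {A B : Matrix (Fin n) (Fin n) ℝ} {R w : CE n → ℂ}
    {u q : Fin n → CE n → ℂ} {δ s e K : ℝ} {F : CE n → ℂ} (hK : 0 ≤ K)
    (h1 : ∀ a : Fin n, Bd δ s K (dz a.succ F)) (h2 : ∀ a, Bd δ s K (dh a F))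
    (h3 : ∀ a, Bd δ s e (al A B R u q w a)) (h4 : ∀ a, Bd δ s e (be A B R u q w a)) :
    Bd δ s (2 * n * K * e) (co A B R u q w F) := by
  intro y hy
  have h5 := Bd.sum' (fun a => (h1 a).mul (h3 a) hK) y hy
  have h6 := Bd.sum' (fun a => (h2 a).mul (h4 a) hK) y hy
  have h7 : ‖co A B R u q w F y‖ ≤ n * (K * e) + n * (K * e) :=
    (norm_add_le _ _).trans (add_le_add h5 h6)
  calc ‖co A B R u q w F y‖ ≤ n * (K * e) + n * (K * e) := h7
    _ = 2 * n * K * e := by ring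

theorem bd_co (n : ℕ) (M : ℝ) : ∃ C : ℝ, ∃ p : ℕ, 1 ≤ C ∧
    ∀ {A B : Matrix (Fin n) (Fin n) ℝ} {σ δ s b ε N ζ : ℝ} {R w : CE n → ℂ}
      {u q : Fin n → CE n → ℂ}, Ctx A B M σ R → St A B M σ R δ s b ε u q → Fn δ s w →
      0 ≤ ζ → Bd δ s ζ (ZZ A B R u q w) → Big σ δ s N → ∀ c : Fin n,
        Bd (δ / 4) (s / 4) (C * N ^ p * (ε + ζ)) (co A B R u q w (Xf u c)) ∧
        Bd (δ / 4) (s / 4) (C * N ^ p * (ε + ζ)) (co A B R u q w (Qf A q c)) := by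
  obtain ⟨C, p, hC, H⟩ := bd_ab n M
  have hn : (0 : ℝ) ≤ n := Nat.cast_nonneg n
  have hK : (0 : ℝ) ≤ 2 + |M| := by positivity
  have hnK : (0 : ℝ) ≤ 2 * n * (2 + |M|) := by positivity
  refine ⟨(2 * n * (2 + |M|) + 1) * C, p, by nlinarith, ?_⟩
  intro A B σ δ s b ε N ζ R w u q hc hs hw hζ hZ hN c
  have hab := H hc hs hw hζ hZ hN
  have hb := ne_b1 hc hs
  have hb' := hs.b_nonneg
  have hM := hc.M_ge
  have hM' : M ≤ |M| := le_abs_self M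
  have hδ := hs.δ_pos
  have hs' := hs.s_pos
  have hN0 : (0 : ℝ) ≤ N := by linarith [hN.one]
  have he : 0 ≤ C * N ^ p * (ε + ζ) := by
    have := hs.ε_nonneg
    positivity
  have hfin : 2 * n * (2 + |M|) * (C * N ^ p * (ε + ζ)) ≤
      (2 * n * (2 + |M|) + 1) * C * N ^ p * (ε + ζ) := by
    nlinarith
  have hsub : ∀ {y : CE n}, y ∈ Om n (δ / 4) (s / 4) → y ∈ Om n δ s := fun h =>
    Om_mono (by linarith) (by linarith) h
  constructor
  · refine (ne_co hK (fun a y hy => ?_) (fun a y hy => ?_) (fun a => (hab a).2.1)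
      fun a => (hab a).1).mono le_rfl le_rfl hfin
    · rw [dz_X hs a.succ c (hsub hy)]
      refine (norm_add_le _ _).trans ?_
      have h1 := hs.uz c a.succ y (hsub hy)
      have h2 : ‖(if a.succ = c.succ then 1 else 0 : ℂ)‖ ≤ 1 := by
        split_ifs <;> simp
      linarith
    · rw [dh_X hs a c (hsub hy)]
      have h1 := hs.uh c a y (hsub hy)
      linarith
  · refine (ne_co hK (fun a y hy => ?_) (fun a y hy => ?_) (fun a => (hab a).2.1)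
      fun a => (hab a).1).mono le_rfl le_rfl hfin
    · rw [dz_Q hs a.succ c (hsub hy)]
      have h1 := hs.qz c a.succ y (hsub hy)
      linarith
    · rw [dh_Q hs a c (hsub hy)]
      refine (norm_add_le _ _).trans ?_
      have h1 := hs.qh c a y (hsub hy)
      have h2 : ‖(A c a : ℂ)‖ ≤ M := by
        rw [Complex.norm_real, Real.norm_eq_abs]
        exact hc.A_le c a
      linarith

private theorem ne_tr {A B : Matrix (Fin n) (Fin n) ℝ} {M σ δ s b ε e N : ℝ}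
    {R w G : CE n → ℂ} {u q : Fin n → CE n → ℂ} {y : CE n} (hc : Ctx A B M σ R)
    (hs : St A B M σ R δ s b ε u q) (hy : y ∈ Om n δ s) (hG : Fn σ σ G)
    (hGb : Bd (σ / 2) (σ / 2) (2 / σ) G) (he : 0 ≤ e) (he2 : 2 * e ≤ σ / 4)
    (hN : 1 / σ ≤ N) (h1 : ∀ c, ‖co A B R u q w (Xf u c) y‖ ≤ e)
    (h2 : ∀ c, ‖co A B R u q w (Qf A q c) y‖ ≤ e) :
    ‖tr2 A B R u q w G y‖ ≤ 128 * N ^ 3 * e ^ 2 := by
  have hσ := hc.σ_pos
  have h3 : ∀ i, ‖(vv A B R u q w y).1 i‖ ≤ e := by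
    intro i
    refine Fin.cases ?_ (fun c => ?_) i
    · change ‖(0 : ℂ)‖ ≤ e
      rwa [norm_zero]
    · exact h1 c
  have h4 : ∀ a, ‖(vv A B R u q w y).2 a‖ ≤ e := h2
  have hN' : (1 / σ) ^ 3 ≤ N ^ 3 := pow_le_pow_left₀ (by positivity) hN 3
  rcases he.eq_or_lt with he0 | he0
  · have h5 : vv A B R u q w y = 0 := by
      refine Prod.ext (funext fun i => ?_) (funext fun a => ?_)
      · exact norm_le_zero_iff.1 ((h3 i).trans he0.symm.le)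
      · exact norm_le_zero_iff.1 ((h4 a).trans he0.symm.le)
    have h6 : tr2 A B R u q w G y = 0 := by
      unfold tr2
      rw [h5]
      simp
    rw [h6, norm_zero, ← he0]
    simp
  · have h5 : σ / 4 + σ / 4 = σ / 2 := by ring
    have h6 := tay2 (δ := σ / 4) (s := σ / 4) (r := σ / 4) (c := 2 / σ) (F := G)
      (v := vv A B R u q w y) (by rw [h5]; exact hGb)
      (by rw [h5]; exact hG.mono (by linarith) (by linarith)) (Ps_mem hc hs hy) he0 he2 h3 h4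
    have h7 : 4 * (2 / σ) * e ^ 2 / (σ / 4) ^ 2 = 128 * (1 / σ) ^ 3 * e ^ 2 := by
      field_simp
      ring
    rw [h7] at h6
    refine (le_trans (le_of_eq ?_) h6).trans ?_
    · rfl
    · have h8 : 0 ≤ e ^ 2 := by positivity
      nlinarith

private theorem ne_sum {δ s ε e N : ℝ} {E : CE n → ℂ} {f g : Fin n → CE n → ℂ} {y : CE n}
    (hδ : 0 < δ) (hs : 0 < s) (hN1 : 1 / δ ≤ N) (hN2 : 1 / s ≤ N)
    (hE : Fn δ s E) (hEb : Bd δ s ε E) (hf : ∀ a, Bd (δ / 4) (s / 4) e (f a))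
    (hg : ∀ a, Bd (δ / 4) (s / 4) e (g a)) (hy : y ∈ Om n (δ / 8) (s / 8)) (hε : 0 ≤ ε)
    (hN : 0 ≤ N) :
    ‖∑ a : Fin n, dz a.succ E y * f a y‖ ≤ n * (2 * N * ε * e) ∧
      ‖∑ a : Fin n, dh a E y * g a y‖ ≤ n * (2 * N * ε * e) := by
  have h1 : ε / (δ - δ / 2) ≤ 2 * N * ε := by
    have h2 : ε / (δ - δ / 2) = 2 * ε * (1 / δ) := by
      field_simp
      ring
    rw [h2]
    nlinarith
  have h2 : ε / (s - s / 2) ≤ 2 * N * ε := by
    have h2 : ε / (s - s / 2) = 2 * ε * (1 / s) := by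
      field_simp
      ring
    rw [h2]
    nlinarith
  have hK : 0 ≤ 2 * N * ε := by positivity
  constructor
  · refine Bd.sum' (fun a => Bd.mul ?_ ((hf a).mono (δ' := δ / 8) (s' := s / 8) (by linarith)
      (by linarith) le_rfl) hK) y hy
    exact (hEb.cdz hE (δ' := δ / 2) (by linarith) a.succ).mono (by linarith) (by linarith) h1
  · refine Bd.sum' (fun a => Bd.mul ?_ ((hg a).mono (δ' := δ / 8) (s' := s / 8) (by linarith)
      (by linarith) le_rfl) hK) y hy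
    exact (hEb.cdh hE (s' := s / 2) (by linarith) a).mono (by linarith) (by linarith) h2

/-- the sum of the bounds -/
private theorem ne_fin {C1 C2 C3 N ε ζ x1 x2 x3 x4 : ℝ} {p1 p2 p3 : ℕ} (hC1 : 1 ≤ C1)
    (hC2 : 1 ≤ C2) (hC3 : 1 ≤ C3) (hN : 1 ≤ N) (hε : 0 ≤ ε) (hζ : 0 ≤ ζ)
    (h1 : x1 ≤ C2 * N ^ p2 * ((ε + ζ) ^ 2 + ζ))
    (h2 : x2 ≤ n * (2 * N * ε * (C1 * N ^ p1 * (ε + ζ))))
    (h3 : x3 ≤ n * (2 * N * ε * (C1 * N ^ p1 * (ε + ζ))))
    (h4 : x4 ≤ 128 * N ^ 3 * (C3 * N ^ p3 * (ε + ζ)) ^ 2) :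
    x1 + x2 + x3 + x4 ≤ (C2 + 4 * n * C1 + 128 * C3 ^ 2 + C3) * N ^ (p1 + p2 + 2 * p3 + 3) *
      ((ε + ζ) ^ 2 + ζ) := by
  have hn : (0 : ℝ) ≤ n := Nat.cast_nonneg n
  set P := N ^ (p1 + p2 + 2 * p3 + 3) with hP
  set X := (ε + ζ) ^ 2 + ζ with hX
  have hX0 : 0 ≤ X := by positivity
  have hP0 : 0 ≤ P := by positivity
  have h5 : N ^ p2 ≤ P := pow_le_pow_right₀ hN (by omega)
  have h6 : N ^ (p1 + 1) ≤ P := pow_le_pow_right₀ hN (by omega)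
  have h7 : N ^ (2 * p3 + 3) ≤ P := pow_le_pow_right₀ hN (by omega)
  have h8 : (ε + ζ) ^ 2 ≤ X := by linarith
  have h9 : ε * (ε + ζ) ≤ X := by nlinarith
  have a1 : C2 * N ^ p2 * X ≤ C2 * P * X := by gcongr
  have a2 : n * (2 * N * ε * (C1 * N ^ p1 * (ε + ζ))) ≤ 2 * n * C1 * P * X := by
    calc n * (2 * N * ε * (C1 * N ^ p1 * (ε + ζ))) =
        2 * n * C1 * N ^ (p1 + 1) * (ε * (ε + ζ)) := by ring
      _ ≤ 2 * n * C1 * P * X := by gcongr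
  have a3 : 128 * N ^ 3 * (C3 * N ^ p3 * (ε + ζ)) ^ 2 ≤ 128 * C3 ^ 2 * P * X := by
    calc 128 * N ^ 3 * (C3 * N ^ p3 * (ε + ζ)) ^ 2 =
        128 * C3 ^ 2 * N ^ (2 * p3 + 3) * (ε + ζ) ^ 2 := by ring
      _ ≤ 128 * C3 ^ 2 * P * X := by gcongr
  have a4 : 0 ≤ C3 * P * X := by positivity
  calc x1 + x2 + x3 + x4 ≤ C2 * P * X + 2 * n * C1 * P * X + 2 * n * C1 * P * X +
        128 * C3 ^ 2 * P * X := by linarith
    _ ≤ C2 * P * X + 2 * n * C1 * P * X + 2 * n * C1 * P * X +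
        128 * C3 ^ 2 * P * X + C3 * P * X := by linarith
    _ = (C2 + 4 * n * C1 + 128 * C3 ^ 2 + C3) * P * X := by ring

theorem bd_new (n : ℕ) (M : ℝ) : ∃ C : ℝ, ∃ p : ℕ, 1 ≤ C ∧
    ∀ {A B : Matrix (Fin n) (Fin n) ℝ} {σ δ s b ε N ζ : ℝ} {R w : CE n → ℂ}
      {u q : Fin n → CE n → ℂ}, Ctx A B M σ R → St A B M σ R δ s b ε u q → Fn δ s w →
      0 ≤ ζ → Bd δ s ζ (ZZ A B R u q w) → Big σ δ s N → C * N ^ p * (ε + ζ) ≤ b0 n M σ →
      ∀ c : Fin n,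
        Bd (δ / 8) (s / 8) (C * N ^ p * ((ε + ζ) ^ 2 + ζ))
          (E1 A B R (un A B R u q w) (qn A B R u q w) c) ∧
        Bd (δ / 8) (s / 8) (C * N ^ p * ((ε + ζ) ^ 2 + ζ))
          (E2 A R (un A B R u q w) (qn A B R u q w) c) := by
  obtain ⟨C1, p1, hC1, H1⟩ := bd_ab n M
  obtain ⟨C2, p2, hC2, H2⟩ := bd_rs n M
  obtain ⟨C3, p3, hC3, H3⟩ := bd_co n M
  have hn : (0 : ℝ) ≤ n := Nat.cast_nonneg n
  have hnC : (0 : ℝ) ≤ 4 * n * C1 := by positivity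
  have hC3' : (0 : ℝ) ≤ 128 * C3 ^ 2 := by positivity
  refine ⟨C2 + 4 * n * C1 + 128 * C3 ^ 2 + C3, p1 + p2 + 2 * p3 + 3, by linarith, ?_⟩
  intro A B σ δ s b ε N ζ R w u q hc hs hw hζ hZ hN hsm c
  have hab := H1 hc hs hw hζ hZ hN
  have hrs := H2 hc hs hw hζ hZ hN c
  have hco := H3 hc hs hw hζ hZ hN
  have hN1 := hN.one
  have hN0 : (0 : ℝ) ≤ N := by linarith
  have hε := hs.ε_nonneg
  have hδ := hs.δ_pos
  have hs' := hs.s_pos
  have hσ := hc.σ_pos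
  have he : 0 ≤ C3 * N ^ p3 * (ε + ζ) := by positivity
  have he2 : 2 * (C3 * N ^ p3 * (ε + ζ)) ≤ σ / 4 := by
    have h1 := ne_b0 hc
    have h2 : N ^ p3 ≤ N ^ (p1 + p2 + 2 * p3 + 3) := pow_le_pow_right₀ hN1 (by omega)
    have h3 : C3 * N ^ p3 * (ε + ζ) ≤ (C2 + 4 * n * C1 + 128 * C3 ^ 2 + C3) *
        N ^ (p1 + p2 + 2 * p3 + 3) * (ε + ζ) := by
      gcongr
      linarith
    linarith
  have hGh : Fn σ σ (dh c R) := hc.R_fn.dh c
  have hGz : Fn σ σ (dz c.succ R) := hc.R_fn.dz c.succ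
  have h2σ : 1 / (σ - σ / 2) ≤ 2 / σ := by
    apply le_of_eq
    field_simp
    ring
  have hBh : Bd (σ / 2) (σ / 2) (2 / σ) (dh c R) :=
    (hc.R_bd.cdh hc.R_fn (s' := σ / 2) (by linarith) c).mono (by linarith) le_rfl h2σ
  have hBz : Bd (σ / 2) (σ / 2) (2 / σ) (dz c.succ R) :=
    (hc.R_bd.cdz hc.R_fn (δ' := σ / 2) (by linarith) c.succ).mono le_rfl (by linarith) h2σ
  constructor
  · intro y hy
    have hy4 : y ∈ Om n (δ / 4) (s / 4) := Om_mono (by linarith) (by linarith) hy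
    have hy1 : y ∈ Om n δ s := Om_mono (by linarith) (by linarith) hy
    obtain ⟨g1, g2⟩ := ne_sum (f := al A B R u q w) (g := be A B R u q w) hδ hs' hN.hδ hN.hs
      (E1_fn hc hs c) (hs.e1 c) (fun a => (hab a).2.1) (fun a => (hab a).1) hy hε hN0
    have g3 := ne_tr (w := w) hc hs hy1 hGh hBh he he2 hN.hσ (fun c => (hco c).1 y hy4)
      fun c => (hco c).2 y hy4
    rw [new_E1 hc hs hw c hy1]
    refine (norm_sub_le _ _).trans ?_
    refine (add_le_add_left (norm_add_le _ _) _).trans ?_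
    refine (add_le_add_left (add_le_add_left (norm_add_le _ _) _) _).trans ?_
    exact ne_fin hC1 hC2 hC3 hN1 hε hζ (hrs.1 y hy) g1 g2 g3
  · intro y hy
    have hy4 : y ∈ Om n (δ / 4) (s / 4) := Om_mono (by linarith) (by linarith) hy
    have hy1 : y ∈ Om n δ s := Om_mono (by linarith) (by linarith) hy
    obtain ⟨g1, g2⟩ := ne_sum (f := al A B R u q w) (g := be A B R u q w) hδ hs' hN.hδ hN.hs
      (E2_fn hc hs c) (hs.e2 c) (fun a => (hab a).2.1) (fun a => (hab a).1) hy hε hN0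
    have g3 := ne_tr (w := w) hc hs hy1 hGz hBz he he2 hN.hσ (fun c => (hco c).1 y hy4)
      fun c => (hco c).2 y hy4
    rw [new_E2 hc hs hw c hy1]
    refine (norm_add_le _ _).trans ?_
    refine (add_le_add_left (norm_add_le _ _) _).trans ?_
    refine (add_le_add_left (add_le_add_left (norm_add_le _ _) _) _).trans ?_
    exact ne_fin hC1 hC2 hC3 hN1 hε hζ (hrs.2 y hy) g1 g2 g3

end Pool.Agent.LRig
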