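import Pool.Agent.LRig.NE

/-!
# LR (MP_74f563_an, all n), file NF: one Newton step

PROOF.  `u' = un`, `q' = qn`, `e = ε + ζ`, `e' = C N^p e` with `C`, `p` so large that all the bounds
below hold (`bd_co`, `bd_new`, `bd_Th`); `b' = b + e'`, domain `Om (δ/64) (s/64)`.
* `ufn`, `qfn`: `coX_fn`, `coQ_fn`.  `u0`, `q0`: `‖u'‖ ≤ b + ‖co‖` (`bd_co`).
* `uz`, `qz`, `uh`, `qh`: `dz i (u' c) = dz i (u c) + dz i (co ..)`; Cauchy from `Om (δ/4) (s/4)` to
  `Om (δ/8) (s/8)`: `‖dz i (co ..)‖ ≤ 8/δ ‖co‖ ≤ 8 N ‖co‖`, `‖dh a (co ..)‖ ≤ 8 N ‖co‖`.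
* `tau`: `dh a (gg' c) = dh a (gg c) + dh a (dh c (avg (Lm' - Lm)))`, `Lm' = Lm .. u' q'`.  On
  `Om (δ/8) (s/8)` `Lm = ∑ q_a (E1 a + ∑_c B_ac q_c + dh a R (Ψ)) - ½ ∑ ∑ B_ac q_a q_c - R(Ψ)`, and
  the same for
  the new functions (definition of `E1`), so `Lm' - Lm` is a sum of differences, each bounded by
  `C N^p (e + ε + ‖E1'‖)`: `‖q' - q‖ ≤ C N^p e`, `‖R(Ψ') - R(Ψ)‖`, `‖dh a R(Ψ') - dh a R(Ψ)‖` by
  `tay1`
  (file FB) as in NE, `‖E1'‖ ≤ C N^p (e² + ζ) ≤ C N^p 2 e` (`bd_new`; `e ≤ 1`).  Then `avg_bd` and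
  two
  Cauchy estimates in `h`: from the strip `s/8` to `s/16` to `s/64`: a factor `C N²`.
  `dh (avg F) ` for functions which agree on the domain: `avg_sub`, `dh_congr`, `dh_sub`.
* `e1`, `e2`: `bd_new`.  `b_le`: the hypothesis.  `ε_le`: `C N^p (e² + ζ) ≤ 2 C N^p e ≤ 2 b0 ≤ 1`.
* `δ_le`, `s_le`: the new widths are smaller.
The differences `u' - u = co ..` and `Th`: `bd_co`, `bd_Th`.
-/

set_option autoImplicit false

namespace Pool.Agent.LRig

open Complex Set MeasureTheory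

variable {n : ℕ}

private lemma cmpN {N e c C : ℝ} {k p : ℕ} (hN : 1 ≤ N) (he : 0 ≤ e) (hc : c ≤ C) (hC : 0 ≤ C)
    (hk : k ≤ p) : c * N ^ k * e ≤ C * N ^ p * e := by
  have h1 : N ^ k ≤ N ^ p := pow_le_pow_right₀ hN hk
  have h0 : 0 ≤ N ^ k := by positivity
  exact mul_le_mul_of_nonneg_right (mul_le_mul hc h1 h0 hC) he

private lemma tay0 {δ s c e r : ℝ} {F : CE n → ℂ} {y v : CE n} (hb : Bd (δ + r) (s + r) c F)
    (hF : Fn (δ + r) (s + r) F) (hy : y ∈ Om n δ s) (he : 0 ≤ e) (hr : 2 * e ≤ r)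
    (h1 : ∀ i, ‖v.1 i‖ ≤ e) (h2 : ∀ a, ‖v.2 a‖ ≤ e) : ‖F (y + v) - F y‖ ≤ 4 * c * e / r := by
  rcases he.eq_or_lt with h | h
  · have hv : v = 0 := by
      refine Prod.ext (funext fun i => ?_) (funext fun a => ?_)
      · have := h1 i
        rw [← h] at this
        exact norm_le_zero_iff.1 this
      · have := h2 a
        rw [← h] at this
        exact norm_le_zero_iff.1 this
    rw [hv, add_zero, sub_self, norm_zero, ← h]
    simp
  · exact tay1 hb hF hy h hr h1 h2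

private lemma comp_new {A : Matrix (Fin n) (Fin n) ℝ} {σ δ s : ℝ} {G : CE n → ℂ}
    {u q : Fin n → CE n → ℂ} (hG : Fn σ σ G) (hu : ∀ a, Fn δ s (u a)) (hq : ∀ a, Fn δ s (q a))
    (hm : ∀ y ∈ Om n δ s, Ps A u q y ∈ Om n σ σ) : Fn δ s fun y => G (Ps A u q y) where
  hol := by
    refine hG.hol.comp ?_ hm
    intro y hy
    apply DifferentiableAt.differentiableWithinAt
    have hX : ∀ a, DifferentiableAt ℂ (Xf u a) y := fun a => by
      have h1 : DifferentiableAt ℂ (fun y : CE n => y.1 a.succ) y := by fun_prop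
      exact h1.add ((hu a).dat hy)
    have hQ : ∀ a, DifferentiableAt ℂ (Qf A q a) y := fun a => by
      have h1 : DifferentiableAt ℂ (fun y : CE n => ∑ b, (A a b : ℂ) * y.2 b) y := by fun_prop
      exact h1.add ((hq a).dat hy)
    refine DifferentiableAt.prodMk (differentiableAt_pi.2 fun i => ?_)
      (differentiableAt_pi.2 fun a => hQ a)
    refine Fin.cases ?_ (fun a => ?_) i
    · simp only [Fin.cons_zero]
      fun_prop
    · simp only [Fin.cons_succ]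
      exact hX a
  per := by
    intro i y
    have h : Ps A u q (y + ez i) = Ps A u q y + ez i := by
      refine Prod.ext (funext fun j => ?_) (funext fun a => ?_)
      · refine Fin.cases ?_ (fun a => ?_) j
        · simp [Ps, ez]
        · simp only [Ps, Prod.fst_add, Fin.cons_succ, Pi.add_apply, Xf, (hu a).per]
          ring
      · have h3 := (hq a).per i y
        simp only [Ps, Qf, h3]
        simp [ez]
    show G (Ps A u q (y + ez i)) = G (Ps A u q y)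
    rw [h, hG.per]
  real := by
    intro y
    have h : Ps A u q (cj y) = cj (Ps A u q y) := by
      refine Prod.ext (funext fun j => ?_) (funext fun a => ?_)
      · refine Fin.cases ?_ (fun a => ?_) j
        · simp [Ps, cj]
        · simp only [Ps, Fin.cons_succ, Xf, (hu a).real]
          simp [cj]
      · simp only [Ps, Qf, (hq a).real]
        simp [cj]
    show G (Ps A u q (cj y)) = _
    rw [h, hG.real]

private lemma Bd.rmul {δ s c N x : ℝ} {F : CE n → ℂ} (h : Bd δ s (c / x) F) (hc : 0 ≤ c)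
    (hx : 1 / x ≤ N) : Bd δ s (c * N) F := by
  intro y hy
  refine (h y hy).trans ?_
  rw [div_eq_mul_one_div]
  exact mul_le_mul_of_nonneg_left hx hc

private lemma alg {B : Matrix (Fin n) (Fin n) ℝ} {M c1 m ε ε' r1 r2 : ℝ}
    {q q' d d' ρ ρ' E E' : Fin n → ℂ} {S S' : ℂ} (hc1 : 0 ≤ c1) (hM : 0 ≤ M)
    (hB : ∀ i j, |B i j| ≤ M)
    (hE : ∀ a, E a = d a - ∑ b, (B a b : ℂ) * q b - ρ a)
    (hE' : ∀ a, E' a = d' a - ∑ b, (B a b : ℂ) * q' b - ρ' a)
    (h1 : ∀ a, ‖q a‖ ≤ 1) (h1' : ∀ a, ‖q' a‖ ≤ 1) (h2 : ∀ a, ‖q' a - q a‖ ≤ c1)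
    (h3 : ∀ a, ‖E a‖ ≤ ε) (h3' : ∀ a, ‖E' a‖ ≤ ε') (h4 : ∀ a, ‖ρ' a - ρ a‖ ≤ r1)
    (h5 : ∀ a, ‖d a‖ ≤ m) (h6 : ‖S' - S‖ ≤ r2) :
    ‖(∑ a, q' a * d' a - (∑ a, ∑ b, (B a b : ℂ) * q' a * q' b) / 2 - S') -
      (∑ a, q a * d a - (∑ a, ∑ b, (B a b : ℂ) * q a * q b) / 2 - S)‖ ≤
      n * (ε' + ε + n * M * c1 + r1 + c1 * m) + n ^ 2 * M * c1 + r2 := by
  have hBc : ∀ i j, ‖(B i j : ℂ)‖ ≤ M := fun i j => by
    rw [Complex.norm_real]; exact hB i j
  have hsumc : ∀ (f : Fin n → ℂ) (t : ℝ), (∀ i, ‖f i‖ ≤ t) → ‖∑ i, f i‖ ≤ n * t := by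
    intro f t h
    refine (norm_sum_le _ _).trans ((Finset.sum_le_sum fun i _ => h i).trans ?_)
    simp
  have k1 : ∀ a, ‖d' a - d a‖ ≤ ε' + ε + n * M * c1 + r1 := by
    intro a
    have e1 : d' a - d a = E' a - E a + ∑ b, (B a b : ℂ) * (q' b - q b) + (ρ' a - ρ a) := by
      rw [hE, hE']
      simp only [mul_sub, Finset.sum_sub_distrib]
      ring
    rw [e1]
    have e2 : ‖∑ b, (B a b : ℂ) * (q' b - q b)‖ ≤ n * (M * c1) := by
      refine hsumc _ _ fun b => ?_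
      rw [norm_mul]
      exact mul_le_mul (hBc a b) (h2 b) (norm_nonneg _) hM
    calc ‖E' a - E a + ∑ b, (B a b : ℂ) * (q' b - q b) + (ρ' a - ρ a)‖
        ≤ ‖E' a - E a‖ + ‖∑ b, (B a b : ℂ) * (q' b - q b)‖ + ‖ρ' a - ρ a‖ := norm_add₃_le
      _ ≤ (ε' + ε) + n * (M * c1) + r1 := by
          refine add_le_add (add_le_add ?_ e2) (h4 a)
          exact (norm_sub_le _ _).trans (add_le_add (h3' a) (h3 a))
      _ = _ := by ring
  have k2 : ∀ a, ‖q' a * d' a - q a * d a‖ ≤ ε' + ε + n * M * c1 + r1 + c1 * m := by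
    intro a
    have e1 : q' a * d' a - q a * d a = q' a * (d' a - d a) + (q' a - q a) * d a := by ring
    rw [e1]
    refine (norm_add_le _ _).trans ?_
    rw [norm_mul, norm_mul]
    refine add_le_add ?_ (mul_le_mul (h2 a) (h5 a) (norm_nonneg _) hc1)
    calc ‖q' a‖ * ‖d' a - d a‖ ≤ 1 * ‖d' a - d a‖ :=
          mul_le_mul_of_nonneg_right (h1' a) (norm_nonneg _)
      _ ≤ _ := by rw [one_mul]; exact k1 a
  have k3 : ∀ a b, ‖(B a b : ℂ) * q' a * q' b - (B a b : ℂ) * q a * q b‖ ≤ M * (2 * c1) := by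
    intro a b
    have e1 : (B a b : ℂ) * q' a * q' b - (B a b : ℂ) * q a * q b =
        (B a b : ℂ) * (q' a * (q' b - q b) + (q' a - q a) * q b) := by ring
    rw [e1, norm_mul]
    refine mul_le_mul (hBc a b) ?_ (norm_nonneg _) hM
    refine (norm_add_le _ _).trans ?_
    rw [norm_mul, norm_mul]
    have e2 : ‖q' a‖ * ‖q' b - q b‖ ≤ 1 * c1 :=
      mul_le_mul (h1' a) (h2 b) (norm_nonneg _) zero_le_one
    have e3 : ‖q' a - q a‖ * ‖q b‖ ≤ c1 * 1 :=
      mul_le_mul (h2 a) (h1 b) (norm_nonneg _) hc1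
    linarith
  have e0 : (∑ a, q' a * d' a - (∑ a, ∑ b, (B a b : ℂ) * q' a * q' b) / 2 - S') -
      (∑ a, q a * d a - (∑ a, ∑ b, (B a b : ℂ) * q a * q b) / 2 - S) =
      ∑ a, (q' a * d' a - q a * d a) -
        (∑ a, ∑ b, ((B a b : ℂ) * q' a * q' b - (B a b : ℂ) * q a * q b)) / 2 -
          (S' - S) := by
    simp only [Finset.sum_sub_distrib]
    ring
  rw [e0]
  have g1 : ‖∑ a, (q' a * d' a - q a * d a)‖ ≤
      n * (ε' + ε + n * M * c1 + r1 + c1 * m) := hsumc _ _ k2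
  have g2 : ‖(∑ a, ∑ b, ((B a b : ℂ) * q' a * q' b - (B a b : ℂ) * q a * q b)) / 2‖ ≤
      n ^ 2 * M * c1 := by
    rw [norm_div]
    have : ‖∑ a, ∑ b, ((B a b : ℂ) * q' a * q' b - (B a b : ℂ) * q a * q b)‖ ≤
        n * (n * (M * (2 * c1))) := hsumc _ _ fun a => hsumc _ _ fun b => k3 a b
    have h2' : ‖(2 : ℂ)‖ = 2 := by norm_num
    rw [h2', div_le_iff₀ (by norm_num)]
    refine this.trans (le_of_eq ?_)
    ring
  calc _ ≤ ‖∑ a, (q' a * d' a - q a * d a)‖ +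
        ‖(∑ a, ∑ b, ((B a b : ℂ) * q' a * q' b - (B a b : ℂ) * q a * q b)) / 2‖ +
        ‖S' - S‖ := by
          refine (norm_sub_le _ _).trans ?_
          gcongr
          exact norm_sub_le _ _
    _ ≤ _ := add_le_add (add_le_add g1 g2) h6


private lemma widths {x : ℝ} (h : 0 < x) : x / 64 ≤ x ∧ x / 64 ≤ x / 8 ∧ x / 64 ≤ x / 4 ∧
    x / 8 ≤ x ∧ x / 8 ≤ x / 4 ∧ x / 4 ≤ x ∧ x / 8 < x / 4 := by
  refine ⟨?_, ?_, ?_, ?_, ?_, ?_, ?_⟩ <;> linarith

private lemma widths' {x : ℝ} (h : 0 < x) : x / 64 ≤ x ∧ x / 64 ≤ x / 8 ∧ x / 64 ≤ x / 4 ∧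
    x / 8 ≤ x ∧ x / 8 ≤ x / 4 ∧ x / 4 ≤ x ∧ x / 8 < x / 4 ∧ x / 16 < x / 8 ∧ x / 32 < x / 16 ∧
    x / 16 ≤ x / 8 ∧ x / 64 ≤ x / 32 := by
  refine ⟨?_, ?_, ?_, ?_, ?_, ?_, ?_, ?_, ?_, ?_, ?_⟩ <;> linarith

private lemma b0_le (n : ℕ) {M σ : ℝ} (hM : 1 ≤ M) (hσ : 0 < σ) (hσ1 : σ ≤ 1) :
    b0 n M σ ≤ σ / 64 ∧ n * M * b0 n M σ ≤ 1 := by
  have hn1 : (0 : ℝ) ≤ n := Nat.cast_nonneg n
  constructor
  · unfold b0
    have h1 : (1 : ℝ) ≤ (n + 1) ^ 2 := by nlinarith
    have h2 : (64 : ℝ) ≤ 64 * (n + 1) ^ 2 * M := by nlinarith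
    exact div_le_div_of_nonneg_left hσ.le (by norm_num) h2
  · unfold b0
    have h3 : (0 : ℝ) < 64 * (n + 1) ^ 2 * M := by positivity
    rw [mul_div_assoc', div_le_one h3]
    have h4 : n * M * σ ≤ n * M * 1 := mul_le_mul_of_nonneg_left hσ1 (by positivity)
    have h5 : (n : ℝ) ≤ 64 * (n + 1) ^ 2 := by nlinarith
    nlinarith

theorem newton (n : ℕ) (M : ℝ) : ∃ C : ℝ, ∃ p : ℕ, 1 ≤ C ∧
    ∀ {A B : Matrix (Fin n) (Fin n) ℝ} {σ δ s b ε N ζ : ℝ} {R w : CE n → ℂ}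
      {u q : Fin n → CE n → ℂ}, Ctx A B M σ R → St A B M σ R δ s b ε u q → Fn δ s w →
      0 ≤ ζ → Bd δ s ζ (ZZ A B R u q w) → Big σ δ s N →
      b + C * N ^ p * (ε + ζ) ≤ b0 n M σ → ∃ u' q' : Fin n → CE n → ℂ,
        St A B M σ R (δ / 64) (s / 64) (b + C * N ^ p * (ε + ζ))
          (C * N ^ p * ((ε + ζ) ^ 2 + ζ)) u' q' ∧
        (∀ c : Fin n, Bd (δ / 64) (s / 64) (C * N ^ p * (ε + ζ)) fun y => u' c y - u c y) ∧
        (∀ c : Fin n, Bd (δ / 64) (s / 64) (C * N ^ p * (ε + ζ)) fun y => q' c y - q c y) ∧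
        ∀ a c : Fin n, Bd (δ / 64) (s / 64) (C * N ^ p * (ε + ζ)) (Th A u q a c) := by
  obtain ⟨C1, p1, hC1, H1⟩ := bd_co n M
  obtain ⟨C2, p2, hC2, H2⟩ := bd_new n M
  obtain ⟨C3, p3, hC3, H3⟩ := bd_Th n M
  set C4 : ℝ := n * (2 * C2 + 1 + n * |M| * C1 + 36 * C1) + n ^ 2 * |M| * C1 + 16 * C1 with hC4
  have hC40 : 0 ≤ C4 := by positivity
  refine ⟨8 * C1 + C2 + C3 + 512 * C4, p1 + p2 + p3 + 4, by linarith, ?_⟩
  intro A B σ δ s b ε N ζ R w u q hc hs hw hζ hZ hN hb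
  have hδ := hs.δ_pos
  have hs0 := hs.s_pos
  obtain ⟨dA, dB, dC, dD, dE, dF, dG⟩ := widths hδ
  obtain ⟨sA, sB, sC, sD, sE, sF, sG, sH, sI, sJ, sK⟩ := widths' hs0
  set C : ℝ := 8 * C1 + C2 + C3 + 512 * C4 with hC
  set p : ℕ := p1 + p2 + p3 + 4 with hp
  have hC0 : 0 ≤ C := by positivity
  obtain ⟨c8, cc1, cc2, cc3, cc5, cc6⟩ : 8 * C1 ≤ C ∧ C1 ≤ C ∧ C2 ≤ C ∧ C3 ≤ C ∧ 512 * C4 ≤ C ∧
      1 ≤ C := by
    refine ⟨?_, ?_, ?_, ?_, ?_, ?_⟩ <;> linarith
  obtain ⟨pp1, pp1', pp2, pp3, pp4⟩ : p1 ≤ p ∧ p1 + 1 ≤ p ∧ p2 ≤ p ∧ p3 ≤ p ∧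
      p1 + p2 + 4 ≤ p := by
    refine ⟨?_, ?_, ?_, ?_, ?_⟩ <;> omega
  have hN1 := hN.one
  have hN0 : 0 < N := by linarith
  have he0 : 0 ≤ ε + ζ := add_nonneg hs.ε_nonneg hζ
  set e : ℝ := ε + ζ with he
  have hle : ∀ {c : ℝ} {k : ℕ}, c ≤ C → k ≤ p → c * N ^ k * e ≤ C * N ^ p * e :=
    fun h1 h2 => cmpN hN1 he0 h1 hC0 h2
  have hbn := hs.b_nonneg
  have hM := hc.M_ge
  have hσ := hc.σ_pos
  have hσ1 := hc.σ_le
  have hb0 : C * N ^ p * e ≤ b0 n M σ := by linarith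
  have hn1 : (0 : ℝ) ≤ n := Nat.cast_nonneg n
  obtain ⟨σ1, σ2, σ3⟩ : σ / 2 < σ ∧ σ / 4 + σ / 4 ≤ σ / 2 ∧ σ / 4 + σ / 4 ≤ σ := by
    refine ⟨?_, ?_, ?_⟩ <;> linarith
  obtain ⟨hb064, hnMb⟩ := b0_le n hM hσ hσ1
  have he1 : e ≤ 1 := by
    have h1 : 1 * N ^ 0 * e ≤ C * N ^ p * e := hle cc6 (Nat.zero_le _)
    rw [pow_zero, one_mul, one_mul] at h1
    linarith
  have hζe : ζ ≤ e := by rw [he]; linarith [hs.ε_nonneg]
  have hεe : ε ≤ e := by rw [he]; linarith
  have hee : e ^ 2 + ζ ≤ 2 * e := by nlinarith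
  have hee0 : 0 ≤ e ^ 2 + ζ := by positivity
  -- the bounds
  set c1 : ℝ := C1 * N ^ p1 * e with hc1
  have hc10 : 0 ≤ c1 := by positivity
  have hc1b : c1 ≤ b0 n M σ := (hle cc1 pp1).trans hb0
  have G1 := fun c => H1 hc hs hw hζ hZ hN c
  have G2 := fun c => H2 hc hs hw hζ hZ hN ((hle cc2 pp2).trans hb0) c
  have G3 := fun a c => H3 hc hs hw hζ hZ hN a c
  have h8δ : 1 / (δ / 4 - δ / 8) ≤ 8 * N := by
    have : 1 / (δ / 4 - δ / 8) = 8 * (1 / δ) := by field_simp; norm_num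
    rw [this]
    linarith [hN.hδ]
  have h8s : 1 / (s / 4 - s / 8) ≤ 8 * N := by
    have : 1 / (s / 4 - s / 8) = 8 * (1 / s) := by field_simp; norm_num
    rw [this]
    linarith [hN.hs]
  have hX := fun c => coX_fn hc hs hw c
  have hQ := fun c => coQ_fn hc hs hw c
  -- monotonicity of the new domain
  have hbig : c1 * (8 * N) ≤ C * N ^ p * e := by
    have h1 : c1 * (8 * N) = (8 * C1) * N ^ (p1 + 1) * e := by rw [hc1]; ring
    rw [h1]
    exact hle c8 pp1'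
  have hbig0 : c1 ≤ C * N ^ p * e := hle cc1 pp1
  have hun : ∀ c, Fn δ s (un A B R u q w c) := fun c => (hs.ufn c).add (hX c)
  have hqn : ∀ c, Fn δ s (qn A B R u q w c) := fun c => (hs.qfn c).add (hQ c)
  have hsub : Om n (δ / 64) (s / 64) ⊆ Om n δ s := Om_mono dA sA
  have hsub8 : Om n (δ / 8) (s / 8) ⊆ Om n δ s := Om_mono dD sD
  have hsub4 : Om n (δ / 8) (s / 8) ⊆ Om n (δ / 4) (s / 4) := Om_mono dE sE
  have hvv1 : ∀ y ∈ Om n (δ / 4) (s / 4), ∀ i, ‖(vv A B R u q w y).1 i‖ ≤ c1 := by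
    intro y hy i
    refine Fin.cases ?_ (fun a => ?_) i
    · simpa [vv] using hc10
    · simpa [vv] using (G1 a).1 y hy
  have hvv2 : ∀ y ∈ Om n (δ / 4) (s / 4), ∀ a, ‖(vv A B R u q w y).2 a‖ ≤ c1 := by
    intro y hy a
    simpa [vv] using (G1 a).2 y hy
  have hmem : ∀ y ∈ Om n (δ / 8) (s / 8),
      Ps A (un A B R u q w) (qn A B R u q w) y ∈ Om n σ σ := by
    intro y hy
    rw [Ps_new]
    refine Om_mono ?_ ?_ (add_mem_Om (Ps_mem hc hs (hsub8 hy)) (hvv1 y (hsub4 hy))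
      (hvv2 y (hsub4 hy)))
    · linarith
    · linarith
  have hRn : Fn (δ / 8) (s / 8)
      fun y => R (Ps A (un A B R u q w) (qn A B R u q w) y) :=
    comp_new hc.R_fn (fun a => (hun a).mono dD sD) (fun a => (hqn a).mono dD sD) hmem
  -- the new Lagrangian
  set F : CE n → ℂ := Lm A B R u q with hFdef
  set F' : CE n → ℂ := Lm A B R (un A B R u q w) (qn A B R u q w) with hFdef'
  have hF : Fn (δ / 8) (s / 8) F := (Lm_fn hc hs).mono dD sD
  have hF' : Fn (δ / 8) (s / 8) F' := by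
    have h8u : ∀ a, Fn (δ / 8) (s / 8) (un A B R u q w a) :=
      fun a => (hun a).mono dD sD
    have h8q : ∀ a, Fn (δ / 8) (s / 8) (qn A B R u q w a) :=
      fun a => (hqn a).mono dD sD
    have e1 : Fn (δ / 8) (s / 8) fun y => ∑ a, qn A B R u q w a y *
        DD (un A B R u q w a) y := Fn.sum fun a _ => (h8q a).mul (h8u a).DD
    have e2 : Fn (δ / 8) (s / 8) fun y => ((1 / 2 : ℝ) : ℂ) * ∑ a, ∑ c,
        ((B a c : ℂ) * qn A B R u q w a y) * qn A B R u q w c y :=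
      Fn.smul (1 / 2) (Fn.sum fun a _ => Fn.sum fun c _ => ((h8q a).smul (B a c)).mul (h8q c))
    have e3 := (e1.sub e2).sub hRn
    have e4 : F' = fun y => ∑ a, qn A B R u q w a y * DD (un A B R u q w a) y -
        ((1 / 2 : ℝ) : ℂ) * ∑ a, ∑ c,
        ((B a c : ℂ) * qn A B R u q w a y) * qn A B R u q w c y -
        R (Ps A (un A B R u q w) (qn A B R u q w) y) := by
      funext y
      rw [hFdef']
      simp only [Lm]
      push_cast
      ring
    rw [e4]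
    exact e3
  have hD : Bd (δ / 8) (s / 8) (C4 * N ^ (p1 + p2 + 2) * e) fun y => F' y - F y := by
    intro y hy
    have hy0 := hsub8 hy
    have hyP := Ps_mem hc hs hy0
    have v1 := hvv1 y (hsub4 hy)
    have v2 := hvv2 y (hsub4 hy)
    have h2c : 2 * c1 ≤ σ / 4 := by linarith
    have hσN := hN.hσ
    have hc1σ : c1 * (1 / σ) ≤ c1 * N := mul_le_mul_of_nonneg_left hσN hc10
    have hdR : ∀ a, ‖dh a R (Ps A u q y + vv A B R u q w y) - dh a R (Ps A u q y)‖ ≤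
        32 * N ^ 2 * c1 := by
      intro a
      have w1 : Bd (σ / 4 + σ / 4) (σ / 4 + σ / 4) (1 / (σ - σ / 2)) (dh a R) :=
        (hc.R_bd.cdh hc.R_fn σ1 a).mono σ3 σ2 le_rfl
      have w2 : Fn (σ / 4 + σ / 4) (σ / 4 + σ / 4) (dh a R) :=
        (hc.R_fn.dh a).mono σ3 σ3
      refine (tay0 w1 w2 hyP hc10 h2c v1 v2).trans ?_
      have w3 : 4 * (1 / (σ - σ / 2)) * c1 / (σ / 4) = 32 * ((1 / σ) * (c1 * (1 / σ))) := by
        field_simp
        norm_num
        ring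
      rw [w3]
      have w4 : (1 / σ) * (c1 * (1 / σ)) ≤ N * (c1 * N) :=
        mul_le_mul hσN hc1σ (by positivity) hN0.le
      nlinarith
    have hR0 : ‖R (Ps A u q y + vv A B R u q w y) - R (Ps A u q y)‖ ≤ 16 * N * c1 := by
      have w1 : Bd (σ / 4 + σ / 4) (σ / 4 + σ / 4) 1 R :=
        hc.R_bd.mono σ3 σ3 le_rfl
      have w2 : Fn (σ / 4 + σ / 4) (σ / 4 + σ / 4) R :=
        hc.R_fn.mono σ3 σ3
      refine (tay0 w1 w2 hyP hc10 h2c v1 v2).trans ?_
      have w3 : 4 * 1 * c1 / (σ / 4) = 16 * (c1 * (1 / σ)) := by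
        field_simp
        ring
      rw [w3]
      linarith
    have hM0 : 0 ≤ M := by linarith
    have hE1' : ∀ a, ‖E1 A B R (un A B R u q w) (qn A B R u q w) a y‖ ≤
        2 * C2 * N ^ p2 * e := by
      intro a
      refine ((G2 a).1 y hy).trans ?_
      have : C2 * N ^ p2 * (e ^ 2 + ζ) ≤ C2 * N ^ p2 * (2 * e) :=
        mul_le_mul_of_nonneg_left hee (by positivity)
      linarith
    have hq1 : ∀ a, ‖q a y‖ ≤ 1 := fun a => by
      have := hs.q0 a y hy0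
      have h9 := hs.b_le
      linarith
    have hq1' : ∀ a, ‖qn A B R u q w a y‖ ≤ 1 := fun a => by
      have h7 : ‖q a y + co A B R u q w (Qf A q a) y‖ ≤ b + c1 :=
        (norm_add_le _ _).trans (add_le_add (hs.q0 a y hy0) ((G1 a).2 y (hsub4 hy)))
      show ‖q a y + co A B R u q w (Qf A q a) y‖ ≤ 1
      linarith
    have hqd : ∀ a, ‖qn A B R u q w a y - q a y‖ ≤ c1 := fun a => by
      have h7 : qn A B R u q w a y - q a y = co A B R u q w (Qf A q a) y := by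
        simp only [qn]; ring
      rw [h7]
      exact (G1 a).2 y (hsub4 hy)
    have hdu : ∀ a, ‖DD (u a) y‖ ≤ 4 * N := fun a => by
      have h7 : DD (u a) y = E1 A B R u q a y + ∑ c, (B a c : ℂ) * q c y +
          dh a R (Ps A u q y) := by
        simp only [E1]; ring
      rw [h7]
      have h8 : ‖∑ c, (B a c : ℂ) * q c y‖ ≤ n * (M * b0 n M σ) := by
        refine (norm_sum_le _ _).trans ((Finset.sum_le_sum (g := fun _ => M * b0 n M σ)
          fun i _ => ?_).trans ?_)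
        · rw [norm_mul, Complex.norm_real]
          exact mul_le_mul (hc.B_le a i) ((hs.q0 i y hy0).trans hs.b_le) (norm_nonneg _) hM0
        · simp
      have h9 : ‖dh a R (Ps A u q y)‖ ≤ 2 * N := by
        refine ((dR_bd hc hs 0 a).2 y hy0).trans ?_
        have : 2 / σ = 2 * (1 / σ) := by ring
        rw [this]
        linarith
      have h10 := norm_add₃_le (a := E1 A B R u q a y) (b := ∑ c, (B a c : ℂ) * q c y)
        (c := dh a R (Ps A u q y))
      have h11 := hs.e1 a y hy0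
      have h12 := hs.ε_le
      have h13 : n * (M * b0 n M σ) = n * M * b0 n M σ := by ring
      linarith
    have key := alg (B := B) (M := M) (c1 := c1) (m := 4 * N) (ε := ε)
      (ε' := 2 * C2 * N ^ p2 * e) (r1 := 32 * N ^ 2 * c1) (r2 := 16 * N * c1)
      (q := fun a => q a y) (q' := fun a => qn A B R u q w a y)
      (d := fun a => DD (u a) y) (d' := fun a => DD (un A B R u q w a) y)
      (ρ := fun a => dh a R (Ps A u q y))
      (ρ' := fun a => dh a R (Ps A (un A B R u q w) (qn A B R u q w) y))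
      (E := fun a => E1 A B R u q a y)
      (E' := fun a => E1 A B R (un A B R u q w) (qn A B R u q w) a y)
      (S := R (Ps A u q y)) (S' := R (Ps A (un A B R u q w) (qn A B R u q w) y))
      hc10 hM0 hc.B_le (fun a => rfl) (fun a => rfl) hq1 hq1' hqd
      (fun a => hs.e1 a y hy0) hE1' (fun a => by rw [Ps_new]; exact hdR a) hdu
      (by rw [Ps_new]; exact hR0)
    refine le_trans ?_ (key.trans ?_)
    · exact le_of_eq rfl
    · have hT : ∀ k, k ≤ p1 + p2 + 2 → N ^ k * e ≤ N ^ (p1 + p2 + 2) * e := fun k hk =>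
        mul_le_mul_of_nonneg_right (pow_le_pow_right₀ hN1 hk) he0
      set T : ℝ := N ^ (p1 + p2 + 2) * e with hTdef
      have t1 : N ^ p2 * e ≤ T := hT p2 (by omega)
      have t2 : e ≤ T := by simpa using hT 0 (by omega)
      have t3 : N ^ p1 * e ≤ T := hT p1 (by omega)
      have t4 : N ^ (p1 + 1) * e ≤ T := hT (p1 + 1) (by omega)
      have t5 : N ^ (p1 + 2) * e ≤ T := hT (p1 + 2) (by omega)
      have hMa : |M| = M := abs_of_nonneg hM0
      have s1 : 2 * C2 * N ^ p2 * e ≤ 2 * C2 * T := by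
        have := mul_le_mul_of_nonneg_left t1 (by positivity : 0 ≤ 2 * C2)
        linarith
      have s2 : n * M * c1 ≤ n * M * C1 * T := by
        have := mul_le_mul_of_nonneg_left t3 (by positivity : 0 ≤ n * M * C1)
        rw [hc1]
        linarith
      have s3 : 32 * N ^ 2 * c1 ≤ 32 * C1 * T := by
        have h7 := mul_le_mul_of_nonneg_left t5 (by positivity : 0 ≤ 32 * C1)
        have h8 : 32 * N ^ 2 * c1 = 32 * C1 * (N ^ (p1 + 2) * e) := by rw [hc1]; ring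
        rw [h8]
        exact h7
      have s4 : c1 * (4 * N) ≤ 4 * C1 * T := by
        have h7 := mul_le_mul_of_nonneg_left t4 (by positivity : 0 ≤ 4 * C1)
        have h8 : c1 * (4 * N) = 4 * C1 * (N ^ (p1 + 1) * e) := by rw [hc1]; ring
        rw [h8]
        exact h7
      have s5 : n ^ 2 * M * c1 ≤ n ^ 2 * M * C1 * T := by
        have := mul_le_mul_of_nonneg_left t3 (by positivity : 0 ≤ (n : ℝ) ^ 2 * M * C1)
        rw [hc1]
        linarith
      have s6 : 16 * N * c1 ≤ 16 * C1 * T := by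
        have h7 := mul_le_mul_of_nonneg_left t4 (by positivity : 0 ≤ 16 * C1)
        have h8 : 16 * N * c1 = 16 * C1 * (N ^ (p1 + 1) * e) := by rw [hc1]; ring
        rw [h8]
        exact h7
      have s7 : n * (2 * C2 * N ^ p2 * e + ε + n * M * c1 + 32 * N ^ 2 * c1 + c1 * (4 * N)) ≤
          n * ((2 * C2 + 1 + n * M * C1 + 36 * C1) * T) := by
        refine mul_le_mul_of_nonneg_left ?_ hn1
        linarith
      have s8 : C4 * N ^ (p1 + p2 + 2) * e = C4 * T := by rw [hTdef]; ring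
      rw [s8, hC4, hMa]
      linarith
  have hDfn : Fn (δ / 8) (s / 8) fun y => F' y - F y := hF'.sub hF
  have hδ8 : 0 < δ / 8 := by linarith
  have hAfn : Fn δ (s / 8) (avg fun y => F' y - F y) := avg_fn hDfn hδ8 δ
  have hAbd : Bd δ (s / 8) (C4 * N ^ (p1 + p2 + 2) * e) (avg fun y => F' y - F y) :=
    avg_bd hD hδ8 δ
  have h16s : 1 / (s / 8 - s / 16) ≤ 16 * N := by
    have : 1 / (s / 8 - s / 16) = 16 * (1 / s) := by field_simp; norm_num
    rw [this]
    linarith [hN.hs]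
  have h32s : 1 / (s / 16 - s / 32) ≤ 32 * N := by
    have : 1 / (s / 16 - s / 32) = 32 * (1 / s) := by field_simp; norm_num
    rw [this]
    linarith [hN.hs]
  have htau : ∀ a c, Bd (δ / 64) (s / 64) (C * N ^ p * e)
      (dh a (dh c (avg fun y => F' y - F y))) := by
    intro a c
    have q1 := (hAbd.cdh hAfn sH c).rmul (by positivity) h16s
    have q2 : Fn δ (s / 16) (dh c (avg fun y => F' y - F y)) :=
      (hAfn.dh c).mono le_rfl sJ
    have q3 := (q1.cdh q2 sI a).rmul (by positivity) h32s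
    refine q3.mono dA sK ?_
    have h1 : C4 * N ^ (p1 + p2 + 2) * e * (16 * N) * (32 * N) =
      (512 * C4) * N ^ (p1 + p2 + 4) * e := by ring
    rw [h1]
    exact hle cc5 pp4
  have hgg : ∀ a c, ∀ y ∈ Om n (δ / 64) (s / 64),
      dh a (gg A B R (un A B R u q w) (qn A B R u q w) c) y =
        dh a (gg A B R u q c) y + dh a (dh c (avg fun y => F' y - F y)) y := by
    intro a c y hy
    have k1 : Fn δ (s / 8) (avg F') := avg_fn hF' hδ8 δ
    have k2 : Fn δ (s / 8) (avg F) := avg_fn hF hδ8 δ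
    have k3 : ∀ y ∈ Om n δ (s / 8), dh c (avg fun y => F' y - F y) y =
        dh c (avg F') y - dh c (avg F) y := by
      intro y hy
      rw [← dh_sub c (k1.dat hy) (k2.dat hy)]
      exact dh_congr c hy fun y hy => avg_sub hF' hF hδ8 hy
    have hy' : y ∈ Om n δ (s / 8) := Om_mono dA sB hy
    have k4 : dh a (dh c (avg fun y => F' y - F y)) y =
        dh a (dh c (avg F')) y - dh a (dh c (avg F)) y := by
      rw [← dh_sub a ((k1.dh c).dat hy') ((k2.dh c).dat hy')]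
      exact dh_congr a hy' k3
    rw [k4]
    simp only [gg]
    ring
  refine ⟨un A B R u q w, qn A B R u q w, ?_, ?_, ?_, ?_⟩
  · refine
      { δ_pos := by linarith
        δ_le := by linarith [hs.δ_le]
        s_pos := by linarith
        s_le := ?_
        b_nonneg := by positivity
        b_le := hb
        ε_nonneg := by positivity
        ε_le := ?_
        ufn := fun a => (hun a).mono dA sA
        qfn := fun a => (hqn a).mono dA sA
        u0 := fun a => ?_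
        q0 := fun a => ?_
        uz := fun a i => ?_
        qz := fun a i => ?_
        uh := fun a c => ?_
        qh := fun a c => ?_
        tau := fun a c => ?_
        e1 := fun a => ?_
        e2 := fun a => ?_ }
    · have h1 : (n + 1) * M * (s / 64) ≤ (n + 1) * M * s :=
        mul_le_mul_of_nonneg_left sA (by positivity)
      exact h1.trans hs.s_le
    · have h1 : C * N ^ p * (e ^ 2 + ζ) ≤ C * N ^ p * (2 * e) :=
        mul_le_mul_of_nonneg_left hee (by positivity)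
      linarith
    · exact (((hs.u0 a).mono dA sA le_rfl).add
        ((G1 a).1.mono dC sC hbig0))
    · exact (((hs.q0 a).mono dA sA le_rfl).add
        ((G1 a).2.mono dC sC hbig0))
    · intro y hy
      have h1 := ((G1 a).1.cdz ((hX a).mono dF sF) dG i).rmul hc10 h8δ
      have h2 : dz i (un A B R u q w a) y =
          dz i (u a) y + dz i (co A B R u q w (Xf u a)) y :=
        dz_add i ((hs.ufn a).dat (hsub hy)) ((hX a).dat (hsub hy))
      rw [h2]
      refine (norm_add_le _ _).trans (add_le_add (hs.uz a i y (hsub hy)) ?_)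
      exact (h1 y (Om_mono dB sC hy)).trans hbig
    · intro y hy
      have h1 := ((G1 a).2.cdz ((hQ a).mono dF sF) dG i).rmul hc10 h8δ
      have h2 : dz i (qn A B R u q w a) y =
          dz i (q a) y + dz i (co A B R u q w (Qf A q a)) y :=
        dz_add i ((hs.qfn a).dat (hsub hy)) ((hQ a).dat (hsub hy))
      rw [h2]
      refine (norm_add_le _ _).trans (add_le_add (hs.qz a i y (hsub hy)) ?_)
      exact (h1 y (Om_mono dB sC hy)).trans hbig
    · intro y hy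
      have h1 := ((G1 a).1.cdh ((hX a).mono dF sF) sG c).rmul hc10 h8s
      have h2 : dh c (un A B R u q w a) y =
          dh c (u a) y + dh c (co A B R u q w (Xf u a)) y :=
        dh_add c ((hs.ufn a).dat (hsub hy)) ((hX a).dat (hsub hy))
      rw [h2]
      refine (norm_add_le _ _).trans (add_le_add (hs.uh a c y (hsub hy)) ?_)
      exact (h1 y (Om_mono dC sB hy)).trans hbig
    · intro y hy
      have h1 := ((G1 a).2.cdh ((hQ a).mono dF sF) sG c).rmul hc10 h8s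
      have h2 : dh c (qn A B R u q w a) y =
          dh c (q a) y + dh c (co A B R u q w (Qf A q a)) y :=
        dh_add c ((hs.qfn a).dat (hsub hy)) ((hQ a).dat (hsub hy))
      rw [h2]
      refine (norm_add_le _ _).trans (add_le_add (hs.qh a c y (hsub hy)) ?_)
      exact (h1 y (Om_mono dC sB hy)).trans hbig
    · intro y hy
      rw [hgg a c y hy]
      refine (norm_add_le _ _).trans (add_le_add (hs.tau a c y (hsub hy)) ?_)
      exact htau a c y hy
    · exact ((G2 a).1.mono dB sB (cmpN hN1 hee0 cc2 hC0 pp2))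
    · exact ((G2 a).2.mono dB sB (cmpN hN1 hee0 cc2 hC0 pp2))
  · intro c y hy
    have h1 : un A B R u q w c y - u c y = co A B R u q w (Xf u c) y := by
      simp only [un]; ring
    show ‖un A B R u q w c y - u c y‖ ≤ _
    rw [h1]
    exact ((G1 c).1 y (Om_mono dC sC hy)).trans hbig0
  · intro c y hy
    have h1 : qn A B R u q w c y - q c y = co A B R u q w (Qf A q c) y := by
      simp only [qn]; ring
    show ‖qn A B R u q w c y - q c y‖ ≤ _
    rw [h1]
    exact ((G1 c).2 y (Om_mono dC sC hy)).trans hbig0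
  · intro a c
    exact (G3 a c).mono dC sC (hle cc3 pp3)

end Pool.Agent.LRig
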