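import Pool.Agent.LRig.FP
import Pool.Agent.LRig.FX
import Pool.Agent.LRig.RDefs

/-!
# LR (MP_74f563_an, all n), file RA: nonresonant points on a resonance hyperplane

PROOF.  Write `k₀ = (m₀, j₀)`, `k = (m, j)`.  (1) If `j` is a rational multiple of `j₀` and `k` is
not an
integer multiple of the primitive vector `k₀`: let `j₀_a ≠ 0`; for every real `h` with
`m₀ + j₀·h = 0` we have `dv k = m + j·h = m - (j_a/j₀_a) m₀ = (m j₀_a - j_a m₀)/j₀_a`; the
numerator is an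
integer; it is not zero: otherwise `k = (j_a/j₀_a) k₀` and, as `k₀` is primitive, `j_a/j₀_a` is an
integer
(if `k = (p/q) k₀` in lowest terms then `q` divides all entries of `k₀`).  So
`|dv k| ≥ 1/|j₀_a| ≥ 1/K ≥ d`.
(2) Otherwise: let `j₀_a ≠ 0`, `X = 8 K² + 1` and `v = ∑_b X^b (j₀_a e_b - j₀_b e_a)` (`b` the
index as a
natural number).  `j₀·v = 0`, and `j·v = ∑_b X^b (j₀_a j_b - j₀_b j_a)` is an integer with digits of
absolute value `≤ 2K²` in the base `X`, not all zero (if all `j₀_a j_b = j₀_b j_a` then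
`j = (j_a/j₀_a) j₀`), so
`j·v ≠ 0`, `|j·v| ≥ 1` (look at the lowest nonzero digit: `j·v` is not divisible by `X^{b+1}`).  All
entries of `v` are at most `2 K n X^n`.  For `i = 0, ..., c`, `c = card (kB n K) ≤ (2K+1)^{n+1}`,
let
`h_i = h + 2 d i v`; `dv k₀ (h_i) = 0`.  For each `k` as in (2)
`dv k (h_i) = dv k (h) + 2 d i (j·v)`, so
`|dv k (h_i)| < d` for at most one `i`.  By the pigeonhole principle there is `i ≤ c` such that
`|dv k (h_i)| ≥ d` for all `k ∈ kB n K` of type (2); `h₀ = h_i`.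
`|h₀ a - h a| ≤ 2 d c 2 K n X^n ≤ C K^p d` with `X ≤ 9 K²`, `c ≤ (3K)^{n+1}`.
-/

set_option autoImplicit false

namespace Pool.Agent.LRig

open Complex Set MeasureTheory Pool.Agent.MechAlpha

variable {n : ℕ}

/-- the real divisor -/
private noncomputable def ra (k : Fin (n + 1) → ℤ) (h : Vec n) : ℝ :=
  (k 0 : ℝ) + ∑ a : Fin n, (k a.succ : ℝ) * h a

private theorem ra_dv (k : Fin (n + 1) → ℤ) (h : Vec n) :
    dv k (cp 0 0 h) = ((ra k h : ℝ) : ℂ) := by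
  rw [dv_eq]
  unfold ra
  push_cast
  rfl

private theorem digits {X : ℤ} (hX : 0 < X) (n : ℕ) (f : Fin n → ℤ) (hf : ∀ b, |f b| < X)
    (h : ∑ b : Fin n, X ^ (b : ℕ) * f b = 0) : ∀ b, f b = 0 := by
  induction n with
  | zero => exact fun b => b.elim0
  | succ n ih =>
    rw [Fin.sum_univ_succ] at h
    have h1 : ∑ b : Fin n, X ^ ((b.succ : Fin (n + 1)) : ℕ) * f b.succ =
        X * ∑ b : Fin n, X ^ (b : ℕ) * f b.succ := by
      rw [Finset.mul_sum]
      refine Finset.sum_congr rfl fun b _ => ?_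
      rw [Fin.val_succ, pow_succ]
      ring
    rw [h1, Fin.val_zero, pow_zero, one_mul] at h
    have h2 : X ∣ f 0 := ⟨-∑ b : Fin n, X ^ (b : ℕ) * f b.succ, by linarith⟩
    have h3 : f 0 = 0 := Int.eq_zero_of_abs_lt_dvd h2 (hf 0)
    rw [h3, zero_add] at h
    have h4 := (mul_eq_zero.1 h).resolve_left hX.ne'
    have h5 := ih (fun b => f b.succ) (fun b => hf _) h4
    intro b
    refine Fin.cases h3 h5 b

/-- the digit of `k` with index `b` -/
private def dg (k₀ k : Fin (n + 1) → ℤ) (a b : Fin n) : ℤ :=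
  k₀ a.succ * k b.succ - k₀ b.succ * k a.succ

private theorem abs_le_nk (k : Fin (n + 1) → ℤ) (i : Fin (n + 1)) : |k i| ≤ nk k := by
  have h1 : (k i).natAbs ≤ nk k :=
    Finset.single_le_sum (f := fun i => (k i).natAbs) (fun _ _ => Nat.zero_le _)
      (Finset.mem_univ i)
  rw [Int.abs_eq_natAbs]
  exact_mod_cast h1

private theorem dg_lt {k₀ k : Fin (n + 1) → ℤ} {K : ℕ} (h₀ : nk k₀ ≤ K) (h : nk k ≤ K)
    (a b : Fin n) : |dg k₀ k a b| < 8 * (K : ℤ) ^ 2 + 1 := by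
  have e : ∀ i, |k₀ i| ≤ (K : ℤ) := fun i => (abs_le_nk k₀ i).trans (by exact_mod_cast h₀)
  have e' : ∀ i, |k i| ≤ (K : ℤ) := fun i => (abs_le_nk k i).trans (by exact_mod_cast h)
  unfold dg
  have h1 : |k₀ a.succ * k b.succ| ≤ (K : ℤ) * K := by
    rw [abs_mul]
    exact mul_le_mul (e _) (e' _) (abs_nonneg _) (by positivity)
  have h2 : |k₀ b.succ * k a.succ| ≤ (K : ℤ) * K := by
    rw [abs_mul]
    exact mul_le_mul (e _) (e' _) (abs_nonneg _) (by positivity)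
  have h3 := abs_sub (k₀ a.succ * k b.succ) (k₀ b.succ * k a.succ)
  have h4 : 0 ≤ (K : ℤ) ^ 2 := by positivity
  nlinarith

/-- proportional vectors -/
private theorem mult_of_prop {k₀ k : Fin (n + 1) → ℤ} (hp : Prim (ja k₀) (k₀ 0)) {q r : ℤ}
    (hq : q ≠ 0) (h : ∀ i, q * k i = r * k₀ i) : ∃ l : ℤ, k = l • k₀ := by
  have hg : 0 < Int.gcd q r := Nat.pos_of_ne_zero fun h1 => hq (Int.gcd_eq_zero_iff.1 h1).1
  obtain ⟨q', r', hc, hq', hr'⟩ := Int.exists_gcd_one hg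
  have hcop : IsCoprime q' r' := Int.isCoprime_iff_gcd_eq_one.2 hc
  generalize Int.gcd q r = g at hg hq' hr'
  have h1 : ∀ i, q' * k i = r' * k₀ i := by
    intro i
    have h2 := h i
    rw [hq', hr'] at h2
    have hg' : (g : ℤ) ≠ 0 := by exact_mod_cast hg.ne'
    refine mul_left_cancel₀ hg' ?_
    linarith
  have h2 : ∀ i, q' ∣ k₀ i := fun i => hcop.dvd_of_dvd_mul_left ⟨k i, (h1 i).symm⟩
  have h3 : IsUnit q' := hp q' (h2 0) fun a => h2 a.succ
  obtain ⟨u, hu⟩ := h3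
  refine ⟨(u⁻¹ : ℤˣ) * r', ?_⟩
  funext i
  have h4 := h1 i
  rw [← hu] at h4
  rw [Pi.smul_apply, smul_eq_mul, mul_assoc, ← h4, ← mul_assoc, Units.inv_mul, one_mul]

/-- the direction -/
private def vv (k₀ : Fin (n + 1) → ℤ) (a : Fin n) (X : ℤ) (c : Fin n) : ℤ :=
  X ^ (c : ℕ) * k₀ a.succ - if c = a then ∑ b : Fin n, X ^ (b : ℕ) * k₀ b.succ else 0

private theorem sum_vv (k₀ k : Fin (n + 1) → ℤ) (a : Fin n) (X : ℤ) :
    ∑ c : Fin n, k c.succ * vv k₀ a X c = ∑ b : Fin n, X ^ (b : ℕ) * dg k₀ k a b := by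
  unfold vv dg
  simp only [mul_sub, Finset.sum_sub_distrib, mul_ite, mul_zero, Finset.sum_ite_eq',
    Finset.mem_univ, if_true]
  congr 1
  · exact Finset.sum_congr rfl fun b _ => by ring
  · rw [Finset.mul_sum]
    exact Finset.sum_congr rfl fun b _ => by ring

private theorem vv_le {k₀ : Fin (n + 1) → ℤ} {K : ℕ} (h₀ : nk k₀ ≤ K) (a : Fin n) {X : ℤ}
    (hX : 1 ≤ X) (c : Fin n) : |vv k₀ a X c| ≤ 2 * K * X ^ n := by
  have hXb : ∀ b : Fin n, X ^ (b : ℕ) ≤ X ^ n := fun b => pow_le_pow_right₀ hX b.2.le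
  have hX0 : ∀ m : ℕ, 0 ≤ X ^ m := fun m => pow_nonneg (by linarith) m
  have h1 : |X ^ (c : ℕ) * k₀ a.succ| ≤ K * X ^ n := by
    rw [abs_mul, abs_of_nonneg (hX0 _), mul_comm]
    refine mul_le_mul ((abs_le_nk k₀ _).trans (by exact_mod_cast h₀)) (hXb c) (hX0 _) ?_
    positivity
  have h2 : |∑ b : Fin n, X ^ (b : ℕ) * k₀ b.succ| ≤ K * X ^ n := by
    refine (Finset.abs_sum_le_sum_abs _ _).trans ?_
    have h3 : ∀ b : Fin n, |X ^ (b : ℕ) * k₀ b.succ| ≤ |k₀ b.succ| * X ^ n := by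
      intro b
      rw [abs_mul, abs_of_nonneg (hX0 _), mul_comm]
      exact mul_le_mul_of_nonneg_left (hXb b) (abs_nonneg _)
    refine (Finset.sum_le_sum fun b _ => h3 b).trans ?_
    rw [← Finset.sum_mul]
    refine mul_le_mul_of_nonneg_right ?_ (hX0 _)
    have h4 : (nk k₀ : ℤ) = |k₀ 0| + ∑ b : Fin n, |k₀ b.succ| := by
      unfold nk
      rw [Fin.sum_univ_succ]
      push_cast
      rfl
    have h5 : (nk k₀ : ℤ) ≤ K := by exact_mod_cast h₀
    have h6 := abs_nonneg (k₀ 0)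
    linarith
  have h3 : |if c = a then ∑ b : Fin n, X ^ (b : ℕ) * k₀ b.succ else 0| ≤ K * X ^ n := by
    split_ifs
    · exact h2
    · rw [abs_zero]
      exact mul_nonneg (by positivity) (hX0 _)
  unfold vv
  have h4 := abs_sub (X ^ (c : ℕ) * k₀ a.succ)
    (if c = a then ∑ b : Fin n, X ^ (b : ℕ) * k₀ b.succ else 0)
  linarith

/-- the shifted frequency -/
private noncomputable def hs (h : Vec n) (t : ℝ) (v : Fin n → ℤ) : Vec n :=
  WithLp.toLp 2 fun a => h a + t * (v a : ℝ)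

private theorem ra_hs (k : Fin (n + 1) → ℤ) (h : Vec n) (t : ℝ) (v : Fin n → ℤ) :
    ra k (hs h t v) = ra k h + t * ((∑ c : Fin n, k c.succ * v c : ℤ) : ℝ) := by
  unfold ra hs
  push_cast
  rw [Finset.mul_sum, add_assoc, ← Finset.sum_add_distrib]
  congr 1
  refine Finset.sum_congr rfl fun a _ => ?_
  change (k a.succ : ℝ) * (h a + t * (v a : ℝ)) = _
  ring

private theorem case_one {k₀ k : Fin (n + 1) → ℤ} {a : Fin n} (ha : k₀ a.succ ≠ 0)
    (hp : Prim (ja k₀) (k₀ 0)) {h : Vec n} (hh : ra k₀ h = 0)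
    (hk : ∀ l : ℤ, k ≠ l • k₀) (hD : ∀ b, dg k₀ k a b = 0) :
    1 ≤ |(k₀ a.succ : ℝ)| * |ra k h| := by
  have hE : k₀ a.succ * k 0 - k a.succ * k₀ 0 ≠ 0 := by
    intro h0
    obtain ⟨l, hl⟩ := mult_of_prop (k := k) hp (q := k₀ a.succ) (r := k a.succ) ha (by
      intro i
      refine Fin.cases ?_ (fun b => ?_) i
      · linarith
      · have := hD b
        unfold dg at this
        linarith)
    exact hk l hl
  have h1 : (k₀ a.succ : ℝ) * ra k h = ((k₀ a.succ * k 0 - k a.succ * k₀ 0 : ℤ) : ℝ) := by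
    have h2 : (k₀ a.succ : ℝ) * ra k h =
        (k₀ a.succ : ℝ) * k 0 + ∑ b : Fin n, (k a.succ : ℝ) * ((k₀ b.succ : ℝ) * h b) := by
      unfold ra
      rw [mul_add, Finset.mul_sum]
      congr 1
      refine Finset.sum_congr rfl fun b _ => ?_
      have h3 : (k₀ a.succ : ℝ) * (k b.succ : ℝ) = (k₀ b.succ : ℝ) * (k a.succ : ℝ) := by
        have := hD b
        unfold dg at this
        have h4 : k₀ a.succ * k b.succ = k₀ b.succ * k a.succ := by linarith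
        exact_mod_cast h4
      calc _ = ((k₀ a.succ : ℝ) * (k b.succ : ℝ)) * h b := by ring
        _ = _ := by rw [h3]; ring
    rw [h2, ← Finset.mul_sum]
    unfold ra at hh
    have h3 : ∑ b : Fin n, (k₀ b.succ : ℝ) * h b = -(k₀ 0 : ℝ) := by linarith
    rw [h3]
    push_cast
    ring
  rw [← abs_mul, h1]
  have h2 : (1 : ℤ) ≤ |k₀ a.succ * k 0 - k a.succ * k₀ 0| := Int.one_le_abs hE
  exact_mod_cast h2

theorem exists_h0 (n : ℕ) : ∃ C : ℝ, ∃ p : ℕ, 1 ≤ C ∧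
    ∀ {K : ℕ} {k₀ : Fin (n + 1) → ℤ} {h : Vec n} {d : ℝ}, 1 ≤ K → Prim (ja k₀) (k₀ 0) →
      Nz k₀ → nk k₀ ≤ K → dv k₀ (cp 0 0 h) = 0 → 0 < d → d * K ≤ 1 →
      ∃ h₀ : Vec n, dv k₀ (cp 0 0 h₀) = 0 ∧ (∀ a, |h₀ a - h a| ≤ C * K ^ p * d) ∧
        ∀ k : Fin (n + 1) → ℤ, nk k ≤ K → (∀ l : ℤ, k ≠ l • k₀) →
          d ≤ ‖dv k (cp 0 0 h₀)‖ := by
  refine ⟨4 * 3 ^ (n + 1) * 9 ^ n, 3 * n + 2, ?_, ?_⟩
  · have h1 : (1 : ℝ) ≤ 3 ^ (n + 1) := one_le_pow₀ (by norm_num)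
    have h2 : (1 : ℝ) ≤ 9 ^ n := one_le_pow₀ (by norm_num)
    nlinarith
  intro K k₀ h d hK hp hNz hk₀ hdv hd hdK
  obtain ⟨a, ha⟩ := hNz
  have hr0 : ra k₀ h = 0 := by
    rw [ra_dv] at hdv
    exact_mod_cast hdv
  have hK' : (1 : ℝ) ≤ K := by exact_mod_cast hK
  let X : ℤ := 8 * (K : ℤ) ^ 2 + 1
  have hX : 1 ≤ X := by
    have : 0 ≤ (K : ℤ) ^ 2 := by positivity
    simp only [X]
    linarith
  let v : Fin n → ℤ := vv k₀ a X
  let hi : ℕ → Vec n := fun i => hs h (2 * d * i) v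
  have hra : ∀ (k : Fin (n + 1) → ℤ) (i : ℕ), ra k (hi i) =
      ra k h + 2 * d * i * ((∑ b : Fin n, X ^ (b : ℕ) * dg k₀ k a b : ℤ) : ℝ) := by
    intro k i
    rw [← sum_vv]
    exact ra_hs k h _ v
  have hra0 : ∀ i, ra k₀ (hi i) = 0 := by
    intro i
    rw [hra, hr0]
    have h1 : ∑ b : Fin n, X ^ (b : ℕ) * dg k₀ k₀ a b = 0 := by
      refine Finset.sum_eq_zero fun b _ => ?_
      unfold dg
      ring
    rw [h1]
    simp
  -- the pigeonhole principle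
  obtain ⟨i, hic, hgood⟩ : ∃ i, i ≤ (kB n K).card ∧ ∀ k ∈ kB n K,
      (∃ b, dg k₀ k a b ≠ 0) → d ≤ |ra k (hi i)| := by
    by_contra hcon
    push Not at hcon
    have hch : ∀ i, ∃ k : Fin (n + 1) → ℤ, i ≤ (kB n K).card →
        k ∈ kB n K ∧ (∃ b, dg k₀ k a b ≠ 0) ∧ |ra k (hi i)| < d := by
      intro i
      by_cases hi' : i ≤ (kB n K).card
      · obtain ⟨k, h1, h2, h3⟩ := hcon i hi'
        exact ⟨k, fun _ => ⟨h1, h2, h3⟩⟩
      · exact ⟨0, fun h => absurd h hi'⟩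
    choose f hf using hch
    have hle : ∀ i ∈ Finset.range ((kB n K).card + 1), i ≤ (kB n K).card := fun i hi' =>
      Nat.lt_succ_iff.1 (Finset.mem_range.1 hi')
    obtain ⟨i, hi1, j, hj1, hij, hfij⟩ := Finset.exists_ne_map_eq_of_card_lt_of_maps_to
      (s := Finset.range ((kB n K).card + 1)) (t := kB n K) (f := f)
      (by rw [Finset.card_range]; omega) (fun i hi' => (hf i (hle i hi')).1)
    obtain ⟨h1, ⟨b, hb⟩, h2⟩ := hf i (hle i hi1)
    obtain ⟨-, -, h3⟩ := hf j (hle j hj1)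
    rw [← hfij] at h3
    rw [mem_kB] at h1
    have hP : (∑ b : Fin n, X ^ (b : ℕ) * dg k₀ (f i) a b) ≠ 0 := fun h0 =>
      hb (digits (by linarith) n _ (fun b => dg_lt hk₀ h1 a b) h0 b)
    have hP1 : (1 : ℝ) ≤ |((∑ b : Fin n, X ^ (b : ℕ) * dg k₀ (f i) a b : ℤ) : ℝ)| := by
      have := Int.one_le_abs hP
      exact_mod_cast this
    have hij1 : (1 : ℝ) ≤ |(i : ℝ) - j| := by
      have h4 : (i : ℤ) - j ≠ 0 := by omega
      have h5 := Int.one_le_abs h4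
      exact_mod_cast h5
    rw [hra] at h2 h3
    have h6 : |2 * d * ((i : ℝ) - j) * ((∑ b : Fin n, X ^ (b : ℕ) * dg k₀ (f i) a b : ℤ) : ℝ)|
        < 2 * d := by
      have h7 := abs_sub (ra (f i) h + 2 * d * i *
          ((∑ b : Fin n, X ^ (b : ℕ) * dg k₀ (f i) a b : ℤ) : ℝ))
        (ra (f i) h + 2 * d * j * ((∑ b : Fin n, X ^ (b : ℕ) * dg k₀ (f i) a b : ℤ) : ℝ))
      have h8 : (ra (f i) h + 2 * d * i *
          ((∑ b : Fin n, X ^ (b : ℕ) * dg k₀ (f i) a b : ℤ) : ℝ)) -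
        (ra (f i) h + 2 * d * j * ((∑ b : Fin n, X ^ (b : ℕ) * dg k₀ (f i) a b : ℤ) : ℝ)) =
        2 * d * ((i : ℝ) - j) * ((∑ b : Fin n, X ^ (b : ℕ) * dg k₀ (f i) a b : ℤ) : ℝ) := by
        ring
      rw [h8] at h7
      linarith
    rw [abs_mul, abs_mul, abs_of_pos (by positivity : 0 < 2 * d)] at h6
    have h7 : 2 * d * 1 * 1 ≤ 2 * d * |(i : ℝ) - j| *
        |((∑ b : Fin n, X ^ (b : ℕ) * dg k₀ (f i) a b : ℤ) : ℝ)| := by
      refine mul_le_mul (mul_le_mul_of_nonneg_left hij1 (by positivity)) hP1 zero_le_one ?_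
      positivity
    linarith
  refine ⟨hi i, ?_, ?_, ?_⟩
  · rw [ra_dv, hra0 i, ofReal_zero]
  · intro b
    have h1 : (hi i) b - h b = 2 * d * i * (v b : ℝ) := by
      change h b + 2 * d * i * (v b : ℝ) - h b = _
      ring
    rw [h1, abs_mul, abs_of_nonneg (by positivity : (0 : ℝ) ≤ 2 * d * i)]
    have h2 : |(v b : ℝ)| ≤ 2 * K * (9 * (K : ℝ) ^ 2) ^ n := by
      have h3 := vv_le hk₀ a hX b
      have h4 : |(v b : ℝ)| ≤ 2 * K * (X : ℝ) ^ n := by exact_mod_cast h3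
      refine h4.trans (mul_le_mul_of_nonneg_left ?_ (by positivity))
      refine pow_le_pow_left₀ (by exact_mod_cast (by linarith : (0 : ℤ) ≤ X)) ?_ n
      simp only [X]
      push_cast
      nlinarith
    have h3 : (i : ℝ) ≤ (3 * (K : ℝ)) ^ (n + 1) := by
      have h4 : i ≤ (2 * K + 1) ^ (n + 1) := hic.trans (card_kB n K)
      have h5 : (i : ℝ) ≤ (2 * K + 1) ^ (n + 1) := by exact_mod_cast h4
      refine h5.trans (pow_le_pow_left₀ (by positivity) ?_ _)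
      linarith
    calc 2 * d * i * |(v b : ℝ)| ≤
        2 * d * (3 * (K : ℝ)) ^ (n + 1) * (2 * K * (9 * (K : ℝ) ^ 2) ^ n) := by
          refine mul_le_mul (mul_le_mul_of_nonneg_left h3 (by positivity)) h2 (abs_nonneg _) ?_
          positivity
      _ = 4 * 3 ^ (n + 1) * 9 ^ n * (K : ℝ) ^ (3 * n + 2) * d := by
          rw [mul_pow, mul_pow, ← pow_mul]
          have h6 : (K : ℝ) ^ (3 * n + 2) = (K : ℝ) ^ (n + 1) * (K * (K : ℝ) ^ (2 * n)) := by
            rw [← pow_succ', ← pow_add]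
            congr 1
            ring
          rw [h6]
          ring
  · intro k hk hnk
    rw [ra_dv, Complex.norm_real, Real.norm_eq_abs]
    by_cases hD : ∃ b, dg k₀ k a b ≠ 0
    · exact hgood k (mem_kB.2 hk) hD
    · push Not at hD
      have h1 := case_one ha hp (hra0 i) hnk hD
      have h2 : |(k₀ a.succ : ℝ)| ≤ K := by
        have h3 := (abs_le_nk k₀ a.succ).trans
          (by exact_mod_cast hk₀ : (nk k₀ : ℤ) ≤ (K : ℤ))
        exact_mod_cast h3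
      have h3 : 1 ≤ (K : ℝ) * |ra k (hi i)| :=
        h1.trans (mul_le_mul_of_nonneg_right h2 (abs_nonneg _))
      have hK0 : (0 : ℝ) < K := by linarith
      refine le_of_mul_le_mul_left ?_ hK0
      linarith

/-- every frequency vector is a multiple of a primitive one -/
theorem exists_prim {n : ℕ} {k : Fin (n + 1) → ℤ} (hk : Nz k) : ∃ (k₀ : Fin (n + 1) → ℤ) (l : ℤ),
    k = l • k₀ ∧ l ≠ 0 ∧ Prim (ja k₀) (k₀ 0) ∧ Nz k₀ ∧ nk k₀ ≤ nk k := by
  obtain ⟨g, hg, hg1⟩ := Finset.extract_gcd (s := (Finset.univ : Finset (Fin (n + 1)))) k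
    Finset.univ_nonempty
  obtain ⟨a, ha⟩ := hk
  have hl : Finset.univ.gcd k ≠ 0 := by
    intro h0
    rw [Finset.gcd_eq_zero_iff] at h0
    exact ha (h0 _ (Finset.mem_univ _))
  have hkg : ∀ i, k i = Finset.univ.gcd k * g i := fun i => hg i (Finset.mem_univ i)
  refine ⟨g, Finset.univ.gcd k, funext fun i => hkg i, hl, ?_, ⟨a, ?_⟩, ?_⟩
  · intro d hd0 hd
    have h1 : d ∣ Finset.univ.gcd g := Finset.dvd_gcd fun i _ => by
      refine Fin.cases hd0 (fun b => ?_) i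
      exact hd b
    rw [hg1] at h1
    exact isUnit_of_dvd_one h1
  · intro h0
    apply ha
    rw [hkg, h0, mul_zero]
  · unfold nk
    refine Finset.sum_le_sum fun i _ => ?_
    rw [hkg i, Int.natAbs_mul]
    exact Nat.le_mul_of_pos_left _ (Int.natAbs_pos.2 hl)

end Pool.Agent.LRig
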