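import Pool.Agent.LRig.FW
import Pool.Agent.LRig.ID
import Pool.Agent.LRig.NA

/-!
# LR (MP_74f563_an, all n), file RC: the bound of `Z`, the generating function of a state

PROOF of `Z_bd`.  Let `y ∈ Om n (δ/8) (s₁/(n+1))`.  For `k ∈ kR n K` the point `pk k y` is in
`Om n (δ/8) s₁ ⊆ Om n δ s₁` (`pk_mem`) with `dv k (pk k y) = 0`, so `‖cf k F (pk k y)‖ ≤ e
exp (-(π/2) δ nk k)`, and `‖ek k y‖ ≤ exp (2π (δ/8) nk k)` (`ek_norm`), product
`≤ e exp (-2π (δ/8) nk k)`; sum over `k`: `≤ e (8/δ)^{n+1}` (`sum_exp` with `r = δ/8 ≤ 1/2`).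
The rest is `norm_tail` with `r = δ/2`: `≤ c exp (-π (δ/2) K) (4/δ)^{n+1}` (`δ ≤ 1`).
PROOF of `exists_fam`.  `w` from `exists_w` for `F = Lm`, `c = 2` (`Lm_bd`).  `Z_bd` with `s₁ = s`,
`e = ε`
(`res_bound`: `ε exp (-2πδ nk k) ≤ ε exp (-(π/2) δ nk k)`):
`‖ZZ‖ ≤ ζ := ε (8/δ)^{n+1} + 2 ε (4/δ)^{n+1}
≤ C N^{n+1} ε` on `Om (δ/8) (s/(n+1))` (hypothesis `hK`).  The state restricted to `(δ/8,
s/(n+1))` is a
state (`St.mono`), `Big` holds with `8 (n+1) N`; `bd_HK`.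
-/

set_option autoImplicit false

namespace Pool.Agent.LRig

open Complex Set MeasureTheory

variable {n : ℕ} {A B : Matrix (Fin n) (Fin n) ℝ} {M σ δ s b ε : ℝ} {R F w : CE n → ℂ}
  {u q : Fin n → CE n → ℂ} {y : CE n}

/-- a state on a smaller domain, with larger bounds -/
theorem St.mono {δ' s' b' ε' : ℝ} (hs : St A B M σ R δ s b ε u q) (h1 : 0 < δ')
    (h2 : δ' ≤ δ) (h3 : 0 < s') (h4 : s' ≤ s) (h5 : b ≤ b') (h6 : b' ≤ b0 n M σ)
    (h7 : ε ≤ ε') (h8 : ε' ≤ 1) (hM : 0 ≤ M) : St A B M σ R δ' s' b' ε' u q := by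
  refine ⟨h1, h2.trans hs.δ_le, h3, ?_, hs.b_nonneg.trans h5, h6, hs.ε_nonneg.trans h7, h8,
    fun a => (hs.ufn a).mono h2 h4, fun a => (hs.qfn a).mono h2 h4,
    fun a => (hs.u0 a).mono h2 h4 h5, fun a => (hs.q0 a).mono h2 h4 h5,
    fun a i => (hs.uz a i).mono h2 h4 h5, fun a i => (hs.qz a i).mono h2 h4 h5,
    fun a c => (hs.uh a c).mono h2 h4 h5, fun a c => (hs.qh a c).mono h2 h4 h5,
    fun a c => (hs.tau a c).mono h2 h4 h5, fun a => (hs.e1 a).mono h2 h4 h7,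
    fun a => (hs.e2 a).mono h2 h4 h7⟩
  exact (mul_le_mul_of_nonneg_left h4 (by positivity)).trans hs.s_le

theorem Z_bd {c e s₁ : ℝ} {K : ℕ} (hF : Fn δ s F) (hb : Bd δ s c F) (hδ : 0 < δ)
    (hδ1 : δ ≤ 1) (hs : 0 < s₁) (hs1 : s₁ ≤ s) (he : 0 ≤ e)
    (h : ∀ k : Fin (n + 1) → ℤ, nk k ≤ K → Nz k → ∀ y ∈ Om n δ s₁, dv k y = 0 →
      ‖cf k F y‖ ≤ e * Real.exp (-(Real.pi / 2 * δ * nk k)))
    (hw : ∀ y ∈ Om n δ (s / (n + 1)),
      DD w y - F y + avg F y = -∑ k ∈ kR n K, cf k F (pk k y) * ek k y -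
        (F y - ∑ k ∈ kB n K, cf k F y * ek k y)) :
    Bd (δ / 8) (s₁ / (n + 1)) (e * (8 / δ) ^ (n + 1) +
      c * Real.exp (-(Real.pi * (δ / 2) * K)) * (4 / δ) ^ (n + 1))
      (fun y => DD w y - F y + avg F y) := by
  intro y hy
  have hn : (0 : ℝ) ≤ n := Nat.cast_nonneg n
  have hpi := Real.pi_pos
  have hs2 : s₁ / ((n : ℝ) + 1) ≤ s₁ := div_le_self hs.le (by linarith)
  have hyw : y ∈ Om n δ (s / (n + 1)) :=
    Om_mono (by linarith) (div_le_div_of_nonneg_right hs1 (by linarith)) hy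
  change ‖DD w y - F y + avg F y‖ ≤ _
  rw [hw y hyw]
  refine (norm_sub_le _ _).trans (add_le_add ?_ ?_)
  · rw [norm_neg]
    obtain ⟨hsum, hle⟩ := sum_exp (n := n) (r := δ / 8) (by linarith) (by linarith)
    calc ‖∑ k ∈ kR n K, cf k F (pk k y) * ek k y‖
        ≤ ∑ k ∈ kR n K, e * Real.exp (-(2 * Real.pi * (δ / 8) * nk k)) := by
          refine norm_sum_le_of_le _ fun k hk => ?_
          obtain ⟨h1, h2⟩ := mem_kR.1 hk
          have h3 := h k h1 h2 (pk k y) (Om_mono (by linarith) le_rfl (pk_mem h2 hy)) (dv_pk h2 y)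
          have h4 := ek_norm (y := y) (δ := δ / 8) k fun i => (hy.1 i).le
          rw [norm_mul]
          calc ‖cf k F (pk k y)‖ * ‖ek k y‖ ≤ (e * Real.exp (-(Real.pi / 2 * δ * nk k))) *
                Real.exp (2 * Real.pi * (δ / 8) * nk k) :=
                mul_le_mul h3 h4 (norm_nonneg _) (by positivity)
            _ = e * Real.exp (-(2 * Real.pi * (δ / 8) * nk k)) := by
              rw [mul_assoc, ← Real.exp_add]
              congr 2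
              ring
      _ = e * ∑ k ∈ kR n K, Real.exp (-(2 * Real.pi * (δ / 8) * nk k)) := by
          rw [Finset.mul_sum]
      _ ≤ e * ∑' k : Fin (n + 1) → ℤ, Real.exp (-(2 * Real.pi * (δ / 8) * nk k)) :=
          mul_le_mul_of_nonneg_left (hsum.sum_le_tsum _ fun _ _ => (Real.exp_pos _).le) he
      _ ≤ e * (1 / (δ / 8)) ^ (n + 1) := mul_le_mul_of_nonneg_left hle he
      _ = e * (8 / δ) ^ (n + 1) := by rw [one_div_div]
  · have h1 := norm_tail (r := δ / 2) K hF hb (by linarith) (by linarith) (by linarith)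
      (Om_mono (by linarith) (hs2.trans hs1) hy)
    have h2 : 2 / (δ / 2) = 4 / δ := by
      rw [div_div_eq_mul_div]
      norm_num
    rwa [h2] at h1

theorem exists_fam (n : ℕ) (M : ℝ) : ∃ C : ℝ, ∃ p : ℕ, 1 ≤ C ∧
    ∀ {A B : Matrix (Fin n) (Fin n) ℝ} {σ δ s b ε N : ℝ} {R : CE n → ℂ}
      {u q : Fin n → CE n → ℂ} {K : ℕ}, Ctx A B M σ R → St A B M σ R δ s b ε u q →
      Big σ δ s N → Real.exp (-(Real.pi * (δ / 2) * K)) ≤ ε →
      ∃ w : CE n → ℂ, (∀ δ', Fn δ' (s / (n + 1)) w) ∧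
        (∀ y ∈ Om n δ (s / (n + 1)),
          DD w y - Lm A B R u q y + avg (Lm A B R u q) y =
            -∑ k ∈ kR n K, cf k (Lm A B R u q) (pk k y) * ek k y -
            (Lm A B R u q y - ∑ k ∈ kB n K, cf k (Lm A B R u q) y * ek k y)) ∧
        ∀ a : Fin n, Bd (δ / 16) (s / (2 * (n + 1))) (C * N ^ p * ε)
          (HH A B R u q w a) := by
  obtain ⟨C₀, p₀, hC₀, hbd⟩ := bd_HK n M
  have hn : (0 : ℝ) ≤ n := Nat.cast_nonneg n
  have h8n : (1 : ℝ) ≤ 8 * (n + 1) := by linarith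
  refine ⟨C₀ * (8 * (n + 1)) ^ p₀ * (1 + 3 * 8 ^ (n + 1)), p₀ + (n + 1), ?_, ?_⟩
  · have h1 : (1 : ℝ) ≤ (8 * (n + 1)) ^ p₀ := one_le_pow₀ h8n
    have h2 : (1 : ℝ) ≤ 1 + 3 * 8 ^ (n + 1) := by
      have : (0 : ℝ) < 8 ^ (n + 1) := by positivity
      linarith
    exact one_le_mul_of_one_le_of_one_le (one_le_mul_of_one_le_of_one_le hC₀ h1) h2
  intro A B σ δ s b ε N R u q K hc hs hN hK
  have hδ := hs.δ_pos
  have hs0 := hs.s_pos
  have hε := hs.ε_nonneg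
  have hδ1 : δ ≤ 1 / 8 := by linarith [hs.δ_le, hc.σ_le]
  have hM : 0 ≤ M := by linarith [hc.M_ge]
  have hN1 := hN.one
  have hpi := Real.pi_pos
  obtain ⟨w, hw1, hw2⟩ := exists_w (Lm_fn hc hs) hδ hs0 K
  refine ⟨w, hw1, hw2, fun a => ?_⟩
  have hZ := Z_bd (Lm_fn hc hs) (Lm_bd hc hs) hδ (by linarith) hs0 le_rfl hε
    (fun k _ h2 y hy h3 => (res_bound hc hs h2 hy h3).trans
      (mul_le_mul_of_nonneg_left (Real.exp_le_exp.2 (by
        have h4 : (0 : ℝ) ≤ δ * nk k := mul_nonneg hδ.le (Nat.cast_nonneg _)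
        nlinarith)) hε)) hw2
  have h1δ : 1 / δ ≤ N := hN.hδ
  have h8 : 8 / δ ≤ 8 * N := by
    have : 8 / δ = 8 * (1 / δ) := by ring
    rw [this]
    linarith
  have h4 : 4 / δ ≤ 8 * N := by
    have : 4 / δ = 4 * (1 / δ) := by ring
    rw [this]
    linarith
  have hp8 : (8 / δ) ^ (n + 1) ≤ (8 * N) ^ (n + 1) :=
    pow_le_pow_left₀ (by positivity) h8 _
  have hp4 : (4 / δ) ^ (n + 1) ≤ (8 * N) ^ (n + 1) :=
    pow_le_pow_left₀ (by positivity) h4 _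
  have hN8 : (0 : ℝ) ≤ (8 * N) ^ (n + 1) := by positivity
  have hZ' : Bd (δ / 8) (s / (n + 1)) (3 * (8 * N) ^ (n + 1) * ε) (ZZ A B R u q w) := by
    refine Bd.mono hZ le_rfl le_rfl ?_
    have h5 : ε * (8 / δ) ^ (n + 1) ≤ ε * (8 * N) ^ (n + 1) := mul_le_mul_of_nonneg_left hp8 hε
    have h6 : 2 * Real.exp (-(Real.pi * (δ / 2) * K)) * (4 / δ) ^ (n + 1) ≤
        2 * ε * (8 * N) ^ (n + 1) :=
      mul_le_mul (by linarith) hp4 (by positivity) (by linarith)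
    linarith
  have hsn : s / ((n : ℝ) + 1) ≤ s := div_le_self hs0.le (by linarith)
  have hN' : Big σ (δ / 8) (s / (n + 1)) (8 * (n + 1) * N) := by
    have h1 : N ≤ 8 * (n + 1) * N := le_mul_of_one_le_left (by linarith) h8n
    refine ⟨hN1.trans h1, hN.hσ.trans h1, ?_, ?_⟩
    · rw [one_div_div]
      refine h8.trans ?_
      have h2 : 0 ≤ (n : ℝ) * N := mul_nonneg hn (by linarith)
      linarith
    · rw [one_div_div]
      have h2 : ((n : ℝ) + 1) / s = (n + 1) * (1 / s) := by ring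
      have h3 : ((n : ℝ) + 1) * (1 / s) ≤ (n + 1) * N :=
        mul_le_mul_of_nonneg_left hN.hs (by linarith)
      rw [h2]
      have h4 : 0 ≤ ((n : ℝ) + 1) * N := mul_nonneg (by linarith) (by linarith)
      linarith
  have hst : St A B M σ R (δ / 8) (s / (n + 1)) b ε u q :=
    hs.mono (by linarith) (by linarith) (by positivity) hsn le_rfl hs.b_le le_rfl hs.ε_le hM
  have key := (hbd hc hst (hw1 (δ / 8)) (by positivity) hZ' hN' a).1
  refine Bd.mono key (by linarith) (le_of_eq ?_) ?_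
  · field_simp
  · have h1 : (8 * ((n : ℝ) + 1) * N) ^ p₀ = (8 * (n + 1)) ^ p₀ * N ^ p₀ := mul_pow _ _ _
    have h2 : (8 * N) ^ (n + 1) = 8 ^ (n + 1) * N ^ (n + 1) := mul_pow _ _ _
    have h3 : (1 : ℝ) ≤ N ^ (n + 1) := one_le_pow₀ hN1
    have h5 : ε + 3 * (8 * N) ^ (n + 1) * ε ≤ (1 + 3 * 8 ^ (n + 1)) * N ^ (n + 1) * ε := by
      rw [h2]
      have h6 : ε ≤ N ^ (n + 1) * ε := le_mul_of_one_le_left hε h3
      linarith
    rw [h1, pow_add N p₀ (n + 1)]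
    calc C₀ * ((8 * ((n : ℝ) + 1)) ^ p₀ * N ^ p₀) * (ε + 3 * (8 * N) ^ (n + 1) * ε)
        ≤ C₀ * ((8 * ((n : ℝ) + 1)) ^ p₀ * N ^ p₀) *
          ((1 + 3 * 8 ^ (n + 1)) * N ^ (n + 1) * ε) :=
          mul_le_mul_of_nonneg_left h5 (by positivity)
      _ = _ := by ring

end Pool.Agent.LRig
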