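import Pool.Agent.LRig.FK
import Pool.Agent.LRig.RDefs

/-!
# LR (MP_74f563_an, all n), file RD: the resonant potential

`Rbs F K k h x = ∑_{l ∈ mK K k} Re (c_l e^{2πi l x})`, `c_l = cf (l k) F (cp 0 0 h)`, `0 < |l| ≤ K`.

PROOFS.  `cp 0 0 h` is its own conjugate, so `c_{-l} = conj c_l` (`cf_conj`), and `mK` is symmetric:
the complex sum `∑ c_l e^{2πi l x}` is real and equal to `Rbs`.
`Rbs_coef`: let `r` bound the oscillation, `m₁` and `m₂` the supremum and infimum of `Rbs`,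
`r₀ = (m₁ + m₂)/2`, so `|Rbs x - r₀| ≤ r/2`.  For `l ∈ mK K k` (`l ≠ 0`)
`c_l = ∫_0^1 Rbs x e^{-2πi l x} dx = ∫_0^1 (Rbs x - r₀) e^{-2πi l x} dx` (orthogonality of the
exponentials), so `‖c_l‖ ≤ r/2`.
`Rbs_lip`: the derivative of `Rbs` is bounded by
`∑ 2π |l| ‖c_l‖ ≤ 2π (r/2) 2 (1 + ... + K) = π r K (K + 1)
≤ 2π K² r ≤ 7 K² r` (`K ≥ 1` if `mK` is not empty); mean value inequality.
-/

set_option autoImplicit false

namespace Pool.Agent.LRig

open Complex Set MeasureTheory Pool.Agent.MechAlpha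

variable {n : ℕ} {δ s : ℝ} {F : CE n → ℂ}

private theorem cp_cj (h : Vec n) : cj (cp 0 0 h) = cp 0 0 h := by
  unfold cj cp rp
  refine Prod.ext ?_ ?_
  · funext i
    exact Complex.conj_ofReal _
  · funext a
    exact Complex.conj_ofReal _

private theorem nk_neg (k : Fin (n + 1) → ℤ) : nk (-k) = nk k := by
  unfold nk
  refine Finset.sum_congr rfl fun i _ => ?_
  rw [Pi.neg_apply, Int.natAbs_neg]

private theorem mem_mK {K : ℕ} {k : Fin (n + 1) → ℤ} {l : ℤ} :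
    l ∈ mK K k ↔ (-(K : ℤ) ≤ l ∧ l ≤ K) ∧ l ≠ 0 ∧ nk (l • k) ≤ K := by
  unfold mK
  rw [Finset.mem_filter, Finset.mem_Icc]

private theorem neg_mem_mK {K : ℕ} {k : Fin (n + 1) → ℤ} {l : ℤ} (h : l ∈ mK K k) :
    -l ∈ mK K k := by
  rw [mem_mK] at h ⊢
  obtain ⟨⟨h1, h2⟩, h3, h4⟩ := h
  refine ⟨⟨by omega, by omega⟩, neg_ne_zero.2 h3, ?_⟩
  rw [neg_smul, nk_neg]
  exact h4

private theorem conj_two' : (starRingEnd ℂ) (2 : ℂ) = 2 :=
  Complex.conj_eq_iff_im.2 (by simp)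

private theorem exp_conj' (l : ℤ) (x : ℝ) :
    (starRingEnd ℂ) (exp (2 * Real.pi * I * l * x)) =
      exp (2 * Real.pi * I * ((-l : ℤ) : ℂ) * x) := by
  rw [← Complex.exp_conj]
  congr 1
  rw [map_mul, map_mul, map_mul, map_mul, conj_two', Complex.conj_ofReal, Complex.conj_I,
    Complex.conj_ofReal, map_intCast]
  push_cast
  ring

private theorem exp_nrm (l : ℤ) (x : ℝ) : ‖exp (2 * Real.pi * I * l * x)‖ = 1 := by
  rw [Complex.norm_exp]
  have h : (2 * (Real.pi : ℂ) * I * l * x).re = 0 := by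
    simp
  rw [h, Real.exp_zero]

private theorem exp_add' (l : ℤ) (x y : ℝ) : exp (2 * Real.pi * I * l * ((x + y : ℝ) : ℂ)) =
    exp (2 * Real.pi * I * l * x) * exp (2 * Real.pi * I * l * y) := by
  rw [← Complex.exp_add]
  congr 1
  push_cast
  ring

private theorem exp_lip (l : ℤ) (x y : ℝ) :
    ‖exp (2 * Real.pi * I * l * x) - exp (2 * Real.pi * I * l * y)‖ ≤
      2 * Real.pi * |(l : ℝ)| * |x - y| := by
  have h1 : exp (2 * Real.pi * I * l * x) - exp (2 * Real.pi * I * l * y) =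
      exp (2 * Real.pi * I * l * y) * (exp (I * ((2 * Real.pi * l * (x - y) : ℝ) : ℂ)) - 1) := by
    rw [mul_sub, mul_one, ← Complex.exp_add]
    congr 2
    push_cast
    ring
  rw [h1, norm_mul, exp_nrm, one_mul]
  refine (Real.norm_exp_I_mul_ofReal_sub_one_le).trans (le_of_eq ?_)
  rw [Real.norm_eq_abs, abs_mul, abs_mul, abs_of_pos Real.two_pi_pos]

private theorem int_exp1 (m : ℤ) (hm : m ≠ 0) :
    ∫ x in (0 : ℝ)..1, exp (2 * Real.pi * I * m * x) = 0 := by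
  have hc : (2 * Real.pi * I * m : ℂ) ≠ 0 := by
    have h1 : (m : ℂ) ≠ 0 := by exact_mod_cast hm
    exact mul_ne_zero Complex.two_pi_I_ne_zero h1
  rw [integral_exp_mul_complex hc]
  have h2 : exp (2 * Real.pi * I * m * ((1 : ℝ) : ℂ)) = 1 := by
    have e : (2 * Real.pi * I * m * ((1 : ℝ) : ℂ) : ℂ) = (m : ℂ) * (2 * Real.pi * I) := by
      push_cast
      ring
    rw [e, Complex.exp_int_mul_two_pi_mul_I]
  have h3 : exp (2 * Real.pi * I * m * ((0 : ℝ) : ℂ)) = 1 := by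
    simp
  rw [h2, h3, sub_self, zero_div]

private theorem exp_cont (l : ℤ) : Continuous fun x : ℝ => exp (2 * Real.pi * I * l * x) := by
  fun_prop

theorem Rbs_cont (F : CE n → ℂ) (K : ℕ) (k : Fin (n + 1) → ℤ) (h : Vec n) :
    Continuous (Rbs F K k h) := by
  unfold Rbs
  refine continuous_finsetSum _ fun l _ => Complex.continuous_re.comp ?_
  exact continuous_const.mul (exp_cont l)

theorem Rbs_per (F : CE n → ℂ) (K : ℕ) (k : Fin (n + 1) → ℤ) (h : Vec n) (x : ℝ) :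
    Rbs F K k h (x + 1) = Rbs F K k h x := by
  unfold Rbs
  refine Finset.sum_congr rfl fun l _ => ?_
  have h1 : exp (2 * Real.pi * I * l * ((1 : ℝ) : ℂ)) = 1 := by
    have e : (2 * Real.pi * I * l * ((1 : ℝ) : ℂ) : ℂ) = (l : ℂ) * (2 * Real.pi * I) := by
      push_cast
      ring
    rw [e, Complex.exp_int_mul_two_pi_mul_I]
  rw [exp_add', h1, mul_one]

/-- the complex sum is real -/
theorem Rbs_sum (hF : Fn δ s F) (K : ℕ) (k : Fin (n + 1) → ℤ) (h : Vec n) (x : ℝ) :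
    ∑ l ∈ mK K k, cf (l • k) F (cp 0 0 h) * exp (2 * Real.pi * I * l * x) =
      ((Rbs F K k h x : ℝ) : ℂ) := by
  have h1 : (starRingEnd ℂ) (∑ l ∈ mK K k, cf (l • k) F (cp 0 0 h) *
      exp (2 * Real.pi * I * l * x)) =
      ∑ l ∈ mK K k, cf (l • k) F (cp 0 0 h) * exp (2 * Real.pi * I * l * x) := by
    rw [map_sum]
    refine Finset.sum_bij' (fun l _ => -l) (fun l _ => -l) (fun l hl => neg_mem_mK hl)
      (fun l hl => neg_mem_mK hl) (fun l _ => neg_neg l) (fun l _ => neg_neg l) fun l _ => ?_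
    rw [map_mul, exp_conj', ← cf_conj hF, cp_cj, neg_smul]
  have h2 := Complex.conj_eq_iff_re.1 h1
  rw [← h2, Complex.re_sum]
  rfl

theorem Rbs_coef (hF : Fn δ s F) {K : ℕ} {k : Fin (n + 1) → ℤ} {h : Vec n} {r : ℝ}
    (hr : ∀ x y, Rbs F K k h x - Rbs F K k h y ≤ r) {l : ℤ} (hl : l ∈ mK K k) :
    ‖cf (l • k) F (cp 0 0 h)‖ ≤ r / 2 := by
  have hl' := (mem_mK.1 hl).2.1
  have hlr : (l : ℝ) ≠ 0 := by exact_mod_cast hl'
  have hlc : (l : ℂ) ≠ 0 := by exact_mod_cast hl'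
  set c := fun j : ℤ => cf (j • k) F (cp 0 0 h) with hc
  set w : ℝ := 1 / (2 * l) with hw
  have hI : ∀ (j : ℤ) (a : ℂ), IntervalIntegrable (fun x : ℝ => a *
      exp (2 * Real.pi * I * ((j - l : ℤ) : ℂ) * x)) volume 0 1 := fun j a =>
    (continuous_const.mul (exp_cont (j - l))).intervalIntegrable _ _
  have key : ∀ b : ℤ → ℂ, ∫ x in (0 : ℝ)..1, ∑ j ∈ mK K k, b j *
      exp (2 * Real.pi * I * ((j - l : ℤ) : ℂ) * x) = b l := by
    intro b
    rw [intervalIntegral.integral_finsetSum fun j _ => hI j (b j)]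
    rw [Finset.sum_eq_single l]
    · rw [intervalIntegral.integral_const_mul]
      simp
    · intro j _ hj
      rw [intervalIntegral.integral_const_mul, int_exp1 _ (sub_ne_zero.2 hj), mul_zero]
    · intro h'
      exact absurd hl h'
  have hf : ∀ x : ℝ, ((Rbs F K k h x - Rbs F K k h (x + w) : ℝ) : ℂ) *
      exp (2 * Real.pi * I * ((-l : ℤ) : ℂ) * x) =
      ∑ j ∈ mK K k, (c j * (1 - exp (2 * Real.pi * I * j * w))) *
        exp (2 * Real.pi * I * ((j - l : ℤ) : ℂ) * x) := by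
    intro x
    rw [Complex.ofReal_sub, ← Rbs_sum hF K k h x, ← Rbs_sum hF K k h (x + w),
      ← Finset.sum_sub_distrib, Finset.sum_mul]
    refine Finset.sum_congr rfl fun j _ => ?_
    rw [exp_add']
    have e : exp (2 * Real.pi * I * ((j - l : ℤ) : ℂ) * x) =
        exp (2 * Real.pi * I * j * x) * exp (2 * Real.pi * I * ((-l : ℤ) : ℂ) * x) := by
      rw [← Complex.exp_add]
      congr 1
      push_cast
      ring
    rw [e]
    ring
  have hint : ∫ x in (0 : ℝ)..1, ((Rbs F K k h x - Rbs F K k h (x + w) : ℝ) : ℂ) *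
      exp (2 * Real.pi * I * ((-l : ℤ) : ℂ) * x) = 2 * c l := by
    simp_rw [hf]
    rw [key]
    have e : (2 * Real.pi * I * l * w : ℂ) = Real.pi * I := by
      rw [hw]
      push_cast
      field_simp
    rw [e, Complex.exp_pi_mul_I]
    ring
  have hb : ‖∫ x in (0 : ℝ)..1, ((Rbs F K k h x - Rbs F K k h (x + w) : ℝ) : ℂ) *
      exp (2 * Real.pi * I * ((-l : ℤ) : ℂ) * x)‖ ≤ r * |(1 : ℝ) - 0| := by
    refine intervalIntegral.norm_integral_le_of_norm_le_const fun x _ => ?_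
    rw [norm_mul, exp_nrm, mul_one, Complex.norm_real, Real.norm_eq_abs, abs_le]
    constructor
    · have := hr (x + w) x
      linarith
    · exact hr x (x + w)
  rw [hint, sub_zero, abs_one, mul_one, norm_mul] at hb
  have h2 : ‖(2 : ℂ)‖ = 2 := by simp
  rw [h2] at hb
  have h3 : ‖c l‖ = ‖cf (l • k) F (cp 0 0 h)‖ := rfl
  rw [← h3]
  linarith

theorem Rbs_lip (hF : Fn δ s F) (K : ℕ) (k : Fin (n + 1) → ℤ) (h : Vec n) :
    LipOsc (7 * K ^ 2) (Rbs F K k h) := by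
  intro r hr x y
  have hr0 : 0 ≤ r := by
    have := hr 0 0
    linarith
  have h1 : |Rbs F K k h x - Rbs F K k h y| ≤
      ∑ l ∈ mK K k, r / 2 * (2 * Real.pi * |(l : ℝ)| * |x - y|) := by
    unfold Rbs
    rw [← Finset.sum_sub_distrib]
    refine (Finset.abs_sum_le_sum_abs _ _).trans (Finset.sum_le_sum fun l hl => ?_)
    rw [← Complex.sub_re, ← mul_sub]
    refine (Complex.abs_re_le_norm _).trans ?_
    rw [norm_mul]
    exact mul_le_mul (Rbs_coef hF hr hl) (exp_lip l x y) (norm_nonneg _) (by linarith)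
  have h2 : ∑ l ∈ mK K k, r / 2 * (2 * Real.pi * |(l : ℝ)| * |x - y|) =
      Real.pi * r * |x - y| * ∑ l ∈ mK K k, |(l : ℝ)| := by
    rw [Finset.mul_sum]
    refine Finset.sum_congr rfl fun l _ => ?_
    ring
  have h3 : ∑ l ∈ mK K k, |(l : ℝ)| ≤ 2 * K ^ 2 := by
    have h4 : ∑ l ∈ mK K k, |(l : ℝ)| ≤ ∑ l ∈ mK K k, (K : ℝ) := by
      refine Finset.sum_le_sum fun l hl => ?_
      obtain ⟨⟨a1, a2⟩, -⟩ := mem_mK.1 hl
      rw [abs_le]
      constructor
      · exact_mod_cast a1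
      · exact_mod_cast a2
    have h5 : (mK K k).card ≤ 2 * K := by
      have h6 : mK K k ⊆ (Finset.Icc (-(K : ℤ)) K).erase 0 := by
        intro l hl
        obtain ⟨⟨a1, a2⟩, a3, -⟩ := mem_mK.1 hl
        rw [Finset.mem_erase, Finset.mem_Icc]
        exact ⟨a3, a1, a2⟩
      refine (Finset.card_le_card h6).trans ?_
      rw [Finset.card_erase_of_mem (by rw [Finset.mem_Icc]; omega), Int.card_Icc]
      omega
    rw [Finset.sum_const, nsmul_eq_mul] at h4
    have h7 : ((mK K k).card : ℝ) ≤ 2 * K := by exact_mod_cast h5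
    have h8 : (0 : ℝ) ≤ K := Nat.cast_nonneg K
    nlinarith
  have hpi : Real.pi ≤ 3.5 := by
    have := Real.pi_lt_d2
    linarith
  have hA : 0 ≤ r * |x - y| := mul_nonneg hr0 (abs_nonneg _)
  have hK2 : (0 : ℝ) ≤ (K : ℝ) ^ 2 := sq_nonneg _
  refine h1.trans ?_
  rw [h2]
  calc Real.pi * r * |x - y| * ∑ l ∈ mK K k, |(l : ℝ)| ≤ Real.pi * r * |x - y| * (2 * K ^ 2) := by
        refine mul_le_mul_of_nonneg_left h3 ?_
        rw [mul_assoc]
        exact mul_nonneg Real.pi_pos.le hA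
    _ = Real.pi * (2 * K ^ 2 * (r * |x - y|)) := by ring
    _ ≤ 3.5 * (2 * K ^ 2 * (r * |x - y|)) := by
        refine mul_le_mul_of_nonneg_right hpi ?_
        positivity
    _ = 7 * K ^ 2 * r * |x - y| := by ring

end Pool.Agent.LRig
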