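import Pool.Agent.LRig.RB
import Pool.Agent.LRig.IE

/-!
# LR (MP_74f563_an, all n), file RG: the leaf of a state in real form (identities)

PROOFS.  File RB: `rr F h` is smooth,
`fderiv (rr F h) (t, θ) (τ, v) = τ Re dz 0 F + ∑ v a Re dz a.succ F`,
`fderiv (rr F h) (t, θ) (1, h) = Re (DD F)`, at the point `y = cp t θ h`; `u a`, `q a`, `w` are
real at
real points (`rr_im`).  `(Ah)_b = ∑ A b c h c`.
`cp_Ps`: the point `Ps A u q (cp t θ h)` is the real point `cp t (Xs ..) (Qs ..)`.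
`leaf_e1`: the coordinate `a` is `h a + Re DD (u a) - ∑ B a b ((Ah)_b + q b) - Re dh a R (Ps)`,
  and
`∑ B a b (Ah)_b = h a`.
`leaf_graph`: `fderiv Ws (0, v) = ∑_a v a [dz a.succ w + ∑_b (Ah)_b dz a.succ (u b)]`,
`⟪cs, v⟫ = ∑ v a ((Ah)_a + gg a)` (`gg` at `cp 0 0 h` and at `y` agree, `gg_Zi`),
`⟪Qs, fderiv Xs (0, v)⟫ = ∑_b ((Ah)_b + q b) (v b + ∑_a v a dz a.succ (u b))`; the terms with `Ah`
cancel.
`leaf_act`: `⟪Qs, fderiv Xs (1, h)⟫ = ∑_a ((Ah)_a + q a) (h a + DD (u a))`,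
`Hr = ½ ∑ B a b ((Ah)_a + q a) ((Ah)_b + q b) + R(Ps)`, and
`½ ⟨B (Ah + q), Ah + q⟩ = ½ ⟨h, Ah⟩ + ⟨h, q⟩ + ½ ⟨B q, q⟩` (`B A = 1`, `B` symmetric: `B_symm` or
from
`A` symmetric), so the difference is `½ ⟨h, Ah⟩ + ∑ (Ah)_a DD (u a) + Lm`; subtract
`Ls = ½ ⟨h, Ah⟩ + avg Lm` and `fderiv Ws (1, h) = DD w + ∑ (Ah)_a DD (u a)`: it remains
`Lm - avg Lm - DD w = -ZZ`.
`Xs_near`: the coordinates of `fderiv Xs (0, v) - v` are `∑_c v c Re dz c.succ (u a)`, at most
`b ∑ |v c| ≤ b n ‖v‖`, so the norm is at most `n² b ‖v‖ ≤ ‖v‖/4` (`b ≤ b0 ≤ 1/(64 (n+1)²)`).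
-/

set_option autoImplicit false

namespace Pool.Agent.LRig

open Complex Set MeasureTheory Pool.Agent.MechAlpha
open scoped RealInnerProductSpace ContDiff

variable {n : ℕ} {A B : Matrix (Fin n) (Fin n) ℝ} {M σ δ s b ε : ℝ} {R w : CE n → ℂ}
  {u q : Fin n → CE n → ℂ}

/-! ## Private tools -/

private theorem rg_coord {E : Type*} [NormedAddCommGroup E] [NormedSpace ℝ E] {f : E → Vec n}
    {x : E} (hf : DifferentiableAt ℝ f x) (v : E) (a : Fin n) :
    fderiv ℝ f x v a = fderiv ℝ (fun y => f y a) x v := by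
  have h1 : HasFDerivAt (fun y => f y a)
      ((EuclideanSpace.proj a : Vec n →L[ℝ] ℝ).comp (fderiv ℝ f x)) x :=
    (EuclideanSpace.proj a : Vec n →L[ℝ] ℝ).hasFDerivAt.comp x hf.hasFDerivAt
  rw [h1.fderiv]
  rfl

private theorem rg_cp0 (t : ℝ) (θ h : Vec n) : (cp t θ h).1 0 = (t : ℂ) := rfl

private theorem rg_cps (t : ℝ) (θ h : Vec n) (a : Fin n) :
    (cp t θ h).1 a.succ = (θ a : ℂ) := rfl

private theorem rg_cph (t : ℝ) (θ h : Vec n) (a : Fin n) : (cp t θ h).2 a = (h a : ℂ) := rfl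

private theorem rg_Xs (u : Fin n → CE n → ℂ) (h : Vec n) (x : ℝ × Vec n) (a : Fin n) :
    Xs u h x a = x.2 a + rr (u a) h x := rfl

private theorem rg_Qs (A : Matrix (Fin n) (Fin n) ℝ) (q : Fin n → CE n → ℂ) (h : Vec n)
    (x : ℝ × Vec n) (a : Fin n) : Qs A q h x a = ∑ b, A a b * h b + rr (q a) h x := rfl

private theorem rg_diff (hs : St A B M σ R δ s b ε u q) (h : Vec n) (a : Fin n)
    (x : ℝ × Vec n) : DifferentiableAt ℝ (rr (u a) h) x :=
  ((rr_smooth (hs.ufn a) hs.δ_pos hs.s_pos h).differentiable (by simp)).differentiableAt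

private theorem rg_diffw (hs : St A B M σ R δ s b ε u q) (hw : Fn δ s w) (h : Vec n)
    (x : ℝ × Vec n) : DifferentiableAt ℝ (rr w h) x :=
  ((rr_smooth hw hs.δ_pos hs.s_pos h).differentiable (by simp)).differentiableAt

/-- `B (A h) = h` -/
private theorem rg_BA (hc : Ctx A B M σ R) (h : Vec n) (a : Fin n) :
    ∑ b, B a b * (∑ c, A b c * h c) = h a := by
  have h1 : B.mulVec (A.mulVec fun c => h c) = fun c => h c := by
    rw [Matrix.mulVec_mulVec, hc.inv, Matrix.one_mulVec]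
  exact congrFun h1 a

private theorem rg_symm (hc : Ctx A B M σ R) (i j : Fin n) : B i j = B j i := by
  have hA : A.transpose = A := by
    ext a c
    exact hc.symm c a
  have h1 : A * B.transpose = 1 := by
    have h2 := congrArg Matrix.transpose hc.inv
    rw [Matrix.transpose_mul, Matrix.transpose_one, hA] at h2
    exact h2
  have h3 : B.transpose = B := by
    calc B.transpose = (B * A) * B.transpose := by rw [hc.inv, Matrix.one_mul]
      _ = B := by rw [Matrix.mul_assoc, h1, Matrix.mul_one]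
  have h4 := congrFun (congrFun h3 j) i
  exact h4

/-- the quadratic form -/
private theorem rg_quad (hc : Ctx A B M σ R) (h : Vec n) (r : Fin n → ℝ) :
    ∑ a, ∑ b, B a b * (∑ c, A a c * h c + r a) * (∑ c, A b c * h c + r b) =
      ∑ a, ∑ b, A a b * h a * h b + 2 * ∑ a, h a * r a + ∑ a, ∑ b, B a b * r a * r b := by
  have e1 : ∀ a, ∑ b, B a b * (∑ c, A b c * h c) = h a := rg_BA hc h
  have e2 : ∀ b, ∑ a, B a b * (∑ c, A a c * h c) = h b := by
    intro b
    rw [← e1 b]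
    refine Finset.sum_congr rfl fun a _ => ?_
    rw [rg_symm hc a b]
  have h1 : ∀ a, ∑ b, B a b * (∑ c, A a c * h c + r a) * (∑ c, A b c * h c + r b) =
      (∑ c, A a c * h c) * (∑ b, B a b * (∑ c, A b c * h c)) +
        r a * (∑ b, B a b * (∑ c, A b c * h c)) +
          ∑ b, B a b * (∑ c, A a c * h c) * r b + ∑ b, B a b * r a * r b := by
    intro a
    rw [Finset.mul_sum, Finset.mul_sum, ← Finset.sum_add_distrib, ← Finset.sum_add_distrib,
      ← Finset.sum_add_distrib]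
    refine Finset.sum_congr rfl fun b _ => ?_
    ring
  rw [Finset.sum_congr rfl fun a _ => h1 a, Finset.sum_add_distrib, Finset.sum_add_distrib,
    Finset.sum_add_distrib]
  have h2 : ∑ a, ∑ b, B a b * (∑ c, A a c * h c) * r b = ∑ a, h a * r a := by
    rw [Finset.sum_comm]
    refine Finset.sum_congr rfl fun b _ => ?_
    rw [← Finset.sum_mul, e2]
  have h3 : ∑ a, (∑ c, A a c * h c) * (∑ b, B a b * (∑ c, A b c * h c)) =
      ∑ a, ∑ b, A a b * h a * h b := by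
    refine Finset.sum_congr rfl fun a _ => ?_
    rw [e1, Finset.sum_mul]
    refine Finset.sum_congr rfl fun b _ => ?_
    ring
  have h4 : ∑ a, r a * (∑ b, B a b * (∑ c, A b c * h c)) = ∑ a, h a * r a := by
    refine Finset.sum_congr rfl fun a _ => ?_
    rw [e1, mul_comm]
  rw [h2, h3, h4]
  ring

private theorem rg_inner (x y : Vec n) : ⟪x, y⟫ = ∑ a, x a * y a := by
  rw [PiLp.inner_apply]
  refine Finset.sum_congr rfl fun a _ => ?_
  change y a * x a = _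
  rw [mul_comm]

/-! ## Smoothness and periodicity -/

theorem Xs_smooth (hs : St A B M σ R δ s b ε u q) (h : Vec n) : ContDiff ℝ 1 (Xs u h) := by
  rw [contDiff_euclidean]
  intro a
  have h1 : ContDiff ℝ 1 (fun x : ℝ × Vec n => x.2 a) := by fun_prop
  exact h1.add ((rr_smooth (hs.ufn a) hs.δ_pos hs.s_pos h).of_le (by exact_mod_cast le_top))

theorem Qs_cont (hs : St A B M σ R δ s b ε u q) (h : Vec n) : Continuous (Qs A q h) := by
  have h1 : ContDiff ℝ 1 (Qs A q h) := by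
    rw [contDiff_euclidean]
    intro a
    exact contDiff_const.add
      ((rr_smooth (hs.qfn a) hs.δ_pos hs.s_pos h).of_le (by exact_mod_cast le_top))
  exact h1.continuous

theorem Ws_smooth (hs : St A B M σ R δ s b ε u q) (hw : Fn δ s w) (h : Vec n) :
    ContDiff ℝ 1 (Ws A u w h) := by
  have h1 : ContDiff ℝ 1 (rr w h) :=
    (rr_smooth hw hs.δ_pos hs.s_pos h).of_le (by exact_mod_cast le_top)
  have h2 : ContDiff ℝ 1 fun x => ∑ a, (∑ b, A a b * h b) * rr (u a) h x := by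
    refine ContDiff.sum fun a _ => ?_
    exact contDiff_const.mul
      ((rr_smooth (hs.ufn a) hs.δ_pos hs.s_pos h).of_le (by exact_mod_cast le_top))
  exact h1.add h2

theorem Xs_per (hs : St A B M σ R δ s b ε u q) (h : Vec n) (t : ℝ) (θ : Vec n) :
    (∀ l : Fin n → ℤ, Xs u h (t, θ + zv l) = Xs u h (t, θ) + zv l) ∧
      Xs u h (t + 1, θ) = Xs u h (t, θ) := by
  refine ⟨fun l => ?_, ?_⟩
  · ext a
    change (θ a + (zv l : Vec n) a) + rr (u a) h (t, θ + zv l) =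
      (θ a + rr (u a) h (t, θ)) + (zv l : Vec n) a
    rw [rr_per (hs.ufn a)]
    ring
  · ext a
    change θ a + rr (u a) h (t + 1, θ) = θ a + rr (u a) h (t, θ)
    rw [rr_pert (hs.ufn a)]

theorem Ws_per (hs : St A B M σ R δ s b ε u q) (hw : Fn δ s w) (h : Vec n) (t : ℝ)
    (θ : Vec n) : (∀ l : Fin n → ℤ, Ws A u w h (t, θ + zv l) = Ws A u w h (t, θ)) ∧
      Ws A u w h (t + 1, θ) = Ws A u w h (t, θ) := by
  refine ⟨fun l => ?_, ?_⟩
  · simp only [Ws]
    rw [rr_per hw]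
    congr 1
    refine Finset.sum_congr rfl fun a _ => ?_
    rw [rr_per (hs.ufn a)]
  · simp only [Ws]
    rw [rr_pert hw]
    congr 1
    refine Finset.sum_congr rfl fun a _ => ?_
    rw [rr_pert (hs.ufn a)]

/-! ## Derivatives -/

private theorem Xs_fd (hs : St A B M σ R δ s b ε u q) (h : Vec n) (t : ℝ) (θ : Vec n)
    (τ : ℝ) (v : Vec n) (a : Fin n) :
    fderiv ℝ (Xs u h) (t, θ) (τ, v) a = v a + fderiv ℝ (rr (u a) h) (t, θ) (τ, v) := by
  rw [rg_coord ((Xs_smooth hs h).differentiable (by simp)).differentiableAt]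
  have h1 : HasFDerivAt (fun x : ℝ × Vec n => x.2 a)
      ((EuclideanSpace.proj a : Vec n →L[ℝ] ℝ).comp (ContinuousLinearMap.snd ℝ ℝ (Vec n)))
      (t, θ) :=
    ((EuclideanSpace.proj a : Vec n →L[ℝ] ℝ).comp
      (ContinuousLinearMap.snd ℝ ℝ (Vec n))).hasFDerivAt
  have h2 : HasFDerivAt (fun x : ℝ × Vec n => Xs u h x a)
      ((EuclideanSpace.proj a : Vec n →L[ℝ] ℝ).comp (ContinuousLinearMap.snd ℝ ℝ (Vec n)) +
        fderiv ℝ (rr (u a) h) (t, θ)) (t, θ) :=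
    h1.add (rg_diff hs h a (t, θ)).hasFDerivAt
  rw [h2.fderiv]
  rfl

private theorem Xs_fdv (hs : St A B M σ R δ s b ε u q) (h : Vec n) (t : ℝ) (θ v : Vec n)
    (a : Fin n) : fderiv ℝ (Xs u h) (t, θ) (0, v) a =
      v a + ∑ c, v c * (dz c.succ (u a) (cp t θ h)).re := by
  rw [Xs_fd hs, rr_fderiv (hs.ufn a) hs.δ_pos hs.s_pos, zero_mul, zero_add]

private theorem Xs_fdh (hs : St A B M σ R δ s b ε u q) (h : Vec n) (t : ℝ) (θ : Vec n)
    (a : Fin n) : fderiv ℝ (Xs u h) (t, θ) (1, h) a =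
      h a + (DD (u a) (cp t θ h)).re := by
  rw [Xs_fd hs, rr_flow (hs.ufn a) hs.δ_pos hs.s_pos]

private theorem Ws_fd (hs : St A B M σ R δ s b ε u q) (hw : Fn δ s w) (h : Vec n)
    (x v : ℝ × Vec n) : fderiv ℝ (Ws A u w h) x v = fderiv ℝ (rr w h) x v +
      ∑ a, (∑ b, A a b * h b) * fderiv ℝ (rr (u a) h) x v := by
  have h1 : HasFDerivAt (Ws A u w h) (fderiv ℝ (rr w h) x +
      ∑ a, (∑ b, A a b * h b) • fderiv ℝ (rr (u a) h) x) x := by
    refine (rg_diffw hs hw h x).hasFDerivAt.add (HasFDerivAt.fun_sum fun a _ => ?_)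
    exact (rg_diff hs h a x).hasFDerivAt.const_mul _
  rw [h1.fderiv]
  simp

theorem Xs_near (hc : Ctx A B M σ R) (hs : St A B M σ R δ s b ε u q) (h : Vec n) (t : ℝ)
    (θ v : Vec n) : ‖fderiv ℝ (Xs u h) (t, θ) (0, v) - v‖ ≤ ‖v‖ / 4 := by
  have hb := hs.b_nonneg
  have hn : (0 : ℝ) ≤ n := Nat.cast_nonneg n
  have hv := norm_nonneg v
  have hσ := hc.σ_pos
  have hM := hc.M_ge
  have hy := cp_mem hs.δ_pos hs.s_pos t θ h
  have h1 : ∀ a, |(fderiv ℝ (Xs u h) (t, θ) (0, v) - v) a| ≤ n * (‖v‖ * b) := by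
    intro a
    have h2 : (fderiv ℝ (Xs u h) (t, θ) (0, v) - v) a =
        ∑ c, v c * (dz c.succ (u a) (cp t θ h)).re := by
      change fderiv ℝ (Xs u h) (t, θ) (0, v) a - v a = _
      rw [Xs_fdv hs]
      ring
    rw [h2]
    refine (Finset.abs_sum_le_sum_abs _ _).trans ?_
    have h3 : ∀ c ∈ (Finset.univ : Finset (Fin n)),
        |v c * (dz c.succ (u a) (cp t θ h)).re| ≤ ‖v‖ * b := by
      intro c _
      rw [abs_mul]
      have h4 : |v c| ≤ ‖v‖ := by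
        have h5 := PiLp.norm_apply_le v c
        rwa [Real.norm_eq_abs] at h5
      have h6 : |(dz c.succ (u a) (cp t θ h)).re| ≤ b :=
        (Complex.abs_re_le_norm _).trans (hs.uz a c.succ _ hy)
      exact mul_le_mul h4 h6 (abs_nonneg _) hv
    refine (Finset.sum_le_sum h3).trans (le_of_eq ?_)
    rw [Finset.sum_const, Finset.card_univ, Fintype.card_fin, nsmul_eq_mul]
  have h2 : b * (64 * ((n : ℝ) + 1) ^ 2) ≤ 1 := by
    have h3 := hs.b_le
    rw [b0, le_div_iff₀ (by positivity)] at h3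
    have h4 : b * (64 * ((n : ℝ) + 1) ^ 2) ≤ b * (64 * ((n : ℝ) + 1) ^ 2 * M) := by
      refine mul_le_mul_of_nonneg_left ?_ hb
      have h5 : 0 ≤ 64 * ((n : ℝ) + 1) ^ 2 := by positivity
      nlinarith
    linarith [hc.σ_le]
  have h3 : n * (n * (‖v‖ * b)) ≤ ‖v‖ / 4 := by
    have h4 : (n : ℝ) * n * b ≤ 1 / 64 := by
      have h5 : (n : ℝ) * n ≤ ((n : ℝ) + 1) ^ 2 := by nlinarith
      have h6 := mul_le_mul_of_nonneg_right h5 hb
      linarith
    have h5 := mul_le_mul_of_nonneg_right h4 hv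
    have h6 : (n : ℝ) * (n * (‖v‖ * b)) = n * n * b * ‖v‖ := by ring
    rw [h6]
    linarith
  refine le_trans ?_ h3
  rw [EuclideanSpace.norm_eq]
  have h4 : ∑ i, ‖(fderiv ℝ (Xs u h) (t, θ) (0, v) - v) i‖ ^ 2 ≤
      (n * (n * (‖v‖ * b))) ^ 2 := by
    have h5 : ∀ i ∈ (Finset.univ : Finset (Fin n)),
        ‖(fderiv ℝ (Xs u h) (t, θ) (0, v) - v) i‖ ^ 2 ≤ (n * (‖v‖ * b)) ^ 2 := by
      intro i _
      rw [Real.norm_eq_abs]
      exact pow_le_pow_left₀ (abs_nonneg _) (h1 i) 2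
    refine (Finset.sum_le_sum h5).trans ?_
    rw [Finset.sum_const, Finset.card_univ, Fintype.card_fin, nsmul_eq_mul]
    have h6 : 0 ≤ (n * (‖v‖ * b)) ^ 2 := sq_nonneg _
    rcases Nat.eq_zero_or_pos n with h7 | h7
    · have h8 : (n : ℝ) = 0 := by exact_mod_cast h7
      rw [h8]
      simp
    · have h8 : (1 : ℝ) ≤ n := by exact_mod_cast h7
      have h9 : (n * (n * (‖v‖ * b))) ^ 2 = (n * n : ℝ) * (n * (‖v‖ * b)) ^ 2 := by ring
      rw [h9]
      exact mul_le_mul_of_nonneg_right (by nlinarith) h6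
  refine (Real.sqrt_le_sqrt h4).trans (le_of_eq ?_)
  exact Real.sqrt_sq (by positivity)

/-! ## The identities -/

theorem cp_Ps (hs : St A B M σ R δ s b ε u q) (h : Vec n) (t : ℝ) (θ : Vec n) :
    Ps A u q (cp t θ h) = cp t (Xs u h (t, θ)) (Qs A q h (t, θ)) := by
  refine Prod.ext (funext fun i => ?_) (funext fun a => ?_)
  · refine Fin.cases rfl (fun a => ?_) i
    change (cp t θ h).1 a.succ + u a (cp t θ h) = ((Xs u h (t, θ) a : ℝ) : ℂ)
    rw [rr_im (hs.ufn a), rg_Xs, rg_cps]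
    push_cast
    rfl
  · change ∑ b, (A a b : ℂ) * (cp t θ h).2 b + q a (cp t θ h) = ((Qs A q h (t, θ) a : ℝ) : ℂ)
    rw [rr_im (hs.qfn a), rg_Qs]
    push_cast
    rfl

theorem leaf_e1 (hc : Ctx A B M σ R) (hs : St A B M σ R δ s b ε u q) (h : Vec n) (t : ℝ)
    (θ : Vec n) : fderiv ℝ (Xs u h) (t, θ) (1, h) -
      Hpr B R (Xs u h (t, θ)) (Qs A q h (t, θ)) t =
        WithLp.toLp 2 fun a => (E1 A B R u q a (cp t θ h)).re := by
  ext a
  change fderiv ℝ (Xs u h) (t, θ) (1, h) a - (∑ b, B a b * Qs A q h (t, θ) b +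
    (dh a R (cp t (Xs u h (t, θ)) (Qs A q h (t, θ)))).re) = (E1 A B R u q a (cp t θ h)).re
  rw [Xs_fdh hs, ← cp_Ps hs]
  have h1 : ∑ b, B a b * Qs A q h (t, θ) b = h a + ∑ b, B a b * rr (q b) h (t, θ) := by
    rw [← rg_BA hc h a, ← Finset.sum_add_distrib]
    refine Finset.sum_congr rfl fun b _ => ?_
    rw [rg_Qs]
    ring
  have h2 : (∑ b, (B a b : ℂ) * q b (cp t θ h)).re = ∑ b, B a b * rr (q b) h (t, θ) := by
    rw [Complex.re_sum]
    refine Finset.sum_congr rfl fun b _ => ?_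
    rw [Complex.re_ofReal_mul]
    rfl
  rw [h1]
  simp only [E1]
  rw [Complex.sub_re, Complex.sub_re, h2]
  ring

theorem leaf_graph (hc : Ctx A B M σ R) (hs : St A B M σ R δ s b ε u q) (hw : Fn δ s w)
    (h : Vec n) (t : ℝ) (θ v : Vec n) :
    fderiv ℝ (Ws A u w h) (t, θ) (0, v) + ⟪cs A B R u q h, v⟫ -
      ⟪Qs A q h (t, θ), fderiv ℝ (Xs u h) (t, θ) (0, v)⟫ =
        ∑ a, v a * (HH A B R u q w a (cp t θ h)).re := by
  rw [rg_inner, rg_inner, Ws_fd hs hw, rr_fderiv hw hs.δ_pos hs.s_pos, zero_mul, zero_add]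
  have h1 : ∑ a, (∑ b, A a b * h b) * fderiv ℝ (rr (u a) h) (t, θ) (0, v) =
      ∑ a, (∑ b, A a b * h b) * ∑ c, v c * (dz c.succ (u a) (cp t θ h)).re := by
    refine Finset.sum_congr rfl fun a _ => ?_
    rw [rr_fderiv (hs.ufn a) hs.δ_pos hs.s_pos, zero_mul, zero_add]
  have h2 : ∑ a, Qs A q h (t, θ) a * fderiv ℝ (Xs u h) (t, θ) (0, v) a =
      ∑ a, (∑ b, A a b * h b) * v a + ∑ a, rr (q a) h (t, θ) * v a +
        ∑ a, (∑ b, A a b * h b) * (∑ c, v c * (dz c.succ (u a) (cp t θ h)).re) +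
          ∑ a, rr (q a) h (t, θ) * (∑ c, v c * (dz c.succ (u a) (cp t θ h)).re) := by
    rw [← Finset.sum_add_distrib, ← Finset.sum_add_distrib, ← Finset.sum_add_distrib]
    refine Finset.sum_congr rfl fun a _ => ?_
    rw [Xs_fdv hs, rg_Qs]
    ring
  have h3 : ∑ a, cs A B R u q h a * v a = ∑ a, (∑ b, A a b * h b) * v a +
      ∑ a, v a * (gg A B R u q a (cp t θ h)).re := by
    rw [← Finset.sum_add_distrib]
    refine Finset.sum_congr rfl fun a _ => ?_
    have h4 : gg A B R u q a (cp 0 0 h) = gg A B R u q a (cp t θ h) :=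
      gg_Zi A B R u q a _ _ _
    change (∑ b, A a b * h b + (gg A B R u q a (cp 0 0 h)).re) * v a = _
    rw [h4]
    ring
  have h5 : ∀ a, (HH A B R u q w a (cp t θ h)).re = (dz a.succ w (cp t θ h)).re +
      (gg A B R u q a (cp t θ h)).re - rr (q a) h (t, θ) -
        ∑ c, rr (q c) h (t, θ) * (dz a.succ (u c) (cp t θ h)).re := by
    intro a
    simp only [HH]
    rw [Complex.sub_re, Complex.sub_re, Complex.add_re, Complex.re_sum]
    congr 1
    refine Finset.sum_congr rfl fun c _ => ?_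
    rw [rr_im (hs.qfn c), Complex.re_ofReal_mul]
  have h6 : ∑ a, v a * (HH A B R u q w a (cp t θ h)).re =
      ∑ a, v a * (dz a.succ w (cp t θ h)).re + ∑ a, v a * (gg A B R u q a (cp t θ h)).re -
        ∑ a, rr (q a) h (t, θ) * v a -
          ∑ a, v a * ∑ c, rr (q c) h (t, θ) * (dz a.succ (u c) (cp t θ h)).re := by
    rw [← Finset.sum_add_distrib, ← Finset.sum_sub_distrib, ← Finset.sum_sub_distrib]
    refine Finset.sum_congr rfl fun a _ => ?_
    rw [h5]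
    ring
  have h7 : ∑ a, rr (q a) h (t, θ) * (∑ c, v c * (dz c.succ (u a) (cp t θ h)).re) =
      ∑ a, v a * ∑ c, rr (q c) h (t, θ) * (dz a.succ (u c) (cp t θ h)).re := by
    simp only [Finset.mul_sum]
    rw [Finset.sum_comm]
    refine Finset.sum_congr rfl fun a _ => Finset.sum_congr rfl fun c _ => ?_
    ring
  rw [h1, h2, h3, h6, h7]
  ring

theorem leaf_act (hc : Ctx A B M σ R) (hs : St A B M σ R δ s b ε u q) (hw : Fn δ s w)
    (h : Vec n) (t : ℝ) (θ : Vec n) :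
    ⟪Qs A q h (t, θ), fderiv ℝ (Xs u h) (t, θ) (1, h)⟫ -
      Hr B R (Xs u h (t, θ)) (Qs A q h (t, θ)) t -
      (Ls A B R u q h + fderiv ℝ (Ws A u w h) (t, θ) (1, h)) =
        -(ZZ A B R u q w (cp t θ h)).re := by
  rw [rg_inner, Ws_fd hs hw, rr_flow hw hs.δ_pos hs.s_pos]
  have h1 : ∑ a, (∑ b, A a b * h b) * fderiv ℝ (rr (u a) h) (t, θ) (1, h) =
      ∑ a, (∑ b, A a b * h b) * (DD (u a) (cp t θ h)).re := by
    refine Finset.sum_congr rfl fun a _ => ?_
    rw [rr_flow (hs.ufn a) hs.δ_pos hs.s_pos]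
  have h2 : ∑ a, Qs A q h (t, θ) a * fderiv ℝ (Xs u h) (t, θ) (1, h) a =
      ∑ a, ∑ b, A a b * h a * h b + ∑ a, h a * rr (q a) h (t, θ) +
        ∑ a, (∑ b, A a b * h b) * (DD (u a) (cp t θ h)).re +
          ∑ a, rr (q a) h (t, θ) * (DD (u a) (cp t θ h)).re := by
    rw [← Finset.sum_add_distrib, ← Finset.sum_add_distrib, ← Finset.sum_add_distrib]
    refine Finset.sum_congr rfl fun a _ => ?_
    have h3 : ∑ b, A a b * h a * h b = (∑ b, A a b * h b) * h a := by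
      rw [Finset.sum_mul]
      exact Finset.sum_congr rfl fun b _ => by ring
    rw [Xs_fdh hs, rg_Qs, h3]
    ring
  have h3 : Hr B R (Xs u h (t, θ)) (Qs A q h (t, θ)) t =
      (∑ a, ∑ b, A a b * h a * h b + 2 * ∑ a, h a * rr (q a) h (t, θ) +
        ∑ a, ∑ b, B a b * rr (q a) h (t, θ) * rr (q b) h (t, θ)) / 2 +
          (R (Ps A u q (cp t θ h))).re := by
    rw [← rg_quad hc h fun a => rr (q a) h (t, θ), cp_Ps hs]
    rfl
  have h4 : avg (Lm A B R u q) (cp 0 0 h) = avg (Lm A B R u q) (cp t θ h) := avg_Zi _ _ _ _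
  have h5 : (Lm A B R u q (cp t θ h)).re =
      ∑ a, rr (q a) h (t, θ) * (DD (u a) (cp t θ h)).re -
        (∑ a, ∑ b, B a b * rr (q a) h (t, θ) * rr (q b) h (t, θ)) / 2 -
          (R (Ps A u q (cp t θ h))).re := by
    simp only [Lm]
    have h6 : ∑ a, ∑ b, (B a b : ℂ) * q a (cp t θ h) * q b (cp t θ h) =
        ((∑ a, ∑ b, B a b * rr (q a) h (t, θ) * rr (q b) h (t, θ) : ℝ) : ℂ) := by
      push_cast
      refine Finset.sum_congr rfl fun a _ => Finset.sum_congr rfl fun b _ => ?_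
      rw [rr_im (hs.qfn a), rr_im (hs.qfn b)]
    have h7 : (∑ a, q a (cp t θ h) * DD (u a) (cp t θ h)).re =
        ∑ a, rr (q a) h (t, θ) * (DD (u a) (cp t θ h)).re := by
      rw [Complex.re_sum]
      refine Finset.sum_congr rfl fun a _ => ?_
      rw [rr_im (hs.qfn a), Complex.re_ofReal_mul]
    rw [Complex.sub_re, Complex.sub_re, h6, h7]
    congr 2
    rw [← Complex.ofReal_ofNat, ← Complex.ofReal_div, Complex.ofReal_re]
  simp only [ZZ, Ls]
  rw [h1, h2, h3, h4, Complex.add_re, Complex.sub_re, h5]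
  ring

end Pool.Agent.LRig
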