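import Pool.Agent.LRig.RA
import Pool.Agent.LRig.RG
import Pool.Agent.LRig.RC
import Pool.Agent.LRig.RD

/-!
# LR (MP_74f563_an, all n), file RE: the leaf of a state at a resonant frequency

PROOF.  `F = Lm`, `y₀ = cp 0 0 h`, `w` from `exists_fam` (in `Fn δ' s'`, `s' = s/(n+1)`; restrict
the
state to `(δ, s')` by `St.mono`), and `w' = w + G`, `G y = ∑ c_k ek k y`, the sum over the
`k ∈ kR n K` which
are not integer multiples of `k₀`, `c_k = cf k F (pk k y₀)/(2πi dv k y₀)`,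
`|c_k| ≤ ε e^{-2πδ nk k}/(2π d)` (`res_bound` at `pk k y₀`, where `dv k` vanishes; hypothesis `hd`).
`c_{-k} = conj c_k` (`cf_conj`, `pk_cj`, `dv_neg`, `dv k y₀` is real), so `G` is in `Fn δ' s'` for
all
`δ', s'`.  The leaf: `X = Xs u h`, `Q = Qs A q h`, `W = Ws A u w' h`, `c = cs ..`, `Λ = Ls ..`;
file RG gives
all identities.
`e1`: the norm of `leaf_e1` is at most `n ε ≤ κ`, `κ = C N^p ε/d`.
`graph`: `HH w' a = HH w a + dz a.succ G = HH w a + ∑ c_k 2πi k_{a+1} ek k`; `‖HH w a‖ ≤ C N^p ε`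
(`exists_fam`), `∑ |c_k| 2π |k_{a+1}| ≤ (ε/d) ∑ nk k e^{-2πδ nk k} ≤ C N^p ε/d`
(`x e^{-πδx} ≤ 1/(πδ)`, and `sum_exp` with `r = δ/2`); `|∑ v a r_a| ≤ n max|r_a| ‖v‖`.
`act`: by `leaf_act` it is enough that `‖ZZ w' + Rb (lev)‖ ≤ κ²` at `y = cp t θ h`.  By the
identity of
`exists_fam` and `ek_DD` (`∑ c_k DD (ek k) = ∑ cf k F (pk k y₀) ek k`; `dv k`, `pk k` depend only on
`h`, and `cf` does not depend on `z`: `cf_Zi`):
`ZZ w' = -∑_{l ∈ mK K k₀} cf (l k₀) F y₀ ek (l k₀) y - tail` (`pk (l k₀) y = y` since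
`dv (l k₀) y = 0`:
`pk_of_dv`; the multiples of `k₀` in `kR n K` are the `l • k₀`, `l ∈ mK K k₀`, because
`|l| ≤ nk (l • k₀)`), and `ek (l k₀) (cp t θ h) = e^{2πi l lev}` (`lev_kz`), so the sum is
`Rb (lev)`
(`Rbs_sum`).  The tail is bounded by `norm_tail` with `r = 3δ/4`, `c = 2` (`Lm_bd`):
`2 e^{-π (3δ/4) K} (8/(3δ))^{n+1} ≤ 2 (3N)^{n+1} (e^{-π(δ/2)K})^{3/2} ≤ 2 (3N)^{n+1} ε³ ≤ κ²`.
`Rb_cont`, `Rb_per`: file RD.  `res`: `dv_cp`.  `j_ne`: `Nz_iff`.
-/

set_option autoImplicit false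

namespace Pool.Agent.LRig

open Complex Set MeasureTheory Pool.Agent.MechAlpha

private theorem re_nk_neg {n : ℕ} (k : Fin (n + 1) → ℤ) : nk (-k) = nk k := by
  simp [nk]

private theorem re_Nz_neg {n : ℕ} {k : Fin (n + 1) → ℤ} (h : Nz k) : Nz (-k) := by
  obtain ⟨a, ha⟩ := h
  exact ⟨a, by simpa using ha⟩

private theorem re_kz_smul {n : ℕ} (l : ℤ) (k : Fin (n + 1) → ℤ) (z : Fin (n + 1) → ℂ) :
    kz (l • k) z = l * kz k z := by
  unfold kz
  rw [Finset.mul_sum]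
  refine Finset.sum_congr rfl fun i _ => ?_
  simp
  ring

private theorem re_nk_smul {n : ℕ} (l : ℤ) (k : Fin (n + 1) → ℤ) :
    nk (l • k) = l.natAbs * nk k := by
  unfold nk
  rw [Finset.mul_sum]
  refine Finset.sum_congr rfl fun i _ => ?_
  simp [Int.natAbs_mul]

private theorem re_nk_pos {n : ℕ} {k : Fin (n + 1) → ℤ} (h : Nz k) : 1 ≤ nk k := by
  obtain ⟨a, ha⟩ := h
  have h1 : (k a.succ).natAbs ≤ nk k := by
    unfold nk
    exact Finset.single_le_sum (f := fun i => (k i).natAbs) (fun i _ => Nat.zero_le _)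
      (Finset.mem_univ a.succ)
  have h2 : 0 < (k a.succ).natAbs := Int.natAbs_pos.2 ha
  omega

private theorem re_natAbs_le {n : ℕ} (k : Fin (n + 1) → ℤ) (i : Fin (n + 1)) :
    (k i).natAbs ≤ nk k := by
  unfold nk
  exact Finset.single_le_sum (f := fun i => (k i).natAbs) (fun i _ => Nat.zero_le _)
    (Finset.mem_univ i)

open Classical in
/-- the resonances that are not multiples of `k₀` -/
private noncomputable def reS (n K : ℕ) (k₀ : Fin (n + 1) → ℤ) : Finset (Fin (n + 1) → ℤ) :=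
  (kR n K).filter fun k => ∀ l : ℤ, k ≠ l • k₀

private theorem mem_reS {n K : ℕ} {k₀ k : Fin (n + 1) → ℤ} :
    k ∈ reS n K k₀ ↔ (nk k ≤ K ∧ Nz k) ∧ ∀ l : ℤ, k ≠ l • k₀ := by
  simp only [reS, Finset.mem_filter, mem_kR]

/-- the coefficients of the correction -/
private noncomputable def reC {n : ℕ} (F : CE n → ℂ) (y₀ : CE n) (k : Fin (n + 1) → ℤ) : ℂ :=
  cf k F (pk k y₀) / (2 * Real.pi * I * dv k y₀)

/-- the correction -/
private noncomputable def reG {n : ℕ} (F : CE n → ℂ) (y₀ : CE n)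
    (S : Finset (Fin (n + 1) → ℤ)) : CE n → ℂ :=
  fun y => ∑ k ∈ S, reC F y₀ k * ek k y

private theorem neg_mem_reS {n K : ℕ} {k₀ k : Fin (n + 1) → ℤ} (h : k ∈ reS n K k₀) :
    -k ∈ reS n K k₀ := by
  rw [mem_reS] at h ⊢
  refine ⟨⟨by rw [re_nk_neg]; exact h.1.1, re_Nz_neg h.1.2⟩, fun l hl => ?_⟩
  refine h.2 (-l) ?_
  rw [neg_smul, ← hl, neg_neg]

private theorem reC_conj {n : ℕ} {δ s : ℝ} {F : CE n → ℂ} (hF : Fn δ s F) {y₀ : CE n}
    (h0 : cj y₀ = y₀) (k : Fin (n + 1) → ℤ) :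
    reC F y₀ (-k) = (starRingEnd ℂ) (reC F y₀ k) := by
  unfold reC
  have e1 : pk (-k) y₀ = cj (pk k y₀) := by
    conv_lhs => rw [← h0]
    exact pk_cj k y₀
  have e2 : (starRingEnd ℂ) (dv k y₀) = dv k y₀ := by
    rw [← dv_cj, h0]
  rw [e1, cf_conj hF, dv_neg, map_div₀, map_mul, map_mul, map_mul, Complex.conj_I,
    Complex.conj_ofReal, e2, Complex.conj_ofNat]
  congr 1
  ring

private theorem reG_fn {n K : ℕ} {k₀ : Fin (n + 1) → ℤ} {δ s : ℝ} {F : CE n → ℂ}
    (hF : Fn δ s F) {y₀ : CE n} (h0 : cj y₀ = y₀) (δ' s' : ℝ) :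
    Fn δ' s' (reG F y₀ (reS n K k₀)) := by
  refine ⟨?_, ?_, ?_⟩
  · unfold reG
    refine Differentiable.differentiableOn ?_
    exact Differentiable.fun_sum fun k _ => (ek_diff k).const_mul _
  · intro i y
    unfold reG
    refine Finset.sum_congr rfl fun k _ => ?_
    rw [ek_per]
  · intro y
    unfold reG
    rw [map_sum]
    refine Finset.sum_nbij' (fun k => -k) (fun k => -k) (fun k hk => neg_mem_reS hk)
      (fun k hk => neg_mem_reS hk) (fun k _ => neg_neg k) (fun k _ => neg_neg k) fun k _ => ?_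
    have e1 := reC_conj hF h0 (-k)
    have e2 := ek_conj (y := y) (-k)
    rw [neg_neg] at e1 e2
    rw [map_mul, ← e1, ← e2]

private theorem reG_dz {n : ℕ} {F : CE n → ℂ} {y₀ y : CE n} (S : Finset (Fin (n + 1) → ℤ))
    (i : Fin (n + 1)) :
    dz i (reG F y₀ S) y = ∑ k ∈ S, reC F y₀ k * (2 * Real.pi * I * k i * ek k y) := by
  unfold reG
  rw [dz_sum i fun k _ => ((ek_diff k) y).const_mul _]
  refine Finset.sum_congr rfl fun k _ => ?_
  rw [dz_cmul, ek_dz]

private theorem reG_DD {n : ℕ} {F : CE n → ℂ} {y₀ y : CE n} (S : Finset (Fin (n + 1) → ℤ))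
    (hd : ∀ k ∈ S, dv k y₀ ≠ 0) (hy : y.2 = y₀.2) :
    DD (reG F y₀ S) y = ∑ k ∈ S, cf k F (pk k y₀) * ek k y := by
  unfold reG
  rw [DD_sum fun k _ => ((ek_diff k) y).const_mul _]
  refine Finset.sum_congr rfl fun k hk => ?_
  rw [DD_cmul, ek_DD]
  have e : dv k y = dv k y₀ := by
    unfold dv
    rw [hy]
  have hp : (2 * (Real.pi : ℂ) * I) ≠ 0 := by
    have := Real.pi_ne_zero
    simp [this]
  unfold reC
  rw [e]
  have h1 := hd k hk
  field_simp

private theorem re_ek_real {n : ℕ} (k : Fin (n + 1) → ℤ) (t : ℝ) (θ h : Vec n) :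
    ‖ek k (cp t θ h)‖ ≤ 1 := by
  have := ek_norm (y := cp t θ h) (δ := 0) k fun i => by simp [cp, rp]
  simpa using this

/-- the sum of the derivatives of the correction -/
private theorem re_sum {n : ℕ} {δ N : ℝ} (S : Finset (Fin (n + 1) → ℤ)) (h0 : 0 < δ)
    (h1 : δ ≤ 1) (hN : 1 / δ ≤ N) :
    ∑ k ∈ S, (nk k : ℝ) * Real.exp (-(2 * Real.pi * δ * nk k)) ≤ 2 ^ (n + 1) * N ^ (n + 2) := by
  have hp : 0 < Real.pi * δ := mul_pos Real.pi_pos h0
  have hN0 : 0 < N := lt_of_lt_of_le (by positivity) hN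
  obtain ⟨hs1, hs2⟩ := sum_exp (n := n) (r := δ / 2) (by positivity) (by linarith)
  have key : ∀ k : Fin (n + 1) → ℤ, (nk k : ℝ) * Real.exp (-(2 * Real.pi * δ * nk k)) ≤
      N * Real.exp (-(2 * Real.pi * (δ / 2) * nk k)) := by
    intro k
    have e : -(2 * Real.pi * δ * nk k) =
        -(Real.pi * δ * nk k) + -(2 * Real.pi * (δ / 2) * nk k) := by ring
    rw [e, Real.exp_add, ← mul_assoc]
    refine mul_le_mul_of_nonneg_right ?_ (Real.exp_nonneg _)
    have h2 : Real.pi * δ * nk k ≤ Real.exp (Real.pi * δ * nk k) := by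
      have := Real.add_one_le_exp (Real.pi * δ * nk k)
      linarith
    have h3 : Real.pi * δ * nk k * Real.exp (-(Real.pi * δ * nk k)) ≤ 1 := by
      rw [Real.exp_neg, ← div_eq_mul_inv, div_le_one (Real.exp_pos _)]
      exact h2
    have h4 : δ * (nk k * Real.exp (-(Real.pi * δ * nk k))) ≤ 1 := by
      have h5 : 0 ≤ δ * (nk k * Real.exp (-(Real.pi * δ * nk k))) := by positivity
      have h6 := Real.pi_gt_three
      nlinarith
    calc (nk k : ℝ) * Real.exp (-(Real.pi * δ * nk k))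
        ≤ 1 / δ := by
          rw [le_div_iff₀ h0]
          linarith
      _ ≤ N := hN
  calc ∑ k ∈ S, (nk k : ℝ) * Real.exp (-(2 * Real.pi * δ * nk k))
      ≤ ∑ k ∈ S, N * Real.exp (-(2 * Real.pi * (δ / 2) * nk k)) :=
        Finset.sum_le_sum fun k _ => key k
    _ = N * ∑ k ∈ S, Real.exp (-(2 * Real.pi * (δ / 2) * nk k)) := by rw [Finset.mul_sum]
    _ ≤ N * (1 / (δ / 2)) ^ (n + 1) := by
        refine mul_le_mul_of_nonneg_left (le_trans ?_ hs2) hN0.le
        exact hs1.sum_le_tsum S fun k _ => Real.exp_nonneg _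
    _ ≤ N * (2 * N) ^ (n + 1) := by
        refine mul_le_mul_of_nonneg_left ?_ hN0.le
        refine pow_le_pow_left₀ (by positivity) ?_ _
        have : 1 / (δ / 2) = 2 * (1 / δ) := by field_simp
        rw [this]
        linarith
    _ = 2 ^ (n + 1) * N ^ (n + 2) := by ring

private theorem re_toLp {n : ℕ} {c : ℝ} (f : Fin n → ℝ) (hc : 0 ≤ c) (h : ∀ a, |f a| ≤ c) :
    ‖(WithLp.toLp 2 f : Vec n)‖ ≤ n * c := by
  rw [EuclideanSpace.norm_eq]
  have h1 : ∑ a, ‖(WithLp.toLp 2 f : Vec n) a‖ ^ 2 ≤ (n * c) ^ 2 := by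
    calc ∑ a, ‖(WithLp.toLp 2 f : Vec n) a‖ ^ 2 ≤ ∑ _a : Fin n, c ^ 2 := by
          refine Finset.sum_le_sum fun a _ => ?_
          exact pow_le_pow_left₀ (norm_nonneg _) (by simpa using h a) 2
      _ = n * c ^ 2 := by simp
      _ ≤ (n * c) ^ 2 := by
          rw [mul_pow]
          refine mul_le_mul_of_nonneg_right ?_ (sq_nonneg c)
          rcases Nat.eq_zero_or_pos n with h0 | h0
          · subst h0
            simp
          · have : (1 : ℝ) ≤ n := by exact_mod_cast h0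
            nlinarith
  have h2 : 0 ≤ n * c := by positivity
  calc Real.sqrt (∑ a, ‖(WithLp.toLp 2 f : Vec n) a‖ ^ 2) ≤ Real.sqrt ((n * c) ^ 2) :=
        Real.sqrt_le_sqrt h1
    _ = n * c := Real.sqrt_sq h2

private theorem re_dot {n : ℕ} {c : ℝ} (f : Fin n → ℝ) (v : Vec n) (h : ∀ a, |f a| ≤ c) :
    |∑ a, v a * f a| ≤ n * c * ‖v‖ := by
  calc |∑ a, v a * f a| ≤ ∑ a, |v a * f a| := Finset.abs_sum_le_sum_abs _ _
    _ ≤ ∑ _a : Fin n, ‖v‖ * c := by
        refine Finset.sum_le_sum fun a _ => ?_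
        rw [abs_mul]
        refine mul_le_mul ?_ (h a) (abs_nonneg _) (norm_nonneg _)
        exact PiLp.norm_apply_le v a
    _ = n * c * ‖v‖ := by
        simp
        ring

private theorem reC_norm {n : ℕ} {F : CE n → ℂ} {y₀ : CE n} {k : Fin (n + 1) → ℤ} {e d : ℝ}
    (hd : 0 < d) (he : 0 ≤ e) (h1 : ‖cf k F (pk k y₀)‖ ≤ e) (h2 : d ≤ ‖dv k y₀‖) :
    ‖reC F y₀ k‖ * (2 * Real.pi) ≤ e / d := by
  have hp : 0 < 2 * Real.pi := by positivity
  have e1 : ‖(2 * Real.pi * I * dv k y₀ : ℂ)‖ = 2 * Real.pi * ‖dv k y₀‖ := by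
    rw [norm_mul, norm_mul, norm_mul, Complex.norm_I, Complex.norm_real, Complex.norm_ofNat,
      Real.norm_eq_abs, abs_of_pos Real.pi_pos, mul_one]
  unfold reC
  rw [norm_div, e1]
  have h3 : 0 < ‖dv k y₀‖ := lt_of_lt_of_le hd h2
  have e2 : ‖cf k F (pk k y₀)‖ / (2 * Real.pi * ‖dv k y₀‖) * (2 * Real.pi) =
      ‖cf k F (pk k y₀)‖ / ‖dv k y₀‖ := by
    field_simp
  rw [e2]
  exact div_le_div₀ he h1 hd h2

private theorem re_cf_pk {n : ℕ} {F : CE n → ℂ} {y y₀ : CE n} (k : Fin (n + 1) → ℤ)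
    (hy : y.2 = y₀.2) : cf k F (pk k y) = cf k F (pk k y₀) := by
  have e : dv k y = dv k y₀ := by
    unfold dv
    rw [hy]
  unfold pk
  rw [e, hy]
  exact cf_Zi k F _ _ _

private theorem re_split {n : ℕ} {F : CE n → ℂ} {K : ℕ} {k₀ : Fin (n + 1) → ℤ} {h : Vec n}
    (hnz : Nz k₀) (hdv : dv k₀ (cp 0 0 h) = 0) (t : ℝ) (θ : Vec n) :
    ∑ k ∈ kR n K, cf k F (pk k (cp t θ h)) * ek k (cp t θ h) =
      ∑ k ∈ reS n K k₀, cf k F (pk k (cp 0 0 h)) * ek k (cp t θ h) +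
        ∑ l ∈ mK K k₀, cf (l • k₀) F (cp 0 0 h) *
          exp (2 * Real.pi * I * l * (lev (ja k₀) (k₀ 0) θ t : ℝ)) := by
  classical
  rw [← Finset.sum_filter_add_sum_filter_not (kR n K) (fun k => ∀ l : ℤ, k ≠ l • k₀)]
  have e0 : (kR n K).filter (fun k => ∀ l : ℤ, k ≠ l • k₀) = reS n K k₀ := by
    ext k
    rw [mem_reS, Finset.mem_filter, mem_kR]
  rw [e0]
  refine congrArg₂ (fun a b => a + b) (Finset.sum_congr rfl fun k _ => ?_) ?_
  · rw [re_cf_pk (y := cp t θ h) (y₀ := cp 0 0 h) k rfl]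
  · symm
    refine Finset.sum_nbij (fun l => l • k₀) ?_ ?_ ?_ ?_
    · intro l hl
      unfold mK at hl
      rw [Finset.mem_filter, Finset.mem_Icc] at hl
      rw [Finset.mem_filter, mem_kR]
      refine ⟨⟨hl.2.2, ?_⟩, fun H => H l rfl⟩
      obtain ⟨a, ha⟩ := hnz
      exact ⟨a, by simpa using And.intro hl.2.1 ha⟩
    · intro l _ l' _ hll
      obtain ⟨a, ha⟩ := hnz
      have h1 := congrFun hll a.succ
      simp only [Pi.smul_apply, smul_eq_mul] at h1
      exact mul_right_cancel₀ ha h1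
    · intro k hk
      rw [Finset.mem_coe, Finset.mem_filter, mem_kR] at hk
      obtain ⟨⟨h1, h2⟩, h3⟩ := hk
      push Not at h3
      obtain ⟨l, hl⟩ := h3
      refine ⟨l, ?_, hl.symm⟩
      rw [Finset.mem_coe]
      unfold mK
      rw [Finset.mem_filter, Finset.mem_Icc]
      have h4 : l ≠ 0 := by
        rintro rfl
        obtain ⟨a, ha⟩ := h2
        exact ha (by simp [hl])
      have h5 : nk (l • k₀) ≤ K := by rw [← hl]; exact h1
      have h6 : l.natAbs ≤ K := by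
        rw [re_nk_smul] at h5
        have := re_nk_pos hnz
        nlinarith
      refine ⟨⟨?_, ?_⟩, h4, h5⟩ <;> omega
    · intro l _
      have h1 : dv (l • k₀) (cp 0 0 h) = 0 := by
        unfold dv at hdv ⊢
        rw [re_kz_smul, hdv, mul_zero]
      have h2 : ek (l • k₀) (cp t θ h) =
          exp (2 * Real.pi * I * l * (lev (ja k₀) (k₀ 0) θ t : ℝ)) := by
        unfold ek
        rw [re_kz_smul, lev_kz, mul_assoc _ (l : ℂ)]
      rw [re_cf_pk (y := cp t θ h) (y₀ := cp 0 0 h) (l • k₀) rfl, pk_of_dv h1, h2]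

theorem exists_leaf (n : ℕ) (M : ℝ) : ∃ C : ℝ, ∃ p : ℕ, 1 ≤ C ∧
    ∀ {A B : Matrix (Fin n) (Fin n) ℝ} {σ δ s b ε N d : ℝ} {R : CE n → ℂ}
      {u q : Fin n → CE n → ℂ} {K : ℕ} {k₀ : Fin (n + 1) → ℤ} {h : Vec n},
      Ctx A B M σ R → St A B M σ R δ s b ε u q → Big σ δ s N → 0 < ε →
      Real.exp (-(Real.pi * (δ / 2) * K)) ≤ ε ^ 2 → Prim (ja k₀) (k₀ 0) → Nz k₀ →
      nk k₀ ≤ K → dv k₀ (cp 0 0 h) = 0 → 0 < d → d ≤ 1 →
      (∀ k : Fin (n + 1) → ℤ, nk k ≤ K → (∀ l : ℤ, k ≠ l • k₀) →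
        d ≤ ‖dv k (cp 0 0 h)‖) →
      ∃ (c : Vec n) (Λ : ℝ) (X Q : ℝ × Vec n → Vec n) (W : ℝ × Vec n → ℝ),
        Leaf (Hr B R) (Hpr B R) h c Λ (ja k₀) (k₀ 0) (Rbs (Lm A B R u q) K k₀ h)
          (C * N ^ p * ε / d) X Q W := by
  obtain ⟨C₁, p₁, hC₁, H⟩ := exists_fam n M
  refine ⟨2 * 3 ^ (n + 1) + n * (C₁ + 2 ^ (n + 1)) + n, p₁ + n + 2, ?_, ?_⟩
  · have h1 : (1 : ℝ) ≤ 3 ^ (n + 1) := one_le_pow₀ (by norm_num)
    have h2 : (0 : ℝ) ≤ n * (C₁ + 2 ^ (n + 1)) := by positivity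
    have h3 : (0 : ℝ) ≤ n := Nat.cast_nonneg n
    linarith
  intro A B σ δ s b ε N d R u q K k₀ h hc hs hN hε hK hpr hnz hk0 hdv hd0 hd1 hd
  have hN1 := hN.one
  have hN0 : 0 < N := by linarith
  have hε1 : ε ≤ 1 := hs.ε_le
  have hδ := hs.δ_pos
  have hs0 := hs.s_pos
  have hδ1 : δ ≤ 1 / 8 := by
    have h1 := hs.δ_le
    have h2 := hc.σ_le
    linarith
  have hKε : Real.exp (-(Real.pi * (δ / 2) * K)) ≤ ε := hK.trans (by nlinarith)
  obtain ⟨w, hw, hwZ, hwH⟩ := H hc hs hN hKε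
  have hn1 : (0 : ℝ) < n + 1 := by positivity
  have hs'0 : 0 < s / (n + 1) := by positivity
  have hn0 : (0 : ℝ) ≤ n := Nat.cast_nonneg n
  have hs' : St A B M σ R δ (s / (n + 1)) b ε u q :=
    hs.mono hδ le_rfl hs'0 (div_le_self hs0.le (by linarith)) le_rfl hs.b_le le_rfl hs.ε_le
      (by linarith [hc.M_ge])
  set F := Lm A B R u q with hFdef
  have hF : Fn δ s F := Lm_fn hc hs
  have hFb : Bd δ s 2 F := Lm_bd hc hs
  set y₀ : CE n := cp 0 0 h with hy₀
  have hcj : cj y₀ = y₀ := cj_rp _ _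
  have hdS : ∀ k ∈ reS n K k₀, d ≤ ‖dv k y₀‖ := fun k hk =>
    hd k (mem_reS.1 hk).1.1 (mem_reS.1 hk).2
  have hdS0 : ∀ k ∈ reS n K k₀, dv k y₀ ≠ 0 := fun k hk h0 => by
    have h1 := hdS k hk
    rw [h0, norm_zero] at h1
    linarith
  set G : CE n → ℂ := reG F y₀ (reS n K k₀) with hGdef
  have hG : ∀ δ' s', Fn δ' s' G := reG_fn hF hcj
  have hw' : Fn δ (s / (n + 1)) (fun y => w y + G y) := (hw δ).add (hG _ _)
  have hC : ∀ k ∈ reS n K k₀, ‖reC F y₀ k‖ * (2 * Real.pi) ≤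
      ε * Real.exp (-(2 * Real.pi * δ * nk k)) / d := by
    intro k hk
    have hnz' := (mem_reS.1 hk).1.2
    refine reC_norm hd0 (by positivity) ?_ (hdS k hk)
    exact res_bound hc hs hnz' (pk_mem hnz' (cp_mem hδ hs'0 0 0 h)) (dv_pk hnz' y₀)
  -- the derivatives of the correction
  have hdz : ∀ (a : Fin n) (t : ℝ) (θ : Vec n), ‖dz a.succ G (cp t θ h)‖ ≤
      ε / d * (2 ^ (n + 1) * N ^ (n + 2)) := by
    intro a t θ
    rw [hGdef, reG_dz]
    calc ‖∑ k ∈ reS n K k₀, reC F y₀ k *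
          (2 * Real.pi * I * k a.succ * ek k (cp t θ h))‖
        ≤ ∑ k ∈ reS n K k₀, ‖reC F y₀ k *
          (2 * Real.pi * I * k a.succ * ek k (cp t θ h))‖ := norm_sum_le _ _
      _ ≤ ∑ k ∈ reS n K k₀, ε / d * ((nk k : ℝ) * Real.exp (-(2 * Real.pi * δ * nk k))) := by
          refine Finset.sum_le_sum fun k hk => ?_
          have h1 := hC k hk
          have h2 : ‖2 * Real.pi * I * (k a.succ : ℂ) * ek k (cp t θ h)‖ ≤
              2 * Real.pi * nk k := by
            rw [norm_mul, norm_mul, norm_mul, norm_mul, Complex.norm_I, Complex.norm_real,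
              Complex.norm_ofNat, Real.norm_eq_abs, abs_of_pos Real.pi_pos, mul_one,
              Complex.norm_intCast]
            have h3 : |((k a.succ : ℤ) : ℝ)| ≤ nk k := by
              have h4 := re_natAbs_le k a.succ
              have h5 : (((k a.succ).natAbs : ℕ) : ℝ) = |((k a.succ : ℤ) : ℝ)| := by
                rw [Nat.cast_natAbs]
                push_cast
                rfl
              rw [← h5]
              exact_mod_cast h4
            have h6 := re_ek_real k t θ h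
            calc 2 * Real.pi * |((k a.succ : ℤ) : ℝ)| * ‖ek k (cp t θ h)‖
                ≤ 2 * Real.pi * |((k a.succ : ℤ) : ℝ)| * 1 :=
                  mul_le_mul_of_nonneg_left h6 (by positivity)
              _ ≤ 2 * Real.pi * nk k := by
                  rw [mul_one]
                  exact mul_le_mul_of_nonneg_left h3 (by positivity)
          rw [norm_mul]
          calc ‖reC F y₀ k‖ * ‖2 * Real.pi * I * (k a.succ : ℂ) * ek k (cp t θ h)‖
              ≤ ‖reC F y₀ k‖ * (2 * Real.pi * nk k) :=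
                mul_le_mul_of_nonneg_left h2 (norm_nonneg _)
            _ = (‖reC F y₀ k‖ * (2 * Real.pi)) * nk k := by ring
            _ ≤ (ε * Real.exp (-(2 * Real.pi * δ * nk k)) / d) * nk k :=
                mul_le_mul_of_nonneg_right h1 (Nat.cast_nonneg _)
            _ = ε / d * ((nk k : ℝ) * Real.exp (-(2 * Real.pi * δ * nk k))) := by ring
      _ = ε / d * ∑ k ∈ reS n K k₀, (nk k : ℝ) * Real.exp (-(2 * Real.pi * δ * nk k)) := by
          rw [Finset.mul_sum]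
      _ ≤ ε / d * (2 ^ (n + 1) * N ^ (n + 2)) :=
          mul_le_mul_of_nonneg_left (re_sum _ hδ (by linarith) hN.hδ) (by positivity)
  -- constants
  have hεd : ε ≤ ε / d := by
    rw [le_div_iff₀ hd0]
    nlinarith
  have hεd0 : 0 < ε / d := by positivity
  have hp1 : (1 : ℝ) ≤ N ^ (p₁ + n + 2) := one_le_pow₀ hN1
  have hp2 : N ^ p₁ ≤ N ^ (p₁ + n + 2) := pow_le_pow_right₀ hN1 (by omega)
  have hp3 : N ^ (n + 2) ≤ N ^ (p₁ + n + 2) := pow_le_pow_right₀ hN1 (by omega)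
  have hp4 : N ^ (n + 1) ≤ N ^ (p₁ + n + 2) := pow_le_pow_right₀ hN1 (by omega)
  set P : ℝ := N ^ (p₁ + n + 2) with hPdef
  set CC : ℝ := 2 * 3 ^ (n + 1) + n * (C₁ + 2 ^ (n + 1)) + n with hCC
  have h30 : (0 : ℝ) < 3 ^ (n + 1) := by positivity
  have h20 : (0 : ℝ) < 2 ^ (n + 1) := by positivity
  have hT0 : (0 : ℝ) ≤ n * (C₁ + 2 ^ (n + 1)) := by positivity
  have hCC1 : (1 : ℝ) ≤ CC := by
    have h1 : (1 : ℝ) ≤ 3 ^ (n + 1) := one_le_pow₀ (by norm_num)
    linarith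
  have hκ : CC * P * ε / d = CC * (P * (ε / d)) := by ring
  have hPD : 0 ≤ P * (ε / d) := by positivity
  have hH : ∀ (a : Fin n) (t : ℝ) (θ : Vec n),
      |(HH A B R u q (fun y => w y + G y) a (cp t θ h)).re| ≤
        (C₁ + 2 ^ (n + 1)) * (P * (ε / d)) := by
    intro a t θ
    have hy1 : cp t θ h ∈ Om n δ (s / (n + 1)) := cp_mem hδ hs'0 t θ h
    have e1 : HH A B R u q (fun y => w y + G y) a (cp t θ h) =
        HH A B R u q w a (cp t θ h) + dz a.succ G (cp t θ h) := by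
      unfold HH
      rw [dz_add a.succ ((hw δ).dat hy1) ((hG δ (s / (n + 1))).dat hy1)]
      ring
    have h1 := hwH a (cp t θ h) (cp_mem (by positivity) (by positivity) t θ h)
    have h2 := hdz a t θ
    refine (Complex.abs_re_le_norm _).trans ?_
    rw [e1]
    refine (norm_add_le _ _).trans ?_
    have h3 : C₁ * N ^ p₁ * ε ≤ C₁ * (P * (ε / d)) := by
      rw [mul_assoc]
      refine mul_le_mul_of_nonneg_left ?_ (by linarith)
      exact mul_le_mul hp2 hεd hε.le (by positivity)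
    have h4 : ε / d * (2 ^ (n + 1) * N ^ (n + 2)) ≤ 2 ^ (n + 1) * (P * (ε / d)) := by
      have h5 : N ^ (n + 2) * (ε / d) ≤ P * (ε / d) := mul_le_mul_of_nonneg_right hp3 hεd0.le
      calc ε / d * (2 ^ (n + 1) * N ^ (n + 2)) = 2 ^ (n + 1) * (N ^ (n + 2) * (ε / d)) := by
            ring
        _ ≤ 2 ^ (n + 1) * (P * (ε / d)) := mul_le_mul_of_nonneg_left h5 h20.le
    calc ‖HH A B R u q w a (cp t θ h)‖ + ‖dz a.succ G (cp t θ h)‖
        ≤ C₁ * (P * (ε / d)) + 2 ^ (n + 1) * (P * (ε / d)) :=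
          add_le_add (h1.trans h3) (h2.trans h4)
      _ = (C₁ + 2 ^ (n + 1)) * (P * (ε / d)) := by ring
  -- the error of the generating function
  have hZ : ∀ (t : ℝ) (θ : Vec n),
      ZZ A B R u q (fun y => w y + G y) (cp t θ h) +
        ((Rbs F K k₀ h (lev (ja k₀) (k₀ 0) θ t) : ℝ) : ℂ) =
        -(F (cp t θ h) - ∑ k ∈ kB n K, cf k F (cp t θ h) * ek k (cp t θ h)) := by
    intro t θ
    have hy1 : cp t θ h ∈ Om n δ (s / (n + 1)) := cp_mem hδ hs'0 t θ h
    have e1 : DD (fun y => w y + G y) (cp t θ h) =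
        DD w (cp t θ h) + ∑ k ∈ reS n K k₀, cf k F (pk k y₀) * ek k (cp t θ h) := by
      rw [DD_add ((hw δ).dat hy1) ((hG δ (s / (n + 1))).dat hy1), hGdef,
        reG_DD (y := cp t θ h) (y₀ := y₀) (reS n K k₀) hdS0 rfl]
    have e2 := hwZ (cp t θ h) hy1
    rw [re_split hnz hdv t θ] at e2
    rw [← Rbs_sum hF]
    unfold ZZ
    rw [e1]
    linear_combination e2
  have htail : ∀ (t : ℝ) (θ : Vec n),
      ‖F (cp t θ h) - ∑ k ∈ kB n K, cf k F (cp t θ h) * ek k (cp t θ h)‖ ≤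
        2 * 3 ^ (n + 1) * (P * ε ^ 2) := by
    intro t θ
    have h1 := norm_tail (r := 3 * δ / 4) K hF hFb (by positivity) (by linarith) (by linarith)
      (cp_mem (δ := δ - 3 * δ / 4) (by linarith) hs0 t θ h)
    refine h1.trans ?_
    have h2 : Real.exp (-(Real.pi * (3 * δ / 4) * K)) ≤ ε ^ 2 := by
      refine le_trans (Real.exp_le_exp.2 ?_) hK
      have h3 : 0 ≤ Real.pi * δ * K := by positivity
      nlinarith
    have h4 : (2 / (3 * δ / 4)) ^ (n + 1) ≤ 3 ^ (n + 1) * P := by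
      calc (2 / (3 * δ / 4)) ^ (n + 1) ≤ (3 * N) ^ (n + 1) := by
            refine pow_le_pow_left₀ (by positivity) ?_ _
            have h5 : 2 / (3 * δ / 4) = 8 / 3 * (1 / δ) := by
              field_simp
              norm_num
            rw [h5]
            have h6 := hN.hδ
            have h7 : 0 < 1 / δ := by positivity
            linarith
        _ = 3 ^ (n + 1) * N ^ (n + 1) := by rw [mul_pow]
        _ ≤ 3 ^ (n + 1) * P := mul_le_mul_of_nonneg_left hp4 h30.le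
    calc 2 * Real.exp (-(Real.pi * (3 * δ / 4) * K)) * (2 / (3 * δ / 4)) ^ (n + 1)
        ≤ 2 * ε ^ 2 * (3 ^ (n + 1) * P) := by
          refine mul_le_mul ?_ h4 (by positivity) (by positivity)
          exact mul_le_mul_of_nonneg_left h2 (by norm_num)
      _ = 2 * 3 ^ (n + 1) * (P * ε ^ 2) := by ring
  refine ⟨cs A B R u q h, Ls A B R u q h, Xs u h, Qs A q h, Ws A u (fun y => w y + G y) h, ?_⟩
  exact
    { X_c1 := Xs_smooth hs h
      Q_cont := Qs_cont hs h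
      W_c1 := Ws_smooth hs' hw' h
      X_per := fun t θ => (Xs_per hs h t θ).1
      X_pert := fun t θ => (Xs_per hs h t θ).2
      W_per := fun t θ => (Ws_per hs' hw' h t θ).1
      W_pert := fun t θ => (Ws_per hs' hw' h t θ).2
      near := fun t θ v => Xs_near hc hs h t θ v
      e1 := fun t θ => by
        rw [leaf_e1 hc hs h t θ]
        have h1 := re_toLp (c := ε) (fun a => (E1 A B R u q a (cp t θ h)).re) hε.le fun a =>
          (Complex.abs_re_le_norm _).trans (hs.e1 a _ (cp_mem hδ hs0 t θ h))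
        refine h1.trans ?_
        rw [hκ]
        have h2 : ε ≤ P * (ε / d) := by nlinarith
        have h3 : (n : ℝ) ≤ CC := by linarith
        exact mul_le_mul h3 h2 hε.le (by linarith)
      graph := fun t θ v => by
        rw [leaf_graph hc hs' hw' h t θ v]
        refine (re_dot _ v fun a => hH a t θ).trans ?_
        rw [hκ]
        refine mul_le_mul_of_nonneg_right ?_ (norm_nonneg _)
        rw [← mul_assoc]
        refine mul_le_mul_of_nonneg_right ?_ hPD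
        linarith
      act := fun t θ => by
        have h1 := leaf_act hc hs' hw' h t θ
        have h2 : inner ℝ (Qs A q h (t, θ)) (fderiv ℝ (Xs u h) (t, θ) (1, h)) -
            Hr B R (Xs u h (t, θ)) (Qs A q h (t, θ)) t -
            (Ls A B R u q h + Rbs F K k₀ h (lev (ja k₀) (k₀ 0) θ t) +
              fderiv ℝ (Ws A u (fun y => w y + G y) h) (t, θ) (1, h)) =
            -(ZZ A B R u q (fun y => w y + G y) (cp t θ h) +
              ((Rbs F K k₀ h (lev (ja k₀) (k₀ 0) θ t) : ℝ) : ℂ)).re := by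
          rw [Complex.add_re, Complex.ofReal_re]
          linarith
        rw [h2, abs_neg]
        refine (Complex.abs_re_le_norm _).trans ?_
        rw [hZ, norm_neg]
        refine (htail t θ).trans ?_
        rw [hκ, mul_pow, mul_pow]
        have h3 : ε ^ 2 ≤ (ε / d) ^ 2 := pow_le_pow_left₀ hε.le hεd 2
        have h4 : P * ε ^ 2 ≤ P ^ 2 * (ε / d) ^ 2 := by
          refine mul_le_mul ?_ h3 (by positivity) (by positivity)
          nlinarith
        refine mul_le_mul ?_ h4 (by positivity) (by positivity)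
        nlinarith
      Rb_cont := Rbs_cont F K k₀ h
      Rb_per := Rbs_per F K k₀ h
      res := by
        have h1 := dv_cp k₀ 0 0 h
        rw [hdv] at h1
        exact_mod_cast h1.symm
      j_ne := (Nz_iff k₀).1 hnz
      prim := hpr }

end Pool.Agent.LRig
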