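import Pool.Agent.LRig.VDefs

/-!
# LR (MP_74f563_an, all n), file VB: the lattice lemma

PROOF of `lattice`.  Let `g = gcd` of the entries of `j` (`j ≠ 0`, so `0 < g ≤ |j_b| ≤ nj j` for an
entry
`j_b ≠ 0`; e.g. `Finset.univ.gcd`).  `{∑ j_a z_a} = g ℤ` (Bezout for a finite family:
`Finset.gcd_eq...`, `exists_sum_eq_gcd`, or by induction).  `m` and `g` are coprime (`Prim`: a
common
divisor of `m` and `g` divides all entries), so there is `r` with `m r ≡ ν (mod g)`; for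
`z₀ ≡ r (mod g)` the integer `ν - m z₀` is a multiple of `g`, so there is `w ∈ ℤⁿ` with
`j·w = ν - m z₀`.  Now correct `w` by a vector of the lattice `{z : j·z = 0}`: choose `b` with
`|j_b|`
maximal, `f_a = j_b e_a - j_a e_b` (`a ≠ b`), `j·f_a = 0`.  Let `x' = x + zv w` and
`y = x' - (⟪zv j, x'⟫/‖zv j‖²) zv j` be its component orthogonal to `j`.  Then
`y = ∑_{a ≠ b} (y_a / j_b) f_a` (check the coordinate `b`: `-∑_{a≠b} y_a j_a / j_b = y_b` as
`j·y = 0`).
Let `z = w - ∑_{a≠b} round (y_a / j_b) f_a`; the orthogonal component of `x + zv z` is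
`∑_{a≠b} (y_a/j_b - round (y_a/j_b)) f_a`, of norm at most
`∑_{a≠b} ½ ‖f_a‖ ≤ ∑_{a ≠ b} ½ (|j_b| + |j_a|)
≤ n · max|j| ≤ n · nj j`.
-/

set_option autoImplicit false

namespace Pool.Agent.LRig

open Set MeasureTheory Pool.Agent.MechAlpha
open scoped RealInnerProductSpace

variable {n : ℕ}

private theorem vb_app (m : Fin n → ℤ) (i : Fin n) : zv m i = (m i : ℝ) := rfl

private theorem vb_inner (x y : Vec n) : (⟪x, y⟫ : ℝ) = ∑ a, x a * y a := by
  rw [PiLp.inner_apply]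
  exact Finset.sum_congr rfl fun a _ => mul_comm _ _

/-- the euclidean norm is at most the sum of the absolute values -/
private theorem vb_norm_le (v : Vec n) : ‖v‖ ≤ ∑ a, |v a| := by
  have h1 : ∑ a, (v a) ^ 2 ≤ (∑ a, |v a|) ^ 2 := by
    have h2 := Finset.sum_sq_le_sq_sum_of_nonneg (s := Finset.univ) (f := fun a => |v a|)
      fun a _ => abs_nonneg _
    simpa only [sq_abs] using h2
  rw [EuclideanSpace.norm_eq]
  refine Real.sqrt_le_iff.2 ⟨Finset.sum_nonneg fun a _ => abs_nonneg _, ?_⟩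
  simpa only [Real.norm_eq_abs, sq_abs] using h1

private theorem vb_nj (j : Fin n → ℤ) : (nj j : ℝ) = ∑ a, |(j a : ℝ)| := by
  unfold nj
  rw [Nat.cast_sum]
  exact Finset.sum_congr rfl fun a _ => by rw [Nat.cast_natAbs, Int.cast_abs]

theorem inner_zv (j l : Fin n → ℤ) : (⟪zv j, zv l⟫ : ℝ) = ∑ a, (j a : ℝ) * l a := by
  exact vb_inner _ _

theorem one_le_norm_zv {j : Fin n → ℤ} (hj : j ≠ 0) : 1 ≤ ‖(zv j : Vec n)‖ := by
  obtain ⟨b, hb⟩ := Function.ne_iff.1 hj
  have h1 : (1 : ℝ) ≤ |(j b : ℝ)| := by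
    have h2 : (1 : ℤ) ≤ |j b| := Int.one_le_abs hb
    exact_mod_cast h2
  have h2 := PiLp.norm_apply_le (zv j : Vec n) b
  rw [vb_app, Real.norm_eq_abs] at h2
  exact h1.trans h2

theorem norm_zv_le (j : Fin n → ℤ) : ‖(zv j : Vec n)‖ ≤ nj j := by
  rw [vb_nj]
  exact vb_norm_le _

/-- Bezout -/
private theorem vb_bezout {j : Fin n → ℤ} {m : ℤ} (hj : j ≠ 0) (hp : Prim j m) :
    ∃ g : ℕ, 0 < g ∧ g ≤ nj j ∧ ∀ ν : ℤ, ∃ r : ℤ, ∀ z₀ : ℤ, (g : ℤ) ∣ z₀ - r →
      ∃ w : Fin n → ℤ, ∑ a, j a * w a = ν - m * z₀ := by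
  obtain ⟨g, hg⟩ := (IsPrincipalIdealRing.principal (Ideal.span (Set.range j))).principal
  change Ideal.span (Set.range j) = Ideal.span {g} at hg
  have h1 : ∀ a, g ∣ j a := by
    intro a
    have h2 : j a ∈ Ideal.span (Set.range j) := Ideal.subset_span ⟨a, rfl⟩
    rw [hg] at h2
    exact Ideal.mem_span_singleton.1 h2
  obtain ⟨c, hc⟩ : ∃ c : Fin n → ℤ, ∑ i, c i * j i = g := by
    have h2 : g ∈ Ideal.span (Set.range j) := by
      rw [hg]
      exact Ideal.mem_span_singleton_self g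
    exact Ideal.mem_span_range_iff_exists_fun.1 h2
  obtain ⟨b, hb⟩ := Function.ne_iff.1 hj
  have hb' : j b ≠ 0 := hb
  have hg0 : g ≠ 0 := by
    intro h0
    have h2 := h1 b
    rw [h0, zero_dvd_iff] at h2
    exact hb' h2
  have hcop : IsCoprime m g := by
    rw [Int.isCoprime_iff_gcd_eq_one]
    have h2 := hp (Int.gcd m g : ℤ) (Int.gcd_dvd_left m g) fun a =>
      (Int.gcd_dvd_right m g).trans (h1 a)
    rw [Int.isUnit_iff] at h2
    omega
  obtain ⟨p, q, hpq⟩ := hcop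
  refine ⟨g.natAbs, Int.natAbs_pos.2 hg0, ?_, fun ν => ⟨p * ν, fun z₀ hz => ?_⟩⟩
  · calc g.natAbs ≤ (j b).natAbs := Nat.le_of_dvd (Int.natAbs_pos.2 hb')
          (Int.natAbs_dvd_natAbs.2 (h1 b))
      _ ≤ nj j := Finset.single_le_sum (f := fun a => (j a).natAbs) (fun _ _ => Nat.zero_le _)
          (Finset.mem_univ b)
  · rw [Int.natAbs_dvd] at hz
    obtain ⟨k, hk⟩ := hz
    refine ⟨fun a => (q * ν - m * k) * c a, ?_⟩
    have h2 : ∑ a, j a * ((q * ν - m * k) * c a) = (q * ν - m * k) * ∑ a, c a * j a := by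
      rw [Finset.mul_sum]
      exact Finset.sum_congr rfl fun a _ => by ring
    rw [h2, hc]
    have h3 : z₀ = p * ν + g * k := by linarith
    rw [h3]
    have h4 : ν = (p * m + q * g) * ν := by rw [hpq, one_mul]
    linear_combination (-1 : ℤ) * h4

/-- the correction by a vector orthogonal to `j` -/
private theorem vb_corr {j : Fin n → ℤ} (hj : j ≠ 0) (w : Fin n → ℤ) (y : Vec n)
    (hy : (⟪zv j, y⟫ : ℝ) = 0) : ∃ z : Fin n → ℤ, ∑ a, j a * z a = ∑ a, j a * w a ∧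
      ‖y + (zv z - zv w)‖ ≤ n * nj j := by
  classical
  obtain ⟨b0, hb0⟩ := Function.ne_iff.1 hj
  obtain ⟨b, -, hb⟩ := Finset.exists_max_image Finset.univ (fun a => |j a|) ⟨b0, Finset.mem_univ _⟩
  have hjb : j b ≠ 0 := by
    intro h0
    have h1 := hb b0 (Finset.mem_univ _)
    rw [h0, abs_zero] at h1
    exact hb0 (abs_eq_zero.1 (le_antisymm h1 (abs_nonneg _)))
  have hjb' : (j b : ℝ) ≠ 0 := by exact_mod_cast hjb
  have hlt : ∀ a, |(j a : ℝ)| ≤ |(j b : ℝ)| := by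
    intro a
    have h1 := hb a (Finset.mem_univ _)
    exact_mod_cast h1
  set c : Fin n → ℤ := fun a => round (y a / j b) with hc
  set z : Fin n → ℤ := fun a => if a = b then w b + ∑ a' ∈ Finset.univ.erase b, c a' * j a'
    else w a - c a * j b with hz
  have hzb : z b = w b + ∑ a' ∈ Finset.univ.erase b, c a' * j a' := if_pos rfl
  have hza : ∀ a, a ≠ b → z a = w a - c a * j b := fun a ha => if_neg ha
  have hcr : ∀ a, |y a / j b - c a| ≤ 1 / 2 := fun a => abs_sub_round _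
  refine ⟨z, ?_, ?_⟩
  · rw [← Finset.add_sum_erase Finset.univ _ (Finset.mem_univ b),
      ← Finset.add_sum_erase Finset.univ (fun a => j a * w a) (Finset.mem_univ b), hzb]
    have h1 : ∑ a ∈ Finset.univ.erase b, j a * z a = ∑ a ∈ Finset.univ.erase b, j a * w a -
        j b * ∑ a ∈ Finset.univ.erase b, c a * j a := by
      rw [Finset.mul_sum, ← Finset.sum_sub_distrib]
      refine Finset.sum_congr rfl fun a ha => ?_
      rw [hza a (Finset.ne_of_mem_erase ha)]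
      ring
    rw [h1]
    ring
  · refine (vb_norm_le _).trans ?_
    rw [← Finset.add_sum_erase Finset.univ _ (Finset.mem_univ b)]
    have h1 : ∀ a ∈ Finset.univ.erase b, |(y + (zv z - zv w)) a| ≤ |(j b : ℝ)| / 2 := by
      intro a ha
      have h2 : (y + (zv z - zv w)) a = (j b : ℝ) * (y a / j b - c a) := by
        change y a + ((z a : ℝ) - (w a : ℝ)) = _
        rw [hza a (Finset.ne_of_mem_erase ha)]
        push_cast
        field_simp
        ring
      rw [h2, abs_mul]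
      have h3 := mul_le_mul_of_nonneg_left (hcr a) (abs_nonneg (j b : ℝ))
      linarith
    have hyb : y b = -∑ a ∈ Finset.univ.erase b, (j a : ℝ) * (y a / j b) := by
      rw [vb_inner, ← Finset.add_sum_erase Finset.univ _ (Finset.mem_univ b)] at hy
      have h2 : ∑ a ∈ Finset.univ.erase b, (j a : ℝ) * (y a / j b) =
          (∑ a ∈ Finset.univ.erase b, zv j a * y a) / j b := by
        rw [Finset.sum_div]
        refine Finset.sum_congr rfl fun a _ => ?_
        rw [vb_app]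
        ring
      rw [h2]
      rw [vb_app] at hy
      field_simp
      linarith
    have h2 : |(y + (zv z - zv w)) b| ≤ ∑ a ∈ Finset.univ.erase b, |(j a : ℝ)| / 2 := by
      have h3 : (y + (zv z - zv w)) b =
          -∑ a ∈ Finset.univ.erase b, (j a : ℝ) * (y a / j b - c a) := by
        change y b + ((z b : ℝ) - (w b : ℝ)) = _
        rw [hzb, hyb]
        push_cast
        have h4 : ∑ a ∈ Finset.univ.erase b, (j a : ℝ) * (y a / j b - c a) =
            ∑ a ∈ Finset.univ.erase b, (j a : ℝ) * (y a / j b) -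
              ∑ a ∈ Finset.univ.erase b, (c a : ℝ) * (j a : ℝ) := by
          rw [← Finset.sum_sub_distrib]
          exact Finset.sum_congr rfl fun a _ => by ring
        rw [h4]
        ring
      rw [h3, abs_neg]
      refine (Finset.abs_sum_le_sum_abs _ _).trans (Finset.sum_le_sum fun a _ => ?_)
      rw [abs_mul]
      have h5 := mul_le_mul_of_nonneg_left (hcr a) (abs_nonneg (j a : ℝ))
      linarith
    have h3 : ∑ a ∈ Finset.univ.erase b, |(y + (zv z - zv w)) a| ≤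
        (n - 1 : ℕ) * (|(j b : ℝ)| / 2) := by
      refine (Finset.sum_le_sum h1).trans ?_
      rw [Finset.sum_const, Finset.card_erase_of_mem (Finset.mem_univ b), Finset.card_univ,
        Fintype.card_fin, nsmul_eq_mul]
    have h4 : ∑ a ∈ Finset.univ.erase b, |(j a : ℝ)| / 2 ≤
        (n - 1 : ℕ) * (|(j b : ℝ)| / 2) := by
      refine (Finset.sum_le_sum (g := fun _ => |(j b : ℝ)| / 2) fun a _ => ?_).trans ?_
      · have := hlt a
        linarith
      · rw [Finset.sum_const, Finset.card_erase_of_mem (Finset.mem_univ b), Finset.card_univ,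
          Fintype.card_fin, nsmul_eq_mul]
    have h5 : |(j b : ℝ)| ≤ nj j := by
      rw [vb_nj]
      exact Finset.single_le_sum (f := fun a => |(j a : ℝ)|) (fun _ _ => abs_nonneg _)
        (Finset.mem_univ b)
    have h6 : ((n - 1 : ℕ) : ℝ) ≤ n := by exact_mod_cast Nat.sub_le n 1
    have h7 : ((n - 1 : ℕ) : ℝ) * |(j b : ℝ)| ≤ n * nj j :=
      mul_le_mul h6 h5 (abs_nonneg _) (Nat.cast_nonneg n)
    linarith

theorem lattice {j : Fin n → ℤ} {m : ℤ} (hj : j ≠ 0) (hp : Prim j m) : ∃ g : ℕ, 0 < g ∧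
    g ≤ nj j ∧ ∀ ν : ℤ, ∃ r : ℤ, ∀ z₀ : ℤ, (g : ℤ) ∣ z₀ - r → ∀ x : Vec n,
      ∃ z : Fin n → ℤ, (⟪zv j, zv z⟫ : ℝ) + m * z₀ = ν ∧
        ‖(x + zv z) - ((⟪zv j, x + zv z⟫ : ℝ) / ‖(zv j : Vec n)‖ ^ 2) • zv j‖ ≤
          n * nj j := by
  obtain ⟨g, hg0, hg1, hg⟩ := vb_bezout hj hp
  refine ⟨g, hg0, hg1, fun ν => ?_⟩
  obtain ⟨r, hr⟩ := hg ν
  refine ⟨r, fun z₀ hz₀ x => ?_⟩
  obtain ⟨w, hw⟩ := hr z₀ hz₀
  have hn : ‖(zv j : Vec n)‖ ^ 2 ≠ 0 := by
    have := one_le_norm_zv hj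
    positivity
  obtain ⟨z, hz1, hz2⟩ := vb_corr hj w
    ((x + zv w) - ((⟪zv j, x + zv w⟫ : ℝ) / ‖(zv j : Vec n)‖ ^ 2) • zv j) (by
      rw [inner_sub_right, inner_smul_right, real_inner_self_eq_norm_sq, div_mul_cancel₀ _ hn,
        sub_self])
  have hz3 : (⟪zv j, zv z⟫ : ℝ) = ⟪zv j, zv w⟫ := by
    rw [inner_zv, inner_zv]
    exact_mod_cast hz1
  refine ⟨z, ?_, ?_⟩
  · rw [hz3, inner_zv]
    have h1 : ((∑ a, j a * w a : ℤ) : ℝ) = ((ν - m * z₀ : ℤ) : ℝ) := by rw [hw]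
    push_cast at h1
    rw [h1]
    ring
  · have h1 : (⟪zv j, x + zv z⟫ : ℝ) = ⟪zv j, x + zv w⟫ := by
      rw [inner_add_right, inner_add_right, hz3]
    rw [h1]
    have h2 : (x + zv z) - ((⟪zv j, x + zv w⟫ : ℝ) / ‖(zv j : Vec n)‖ ^ 2) • zv j =
        ((x + zv w) - ((⟪zv j, x + zv w⟫ : ℝ) / ‖(zv j : Vec n)‖ ^ 2) • zv j) +
          (zv z - zv w) := by
      abel
    rw [h2]
    exact hz2

end Pool.Agent.LRig
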