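import Pool.Agent.LRig.VA
import Pool.Agent.LRig.VB

/-!
# LR (MP_74f563_an, all n), file VC: closing a curve; the lower bound of `f`

`cm` is the cost of closing a piece of a curve whose end levels differ by an integer plus at most
`1/N`.

PROOF of `close`.  Let `y₁ = lev (θ a) a`, `y₂ = lev (θ b) b`, `δ = y₁ + ν - y₂`, `|δ| ≤ 1/N`,
`J = ‖zv j‖ ≥ 1`,
`φ' = φ + κ₁ > 0` (`φ ≥ f y₁ ≥ ...`; assume `hφ`).
(1) cross move: from `(b, θ b)`, duration `τ₁ = √C/(N √φ')`, `v = (δ/(J² τ₁)) zv j` (`TCv.line`). 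
The level
goes linearly from `y₂` to `y₂ + δ = y₁ + ν`; `f ≤ φ` there (periodicity, `hf`), so the cost is at
most
`τ₁ φ' + C ‖δ zv j/J²‖²/τ₁ ≤ τ₁ φ' + C/(N² τ₁) = 2 √C √φ'/N`.
(2) level move: now we are at `(t₂, x₂)`, `t₂ = b + τ₁`, level `y₁ + ν`.  Let `g`, `r` be as in
`lattice` for
`ν`.  Let `τ* = n K √C/(2 √κ₁)` (`n ≥ 1` since `j ≠ 0`) and choose an integer `z₀ ≡ r (mod g)` with
`τ := a + z₀ - t₂ ∈ [τ*, τ* + g)`; `z₀ = T > 0`.  `lattice` with `x = θ a - x₂ - τ h` gives `l` with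
`⟪zv j, zv l⟫ + m T = ν` and `‖orthogonal part of (x + zv l)‖ ≤ n K`; its component along `zv j`
vanishes: `⟪zv j, x + zv l⟫ = ⟪zv j, θ a⟫ - ⟪zv j, x₂⟫ + m τ + ν - m T = y₁ + ν - lev x₂ t₂ = 0`
(`⟪zv j, h⟫ = -m`, `τ = a + T - t₂`).  So with `v = (x + zv l)/τ` the line from `x₂` with velocity
`h + v` and duration `τ` ends at `x₂ + τ h + x + zv l = θ a + zv l`; its level is constant,
`f = f (y₁ + ν) = f y₁ ≤ 3κ₁`, cost `≤ τ (4κ₁) + C (nK)²/τ ≤ 4κ₁ τ* + 4κ₁ g + C (nK)²/τ*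
= 2nK√(Cκ₁) + 4κ₁ g + 2nK√(Cκ₁) ≤ 8 n K √(C κ₁)` (`g ≤ K`, `κ₁ ≤ √κ₁`, `C ≥ 1`, `n ≥ 1`).
Glue the three pieces (`TCv.glue`, `cost_glue`).
PROOF of `f_ge`.  Suppose `f y + κ₁ < 0`.  Start at `t = 0`, `θ₀ = (y/J²) zv j` (level `y`) and
take the
level line with `ν = 0` and duration `T ≡ r (mod g)` large: closed, cost
`≤ T (f y + κ₁) + C (nK)²/T < 0` for large `T`, contradiction to `WD.zero`.
PROOF of `cut`.  `close` with `ν = 0`; the closed curve has cost `≥ 0` by `WD.zero`.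
-/

set_option autoImplicit false

namespace Pool.Agent.LRig

open Set MeasureTheory Pool.Agent.MechAlpha
open scoped RealInnerProductSpace ContDiff

variable {n : ℕ} {E : Vec n → Vec n → ℝ → ℝ} {j : Fin n → ℤ} {m : ℤ} {h : Vec n} {f : ℝ → ℝ}
  {κ₁ κ' C : ℝ}

/-- the cost of closing a curve -/
noncomputable def cm (n : ℕ) (κ₁ C K N φ : ℝ) : ℝ :=
  2 * √C * √(φ + κ₁) / N + 8 * n * K * √(C * κ₁)

private theorem vc_per (hW : WD E j m h f κ₁ κ' C) (x : ℝ) (k : ℤ) : f (x + k) = f x := by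
  have h1 : Function.Periodic f 1 := hW.f_per
  have h2 := h1.int_mul k x
  rwa [mul_one] at h2

/-- the level along a line -/
private theorem vc_lev (hW : WD E j m h f κ₁ κ' C) (x v : Vec n) (t₀ t : ℝ) :
    lev j m (x + (t - t₀) • (h + v)) t = lev j m x t₀ + (t - t₀) * ⟪zv j, v⟫ := by
  have h1 := hW.res
  unfold lev
  rw [inner_add_right, inner_smul_right, inner_add_right]
  have h2 : (⟪zv j, h⟫ : ℝ) = -m := by linarith
  rw [h2]
  ring

/-- the cost of a line -/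
private theorem vc_cost (hW : WD E j m h f κ₁ κ' C) (x v : Vec n) {t₀ t₁ r : ℝ} (ht : t₀ ≤ t₁)
    (hr : ∀ t ∈ Icc t₀ t₁, f (lev j m x t₀ + (t - t₀) * ⟪zv j, v⟫) ≤ r) :
    cost E (fun t => x + (t - t₀) • (h + v)) (fun _ => v) t₀ t₁ ≤
      (r + κ₁ + C * ‖v‖ ^ 2) * (t₁ - t₀) := by
  refine cost_le hW.E_cont (TCv.line x v ht) fun t htt => ?_
  have h1 := hW.up (x + (t - t₀) • (h + v)) v t
  rw [vc_lev hW] at h1
  have h2 := hr t htt
  linarith

/-- the move along a level -/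
private theorem vc_move (hW : WD E j m h f κ₁ κ' C) {K : ℝ} (hK : nj j ≤ K) (ν : ℤ)
    (x₀ x₂ : Vec n) {a t₂ s : ℝ} (hat : a ≤ t₂) (hs : 0 < s)
    (hlev : lev j m x₂ t₂ = lev j m x₀ a + ν) :
    ∃ (T : ℕ) (l : Fin n → ℤ) (v : Vec n), 0 < T ∧ t₂ + s ≤ a + T ∧ a + T ≤ t₂ + s + K ∧
      ⟪zv j, v⟫ = (0 : ℝ) ∧ x₂ + ((a + T) - t₂) • (h + v) = x₀ + zv l ∧
      (⟪zv j, zv l⟫ : ℝ) + m * T = ν ∧ ((a + T) - t₂) * ‖v‖ ≤ n * K := by
  obtain ⟨g, hg, hgK, hl⟩ := lattice hW.j_ne hW.prim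
  obtain ⟨r, hr⟩ := hl ν
  have hg' : (0 : ℝ) < g := by exact_mod_cast hg
  have hgK' : (g : ℝ) ≤ K := le_trans (by exact_mod_cast hgK) hK
  -- the integer z₀
  set k : ℤ := ⌈(t₂ + s - a - r) / g⌉ with hk
  have hk1 : (t₂ + s - a - r) / g ≤ k := Int.le_ceil _
  have hk2 : (k : ℝ) < (t₂ + s - a - r) / g + 1 := Int.ceil_lt_add_one _
  rw [div_le_iff₀ hg'] at hk1
  have hk3 : (k : ℝ) * g ≤ t₂ + s - a - r + g := by
    have h1 : (k : ℝ) - 1 < (t₂ + s - a - r) / g := by linarith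
    rw [lt_div_iff₀ hg'] at h1
    linarith
  have hz0 : (0 : ℝ) < ((r + k * g : ℤ) : ℝ) := by
    push_cast
    linarith
  have hz1 : (0 : ℤ) < r + k * g := by exact_mod_cast hz0
  obtain ⟨T, hT⟩ := Int.eq_ofNat_of_zero_le hz1.le
  have hTr : (T : ℝ) = r + k * g := by
    have h1 : ((r + k * g : ℤ) : ℝ) = ((T : ℤ) : ℝ) := by rw [hT]
    push_cast at h1
    exact h1.symm
  have hT0 : 0 < T := by
    rw [hT] at hz1
    exact_mod_cast hz1
  obtain ⟨l, hl1, hl2⟩ := hr (T : ℤ) (by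
    rw [← hT]
    exact ⟨k, by ring⟩) (x₀ - x₂ - ((a + T) - t₂) • h)
  have hl1' : (⟪zv j, zv l⟫ : ℝ) + m * T = ν := by
    rw [← hl1]
    push_cast
    ring
  set τ : ℝ := (a + T) - t₂ with hτ
  have hτs : s ≤ τ := by
    rw [hτ, hTr]
    linarith
  have hτ0 : 0 < τ := by linarith
  have hin : (⟪zv j, x₀ - x₂ - τ • h + zv l⟫ : ℝ) = 0 := by
    rw [inner_add_right, inner_sub_right, inner_sub_right, inner_smul_right]
    unfold lev at hlev
    have h1 := hW.res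
    have h2 : (⟪zv j, h⟫ : ℝ) = -m := by linarith
    rw [h2, hτ]
    linarith
  rw [hin, zero_div, zero_smul, sub_zero] at hl2
  refine ⟨T, l, τ⁻¹ • (x₀ - x₂ - τ • h + zv l), hT0, by rw [hTr]; linarith, by rw [hTr]; linarith,
    ?_, ?_, hl1', ?_⟩
  · rw [inner_smul_right, hin, mul_zero]
  · rw [smul_add, smul_smul, mul_inv_cancel₀ hτ0.ne', one_smul]
    abel
  · rw [norm_smul, norm_inv, Real.norm_eq_abs, abs_of_pos hτ0, ← mul_assoc,
      mul_inv_cancel₀ hτ0.ne', one_mul]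
    refine hl2.trans ?_
    exact mul_le_mul_of_nonneg_left hK (Nat.cast_nonneg n)

private theorem vc_n (hW : WD E j m h f κ₁ κ' C) : (1 : ℝ) ≤ n := by
  have h1 : n ≠ 0 := by
    rintro rfl
    exact hW.j_ne (Subsingleton.elim _ _)
  exact_mod_cast Nat.one_le_iff_ne_zero.2 h1

private theorem vc_K (hW : WD E j m h f κ₁ κ' C) {K : ℝ} (hK : nj j ≤ K) : 1 ≤ K := by
  obtain ⟨g, hg, hgK, -⟩ := lattice hW.j_ne hW.prim
  have h1 : 1 ≤ nj j := le_trans hg hgK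
  exact le_trans (by exact_mod_cast h1) hK

/-- the optimal duration -/
private theorem vc_opt {A B τ : ℝ} (hA : 0 < A) (hB : 0 < B) (hτ : τ = √B / √A) :
    A * τ = √A * √B ∧ B / τ = √A * √B := by
  have h1 : 0 < √A := Real.sqrt_pos.2 hA
  have h2 : 0 < √B := Real.sqrt_pos.2 hB
  have h3 := Real.mul_self_sqrt hA.le
  have h4 := Real.mul_self_sqrt hB.le
  constructor
  · rw [hτ]
    calc A * (√B / √A) = (√A * √A) * (√B / √A) := by rw [h3]
      _ = √A * √B := by field_simp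
  · rw [hτ]
    calc B / (√B / √A) = (√B * √B) / (√B / √A) := by rw [h4]
      _ = √A * √B := by field_simp

theorem close (hW : WD E j m h f κ₁ κ' C) {K N φ : ℝ} (hK : nj j ≤ K) (hN : 1 ≤ N)
    (hφ : 0 ≤ φ) {θ u : ℝ → Vec n} {a b : ℝ} (hθ : TCv h θ u a b) (ν : ℤ)
    (hf : ∀ x, |x - lev j m (θ a) a| ≤ 1 / N → f x ≤ φ)
    (hlo : f (lev j m (θ a) a) ≤ 3 * κ₁)
    (hν : |lev j m (θ b) b - lev j m (θ a) a - ν| ≤ 1 / N) :
    ∃ (θ' u' : ℝ → Vec n) (T : ℕ) (l : Fin n → ℤ), 0 < T ∧ TCv h θ' u' a (a + T) ∧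
      θ' a = θ a ∧ θ' (a + T) = θ' a + zv l ∧ (⟪zv j, zv l⟫ : ℝ) + m * T = ν ∧
      cost E θ' u' a (a + T) ≤ cost E θ u a b + cm n κ₁ C K N φ := by
  have hn := vc_n hW
  have hK1 := vc_K hW hK
  have hκ := hW.κ₁_pos
  have hC := hW.C_ge
  have hab : a ≤ b := hθ.le
  set y₁ := lev j m (θ a) a with hy₁
  set y₂ := lev j m (θ b) b with hy₂
  set δ := y₁ + ν - y₂ with hδ
  have hδN : |δ| ≤ 1 / N := by
    have h1 : δ = -(y₂ - y₁ - ν) := by rw [hδ]; ring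
    rw [h1, abs_neg]
    exact hν
  set J := ‖(zv j : Vec n)‖ with hJ
  have hJ1 : 1 ≤ J := one_le_norm_zv hW.j_ne
  have hN0 : 0 < N := by linarith
  have hφ' : 0 < φ + κ₁ := by linarith
  -- the cross move
  set τ₁ := √C / (N * √(φ + κ₁)) with hτ₁
  have hsφ : 0 < √(φ + κ₁) := Real.sqrt_pos.2 hφ'
  have hsC : 0 < √C := Real.sqrt_pos.2 (by linarith)
  have hτ₁0 : 0 < τ₁ := by positivity
  set v₁ : Vec n := (δ / (J ^ 2 * τ₁)) • zv j with hv₁
  have hiv₁ : (⟪zv j, v₁⟫ : ℝ) = δ / τ₁ := by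
    rw [hv₁, inner_smul_right, real_inner_self_eq_norm_sq, ← hJ]
    field_simp
  have hnv₁ : ‖v₁‖ ≤ 1 / (N * τ₁) := by
    rw [hv₁, norm_smul, ← hJ, Real.norm_eq_abs, abs_div,
      abs_of_pos (by positivity : 0 < J ^ 2 * τ₁)]
    have h1 : |δ| / (J ^ 2 * τ₁) * J = |δ| / (J * τ₁) := by field_simp
    rw [h1]
    calc |δ| / (J * τ₁) ≤ (1 / N) / (1 * τ₁) := by gcongr
      _ = 1 / (N * τ₁) := by field_simp
  have hc₁ : cost E (fun t => θ b + (t - b) • (h + v₁)) (fun _ => v₁) b (b + τ₁) ≤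
      2 * √C * √(φ + κ₁) / N := by
    refine (vc_cost hW (θ b) v₁ (by linarith) (r := φ) fun t ht => ?_).trans ?_
    · rw [hiv₁, ← hy₂]
      have h1 : y₂ + (t - b) * (δ / τ₁) = (y₂ + (t - b) * (δ / τ₁) - ν) + ν := by ring
      rw [h1, vc_per hW]
      apply hf
      have h2 : y₂ + (t - b) * (δ / τ₁) - ν - y₁ = -(δ * (1 - (t - b) / τ₁)) := by
        rw [hδ]
        ring
      rw [h2, abs_neg, abs_mul]
      have h3 : 0 ≤ (t - b) / τ₁ := div_nonneg (by linarith [ht.1]) hτ₁0.le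
      have h4 : (t - b) / τ₁ ≤ 1 := by
        rw [div_le_one hτ₁0]
        linarith [ht.2]
      have h5 : |1 - (t - b) / τ₁| ≤ 1 := by
        rw [abs_le]
        constructor <;> linarith
      calc |δ| * |1 - (t - b) / τ₁| ≤ |δ| * 1 := mul_le_mul_of_nonneg_left h5 (abs_nonneg _)
        _ ≤ 1 / N := by rw [mul_one]; exact hδN
    · have h1 : ‖v₁‖ ^ 2 ≤ (1 / (N * τ₁)) ^ 2 := pow_le_pow_left₀ (norm_nonneg _) hnv₁ 2
      have h2 : (φ + κ₁ + C * ‖v₁‖ ^ 2) * (b + τ₁ - b) ≤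
          (φ + κ₁) * τ₁ + C / N ^ 2 / τ₁ := by
        calc (φ + κ₁ + C * ‖v₁‖ ^ 2) * (b + τ₁ - b) ≤
            (φ + κ₁ + C * (1 / (N * τ₁)) ^ 2) * (b + τ₁ - b) := by
              have h3 : b + τ₁ - b = τ₁ := by ring
              rw [h3]
              gcongr
          _ = (φ + κ₁) * τ₁ + C / N ^ 2 / τ₁ := by
              field_simp
              ring
      have hsN : √(C / N ^ 2) = √C / N := by
        rw [Real.sqrt_div (by linarith), Real.sqrt_sq hN0.le]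
      obtain ⟨h4, h5⟩ := vc_opt (A := φ + κ₁) (B := C / N ^ 2) (τ := τ₁) hφ' (by positivity) (by
        rw [hsN, hτ₁]
        field_simp)
      rw [h4, h5, hsN] at h2
      refine h2.trans (le_of_eq ?_)
      ring
  -- the end of the cross move
  set t₂ := b + τ₁ with ht₂
  set x₂ : Vec n := θ b + (t₂ - b) • (h + v₁) with hx₂
  have hlev : lev j m x₂ t₂ = lev j m (θ a) a + ν := by
    rw [hx₂, vc_lev hW, hiv₁, ← hy₁, ← hy₂, hδ]
    have h1 : t₂ - b = τ₁ := by rw [ht₂]; ring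
    rw [h1]
    field_simp
    ring
  -- the level move
  have hCn : 0 < C * (n * K) ^ 2 := by positivity
  set s := √(C * (n * K) ^ 2) / √(4 * κ₁) with hsdef
  have hs0 : 0 < s := by positivity
  obtain ⟨T, l, v, hT, hT1, hT2, hv0, hend, hνl, hvn⟩ := vc_move hW hK ν (θ a) x₂ (a := a)
    (t₂ := t₂) (s := s) (by linarith) hs0 hlev
  set t₃ := a + (T : ℝ) with ht₃
  have hτ0 : 0 < t₃ - t₂ := by linarith
  have hc₂ : cost E (fun t => x₂ + (t - t₂) • (h + v)) (fun _ => v) t₂ t₃ ≤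
      8 * n * K * √(C * κ₁) := by
    refine (vc_cost hW x₂ v (by linarith) (r := 3 * κ₁) fun t ht => ?_).trans ?_
    · rw [hv0, mul_zero, add_zero, hlev, vc_per hW]
      exact hlo
    · have h1 : ‖v‖ ≤ n * K / (t₃ - t₂) := by
        rw [le_div_iff₀ hτ0]
        linarith
      have h2 : ‖v‖ ^ 2 ≤ (n * K / (t₃ - t₂)) ^ 2 := pow_le_pow_left₀ (norm_nonneg _) h1 2
      have h3 : (3 * κ₁ + κ₁ + C * ‖v‖ ^ 2) * (t₃ - t₂) ≤
          4 * κ₁ * (s + K) + C * (n * K) ^ 2 / s := by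
        calc (3 * κ₁ + κ₁ + C * ‖v‖ ^ 2) * (t₃ - t₂) ≤
            (3 * κ₁ + κ₁ + C * (n * K / (t₃ - t₂)) ^ 2) * (t₃ - t₂) := by gcongr
          _ = 4 * κ₁ * (t₃ - t₂) + C * (n * K) ^ 2 / (t₃ - t₂) := by
              field_simp
              ring
          _ ≤ 4 * κ₁ * (s + K) + C * (n * K) ^ 2 / s := by
              gcongr
              · linarith
              · linarith
      obtain ⟨h4, h5⟩ := vc_opt (A := 4 * κ₁) (B := C * (n * K) ^ 2) (τ := s) (by positivity)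
        hCn hsdef
      have hs4 : √(4 * κ₁) = 2 * √κ₁ := by
        rw [Real.sqrt_mul (by norm_num), show (4 : ℝ) = 2 ^ 2 by norm_num,
          Real.sqrt_sq (by norm_num)]
      have hsn : √(C * (n * K) ^ 2) = √C * (n * K) := by
        rw [Real.sqrt_mul (by linarith), Real.sqrt_sq (by positivity)]
      have hsm : √(C * κ₁) = √C * √κ₁ := Real.sqrt_mul (by linarith) _
      have hκs : κ₁ ≤ √C * √κ₁ := by
        have h6 : κ₁ ≤ √κ₁ := by
          rw [Real.le_sqrt hκ.le hκ.le]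
          have := hW.κ₁_le
          nlinarith
        have h7 : 1 ≤ √C := by
          rw [Real.one_le_sqrt]
          exact hC
        have h8 : 0 ≤ √κ₁ := Real.sqrt_nonneg _
        nlinarith
      rw [hs4, hsn] at h4 h5
      rw [hsm]
      have h6 : 4 * κ₁ * (s + K) + C * (n * K) ^ 2 / s =
          2 * (2 * √κ₁ * (√C * (n * K))) + 4 * κ₁ * K := by
        rw [mul_add, h4, h5]
        ring
      rw [h6] at h3
      refine h3.trans ?_
      have h9 : κ₁ * K ≤ (√C * √κ₁) * (n * K) := by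
        have h10 : K ≤ n * K := le_mul_of_one_le_left (by linarith) hn
        exact mul_le_mul hκs h10 (by linarith) (by positivity)
      nlinarith
  -- glue
  have hL1 : TCv h (fun t => θ b + (t - b) • (h + v₁)) (fun _ => v₁) b t₂ :=
    TCv.line (θ b) v₁ (by linarith)
  have hL2 : TCv h (fun t => x₂ + (t - t₂) • (h + v)) (fun _ => v) t₂ t₃ :=
    TCv.line x₂ v (by linarith)
  have hb1 : θ b = (fun t => θ b + (t - b) • (h + v₁)) b := by simp
  have hG1 := hθ.glue hL1 hb1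
  have hK1' := cost_glue hW.E_cont hθ hL1 hb1
  have hb2 : (fun t => if t ≤ b then θ t else (fun t => θ b + (t - b) • (h + v₁)) t) t₂ =
      (fun t => x₂ + (t - t₂) • (h + v)) t₂ := by
    have h1 : ¬ t₂ ≤ b := by linarith
    simp only [if_neg h1, sub_self, zero_smul, add_zero]
    exact hx₂.symm
  have hG2 := hG1.glue hL2 hb2
  have hK2 := cost_glue hW.E_cont hG1 hL2 hb2
  refine ⟨_, _, T, l, hT, hG2, ?_, ?_, hνl, ?_⟩
  · have h1 : a ≤ t₂ := by linarith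
    simp only [if_pos h1, if_pos hab]
  · have h1 : ¬ a + (T : ℝ) ≤ t₂ := by linarith
    have h2 : a ≤ t₂ := by linarith
    simp only [if_neg h1, if_pos h2, if_pos hab]
    exact hend
  · rw [hK2, hK1']
    unfold cm
    linarith

theorem f_ge (hW : WD E j m h f κ₁ κ' C) (y : ℝ) : -κ₁ ≤ f y := by
  by_contra hcon
  have hη : 0 < -(f y + κ₁) := by linarith
  set η := -(f y + κ₁) with hηdef
  have hn := vc_n hW
  have hK1 := vc_K hW (K := nj j) le_rfl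
  have hC := hW.C_ge
  set K : ℝ := (nj j : ℝ) with hKdef
  have hJ1 : 1 ≤ ‖(zv j : Vec n)‖ := one_le_norm_zv hW.j_ne
  set x₀ : Vec n := (y / ‖(zv j : Vec n)‖ ^ 2) • zv j with hx₀
  have hlx : lev j m x₀ 0 = y := by
    unfold lev
    rw [hx₀, inner_smul_right, real_inner_self_eq_norm_sq]
    field_simp
    ring
  have hCn : 0 < C * (n * K) ^ 2 := by positivity
  obtain ⟨T, l, v, hT, hT1, -, hv0, hend, hνl, hvn⟩ := vc_move hW (K := K) le_rfl 0 x₀ x₀ (a := 0)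
    (t₂ := 0) (s := C * (n * K) ^ 2 / η + 1) le_rfl (by positivity) (by simp)
  rw [zero_add, zero_add] at hT1
  rw [zero_add, sub_zero] at hend hvn
  have hTr : (0 : ℝ) < T := by exact_mod_cast hT
  have hline : TCv h (fun t => x₀ + (t - 0) • (h + v)) (fun _ => v) 0 (0 + T) :=
    TCv.line x₀ v (by linarith)
  have h1 := hW.zero _ _ 0 T l hT hline (by simpa using hend) (by rw [hνl]; simp)
  have h2 := vc_cost hW x₀ v (t₀ := 0) (t₁ := 0 + T) (r := f y) (by linarith) (fun t _ => by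
    rw [hv0, mul_zero, add_zero, hlx])
  have h3 : ‖v‖ ≤ n * K / T := by
    rw [le_div_iff₀ hTr]
    linarith
  have h4 : ‖v‖ ^ 2 ≤ (n * K / T) ^ 2 := pow_le_pow_left₀ (norm_nonneg _) h3 2
  have h5 : 0 ≤ (-η + C * (n * K / T) ^ 2) * T := by
    refine (h1.trans h2).trans ?_
    have h6 : (0 : ℝ) + T - 0 = T := by ring
    rw [h6]
    have h7 : f y + κ₁ = -η := by rw [hηdef]; ring
    rw [h7]
    gcongr
  have h6 : (-η + C * (n * K / T) ^ 2) * T = -(η * T) + C * (n * K) ^ 2 / T := by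
    field_simp
  rw [h6] at h5
  have h7 : η * T ≤ C * (n * K) ^ 2 / T := by linarith
  rw [le_div_iff₀ hTr] at h7
  have h8 : C * (n * K) ^ 2 + η ≤ η * T := by
    calc C * (n * K) ^ 2 + η = η * (C * (n * K) ^ 2 / η + 1) := by field_simp
      _ ≤ η * T := mul_le_mul_of_nonneg_left hT1 hη.le
  have h9 : (1 : ℝ) ≤ T := by exact_mod_cast hT
  nlinarith

/-- cutting out a piece -/
theorem cut (hW : WD E j m h f κ₁ κ' C) {K N φ : ℝ} (hK : nj j ≤ K) (hN : 1 ≤ N)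
    (hφ : 0 ≤ φ) (hf : ∀ x y, f y ≤ 3 * κ₁ → |x - y| ≤ 1 / N → f x ≤ φ)
    {θ u : ℝ → Vec n} {a b : ℝ} (hθ : TCv h θ u a b) (hlo : f (lev j m (θ a) a) ≤ 3 * κ₁)
    (hν : |lev j m (θ b) b - lev j m (θ a) a| ≤ 1 / N) :
    -cm n κ₁ C K N φ ≤ cost E θ u a b := by
  obtain ⟨θ', u', T, l, hT, hθ', h1, h2, h3, h4⟩ := close hW hK hN hφ hθ 0
    (fun x hx => hf x _ hlo hx) hlo (by simpa using hν)
  have h5 := hW.zero θ' u' a T l hT hθ' h2 (by rw [h3]; simp)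
  linarith

end Pool.Agent.LRig
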