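import Pool.Agent.LRig.VC

/-!
# LR (MP_74f563_an, all n), file VD: the chain lemma and the barrier

`Lo = {x | f x ≤ 3 κ₁}`; outside `Lo` the cost per unit time is at least `f - κ₁ ≥ 2 κ₁ > 0`.

PROOF of `chain`.  Divide `[y, y+1]` into `N` intervals `J_i = [y + i/N, y + (i+1)/N]`, `i < N`. 
Claim, by
induction on the finite set `F` of indices: for every piece on `[p, q]` such that for all
`t ∈ [p, q]`
with `lev (θ t) t ∈ Lo` there is `i ∈ F` with `lev (θ t) t ∈ J_i`, the cost is at least `-|F| c`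
(`c = cm .. ≥ 0`).  If no time is in `Lo`, the cost is `≥ 0` (`cost_ge`).  Otherwise the set of
times
with level in `Lo` is closed in `[p, q]` (`f`, `lev` continuous) and not empty; let `t₁` be its
minimum,
`i ∈ F` with `lev (t₁) ∈ J_i`, and `t₂ ≥ t₁` the maximum of the closed set of times with level in
`Lo ∩ J_i`.  Then cost on `[p, t₁]` is `≥ 0` (by continuity or because `E ≥ 0` off the endpoint), on
`[t₁, t₂]` it is `≥ -c` by `cut` (both end levels in `J_i`, distance `≤ 1/N`), and for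
`t' ∈ (t₂, q]` the
piece `[t', q]` satisfies the hypothesis with `F \ {i}`, so its cost is `≥ -(|F| - 1) c`; let
`t' ↓ t₂`
(`cost_tendsto`; if `t₂ = q` the cost is `0`).
PROOF of `barrier`.  `E ≥ (F₀ - κ₁) + κ' ‖u‖² ≥ 2 √(κ' (F₀ - κ₁)) ‖u‖ ≥ 2 √(..) ⟪zv j, u⟫/‖zv j‖`,
integrate
(`cost_ge`, `lev_diff`).
PROOF of `free`: on pieces which do not meet `Lo`: `E ≥ 2κ₁ + κ'‖u‖² ≥ 2√(2κ₁κ') |⟪zv j, u⟫|/‖zv j‖
≥ (√(κ' κ₁)/K) |⟪zv j, u⟫|`.
-/

set_option autoImplicit false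

namespace Pool.Agent.LRig

open Set MeasureTheory Pool.Agent.MechAlpha
open scoped RealInnerProductSpace ContDiff

variable {n : ℕ} {E : Vec n → Vec n → ℝ → ℝ} {j : Fin n → ℤ} {m : ℤ} {h : Vec n} {f : ℝ → ℝ}
  {κ₁ κ' C : ℝ}

private theorem vd_nonneg {E : Vec n → Vec n → ℝ → ℝ} {θ u : ℝ → Vec n} {a b : ℝ}
    (hab : a ≤ b) (h : ∀ t ∈ Ioo a b, 0 ≤ E (θ t) (u t) t) : 0 ≤ cost E θ u a b := by
  unfold cost
  rw [intervalIntegral.integral_of_le hab, integral_Ioc_eq_integral_Ioo]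
  exact setIntegral_nonneg measurableSet_Ioo h

private theorem vd_pos (hW : WD E j m h f κ₁ κ' C) {θ u : Vec n} {t : ℝ}
    (h1 : 3 * κ₁ ≤ f (lev j m θ t)) : 0 ≤ E θ u t := by
  have h2 := hW.low θ u t
  have h3 := hW.κ₁_pos
  have h4 : 0 ≤ κ' * ‖u‖ ^ 2 := mul_nonneg hW.κ'_pos.le (sq_nonneg _)
  linarith

private theorem vd_cm (hW : WD E j m h f κ₁ κ' C) {K N φ : ℝ} (hK : nj j ≤ K) (hN : 0 ≤ N) :
    0 ≤ cm n κ₁ C K N φ := by
  have hK0 : (0 : ℝ) ≤ K := (Nat.cast_nonneg _).trans hK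
  unfold cm
  positivity

private theorem vd_cell {N : ℕ} (hN : 0 < N) {x : ℝ} (h0 : 0 ≤ x) (h1 : x ≤ 1) :
    ∃ i : ℕ, i < N ∧ (i : ℝ) / N ≤ x ∧ x ≤ ((i : ℝ) + 1) / N := by
  have hN0 : (0 : ℝ) < N := by exact_mod_cast hN
  rcases h1.eq_or_lt with h2 | h2
  · refine ⟨N - 1, by omega, ?_, ?_⟩
    · rw [div_le_iff₀ hN0, h2, one_mul]
      exact_mod_cast Nat.sub_le N 1
    · rw [le_div_iff₀ hN0, h2, one_mul]
      have h3 : N = N - 1 + 1 := by omega
      exact_mod_cast h3.le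
  · refine ⟨⌊x * N⌋₊, ?_, ?_, ?_⟩
    · rw [Nat.floor_lt (by positivity)]
      nlinarith
    · rw [div_le_iff₀ hN0]
      exact Nat.floor_le (by positivity)
    · rw [le_div_iff₀ hN0]
      exact (Nat.lt_floor_add_one _).le

private theorem vd_amgm {a b x : ℝ} (ha : 0 ≤ a) (hb : 0 ≤ b) (_hx : 0 ≤ x) :
    2 * (√(a * b) * x) ≤ b + a * x ^ 2 := by
  rw [Real.sqrt_mul ha]
  have h1 := Real.sq_sqrt ha
  have h2 := Real.sq_sqrt hb
  have h3 := sq_nonneg (√b - √a * x)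
  have h4 : (√b - √a * x) ^ 2 = √b ^ 2 - 2 * (√a * √b * x) + √a ^ 2 * x ^ 2 := by ring
  rw [h4, h1, h2] at h3
  linarith

private theorem vd_lin (hW : WD E j m h f κ₁ κ' C) {θ u : ℝ → Vec n} {p q : ℝ}
    (hθ : TCv h θ u p q) {c₀ : ℝ} (hc₀ : 0 ≤ c₀)
    (h1 : ∀ t ∈ Icc p q, c₀ * |⟪zv j, u t⟫| ≤ E (θ t) (u t) t) :
    c₀ * |lev j m (θ q) q - lev j m (θ p) p| ≤ cost E θ u p q := by
  obtain ⟨hi, he⟩ := lev_diff hθ (j := j) (m := m) hW.res
  have a1 := cost_ge hW.E_cont hθ (hi.const_mul c₀) fun t ht =>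
    (mul_le_mul_of_nonneg_left (le_abs_self _) hc₀).trans (h1 t ht)
  have a2 := cost_ge hW.E_cont hθ (hi.const_mul (-c₀)) fun t ht => by
    have h2 := mul_le_mul_of_nonneg_left (neg_abs_le (⟪zv j, u t⟫ : ℝ)) hc₀
    have h3 := h1 t ht
    linarith
  rw [intervalIntegral.integral_const_mul, he] at a1 a2
  rcases abs_cases (lev j m (θ q) q - lev j m (θ p) p) with h | h
  · rw [h.1]
    exact a1
  · rw [h.1]
    linarith

theorem chain (hW : WD E j m h f κ₁ κ' C) {K φ : ℝ} {N : ℕ} (hK : nj j ≤ K) (hN : 0 < N)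
    (hφ : 0 ≤ φ) (hf : ∀ x y, f y ≤ 3 * κ₁ → |x - y| ≤ 1 / N → f x ≤ φ)
    {θ u : ℝ → Vec n} {p q y : ℝ} (hθ : TCv h θ u p q)
    (hy : ∀ t ∈ Icc p q, lev j m (θ t) t ∈ Icc y (y + 1)) :
    -(N * cm n κ₁ C K N φ) ≤ cost E θ u p q := by
  have hN1 : (1 : ℝ) ≤ N := by exact_mod_cast hN
  have hN0 : (0 : ℝ) < N := by linarith
  have hc := vd_cm hW hK hN0.le (φ := φ)
  have hlev := lev_cont hθ j m
  have hflev : ContinuousOn (fun t => f (lev j m (θ t) t)) (Icc p q) :=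
    hW.f_cont.comp_continuousOn hlev
  have claim : ∀ (k : ℕ) (F : Finset ℕ), F.card = k → ∀ p' ∈ Icc p q,
      (∀ t ∈ Icc p' q, f (lev j m (θ t) t) ≤ 3 * κ₁ → ∃ i ∈ F,
        lev j m (θ t) t ∈ Icc (y + i / N) (y + (i + 1) / N)) →
      -(k * cm n κ₁ C K N φ) ≤ cost E θ u p' q := by
    intro k
    induction k with
    | zero =>
      intro F hF p' hp' h1
      have h2 : 0 ≤ cost E θ u p' q := by
        refine vd_nonneg hp'.2 fun t ht => ?_
        have h3 : ¬ f (lev j m (θ t) t) ≤ 3 * κ₁ := by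
          intro h4
          obtain ⟨i, hi, -⟩ := h1 t (Ioo_subset_Icc_self ht) h4
          rw [Finset.card_eq_zero.1 hF] at hi
          exact absurd hi (Finset.notMem_empty i)
        exact vd_pos hW (not_le.1 h3).le
      simpa using h2
    | succ k ih =>
      intro F hF p' hp' h1
      have hsub : Icc p' q ⊆ Icc p q := Icc_subset_Icc_left hp'.1
      have hkc : 0 ≤ (k : ℝ) * cm n κ₁ C K N φ := mul_nonneg (Nat.cast_nonneg k) hc
      by_cases hA : ∃ t ∈ Icc p' q, f (lev j m (θ t) t) ≤ 3 * κ₁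
      · have hAc : IsCompact {t | t ∈ Icc p' q ∧ f (lev j m (θ t) t) ≤ 3 * κ₁} := by
          have h2 := (hflev.mono hsub).preimage_isClosed_of_isClosed isClosed_Icc
            (isClosed_Iic (a := 3 * κ₁))
          exact isCompact_Icc.of_isClosed_subset h2 fun t ht => ht.1
        obtain ⟨t₁, ht₁, ht₁'⟩ := hAc.exists_isLeast hA
        obtain ⟨i, hiF, hi⟩ := h1 t₁ ht₁.1 ht₁.2
        have hBc : IsCompact {t | t ∈ Icc p' q ∧ (f (lev j m (θ t) t) ≤ 3 * κ₁ ∧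
            lev j m (θ t) t ∈ Icc (y + i / N) (y + (i + 1) / N))} := by
          have h2 := (hflev.mono hsub).preimage_isClosed_of_isClosed isClosed_Icc
            (isClosed_Iic (a := 3 * κ₁))
          have h3 := (hlev.mono hsub).preimage_isClosed_of_isClosed isClosed_Icc
            (isClosed_Icc (a := y + (i : ℝ) / N) (b := y + (i + 1) / N))
          refine isCompact_Icc.of_isClosed_subset ?_ fun t ht => ht.1
          convert h2.inter h3 using 1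
          ext t
          constructor
          · rintro ⟨h5, h6, h7⟩
            exact ⟨⟨h5, h6⟩, h5, h7⟩
          · rintro ⟨⟨h5, h6⟩, -, h7⟩
            exact ⟨h5, h6, h7⟩
        obtain ⟨t₂, ht₂, ht₂'⟩ := hBc.exists_isGreatest ⟨t₁, ht₁.1, ht₁.2, hi⟩
        have h12 : t₁ ≤ t₂ := ht₂' ⟨ht₁.1, ht₁.2, hi⟩
        have hθ' : TCv h θ u p' q := hθ.restrict hp'.1 hp'.2 le_rfl
        have hc1 : 0 ≤ cost E θ u p' t₁ := by
          refine vd_nonneg ht₁.1.1 fun t ht => vd_pos hW ?_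
          by_contra h3
          have h4 : t₁ ≤ t := ht₁' ⟨⟨ht.1.le, ht.2.le.trans ht₁.1.2⟩, (not_le.1 h3).le⟩
          exact absurd ht.2 (not_lt.2 h4)
        have hc2 : -cm n κ₁ C K N φ ≤ cost E θ u t₁ t₂ := by
          refine cut hW hK hN1 hφ hf (hθ'.restrict ht₁.1.1 h12 ht₂.1.2) ht₁.2 ?_
          have h5 := ht₂.2.2
          have h6 : y + ((i : ℝ) + 1) / N = y + i / N + 1 / N := by ring
          rw [h6] at h5 hi
          rw [abs_le]
          constructor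
          · linarith [h5.1, hi.2]
          · linarith [h5.2, hi.1]
        have hc3 : -(k * cm n κ₁ C K N φ) ≤ cost E θ u t₂ q := by
          rcases ht₂.1.2.eq_or_lt with h7 | h7
          · rw [h7]
            unfold cost
            rw [intervalIntegral.integral_same]
            linarith
          · have h8 := cost_tendsto hW.E_cont (hθ'.restrict ht₂.1.1 ht₂.1.2 le_rfl)
            have h9 := (h8 t₂ (left_mem_Icc.2 h7.le)).tendsto.mono_left
              (nhdsWithin_le_of_mem (Icc_mem_nhdsGT h7))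
            refine ge_of_tendsto h9 ?_
            filter_upwards [Ioc_mem_nhdsGT h7] with t' ht'
            refine ih (F.erase i) ?_ t' ⟨hp'.1.trans (ht₂.1.1.trans ht'.1.le), ht'.2⟩ ?_
            · rw [Finset.card_erase_of_mem hiF, hF]
              rfl
            · intro t ht h10
              have ht3 : t ∈ Icc p' q := ⟨ht₂.1.1.trans (ht'.1.le.trans ht.1), ht.2⟩
              obtain ⟨i', hi', h11⟩ := h1 t ht3 h10
              refine ⟨i', Finset.mem_erase.2 ⟨?_, hi'⟩, h11⟩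
              rintro rfl
              have h12 : t ≤ t₂ := ht₂' ⟨ht3, h10, h11⟩
              linarith [ht'.1, ht.1]
        have e1 := cost_add hW.E_cont hθ' ht₁.1.1 ht₁.1.2
        have e2 := cost_add hW.E_cont (hθ'.restrict ht₁.1.1 ht₁.1.2 le_rfl) h12 ht₂.1.2
        push_cast
        linarith
      · have h2 : 0 ≤ cost E θ u p' q := by
          refine vd_nonneg hp'.2 fun t ht => vd_pos hW ?_
          by_contra h3
          exact hA ⟨t, Ioo_subset_Icc_self ht, (not_le.1 h3).le⟩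
        push_cast
        linarith
  have h2 := claim N (Finset.range N) (Finset.card_range N) p (left_mem_Icc.2 hθ.le) ?_
  · exact h2
  · intro t ht _
    obtain ⟨h3, h4⟩ := hy t ht
    obtain ⟨i, hi, h5, h6⟩ := vd_cell hN (sub_nonneg.2 h3) (by linarith : lev j m (θ t) t - y ≤ 1)
    exact ⟨i, Finset.mem_range.2 hi, by linarith, by linarith⟩

theorem barrier (hW : WD E j m h f κ₁ κ' C) {F₀ : ℝ} (hF : κ₁ ≤ F₀) {θ u : ℝ → Vec n}
    {p q : ℝ} (hθ : TCv h θ u p q) (hf : ∀ t ∈ Icc p q, F₀ ≤ f (lev j m (θ t) t)) :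
    2 * √(κ' * (F₀ - κ₁)) * |lev j m (θ q) q - lev j m (θ p) p| / ‖(zv j : Vec n)‖ ≤
      cost E θ u p q := by
  have hJ : 1 ≤ ‖(zv j : Vec n)‖ := one_le_norm_zv hW.j_ne
  have hJ0 : 0 < ‖(zv j : Vec n)‖ := by linarith
  have h1 := vd_lin hW hθ (c₀ := 2 * √(κ' * (F₀ - κ₁)) / ‖(zv j : Vec n)‖) (by positivity)
    fun t ht => ?_
  · calc 2 * √(κ' * (F₀ - κ₁)) * |lev j m (θ q) q - lev j m (θ p) p| / ‖(zv j : Vec n)‖
        = 2 * √(κ' * (F₀ - κ₁)) / ‖(zv j : Vec n)‖ * |lev j m (θ q) q - lev j m (θ p) p| := by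
          ring
      _ ≤ _ := h1
  · have h2 : |⟪zv j, u t⟫| ≤ ‖(zv j : Vec n)‖ * ‖u t‖ := abs_real_inner_le_norm _ _
    have h3 := vd_amgm hW.κ'_pos.le (sub_nonneg.2 hF) (norm_nonneg (u t))
    have h4 := hW.low (θ t) (u t) t
    have h5 := hf t ht
    calc 2 * √(κ' * (F₀ - κ₁)) / ‖(zv j : Vec n)‖ * |⟪zv j, u t⟫|
        ≤ 2 * √(κ' * (F₀ - κ₁)) / ‖(zv j : Vec n)‖ * (‖(zv j : Vec n)‖ * ‖u t‖) :=
          mul_le_mul_of_nonneg_left h2 (by positivity)
      _ = 2 * (√(κ' * (F₀ - κ₁)) * ‖u t‖) := by field_simp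
      _ ≤ F₀ - κ₁ + κ' * ‖u t‖ ^ 2 := h3
      _ ≤ E (θ t) (u t) t := by linarith

theorem free (hW : WD E j m h f κ₁ κ' C) {K : ℝ} (hK : nj j ≤ K) {θ u : ℝ → Vec n}
    {p q : ℝ} (hθ : TCv h θ u p q) (hf : ∀ t ∈ Icc p q, 3 * κ₁ ≤ f (lev j m (θ t) t)) :
    √(κ' * κ₁) / K * |lev j m (θ q) q - lev j m (θ p) p| ≤ cost E θ u p q := by
  have hJ : 1 ≤ ‖(zv j : Vec n)‖ := one_le_norm_zv hW.j_ne
  have hJK : ‖(zv j : Vec n)‖ ≤ K := (norm_zv_le j).trans hK
  have hK0 : 0 < K := by linarith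
  refine vd_lin hW hθ (c₀ := √(κ' * κ₁) / K) (by positivity) fun t ht => ?_
  have h2 : |⟪zv j, u t⟫| ≤ ‖(zv j : Vec n)‖ * ‖u t‖ := abs_real_inner_le_norm _ _
  have h2' : ‖(zv j : Vec n)‖ * ‖u t‖ ≤ K * ‖u t‖ :=
    mul_le_mul_of_nonneg_right hJK (norm_nonneg _)
  have h3 := vd_amgm hW.κ'_pos.le hW.κ₁_pos.le (norm_nonneg (u t))
  have h4 := hW.low (θ t) (u t) t
  have h5 := hf t ht
  have h6 : 0 ≤ √(κ' * κ₁) * ‖u t‖ := by positivity
  have h7 := hW.κ₁_pos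
  calc √(κ' * κ₁) / K * |⟪zv j, u t⟫|
      ≤ √(κ' * κ₁) / K * (K * ‖u t‖) :=
        mul_le_mul_of_nonneg_left (h2.trans h2') (by positivity)
    _ = √(κ' * κ₁) * ‖u t‖ := by field_simp
    _ ≤ 2 * (√(κ' * κ₁) * ‖u t‖) := by linarith
    _ ≤ κ₁ + κ' * ‖u t‖ ^ 2 := h3
    _ ≤ E (θ t) (u t) t := by linarith

end Pool.Agent.LRig
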