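import Pool.Agent.LRig.VD

/-!
# LR (MP_74f563_an, all n), file VE: the cost of one full winding

PROOF of `winding`.  `K ≥ 1` since `j ≠ 0`.  Let `f x - f x' = r`; `f x' ≥ -κ₁` (`f_ge`), so
`f x ≥ r - κ₁ ≥ (15/16) r`.  By periodicity there is `x₁ ∈ [y, y+1)` with `f x₁ = f x`.  Let
`ρ = 1/(28 K²)`.  For `|x - x₁| ≤ ρ`: `f x ≥ (15/16) r - 7 K² r ρ ≥ r/2 > 3κ₁`.  Since `y`,
`y + 1 ∈ Lo`,
`[x₁ - ρ, x₁ + ρ] ⊆ (y, y + 1)`.  Let `c` be the first time in `[p, q]` with level `x₁ + ρ` and `b`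
the last
time in `[p, c]` with level `x₁ - ρ` (intermediate values; closed sets of times); on `[b, c]` the
level
stays in `[x₁ - ρ, x₁ + ρ]`.  `barrier` with `F₀ = r/2` on `[b, c]`: cost at least
`2 √(κ' (r/2 - κ₁)) 2ρ/‖zv j‖ ≥ 2 √(κ' r/4)/(14 K² K) = √(κ' r)/(14 K³)` (`κ₁ ≤ r/4`,
`‖zv j‖ ≤ nj j ≤ K`).
`chain` on `[p, b]` and `[c, q]`.
-/

set_option autoImplicit false

namespace Pool.Agent.LRig

open Set MeasureTheory Pool.Agent.MechAlpha
open scoped RealInnerProductSpace ContDiff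

variable {n : ℕ} {E : Vec n → Vec n → ℝ → ℝ} {j : Fin n → ℤ} {m : ℤ} {h : Vec n} {f : ℝ → ℝ}
  {κ₁ κ' C : ℝ}

/-- the first crossing of a strip: a continuous function which goes from below `a` to above `b`
has a piece inside the strip -/
private lemma strip {g : ℝ → ℝ} {p q a b : ℝ} (hpq : p ≤ q) (hg : ContinuousOn g (Icc p q))
    (hab : a ≤ b) (hp : g p ≤ a) (hq : b ≤ g q) :
    ∃ s t, p ≤ s ∧ s ≤ t ∧ t ≤ q ∧ g s = a ∧ g t = b ∧ ∀ x ∈ Icc s t, a ≤ g x ∧ g x ≤ b := by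
  have hS : IsCompact {t | t ∈ Icc p q ∧ g t = b} := by
    have : {t | t ∈ Icc p q ∧ g t = b} = Icc p q ∩ g ⁻¹' {b} := by
      ext t; simp
    rw [this]
    exact isCompact_Icc.of_isClosed_subset
      (hg.preimage_isClosed_of_isClosed isClosed_Icc isClosed_singleton) inter_subset_left
  have hSne : {t | t ∈ Icc p q ∧ g t = b}.Nonempty := by
    obtain ⟨t, ht, hgt⟩ := intermediate_value_Icc hpq hg ⟨hp.trans hab, hq⟩
    exact ⟨t, ht, hgt⟩
  obtain ⟨c, hc⟩ := hS.exists_isLeast hSne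
  have hc1 : c ∈ Icc p q := hc.1.1
  have hgc : g c = b := hc.1.2
  have hg' : ContinuousOn g (Icc p c) := hg.mono (Icc_subset_Icc le_rfl hc1.2)
  have hS' : IsCompact {t | t ∈ Icc p c ∧ g t = a} := by
    have : {t | t ∈ Icc p c ∧ g t = a} = Icc p c ∩ g ⁻¹' {a} := by
      ext t; simp
    rw [this]
    exact isCompact_Icc.of_isClosed_subset
      (hg'.preimage_isClosed_of_isClosed isClosed_Icc isClosed_singleton) inter_subset_left
  have hSne' : {t | t ∈ Icc p c ∧ g t = a}.Nonempty := by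
    obtain ⟨t, ht, hgt⟩ := intermediate_value_Icc hc1.1 hg' ⟨hp, hgc ▸ hab⟩
    exact ⟨t, ht, hgt⟩
  obtain ⟨s, hs⟩ := hS'.exists_isGreatest hSne'
  have hs1 : s ∈ Icc p c := hs.1.1
  have hgs : g s = a := hs.1.2
  refine ⟨s, c, hs1.1, hs1.2, hc1.2, hgs, hgc, fun x hx => ⟨?_, ?_⟩⟩
  · by_contra hlt
    push Not at hlt
    have hxs : s < x := lt_of_le_of_ne hx.1 (fun h => by rw [← h, hgs] at hlt; exact lt_irrefl _ hlt)
    obtain ⟨t, ht, hgt⟩ := intermediate_value_Icc hx.2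
      (hg'.mono (Icc_subset_Icc (hs1.1.trans hx.1) le_rfl)) ⟨hlt.le, hgc ▸ hab⟩
    have := hs.2 ⟨⟨hs1.1.trans (hx.1.trans ht.1), ht.2⟩, hgt⟩
    linarith [ht.1]
  · by_contra hlt
    push Not at hlt
    have hxc : x < c := lt_of_le_of_ne hx.2 (fun h => by rw [h, hgc] at hlt; exact lt_irrefl _ hlt)
    obtain ⟨t, ht, hgt⟩ := intermediate_value_Icc (hs1.1.trans hx.1)
      (hg'.mono (Icc_subset_Icc le_rfl hx.2)) ⟨hp.trans hab, hlt.le⟩
    have := hc.2 ⟨⟨ht.1, ht.2.trans (hx.2.trans hc1.2)⟩, hgt⟩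
    linarith [ht.2]

/-- the cost of one full winding -/
theorem winding (hW : WD E j m h f κ₁ κ' C) {K φ r : ℝ} {N : ℕ} (hK : nj j ≤ K)
    (hN : 0 < N) (hφ : 0 ≤ φ) (hf : ∀ x y, f y ≤ 3 * κ₁ → |x - y| ≤ 1 / N → f x ≤ φ)
    (hr : ∀ x y, f x - f y ≤ r) (hr' : ∃ x y, f x - f y = r)
    (hl : ∀ x y, |f x - f y| ≤ 7 * K ^ 2 * r * |x - y|) (hκ : 16 * κ₁ ≤ r)
    {θ u : ℝ → Vec n} {p q y : ℝ} (hθ : TCv h θ u p q) (hlo : f y ≤ 3 * κ₁)
    (hp : lev j m (θ p) p = y) (hq : lev j m (θ q) q = y + 1)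
    (hy : ∀ t ∈ Icc p q, lev j m (θ t) t ∈ Icc y (y + 1)) :
    √(κ' * r) / (14 * K ^ 3) - 2 * (N * cm n κ₁ C K N φ) ≤ cost E θ u p q := by
  have hpq : p ≤ q := hθ.le
  have hκ₁ := hW.κ₁_pos
  have hr0 : 0 < r := by linarith
  have hJ1 : 1 ≤ ‖(zv j : Vec n)‖ := one_le_norm_zv hW.j_ne
  have hJK : ‖(zv j : Vec n)‖ ≤ K := (norm_zv_le j).trans hK
  have hK1 : 1 ≤ K := hJ1.trans hJK
  have hK0 : 0 < K := by linarith
  obtain ⟨x, x', hxx⟩ := hr'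
  have hfx' := f_ge hW x'
  have hper : ∀ (z : ℤ) (x : ℝ), f (x + z) = f x := by
    intro z x
    have hp1 : Function.Periodic f 1 := hW.f_per
    have := hp1.int_mul z x
    simpa using this
  obtain ⟨x₁, hx₁, hx₁y, hx₁y'⟩ : ∃ x₁, f x₁ = f x ∧ y ≤ x₁ ∧ x₁ < y + 1 := by
    refine ⟨y + Int.fract (x - y), ?_, ?_, ?_⟩
    · have h1 : y + Int.fract (x - y) = x + ((-⌊x - y⌋ : ℤ) : ℝ) := by
        rw [Int.fract]; push_cast; ring
      rw [h1, hper]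
    · linarith [Int.fract_nonneg (x - y)]
    · linarith [Int.fract_lt_one (x - y)]
  obtain ⟨ρ, hρ⟩ : ∃ ρ, ρ = 1 / (28 * K ^ 2) := ⟨_, rfl⟩
  have hρ0 : 0 < ρ := by rw [hρ]; positivity
  have hρK : 7 * K ^ 2 * r * ρ = r / 4 := by
    rw [hρ]; field_simp; norm_num
  have hbig : ∀ s, |s - x₁| ≤ ρ → r / 2 ≤ f s := by
    intro s hs
    have h1 := hl s x₁
    have h2 : 7 * K ^ 2 * r * |s - x₁| ≤ 7 * K ^ 2 * r * ρ := by gcongr
    have h3 := (abs_le.1 (h1.trans (h2.trans_eq hρK))).1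
    rw [hx₁] at h3
    linarith
  have hy1 : y < x₁ - ρ := by
    by_contra hcon
    push Not at hcon
    have := hbig y (by rw [abs_le]; constructor <;> linarith)
    linarith
  have hy2 : x₁ + ρ < y + 1 := by
    by_contra hcon
    push Not at hcon
    have := hbig (y + 1) (by rw [abs_le]; constructor <;> linarith)
    rw [hW.f_per] at this
    linarith
  obtain ⟨b, c, hpb, hbc, hcq, hgb, hgc, hst⟩ := strip (g := fun t => lev j m (θ t) t) hpq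
    (lev_cont hθ j m) (a := x₁ - ρ) (b := x₁ + ρ) (by linarith) (by simp only [hp]; linarith)
    (by simp only [hq]; linarith)
  have hθ1 : TCv h θ u p b := hθ.restrict le_rfl hpb (hbc.trans hcq)
  have hθ2 : TCv h θ u b c := hθ.restrict hpb hbc hcq
  have hθ3 : TCv h θ u c q := hθ.restrict (hpb.trans hbc) hcq le_rfl
  have hθ4 : TCv h θ u b q := hθ.restrict hpb (hbc.trans hcq) le_rfl
  have hadd1 := cost_add hW.E_cont hθ hpb (hbc.trans hcq)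
  have hadd2 := cost_add hW.E_cont hθ4 hbc hcq
  have hch1 := chain hW hK hN hφ hf hθ1
    (fun t ht => hy t ⟨ht.1, ht.2.trans (hbc.trans hcq)⟩)
  have hch3 := chain hW hK hN hφ hf hθ3
    (fun t ht => hy t ⟨(hpb.trans hbc).trans ht.1, ht.2⟩)
  have hbar := barrier hW (F₀ := r / 2) (by linarith) hθ2
    (fun t ht => hbig _ (by
      have := hst t ht
      rw [abs_le]; constructor <;> linarith [this.1, this.2]))
  rw [hgb, hgc] at hbar
  have hd : |x₁ + ρ - (x₁ - ρ)| = 2 * ρ := by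
    rw [show x₁ + ρ - (x₁ - ρ) = 2 * ρ by ring, abs_of_pos (by linarith)]
  rw [hd] at hbar
  have hs1 : √(κ' * r) / 2 ≤ √(κ' * (r / 2 - κ₁)) := by
    have hk := hW.κ'_pos
    have h4 : √(κ' * r) / 2 = √(κ' * r / 4) := by
      rw [Real.sqrt_div' _ (by norm_num : (0:ℝ) ≤ 4)]
      rw [show (4 : ℝ) = 2 ^ 2 by norm_num, Real.sqrt_sq (by norm_num)]
    rw [h4]
    apply Real.sqrt_le_sqrt
    have : r / 4 ≤ r / 2 - κ₁ := by linarith
    calc κ' * r / 4 = κ' * (r / 4) := by ring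
      _ ≤ κ' * (r / 2 - κ₁) := by gcongr
  have hs0 : 0 ≤ √(κ' * r) := Real.sqrt_nonneg _
  have hmain : √(κ' * r) / (14 * K ^ 3) ≤
      2 * √(κ' * (r / 2 - κ₁)) * (2 * ρ) / ‖(zv j : Vec n)‖ := by
    calc √(κ' * r) / (14 * K ^ 3) = (2 * (√(κ' * r) / 2)) * (2 * ρ) / K := by
          rw [hρ]; field_simp; ring
      _ ≤ (2 * √(κ' * (r / 2 - κ₁))) * (2 * ρ) / K := by gcongr
      _ ≤ (2 * √(κ' * (r / 2 - κ₁))) * (2 * ρ) / ‖(zv j : Vec n)‖ := by gcongr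
  linarith

end Pool.Agent.LRig
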