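import Pool.Agent.LRig.VE

/-!
# LR (MP_74f563_an, all n), file VG: the wind theorem

PROOF of `wind_pos`.  Let `c = cm n κ₁ C K N φ`, `G = √(κ' r)/(14 K³)`, `hG : (2 N + 2) c ≤ G / 2`.
Claim: every closed curve of winding `ν ≥ 0` whose starting level `y = lev (θ a) a` is in `Lo`
(`f y ≤ 3κ₁`) costs at least `ν G / 2`.  Induction on `ν`; `ν = 0`: `WD.zero`.  `ν ≥ 1`: the level
at the
end is `y + ν` (`lev_int`).  Let `p` be the last time in `[a, a+T]` with level `y`; after `p` the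
level is
`> y` (intermediate values).  Let `q` be the first time after `p` with level `y + 1`; on `[p, q]`
the level is
in `[y, y+1]`.  `[a, p]`: cost `≥ -c` (`cut`, equal levels).  `[p, q]`: `winding`: cost
`≥ G - 2 N c`.
`[q, a+T]`: level from `y + 1` to `y + ν`; `close` (with `ν - 1`; the starting level `y + 1` is in
`Lo` by
periodicity) gives a closed curve with winding `ν - 1`, starting at level `y + 1 ∈ Lo`, whose cost
is at
least `(ν - 1) G/2` by induction; so the cost of `[q, a+T]` is at least `(ν-1) G/2 - c`.  Sum: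
`G - (2N + 2) c + (ν - 1) G/2 ≥ ν G/2`.
PROOF of `wind`.  Constants: `N = ⌈C₂ K^10⌉` natural, `φ = 3κ₁ + 7 K² r/N`; `hf` holds by `hl`. 
Then
`c = 2 √C √(4κ₁ + 7K² r/N)/N + 8 n K √(C κ₁)`, and
`(2N + 2) c ≤ 4 N c ≤ 16 √C √κ₁ + 8 √C √(7 K² r/N)
+ 32 √C n K N √κ₁`.  `√(7K² r/N) ≤ √(7/C₂)
√r/K⁴`; choose `C₂` (depending on `κ'`, `C`) so large that
`8 √C √(7/C₂) ≤ √κ'/84`; and then `D`, `p = 28` so large that `κ₁ D K^28 ≤ r` gives
`16 √C √κ₁ + 32 √C n K N √κ₁ ≤ √(κ' r)/(84 K³)` (`N ≤ 2 C₂ K^10`) and `16κ₁ ≤ r`,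
`√(κ' κ₁)/K ≤ G/2`.  So `(2N + 2) c ≤ √(κ' r)/(42 K³) ≤ G/2 = √(κ' r)/(28 K³)`.
Let now a closed curve with winding `ν ≥ 0` be given.  If it meets no level in `Lo`: `free`. 
Otherwise
start it at a time with level in `Lo` (`exists_rot`) and use `wind_pos`:
`cost ≥ ν G/2 ≥ (√(κ' κ₁)/K) ν`.
For `ν < 0` apply the result to the data `(-j, -m)`, `f (-x)`: `WD` holds with the same `E`, `h`
(`lev (-j) (-m) = -lev j m`), and the oscillation and Lipschitz data are the same.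
-/

set_option autoImplicit false

namespace Pool.Agent.LRig

open Set MeasureTheory Pool.Agent.MechAlpha
open scoped RealInnerProductSpace ContDiff

variable {n : ℕ}

private theorem vg_last {g : ℝ → ℝ} {a b y : ℝ} (hab : a ≤ b) (hg : ContinuousOn g (Icc a b))
    (ha : g a ≤ y) (hb : y < g b) :
    ∃ p ∈ Icc a b, g p = y ∧ ∀ t, p < t → t ≤ b → y < g t := by
  have hcl : IsClosed (Icc a b ∩ g ⁻¹' Iic y) :=
    hg.preimage_isClosed_of_isClosed isClosed_Icc isClosed_Iic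
  have hcp : IsCompact (Icc a b ∩ g ⁻¹' Iic y) :=
    isCompact_Icc.of_isClosed_subset hcl inter_subset_left
  have hne : (Icc a b ∩ g ⁻¹' Iic y).Nonempty := ⟨a, ⟨le_refl a, hab⟩, ha⟩
  have hp := hcp.sSup_mem hne
  set p := sSup (Icc a b ∩ g ⁻¹' Iic y) with hpd
  have hlast : ∀ t, p < t → t ≤ b → y < g t := by
    intro t h1 h2
    by_contra h3
    have h4 : t ∈ Icc a b ∩ g ⁻¹' Iic y := ⟨⟨hp.1.1.trans h1.le, h2⟩, not_lt.mp h3⟩
    exact absurd (le_csSup hcp.bddAbove h4) (not_le.mpr h1)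
  refine ⟨p, hp.1, ?_, hlast⟩
  have h5 : g p ≤ y := hp.2
  rcases h5.lt_or_eq with h6 | h6
  · exfalso
    have h7 := intermediate_value_Icc hp.1.2 (hg.mono (Icc_subset_Icc_left hp.1.1))
    obtain ⟨t, ht, hty⟩ := h7 ⟨h6.le, hb.le⟩
    have h8 : p < t := by
      rcases ht.1.lt_or_eq with h | h
      · exact h
      · exfalso
        rw [← h] at hty
        linarith
    have := hlast t h8 ht.2
    linarith
  · exact h6

private theorem vg_first {g : ℝ → ℝ} {a b z : ℝ} (hab : a ≤ b) (hg : ContinuousOn g (Icc a b))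
    (ha : g a ≤ z) (hb : z ≤ g b) :
    ∃ q ∈ Icc a b, g q = z ∧ ∀ t, a ≤ t → t < q → g t < z := by
  have hcl : IsClosed (Icc a b ∩ g ⁻¹' Ici z) :=
    hg.preimage_isClosed_of_isClosed isClosed_Icc isClosed_Ici
  have hcp : IsCompact (Icc a b ∩ g ⁻¹' Ici z) :=
    isCompact_Icc.of_isClosed_subset hcl inter_subset_left
  have hne : (Icc a b ∩ g ⁻¹' Ici z).Nonempty := ⟨b, ⟨hab, le_refl b⟩, hb⟩
  have hp := hcp.sInf_mem hne
  set q := sInf (Icc a b ∩ g ⁻¹' Ici z) with hqd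
  have hfirst : ∀ t, a ≤ t → t < q → g t < z := by
    intro t h1 h2
    by_contra h3
    have h4 : t ∈ Icc a b ∩ g ⁻¹' Ici z := ⟨⟨h1, h2.le.trans hp.1.2⟩, not_lt.mp h3⟩
    exact absurd (csInf_le hcp.bddBelow h4) (not_le.mpr h2)
  refine ⟨q, hp.1, ?_, hfirst⟩
  have h5 : z ≤ g q := hp.2
  rcases h5.lt_or_eq with h6 | h6
  · exfalso
    have h7 := intermediate_value_Icc hp.1.1 (hg.mono (Icc_subset_Icc_right hp.1.2))
    obtain ⟨t, ht, hty⟩ := h7 ⟨ha, h6.le⟩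
    have h8 : t < q := by
      rcases ht.2.lt_or_eq with h | h
      · exact h
      · exfalso
        rw [h] at hty
        linarith
    have := hfirst t ht.1 h8
    linarith
  · exact h6.symm

private theorem vg_lev_end {j : Fin n → ℤ} {m : ℤ} {θ : ℝ → Vec n} {a : ℝ} {T : ℕ}
    {l : Fin n → ℤ} (hc : θ (a + T) = θ a + zv l) :
    lev j m (θ (a + T)) (a + T) = lev j m (θ a) a + ((⟪zv j, zv l⟫ : ℝ) + m * T) := by
  have h := lev_int j m (θ a) a l (T : ℤ)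
  rw [Int.cast_natCast] at h
  rw [hc, h]

private theorem vg_one_le_nj {j : Fin n → ℤ} (hj : j ≠ 0) : (1 : ℝ) ≤ nj j :=
  (one_le_norm_zv hj).trans (norm_zv_le j)

theorem wind_pos {E : Vec n → Vec n → ℝ → ℝ} {j : Fin n → ℤ} {m : ℤ} {h : Vec n} {f : ℝ → ℝ}
    {κ₁ κ' C : ℝ} (hW : WD E j m h f κ₁ κ' C) {K φ r : ℝ} {N : ℕ} (hK : nj j ≤ K)
    (hN : 0 < N) (hφ : 0 ≤ φ) (hf : ∀ x y, f y ≤ 3 * κ₁ → |x - y| ≤ 1 / N → f x ≤ φ)
    (hr : ∀ x y, f x - f y ≤ r) (hr' : ∃ x y, f x - f y = r)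
    (hl : ∀ x y, |f x - f y| ≤ 7 * K ^ 2 * r * |x - y|) (hκ : 16 * κ₁ ≤ r)
    (hG : (2 * N + 2) * cm n κ₁ C K N φ ≤ √(κ' * r) / (14 * K ^ 3) / 2)
    (ν : ℕ) {θ u : ℝ → Vec n} {a : ℝ} {T : ℕ} {l : Fin n → ℤ} (hT : 0 < T)
    (hθ : TCv h θ u a (a + T)) (hc : θ (a + T) = θ a + zv l)
    (hν : (⟪zv j, zv l⟫ : ℝ) + m * T = ν) (hlo : f (lev j m (θ a) a) ≤ 3 * κ₁) :
    ν * (√(κ' * r) / (14 * K ^ 3) / 2) ≤ cost E θ u a (a + T) := by
  have hK1 : 1 ≤ K := (vg_one_le_nj hW.j_ne).trans hK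
  have hN1 : (1 : ℝ) ≤ N := by exact_mod_cast hN
  have hN0 : (0 : ℝ) ≤ 1 / (N : ℝ) := by positivity
  set G := √(κ' * r) / (14 * K ^ 3) / 2 with hGdef
  set c := cm n κ₁ C K N φ with hcdef
  induction ν generalizing θ u a T l with
  | zero =>
    have := hW.zero θ u a T l hT hθ hc (by simpa using hν)
    simpa using this
  | succ ν ih =>
    have hE := hW.E_cont
    have hT0 : (0 : ℝ) ≤ T := by positivity
    have haT : a ≤ a + (T : ℝ) := by linarith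
    have hcont := lev_cont hθ j m
    have hend := vg_lev_end (j := j) (m := m) hc
    rw [hν] at hend
    push_cast at hend
    have hν0 : (0 : ℝ) ≤ ν := by positivity
    set y := lev j m (θ a) a with hy
    obtain ⟨p, hp, hpy, hplast⟩ := vg_last haT hcont (le_of_eq hy.symm)
      (show y < lev j m (θ (a + T)) (a + T) by rw [hend]; linarith)
    have hpy' : lev j m (θ p) p = y := hpy
    obtain ⟨q, hq, hqy, hqfirst⟩ := vg_first (z := y + 1) hp.2
      (hcont.mono (Icc_subset_Icc_left hp.1))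
      (show lev j m (θ p) p ≤ y + 1 by rw [hpy']; linarith)
      (show y + 1 ≤ lev j m (θ (a + T)) (a + T) by rw [hend]; linarith)
    have hqy' : lev j m (θ q) q = y + 1 := hqy
    have hperf : f (y + 1) = f y := hW.f_per y
    -- the first piece
    have c1 : -c ≤ cost E θ u a p := by
      refine cut hW hK hN1 hφ hf (hθ.restrict le_rfl hp.1 hp.2) hlo ?_
      rw [hpy', sub_self, abs_zero]
      exact hN0
    -- the winding piece
    have c2 : √(κ' * r) / (14 * K ^ 3) - 2 * (N * c) ≤ cost E θ u p q := by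
      refine winding hW hK hN hφ hf hr hr' hl hκ (hθ.restrict hp.1 hq.1 hq.2) hlo hpy' hqy' ?_
      intro t ht
      constructor
      · rcases ht.1.lt_or_eq with h | h
        · exact (hplast t h (ht.2.trans hq.2)).le
        · rw [← h, hpy']
      · rcases ht.2.lt_or_eq with h | h
        · exact (hqfirst t ht.1 h).le
        · rw [h, hqy']
    -- the last piece
    have hq1 : a ≤ q := hp.1.trans hq.1
    obtain ⟨θ', u', T', l', hT', hθ', h0', hc', hν', hcost'⟩ :=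
      close hW hK hN1 hφ (hθ.restrict hq1 hq.2 le_rfl) (ν : ℤ)
        (by
          intro x hx
          refine hf x (y + 1) ?_ ?_
          · rw [hperf]; exact hlo
          · rw [← hqy']; exact hx)
        (by rw [hqy', hperf]; exact hlo)
        (by
          rw [hqy', hend, Int.cast_natCast]
          have : y + ((ν : ℝ) + 1) - (y + 1) - ν = 0 := by ring
          rw [this, abs_zero]
          exact hN0)
    have h3 := ih hT' hθ' hc' (by rw [hν', Int.cast_natCast])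
      (by rw [h0', hqy', hperf]; exact hlo)
    have hs1 := cost_add hE hθ hp.1 hp.2
    have hs2 := cost_add hE (hθ.restrict hp.1 hp.2 le_rfl) hq.1 hq.2
    have hG2 : √(κ' * r) / (14 * K ^ 3) = 2 * G := by rw [hGdef]; ring
    push_cast
    nlinarith [h3, c1, c2, hcost', hs1, hs2, hG, hG2]

private theorem vg_zv_neg (j : Fin n → ℤ) : (zv (-j) : Vec n) = -zv j := by
  ext i
  simp [zv]

private theorem vg_nj_neg (j : Fin n → ℤ) : nj (-j) = nj j := by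
  simp [nj]

private theorem vg_lev_neg (j : Fin n → ℤ) (m : ℤ) (θ : Vec n) (t : ℝ) :
    lev (-j) (-m) θ t = -lev j m θ t := by
  unfold lev
  rw [vg_zv_neg, inner_neg_left]
  push_cast
  ring

private theorem vg_neg {E : Vec n → Vec n → ℝ → ℝ} {j : Fin n → ℤ} {m : ℤ} {h : Vec n}
    {f : ℝ → ℝ} {κ₁ κ' C : ℝ} (hW : WD E j m h f κ₁ κ' C) :
    WD E (-j) (-m) h (fun x => f (-x)) κ₁ κ' C where
  E_cont := hW.E_cont
  E_perθ := hW.E_perθ
  E_pert := hW.E_pert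
  low := by
    intro θ u t
    have := hW.low θ u t
    rw [vg_lev_neg, neg_neg]
    exact this
  up := by
    intro θ u t
    have := hW.up θ u t
    rw [vg_lev_neg, neg_neg]
    exact this
  f_cont := hW.f_cont.comp continuous_neg
  f_per := by
    intro x
    have := hW.f_per (-(x + 1))
    rw [← this]
    congr 1
    ring
  res := by
    have := hW.res
    rw [vg_zv_neg, inner_neg_left]
    push_cast
    linarith
  j_ne := by
    intro h0
    exact hW.j_ne (by simpa using h0)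
  prim := by
    intro d h1 h2
    exact hW.prim d (by simpa using h1) fun a => by simpa using h2 a
  κ₁_pos := hW.κ₁_pos
  κ₁_le := hW.κ₁_le
  κ'_pos := hW.κ'_pos
  κ'_le := hW.κ'_le
  C_ge := hW.C_ge
  zero := by
    intro θ u a T l hT hθ hc h0
    refine hW.zero θ u a T l hT hθ hc ?_
    rw [vg_zv_neg, inner_neg_left] at h0
    push_cast at h0
    linarith

private theorem vg_wind_nonneg (n : ℕ) (κ' C : ℝ) : ∃ D : ℝ, ∃ p : ℕ, 1 ≤ D ∧
    ∀ {E : Vec n → Vec n → ℝ → ℝ} {j : Fin n → ℤ} {m : ℤ} {h : Vec n} {f : ℝ → ℝ}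
      {κ₁ K r : ℝ}, WD E j m h f κ₁ κ' C → nj j ≤ K → (∀ x y, f x - f y ≤ r) →
      (∃ x y, f x - f y = r) → (∀ x y, |f x - f y| ≤ 7 * K ^ 2 * r * |x - y|) →
      κ₁ * (D * K ^ p) ≤ r →
      ∀ (ν : ℕ) {θ u : ℝ → Vec n} {a : ℝ} {T : ℕ} {l : Fin n → ℤ}, 0 < T →
        TCv h θ u a (a + T) → θ (a + T) = θ a + zv l →
        (⟪zv j, zv l⟫ : ℝ) + m * T = ν →
        √(κ' * κ₁) / K * ν ≤ cost E θ u a (a + T) := by
  rcases le_or_gt κ' 0 with h0 | hκ'
  · refine ⟨1, 0, le_refl _, ?_⟩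
    intro E j m h f κ₁ K r hW
    exact absurd hW.κ'_pos (not_lt.mpr h0)
  rcases lt_or_ge C 1 with h0 | hC
  · refine ⟨1, 0, le_refl _, ?_⟩
    intro E j m h f κ₁ K r hW
    exact absurd hW.C_ge (not_le.mpr h0)
  have hC0 : 0 < C := lt_of_lt_of_le one_pos hC
  have hn0 : (0 : ℝ) ≤ n := by positivity
  set C₂ : ℝ := 7 * 672 ^ 2 * C / κ' with hC2
  have hC2pos : 0 < C₂ := by rw [hC2]; positivity
  set B : ℝ := (16 + 64 * n * C₂) * 84 with hB
  have hBpos : 0 < B := by rw [hB]; positivity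
  refine ⟨784 + B ^ 2 * C / κ', 28, ?_, ?_⟩
  · have : 0 ≤ B ^ 2 * C / κ' := by positivity
    linarith
  intro E j m h f κ₁ K r hW hK hr hr' hl hκ ν θ u a T l hT hθ hc hν
  have hK1 : 1 ≤ K := (vg_one_le_nj hW.j_ne).trans hK
  have hK0 : 0 < K := lt_of_lt_of_le one_pos hK1
  have hκ₁ := hW.κ₁_pos
  have hκle := hW.κ'_le
  have hrA : 784 * K ^ 28 * κ₁ ≤ r := by
    refine le_trans ?_ hκ
    have : 0 ≤ κ₁ * (B ^ 2 * C / κ' * K ^ 28) := by positivity
    nlinarith [this]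
  have hrB : B ^ 2 * C * κ₁ * K ^ 28 ≤ κ' * r := by
    have h1 : κ₁ * (B ^ 2 * C / κ' * K ^ 28) ≤ r := by
      refine le_trans ?_ hκ
      have : 0 ≤ κ₁ * (784 * K ^ 28) := by positivity
      nlinarith [this]
    have h2 := mul_le_mul_of_nonneg_left h1 hκ'.le
    have h3 : κ' * (κ₁ * (B ^ 2 * C / κ' * K ^ 28)) = B ^ 2 * C * κ₁ * K ^ 28 := by
      field_simp
    rw [← h3]; exact h2
  have hr0 : 0 < r := lt_of_lt_of_le (by positivity) hrA
  set N : ℕ := ⌈C₂ * K ^ 10⌉₊ with hNdef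
  have hK10 : 1 ≤ K ^ 10 := one_le_pow₀ hK1
  have hC2one : 1 ≤ C₂ := by
    rw [hC2, le_div_iff₀ hκ']
    nlinarith
  have hNl : C₂ * K ^ 10 ≤ N := Nat.le_ceil _
  have hCK : 1 ≤ C₂ * K ^ 10 := by nlinarith
  have hNu : (N : ℝ) ≤ 2 * (C₂ * K ^ 10) := by
    have := Nat.ceil_lt_add_one (show 0 ≤ C₂ * K ^ 10 by positivity)
    linarith
  have hN1 : (1 : ℝ) ≤ N := hCK.trans hNl
  have hN0 : (0 : ℝ) < N := by linarith
  have hNpos : 0 < N := by exact_mod_cast hN0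
  set φ : ℝ := 3 * κ₁ + 7 * K ^ 2 * r / N with hφd
  have hφ : 0 ≤ φ := by rw [hφd]; positivity
  have hf : ∀ x y, f y ≤ 3 * κ₁ → |x - y| ≤ 1 / N → f x ≤ φ := by
    intro x y h1 h2
    have h3 := hl x y
    have h4 : 7 * K ^ 2 * r * |x - y| ≤ 7 * K ^ 2 * r * (1 / N) :=
      mul_le_mul_of_nonneg_left h2 (by positivity)
    have h5 := le_abs_self (f x - f y)
    rw [hφd]
    have h6 : 7 * K ^ 2 * r * (1 / (N : ℝ)) = 7 * K ^ 2 * r / N := by ring
    linarith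
  -- square roots
  have ek1 : √(κ' * κ₁) = √κ' * √κ₁ := Real.sqrt_mul hκ'.le _
  have ek2 : √(κ' * r) = √κ' * √r := Real.sqrt_mul hκ'.le _
  have ek3 : √(C * κ₁) = √C * √κ₁ := Real.sqrt_mul hC0.le _
  have q1 : √κ' ^ 2 = κ' := Real.sq_sqrt hκ'.le
  have q2 : √κ₁ ^ 2 = κ₁ := Real.sq_sqrt hκ₁.le
  have q3 : √C ^ 2 = C := Real.sq_sqrt hC0.le
  have q4 : √r ^ 2 = r := Real.sq_sqrt hr0.le
  have p1 : 0 < √κ' := Real.sqrt_pos.mpr hκ'
  have p2 : 0 < √κ₁ := Real.sqrt_pos.mpr hκ₁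
  have p3 : 0 < √C := Real.sqrt_pos.mpr hC0
  have p4 : 0 < √r := Real.sqrt_pos.mpr hr0
  -- the second summand
  have hw : √(7 * K ^ 2 * r / N) ≤ √r * (√κ' / (672 * √C)) / K ^ 3 := by
    rw [Real.sqrt_le_left (by positivity)]
    have e1 : (√r * (√κ' / (672 * √C)) / K ^ 3) ^ 2 = r * κ' / (672 ^ 2 * C * K ^ 6) := by
      rw [div_pow, mul_pow, div_pow, mul_pow, q1, q3, q4]
      field_simp
    rw [e1]
    have e2 : 7 * K ^ 2 * r / N ≤ 7 * K ^ 2 * r / (C₂ * K ^ 10) := by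
      apply div_le_div_of_nonneg_left (by positivity) (by positivity) hNl
    have e3 : 7 * K ^ 2 * r / (C₂ * K ^ 10) = r * κ' / (672 ^ 2 * C * K ^ 8) := by
      rw [hC2]
      field_simp
    have e4 : r * κ' / (672 ^ 2 * C * K ^ 8) ≤ r * κ' / (672 ^ 2 * C * K ^ 6) := by
      apply div_le_div_of_nonneg_left (by positivity) (by positivity)
      have : K ^ 6 ≤ K ^ 8 := pow_le_pow_right₀ hK1 (by norm_num)
      exact mul_le_mul_of_nonneg_left this (by positivity)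
    linarith
  have hsq : √(φ + κ₁) ≤ 2 * √κ₁ + √r * (√κ' / (672 * √C)) / K ^ 3 := by
    have e1 : φ + κ₁ = 4 * κ₁ + 7 * K ^ 2 * r / N := by rw [hφd]; ring
    have e2 : √(4 * κ₁ + 7 * K ^ 2 * r / N) ≤ √(4 * κ₁) + √(7 * K ^ 2 * r / N) := by
      apply Real.sqrt_le_iff.mpr
      refine ⟨by positivity, ?_⟩
      have e3 : √(4 * κ₁) ^ 2 = 4 * κ₁ := Real.sq_sqrt (by positivity)
      have e4 : √(7 * K ^ 2 * r / N) ^ 2 = 7 * K ^ 2 * r / N := Real.sq_sqrt (by positivity)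
      have e5 : 0 ≤ √(4 * κ₁) * √(7 * K ^ 2 * r / N) := by positivity
      nlinarith
    have e3 : √(4 * κ₁) = 2 * √κ₁ := by
      rw [show 4 * κ₁ = 2 ^ 2 * κ₁ by ring, Real.sqrt_mul (by norm_num),
        Real.sqrt_sq (by norm_num)]
    rw [e1]
    linarith
  have hBs : B * √C * √κ₁ * K ^ 14 ≤ √κ' * √r := by
    apply abs_le_of_sq_le_sq' _ (by positivity) |>.2
    have e1 : (B * √C * √κ₁ * K ^ 14) ^ 2 = B ^ 2 * C * κ₁ * K ^ 28 := by
      rw [mul_pow, mul_pow, mul_pow, q2, q3]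
      ring
    have e2 : (√κ' * √r) ^ 2 = κ' * r := by rw [mul_pow, q1, q4]
    rw [e1, e2]
    exact hrB
  have hG : (2 * N + 2) * cm n κ₁ C K N φ ≤ √(κ' * r) / (14 * K ^ 3) / 2 := by
    have cm0 : 0 ≤ cm n κ₁ C K N φ := by unfold cm; positivity
    have e1 : (2 * N + 2) * cm n κ₁ C K N φ ≤ 4 * N * cm n κ₁ C K N φ :=
      mul_le_mul_of_nonneg_right (by linarith) cm0
    have e2 : 4 * N * cm n κ₁ C K N φ = 8 * √C * √(φ + κ₁) + 32 * n * K * N * √C * √κ₁ := by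
      unfold cm
      rw [ek3]
      field_simp
      ring
    have e3 : 8 * √C * √(φ + κ₁) ≤
        8 * √C * (2 * √κ₁ + √r * (√κ' / (672 * √C)) / K ^ 3) :=
      mul_le_mul_of_nonneg_left hsq (by positivity)
    have e4 : 8 * √C * (2 * √κ₁ + √r * (√κ' / (672 * √C)) / K ^ 3) =
        16 * √C * √κ₁ + √κ' * √r / (84 * K ^ 3) := by
      field_simp
      ring
    have e5 : 32 * n * K * N * √C * √κ₁ ≤ 64 * n * C₂ * K ^ 11 * √C * √κ₁ := by
      have : 32 * n * K * √C * √κ₁ * N ≤ 32 * n * K * √C * √κ₁ * (2 * (C₂ * K ^ 10)) :=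
        mul_le_mul_of_nonneg_left hNu (by positivity)
      calc 32 * n * K * N * √C * √κ₁ = 32 * n * K * √C * √κ₁ * N := by ring
        _ ≤ _ := this
        _ = _ := by ring
    have e6 : 16 * √C * √κ₁ ≤ 16 * K ^ 11 * √C * √κ₁ := by
      have h11 : 1 ≤ K ^ 11 := one_le_pow₀ hK1
      have : 16 * √C * √κ₁ * 1 ≤ 16 * √C * √κ₁ * K ^ 11 :=
        mul_le_mul_of_nonneg_left h11 (by positivity)
      nlinarith
    have e7 : 16 * K ^ 11 * √C * √κ₁ + 64 * n * C₂ * K ^ 11 * √C * √κ₁ ≤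
        √κ' * √r / (84 * K ^ 3) := by
      rw [le_div_iff₀ (by positivity)]
      calc (16 * K ^ 11 * √C * √κ₁ + 64 * n * C₂ * K ^ 11 * √C * √κ₁) * (84 * K ^ 3) =
          B * √C * √κ₁ * K ^ 14 := by rw [hB]; ring
        _ ≤ _ := hBs
    have e8 : √(κ' * r) / (14 * K ^ 3) / 2 = 3 * (√κ' * √r / (84 * K ^ 3)) := by
      rw [ek2]
      field_simp
      ring
    have e9 : 0 ≤ √κ' * √r / (84 * K ^ 3) := by positivity
    rw [e8]
    linarith
  have hκ16 : 16 * κ₁ ≤ r := by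
    have : 1 ≤ K ^ 28 := one_le_pow₀ hK1
    nlinarith
  have hfin : √(κ' * κ₁) / K * ν ≤ ν * (√(κ' * r) / (14 * K ^ 3) / 2) := by
    have e1 : 28 * K ^ 2 * √κ₁ ≤ √r := by
      apply abs_le_of_sq_le_sq' _ p4.le |>.2
      rw [q4, mul_pow, mul_pow, q2]
      have : K ^ 4 ≤ K ^ 28 := pow_le_pow_right₀ hK1 (by norm_num)
      have h2 : 784 * K ^ 4 * κ₁ ≤ 784 * K ^ 28 * κ₁ := by
        apply mul_le_mul_of_nonneg_right _ hκ₁.le
        linarith
      calc 28 ^ 2 * (K ^ 2) ^ 2 * κ₁ = 784 * K ^ 4 * κ₁ := by ring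
        _ ≤ r := h2.trans hrA
    have e2 : √(κ' * κ₁) / K ≤ √(κ' * r) / (14 * K ^ 3) / 2 := by
      rw [ek1, ek2, div_div, div_le_div_iff₀ hK0 (by positivity)]
      have e3 : √κ' * K * (28 * K ^ 2 * √κ₁) ≤ √κ' * K * √r :=
        mul_le_mul_of_nonneg_left e1 (by positivity)
      calc √κ' * √κ₁ * (14 * K ^ 3 * 2) = √κ' * K * (28 * K ^ 2 * √κ₁) := by ring
        _ ≤ _ := e3
        _ = _ := by ring
    have hν0 : (0 : ℝ) ≤ ν := by positivity
    have := mul_le_mul_of_nonneg_left e2 hν0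
    linarith
  by_cases hlo : ∀ t ∈ Icc a (a + T), 3 * κ₁ ≤ f (lev j m (θ t) t)
  · have h1 := free hW hK hθ hlo
    rw [vg_lev_end hc, hν, add_sub_cancel_left, abs_of_nonneg (by positivity)] at h1
    exact h1
  · push Not at hlo
    obtain ⟨t, ht, hft⟩ := hlo
    obtain ⟨θ', u', hθ', h0', hc', hcost'⟩ :=
      exists_rot hW.E_cont hW.E_perθ hW.E_pert hθ hc ht
    have := wind_pos hW hK hNpos hφ hf hr hr' hl hκ16 hG ν hT hθ' hc' hν
      (by rw [h0']; exact hft.le)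
    rw [hcost'] at this
    exact hfin.trans this

theorem wind (n : ℕ) (κ' C : ℝ) : ∃ D : ℝ, ∃ p : ℕ, 1 ≤ D ∧
    ∀ {E : Vec n → Vec n → ℝ → ℝ} {j : Fin n → ℤ} {m : ℤ} {h : Vec n} {f : ℝ → ℝ}
      {κ₁ K r : ℝ}, WD E j m h f κ₁ κ' C → nj j ≤ K → (∀ x y, f x - f y ≤ r) →
      (∃ x y, f x - f y = r) → (∀ x y, |f x - f y| ≤ 7 * K ^ 2 * r * |x - y|) →
      κ₁ * (D * K ^ p) ≤ r →
      ∀ (θ u : ℝ → Vec n) (a : ℝ) (T : ℕ) (l : Fin n → ℤ), 0 < T → TCv h θ u a (a + T) →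
        θ (a + T) = θ a + zv l →
        √(κ' * κ₁) / K * |(⟪zv j, zv l⟫ : ℝ) + m * T| ≤ cost E θ u a (a + T) := by
  obtain ⟨D, p, hD, hmain⟩ := vg_wind_nonneg n κ' C
  refine ⟨D, p, hD, ?_⟩
  intro E j m h f κ₁ K r hW hK hr hr' hl hκ θ u a T l hT hθ hc
  have hint : ∃ ν : ℤ, (⟪zv j, zv l⟫ : ℝ) + m * T = ν := by
    refine ⟨∑ b, j b * l b + m * T, ?_⟩
    rw [inner_zv]
    push_cast
    ring
  obtain ⟨ν, hν⟩ := hint
  rcases le_or_gt 0 ν with h0 | h0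
  · obtain ⟨k, rfl⟩ := Int.eq_ofNat_of_zero_le h0
    have hk : (⟪zv j, zv l⟫ : ℝ) + m * T = (k : ℝ) := by rw [hν]; simp
    rw [hk, abs_of_nonneg (by positivity : (0 : ℝ) ≤ (k : ℝ))]
    exact hmain hW hK hr hr' hl hκ k hT hθ hc hk
  · obtain ⟨k, hk⟩ := Int.eq_ofNat_of_zero_le (show 0 ≤ -ν by omega)
    have hk' : (⟪zv (-j), zv l⟫ : ℝ) + ((-m : ℤ) : ℝ) * T = (k : ℝ) := by
      rw [vg_zv_neg, inner_neg_left]
      have : (-ν : ℝ) = k := by exact_mod_cast hk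
      push_cast
      rw [← this, ← hν]
      ring
    have hk2 : (⟪zv j, zv l⟫ : ℝ) + m * T = -(k : ℝ) := by
      have : (-ν : ℝ) = k := by exact_mod_cast hk
      rw [hν, ← this]
      ring
    rw [hk2, abs_neg, abs_of_nonneg (by positivity : (0 : ℝ) ≤ (k : ℝ))]
    refine hmain (vg_neg hW) (by rw [vg_nj_neg]; exact hK) (fun x y => hr (-x) (-y)) ?_ ?_ hκ k
      hT hθ hc hk'
    · obtain ⟨x, y, hxy⟩ := hr'
      exact ⟨-x, -y, by simpa using hxy⟩
    · intro x y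
      have := hl (-x) (-y)
      rwa [show |(-x) - (-y)| = |x - y| by rw [← abs_neg]; congr 1; ring] at this

end Pool.Agent.LRig
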