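import Pool.Agent.LRig.VA

/-!
# LR (MP_74f563_an, all n), file VH: from a leaf to the data of the wind theorem (bounds)

`EE` is the Lagrangian in the coordinates of the leaf, with the exact parts removed.

PROOF of `EE_bounds`.  Let `X = X (t, θ)`, `v = X_t + X_θ (h + u) = fderiv X (1, h + u)
= fderiv X (1, h) + fderiv X (0, u)`, `e = fderiv X (1, h) - Hp X Q t`, `‖e‖ ≤ κ`, `w = fderiv X
(0, u)`,
`¾ ‖u‖ ≤ ‖w‖ ≤ (5/4) ‖u‖` (`near`), `v - Hp = e + w`.  With `x = lev j m θ t`: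
`⟪Q, v⟫ - H = [⟪Q, fderiv X (1,h)⟫ - H] + ⟪Q, w⟫`
`= Λ + Rb x + W_t + W_θ h + O(κ²) + W_θ u + ⟪c, u⟫ + O(κ ‖u‖)`
(`act`, `graph`), so `⟪Q, v⟫ - H - ⟪c, h + u⟫ - fderiv W (1, h + u) + A = f x + O(κ² + κ ‖u‖)`,
`f x = Λ - ⟪c, h⟫ + A + Rb x`.  `Wei`: `lf L X v t - (⟪Q, v⟫ - H)` is between `a₀ ‖e + w‖²` and
`a₁ ‖e + w‖²`.
Lower bound: `‖e + w‖² ≥ ½ ‖w‖² - ‖e‖² ≥ (9/32) ‖u‖² - κ²`, `κ ‖u‖ ≤ (a₀/32) ‖u‖² + 8 κ²/a₀`, so
`EE ≥ f x + (a₀/4) ‖u‖² - (1 + a₀ + 8/a₀) κ²`.  Upper bound: `‖e + w‖² ≤ 2κ² + (25/8) ‖u‖²`,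
`κ ‖u‖ ≤ κ² + ‖u‖²`, so `EE ≤ f x + (4 a₁ + 1) ‖u‖² + (2 + 2 a₁) κ²`.  Constants
`κ' = min (a₀/4) 1`,
`C = 4 a₁ + 1` (`a₁ ≥ 0` follows from `Wei`; take `max`), `κ₁ = c₁ κ²`,
`c₁ = 3 + a₀ + 8/a₀ + 2 |a₁|`.
`EE_cont`: `lf L` is continuous (hypothesis `hL`), `X`, `W` are `C¹`.
`EE_per`: the derivative of a periodic function is periodic; `lf L` is periodic.
-/

set_option autoImplicit false

namespace Pool.Agent.LRig

open Set MeasureTheory Pool.Agent.MechAlpha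
open scoped RealInnerProductSpace ContDiff

variable {n : ℕ}

/-- the Lagrangian in the coordinates of the leaf -/
noncomputable def EE (L : Torus n → Vec n → UnitAddCircle → ℝ) (h c : Vec n) (A : ℝ)
    (X : ℝ × Vec n → Vec n) (W : ℝ × Vec n → ℝ) (θ u : Vec n) (t : ℝ) : ℝ :=
  lf L (X (t, θ)) (fderiv ℝ X (t, θ) (1, h + u)) t - ⟪c, h + u⟫ -
    fderiv ℝ W (t, θ) (1, h + u) + A

private theorem proj_zv (x : Vec n) (l : Fin n → ℤ) : proj (x + zv l) = proj x := by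
  funext i
  simp only [proj, zv, PiLp.add_apply]
  rw [AddCircle.coe_add]
  have h1 : (((l i : ℤ) : ℝ) : UnitAddCircle) = 0 := by
    rw [AddCircle.coe_eq_zero_iff]
    exact ⟨l i, by simp⟩
  rw [h1, add_zero]

theorem lf_per (L : Torus n → Vec n → UnitAddCircle → ℝ) (x v : Vec n) (t : ℝ)
    (l : Fin n → ℤ) : lf L (x + zv l) v t = lf L x v t := by
  unfold lf
  rw [proj_zv]

theorem lf_pert (L : Torus n → Vec n → UnitAddCircle → ℝ) (x v : Vec n) (t : ℝ) :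
    lf L x v (t + 1) = lf L x v t := by
  unfold lf
  rw [AddCircle.coe_add_period]

private theorem arith_low {a₀ E Wn U Z κ P1 P2 P3 : ℝ} (ha : 0 < a₀) (hE : E ≤ κ)
    (hE0 : 0 ≤ E) (hW : 3 / 4 * U ≤ Wn) (hU : 0 ≤ U) (hZ : Wn ≤ Z + E)
    (hZ0 : 0 ≤ Z) (h1 : a₀ * Z ^ 2 ≤ P1) (h2 : |P2| ≤ κ ^ 2) (h3 : |P3| ≤ κ * U) :
    a₀ / 4 * U ^ 2 - (1 + a₀ + 8 / a₀) * κ ^ 2 ≤ P1 + P2 + P3 := by
  have hκ : 0 ≤ κ := hE0.trans hE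
  have e1 : Wn ^ 2 ≤ 2 * Z ^ 2 + 2 * E ^ 2 := by
    have h4 : 0 ≤ Wn := le_trans (by positivity) hW
    nlinarith [sq_nonneg (Z - E), mul_self_le_mul_self h4 hZ]
  have e2 : E ^ 2 ≤ κ ^ 2 := by nlinarith
  have e3 : 9 / 16 * U ^ 2 ≤ Wn ^ 2 := by nlinarith
  have e4 : 9 / 32 * U ^ 2 - κ ^ 2 ≤ Z ^ 2 := by nlinarith
  have e5 : a₀ * (9 / 32 * U ^ 2 - κ ^ 2) ≤ a₀ * Z ^ 2 := mul_le_mul_of_nonneg_left e4 ha.le
  have e6 : κ * U ≤ a₀ / 32 * U ^ 2 + 8 / a₀ * κ ^ 2 := by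
    have h5 : 0 ≤ (a₀ * U - 16 * κ) ^ 2 / (32 * a₀) := by positivity
    have h6 : (a₀ * U - 16 * κ) ^ 2 / (32 * a₀) =
        a₀ / 32 * U ^ 2 + 8 / a₀ * κ ^ 2 - κ * U := by
      field_simp
      ring
    linarith
  have e7 := (abs_le.1 h2).1
  have e8 := (abs_le.1 h3).1
  nlinarith

private theorem arith_up {a₁ E Wn U Z κ P1 P2 P3 : ℝ} (hE : E ≤ κ)
    (hE0 : 0 ≤ E) (hW : Wn ≤ 5 / 4 * U) (hW0 : 0 ≤ Wn) (hZ : Z ≤ E + Wn)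
    (hZ0 : 0 ≤ Z) (h1 : P1 ≤ a₁ * Z ^ 2) (h2 : |P2| ≤ κ ^ 2) (h3 : |P3| ≤ κ * U) :
    P1 + P2 + P3 ≤ (2 + 2 * |a₁|) * κ ^ 2 + (4 * |a₁| + 1) * U ^ 2 := by
  have hκ : 0 ≤ κ := hE0.trans hE
  have e1 : Z ^ 2 ≤ 2 * E ^ 2 + 2 * Wn ^ 2 := by
    nlinarith [sq_nonneg (E - Wn), mul_self_le_mul_self hZ0 hZ]
  have e2 : E ^ 2 ≤ κ ^ 2 := by nlinarith
  have e3 : Wn ^ 2 ≤ 25 / 16 * U ^ 2 := by nlinarith
  have e4 : Z ^ 2 ≤ 2 * κ ^ 2 + 4 * U ^ 2 := by nlinarith [sq_nonneg U]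
  have e5 : a₁ * Z ^ 2 ≤ |a₁| * (2 * κ ^ 2 + 4 * U ^ 2) :=
    (mul_le_mul_of_nonneg_right (le_abs_self a₁) (sq_nonneg Z)).trans
      (mul_le_mul_of_nonneg_left e4 (abs_nonneg a₁))
  have e6 : κ * U ≤ κ ^ 2 + U ^ 2 := by nlinarith [sq_nonneg (κ - U), sq_nonneg κ, sq_nonneg U]
  have e7 := (abs_le.1 h2).2
  have e8 := (abs_le.1 h3).2
  nlinarith

theorem EE_bounds (a₀ a₁ : ℝ) (ha : 0 < a₀) : ∃ c₁ κ' C : ℝ, 1 ≤ c₁ ∧ 0 < κ' ∧ κ' ≤ 1 ∧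
    1 ≤ C ∧ ∀ {L : Torus n → Vec n → UnitAddCircle → ℝ} {H : Vec n → Vec n → ℝ → ℝ}
      {Hp : Vec n → Vec n → ℝ → Vec n} {h c : Vec n} {Λ : ℝ} {j : Fin n → ℤ} {m : ℤ}
      {Rb : ℝ → ℝ} {κ : ℝ} {X Q : ℝ × Vec n → Vec n} {W : ℝ × Vec n → ℝ},
      Wei L H Hp a₀ a₁ → Leaf H Hp h c Λ j m Rb κ X Q W → 0 ≤ κ →
      ∀ (A : ℝ) (θ u : Vec n) (t : ℝ),
        (Λ - ⟪c, h⟫ + A + Rb (lev j m θ t)) - c₁ * κ ^ 2 + κ' * ‖u‖ ^ 2 ≤
          EE L h c A X W θ u t ∧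
        EE L h c A X W θ u t ≤
          (Λ - ⟪c, h⟫ + A + Rb (lev j m θ t)) + c₁ * κ ^ 2 + C * ‖u‖ ^ 2 := by
  have h8 : 0 < 8 / a₀ := by positivity
  refine ⟨3 + a₀ + 8 / a₀ + 2 * |a₁|, min (a₀ / 4) 1, 4 * |a₁| + 1, ?_,
    lt_min (by positivity) one_pos, min_le_right _ _, ?_, ?_⟩
  · have := abs_nonneg a₁
    linarith
  · have := abs_nonneg a₁
    linarith
  intro L H Hp h c Λ j m Rb κ X Q W hw hf hκ A θ u t
  have hsplit : ((1 : ℝ), h + u) = ((1 : ℝ), h) + ((0 : ℝ), u) := by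
    rw [Prod.mk_add_mk, add_zero]
  have hX : fderiv ℝ X (t, θ) (1, h + u) =
      fderiv ℝ X (t, θ) (1, h) + fderiv ℝ X (t, θ) (0, u) := by
    rw [hsplit, map_add]
  have hW : fderiv ℝ W (t, θ) (1, h + u) =
      fderiv ℝ W (t, θ) (1, h) + fderiv ℝ W (t, θ) (0, u) := by
    rw [hsplit, map_add]
  set v1 : Vec n := fderiv ℝ X (t, θ) (1, h) with hv1
  set w : Vec n := fderiv ℝ X (t, θ) (0, u) with hw1
  set e : Vec n := v1 - Hp (X (t, θ)) (Q (t, θ)) t with he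
  have n1 : ‖e‖ ≤ κ := hf.e1 t θ
  have n2 : ‖w - u‖ ≤ ‖u‖ / 4 := hf.near t θ u
  have n3 : ‖u‖ ≤ ‖w‖ + ‖w - u‖ := by
    have h5 : u = w - (w - u) := by abel
    calc ‖u‖ = ‖w - (w - u)‖ := by rw [← h5]
      _ ≤ ‖w‖ + ‖w - u‖ := norm_sub_le _ _
  have n4 : ‖w‖ ≤ ‖u‖ + ‖w - u‖ := by
    have h5 : w = u + (w - u) := by abel
    calc ‖w‖ = ‖u + (w - u)‖ := by rw [← h5]
      _ ≤ ‖u‖ + ‖w - u‖ := norm_add_le _ _
  have n5 : ‖w‖ ≤ ‖e + w‖ + ‖e‖ := by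
    have h5 : w = (e + w) - e := by abel
    calc ‖w‖ = ‖(e + w) - e‖ := by rw [← h5]
      _ ≤ ‖e + w‖ + ‖e‖ := norm_sub_le _ _
  have n6 : ‖e + w‖ ≤ ‖e‖ + ‖w‖ := norm_add_le _ _
  obtain ⟨w1, w2⟩ := hw (X (t, θ)) (Q (t, θ)) (v1 + w) t
  have n7 : v1 + w - Hp (X (t, θ)) (Q (t, θ)) t = e + w := by
    rw [he]
    abel
  rw [n7] at w1 w2
  have g1 := hf.graph t θ u
  have g2 := hf.act t θ
  rw [← hw1] at g1
  rw [← hv1] at g2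
  set P1 : ℝ := lf L (X (t, θ)) (v1 + w) t - (⟪Q (t, θ), v1 + w⟫ - H (X (t, θ)) (Q (t, θ)) t)
    with hP1
  set P2 : ℝ := ⟪Q (t, θ), v1⟫ - H (X (t, θ)) (Q (t, θ)) t -
    (Λ + Rb (lev j m θ t) + fderiv ℝ W (t, θ) (1, h)) with hP2
  set P3 : ℝ := ⟪Q (t, θ), w⟫ - (fderiv ℝ W (t, θ) (0, u) + ⟪c, u⟫) with hP3
  have g3 : |P3| ≤ κ * ‖u‖ := by
    rw [hP3, abs_sub_comm]
    exact g1
  have key : EE L h c A X W θ u t = (Λ - ⟪c, h⟫ + A + Rb (lev j m θ t)) + (P1 + P2 + P3) := by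
    unfold EE
    rw [hX, hW, hP1, hP2, hP3, inner_add_right, inner_add_right]
    ring
  have q1 := arith_low ha n1 (norm_nonneg e) (by linarith : 3 / 4 * ‖u‖ ≤ ‖w‖) (norm_nonneg u)
    n5 (norm_nonneg _) w1 g2 g3
  have q2 := arith_up n1 (norm_nonneg e) (by linarith : ‖w‖ ≤ 5 / 4 * ‖u‖) (norm_nonneg w)
    n6 (norm_nonneg _) w2 g2 g3
  have q3 : min (a₀ / 4) 1 * ‖u‖ ^ 2 ≤ a₀ / 4 * ‖u‖ ^ 2 :=
    mul_le_mul_of_nonneg_right (min_le_left _ _) (sq_nonneg _)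
  have q4 : 0 ≤ (2 + 2 * |a₁|) * κ ^ 2 := by positivity
  have q5 : 0 ≤ (1 + a₀ + 8 / a₀) * κ ^ 2 := by positivity
  rw [key]
  constructor
  · nlinarith
  · nlinarith

theorem EE_cont {L : Torus n → Vec n → UnitAddCircle → ℝ} {H : Vec n → Vec n → ℝ → ℝ}
    {Hp : Vec n → Vec n → ℝ → Vec n} {h c : Vec n} {Λ : ℝ} {j : Fin n → ℤ} {m : ℤ}
    {Rb : ℝ → ℝ} {κ : ℝ} {X Q : ℝ × Vec n → Vec n} {W : ℝ × Vec n → ℝ}
    (hL : Continuous fun q : Vec n × Vec n × ℝ => lf L q.1 q.2.1 q.2.2)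
    (hf : Leaf H Hp h c Λ j m Rb κ X Q W) (A : ℝ) :
    Continuous fun q : Vec n × Vec n × ℝ => EE L h c A X W q.1 q.2.1 q.2.2 := by
  have hp : Continuous fun q : Vec n × Vec n × ℝ => (q.2.2, q.1) :=
    (continuous_snd.comp continuous_snd).prodMk continuous_fst
  have hu : Continuous fun q : Vec n × Vec n × ℝ => h + q.2.1 :=
    continuous_const.add (continuous_fst.comp continuous_snd)
  have hv : Continuous fun q : Vec n × Vec n × ℝ => ((1 : ℝ), h + q.2.1) :=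
    continuous_const.prodMk hu
  have h1 : Continuous fun q : Vec n × Vec n × ℝ =>
      fderiv ℝ X (q.2.2, q.1) (1, h + q.2.1) :=
    ((hf.X_c1.continuous_fderiv one_ne_zero).comp hp).clm_apply hv
  have h2 : Continuous fun q : Vec n × Vec n × ℝ =>
      fderiv ℝ W (q.2.2, q.1) (1, h + q.2.1) :=
    ((hf.W_c1.continuous_fderiv one_ne_zero).comp hp).clm_apply hv
  have h3 : Continuous fun q : Vec n × Vec n × ℝ => X (q.2.2, q.1) :=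
    hf.X_c1.continuous.comp hp
  have h4 : Continuous fun q : Vec n × Vec n × ℝ =>
      lf L (X (q.2.2, q.1)) (fderiv ℝ X (q.2.2, q.1) (1, h + q.2.1)) q.2.2 :=
    hL.comp (h3.prodMk (h1.prodMk (continuous_snd.comp continuous_snd)))
  unfold EE
  exact ((h4.sub (continuous_const.inner hu)).sub h2).add continuous_const

private theorem fderiv_shift {F : Type*} [NormedAddCommGroup F] [NormedSpace ℝ F]
    {X : ℝ × Vec n → F} {a : ℝ × Vec n} {b : F} (h : ∀ p, X (p + a) = X p + b)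
    (p : ℝ × Vec n) : fderiv ℝ X (p + a) = fderiv ℝ X p := by
  have h1 : (fun q => X (q + a)) = fun q => X q + b := funext h
  have h2 : fderiv ℝ (fun q => X (q + a)) p = fderiv ℝ X (p + a) := fderiv_comp_add_right a
  have h3 : fderiv ℝ (fun q => X q + b) p = fderiv ℝ X p := fderiv_add_const b
  rw [← h2, h1, h3]

theorem EE_per {L : Torus n → Vec n → UnitAddCircle → ℝ} {H : Vec n → Vec n → ℝ → ℝ}
    {Hp : Vec n → Vec n → ℝ → Vec n} {h c : Vec n} {Λ : ℝ} {j : Fin n → ℤ} {m : ℤ}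
    {Rb : ℝ → ℝ} {κ : ℝ} {X Q : ℝ × Vec n → Vec n} {W : ℝ × Vec n → ℝ}
    (hf : Leaf H Hp h c Λ j m Rb κ X Q W) (A : ℝ) (θ u : Vec n) (t : ℝ) :
    (∀ l : Fin n → ℤ, EE L h c A X W (θ + zv l) u t = EE L h c A X W θ u t) ∧
      EE L h c A X W θ u (t + 1) = EE L h c A X W θ u t := by
  have hX1 : ∀ l : Fin n → ℤ, fderiv ℝ X (t, θ + zv l) = fderiv ℝ X (t, θ) := by
    intro l
    have h1 := fderiv_shift (X := X) (a := ((0 : ℝ), zv l)) (b := zv l)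
      (fun p => by
        obtain ⟨s, y⟩ := p
        rw [Prod.mk_add_mk, add_zero]
        exact hf.X_per s y l) (t, θ)
    rwa [Prod.mk_add_mk, add_zero] at h1
  have hW1 : ∀ l : Fin n → ℤ, fderiv ℝ W (t, θ + zv l) = fderiv ℝ W (t, θ) := by
    intro l
    have h1 := fderiv_shift (X := W) (a := ((0 : ℝ), zv l)) (b := 0)
      (fun p => by
        obtain ⟨s, y⟩ := p
        rw [Prod.mk_add_mk, add_zero, add_zero]
        exact hf.W_per s y l) (t, θ)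
    rwa [Prod.mk_add_mk, add_zero] at h1
  have hX2 : fderiv ℝ X (t + 1, θ) = fderiv ℝ X (t, θ) := by
    have h1 := fderiv_shift (X := X) (a := ((1 : ℝ), (0 : Vec n))) (b := 0)
      (fun p => by
        obtain ⟨s, y⟩ := p
        rw [Prod.mk_add_mk, add_zero, add_zero]
        exact hf.X_pert s y) (t, θ)
    rwa [Prod.mk_add_mk, add_zero] at h1
  have hW2 : fderiv ℝ W (t + 1, θ) = fderiv ℝ W (t, θ) := by
    have h1 := fderiv_shift (X := W) (a := ((1 : ℝ), (0 : Vec n))) (b := 0)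
      (fun p => by
        obtain ⟨s, y⟩ := p
        rw [Prod.mk_add_mk, add_zero, add_zero]
        exact hf.W_pert s y) (t, θ)
    rwa [Prod.mk_add_mk, add_zero] at h1
  refine ⟨fun l => ?_, ?_⟩
  · unfold EE
    rw [hX1 l, hW1 l, hf.X_per t θ l, lf_per]
  · unfold EE
    rw [hX2, hW2, hf.X_pert t θ, lf_pert]

end Pool.Agent.LRig
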