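import Pool.Agent.LRig.VK

/-!
# LR (MP_74f563_an, all n), file VL: solutions of the Euler-Lagrange equation

`γ` solution: `p s = lv L (γ s) (γ' s) s` has the derivative `lx L (γ t) (γ' t) t` (`IsEL`).

PROOFS.  `el_cont`: `p` is continuous, so by `lv_mono` `γ'` is continuous:
`(a/2) ‖γ'(s) - γ'(t)‖² ≤ (lv L (γ s) (γ' s) s - lv L (γ s) (γ' t) s)(γ' s - γ' t)
≤ (‖p s - p t‖ + ‖p t - lv L (γ s) (γ' t) s‖) ‖γ' s - γ' t‖`, and the last norm tends to `0` for `s
→ t`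
(`lv_cont`, `γ` continuous).
`el_close`: let `e = γ₂ - γ₁`, `e(t₀) = 0`, `w = e'` (continuous), `Ξ` the maximum of `‖w‖` on the
interval
between `t₀` and `t₁`, `|t₁ - t₀| ≤ 1`.  Then `‖e‖ ≤ Ξ` there.  By `lv_diff` at the times `t` and
`t₀`
(where `e = 0`), for every `z`:
`⟪S (w t - w t₀), S z⟫ = (Δp t - Δp t₀) z + O(m (2Ξ + Ξ) ‖z‖)`, `Δp = p₂ - p₁`, and
`Δp t - Δp t₀ = ∫ (lx₂ - lx₁)` of norm at most `2 m Ξ` (`lx_diff`; mean value inequality for `Δp`).
With `z = w t - w t₀`: `a ‖z‖² ≤ 5 m Ξ ‖z‖`, `‖w t - w t₀‖ ≤ (5/64) Ξ` (`64 m ≤ a`), so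
`Ξ ≤ (64/59) ‖w t₀‖` and `‖w t - w t₀‖ ≤ (5/59) ‖w t₀‖ ≤ ‖w t₀‖/4`.  Integrate for the second bound.
`el_unique`: by `el_close` two solutions with the same data at `t₀` agree on `[t₀ - 1, t₀ + 1]`
together
with their velocities; induction: everywhere.
`el_vel`: `‖γ' t - γ' t₀‖ ≤ 1` for `|t - t₀| ≤ 1`: by `lv_diff'` (`2m`) and `‖p t - p t₀‖ ≤ m`:
`a ‖z‖² ≤ 3 m ‖z‖` with `z = γ' t - γ' t₀`.  So (mean value inequality)
`‖γ' t - (γ (t₀+1) - γ t₀)‖ ≤ 2` on `[t₀, t₀+1]`.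
`el_shift`: `lf L` has period `1` in `t` and in `x`; translation of the solution.
`exists_arc`: the solutions `γ_v` with `γ_v t₀ = x`, `γ_v' t₀ = v` exist for every `v`
(`IsELFlow.orbit`); `F v = γ_v (t₀+1) - x - v` is `1/4`-Lipschitz by `el_close`; `v ↦ y - x - F v`
is a
contraction, its fixed point gives the arc (`ContractingWith.exists_fixedPoint` or `efixedPoint`).
-/

set_option autoImplicit false

namespace Pool.Agent.LRig

open Set MeasureTheory Pool.Agent.MechAlpha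
open scoped RealInnerProductSpace ContDiff

variable {n : ℕ} {S : Vec n ≃L[ℝ] Vec n} {a m : ℝ} {P : Vec n × Vec n × ℝ → ℝ}
  {L : Torus n → Vec n → UnitAddCircle → ℝ} {φ : ℝ → Phase n → Phase n} {γ γ₁ γ₂ : ℝ → Vec n}

private theorem vl_mom (h : IsEL L γ) (t : ℝ) :
    HasDerivAt (fun s => lv L (γ s) (deriv γ s) s) (lx L (γ t) (deriv γ t) t) t := h.2 t

private theorem vl_mom_cont (h : IsEL L γ) : Continuous fun s => lv L (γ s) (deriv γ s) s :=
  continuous_iff_continuousAt.mpr fun t => (vl_mom h t).continuousAt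

private theorem vl_of_quad (hN : NF S a m P L) {z : Vec n} {M : ℝ} (hM : 0 ≤ M)
    (h : ⟪S z, S z⟫ ≤ M * ‖z‖) : a * ‖z‖ ≤ M := by
  have h1 := hN.low z
  rw [real_inner_self_eq_norm_sq] at h
  have h2 : a * ‖z‖ ^ 2 ≤ M * ‖z‖ := h1.trans h
  rcases (norm_nonneg z).eq_or_lt with h0 | h0
  · rw [← h0, mul_zero]
    exact hM
  · by_contra hc
    push Not at hc
    nlinarith

private theorem vl_mv {f f' : ℝ → Vec n} {s t M : ℝ} (hf : ∀ r ∈ uIcc s t, HasDerivAt f (f' r) r)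
    (hb : ∀ r ∈ uIcc s t, ‖f' r‖ ≤ M) : ‖f t - f s‖ ≤ M * |t - s| := by
  have := (convex_uIcc s t).norm_image_sub_le_of_norm_hasDerivWithin_le
    (fun r hr => (hf r hr).hasDerivWithinAt) hb left_mem_uIcc right_mem_uIcc
  rwa [Real.norm_eq_abs] at this

private theorem vl_mv' {f f' : ℝ → (Vec n →L[ℝ] ℝ)} {s t M : ℝ}
    (hf : ∀ r ∈ uIcc s t, HasDerivAt f (f' r) r)
    (hb : ∀ r ∈ uIcc s t, ‖f' r‖ ≤ M) : ‖f t - f s‖ ≤ M * |t - s| := by
  have := (convex_uIcc s t).norm_image_sub_le_of_norm_hasDerivWithin_le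
    (fun r hr => (hf r hr).hasDerivWithinAt) hb left_mem_uIcc right_mem_uIcc
  rwa [Real.norm_eq_abs] at this

private theorem vl_proj (x : Vec n) (l : Fin n → ℤ) : proj (x + zv l) = proj x := by
  funext i
  unfold proj zv
  simp only [PiLp.add_apply, AddCircle.coe_add]
  have h : (((l i : ℤ) : ℝ) : UnitAddCircle) = 0 := by
    rw [AddCircle.coe_eq_zero_iff]
    exact ⟨l i, by simp⟩
  rw [h, add_zero]

private theorem vl_circle (t : ℝ) (k : ℤ) :
    ((t - k : ℝ) : UnitAddCircle) = (t : UnitAddCircle) := by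
  rw [AddCircle.coe_sub]
  have h : (((k : ℤ) : ℝ) : UnitAddCircle) = 0 := by
    rw [AddCircle.coe_eq_zero_iff]
    exact ⟨k, by simp⟩
  rw [h, sub_zero]

theorem el_cont (hN : NF S a m P L) (h : IsEL L γ) : Continuous (deriv γ) := by
  rw [continuous_iff_continuousAt]
  intro t
  have ha := hN.a_pos
  have hγ : Continuous γ := h.1.continuous
  have hc1 : Continuous fun s => lv L (γ s) (deriv γ t) s :=
    (lv_cont hN).comp (hγ.prodMk (continuous_const.prodMk continuous_id))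
  have hc2 : Continuous fun s =>
      lv L (γ s) (deriv γ s) s - lv L (γ s) (deriv γ t) s := (vl_mom_cont h).sub hc1
  have hc3 : Filter.Tendsto (fun s => 2 / a *
      ‖lv L (γ s) (deriv γ s) s - lv L (γ s) (deriv γ t) s‖) (nhds t) (nhds 0) := by
    have := (hc2.norm.const_mul (2 / a)).tendsto t
    simpa using this
  rw [ContinuousAt, tendsto_iff_norm_sub_tendsto_zero]
  refine squeeze_zero (fun _ => norm_nonneg _) (fun s => ?_) hc3
  have h1 := lv_mono hN (γ s) (deriv γ s) (deriv γ t) s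
  have h2 := (lv L (γ s) (deriv γ s) s - lv L (γ s) (deriv γ t) s).le_opNorm
    (deriv γ s - deriv γ t)
  have h3 := le_abs_self ((lv L (γ s) (deriv γ s) s - lv L (γ s) (deriv γ t) s)
    (deriv γ s - deriv γ t))
  rw [← Real.norm_eq_abs] at h3
  have h4 := h1.trans (h3.trans h2)
  rcases (norm_nonneg (deriv γ s - deriv γ t)).eq_or_lt with h0 | h0
  · rw [← h0]; positivity
  · have h5 : a / 2 * ‖deriv γ s - deriv γ t‖ ≤
        ‖lv L (γ s) (deriv γ s) s - lv L (γ s) (deriv γ t) s‖ := by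
      by_contra hc
      push Not at hc
      nlinarith
    rw [div_mul_eq_mul_div, le_div_iff₀ ha]
    linarith

theorem el_vcv (hN : NF S a m P L) (h : IsEL L γ) {s t : ℝ} (hst : s ≤ t) :
    VCv γ (deriv γ) s t := by
  refine ⟨hst, h.1.continuous.continuousOn, ⟨∅, countable_empty, fun t _ _ =>
    (h.1 t).hasDerivAt⟩, (el_cont hN h).measurable, ?_⟩
  obtain ⟨M, hM⟩ := isCompact_Icc.exists_bound_of_continuousOn
    ((el_cont hN h).continuousOn (s := Icc s t))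
  exact ⟨M, hM⟩

theorem el_close (hN : NF S a m P L) (h1 : IsEL L γ₁) (h2 : IsEL L γ₂) {t₀ t : ℝ}
    (he : γ₁ t₀ = γ₂ t₀) (ht : |t - t₀| ≤ 1) :
    ‖(deriv γ₂ t - deriv γ₁ t) - (deriv γ₂ t₀ - deriv γ₁ t₀)‖ ≤
        ‖deriv γ₂ t₀ - deriv γ₁ t₀‖ / 4 ∧
      ‖(γ₂ t - γ₁ t) - (t - t₀) • (deriv γ₂ t₀ - deriv γ₁ t₀)‖ ≤
        ‖deriv γ₂ t₀ - deriv γ₁ t₀‖ / 4 := by
  have ha := hN.a_pos
  have hm := hN.m_pos
  have hma := hN.m_le
  set e : ℝ → Vec n := fun s => γ₂ s - γ₁ s with hedef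
  set w : ℝ → Vec n := fun s => deriv γ₂ s - deriv γ₁ s with hwdef
  have hed : ∀ s, HasDerivAt e (w s) s := fun s =>
    (h2.1 s).hasDerivAt.sub (h1.1 s).hasDerivAt
  have hwc : Continuous w := (el_cont hN h2).sub (el_cont hN h1)
  have he0 : e t₀ = 0 := by rw [hedef]; simp [he]
  obtain ⟨t', ht', hmax⟩ := (isCompact_uIcc (a := t₀) (b := t)).exists_isMaxOn
    nonempty_uIcc hwc.norm.continuousOn
  set X : ℝ := ‖w t'‖ with hX
  have hX0 : 0 ≤ X := norm_nonneg _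
  have hwX : ∀ s ∈ uIcc t₀ t, ‖w s‖ ≤ X := fun s hs => hmax hs
  have hdist : ∀ s ∈ uIcc t₀ t, |s - t₀| ≤ 1 := fun s hs =>
    (abs_sub_left_of_mem_uIcc hs).trans ht
  have heX : ∀ s ∈ uIcc t₀ t, ‖e s‖ ≤ X := by
    intro s hs
    have hsub : uIcc t₀ s ⊆ uIcc t₀ t := uIcc_subset_uIcc left_mem_uIcc hs
    have h3 := vl_mv (f := e) (f' := w) (s := t₀) (t := s) (M := X) (fun r _ => hed r)
      (fun r hr => hwX r (hsub hr))
    rw [he0, sub_zero] at h3
    have h4 := hdist s hs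
    nlinarith
  -- the difference of the momenta
  set p : ℝ → (Vec n →L[ℝ] ℝ) := fun s =>
    lv L (γ₂ s) (deriv γ₂ s) s - lv L (γ₁ s) (deriv γ₁ s) s with hpdef
  have hpd : ∀ s, HasDerivAt p (lx L (γ₂ s) (deriv γ₂ s) s - lx L (γ₁ s) (deriv γ₁ s) s) s :=
    fun s => (vl_mom h2 s).sub (vl_mom h1 s)
  have hpX : ∀ s ∈ uIcc t₀ t, ‖p s - p t₀‖ ≤ 2 * m * X := by
    intro s hs
    have hsub : uIcc t₀ s ⊆ uIcc t₀ t := uIcc_subset_uIcc left_mem_uIcc hs
    have h3 := vl_mv' (f := p) (s := t₀) (t := s) (M := 2 * m * X) (fun r _ => hpd r)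
      (fun r hr => by
        have h5 := lx_diff hN (γ₂ r) (γ₁ r) (deriv γ₂ r) (deriv γ₁ r) r
        have h6 := heX r (hsub hr)
        have h7 := hwX r (hsub hr)
        have h8 : m * (‖γ₂ r - γ₁ r‖ + ‖deriv γ₂ r - deriv γ₁ r‖) ≤ m * (X + X) :=
          mul_le_mul_of_nonneg_left (add_le_add h6 h7) hm.le
        linarith)
    have h4 := hdist s hs
    have h5 : 0 ≤ 2 * m * X := by positivity
    nlinarith
  have hzX : ∀ s ∈ uIcc t₀ t, a * ‖w s - w t₀‖ ≤ 5 * m * X := by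
    intro s hs
    refine vl_of_quad hN (by positivity) ?_
    set z := w s - w t₀ with hz
    have d1 := lv_diff hN (γ₂ s) (γ₁ s) (deriv γ₂ s) (deriv γ₁ s) s z
    have d2 := lv_diff hN (γ₂ t₀) (γ₁ t₀) (deriv γ₂ t₀) (deriv γ₁ t₀) t₀ z
    have d3 := (p s - p t₀).le_opNorm z
    have d4 := hpX s hs
    have n1 := heX s hs
    have n2 := hwX s hs
    have n3 := hwX t₀ left_mem_uIcc
    have n4 : ‖γ₂ t₀ - γ₁ t₀‖ = 0 := by rw [he]; simp
    rw [n4] at d2
    have hz0 : 0 ≤ ‖z‖ := norm_nonneg z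
    have hin : ⟪S z, S z⟫ = ⟪S (w s), S z⟫ - ⟪S (w t₀), S z⟫ := by
      rw [← inner_sub_left, ← map_sub]
    have m1 : m * (‖γ₂ s - γ₁ s‖ + ‖deriv γ₂ s - deriv γ₁ s‖) * ‖z‖ ≤ m * (X + X) * ‖z‖ :=
      mul_le_mul_of_nonneg_right (mul_le_mul_of_nonneg_left (add_le_add n1 n2) hm.le) hz0
    have m2 : m * (0 + ‖deriv γ₂ t₀ - deriv γ₁ t₀‖) * ‖z‖ ≤ m * (0 + X) * ‖z‖ :=
      mul_le_mul_of_nonneg_right (mul_le_mul_of_nonneg_left
        (add_le_add (le_refl 0) n3) hm.le) hz0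
    have m3 : ‖p s - p t₀‖ * ‖z‖ ≤ 2 * m * X * ‖z‖ := mul_le_mul_of_nonneg_right d4 hz0
    have m4 : (p s - p t₀) z ≤ 2 * m * X * ‖z‖ :=
      (le_abs_self _).trans ((Real.norm_eq_abs _ ▸ d3).trans m3)
    have m5 : (p s - p t₀) z = (lv L (γ₂ s) (deriv γ₂ s) s - lv L (γ₁ s) (deriv γ₁ s) s) z -
        (lv L (γ₂ t₀) (deriv γ₂ t₀) t₀ - lv L (γ₁ t₀) (deriv γ₁ t₀) t₀) z := rfl
    rw [abs_le] at d1 d2
    rw [hin]
    rw [m5] at m4
    have w1 : ⟪S (deriv γ₂ s - deriv γ₁ s), S z⟫ = ⟪S (w s), S z⟫ := rfl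
    have w2 : ⟪S (deriv γ₂ t₀ - deriv γ₁ t₀), S z⟫ = ⟪S (w t₀), S z⟫ := rfl
    rw [w1] at d1
    rw [w2] at d2
    nlinarith [d1.1, d1.2, d2.1, d2.2, m1, m2, m4]
  have hz64 : ∀ s ∈ uIcc t₀ t, 64 * ‖w s - w t₀‖ ≤ 5 * X := by
    intro s hs
    have h3 := hzX s hs
    by_contra hc
    push Not at hc
    have h5 : 64 * m * ‖w s - w t₀‖ ≤ a * ‖w s - w t₀‖ :=
      mul_le_mul_of_nonneg_right hma (norm_nonneg _)
    nlinarith
  have hX59 : 59 * X ≤ 64 * ‖w t₀‖ := by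
    have h3 := hz64 t' ht'
    have h4 : X ≤ ‖w t₀‖ + ‖w t' - w t₀‖ := by
      have := norm_add_le (w t₀) (w t' - w t₀)
      rwa [add_sub_cancel] at this
    linarith
  have hall : ∀ s ∈ uIcc t₀ t, ‖w s - w t₀‖ ≤ ‖w t₀‖ / 4 := by
    intro s hs
    have h3 := hz64 s hs
    have h4 := norm_nonneg (w t₀)
    linarith
  refine ⟨hall t right_mem_uIcc, ?_⟩
  have h3 := vl_mv (f := fun s => e s - (s - t₀) • w t₀) (f' := fun s => w s - w t₀)
    (s := t₀) (t := t) (M := ‖w t₀‖ / 4) (fun r _ => by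
      have h5 : HasDerivAt (fun s : ℝ => (s - t₀) • w t₀) ((1 : ℝ) • w t₀) r :=
        ((hasDerivAt_id r).sub_const t₀).smul_const (w t₀)
      rw [one_smul] at h5
      exact (hed r).sub h5) hall
  simp only [sub_self, zero_smul, sub_zero, he0] at h3
  have h4 : 0 ≤ ‖w t₀‖ / 4 := by positivity
  refine h3.trans ?_
  nlinarith

theorem el_unique (hN : NF S a m P L) (h1 : IsEL L γ₁) (h2 : IsEL L γ₂) {t₀ : ℝ}
    (he : γ₁ t₀ = γ₂ t₀) (hv : deriv γ₁ t₀ = deriv γ₂ t₀) : γ₁ = γ₂ := by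
  have key : ∀ s, γ₁ s = γ₂ s → deriv γ₁ s = deriv γ₂ s → ∀ t, |t - s| ≤ 1 →
      γ₁ t = γ₂ t ∧ deriv γ₁ t = deriv γ₂ t := by
    intro s h3 h4 t ht
    have h5 := el_close hN h1 h2 h3 ht
    rw [h4] at h5
    simp only [sub_self, norm_zero, zero_div, sub_zero, smul_zero] at h5
    refine ⟨?_, ?_⟩
    · have := norm_le_zero_iff.mp h5.2
      exact (sub_eq_zero.mp this).symm
    · have := norm_le_zero_iff.mp h5.1
      exact (sub_eq_zero.mp this).symm
  have hall : ∀ (N : ℕ) (t : ℝ), |t - t₀| ≤ N → γ₁ t = γ₂ t ∧ deriv γ₁ t = deriv γ₂ t := by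
    intro N
    induction N with
    | zero =>
      intro t ht
      have : t = t₀ := by
        have h3 : |t - t₀| ≤ 0 := by simpa using ht
        have := abs_nonpos_iff.mp h3
        linarith
      rw [this]
      exact ⟨he, hv⟩
    | succ N ih =>
      intro t ht
      push_cast at ht
      have hN1 : (0 : ℝ) < N + 1 := by positivity
      set s : ℝ := t₀ + (t - t₀) * (N / (N + 1)) with hs
      have h3 : |s - t₀| ≤ N := by
        have e1 : s - t₀ = (t - t₀) * (N / (N + 1)) := by rw [hs]; ring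
        rw [e1, abs_mul, abs_of_nonneg (show (0 : ℝ) ≤ N / (N + 1) by positivity)]
        calc |t - t₀| * (N / (N + 1)) ≤ (N + 1) * (N / (N + 1)) :=
              mul_le_mul_of_nonneg_right ht (by positivity)
          _ = N := by field_simp
      have h4 : |t - s| ≤ 1 := by
        have e1 : t - s = (t - t₀) * (1 / (N + 1)) := by
          rw [hs]; field_simp; ring
        rw [e1, abs_mul, abs_of_nonneg (show (0 : ℝ) ≤ 1 / (N + 1) by positivity)]
        calc |t - t₀| * (1 / (N + 1)) ≤ (N + 1) * (1 / (N + 1)) :=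
              mul_le_mul_of_nonneg_right ht (by positivity)
          _ = 1 := by field_simp
      obtain ⟨h5, h6⟩ := ih s h3
      exact key s h5 h6 t h4
  funext t
  obtain ⟨N, hNt⟩ := exists_nat_ge |t - t₀|
  exact (hall N t hNt).1

theorem el_vel (hN : NF S a m P L) (h : IsEL L γ) {t₀ t : ℝ} (ht : t ∈ Icc t₀ (t₀ + 1)) :
    ‖deriv γ t - (γ (t₀ + 1) - γ t₀)‖ ≤ 2 := by
  have ha := hN.a_pos
  have hm := hN.m_pos
  have hma := hN.m_le
  have key : ∀ s ∈ Icc t₀ (t₀ + 1), ‖deriv γ s - deriv γ t‖ ≤ 1 := by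
    intro s hs
    have hst : |s - t| ≤ 1 := by
      rw [abs_le]
      constructor <;> linarith [hs.1, hs.2, ht.1, ht.2]
    set z := deriv γ s - deriv γ t with hz
    have h1 : a * ‖z‖ ≤ 3 * m := by
      refine vl_of_quad hN (by positivity) ?_
      have d1 := lv_diff' hN (γ s) (γ t) (deriv γ s) (deriv γ t) s t z
      have d2 := vl_mv' (f := fun s => lv L (γ s) (deriv γ s) s) (s := t) (t := s) (M := m)
        (fun r _ => vl_mom h r) (fun r _ => lx_bd hN _ _ _)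
      have d3 := (lv L (γ s) (deriv γ s) s - lv L (γ t) (deriv γ t) t).le_opNorm z
      have d4 : ‖lv L (γ s) (deriv γ s) s - lv L (γ t) (deriv γ t) t‖ ≤ m := by
        refine d2.trans ?_
        nlinarith
      have d5 := mul_le_mul_of_nonneg_right d4 (norm_nonneg z)
      have d6 : (lv L (γ s) (deriv γ s) s - lv L (γ t) (deriv γ t) t) z ≤ m * ‖z‖ :=
        (le_abs_self _).trans ((Real.norm_eq_abs _ ▸ d3).trans d5)
      rw [abs_le] at d1
      have := d1.1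
      linarith
    by_contra hc
    push Not at hc
    nlinarith
  have h2 := vl_mv (f := fun s => γ s - s • deriv γ t) (f' := fun s => deriv γ s - deriv γ t)
    (s := t₀) (t := t₀ + 1) (M := 1) (fun r _ => by
      have h5 : HasDerivAt (fun s : ℝ => s • deriv γ t) ((1 : ℝ) • deriv γ t) r :=
        (hasDerivAt_id r).smul_const (deriv γ t)
      rw [one_smul] at h5
      exact (h.1 r).hasDerivAt.sub h5) (fun r hr => by
        rw [uIcc_of_le (by linarith)] at hr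
        exact key r hr)
  have e1 : γ (t₀ + 1) - (t₀ + 1) • deriv γ t - (γ t₀ - t₀ • deriv γ t) =
      -(deriv γ t - (γ (t₀ + 1) - γ t₀)) := by
    rw [add_smul, one_smul]
    abel
  rw [e1, norm_neg] at h2
  rw [show |t₀ + 1 - t₀| = 1 by rw [add_sub_cancel_left, abs_one]] at h2
  linarith

theorem el_shift (h : IsEL L γ) (k : ℤ) (l : Fin n → ℤ) :
    IsEL L fun t => γ (t - k) + zv l := by
  have hd : ∀ t, HasDerivAt (fun t => γ (t - k) + zv l) (deriv γ (t - k)) t := by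
    intro t
    have h1 : HasDerivAt γ (deriv γ (t - k)) (t - k) := (h.1 (t - k)).hasDerivAt
    exact (h1.comp_sub_const t (k : ℝ)).add_const (zv l)
  have hd' : (deriv fun t => γ (t - k) + zv l) = fun t => deriv γ (t - k) :=
    funext fun t => (hd t).deriv
  refine ⟨fun t => (hd t).differentiableAt, fun t => ?_⟩
  have h2 := (h.2 (t - k)).comp_sub_const t (k : ℝ)
  have e1 : (fun s : ℝ => fderiv ℝ (fun v : Vec n =>
      L (proj ((fun t => γ (t - k) + zv l) s)) v (s : UnitAddCircle))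
      (deriv (fun t => γ (t - k) + zv l) s)) = fun s : ℝ => fderiv ℝ (fun v : Vec n =>
      L (proj (γ (s - k))) v ((s - k : ℝ) : UnitAddCircle)) (deriv γ (s - k)) := by
    funext s
    rw [hd']
    simp only [vl_proj, vl_circle]
  have e2 : fderiv ℝ (fun x : Vec n => L (proj x) (deriv (fun t => γ (t - k) + zv l) t)
      (t : UnitAddCircle)) ((fun t => γ (t - k) + zv l) t) =
      fderiv ℝ (fun x : Vec n => L (proj x) (deriv γ (t - k)) ((t - k : ℝ) : UnitAddCircle))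
        (γ (t - k)) := by
    rw [hd']
    simp only [vl_circle]
    rw [← fderiv_comp_add_right (f := fun x : Vec n => L (proj x) (deriv γ (t - k))
      (t : UnitAddCircle)) (zv l)]
    simp only [vl_proj]
  rw [e1, e2]
  exact h2

theorem exists_arc (hN : NF S a m P L) (hφ : IsELFlow L φ) (t₀ : ℝ) (x y : Vec n) :
    ∃ γ : ℝ → Vec n, IsEL L γ ∧ γ t₀ = x ∧ γ (t₀ + 1) = y := by
  choose G hG1 hG2 hG3 _ using fun v : Vec n => hφ.orbit x v t₀
  set F : Vec n → Vec n := fun v => y - x - (G v (t₀ + 1) - x - v) with hF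
  have hlip : LipschitzWith (1 / 4 : NNReal) F := by
    refine LipschitzWith.of_dist_le_mul fun v v' => ?_
    have h1 := (el_close hN (hG1 v) (hG1 v') (t₀ := t₀) (t := t₀ + 1)
      (by rw [hG2, hG2]) (by rw [add_sub_cancel_left, abs_one])).2
    rw [hG3, hG3, add_sub_cancel_left, one_smul] at h1
    rw [dist_eq_norm, dist_eq_norm]
    have e1 : F v - F v' = (G v' (t₀ + 1) - G v (t₀ + 1)) - (v' - v) := by
      rw [hF]
      simp only
      abel
    rw [e1, norm_sub_rev v v']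
    push_cast
    linarith
  have hcon : ContractingWith (1 / 4 : NNReal) F := by
    refine ⟨?_, hlip⟩
    rw [div_lt_iff₀ (by norm_num)]
    norm_num
  have hfix := hcon.fixedPoint_isFixedPt
  set v := ContractingWith.fixedPoint F hcon with hv
  refine ⟨G v, hG1 v, hG2 v, ?_⟩
  have h3 : y - x - (G v (t₀ + 1) - x - v) = v := hfix
  have h4 : y - x - (G v (t₀ + 1) - x - v) - v = y - G v (t₀ + 1) := by abel
  rw [h3, sub_self] at h4
  exact (sub_eq_zero.mp h4.symm).symm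

/-- the arc is unique -/
theorem arc_unique (hN : NF S a m P L) (h1 : IsEL L γ₁) (h2 : IsEL L γ₂) {t₀ : ℝ}
    (he : γ₁ t₀ = γ₂ t₀) (he' : γ₁ (t₀ + 1) = γ₂ (t₀ + 1)) : γ₁ = γ₂ := by
  have h3 := (el_close hN h1 h2 he (t := t₀ + 1) (by rw [add_sub_cancel_left, abs_one])).2
  rw [he', sub_self, add_sub_cancel_left, one_smul, zero_sub, norm_neg] at h3
  have h4 := norm_nonneg (deriv γ₂ t₀ - deriv γ₁ t₀)
  have h5 : ‖deriv γ₂ t₀ - deriv γ₁ t₀‖ = 0 := by linarith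
  exact el_unique hN h1 h2 he (sub_eq_zero.mp (norm_eq_zero.mp h5)).symm

/-- the flow on a solution -/
theorem flow_el (hN : NF S a m P L) (hφ : IsELFlow L φ) (h : IsEL L γ) (t s : ℝ) :
    φ s (proj (γ t), deriv γ t, (t : UnitAddCircle)) =
      (proj (γ (t + s)), deriv γ (t + s), ((t + s : ℝ) : UnitAddCircle)) := by
  obtain ⟨γ', h1, h2, h3, h4⟩ := hφ.orbit (γ t) (deriv γ t) t
  have h5 : γ' = γ := el_unique hN h1 h h2 h3
  rw [h4 s, h5]

end Pool.Agent.LRig
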