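import Pool.Agent.LRig.VL
import Pool.Agent.LRig.VA

/-!
# LR (MP_74f563_an, all n), file VM: first variation, minimality of arcs, the action of arcs

`act L z u s t` is the action of a curve.

PROOFS.  `first_var`: for a solution `γ` and a curve `(e, w)` (`VCv`) the function
`t ↦ lv L (γ t) (γ' t) t (e t)` has, off a countable set, the derivative
`lx L (γ t) (γ' t) t (e t) + lv L (γ t) (γ' t) t (w t)` (product rule for `clm_apply`), so the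
integral is
the difference of the end values (fundamental theorem with countably many exceptions; the
integrand is integrable: bounded and measurable).
`var_ge`: apply `tay_ge` pointwise with `x = γ t`, `v = γ' t`, `e = z - γ`, `w = u - γ'` and
integrate:
`act z - act γ ≥ [lv e] + ∫ (a/4) ‖w‖² - 2 m ‖e‖²`; `‖e t‖² ≤ 2 ‖e s‖² + 2 ∫ ‖w‖²` (`t - s ≤ 1`,
Cauchy-Schwarz), so the integral is `≥ (a/4 - 4m) ∫ ‖w‖² - 4 m ‖e s‖² ≥ -4 m ‖e s‖²`.
`arc_le`: the case of equal endpoints (`e = 0` at both ends): `act γ ≤ act z`.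
`var_le`: let `γ'` be an arc with endpoints `x + d₀`, `y + d₁`, where `x = γ t₀`, `y = γ (t₀+1)`,
and
let `e t = (1 - (t - t₀)) d₀ + (t - t₀) d₁`, `w = d₁ - d₀`.  By `arc_le`
`act γ' ≤ act (γ + e)`, and by `tay_le` and `first_var`
`act (γ + e) - act γ ≤ [lv e] + ‖S w‖²/2 + 2m (‖e‖² + ‖w‖²) ≤ [lv e] + C₀ (‖d₀‖² + ‖d₁‖²)`,
`C₀ = ‖S‖² + 8 m + 1`, say.
-/

set_option autoImplicit false

namespace Pool.Agent.LRig

open Set MeasureTheory Pool.Agent.MechAlpha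
open scoped RealInnerProductSpace ContDiff

variable {n : ℕ} {S : Vec n ≃L[ℝ] Vec n} {a m : ℝ} {P : Vec n × Vec n × ℝ → ℝ}
  {L : Torus n → Vec n → UnitAddCircle → ℝ} {φ : ℝ → Phase n → Phase n} {γ γ' z u : ℝ → Vec n}

/-- the action of a curve -/
noncomputable def act (L : Torus n → Vec n → UnitAddCircle → ℝ) (z u : ℝ → Vec n)
    (s t : ℝ) : ℝ := ∫ r in s..t, lf L (z r) (u r) r

theorem act_int (hN : NF S a m P L) {s t : ℝ} (hz : VCv z u s t) :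
    IntervalIntegrable (fun r => lf L (z r) (u r) r) volume s t := by
  have h0 : TCv (0 : Vec n) z u s t := by
    unfold TCv
    simpa using hz
  exact integrable_cost (lf_cont hN) h0

theorem act_add (hN : NF S a m P L) {r s t : ℝ} (hz : VCv z u r t) (h1 : r ≤ s) (h2 : s ≤ t) :
    act L z u r s + act L z u s t = act L z u r t := by
  have h0 : TCv (0 : Vec n) z u r t := by
    unfold TCv
    simpa using hz
  exact cost_add (lf_cont hN) h0 h1 h2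

theorem first_var (hN : NF S a m P L) (h : IsEL L γ) {s t : ℝ} {e w : ℝ → Vec n}
    (he : VCv e w s t) :
    IntervalIntegrable (fun r => lx L (γ r) (deriv γ r) r (e r) +
        lv L (γ r) (deriv γ r) r (w r)) volume s t ∧
      ∫ r in s..t, (lx L (γ r) (deriv γ r) r (e r) + lv L (γ r) (deriv γ r) r (w r)) =
        lv L (γ t) (deriv γ t) t (e t) - lv L (γ s) (deriv γ s) s (e s) := by
  have hst : s ≤ t := he.le
  have hγd : ∀ r, HasDerivAt γ (deriv γ r) r := fun r => (h.1 r).hasDerivAt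
  have hγc : Continuous γ := h.1.continuous
  have hγ'c : Continuous (deriv γ) := el_cont hN h
  have hpc : Continuous fun r : ℝ => lv L (γ r) (deriv γ r) r :=
    (lv_cont hN).comp (hγc.prodMk (hγ'c.prodMk continuous_id))
  have hqc : Continuous fun r : ℝ => lx L (γ r) (deriv γ r) r :=
    (lx_cont hN).comp (hγc.prodMk (hγ'c.prodMk continuous_id))
  obtain ⟨N, hNc, hNd⟩ := he.der
  obtain ⟨M, hM⟩ := he.bdd
  have hint1 : IntervalIntegrable (fun r => lx L (γ r) (deriv γ r) r (e r)) volume s t := by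
    apply ContinuousOn.intervalIntegrable
    rw [uIcc_of_le hst]
    exact hqc.continuousOn.clm_apply he.cont
  have hint2 : IntervalIntegrable (fun r => lv L (γ r) (deriv γ r) r (w r)) volume s t := by
    have hwi : IntervalIntegrable w volume s t := he.integrable
    obtain ⟨C, hC⟩ := isCompact_Icc.exists_bound_of_continuousOn (s := Icc s t)
      hpc.continuousOn
    rw [intervalIntegrable_iff_integrableOn_Ioc_of_le hst] at hwi ⊢
    refine MeasureTheory.Integrable.mono' (hwi.norm.const_mul |C|) ?_ ?_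
    · exact (ContinuousLinearMap.apply ℝ ℝ).aestronglyMeasurable_comp₂
        hwi.aestronglyMeasurable hpc.aestronglyMeasurable
    · refine (ae_restrict_iff' measurableSet_Ioc).2 (Filter.Eventually.of_forall fun r hr => ?_)
      calc ‖lv L (γ r) (deriv γ r) r (w r)‖ ≤ ‖lv L (γ r) (deriv γ r) r‖ * ‖w r‖ :=
            ContinuousLinearMap.le_opNorm _ _
        _ ≤ |C| * ‖w r‖ := by
            apply mul_le_mul_of_nonneg_right _ (norm_nonneg _)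
            exact (hC r (Ioc_subset_Icc_self hr)).trans (le_abs_self C)
  have hint := hint1.add hint2
  refine ⟨hint, ?_⟩
  have hcont : ContinuousOn (fun r => lv L (γ r) (deriv γ r) r (e r)) (Icc s t) :=
    hpc.continuousOn.clm_apply he.cont
  refine MeasureTheory.integral_eq_of_hasDerivAt_off_countable_of_le
    (fun r => lv L (γ r) (deriv γ r) r (e r)) _ hst hNc hcont ?_ hint
  intro r hr
  have h1 : HasDerivAt (fun s : ℝ => lv L (γ s) (deriv γ s) s) (lx L (γ r) (deriv γ r) r) r :=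
    h.2 r
  exact h1.clm_apply (hNd r hr.1 hr.2)

private theorem vcv_sub_el (hN : NF S a m P L) (h : IsEL L γ) {s t : ℝ} (hz : VCv z u s t) :
    VCv (fun r => z r - γ r) (fun r => u r - deriv γ r) s t := by
  have hγ := el_vcv hN h hz.le
  obtain ⟨N, hNc, hNd⟩ := hz.der
  obtain ⟨M, hM⟩ := hz.bdd
  obtain ⟨M', hM'⟩ := hγ.bdd
  refine ⟨hz.le, hz.cont.sub hγ.cont, ⟨N, hNc, fun r hr hrN => ?_⟩,
    hz.meas.sub hγ.meas, ⟨M + M', fun r hr => ?_⟩⟩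
  · exact (hNd r hr hrN).sub (h.1 r).hasDerivAt
  · exact (norm_sub_le _ _).trans (add_le_add (hM r hr) (hM' r hr))

private theorem vcv_add_el (hN : NF S a m P L) (h : IsEL L γ) {s t : ℝ} (hz : VCv z u s t) :
    VCv (fun r => γ r + z r) (fun r => deriv γ r + u r) s t := by
  have hγ := el_vcv hN h hz.le
  obtain ⟨N, hNc, hNd⟩ := hz.der
  obtain ⟨M, hM⟩ := hz.bdd
  obtain ⟨M', hM'⟩ := hγ.bdd
  refine ⟨hz.le, hγ.cont.add hz.cont, ⟨N, hNc, fun r hr hrN => ?_⟩,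
    hγ.meas.add hz.meas, ⟨M' + M, fun r hr => ?_⟩⟩
  · exact (h.1 r).hasDerivAt.add (hNd r hr hrN)
  · exact (norm_add_le _ _).trans (add_le_add (hM' r hr) (hM r hr))

theorem var_ge (hN : NF S a m P L) (h : IsEL L γ) {t₀ : ℝ} (hz : VCv z u t₀ (t₀ + 1)) :
    lv L (γ (t₀ + 1)) (deriv γ (t₀ + 1)) (t₀ + 1) (z (t₀ + 1) - γ (t₀ + 1)) -
        lv L (γ t₀) (deriv γ t₀) t₀ (z t₀ - γ t₀) - 4 * m * ‖z t₀ - γ t₀‖ ^ 2 ≤
      act L z u t₀ (t₀ + 1) - act L γ (deriv γ) t₀ (t₀ + 1) := by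
  have h01 : t₀ ≤ t₀ + 1 := by linarith
  have hγ := el_vcv hN h h01
  have he := vcv_sub_el hN h hz
  obtain ⟨hi, hv⟩ := first_var hN h he
  set e : ℝ → Vec n := fun r => z r - γ r with hedef
  set w : ℝ → Vec n := fun r => u r - deriv γ r with hwdef
  have hwi : IntervalIntegrable w volume t₀ (t₀ + 1) := he.integrable
  have hwn : IntervalIntegrable (fun r => ‖w r‖) volume t₀ (t₀ + 1) := hwi.norm
  set I : ℝ := ∫ r in t₀..(t₀ + 1), ‖w r‖ with hI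
  have hI0 : 0 ≤ I := intervalIntegral.integral_nonneg h01 fun r _ => norm_nonneg _
  have hen : ∀ r ∈ Icc t₀ (t₀ + 1), ‖e r‖ ≤ ‖e t₀‖ + I := by
    intro r hr
    have hre := he.restrict le_rfl hr.1 hr.2
    have h1 : ∫ τ in t₀..r, w τ = e r - e t₀ := hre.ftc
    have h2 : ‖e r - e t₀‖ ≤ I := by
      rw [← h1]
      refine (intervalIntegral.norm_integral_le_integral_norm hr.1).trans ?_
      refine intervalIntegral.integral_mono_interval le_rfl hr.1 hr.2 ?_ hwn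
      exact Filter.Eventually.of_forall fun τ => norm_nonneg _
    calc ‖e r‖ = ‖e t₀ + (e r - e t₀)‖ := by rw [add_sub_cancel]
      _ ≤ ‖e t₀‖ + ‖e r - e t₀‖ := norm_add_le _ _
      _ ≤ ‖e t₀‖ + I := by linarith
  have hpt : ∀ r ∈ Icc t₀ (t₀ + 1),
      (lx L (γ r) (deriv γ r) r (e r) + lv L (γ r) (deriv γ r) r (w r)) +
        (a / 4 * (2 * I) * ‖w r‖ - (a / 4 * I ^ 2 + 2 * m * (‖e t₀‖ + I) ^ 2)) ≤
      lf L (z r) (u r) r - lf L (γ r) (deriv γ r) r := by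
    intro r hr
    have h1 := tay_ge hN (γ r) (deriv γ r) (e r) (w r) r
    have h2 : γ r + e r = z r := by simp [hedef]
    have h3 : deriv γ r + w r = u r := by simp [hwdef]
    rw [h2, h3] at h1
    have h4 : ‖e r‖ ^ 2 ≤ (‖e t₀‖ + I) ^ 2 :=
      pow_le_pow_left₀ (norm_nonneg _) (hen r hr) 2
    have h5 : 2 * I * ‖w r‖ - I ^ 2 ≤ ‖w r‖ ^ 2 := by nlinarith [sq_nonneg (‖w r‖ - I)]
    have ha := hN.a_pos
    have hm := hN.m_pos
    nlinarith [mul_le_mul_of_nonneg_left h5 (by linarith : (0 : ℝ) ≤ a / 4),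
      mul_le_mul_of_nonneg_left h4 (by linarith : (0 : ℝ) ≤ 2 * m)]
  have hL1 : IntervalIntegrable (fun r => a / 4 * (2 * I) * ‖w r‖ -
      (a / 4 * I ^ 2 + 2 * m * (‖e t₀‖ + I) ^ 2)) volume t₀ (t₀ + 1) :=
    (hwn.const_mul _).sub intervalIntegrable_const
  have hA := act_int hN hz
  have hB := act_int hN hγ
  have hmono := intervalIntegral.integral_mono_on h01 (hi.add hL1) (hA.sub hB) hpt
  have hLHS : ∫ r in t₀..(t₀ + 1),
      ((lx L (γ r) (deriv γ r) r (e r) + lv L (γ r) (deriv γ r) r (w r)) +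
        (a / 4 * (2 * I) * ‖w r‖ - (a / 4 * I ^ 2 + 2 * m * (‖e t₀‖ + I) ^ 2))) =
      (lv L (γ (t₀ + 1)) (deriv γ (t₀ + 1)) (t₀ + 1) (e (t₀ + 1)) -
        lv L (γ t₀) (deriv γ t₀) t₀ (e t₀)) +
      (a / 4 * (2 * I) * I - (a / 4 * I ^ 2 + 2 * m * (‖e t₀‖ + I) ^ 2)) := by
    rw [intervalIntegral.integral_add hi hL1, hv,
      intervalIntegral.integral_sub (hwn.const_mul _) intervalIntegrable_const,
      intervalIntegral.integral_const_mul, intervalIntegral.integral_const, ← hI,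
      add_sub_cancel_left, one_smul]
  have hRHS : ∫ r in t₀..(t₀ + 1), (lf L (z r) (u r) r - lf L (γ r) (deriv γ r) r) =
      act L z u t₀ (t₀ + 1) - act L γ (deriv γ) t₀ (t₀ + 1) := by
    rw [intervalIntegral.integral_sub hA hB]
    rfl
  have hmono' := hLHS ▸ hRHS ▸ hmono
  have hm := hN.m_pos
  have hma := hN.m_le
  have hfin : -(4 * m * ‖e t₀‖ ^ 2) ≤
      a / 4 * (2 * I) * I - (a / 4 * I ^ 2 + 2 * m * (‖e t₀‖ + I) ^ 2) := by
    have h6 : (‖e t₀‖ + I) ^ 2 ≤ 2 * ‖e t₀‖ ^ 2 + 2 * I ^ 2 := by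
      nlinarith [sq_nonneg (‖e t₀‖ - I)]
    have h7 : 0 ≤ (a / 4 - 4 * m) * I ^ 2 := by
      apply mul_nonneg _ (sq_nonneg _)
      linarith
    nlinarith [mul_le_mul_of_nonneg_left h6 (by linarith : (0 : ℝ) ≤ 2 * m)]
  have hfin2 : lv L (γ (t₀ + 1)) (deriv γ (t₀ + 1)) (t₀ + 1) (e (t₀ + 1)) -
        lv L (γ t₀) (deriv γ t₀) t₀ (e t₀) - 4 * m * ‖e t₀‖ ^ 2 ≤
      act L z u t₀ (t₀ + 1) - act L γ (deriv γ) t₀ (t₀ + 1) := by
    linarith
  exact hfin2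

theorem arc_le (hN : NF S a m P L) (h : IsEL L γ) {t₀ : ℝ} (hz : VCv z u t₀ (t₀ + 1))
    (h1 : z t₀ = γ t₀) (h2 : z (t₀ + 1) = γ (t₀ + 1)) :
    act L γ (deriv γ) t₀ (t₀ + 1) ≤ act L z u t₀ (t₀ + 1) := by
  have hv := var_ge hN h hz
  rw [h1, h2] at hv
  simp only [sub_self, map_zero, norm_zero] at hv
  have : (0 : ℝ) ^ 2 = 0 := by norm_num
  rw [this] at hv
  linarith

theorem var_le (hN : NF S a m P L) (h : IsEL L γ) (h' : IsEL L γ') (t₀ : ℝ) :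
    act L γ' (deriv γ') t₀ (t₀ + 1) - act L γ (deriv γ) t₀ (t₀ + 1) ≤
      lv L (γ (t₀ + 1)) (deriv γ (t₀ + 1)) (t₀ + 1) (γ' (t₀ + 1) - γ (t₀ + 1)) -
        lv L (γ t₀) (deriv γ t₀) t₀ (γ' t₀ - γ t₀) +
      (‖(S : Vec n →L[ℝ] Vec n)‖ ^ 2 + 8 * m + 1) *
        (‖γ' t₀ - γ t₀‖ ^ 2 + ‖γ' (t₀ + 1) - γ (t₀ + 1)‖ ^ 2) := by
  have h01 : t₀ ≤ t₀ + 1 := by linarith
  set d₀ : Vec n := γ' t₀ - γ t₀ with hd₀
  set d₁ : Vec n := γ' (t₀ + 1) - γ (t₀ + 1) with hd₁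
  have he : VCv (fun t => d₀ + (t - t₀) • (d₁ - d₀)) (fun _ => d₁ - d₀) t₀ (t₀ + 1) :=
    VCv.line d₀ (d₁ - d₀) h01
  have hz := vcv_add_el hN h he
  have hγ := el_vcv hN h h01
  obtain ⟨hi, hv⟩ := first_var hN h he
  have harc := arc_le hN h' hz (by simp [hd₀]) (by simp [hd₁])
  set D : ℝ := ‖d₀‖ ^ 2 + ‖d₁‖ ^ 2 with hD
  have hw2 : ‖d₁ - d₀‖ ^ 2 ≤ 2 * D := by
    have h1 : ‖d₁ - d₀‖ ≤ ‖d₁‖ + ‖d₀‖ := norm_sub_le _ _
    have h2 : ‖d₁ - d₀‖ ^ 2 ≤ (‖d₁‖ + ‖d₀‖) ^ 2 := pow_le_pow_left₀ (norm_nonneg _) h1 2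
    nlinarith [sq_nonneg (‖d₁‖ - ‖d₀‖)]
  have hS2 : ‖S (d₁ - d₀)‖ ^ 2 ≤ ‖(S : Vec n →L[ℝ] Vec n)‖ ^ 2 * ‖d₁ - d₀‖ ^ 2 := by
    rw [← mul_pow]
    exact pow_le_pow_left₀ (norm_nonneg _)
      ((S : Vec n →L[ℝ] Vec n).le_opNorm (d₁ - d₀)) 2
  have hm := hN.m_pos
  have hpt : ∀ r ∈ Icc t₀ (t₀ + 1),
      lf L (γ r + (d₀ + (r - t₀) • (d₁ - d₀))) (deriv γ r + (d₁ - d₀)) r -
        lf L (γ r) (deriv γ r) r ≤
      (lx L (γ r) (deriv γ r) r (d₀ + (r - t₀) • (d₁ - d₀)) +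
        lv L (γ r) (deriv γ r) r (d₁ - d₀)) +
        (‖(S : Vec n →L[ℝ] Vec n)‖ ^ 2 + 8 * m + 1) * D := by
    intro r hr
    have h1 := tay_le hN (γ r) (deriv γ r) (d₀ + (r - t₀) • (d₁ - d₀)) (d₁ - d₀) r
    have hτ0 : 0 ≤ r - t₀ := by linarith [hr.1]
    have hτ1 : r - t₀ ≤ 1 := by linarith [hr.2]
    have h2 : ‖d₀ + (r - t₀) • (d₁ - d₀)‖ ≤ (1 - (r - t₀)) * ‖d₀‖ + (r - t₀) * ‖d₁‖ := by
      have h3 : d₀ + (r - t₀) • (d₁ - d₀) = (1 - (r - t₀)) • d₀ + (r - t₀) • d₁ := by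
        module
      rw [h3]
      refine (norm_add_le _ _).trans ?_
      rw [norm_smul, norm_smul, Real.norm_of_nonneg hτ0,
        Real.norm_of_nonneg (by linarith : (0 : ℝ) ≤ 1 - (r - t₀))]
    have h4 : ‖d₀ + (r - t₀) • (d₁ - d₀)‖ ^ 2 ≤ D := by
      have h5 : ‖d₀ + (r - t₀) • (d₁ - d₀)‖ ^ 2 ≤
          ((1 - (r - t₀)) * ‖d₀‖ + (r - t₀) * ‖d₁‖) ^ 2 :=
        pow_le_pow_left₀ (norm_nonneg _) h2 2
      have h6 : ((1 - (r - t₀)) * ‖d₀‖ + (r - t₀) * ‖d₁‖) ^ 2 ≤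
          (1 - (r - t₀)) * ‖d₀‖ ^ 2 + (r - t₀) * ‖d₁‖ ^ 2 := by
        nlinarith [mul_nonneg (mul_nonneg hτ0 (by linarith : (0 : ℝ) ≤ 1 - (r - t₀)))
          (sq_nonneg (‖d₀‖ - ‖d₁‖))]
      have h7 : (1 - (r - t₀)) * ‖d₀‖ ^ 2 + (r - t₀) * ‖d₁‖ ^ 2 ≤ D := by
        have h8 : (1 - (r - t₀)) * ‖d₀‖ ^ 2 ≤ 1 * ‖d₀‖ ^ 2 :=
          mul_le_mul_of_nonneg_right (by linarith) (sq_nonneg _)
        have h9 : (r - t₀) * ‖d₁‖ ^ 2 ≤ 1 * ‖d₁‖ ^ 2 :=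
          mul_le_mul_of_nonneg_right hτ1 (sq_nonneg _)
        linarith
      linarith
    have hD0 : 0 ≤ D := add_nonneg (sq_nonneg _) (sq_nonneg _)
    have h10 : ‖S (d₁ - d₀)‖ ^ 2 / 2 ≤ ‖(S : Vec n →L[ℝ] Vec n)‖ ^ 2 * D := by
      have h11 := mul_le_mul_of_nonneg_left hw2 (sq_nonneg ‖(S : Vec n →L[ℝ] Vec n)‖)
      linarith
    have h12 : 2 * m * (‖d₀ + (r - t₀) • (d₁ - d₀)‖ ^ 2 + ‖d₁ - d₀‖ ^ 2) ≤ 2 * m * (3 * D) :=
      mul_le_mul_of_nonneg_left (by linarith) (by linarith)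
    have h13 : 0 ≤ m * D := mul_nonneg hm.le hD0
    nlinarith
  have hA := act_int hN hz
  have hB := act_int hN hγ
  have hmono := intervalIntegral.integral_mono_on h01 (hA.sub hB)
    (hi.add (intervalIntegrable_const
      (c := (‖(S : Vec n →L[ℝ] Vec n)‖ ^ 2 + 8 * m + 1) * D))) hpt
  have hLHS : ∫ r in t₀..(t₀ + 1),
      (lf L (γ r + (d₀ + (r - t₀) • (d₁ - d₀))) (deriv γ r + (d₁ - d₀)) r -
        lf L (γ r) (deriv γ r) r) =
      act L (fun r => γ r + (d₀ + (r - t₀) • (d₁ - d₀))) (fun r => deriv γ r + (d₁ - d₀))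
        t₀ (t₀ + 1) - act L γ (deriv γ) t₀ (t₀ + 1) := by
    rw [intervalIntegral.integral_sub hA hB]
    rfl
  have hRHS : ∫ r in t₀..(t₀ + 1),
      ((lx L (γ r) (deriv γ r) r (d₀ + (r - t₀) • (d₁ - d₀)) +
        lv L (γ r) (deriv γ r) r (d₁ - d₀)) +
        (‖(S : Vec n →L[ℝ] Vec n)‖ ^ 2 + 8 * m + 1) * D) =
      (lv L (γ (t₀ + 1)) (deriv γ (t₀ + 1)) (t₀ + 1) d₁ - lv L (γ t₀) (deriv γ t₀) t₀ d₀) +
        (‖(S : Vec n →L[ℝ] Vec n)‖ ^ 2 + 8 * m + 1) * D := by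
    rw [intervalIntegral.integral_add hi intervalIntegrable_const, hv,
      intervalIntegral.integral_const]
    simp
  have hmono' : act L (fun r => γ r + (d₀ + (r - t₀) • (d₁ - d₀)))
        (fun r => deriv γ r + (d₁ - d₀)) t₀ (t₀ + 1) - act L γ (deriv γ) t₀ (t₀ + 1) ≤
      (lv L (γ (t₀ + 1)) (deriv γ (t₀ + 1)) (t₀ + 1) d₁ - lv L (γ t₀) (deriv γ t₀) t₀ d₀) +
        (‖(S : Vec n →L[ℝ] Vec n)‖ ^ 2 + 8 * m + 1) * D := by
    rw [← hLHS, ← hRHS]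
    exact hmono
  linarith

end Pool.Agent.LRig
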