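import Pool.Agent.LRig.VM

/-!
# LR (MP_74f563_an, all n), file VN: minimal closed curves

`hac L φ t₀ x y` is the action of the arc from `(t₀, x)` to `(t₀ + 1, y)`.

PROOFS.  `hac_eq`: by `arc_unique` the action does not depend on the choice.
`hac_per`: `arc_unique` and `el_shift`.
`hac_low`: `∫ lf L ≥ ∫ (a ‖γ'‖²/2 - m) ≥ a ‖y - x‖²/2 - m` (`lf_ge`, Cauchy-Schwarz).
`hac_cont`: by `var_le` in both directions, with the momenta bounded on bounded sets
(`el_vel`, `lv_eq`: `‖lv L x v t‖ ≤ ‖S‖² ‖v‖ + m`), `hac` is continuous in `(x, y)` (locally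
Lipschitz).
`exists_min`: the function `Φ (x) = ∑_{i < T} hac (t₀ + i) (x_i) (x_{i+1})`, `x_T = x_0 + zv l`, of
`x : Fin T → Vec n` (or `ℕ → Vec n` with the periodicity condition) is continuous, invariant under
the translation of all `x_i` by an integer vector, and by `hac_low` on sublevels all
`‖x_{i+1} - x_i‖` are
bounded; so the sublevel with `x_0 ∈ [0,1]ⁿ` (coordinates) is compact and `Φ` has a minimum.
-/

set_option autoImplicit false

namespace Pool.Agent.LRig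

open Set MeasureTheory Pool.Agent.MechAlpha
open scoped RealInnerProductSpace ContDiff

variable {n : ℕ} {S : Vec n ≃L[ℝ] Vec n} {a m : ℝ} {P : Vec n × Vec n × ℝ → ℝ}
  {L : Torus n → Vec n → UnitAddCircle → ℝ} {φ : ℝ → Phase n → Phase n} {γ : ℝ → Vec n}

open Classical in
/-- the action of the arc from `(t₀, x)` to `(t₀ + 1, y)` -/
noncomputable def hac (L : Torus n → Vec n → UnitAddCircle → ℝ) (t₀ : ℝ) (x y : Vec n) : ℝ :=
  if h : ∃ γ : ℝ → Vec n, IsEL L γ ∧ γ t₀ = x ∧ γ (t₀ + 1) = y then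
    act L h.choose (deriv h.choose) t₀ (t₀ + 1) else 0

theorem hac_eq (hN : NF S a m P L) (h : IsEL L γ) (t₀ : ℝ) :
    hac L t₀ (γ t₀) (γ (t₀ + 1)) = act L γ (deriv γ) t₀ (t₀ + 1) := by
  have hex : ∃ γ' : ℝ → Vec n, IsEL L γ' ∧ γ' t₀ = γ t₀ ∧ γ' (t₀ + 1) = γ (t₀ + 1) :=
    ⟨γ, h, rfl, rfl⟩
  unfold hac
  rw [dif_pos hex]
  have e : hex.choose = γ :=
    arc_unique hN hex.choose_spec.1 h hex.choose_spec.2.1 hex.choose_spec.2.2
  rw [e]

private theorem hac_of (hN : NF S a m P L) (h : IsEL L γ) {t₀ : ℝ} {x y : Vec n}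
    (hx : γ t₀ = x) (hy : γ (t₀ + 1) = y) :
    hac L t₀ x y = act L γ (deriv γ) t₀ (t₀ + 1) := by
  rw [← hx, ← hy]
  exact hac_eq hN h t₀

private theorem vn_proj (x : Vec n) (l : Fin n → ℤ) : proj (x + zv l) = proj x := by
  funext i
  show (((x + zv l) i : ℝ) : UnitAddCircle) = ((x i : ℝ) : UnitAddCircle)
  have e : (x + zv l) i = x i + (l i : ℝ) := rfl
  rw [e, AddCircle.coe_add]
  have h : (((l i : ℤ) : ℝ) : UnitAddCircle) = 0 :=
    (AddCircle.coe_eq_zero_iff (p := (1 : ℝ))).2 ⟨l i, by simp⟩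
  rw [h, add_zero]

private theorem vn_circ (t : ℝ) (k : ℤ) : ((t - k : ℝ) : UnitAddCircle) = (t : UnitAddCircle) := by
  rw [AddCircle.coe_sub]
  have h : ((k : ℝ) : UnitAddCircle) = 0 :=
    (AddCircle.coe_eq_zero_iff (p := (1 : ℝ))).2 ⟨k, by simp⟩
  rw [h, sub_zero]

theorem hac_per (hN : NF S a m P L) (hφ : IsELFlow L φ) (t₀ : ℝ) (x y : Vec n) (k : ℤ)
    (l : Fin n → ℤ) : hac L (t₀ + k) (x + zv l) (y + zv l) = hac L t₀ x y := by
  obtain ⟨γ, hγ, hx, hy⟩ := exists_arc hN hφ t₀ x y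
  have h1 := hac_of hN (el_shift hγ k l) (t₀ := t₀ + k) (x := x + zv l) (y := y + zv l)
    (by rw [add_sub_cancel_right, hx])
    (by
      have e : t₀ + (k : ℝ) + 1 - k = t₀ + 1 := by ring
      rw [e, hy])
  rw [h1, hac_of hN hγ hx hy]
  unfold act
  have h2 : ∀ r : ℝ, lf L (γ (r - k) + zv l) (deriv (fun t => γ (t - k) + zv l) r) r =
      (fun s => lf L (γ s) (deriv γ s) s) (r - k) := by
    intro r
    have e : deriv (fun t => γ (t - k) + zv l) r = deriv γ (r - k) := by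
      rw [deriv_add_const, deriv_comp_sub_const]
    rw [e]
    show lf L (γ (r - k) + zv l) (deriv γ (r - k)) r =
      lf L (γ (r - k)) (deriv γ (r - k)) (r - k)
    unfold lf
    rw [vn_proj, vn_circ]
  simp only [h2]
  rw [intervalIntegral.integral_comp_sub_right (fun s => lf L (γ s) (deriv γ s) s)]
  have e1 : t₀ + (k : ℝ) - k = t₀ := by ring
  have e2 : t₀ + (k : ℝ) + 1 - k = t₀ + 1 := by ring
  rw [e1, e2]

private theorem el_lf_cont (hN : NF S a m P L) (h : IsEL L γ) :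
    Continuous fun r => lf L (γ r) (deriv γ r) r :=
  (lf_cont hN).comp (h.1.continuous.prodMk ((el_cont hN h).prodMk continuous_id))

theorem hac_low (hN : NF S a m P L) (hφ : IsELFlow L φ) (t₀ : ℝ) (x y : Vec n) :
    a / 2 * ‖y - x‖ ^ 2 - m ≤ hac L t₀ x y := by
  obtain ⟨γ, hγ, hx, hy⟩ := exists_arc hN hφ t₀ x y
  rw [hac_of hN hγ hx hy]
  unfold act
  have hc := el_cont hN hγ
  have h1 : ∫ r in t₀..(t₀ + 1), ⟪y - x, deriv γ r⟫ = ‖y - x‖ ^ 2 := by
    have h2 : ∀ r ∈ uIcc t₀ (t₀ + 1), HasDerivAt (fun r => ⟪y - x, γ r⟫) ⟪y - x, deriv γ r⟫ r := by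
      intro r _
      have := (hγ.1 r).hasDerivAt
      have h3 := (hasDerivAt_const r (y - x)).inner ℝ this
      simpa using h3
    rw [intervalIntegral.integral_eq_sub_of_hasDerivAt h2
      ((continuous_const.inner hc).intervalIntegrable _ _), hx, hy, ← inner_sub_right,
      real_inner_self_eq_norm_sq]
  have h2 : ∫ r in t₀..(t₀ + 1), (a * ⟪y - x, deriv γ r⟫ - (a / 2 * ‖y - x‖ ^ 2 + m)) =
      a / 2 * ‖y - x‖ ^ 2 - m := by
    rw [intervalIntegral.integral_sub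
      ((continuous_const.mul (continuous_const.inner hc)).intervalIntegrable _ _)
      (continuous_const.intervalIntegrable _ _), intervalIntegral.integral_const_mul, h1,
      intervalIntegral.integral_const]
    rw [smul_eq_mul]
    ring
  rw [← h2]
  refine intervalIntegral.integral_mono_on (by linarith)
    (((continuous_const.mul (continuous_const.inner hc)).sub
      continuous_const).intervalIntegrable _ _)
    ((el_lf_cont hN hγ).intervalIntegrable _ _) ?_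
  intro r _
  refine le_trans ?_ (lf_ge hN (γ r) (deriv γ r) r)
  have h3 : 2 * ⟪y - x, deriv γ r⟫ ≤ ‖y - x‖ ^ 2 + ‖deriv γ r‖ ^ 2 := by
    have := real_inner_le_norm (y - x) (deriv γ r)
    nlinarith [sq_nonneg (‖y - x‖ - ‖deriv γ r‖)]
  have ha := hN.a_pos
  nlinarith [mul_le_mul_of_nonneg_left h3 ha.le]

private theorem lv_bd (hN : NF S a m P L) (x v : Vec n) (t : ℝ) (w : Vec n) :
    |lv L x v t w| ≤ (‖(S : Vec n →L[ℝ] Vec n)‖ ^ 2 * ‖v‖ + m) * ‖w‖ := by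
  rw [lv_eq hN]
  have h1 : |⟪S v, S w⟫| ≤ ‖(S : Vec n →L[ℝ] Vec n)‖ ^ 2 * ‖v‖ * ‖w‖ := by
    have h2 : ‖S v‖ ≤ ‖(S : Vec n →L[ℝ] Vec n)‖ * ‖v‖ :=
      (S : Vec n →L[ℝ] Vec n).le_opNorm v
    have h3 : ‖S w‖ ≤ ‖(S : Vec n →L[ℝ] Vec n)‖ * ‖w‖ :=
      (S : Vec n →L[ℝ] Vec n).le_opNorm w
    calc |⟪S v, S w⟫| ≤ ‖S v‖ * ‖S w‖ := abs_real_inner_le_norm _ _
      _ ≤ (‖(S : Vec n →L[ℝ] Vec n)‖ * ‖v‖) * (‖(S : Vec n →L[ℝ] Vec n)‖ * ‖w‖) :=
          mul_le_mul h2 h3 (norm_nonneg _) (by positivity)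
      _ = _ := by ring
  have h2 : |fderiv ℝ P (x, v, t) (0, w, 0)| ≤ m * ‖w‖ := by
    refine (hN.lip _ _).trans ?_
    refine mul_le_mul_of_nonneg_left ?_ hN.m_pos.le
    simp [Prod.norm_def]
  calc _ ≤ |⟪S v, S w⟫| + |fderiv ℝ P (x, v, t) (0, w, 0)| := abs_add_le _ _
    _ ≤ _ := by linarith

private noncomputable def hbd (S : Vec n ≃L[ℝ] Vec n) (m : ℝ) (q q' : Vec n × Vec n) : ℝ :=
  (‖(S : Vec n →L[ℝ] Vec n)‖ ^ 2 * (‖q.2 - q.1‖ + 2) + m) * (‖q'.1 - q.1‖ + ‖q'.2 - q.2‖) +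
    (‖(S : Vec n →L[ℝ] Vec n)‖ ^ 2 + 8 * m + 1) * (‖q'.1 - q.1‖ ^ 2 + ‖q'.2 - q.2‖ ^ 2)

private theorem hbd_le (hN : NF S a m P L) (hφ : IsELFlow L φ) (t₀ : ℝ)
    (q q' : Vec n × Vec n) : hac L t₀ q'.1 q'.2 - hac L t₀ q.1 q.2 ≤ hbd S m q q' := by
  obtain ⟨γ, hγ, hx, hy⟩ := exists_arc hN hφ t₀ q.1 q.2
  obtain ⟨γ', hγ', hx', hy'⟩ := exists_arc hN hφ t₀ q'.1 q'.2
  rw [hac_of hN hγ hx hy, hac_of hN hγ' hx' hy']
  refine (var_le hN hγ hγ' t₀).trans ?_
  have hv : ∀ t ∈ Icc t₀ (t₀ + 1), ‖deriv γ t‖ ≤ ‖q.2 - q.1‖ + 2 := by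
    intro t ht
    have h1 := el_vel hN hγ ht
    rw [hx, hy] at h1
    have h2 : deriv γ t = (deriv γ t - (q.2 - q.1)) + (q.2 - q.1) := by abel
    rw [h2]
    refine (norm_add_le _ _).trans ?_
    linarith
  have hp : ∀ t ∈ Icc t₀ (t₀ + 1), ∀ z w : Vec n, |lv L z (deriv γ t) t w| ≤
      (‖(S : Vec n →L[ℝ] Vec n)‖ ^ 2 * (‖q.2 - q.1‖ + 2) + m) * ‖w‖ := by
    intro t ht z w
    refine (lv_bd hN z (deriv γ t) t w).trans ?_
    refine mul_le_mul_of_nonneg_right ?_ (norm_nonneg _)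
    have := mul_le_mul_of_nonneg_left (hv t ht) (sq_nonneg ‖(S : Vec n →L[ℝ] Vec n)‖)
    linarith
  have h1 := (le_abs_self _).trans
    (hp (t₀ + 1) ⟨by linarith, le_refl _⟩ (γ (t₀ + 1)) (γ' (t₀ + 1) - γ (t₀ + 1)))
  have h2 := (neg_le_abs _).trans
    (hp t₀ ⟨le_refl _, by linarith⟩ (γ t₀) (γ' t₀ - γ t₀))
  unfold hbd
  rw [hx, hx'] at h2
  rw [hy, hy'] at h1
  rw [hx, hx', hy, hy']
  rw [mul_add (‖(S : Vec n →L[ℝ] Vec n)‖ ^ 2 * (‖q.2 - q.1‖ + 2) + m)]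
  linarith

private theorem hbd_nonneg (hm : 0 < m) (q q' : Vec n × Vec n) : 0 ≤ hbd S m q q' := by
  unfold hbd
  positivity

theorem hac_cont (hN : NF S a m P L) (hφ : IsELFlow L φ) (t₀ : ℝ) :
    Continuous fun q : Vec n × Vec n => hac L t₀ q.1 q.2 := by
  rw [continuous_iff_continuousAt]
  intro q
  unfold ContinuousAt
  rw [tendsto_iff_dist_tendsto_zero]
  have hc : Continuous fun q' : Vec n × Vec n => hbd S m q q' + hbd S m q' q := by
    unfold hbd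
    fun_prop
  have h0 : hbd S m q q + hbd S m q q = 0 := by
    unfold hbd
    simp
  have h1 : Filter.Tendsto (fun q' : Vec n × Vec n => hbd S m q q' + hbd S m q' q) (nhds q)
      (nhds 0) := by
    have := hc.tendsto q
    rwa [h0] at this
  refine squeeze_zero (fun _ => dist_nonneg) (fun q' => ?_) h1
  rw [Real.dist_eq, abs_le]
  have h2 := hbd_le hN hφ t₀ q q'
  have h3 := hbd_le hN hφ t₀ q' q
  have h4 := hbd_nonneg (S := S) hN.m_pos q q'
  have h5 := hbd_nonneg (S := S) hN.m_pos q' q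
  constructor <;> linarith

theorem hac_le (hN : NF S a m P L) (hφ : IsELFlow L φ) {z u : ℝ → Vec n} {t₀ : ℝ}
    (hz : VCv z u t₀ (t₀ + 1)) : hac L t₀ (z t₀) (z (t₀ + 1)) ≤ act L z u t₀ (t₀ + 1) := by
  obtain ⟨γ, hγ, hx, hy⟩ := exists_arc hN hφ t₀ (z t₀) (z (t₀ + 1))
  rw [hac_of hN hγ hx hy]
  exact arc_le hN hγ hz hx.symm hy.symm

/-- periodic configurations of type `(T, l)` -/
def Cfg (T : ℕ) (l : Fin n → ℤ) (x : ℕ → Vec n) : Prop := ∀ i, x (i + T) = x i + zv l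

private noncomputable def phi (L : Torus n → Vec n → UnitAddCircle → ℝ) (t₀ : ℝ) (T : ℕ)
    (x : ℕ → Vec n) : ℝ :=
  ∑ i ∈ Finset.range T, hac L (t₀ + i) (x i) (x (i + 1))

private noncomputable def exten (T : ℕ) (hT : 0 < T) (l : Fin n → ℤ) (y : Fin T → Vec n)
    (i : ℕ) : Vec n :=
  y ⟨i % T, Nat.mod_lt i hT⟩ + ((i / T : ℕ) : ℝ) • zv l

private theorem cfg_exten {T : ℕ} (hT : 0 < T) (l : Fin n → ℤ) (y : Fin T → Vec n) :
    Cfg T l (exten T hT l y) := by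
  intro i
  unfold exten
  have e1 : (⟨(i + T) % T, Nat.mod_lt _ hT⟩ : Fin T) = ⟨i % T, Nat.mod_lt i hT⟩ := by
    apply Fin.ext
    exact Nat.add_mod_right i T
  rw [e1, Nat.add_div_right i hT]
  push_cast
  rw [add_smul, one_smul]
  abel

private theorem exten_cfg {T : ℕ} (hT : 0 < T) {l : Fin n → ℤ} {x : ℕ → Vec n}
    (hx : Cfg T l x) : exten T hT l (fun i => x i) = x := by
  have key : ∀ k j : ℕ, x (j + k * T) = x j + (k : ℝ) • zv l := by
    intro k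
    induction k with
    | zero => intro j; simp
    | succ k ih =>
      intro j
      have e : j + (k + 1) * T = (j + k * T) + T := by ring
      rw [e, hx, ih]
      push_cast
      rw [add_smul, one_smul]
      abel
  funext i
  unfold exten
  simp only
  rw [← key, Nat.mod_add_div']

private theorem exten_cont {T : ℕ} (hT : 0 < T) (l : Fin n → ℤ) (i : ℕ) :
    Continuous fun y : Fin T → Vec n => exten T hT l y i := by
  unfold exten
  exact (continuous_apply _).add continuous_const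

private theorem phi_cont (hN : NF S a m P L) (hφ : IsELFlow L φ) (t₀ : ℝ) {T : ℕ} (hT : 0 < T)
    (l : Fin n → ℤ) : Continuous fun y : Fin T → Vec n => phi L t₀ T (exten T hT l y) := by
  unfold phi
  refine continuous_finsetSum _ fun i _ => ?_
  exact (hac_cont hN hφ (t₀ + i)).comp ((exten_cont hT l i).prodMk (exten_cont hT l (i + 1)))

private theorem cfg_add {T : ℕ} {l : Fin n → ℤ} {x : ℕ → Vec n} (hx : Cfg T l x)
    (w : Vec n) : Cfg T l (fun i => x i + w) := by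
  intro i
  simp only
  rw [hx]
  abel

private theorem phi_add (hN : NF S a m P L) (hφ : IsELFlow L φ) (t₀ : ℝ) (T : ℕ)
    (x : ℕ → Vec n) (l : Fin n → ℤ) : phi L t₀ T (fun i => x i + zv l) = phi L t₀ T x := by
  unfold phi
  refine Finset.sum_congr rfl fun i _ => ?_
  have := hac_per hN hφ (t₀ + i) (x i) (x (i + 1)) 0 l
  rw [Int.cast_zero, add_zero] at this
  exact this

private theorem vn_cell (x : Vec n) : ∃ l : Fin n → ℤ, ∀ i, |(x + zv l) i| ≤ 1 := by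
  refine ⟨fun i => -⌊x i⌋, fun i => ?_⟩
  have e : (x + zv fun i => -⌊x i⌋) i = x i + ((-⌊x i⌋ : ℤ) : ℝ) := rfl
  rw [e]
  push_cast
  rw [← sub_eq_add_neg]
  have h1 := Int.fract_nonneg (x i)
  have h2 := Int.fract_lt_one (x i)
  have h3 : x i - ⌊x i⌋ = Int.fract (x i) := rfl
  rw [h3, abs_of_nonneg h1]
  exact h2.le

private theorem vn_norm {x : Vec n} (hx : ∀ i, |x i| ≤ 1) : ‖x‖ ≤ 1 + n := by
  have h1 : ‖x‖ ^ 2 ≤ n := by
    rw [EuclideanSpace.norm_sq_eq]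
    calc ∑ i, ‖x i‖ ^ 2 ≤ ∑ _i : Fin n, (1 : ℝ) := by
          refine Finset.sum_le_sum fun i _ => ?_
          rw [Real.norm_eq_abs]
          exact pow_le_one₀ (abs_nonneg _) (hx i)
      _ = n := by simp
  nlinarith [norm_nonneg x, sq_nonneg (‖x‖ - 1)]

private theorem coercive (hN : NF S a m P L) (hφ : IsELFlow L φ) (t₀ : ℝ) (T : ℕ) (B : ℝ) :
    ∃ R : ℝ, 0 ≤ R ∧ ∀ x : ℕ → Vec n, (∀ i, |x 0 i| ≤ 1) → phi L t₀ T x ≤ B →
      ∀ i < T, ‖x i‖ ≤ R := by
  have ha := hN.a_pos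
  have hm := hN.m_pos
  set c : ℝ := 1 + 2 / a * (|B| + T * m) with hc
  have hc0 : 0 ≤ c := by positivity
  refine ⟨1 + n + T * c, by positivity, fun x hx hB => ?_⟩
  have h1 : ∀ i < T, ‖x (i + 1) - x i‖ ≤ c := by
    intro i hi
    have h2 : ∑ j ∈ Finset.range T, (a / 2 * ‖x (j + 1) - x j‖ ^ 2 - m) ≤ phi L t₀ T x :=
      Finset.sum_le_sum fun j _ => hac_low hN hφ (t₀ + j) (x j) (x (j + 1))
    rw [Finset.sum_sub_distrib, Finset.sum_const, Finset.card_range, nsmul_eq_mul] at h2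
    have h3 : a / 2 * ‖x (i + 1) - x i‖ ^ 2 ≤
        ∑ j ∈ Finset.range T, a / 2 * ‖x (j + 1) - x j‖ ^ 2 :=
      Finset.single_le_sum (f := fun j => a / 2 * ‖x (j + 1) - x j‖ ^ 2)
        (fun j _ => by positivity) (Finset.mem_range.2 hi)
    have h4 : a / 2 * ‖x (i + 1) - x i‖ ^ 2 ≤ |B| + T * m := by
      have := le_abs_self B
      linarith
    have h5 : ‖x (i + 1) - x i‖ ^ 2 ≤ 2 / a * (|B| + T * m) := by
      rw [div_mul_eq_mul_div, le_div_iff₀ ha]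
      linarith
    nlinarith [norm_nonneg (x (i + 1) - x i), sq_nonneg (‖x (i + 1) - x i‖ - 1)]
  have h2 : ∀ i ≤ T, ‖x i‖ ≤ 1 + n + i * c := by
    intro i
    induction i with
    | zero =>
      intro _
      have := vn_norm hx
      simpa using this
    | succ i ih =>
      intro hi
      have h3 := ih (by omega)
      have h4 := h1 i (by omega)
      have h5 : x (i + 1) = (x (i + 1) - x i) + x i := by abel
      rw [h5]
      refine (norm_add_le _ _).trans ?_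
      push_cast
      linarith
  intro i hi
  refine (h2 i hi.le).trans ?_
  have h3 : (i : ℝ) ≤ T := by exact_mod_cast hi.le
  have h4 := mul_le_mul_of_nonneg_right h3 hc0
  linarith

theorem exists_min (hN : NF S a m P L) (hφ : IsELFlow L φ) (t₀ : ℝ) {T : ℕ} (hT : 0 < T)
    (l : Fin n → ℤ) : ∃ x : ℕ → Vec n, Cfg T l x ∧ ∀ y : ℕ → Vec n, Cfg T l y →
      ∑ i ∈ Finset.range T, hac L (t₀ + i) (x i) (x (i + 1)) ≤
        ∑ i ∈ Finset.range T, hac L (t₀ + i) (y i) (y (i + 1)) := by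
  set Z : ℕ → Vec n := exten T hT l 0 with hZ
  obtain ⟨R, hR, hR'⟩ := coercive hN hφ t₀ T (phi L t₀ T Z)
  obtain ⟨y, hy, hmin⟩ := (isCompact_closedBall (0 : Fin T → Vec n) R).exists_isMinOn
    ⟨0, Metric.mem_closedBall_self hR⟩ (phi_cont hN hφ t₀ hT l).continuousOn
  refine ⟨exten T hT l y, cfg_exten hT l y, fun y' hy' => ?_⟩
  show phi L t₀ T (exten T hT l y) ≤ phi L t₀ T y'
  obtain ⟨k, hk⟩ := vn_cell (y' 0)
  rw [← phi_add hN hφ t₀ T y' k]
  have hc := cfg_add hy' (zv k)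
  rcases le_or_gt (phi L t₀ T fun i => y' i + zv k) (phi L t₀ T Z) with h1 | h1
  · have h2 := hR' _ hk h1
    have h3 : (fun i : Fin T => y' i + zv k) ∈ Metric.closedBall (0 : Fin T → Vec n) R := by
      rw [mem_closedBall_zero_iff, pi_norm_le_iff_of_nonneg hR]
      intro i
      exact h2 i i.2
    have h4 := hmin h3
    simp only [Set.mem_ofPred_eq] at h4
    have h5 := exten_cfg hT hc
    have h6 : exten T hT l (fun i : Fin T => y' i + zv k) = fun i => y' i + zv k := h5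
    rw [h6] at h4
    exact h4
  · have h2 := hmin (Metric.mem_closedBall_self hR : (0 : Fin T → Vec n) ∈ _)
    exact (show phi L t₀ T (exten T hT l y) ≤ phi L t₀ T Z from h2).trans h1.le

end Pool.Agent.LRig
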