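import Pool.Agent.LRig.VN

/-!
# LR (MP_74f563_an, all n), file VO: minimal closed curves are closed orbits

PROOF of `no_corner`.  Let `x` be a minimal configuration (`exists_min`), `γ_i` the arc from
`(t₀ + i, x_i)` to `(t₀ + i + 1, x_{i+1})` (`exists_arc`), for all natural `i`.  Fix `i ≥ 1` and
`d ∈ ℝⁿ`; let
`y` be the configuration with `y_k = x_k + d` for `k ≡ i (mod T)` and `y_k = x_k` otherwise (`Cfg`).
If `T ≥ 2` the sum changes in two terms (the terms with index `≡ i - 1` and `≡ i`); they are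
`hac` of arcs with one endpoint moved by `d`; `hac_per` reduces the indices modulo `T`; by `var_le`
`0 ≤ Φ y - Φ x ≤ (p_{i-1}^+ - p_i^-) d + 2 C₀ ‖d‖²`, where `p_{i-1}^+ = lv` of `γ_{i-1}` at time
`t₀ + i` and
`p_i^-` is `lv` of `γ_i` at time `t₀ + i`; so `p_{i-1}^+ = p_i^-` (replace `d` by `s d`, `s → 0`,
and `-d`).
If `T = 1` all points are moved by `d`: the only term changes by
`(p^+ - p^-) d + O(‖d‖²)` and `p_{i-1}^+ = p_i^-` in the same way (`γ_i` is the translate of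
`γ_{i-1}`:
`arc_unique`, `el_shift`).  `lv_inj`: `γ_{i-1}' (t₀+i) = γ_i' (t₀+i)`, so `γ_{i-1} = γ_i` by
`el_unique`.  So all
`γ_i` are equal to one solution `γ` with `γ (t₀ + i) = x_i`; and `γ (t + T) = γ t + zv l`: both
sides are
solutions (`el_shift`) with the same values at `t = t₀`, `t₀ + 1` (`arc_unique`).
`exists_orbit`: the action of `γ` on `[t₀, t₀+T]` is `Φ x` (`hac_eq`, `act_add`), and every closed
curve
`(z, u)` of type `(T, l)` has action `≥ ∑ hac (t₀+i) (z (t₀+i)) (z (t₀+i+1)) ≥ Φ x` (`hac_le`;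
the configuration `y_i = z (t₀ + i)` for `i ≤ T`, extended to a `Cfg`).
-/

set_option autoImplicit false

namespace Pool.Agent.LRig

open Set MeasureTheory Pool.Agent.MechAlpha
open scoped RealInnerProductSpace ContDiff

variable {n : ℕ} {S : Vec n ≃L[ℝ] Vec n} {a m : ℝ} {P : Vec n × Vec n × ℝ → ℝ}
  {L : Torus n → Vec n → UnitAddCircle → ℝ} {φ : ℝ → Phase n → Phase n} {γ : ℝ → Vec n}

private theorem pazv (x : Vec n) (l : Fin n → ℤ) : proj (x + zv l) = proj x := by
  funext i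
  have : ((x + zv l : Vec n) i : ℝ) = x i + (l i : ℝ) := rfl
  simp only [proj]
  have h2 : (((l i : ℤ) : ℝ) : UnitAddCircle) = 0 := by
    rw [AddCircle.coe_eq_zero_iff]
    exact ⟨l i, by simp⟩
  rw [this, AddCircle.coe_add, h2, add_zero]

private theorem lv_per (x v : Vec n) (t : ℝ) (k : ℤ) (l : Fin n → ℤ) :
    lv L (x + zv l) v (t + k) = lv L x v t := by
  have h2 : (((k : ℤ) : ℝ) : UnitAddCircle) = 0 := by
    rw [AddCircle.coe_eq_zero_iff]
    exact ⟨k, by simp⟩
  have h3 : ((t + (k : ℝ) : ℝ) : UnitAddCircle) = (t : UnitAddCircle) := by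
    rw [AddCircle.coe_add, h2, add_zero]
  unfold lv
  rw [pazv, h3]

/-- the arcs of a configuration -/
private theorem arcs (hN : NF S a m P L) (hφ : IsELFlow L φ) (t₀ : ℝ) {T : ℕ}
    {l : Fin n → ℤ} {x : ℕ → Vec n} (hx : Cfg T l x) :
    ∃ G : ℕ → ℝ → Vec n, (∀ i, IsEL L (G i)) ∧ (∀ i : ℕ, G i (t₀ + i) = x i) ∧
      (∀ i : ℕ, G i (t₀ + i + 1) = x (i + 1)) ∧
      ∀ i : ℕ, G (i + T) = fun t => G i (t - ((T : ℤ) : ℝ)) + zv l := by
  choose G hG using fun i : ℕ => exists_arc hN hφ (t₀ + i) (x i) (x (i + 1))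
  refine ⟨G, fun i => (hG i).1, fun i => (hG i).2.1, fun i => (hG i).2.2, fun i => ?_⟩
  refine arc_unique (t₀ := t₀ + ((i + T : ℕ) : ℝ)) hN (hG (i + T)).1
    (el_shift (hG i).1 (T : ℤ) l) ?_ ?_
  · rw [(hG (i + T)).2.1, hx i]
    have : t₀ + ((i + T : ℕ) : ℝ) - ((T : ℤ) : ℝ) = t₀ + i := by push_cast; ring
    simp only [this, (hG i).2.1]
  · rw [(hG (i + T)).2.2]
    have h1 : t₀ + ((i + T : ℕ) : ℝ) + 1 - ((T : ℤ) : ℝ) = t₀ + i + 1 := by push_cast; ring
    have h2 : x (i + T + 1) = x (i + 1) + zv l := by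
      rw [← hx (i + 1)]
      congr 1
      ring
    simp only [h1, (hG i).2.2, h2]

private theorem deriv_sh {γ : ℝ → Vec n} {r : ℝ} {w : Vec n} (t : ℝ) :
    deriv (fun t => γ (t - r) + w) t = deriv γ (t - r) := by
  rw [deriv_add_const', deriv_comp_sub_const]

private theorem sum_ind {T : ℕ} (hT : 0 < T) (f : ℕ → ℝ) (hf : ∀ i, f (i + T) = f i) (k : ℕ) :
    ∑ i ∈ Finset.range T, (if i % T = k % T then f i else 0) = f k := by
  have hk : k % T < T := Nat.mod_lt _ hT
  rw [Finset.sum_eq_single (k % T)]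
  · rw [if_pos (Nat.mod_mod _ _)]
    exact Function.Periodic.map_mod_nat (f := f) hf k
  · intro i hi hne
    rw [if_neg]
    rw [Nat.mod_eq_of_lt (Finset.mem_range.mp hi)]
    exact hne
  · intro h
    exact absurd (Finset.mem_range.mpr hk) h

private theorem sum_ind' {T : ℕ} (hT : 0 < T) (f : ℕ → ℝ) (hf : ∀ i, f (i + T) = f i) (k : ℕ) :
    ∑ i ∈ Finset.range T, (if (i + 1) % T = (k + 1) % T then f i else 0) = f k := by
  rw [← sum_ind hT f hf k]
  refine Finset.sum_congr rfl fun i _ => ?_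
  have : ((i + 1) % T = (k + 1) % T) ↔ (i % T = k % T) := by
    constructor
    · intro h
      exact Nat.ModEq.add_right_cancel' 1 h
    · intro h
      exact Nat.ModEq.add_right 1 h
  simp only [this]

private theorem quad {A B : ℝ} (h : ∀ s : ℝ, 0 ≤ s * A + s ^ 2 * B) : A = 0 := by
  by_contra hA
  have hB : 0 ≤ |B| := abs_nonneg _
  have h1 := h (-A / (|B| + 1))
  have h2 : (-A / (|B| + 1)) * A + (-A / (|B| + 1)) ^ 2 * B < 0 := by
    have h3 : (-A / (|B| + 1)) * A + (-A / (|B| + 1)) ^ 2 * B =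
        -(A ^ 2 * (|B| + 1 - B)) / (|B| + 1) ^ 2 := by
      field_simp
      ring
    rw [h3]
    apply div_neg_of_neg_of_pos
    · have : B ≤ |B| := le_abs_self _
      have : 0 < A ^ 2 := by positivity
      nlinarith
    · positivity
  linarith

theorem no_corner (hN : NF S a m P L) (hφ : IsELFlow L φ) {t₀ : ℝ} {T : ℕ} (hT : 0 < T)
    {l : Fin n → ℤ} {x : ℕ → Vec n} (hx : Cfg T l x)
    (hm : ∀ y : ℕ → Vec n, Cfg T l y →
      ∑ i ∈ Finset.range T, hac L (t₀ + i) (x i) (x (i + 1)) ≤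
        ∑ i ∈ Finset.range T, hac L (t₀ + i) (y i) (y (i + 1))) :
    ∃ γ : ℝ → Vec n, IsEL L γ ∧ (∀ i : ℕ, γ (t₀ + i) = x i) ∧
      ∀ t, γ (t + T) = γ t + zv l := by
  obtain ⟨G, hG, hG0, hG1, hGT⟩ := arcs hN hφ t₀ hx
  -- the momenta
  set pp : ℕ → (Vec n →L[ℝ] ℝ) := fun i => lv L (x (i + 1)) (deriv (G i) (t₀ + i + 1)) (t₀ + i + 1)
    with hpp
  set pm : ℕ → (Vec n →L[ℝ] ℝ) := fun i => lv L (x i) (deriv (G i) (t₀ + i)) (t₀ + i) with hpm
  have hppT : ∀ i, pp (i + T) = pp i := by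
    intro i
    simp only [hpp]
    rw [hGT i, deriv_sh]
    have h1 : t₀ + ((i + T : ℕ) : ℝ) + 1 - ((T : ℤ) : ℝ) = t₀ + i + 1 := by push_cast; ring
    have h2 : x (i + T + 1) = x (i + 1) + zv l := by
      rw [← hx (i + 1)]
      congr 1
      ring
    have h3 : t₀ + ((i + T : ℕ) : ℝ) + 1 = (t₀ + i + 1) + ((T : ℤ) : ℝ) := by push_cast; ring
    rw [h1, h2, h3, lv_per]
  have hpmT : ∀ i, pm (i + T) = pm i := by
    intro i
    simp only [hpm]
    rw [hGT i, deriv_sh]
    have h1 : t₀ + ((i + T : ℕ) : ℝ) - ((T : ℤ) : ℝ) = t₀ + i := by push_cast; ring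
    have h3 : t₀ + ((i + T : ℕ) : ℝ) = (t₀ + i) + ((T : ℤ) : ℝ) := by push_cast; ring
    rw [h1, hx i, h3, lv_per]
  -- no corner
  have key : ∀ k, pp k = pm (k + 1) := by
    intro k
    ext d
    set δ : ℕ → ℝ := fun i => if i % T = (k + 1) % T then 1 else 0 with hδ
    have hδT : ∀ i, δ (i + T) = δ i := fun i => by simp only [hδ, Nat.add_mod_right]
    set C : ℝ := ‖(S : Vec n →L[ℝ] Vec n)‖ ^ 2 + 8 * m + 1 with hC
    have hq : ∀ s : ℝ, 0 ≤ s * (∑ i ∈ Finset.range T, (δ (i + 1) * pp i d - δ i * pm i d)) +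
        s ^ 2 * (∑ i ∈ Finset.range T, C * (‖δ i • d‖ ^ 2 + ‖δ (i + 1) • d‖ ^ 2)) := by
      intro s
      have hy : Cfg T l (fun i => x i + (s * δ i) • d) := by
        intro i
        simp only [hδT, hx i]
        abel
      have h1 := hm _ hy
      have h2 : ∀ i ∈ Finset.range T,
          hac L (t₀ + i) (x i + (s * δ i) • d) (x (i + 1) + (s * δ (i + 1)) • d) ≤
            hac L (t₀ + i) (x i) (x (i + 1)) + (s * (δ (i + 1) * pp i d - δ i * pm i d) +
              s ^ 2 * (C * (‖δ i • d‖ ^ 2 + ‖δ (i + 1) • d‖ ^ 2))) := by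
        intro i _
        obtain ⟨g, hg, hg0, hg1⟩ := exists_arc hN hφ (t₀ + i) (x i + (s * δ i) • d)
          (x (i + 1) + (s * δ (i + 1)) • d)
        have e1 := hac_eq hN hg (t₀ + i)
        rw [hg0, hg1] at e1
        have e2 := hac_eq hN (hG i) (t₀ + i)
        rw [hG0, hG1] at e2
        have e3 := var_le hN (hG i) hg (t₀ + i)
        rw [hG0, hG1, hg0, hg1, add_sub_cancel_left, add_sub_cancel_left, map_smul, map_smul] at e3
        rw [e1, e2]
        simp only [smul_eq_mul] at e3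
        have e4 : ‖(s * δ i) • d‖ ^ 2 = s ^ 2 * ‖δ i • d‖ ^ 2 := by
          rw [mul_smul, norm_smul s, mul_pow, Real.norm_eq_abs, sq_abs]
        have e5 : ‖(s * δ (i + 1)) • d‖ ^ 2 = s ^ 2 * ‖δ (i + 1) • d‖ ^ 2 := by
          rw [mul_smul, norm_smul s, mul_pow, Real.norm_eq_abs, sq_abs]
        rw [e4, e5] at e3
        simp only [hpp, hpm, hC]
        linarith
      have h3 := Finset.sum_le_sum h2
      rw [Finset.sum_add_distrib, Finset.sum_add_distrib, ← Finset.mul_sum,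
        ← Finset.mul_sum] at h3
      linarith
    have h0 := quad hq
    rw [Finset.sum_sub_distrib] at h0
    have h5 : ∑ i ∈ Finset.range T, δ (i + 1) * pp i d = pp k d := by
      rw [← sum_ind' hT (fun i => pp i d) (fun i => by simp only [hppT]) k]
      refine Finset.sum_congr rfl fun i _ => ?_
      simp only [hδ]
      split_ifs <;> simp
    have h6 : ∑ i ∈ Finset.range T, δ i * pm i d = pm (k + 1) d := by
      rw [← sum_ind hT (fun i => pm i d) (fun i => by simp only [hpmT]) (k + 1)]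
      refine Finset.sum_congr rfl fun i _ => ?_
      simp only [hδ]
      split_ifs <;> simp
    rw [h5, h6] at h0
    linarith
  have hstep : ∀ k, G k = G (k + 1) := by
    intro k
    have h1 : t₀ + ((k + 1 : ℕ) : ℝ) = t₀ + k + 1 := by push_cast; ring
    have h2 : G (k + 1) (t₀ + k + 1) = x (k + 1) := by rw [← h1]; exact hG0 (k + 1)
    refine el_unique (t₀ := t₀ + k + 1) hN (hG k) (hG (k + 1)) ?_ ?_
    · rw [hG1, h2]
    · have h3 := key k
      simp only [hpp, hpm] at h3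
      rw [h1] at h3
      exact lv_inj hN h3
  have hall : ∀ k, G k = G 0 := by
    intro k
    induction k with
    | zero => rfl
    | succ k ih => rw [← hstep k, ih]
  refine ⟨G 0, hG 0, fun i => ?_, fun t => ?_⟩
  · rw [← hall i]
    exact hG0 i
  · have h1 := hGT 0
    rw [Nat.zero_add, hall T] at h1
    have h2 := congrFun h1 (t + T)
    rw [h2]
    congr 2
    push_cast
    ring

/-- the action is the sum of the actions of the pieces -/
private theorem act_sum (hN : NF S a m P L) {z u : ℝ → Vec n} {t₀ : ℝ} {T : ℕ}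
    (hz : VCv z u t₀ (t₀ + T)) :
    ∑ i ∈ Finset.range T, act L z u (t₀ + i) (t₀ + i + 1) = act L z u t₀ (t₀ + T) := by
  have h := intervalIntegral.sum_integral_adjacent_intervals (μ := volume)
    (f := fun r => lf L (z r) (u r) r) (a := fun i : ℕ => t₀ + (i : ℝ)) (n := T) (by
      intro k hk
      have hk' : ((k + 1 : ℕ) : ℝ) ≤ T := by exact_mod_cast hk
      push_cast at hk'
      refine act_int hN (hz.restrict ?_ ?_ ?_)
      · have : (0 : ℝ) ≤ k := Nat.cast_nonneg k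
        linarith
      · push_cast
        linarith
      · push_cast
        linarith)
  simp only [Nat.cast_zero, add_zero] at h
  unfold act
  rw [← h]
  refine Finset.sum_congr rfl fun i _ => ?_
  have : t₀ + ((i + 1 : ℕ) : ℝ) = t₀ + i + 1 := by push_cast; ring
  rw [this]

theorem exists_orbit (hN : NF S a m P L) (hφ : IsELFlow L φ) (t₀ : ℝ) {T : ℕ} (hT : 0 < T)
    (l : Fin n → ℤ) : ∃ γ : ℝ → Vec n, IsEL L γ ∧ (∀ t, γ (t + T) = γ t + zv l) ∧
      ∀ z u : ℝ → Vec n, VCv z u t₀ (t₀ + T) → z (t₀ + T) = z t₀ + zv l →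
        act L γ (deriv γ) t₀ (t₀ + T) ≤ act L z u t₀ (t₀ + T) := by
  obtain ⟨x, hx, hm⟩ := exists_min hN hφ t₀ hT l
  obtain ⟨γ, hγ, hγx, hγT⟩ := no_corner hN hφ hT hx hm
  refine ⟨γ, hγ, hγT, fun z u hz hzl => ?_⟩
  have hT0 : (0 : ℝ) ≤ T := Nat.cast_nonneg T
  rw [← act_sum hN (el_vcv hN hγ (by linarith : t₀ ≤ t₀ + T)), ← act_sum hN hz]
  set y : ℕ → Vec n := fun i => z (t₀ + ((i % T : ℕ) : ℝ)) + (i / T : ℕ) • zv l with hy
  have hyc : Cfg T l y := by
    intro i
    simp only [hy, Nat.add_mod_right, Nat.add_div_right _ hT, add_smul, one_smul]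
    abel
  have hy0 : ∀ i : ℕ, i ≤ T → y i = z (t₀ + i) := by
    intro i hi
    rcases Nat.lt_or_eq_of_le hi with h | h
    · simp only [hy, Nat.mod_eq_of_lt h, Nat.div_eq_of_lt h, zero_smul, add_zero]
    · subst h
      simp only [hy, Nat.mod_self, Nat.div_self hT, Nat.cast_zero, add_zero, one_smul]
      exact hzl.symm
  have h1 := hm y hyc
  have h2 : ∑ i ∈ Finset.range T, act L γ (deriv γ) (t₀ + i) (t₀ + i + 1) =
      ∑ i ∈ Finset.range T, hac L (t₀ + i) (x i) (x (i + 1)) := by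
    refine Finset.sum_congr rfl fun i _ => ?_
    rw [← hac_eq hN hγ (t₀ + i), hγx i]
    have : t₀ + (i : ℝ) + 1 = t₀ + ((i + 1 : ℕ) : ℝ) := by push_cast; ring
    rw [this, hγx (i + 1)]
  rw [h2]
  refine h1.trans (Finset.sum_le_sum fun i hi => ?_)
  have hi' : i < T := Finset.mem_range.mp hi
  have hi'' : ((i + 1 : ℕ) : ℝ) ≤ T := by exact_mod_cast hi'
  push_cast at hi''
  rw [hy0 i hi'.le, hy0 (i + 1) hi']
  have : t₀ + ((i + 1 : ℕ) : ℝ) = t₀ + i + 1 := by push_cast; ring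
  rw [this]
  refine hac_le hN hφ (hz.restrict ?_ ?_ ?_)
  · have : (0 : ℝ) ≤ i := Nat.cast_nonneg i
    linarith
  · linarith
  · linarith

end Pool.Agent.LRig
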