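import Pool.Agent.LRig.VO

/-!
# LR (MP_74f563_an, all n), file VP: the closed curve inequality at the level `α(c)`

PROOF of `act_mem'`: the invariant measure of the closed orbit, exactly as `action_mem` in
`Pool.Agent.MechAlpha.Lower` and `act_mem` in `Pool.Agent.NOne.BrMem` (`flow_el` instead of
`flow_newton`): `ν` = product of the Haar probability measures on `AddCircle T × UnitAddCircle`,
`G (s, r) = (proj (γ s), γ' s, ..)`.  Here the system depends on time, so take the orbit through
`(proj (γ t₀), γ' t₀, t₀)` itself: `G : AddCircle (T : ℝ) → Phase n`,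
`G s = (proj (γ s), γ' s, (s : UnitAddCircle))` is well defined and continuous
(`γ (s + T) = γ s + zv l`,
`T` an integer), `φ r (G s) = G (s + r)` by `flow_el`, so the image of the Haar measure is
invariant;
the integral of `F z = L z - ⟪c, z.2.1⟫` is `T⁻¹ ∫_{t₀}^{t₀+T} (lf L γ γ' - ⟪c, γ'⟫)`.
PROOF of `clo_alpha`.  The set `actions L φ c` is bounded below (`low_bdd`: the integrals of
functions
`≥ -C₁` with respect to probability measures); so `-alpha L φ c ≤ T⁻¹ ∫ (lf L γ γ' - ⟪c, γ'⟫)` for
the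
minimal closed orbit of type `(T, l)` (`exists_orbit` with `t₀ = a`), and for a closed curve
`∫ (lf L z u - ⟪c, u⟫) = act z - ⟪c, zv l⟫ ≥ act γ - ⟪c, zv l⟫ = ∫ (lf L γ γ' - ⟪c, γ'⟫) ≥ -T alpha`
(`VCv.ftc`).
-/

set_option autoImplicit false

namespace Pool.Agent.LRig

open Set MeasureTheory Pool.Agent.MechAlpha
open scoped RealInnerProductSpace ContDiff

variable {n : ℕ} {S : Vec n ≃L[ℝ] Vec n} {a m : ℝ} {P : Vec n × Vec n × ℝ → ℝ}
  {L : Torus n → Vec n → UnitAddCircle → ℝ} {φ : ℝ → Phase n → Phase n} {γ : ℝ → Vec n}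

private theorem proj_add_zv' (x : Vec n) (k : Fin n → ℤ) : proj (x + zv k) = proj x := by
  funext i
  simp only [proj, zv, PiLp.add_apply, AddCircle.coe_add, add_eq_left]
  have := AddCircle.coe_eq_zero_iff (p := (1 : ℝ)) (x := (k i : ℝ))
  exact this.2 ⟨k i, by simp⟩

theorem act_mem' (hN : NF S a m P L) (hφ : IsELFlow L φ) (h : IsEL L γ) {T : ℕ} (hT : 0 < T)
    {l : Fin n → ℤ} (hp : ∀ t, γ (t + T) = γ t + zv l) (c : Vec n) (t₀ : ℝ) :
    (T : ℝ)⁻¹ * ∫ t in t₀..(t₀ + T), (lf L (γ t) (deriv γ t) t - ⟪c, deriv γ t⟫) ∈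
      actions L φ c := by
  have hq' : (0 : ℝ) < T := by exact_mod_cast hT
  have : Fact (0 < (T : ℝ)) := ⟨hq'⟩
  have hXc : Continuous γ := h.1.continuous
  have hWc : Continuous (deriv γ) := el_cont hN h
  have hW : ∀ t, deriv γ (t + T) = deriv γ t := by
    intro t
    have h1 : deriv (fun s => γ (s + T)) t = deriv γ (t + T) := deriv_comp_add_const γ (T : ℝ) t
    have h2 : deriv (fun s => γ s + zv l) t = deriv γ t := deriv_add_const (zv l)
    rw [← h1, ← h2]
    congr 1
    exact funext hp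
  have hpX : Function.Periodic (fun s => proj (γ s)) (T : ℝ) := by
    intro s
    show proj (γ (s + T)) = proj (γ s)
    rw [hp, proj_add_zv']
  have hpW : Function.Periodic (fun s => deriv γ s) (T : ℝ) := hW
  have hpT : Function.Periodic (fun s : ℝ => (s : UnitAddCircle)) (T : ℝ) := by
    intro s
    show ((s + T : ℝ) : UnitAddCircle) = (s : UnitAddCircle)
    rw [AddCircle.coe_add]
    have h2 : ((T : ℝ) : UnitAddCircle) = 0 :=
      (AddCircle.coe_eq_zero_iff (p := (1 : ℝ))).2 ⟨(T : ℤ), by simp⟩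
    rw [h2, add_zero]
  have hcP : Continuous hpX.lift := by
    rw [← QuotientAddGroup.isOpenQuotientMap_mk.continuous_comp_iff]
    exact continuous_pi fun i => (AddCircle.continuous_mk' (1 : ℝ)).comp
      ((EuclideanSpace.proj i : Vec n →L[ℝ] ℝ).continuous.comp hXc)
  have hcQ : Continuous hpW.lift := by
    rw [← QuotientAddGroup.isOpenQuotientMap_mk.continuous_comp_iff]
    exact hWc
  have hcT : Continuous hpT.lift := by
    rw [← QuotientAddGroup.isOpenQuotientMap_mk.continuous_comp_iff]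
    exact AddCircle.continuous_mk' (1 : ℝ)
  set G : AddCircle (T : ℝ) → Phase n := fun s => (hpX.lift s, hpW.lift s, hpT.lift s) with hG
  have hGc : Continuous G := hcP.prodMk (hcQ.prodMk hcT)
  set ν : Measure (AddCircle (T : ℝ)) := AddCircle.haarAddCircle (T := (T : ℝ)) with hν
  have hflow : ∀ (r : ℝ) (s : AddCircle (T : ℝ)), φ r (G s) = G (s + (r : AddCircle (T : ℝ))) := by
    intro r s
    induction s using QuotientAddGroup.induction_on with
    | H s => exact flow_el hN hφ h s r
  have hφc : ∀ r, Continuous (φ r) := fun r => by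
    have := hφ.cont.comp (Continuous.prodMk_right (X := ℝ) (Y := Phase n) r)
    exact this
  refine ⟨ν.map G, ⟨Measure.isProbabilityMeasure_map hGc.aemeasurable, fun r => ?_⟩, ?_⟩
  · rw [Measure.map_map (hφc r).measurable hGc.measurable]
    have h1 : φ r ∘ G = G ∘ (fun s => s + (r : AddCircle (T : ℝ))) := by
      funext s
      exact hflow r s
    rw [h1, ← Measure.map_map hGc.measurable (measurable_add_const _), map_add_right_eq_self]
  · set F : Phase n → ℝ := fun z => L z.1 z.2.1 z.2.2 - ⟪c, z.2.1⟫ with hF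
    have hFc : Continuous F := by
      have h2 : Continuous fun z : Phase n => z.2.1 := continuous_fst.comp continuous_snd
      exact (L_cont hN).sub (continuous_const.inner h2)
    have hint : Integrable (fun s => F (G s)) ν := by
      have hc : Continuous fun s => F (G s) := hFc.comp hGc
      exact hc.integrable_of_hasCompactSupport (HasCompactSupport.of_compactSpace _)
    refine ⟨(integrable_map_measure hFc.aestronglyMeasurable hGc.aemeasurable).2 hint, ?_⟩
    rw [integral_map hGc.aemeasurable hFc.aestronglyMeasurable]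
    show _ = ∫ s, F (G s) ∂ν
    rw [AddCircle.integral_haarAddCircle, ← AddCircle.intervalIntegral_preimage (T : ℝ) t₀,
      smul_eq_mul]
    rfl

theorem bdd_actions (hN : NF S a m P L) (φ : ℝ → Phase n → Phase n) (c : Vec n) :
    BddBelow (actions L φ c) := by
  obtain ⟨C₁, hC, hb⟩ := low_bdd hN c
  refine ⟨-C₁, ?_⟩
  rintro r ⟨μ, ⟨hμ, -⟩, hint, rfl⟩
  have h1 := integral_mono (μ := μ) (integrable_const (-C₁)) hint hb
  rw [integral_const, probReal_univ, one_smul] at h1
  exact h1

private theorem int_inner {z u : ℝ → Vec n} {s t : ℝ} (hz : VCv z u s t) (c : Vec n) :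
    IntervalIntegrable (fun r => ⟪c, u r⟫) volume s t ∧
      ∫ r in s..t, ⟪c, u r⟫ = ⟪c, z t - z s⟫ := by
  have h1 := hz.integrable
  have h2 := ContinuousLinearMap.intervalIntegral_comp_comm (innerSL ℝ c) h1
  have h3 : IntervalIntegrable (fun r => ⟪c, u r⟫) volume s t :=
    ⟨(innerSL ℝ c).integrable_comp h1.1, (innerSL ℝ c).integrable_comp h1.2⟩
  refine ⟨h3, ?_⟩
  rw [hz.ftc] at h2
  exact h2

theorem clo_alpha (hN : NF S a m P L) (hφ : IsELFlow L φ) (c : Vec n) :
    Clo L c (alpha L φ c) := by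
  intro z u s T l hT hz hl
  obtain ⟨γ, hγ, hp, hm⟩ := exists_orbit hN hφ s hT l
  have hq' : (0 : ℝ) < T := by exact_mod_cast hT
  have h1 : -alpha L φ c ≤
      (T : ℝ)⁻¹ * ∫ t in s..(s + T), (lf L (γ t) (deriv γ t) t - ⟪c, deriv γ t⟫) := by
    rw [alpha, neg_neg]
    exact csInf_le (bdd_actions hN φ c) (act_mem' hN hφ hγ hT hp c s)
  have hγv : VCv γ (deriv γ) s (s + T) := el_vcv hN hγ (by linarith)
  obtain ⟨i1, e1⟩ := int_inner hz c
  obtain ⟨i2, e2⟩ := int_inner hγv c
  have e3 : ∫ t in s..(s + T), (lf L (z t) (u t) t - ⟪c, u t⟫) = act L z u s (s + T) -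
      ⟪c, zv l⟫ := by
    rw [intervalIntegral.integral_sub (act_int hN hz) i1, e1, hl, add_sub_cancel_left, act]
  have e4 : ∫ t in s..(s + T), (lf L (γ t) (deriv γ t) t - ⟪c, deriv γ t⟫) =
      act L γ (deriv γ) s (s + T) - ⟪c, zv l⟫ := by
    rw [intervalIntegral.integral_sub (act_int hN hγv) i2, e2, hp, add_sub_cancel_left, act]
  have h2 := hm z u hz hl
  rw [e3]
  rw [e4, inv_mul_eq_div, le_div_iff₀ hq'] at h1
  linarith

end Pool.Agent.LRig
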