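import Pool.Agent.LRig.JDefs

/-!
# LR (MP_74f563_an, all n), file ZA: the frequency as a function on the phase space

PROOF.  `b' = n b + ...`: let `Φ (t, θ, h) = (t, X (t, θ, h), Q (t, θ, h))`.  Fix `t`.  With
`Bv = am B`
(`am B (am A w) = w`, `‖am B w‖ ≤ n M ‖w‖` for `n ≥ 1`) the map
`Ψ_t (θ, h) = (X, am B Q)` satisfies
`‖DΨ_t (v, w) - (v, w)‖ ≤ b max (1, n M) (‖v‖ + ‖w‖) ≤ ½ ‖(v, w)‖`
(`X_near`, `Q_near`, hypothesis `hb`; norm of the product is the maximum), so `Ψ_t` minus the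
identity
is `½`-Lipschitz (mean value inequality) and `Ψ_t` is bijective (contraction principle), `DΨ_t` is
invertible.  So `Φ` is a smooth bijection of `ℝ × Vec n × Vec n` whose derivative is everywhere
invertible (block triangular), hence the inverse is smooth (`ContDiffAt.to_localInverse` and
uniqueness; or `Homeomorph`/`OpenPartialHomeomorph` `contDiff_symm`).  `I (t, x, p)` is the
`h`-component of the inverse.  `I_X`: definition.  Periodicity: `Φ (t, θ + zv l, h) = Φ (t, θ, h) +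
(0, zv l, 0)`, `Φ (t + 1, θ, h) = Φ (t, θ, h) + (1, 0, 0)`, and injectivity.
`surj`: surjectivity of `Φ`.
`dI_surj`: for fixed `t` the map `(x, p) ↦ I (t, x, p)` composed with `(θ, h) ↦ (X, Q)` is `h`, so
its
derivative is surjective.
`dI_leaf`: differentiate `I (t, X, Q) = h` in the direction `(0, v, 0)`.
-/

set_option autoImplicit false

namespace Pool.Agent.LRig

open Set MeasureTheory Pool.Agent.MechAlpha
open scoped RealInnerProductSpace ContDiff

variable {n : ℕ}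

private theorem am_am {A B : Matrix (Fin n) (Fin n) ℝ} (h : B * A = 1) (w : Vec n) :
    am B (am A w) = w := by
  ext a
  have h1 : B.mulVec (A.mulVec fun b => w b) = fun b => w b := by
    rw [Matrix.mulVec_mulVec, h, Matrix.one_mulVec]
  exact congrFun h1 a

/-- `am A` as a continuous linear map -/
private noncomputable def amL (A : Matrix (Fin n) (Fin n) ℝ) : Vec n →L[ℝ] Vec n :=
  LinearMap.toContinuousLinearMap
    { toFun := am A
      map_add' := fun v w => by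
        ext a
        simp [am, mul_add, Finset.sum_add_distrib]
      map_smul' := fun c v => by
        ext a
        simp only [am, PiLp.smul_apply, smul_eq_mul, RingHom.id_apply, Finset.mul_sum]
        exact Finset.sum_congr rfl fun b _ => by ring }

private theorem amL_apply (A : Matrix (Fin n) (Fin n) ℝ) (v : Vec n) : amL A v = am A v := rfl

private theorem am_norm {B : Matrix (Fin n) (Fin n) ℝ} {M : ℝ} (hM : 0 ≤ M)
    (hB : ∀ i j, |B i j| ≤ M) (w : Vec n) : ‖am B w‖ ≤ n * M * ‖w‖ := by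
  have h1 : ‖am B w‖ ^ 2 ≤ (n * M * ‖w‖) ^ 2 := by
    rw [EuclideanSpace.norm_sq_eq, mul_pow, mul_pow, EuclideanSpace.norm_sq_eq w]
    have h2 : ∀ a : Fin n, ‖am B w a‖ ^ 2 ≤ n * M ^ 2 * ∑ b, ‖w b‖ ^ 2 := by
      intro a
      have h3 : ‖am B w a‖ ^ 2 = (∑ b, B a b * w b) ^ 2 := by
        rw [Real.norm_eq_abs, sq_abs]
        rfl
      rw [h3]
      refine (Finset.sum_mul_sq_le_sq_mul_sq _ _ _).trans ?_
      have h4 : ∑ b, B a b ^ 2 ≤ n * M ^ 2 := by
        refine (Finset.sum_le_card_nsmul Finset.univ _ (M ^ 2) fun b _ => ?_).trans ?_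
        · exact sq_le_sq' (abs_le.1 (hB a b)).1 (abs_le.1 (hB a b)).2
        · rw [Finset.card_univ, Fintype.card_fin, nsmul_eq_mul]
      have h5 : ∑ b, w b ^ 2 = ∑ b, ‖w b‖ ^ 2 :=
        Finset.sum_congr rfl fun b _ => by rw [Real.norm_eq_abs, sq_abs]
      rw [h5]
      exact mul_le_mul_of_nonneg_right h4 (Finset.sum_nonneg fun b _ => sq_nonneg _)
    refine (Finset.sum_le_card_nsmul Finset.univ _ _ fun a _ => h2 a).trans (le_of_eq ?_)
    rw [Finset.card_univ, Fintype.card_fin, nsmul_eq_mul]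
    ring
  exact le_of_sq_le_sq h1 (by positivity)

section

variable {A B : Matrix (Fin n) (Fin n) ℝ} {M b : ℝ} {R : CE n → ℂ}
    {X Q : ℝ × Vec n × Vec n → Vec n}

private theorem near1 (hM : 1 ≤ M) (hb : 0 ≤ b) (hb1 : 4 * (n + 1) * M * b ≤ 1)
    (hf : Fam A B R b X Q) (y : ℝ × Vec n × Vec n) (z : Vec n × Vec n) :
    ‖fderiv ℝ X y (0, z) - z.1‖ ≤ 1 / 2 * ‖z‖ := by
  have h1 := hf.X_near y z.1 z.2
  have h2 : ‖z.1‖ ≤ ‖z‖ := norm_fst_le z
  have h3 : ‖z.2‖ ≤ ‖z‖ := norm_snd_le z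
  have h4 : 2 * b ≤ 1 / 2 := by
    have h5 : 4 * 1 * 1 * b ≤ 4 * (n + 1) * M * b := by
      have h6 : (1 : ℝ) ≤ n + 1 := by linarith [(Nat.cast_nonneg n : (0 : ℝ) ≤ n)]
      gcongr
    linarith
  calc ‖fderiv ℝ X y (0, z) - z.1‖ ≤ b * (‖z.1‖ + ‖z.2‖) := h1
    _ ≤ b * (‖z‖ + ‖z‖) := mul_le_mul_of_nonneg_left (add_le_add h2 h3) hb
    _ = 2 * b * ‖z‖ := by ring
    _ ≤ 1 / 2 * ‖z‖ := mul_le_mul_of_nonneg_right h4 (norm_nonneg _)

private theorem near2 (hBA : B * A = 1) (hM : 1 ≤ M) (hB : ∀ i j, |B i j| ≤ M) (hb : 0 ≤ b)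
    (hb1 : 4 * (n + 1) * M * b ≤ 1) (hf : Fam A B R b X Q) (y : ℝ × Vec n × Vec n)
    (z : Vec n × Vec n) : ‖amL B (fderiv ℝ Q y (0, z)) - z.2‖ ≤ 1 / 2 * ‖z‖ := by
  have h1 := hf.Q_near y z.1 z.2
  have h2 : ‖z.1‖ ≤ ‖z‖ := norm_fst_le z
  have h3 : ‖z.2‖ ≤ ‖z‖ := norm_snd_le z
  have h4 : n * M * (2 * b) ≤ 1 / 2 := by
    have h5 : 4 * n * M * b ≤ 4 * (n + 1) * M * b := by
      have h6 : (n : ℝ) ≤ n + 1 := by linarith
      have h7 : 0 ≤ M := zero_le_one.trans hM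
      gcongr
    linarith
  have h5 : amL B (fderiv ℝ Q y (0, z)) - z.2 =
      amL B (fderiv ℝ Q y (0, z.1, z.2) - am A z.2) := by
    rw [map_sub, amL_apply B (am A z.2), am_am hBA]
  rw [h5]
  have h0 : 0 ≤ (n : ℝ) * M := mul_nonneg (Nat.cast_nonneg n) (zero_le_one.trans hM)
  calc ‖amL B (fderiv ℝ Q y (0, z.1, z.2) - am A z.2)‖
      ≤ n * M * ‖fderiv ℝ Q y (0, z.1, z.2) - am A z.2‖ :=
        am_norm (zero_le_one.trans hM) hB _
    _ ≤ n * M * (b * (‖z.1‖ + ‖z.2‖)) := mul_le_mul_of_nonneg_left h1 h0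
    _ ≤ n * M * (b * (‖z‖ + ‖z‖)) :=
        mul_le_mul_of_nonneg_left (mul_le_mul_of_nonneg_left (add_le_add h2 h3) hb) h0
    _ = n * M * (2 * b) * ‖z‖ := by ring
    _ ≤ 1 / 2 * ‖z‖ := mul_le_mul_of_nonneg_right h4 (norm_nonneg _)

/-- the map for fixed time is a bijection -/
private theorem bij_t (hBA : B * A = 1) (hM : 1 ≤ M) (hB : ∀ i j, |B i j| ≤ M) (hb : 0 ≤ b)
    (hb1 : 4 * (n + 1) * M * b ≤ 1) (hf : Fam A B R b X Q) (t : ℝ) :
    Function.Bijective fun z : Vec n × Vec n => (X (t, z), amL B (Q (t, z))) := by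
  set f : Vec n × Vec n → Vec n × Vec n := fun z => (X (t, z), amL B (Q (t, z))) with hfdef
  have hX : Differentiable ℝ X := hf.X_smooth.differentiable (by simp)
  have hQ : Differentiable ℝ Q := hf.Q_smooth.differentiable (by simp)
  have hd : ∀ z : Vec n × Vec n, HasFDerivAt (fun z => f z - z)
      ((((fderiv ℝ X (t, z)).comp (ContinuousLinearMap.inr ℝ ℝ (Vec n × Vec n))).prod
        ((amL B).comp ((fderiv ℝ Q (t, z)).comp
          (ContinuousLinearMap.inr ℝ ℝ (Vec n × Vec n))))) -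
        ContinuousLinearMap.id ℝ (Vec n × Vec n)) z := by
    intro z
    have h1 : HasFDerivAt (fun z : Vec n × Vec n => (t, z))
        (ContinuousLinearMap.inr ℝ ℝ (Vec n × Vec n)) z := hasFDerivAt_prodMk_right t z
    have h2 := (hX (t, z)).hasFDerivAt.comp z h1
    have h3 := (hQ (t, z)).hasFDerivAt.comp z h1
    have h4 := (amL B).hasFDerivAt.comp z h3
    exact (h2.prodMk h4).sub (hasFDerivAt_id z)
  have hn : ∀ z : Vec n × Vec n, ‖fderiv ℝ (fun z => f z - z) z‖ ≤ 1 / 2 := by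
    intro z
    rw [(hd z).fderiv]
    refine ContinuousLinearMap.opNorm_le_bound _ (by norm_num) fun w => ?_
    rw [norm_prod_le_iff]
    exact ⟨near1 hM hb hb1 hf (t, z) w, near2 hBA hM hB hb hb1 hf (t, z) w⟩
  have happ : ApproximatesLinearOn f
      ((ContinuousLinearEquiv.refl ℝ (Vec n × Vec n) : Vec n × Vec n →L[ℝ] Vec n × Vec n))
      univ (1 / 2) := by
    refine LipschitzOnWith.approximatesLinearOn ?_
    refine (convex_univ.lipschitzOnWith_of_nnnorm_fderiv_le (𝕜 := ℝ)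
      (f := fun z => f z - z) (C := 1 / 2) (fun z _ => (hd z).differentiableAt) ?_)
    intro z _
    exact hn z
  have hc : Subsingleton (Vec n × Vec n) ∨ (1 / 2 : NNReal) <
      ‖((ContinuousLinearEquiv.refl ℝ (Vec n × Vec n)).symm :
        Vec n × Vec n →L[ℝ] Vec n × Vec n)‖₊⁻¹ := by
    rcases subsingleton_or_nontrivial (Vec n × Vec n) with h | h
    · exact Or.inl h
    · right
      have h1 : ‖((ContinuousLinearEquiv.refl ℝ (Vec n × Vec n)).symm :
          Vec n × Vec n →L[ℝ] Vec n × Vec n)‖₊ = 1 := by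
        ext
        exact ContinuousLinearMap.norm_id
      rw [h1, inv_one]
      exact NNReal.half_lt_self one_ne_zero
  refine ⟨?_, happ.surjective hc⟩
  intro z w hzw
  exact happ.injOn hc (mem_univ z) (mem_univ w) hzw

end

theorem exists_I {A B : Matrix (Fin n) (Fin n) ℝ} {M b : ℝ} {R : CE n → ℂ}
    {X Q : ℝ × Vec n × Vec n → Vec n} (hBA : B * A = 1) (hM : 1 ≤ M) (hB : ∀ i j, |B i j| ≤ M)
    (hb : 0 ≤ b) (hb1 : 4 * (n + 1) * M * b ≤ 1) (hf : Fam A B R b X Q) :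
    ∃ J : ℝ × Vec n × Vec n → Vec n, ContDiff ℝ ∞ J ∧
      (∀ (t : ℝ) (θ h : Vec n), J (t, X (t, θ, h), Q (t, θ, h)) = h) ∧
      (∀ (t : ℝ) (x p : Vec n), ∃ θ h : Vec n, X (t, θ, h) = x ∧ Q (t, θ, h) = p) ∧
      (∀ (t : ℝ) (x p : Vec n) (l : Fin n → ℤ), J (t, x + zv l, p) = J (t, x, p)) ∧
      (∀ (t : ℝ) (x p : Vec n), J (t + 1, x, p) = J (t, x, p)) ∧
      (∀ (y : ℝ × Vec n × Vec n) (w : Vec n), ∃ v v' : Vec n, fderiv ℝ J y (0, v, v') = w) ∧
      (∀ (t : ℝ) (θ h v : Vec n), fderiv ℝ J (t, X (t, θ, h), Q (t, θ, h))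
        (0, fderiv ℝ X (t, θ, h) (0, v, 0), fderiv ℝ Q (t, θ, h) (0, v, 0)) = 0) ∧
      ∀ (t : ℝ) (θ h v : Vec n), v ≠ 0 → fderiv ℝ X (t, θ, h) (0, v, 0) ≠ 0 := by
  have hX : Differentiable ℝ X := hf.X_smooth.differentiable (by simp)
  have hQ : Differentiable ℝ Q := hf.Q_smooth.differentiable (by simp)
  have hinj : Function.Injective (am B) := by
    intro v w hvw
    have h1 : A * B = 1 := mul_eq_one_comm.1 hBA
    rw [← am_am h1 v, ← am_am h1 w, hvw]
  set F : ℝ × Vec n × Vec n → ℝ × Vec n × Vec n := fun y => (y.1, X y, Q y) with hF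
  have hFs : ContDiff ℝ ∞ F := contDiff_fst.prodMk (hf.X_smooth.prodMk hf.Q_smooth)
  have hbij : Function.Bijective F := by
    constructor
    · rintro ⟨t, z⟩ ⟨t', z'⟩ h
      have h1 : t = t' := congrArg Prod.fst h
      subst h1
      have h2 : X (t, z) = X (t, z') := congrArg (fun y => y.2.1) h
      have h3 : Q (t, z) = Q (t, z') := congrArg (fun y => y.2.2) h
      have h4 := (bij_t hBA hM hB hb hb1 hf t).1 (a₁ := z) (a₂ := z') (by
        change (X (t, z), amL B (Q (t, z))) = (X (t, z'), amL B (Q (t, z')))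
        rw [h2, h3])
      rw [h4]
    · rintro ⟨t, x, p⟩
      obtain ⟨z, hz⟩ := (bij_t hBA hM hB hb hb1 hf t).2 (x, am B p)
      have h1 : X (t, z) = x := congrArg Prod.fst hz
      have h2 : am B (Q (t, z)) = am B p := congrArg Prod.snd hz
      refine ⟨(t, z), ?_⟩
      change (t, X (t, z), Q (t, z)) = (t, x, p)
      rw [h1, hinj h2]
  have hFd : ∀ y, HasFDerivAt F ((ContinuousLinearMap.fst ℝ ℝ (Vec n × Vec n)).prod
      ((fderiv ℝ X y).prod (fderiv ℝ Q y))) y := fun y =>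
    hasFDerivAt_fst.prodMk ((hX y).hasFDerivAt.prodMk (hQ y).hasFDerivAt)
  have hFdi : ∀ y, Function.Injective ((ContinuousLinearMap.fst ℝ ℝ (Vec n × Vec n)).prod
      ((fderiv ℝ X y).prod (fderiv ℝ Q y))) := by
    intro y
    rw [injective_iff_map_eq_zero]
    rintro ⟨τ, z⟩ h
    have h1 : τ = 0 := congrArg Prod.fst h
    subst h1
    have h2 : fderiv ℝ X y (0, z) = 0 := congrArg (fun y => y.2.1) h
    have h3 : fderiv ℝ Q y (0, z) = 0 := congrArg (fun y => y.2.2) h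
    have h4 := near1 hM hb hb1 hf y z
    have h5 := near2 hBA hM hB hb hb1 hf y z
    rw [h2, zero_sub, norm_neg] at h4
    rw [h3, map_zero, zero_sub, norm_neg] at h5
    have h6 : ‖z‖ ≤ 1 / 2 * ‖z‖ := norm_prod_le_iff.2 ⟨h4, h5⟩
    have h7 : z = 0 := by
      rw [← norm_le_zero_iff]
      linarith
    rw [h7]
    rfl
  let E : ∀ y : ℝ × Vec n × Vec n, (ℝ × Vec n × Vec n) ≃L[ℝ] (ℝ × Vec n × Vec n) := fun y =>
    (LinearEquiv.ofInjectiveEndo ((ContinuousLinearMap.fst ℝ ℝ (Vec n × Vec n)).prod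
      ((fderiv ℝ X y).prod (fderiv ℝ Q y))).toLinearMap (hFdi y)).toContinuousLinearEquiv
  have hE : ∀ y, HasFDerivAt F (E y : (ℝ × Vec n × Vec n) →L[ℝ] (ℝ × Vec n × Vec n)) y := by
    intro y
    have h1 : (E y : (ℝ × Vec n × Vec n) →L[ℝ] (ℝ × Vec n × Vec n)) =
        (ContinuousLinearMap.fst ℝ ℝ (Vec n × Vec n)).prod
          ((fderiv ℝ X y).prod (fderiv ℝ Q y)) := by
      refine ContinuousLinearMap.ext fun w => ?_
      rfl
    rw [h1]
    exact hFd y
  let e : (ℝ × Vec n × Vec n) ≃ (ℝ × Vec n × Vec n) := Equiv.ofBijective F hbij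
  have hinv : ContDiff ℝ ∞ e.symm := by
    rw [contDiff_iff_contDiffAt]
    intro y
    obtain ⟨x, rfl⟩ := hbij.2 y
    have h1 : ContDiffAt ℝ ∞ F x := hFs.contDiffAt
    have h2 := h1.to_localInverse (hE x) (by simp)
    refine h2.congr_of_eventuallyEq ?_
    have h3 := (h1.hasStrictFDerivAt' (hE x) (by simp)).eventually_right_inverse
    filter_upwards [h3] with z hz
    apply e.injective
    rw [Equiv.apply_symm_apply]
    exact hz.symm
  have heF : ∀ y, e.symm (F y) = y := fun y => e.symm_apply_apply y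
  have hJs : ContDiff ℝ ∞ fun y => (e.symm y).2.2 :=
    contDiff_snd.comp (contDiff_snd.comp hinv)
  have hsur : ∀ (t : ℝ) (x p : Vec n), ∃ θ h : Vec n, X (t, θ, h) = x ∧ Q (t, θ, h) = p := by
    intro t x p
    obtain ⟨⟨t', θ, h⟩, hy⟩ := hbij.2 (t, x, p)
    have h1 : t' = t := congrArg Prod.fst hy
    subst h1
    exact ⟨θ, h, congrArg (fun y => y.2.1) hy, congrArg (fun y => y.2.2) hy⟩
  have hJ : ∀ (t : ℝ) (θ h : Vec n), (e.symm (t, X (t, θ, h), Q (t, θ, h))).2.2 = h := by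
    intro t θ h
    have h1 := heF (t, θ, h)
    exact congrArg (fun y => y.2.2) h1
  have hdJ : ∀ (t : ℝ) (θ h a c : Vec n), fderiv ℝ (fun y => (e.symm y).2.2)
      (t, X (t, θ, h), Q (t, θ, h))
      (0, fderiv ℝ X (t, θ, h) (0, a, c), fderiv ℝ Q (t, θ, h) (0, a, c)) = c := by
    intro t θ h a c
    have h1 : HasFDerivAt (fun y : ℝ × Vec n × Vec n => (e.symm (F y)).2.2) _ (t, θ, h) :=
      ((hJs.differentiable (by simp)) (F (t, θ, h))).hasFDerivAt.comp (t, θ, h) (hFd (t, θ, h))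
    have h2 : (fun y : ℝ × Vec n × Vec n => (e.symm (F y)).2.2) = fun y => y.2.2 := by
      funext y
      rw [heF]
    rw [h2] at h1
    have h3 : HasFDerivAt (fun y : ℝ × Vec n × Vec n => y.2.2)
        ((ContinuousLinearMap.snd ℝ (Vec n) (Vec n)).comp
          (ContinuousLinearMap.snd ℝ ℝ (Vec n × Vec n))) (t, θ, h) :=
      ((ContinuousLinearMap.snd ℝ (Vec n) (Vec n)).comp
        (ContinuousLinearMap.snd ℝ ℝ (Vec n × Vec n))).hasFDerivAt
    have h4 := DFunLike.congr_fun (h1.unique h3) (0, a, c)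
    exact h4
  refine ⟨fun y => (e.symm y).2.2, hJs, hJ, hsur, ?_, ?_, ?_, ?_, ?_⟩
  · intro t x p l
    obtain ⟨θ, h, rfl, rfl⟩ := hsur t x p
    have h1 := hJ t (θ + zv l) h
    rw [hf.X_per, hf.Q_per] at h1
    exact h1.trans (hJ t θ h).symm
  · intro t x p
    obtain ⟨θ, h, rfl, rfl⟩ := hsur t x p
    have h1 := hJ (t + 1) θ h
    rw [hf.X_pert, hf.Q_pert] at h1
    exact h1.trans (hJ t θ h).symm
  · rintro ⟨t, x, p⟩ w
    obtain ⟨θ, h, rfl, rfl⟩ := hsur t x p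
    exact ⟨_, _, hdJ t θ h 0 w⟩
  · intro t θ h v
    exact hdJ t θ h v 0
  · intro t θ h v hv h0
    have h1 := near1 hM hb hb1 hf (t, θ, h) (v, 0)
    rw [h0, zero_sub, norm_neg] at h1
    have h2 : ‖((v, 0) : Vec n × Vec n)‖ = ‖v‖ := by
      rw [Prod.norm_def, norm_zero]
      exact max_eq_left (norm_nonneg _)
    rw [h2] at h1
    have h3 : 0 < ‖v‖ := norm_pos_iff.2 hv
    change ‖v‖ ≤ 1 / 2 * ‖v‖ at h1
    linarith

end Pool.Agent.LRig
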