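import Pool.Agent.LRig.ZA

/-!
# LR (MP_74f563_an, all n), file ZB: the components of the frequency commute

PROOF.  Fix `(t, x, p) = (t, X (t, θ, h), Q (t, θ, h))` (surjectivity).  The subspace
`V = {(X_θ v, Q_θ v)}` of `ℝⁿ × ℝⁿ` has dimension `n` (`X_θ` is injective) and is isotropic
(`Fam.iso`) for
`Ω((a, b), (a', b')) = ⟪b, a'⟫ - ⟪a, b'⟫`.  The linear functional `f_i = ` (component `i` of
`fderiv J` at
the point in the directions `(0, a, b)`) vanishes on `V`.  Let `f_i (a, b) = ⟪g_i, a⟫ + ⟪g_i', b⟫`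
and
`ξ_i = (g_i', -g_i)`; then
`f_i (a, b) = ⟪g_i, a⟫ + ⟪g_i', b⟫ = -(⟪-g_i, a⟫ - ⟪g_i', b⟫) = -Ω(ξ_i, (a, b))`.
So `Ω(ξ_i, V) = 0`.  `Ω` is nondegenerate on the space of dimension `2n` and `V` is isotropic of
dimension `n`, so `V` is equal to its annihilator (dimension `2n - n = n`), `ξ_i ∈ V`, and
`Ω(ξ_i, ξ_j) = 0`; this is `⟪-g_i, g_j'⟫ + ⟪g_i', g_j⟫ = 0`, the bracket (up to sign).
Elementary version of the linear algebra: since `X_θ` is invertible (`‖X_θ - 1‖ ≤ 1/4`-type bound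
or injectivity in finite dimension) there is `v` with `X_θ v = g_i'`.  For all `v'`:
`0 = f_i (X_θ v', Q_θ v') = ⟪g_i, X_θ v'⟫ + ⟪g_i', Q_θ v'⟫ = ⟪g_i, X_θ v'⟫ + ⟪X_θ v, Q_θ v'⟫
= ⟪g_i, X_θ v'⟫ + ⟪Q_θ v, X_θ v'⟫` (`iso`), so `g_i = -Q_θ v`.  So `(g_i', g_i) = (X_θ v, -Q_θ
v)`, and
for `j` in the same way with `w`; the bracket
`⟪g_i, g_j'⟫ - ⟪g_i', g_j⟫ = -⟪Q_θ v, X_θ w⟫ + ⟪X_θ v, Q_θ w⟫
= 0` by `iso`.
-/

set_option autoImplicit false

namespace Pool.Agent.LRig

open Set MeasureTheory Pool.Agent.MechAlpha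
open scoped RealInnerProductSpace ContDiff

variable {n : ℕ}

private theorem sum_single (u : Vec n) : ∑ l, u l • EuclideanSpace.single l (1 : ℝ) = u := by
  ext k
  simp [Finset.sum_apply, Pi.single_apply]

private theorem inner_sum (u v : Vec n) : ⟪u, v⟫ = ∑ l, u l * v l := by
  simp [PiLp.inner_apply, mul_comm]

private theorem der_x {J : ℝ × Vec n × Vec n → Vec n} {t : ℝ} {x p : Vec n}
    (hJ : DifferentiableAt ℝ J (t, x, p)) (i : Fin n) (w : Vec n) :
    fderiv ℝ (fun y : Vec n => J (t, y, p) i) x w = fderiv ℝ J (t, x, p) (0, w, 0) i := by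
  have h1 := (hasFDerivAt_const (𝕜 := ℝ) t x).prodMk
    ((hasFDerivAt_id (𝕜 := ℝ) x).prodMk (hasFDerivAt_const (𝕜 := ℝ) p x))
  have h2 := HasFDerivAt.comp (g := J) x (by exact hJ.hasFDerivAt) h1
  have h3 := ((EuclideanSpace.proj i : Vec n →L[ℝ] ℝ).hasFDerivAt (x := J (t, x, p))).comp x h2
  have h4 : fderiv ℝ (fun y : Vec n => J (t, y, p) i) x = _ := h3.fderiv
  rw [h4]
  rfl

private theorem der_p {J : ℝ × Vec n × Vec n → Vec n} {t : ℝ} {x p : Vec n}
    (hJ : DifferentiableAt ℝ J (t, x, p)) (i : Fin n) (w : Vec n) :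
    fderiv ℝ (fun r : Vec n => J (t, x, r) i) p w = fderiv ℝ J (t, x, p) (0, 0, w) i := by
  have h1 := (hasFDerivAt_const (𝕜 := ℝ) t p).prodMk
    ((hasFDerivAt_const (𝕜 := ℝ) x p).prodMk (hasFDerivAt_id (𝕜 := ℝ) p))
  have h2 := HasFDerivAt.comp (g := J) p (by exact hJ.hasFDerivAt) h1
  have h3 := ((EuclideanSpace.proj i : Vec n →L[ℝ] ℝ).hasFDerivAt (x := J (t, x, p))).comp p h2
  have h4 : fderiv ℝ (fun r : Vec n => J (t, x, r) i) p = _ := h3.fderiv
  rw [h4]
  rfl

theorem bracket_J {A B : Matrix (Fin n) (Fin n) ℝ} {b : ℝ} {R : CE n → ℂ}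
    {X Q J : ℝ × Vec n × Vec n → Vec n} (hf : Fam A B R b X Q) (hJ : ContDiff ℝ ∞ J)
    (h1 : ∀ (t : ℝ) (x p : Vec n), ∃ θ h : Vec n, X (t, θ, h) = x ∧ Q (t, θ, h) = p)
    (h2 : ∀ (t : ℝ) (θ h v : Vec n), fderiv ℝ J (t, X (t, θ, h), Q (t, θ, h))
        (0, fderiv ℝ X (t, θ, h) (0, v, 0), fderiv ℝ Q (t, θ, h) (0, v, 0)) = 0)
    (h3 : ∀ (t : ℝ) (θ h v : Vec n), v ≠ 0 → fderiv ℝ X (t, θ, h) (0, v, 0) ≠ 0)
    (i j : Fin n) (t : ℝ) (x p : Vec n) :
    ∑ l : Fin n,
      (fderiv ℝ (fun y : Vec n => J (t, y, p) i) x (EuclideanSpace.single l 1) *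
          fderiv ℝ (fun r : Vec n => J (t, x, r) j) p (EuclideanSpace.single l 1) -
        fderiv ℝ (fun r : Vec n => J (t, x, r) i) p (EuclideanSpace.single l 1) *
          fderiv ℝ (fun y : Vec n => J (t, y, p) j) x (EuclideanSpace.single l 1)) = 0 := by
  obtain ⟨θ, h, hx, hp⟩ := h1 t x p
  subst hx hp
  have hd : DifferentiableAt ℝ J (t, X (t, θ, h), Q (t, θ, h)) :=
    (hJ.differentiable (by simp)).differentiableAt
  simp only [der_x hd, der_p hd]
  have hiso := hf.iso (t, θ, h)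
  have h2' := h2 t θ h
  have h3' := h3 t θ h
  generalize fderiv ℝ J (t, X (t, θ, h), Q (t, θ, h)) = D at h2' ⊢
  generalize fderiv ℝ X (t, θ, h) = DX at hiso h2' h3'
  generalize fderiv ℝ Q (t, θ, h) = DQ at hiso h2'
  have e1 : ∀ (k : Fin n) (u : Vec n),
      D (0, u, 0) k = ∑ l, u l * D (0, EuclideanSpace.single l 1, 0) k := by
    intro k u
    let F : Vec n →ₗ[ℝ] ℝ :=
      { toFun := fun w => D (0, w, 0) k
        map_add' := fun a b => by
          have : ((0 : ℝ), a + b, (0 : Vec n)) = (0, a, 0) + (0, b, 0) := by simp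
          rw [this, map_add, PiLp.add_apply]
        map_smul' := fun r a => by
          have : ((0 : ℝ), r • a, (0 : Vec n)) = r • (0, a, 0) := by simp
          rw [this, map_smul, PiLp.smul_apply]
          rfl }
    have h5 : F u = ∑ l, u l * F (EuclideanSpace.single l 1) := by
      conv_lhs => rw [← sum_single u, map_sum]
      exact Finset.sum_congr rfl fun l _ => by rw [map_smul, smul_eq_mul]
    exact h5
  have e2 : ∀ (k : Fin n) (u : Vec n),
      D (0, 0, u) k = ∑ l, u l * D (0, 0, EuclideanSpace.single l 1) k := by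
    intro k u
    let F : Vec n →ₗ[ℝ] ℝ :=
      { toFun := fun w => D (0, 0, w) k
        map_add' := fun a b => by
          have : ((0 : ℝ), (0 : Vec n), a + b) = (0, 0, a) + (0, 0, b) := by simp
          rw [this, map_add, PiLp.add_apply]
        map_smul' := fun r a => by
          have : ((0 : ℝ), (0 : Vec n), r • a) = r • (0, 0, a) := by simp
          rw [this, map_smul, PiLp.smul_apply]
          rfl }
    have h5 : F u = ∑ l, u l * F (EuclideanSpace.single l 1) := by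
      conv_lhs => rw [← sum_single u, map_sum]
      exact Finset.sum_congr rfl fun l _ => by rw [map_smul, smul_eq_mul]
    exact h5
  let XL : Vec n →ₗ[ℝ] Vec n :=
    { toFun := fun v => DX (0, v, 0)
      map_add' := fun a b => by
        have : ((0 : ℝ), a + b, (0 : Vec n)) = (0, a, 0) + (0, b, 0) := by simp
        rw [this, map_add]
      map_smul' := fun r a => by
        have : ((0 : ℝ), r • a, (0 : Vec n)) = r • (0, a, 0) := by simp
        rw [this, map_smul]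
        rfl }
  have hinj : Function.Injective XL := by
    rw [injective_iff_map_eq_zero]
    intro v hv
    by_contra hne
    exact h3' v hne hv
  have hsurj : ∀ u : Vec n, ∃ v, DX (0, v, 0) = u := LinearMap.surjective_of_injective hinj
  obtain ⟨v, hv⟩ := hsurj (WithLp.toLp 2 fun l => D (0, 0, EuclideanSpace.single l 1) i)
  obtain ⟨w, hw⟩ := hsurj (WithLp.toLp 2 fun l => D (0, 0, EuclideanSpace.single l 1) j)
  have key : ∀ (k : Fin n) (u : Vec n), D (0, DX (0, u, 0), 0) k =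
      -∑ l, DQ (0, u, 0) l * D (0, 0, EuclideanSpace.single l 1) k := by
    intro k u
    have h5 := h2' u
    have h6 : ((0 : ℝ), DX (0, u, 0), DQ (0, u, 0)) =
        (0, DX (0, u, 0), 0) + (0, 0, DQ (0, u, 0)) := by simp
    rw [h6, map_add] at h5
    have h7 : D (0, DX (0, u, 0), 0) k + D (0, 0, DQ (0, u, 0)) k = 0 := by
      rw [← PiLp.add_apply, h5]
      rfl
    rw [← e2]
    linarith
  rw [Finset.sum_sub_distrib]
  have s1 : ∑ l, D (0, EuclideanSpace.single l 1, 0) i * D (0, 0, EuclideanSpace.single l 1) j =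
      -⟪DQ (0, w, 0), DX (0, v, 0)⟫ := by
    have h5 := key i w
    rw [e1, hw] at h5
    rw [inner_sum, hv]
    rw [← h5]
    exact Finset.sum_congr rfl fun l _ => mul_comm _ _
  have s2 : ∑ l, D (0, 0, EuclideanSpace.single l 1) i * D (0, EuclideanSpace.single l 1, 0) j =
      -⟪DQ (0, v, 0), DX (0, w, 0)⟫ := by
    have h5 := key j v
    rw [e1, hv] at h5
    rw [inner_sum, hw]
    rw [← h5]
  rw [s1, s2, hiso v w, sub_self]

end Pool.Agent.LRig
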