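import Pool.Agent.LRig.ZA
import Pool.Agent.LRig.FB

/-!
# LR (MP_74f563_an, all n), file ZC: the frequency is constant along the solutions

PROOF.  `ham_unique`: the vector field `F t (x, p) = (Hpr B R x p t, -Hxr R x p t)` is Lipschitz in
`(x, p)`,
uniformly in `t`, on all of `ℝⁿ × ℝⁿ`: its components are `∑ B a b p b` plus real parts of first
derivatives of `R` at real points, whose first derivatives are bounded at real points (Cauchy twice:
`R ∈ Fn σ σ`, `‖R‖ ≤ 1`; mean value inequality).  Uniqueness of solutions: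
`ODE_solution_unique_univ` (or `ODE_solution_unique_of_mem_Icc` in both directions of time).
`J_const`: let `(γ, p)` be a solution of Hamilton's equations on `ℝ`, `t₀` a time; choose `θ`, `h`
with
`X (t₀, θ, h) = γ t₀`, `Q (t₀, θ, h) = p t₀`.  Then `t ↦ (X (t, θ + (t - t₀) h, h), Q (..))` is a
solution:
its derivative is `fderiv X (1, h, 0)`, `ham1`, `ham2`.  By uniqueness it is `(γ, p)`, and
`J (t, γ t, p t) = h` for all `t`.
-/

set_option autoImplicit false

namespace Pool.Agent.LRig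

open Set MeasureTheory Pool.Agent.MechAlpha
open scoped RealInnerProductSpace ContDiff

variable {n : ℕ}

/-- functions of the class `Fn` are Lipschitz near the real points -/
private theorem lip_fn {δ c : ℝ} {G : CE n → ℂ} (hδ : 0 < δ) (hc : 0 ≤ c) (hG : Fn δ δ G)
    (hb : Bd δ δ c G) {y y' : CE n} (hy : y ∈ Om n (δ / 2) (δ / 2))
    (hy' : y' ∈ Om n (δ / 2) (δ / 2)) :
    ‖G y - G y'‖ ≤ (2 * n + 1) * (c / (δ / 2)) * ‖y - y'‖ := by
  have hsub : Om n (δ / 2) (δ / 2) ⊆ Om n δ δ := Om_mono (by linarith) (by linarith)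
  have e : δ - δ / 2 = δ / 2 := by ring
  have h1 : ∀ z ∈ Om n (δ / 2) (δ / 2), ‖fderiv ℂ G z‖ ≤ (2 * n + 1) * (c / (δ / 2)) := by
    intro z hz
    have hc' : 0 ≤ c / (δ / 2) := by positivity
    refine ContinuousLinearMap.opNorm_le_bound _ (by positivity) fun v => ?_
    rw [fderiv_coord]
    have a1 : ∀ i, ‖v.1 i * dz i G z‖ ≤ c / (δ / 2) * ‖v‖ := by
      intro i
      rw [norm_mul, mul_comm]
      have b1 : ‖dz i G z‖ ≤ c / (δ / 2) := by
        have b2 := hb.cdz (δ' := δ / 2) hG (by linarith) i z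
          (Om_mono le_rfl (by linarith) hz)
        rwa [e] at b2
      exact mul_le_mul b1 ((norm_le_pi_norm v.1 i).trans (norm_fst_le v)) (norm_nonneg _) hc'
    have a2 : ∀ a, ‖v.2 a * dh a G z‖ ≤ c / (δ / 2) * ‖v‖ := by
      intro a
      rw [norm_mul, mul_comm]
      have b1 : ‖dh a G z‖ ≤ c / (δ / 2) := by
        have b2 := hb.cdh (s' := δ / 2) hG (by linarith) a z
          (Om_mono (by linarith) le_rfl hz)
        rwa [e] at b2
      exact mul_le_mul b1 ((norm_le_pi_norm v.2 a).trans (norm_snd_le v)) (norm_nonneg _) hc'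
    have a3 : ‖∑ i, v.1 i * dz i G z‖ ≤ (n + 1) * (c / (δ / 2) * ‖v‖) := by
      refine (norm_sum_le _ _).trans ((Finset.sum_le_sum fun i _ => a1 i).trans ?_)
      rw [Finset.sum_const, Finset.card_univ, Fintype.card_fin, nsmul_eq_mul]
      push_cast
      exact le_rfl
    have a4 : ‖∑ a, v.2 a * dh a G z‖ ≤ n * (c / (δ / 2) * ‖v‖) := by
      refine (norm_sum_le _ _).trans ((Finset.sum_le_sum fun i _ => a2 i).trans ?_)
      rw [Finset.sum_const, Finset.card_univ, Fintype.card_fin, nsmul_eq_mul]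
    refine (norm_add_le _ _).trans ((add_le_add a3 a4).trans (le_of_eq ?_))
    ring
  exact (convex_Om (δ / 2) (δ / 2)).norm_image_sub_le_of_norm_fderiv_le
    (fun z hz => hG.dat (hsub hz)) h1 hy' hy

private theorem cp_sub_le (t : ℝ) (x p x' p' : Vec n) :
    ‖cp t x p - cp t x' p'‖ ≤ ‖(x, p) - (x', p')‖ := by
  have h1 : ‖x - x'‖ ≤ ‖(x, p) - (x', p')‖ := norm_fst_le ((x, p) - (x', p'))
  have h2 : ‖p - p'‖ ≤ ‖(x, p) - (x', p')‖ := norm_snd_le ((x, p) - (x', p'))
  have h0 : 0 ≤ ‖(x, p) - (x', p')‖ := norm_nonneg _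
  refine max_le ((pi_norm_le_iff_of_nonneg h0).2 fun i => ?_)
    ((pi_norm_le_iff_of_nonneg h0).2 fun a => ?_)
  · refine Fin.cases ?_ (fun a => ?_) i
    · change ‖((t : ℝ) : ℂ) - ((t : ℝ) : ℂ)‖ ≤ _
      rw [sub_self, norm_zero]
      exact h0
    · change ‖((x a : ℝ) : ℂ) - ((x' a : ℝ) : ℂ)‖ ≤ _
      rw [← Complex.ofReal_sub, Complex.norm_real]
      exact (PiLp.norm_apply_le (x - x') a).trans h1
  · change ‖((p a : ℝ) : ℂ) - ((p' a : ℝ) : ℂ)‖ ≤ _
    rw [← Complex.ofReal_sub, Complex.norm_real]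
    exact (PiLp.norm_apply_le (p - p') a).trans h2

private theorem norm_vec_le {w : Vec n} {r : ℝ} (hr : 0 ≤ r) (h : ∀ a, |w a| ≤ r) :
    ‖w‖ ≤ n * r := by
  have h1 : w = ∑ a, w a • (EuclideanSpace.single a (1 : ℝ) : Vec n) := by
    ext b
    simp [Finset.sum_apply, Pi.single_apply]
  rw [h1]
  refine (norm_sum_le _ _).trans ?_
  have h2 : ∀ a ∈ (Finset.univ : Finset (Fin n)),
      ‖w a • (EuclideanSpace.single a (1 : ℝ) : Vec n)‖ ≤ r := by
    intro a _
    rw [norm_smul, EuclideanSpace.norm_single, norm_one, mul_one]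
    exact h a
  refine (Finset.sum_le_sum h2).trans ?_
  rw [Finset.sum_const, Finset.card_univ, Fintype.card_fin, nsmul_eq_mul]

/-- the vector field of the Hamiltonian is Lipschitz -/
private theorem lip_vf {A B : Matrix (Fin n) (Fin n) ℝ} {M σ : ℝ} {R : CE n → ℂ}
    (hc : Ctx A B M σ R) : ∃ K : NNReal, ∀ t : ℝ, LipschitzOnWith K
      (fun z : Vec n × Vec n => (Hpr B R z.1 z.2 t, -Hxr R z.1 z.2 t)) univ := by
  have hσ := hc.σ_pos
  have hM : 0 ≤ M := zero_le_one.trans hc.M_ge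
  obtain ⟨c, hcd⟩ : ∃ c : ℝ, c = 1 / (σ / 2) := ⟨_, rfl⟩
  have hc0 : 0 ≤ c := by
    rw [hcd]
    positivity
  obtain ⟨C, hC⟩ : ∃ C : ℝ, C = (2 * n + 1) * (c / (σ / 2 / 2)) := ⟨_, rfl⟩
  have hC0 : 0 ≤ C := by
    rw [hC]
    positivity
  have e : σ - σ / 2 = σ / 2 := by ring
  have hz : ∀ (i : Fin (n + 1)) (t : ℝ) (x p x' p' : Vec n),
      |(dz i R (cp t x p)).re - (dz i R (cp t x' p')).re| ≤ C * ‖(x, p) - (x', p')‖ := by
    intro i t x p x' p'
    have hb : Bd (σ / 2) (σ / 2) c (dz i R) := by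
      have h1 := (hc.R_bd.mono le_rfl (by linarith : σ / 2 ≤ σ) le_rfl).cdz
        (δ' := σ / 2) (hc.R_fn.mono le_rfl (by linarith)) (by linarith) i
      rwa [e, ← hcd] at h1
    have h2 := lip_fn (by linarith : 0 < σ / 2) hc0
      ((hc.R_fn.dz i).mono (by linarith) (by linarith)) hb
      (y := cp t x p) (y' := cp t x' p') (rp_mem (by linarith) (by linarith) _ _)
      (rp_mem (by linarith) (by linarith) _ _)
    rw [← hC] at h2
    rw [← Complex.sub_re]
    exact (Complex.abs_re_le_norm _).trans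
      (h2.trans (mul_le_mul_of_nonneg_left (cp_sub_le t x p x' p') hC0))
  have hh' : ∀ (a : Fin n) (t : ℝ) (x p x' p' : Vec n),
      |(dh a R (cp t x p)).re - (dh a R (cp t x' p')).re| ≤ C * ‖(x, p) - (x', p')‖ := by
    intro a t x p x' p'
    have hb : Bd (σ / 2) (σ / 2) c (dh a R) := by
      have h1 := (hc.R_bd.mono (by linarith : σ / 2 ≤ σ) le_rfl le_rfl).cdh
        (s' := σ / 2) (hc.R_fn.mono (by linarith) le_rfl) (by linarith) a
      rwa [e, ← hcd] at h1
    have h2 := lip_fn (by linarith : 0 < σ / 2) hc0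
      ((hc.R_fn.dh a).mono (by linarith) (by linarith)) hb
      (y := cp t x p) (y' := cp t x' p') (rp_mem (by linarith) (by linarith) _ _)
      (rp_mem (by linarith) (by linarith) _ _)
    rw [← hC] at h2
    rw [← Complex.sub_re]
    exact (Complex.abs_re_le_norm _).trans
      (h2.trans (mul_le_mul_of_nonneg_left (cp_sub_le t x p x' p') hC0))
  refine ⟨Real.toNNReal (n * ((n * M + C))), fun t => ?_⟩
  refine LipschitzOnWith.of_dist_le_mul fun z _ z' _ => ?_
  rw [Real.coe_toNNReal _ (by positivity), dist_eq_norm, dist_eq_norm]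
  obtain ⟨x, p⟩ := z
  obtain ⟨x', p'⟩ := z'
  have hD : 0 ≤ ‖(x, p) - (x', p')‖ := norm_nonneg _
  have hp : ‖p - p'‖ ≤ ‖(x, p) - (x', p')‖ := norm_snd_le ((x, p) - (x', p'))
  refine max_le ?_ ?_
  · change ‖Hpr B R x p t - Hpr B R x' p' t‖ ≤ _
    rw [mul_assoc]
    refine norm_vec_le (by positivity) fun a => ?_
    have k1 : (Hpr B R x p t - Hpr B R x' p' t) a = ∑ b, B a b * (p b - p' b) +
        ((dh a R (cp t x p)).re - (dh a R (cp t x' p')).re) := by
      change (∑ b, B a b * p b + (dh a R (cp t x p)).re) -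
        (∑ b, B a b * p' b + (dh a R (cp t x' p')).re) = _
      simp only [mul_sub, Finset.sum_sub_distrib]
      ring
    rw [k1]
    refine (abs_add_le _ _).trans ?_
    have k2 : |∑ b, B a b * (p b - p' b)| ≤ n * M * ‖(x, p) - (x', p')‖ := by
      refine (Finset.abs_sum_le_sum_abs _ _).trans ?_
      have k3 : ∀ b ∈ (Finset.univ : Finset (Fin n)), |B a b * (p b - p' b)| ≤
          M * ‖(x, p) - (x', p')‖ := by
        intro b _
        rw [abs_mul]
        exact mul_le_mul (hc.B_le a b) ((PiLp.norm_apply_le (p - p') b).trans hp)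
          (abs_nonneg _) hM
      refine (Finset.sum_le_sum k3).trans ?_
      rw [Finset.sum_const, Finset.card_univ, Fintype.card_fin, nsmul_eq_mul]
      exact (mul_assoc _ _ _).ge
    have k4 := hh' a t x p x' p'
    rw [add_mul]
    exact add_le_add k2 k4
  · change ‖-Hxr R x p t - -Hxr R x' p' t‖ ≤ _
    rw [mul_assoc]
    refine norm_vec_le (by positivity) fun a => ?_
    have k1 : (-Hxr R x p t - -Hxr R x' p' t) a =
        -((dz a.succ R (cp t x p)).re - (dz a.succ R (cp t x' p')).re) := by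
      change -(dz a.succ R (cp t x p)).re - -(dz a.succ R (cp t x' p')).re = _
      ring
    rw [k1, abs_neg]
    refine (hz a.succ t x p x' p').trans ?_
    have k2 : 0 ≤ n * M * ‖(x, p) - (x', p')‖ := by positivity
    rw [add_mul]
    linarith

theorem ham_unique {A B : Matrix (Fin n) (Fin n) ℝ} {M σ : ℝ} {R : CE n → ℂ}
    (hc : Ctx A B M σ R) {γ p γ' p' : ℝ → Vec n}
    (h1 : ∀ t, HasDerivAt γ (Hpr B R (γ t) (p t) t) t)
    (h2 : ∀ t, HasDerivAt p (-Hxr R (γ t) (p t) t) t)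
    (h1' : ∀ t, HasDerivAt γ' (Hpr B R (γ' t) (p' t) t) t)
    (h2' : ∀ t, HasDerivAt p' (-Hxr R (γ' t) (p' t) t) t) {t₀ : ℝ} (hγ : γ t₀ = γ' t₀)
    (hp : p t₀ = p' t₀) : γ = γ' ∧ p = p' := by
  obtain ⟨K, hK⟩ := lip_vf hc
  have h3 : (fun t => (γ t, p t)) = fun t => (γ' t, p' t) :=
    ODE_solution_unique_univ (v := fun t (z : Vec n × Vec n) =>
      (Hpr B R z.1 z.2 t, -Hxr R z.1 z.2 t)) (s := fun _ => univ) (K := K) (t₀ := t₀)
      hK (fun t => ⟨(h1 t).prodMk (h2 t), mem_univ _⟩)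
      (fun t => ⟨(h1' t).prodMk (h2' t), mem_univ _⟩) (by
        beta_reduce
        rw [hγ, hp])
  exact ⟨funext fun t => congrArg Prod.fst (congrFun h3 t),
    funext fun t => congrArg Prod.snd (congrFun h3 t)⟩

theorem J_const {A B : Matrix (Fin n) (Fin n) ℝ} {M σ b : ℝ} {R : CE n → ℂ}
    {X Q J : ℝ × Vec n × Vec n → Vec n} (hc : Ctx A B M σ R) (hf : Fam A B R b X Q)
    (hJ : ∀ (t : ℝ) (θ h : Vec n), J (t, X (t, θ, h), Q (t, θ, h)) = h)
    (hs : ∀ (t : ℝ) (x p : Vec n), ∃ θ h : Vec n, X (t, θ, h) = x ∧ Q (t, θ, h) = p)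
    {γ p : ℝ → Vec n} (h1 : ∀ t, HasDerivAt γ (Hpr B R (γ t) (p t) t) t)
    (h2 : ∀ t, HasDerivAt p (-Hxr R (γ t) (p t) t) t) (s t : ℝ) :
    J (s, γ s, p s) = J (t, γ t, p t) := by
  obtain ⟨θ, h, hX, hQ⟩ := hs s (γ s) (p s)
  have hcv : ∀ r : ℝ, HasDerivAt (fun r => (r, θ + (r - s) • h, h)) ((1, h, 0) :
      ℝ × Vec n × Vec n) r := by
    intro r
    have k1 : HasDerivAt (fun r : ℝ => θ + (r - s) • h) h r := by
      simpa using (((hasDerivAt_id r).sub_const s).smul_const h).const_add θ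
    exact (hasDerivAt_id r).prodMk (k1.prodMk (hasDerivAt_const r h))
  have hX' : ∀ r : ℝ, HasDerivAt (fun r => X (r, θ + (r - s) • h, h))
      (Hpr B R (X (r, θ + (r - s) • h, h)) (Q (r, θ + (r - s) • h, h)) r) r := by
    intro r
    have k1 := (hf.X_smooth.differentiable (by simp)
      (r, θ + (r - s) • h, h)).hasFDerivAt.comp_hasDerivAt r (hcv r)
    rwa [hf.ham1] at k1
  have hQ' : ∀ r : ℝ, HasDerivAt (fun r => Q (r, θ + (r - s) • h, h))
      (-Hxr R (X (r, θ + (r - s) • h, h)) (Q (r, θ + (r - s) • h, h)) r) r := by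
    intro r
    have k1 := (hf.Q_smooth.differentiable (by simp)
      (r, θ + (r - s) • h, h)).hasFDerivAt.comp_hasDerivAt r (hcv r)
    rwa [hf.ham2] at k1
  obtain ⟨e1, e2⟩ := ham_unique hc h1 h2 hX' hQ' (t₀ := s)
    (by
      beta_reduce
      rw [sub_self, zero_smul, add_zero, hX])
    (by
      beta_reduce
      rw [sub_self, zero_smul, add_zero, hQ])
  have key : ∀ r, J (r, γ r, p r) = h := by
    intro r
    rw [e1, e2]
    exact hJ r _ h
  rw [key s, key t]

end Pool.Agent.LRig
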