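import Pool.Agent.LRig.ZB
import Pool.Agent.LRig.ZC
import Pool.Agent.LRig.LC
import Pool.Agent.LRig.VL

/-!
# LR (MP_74f563_an, all n), file ZD: complete integrability from a family of tori

PROOF.  `J` from `exists_I`.  For `z = (ξ, p, τ) : Phase n` choose representatives:
`F i z = J (t, x, p) i`
with `proj x = ξ`, `(t : UnitAddCircle) = τ` (`Function.surjInv` or `Classical.choose`;
`Pool.Agent.MechAlpha.proj_surj`); by the periodicity of `J`
`F i (proj x, p, t) = J (t, x, p) i` for all real `x`, `p`, `t` (two lifts of a point of the torus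
differ
by an integer vector, two lifts of `τ` by an integer).
Smoothness: `(x, p, t) ↦ J (t, x, p) i`.  Constancy: `z = (proj x, v, t)`, `γ` the solution with
`γ t = x`, `γ' t = v` (`IsELFlow.orbit`), `φ s z = (proj (γ (t+s)), γ' (t+s), t+s)`;
`ham_of_el` and `J_const` for `p r = mom L (proj (γ r), γ' r, r)`.
Brackets: `bracket_J`.  Independence: `O = univ`;
`fderiv (y ↦ F i (proj y.1, y.2, t)) (x, p) (v, v')
= (fderiv J (t, x, p) (0, v, v')) i`; if `∑ g_i f_i = 0` then by surjectivity of `(v, v') ↦ fderiv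
J (0, v, v')`
(`exists_I`) all `g_i` vanish (`Fintype.linearIndependent_iff`).
-/

set_option autoImplicit false

namespace Pool.Agent.LRig

open Set MeasureTheory Pool.Agent.MechAlpha
open scoped RealInnerProductSpace ContDiff

variable {n : ℕ}

private theorem zd_circle {s t : ℝ} (h : (s : UnitAddCircle) = (t : UnitAddCircle)) :
    ∃ k : ℤ, s = t + k := by
  have h2 : ((s - t : ℝ) : UnitAddCircle) = 0 := by
    rw [AddCircle.coe_sub, h, sub_self]
  obtain ⟨k, hk⟩ := (AddCircle.coe_eq_zero_iff (p := (1 : ℝ))).1 h2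
  refine ⟨k, ?_⟩
  have : (k : ℝ) = s - t := by simpa using hk
  linarith

private theorem zd_proj {x y : Vec n} (h : proj x = proj y) : ∃ l : Fin n → ℤ, x = y + zv l := by
  have h1 : ∀ i, ∃ k : ℤ, x i = y i + k := fun i => zd_circle (congrFun h i)
  choose l hl using h1
  refine ⟨l, ?_⟩
  ext i
  exact hl i

private theorem zd_per {A : Type} {f : ℝ → A} (h : ∀ x, f (x + 1) = f x) (x : ℝ) (k : ℤ) :
    f (x + k) = f x := by
  have hp : Function.Periodic f 1 := h
  have h2 := (hp.int_mul k) x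
  rwa [mul_one] at h2

theorem ci_of_fam {S : Vec n ≃L[ℝ] Vec n} {σ σ' a m M b : ℝ} {P R : CE n → ℂ}
    {L : Torus n → Vec n → UnitAddCircle → ℝ} {φ : ℝ → Phase n → Phase n}
    {X Q : ℝ × Vec n × Vec n → Vec n} (hσ : 0 < σ) (hP : Fn σ σ P)
    (hN : NF S a m (Pr P) L) (hl : Leg S P R) (hc : Ctx (AS S) (BS S) M σ' R)
    (hφ : IsELFlow L φ) (hb : 0 ≤ b) (hb1 : 4 * (n + 1) * M * b ≤ 1)
    (hf : Fam (AS S) (BS S) R b X Q) : CompletelyIntegrable L φ := by
  classical
  obtain ⟨J, hJs, hJX, hsur, hJx, hJt, hJd, hJl, hX0⟩ :=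
    exists_I hc.inv hc.M_ge hc.B_le hb hb1 hf
  choose xr hxr using proj_surj (n := n)
  choose tr htr using fun t : UnitAddCircle => QuotientAddGroup.mk_surjective t
  have htr' : ∀ t : UnitAddCircle, ((tr t : ℝ) : UnitAddCircle) = t := htr
  set F : Fin n → Phase n → ℝ := fun i z => J (tr z.2.2, xr z.1, z.2.1) i with hF
  have hFJ : ∀ (i : Fin n) (x p : Vec n) (t : ℝ),
      F i (proj x, p, (t : UnitAddCircle)) = J (t, x, p) i := by
    intro i x p t
    obtain ⟨l, hl⟩ := zd_proj (hxr (proj x))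
    obtain ⟨k, hk⟩ := zd_circle (htr' (t : UnitAddCircle))
    show J (tr (t : UnitAddCircle), xr (proj x), p) i = _
    rw [hl, hk, hJx]
    rw [zd_per (f := fun t => J (t, x, p)) (fun t => hJt t x p) t k]
  have hJdiff : ∀ y, DifferentiableAt ℝ J y := fun y => (hJs.differentiable (by simp)) y
  refine ⟨F, fun i => ?_, fun i s z => ?_, fun i j x p t => ?_, univ, isOpen_univ, dense_univ,
    fun x p t _ => ?_⟩
  · have e : (fun q : Vec n × Vec n × ℝ => F i (proj q.1, q.2.1, (q.2.2 : UnitAddCircle))) =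
        fun q => (EuclideanSpace.proj i : Vec n →L[ℝ] ℝ) (J (q.2.2, q.1, q.2.1)) := by
      funext q
      exact hFJ i q.1 q.2.1 q.2.2
    rw [e]
    refine (EuclideanSpace.proj i : Vec n →L[ℝ] ℝ).contDiff.comp (hJs.comp ?_)
    exact (contDiff_snd.comp contDiff_snd).prodMk
      (contDiff_fst.prodMk (contDiff_fst.comp contDiff_snd))
  · obtain ⟨ξ, v, τ⟩ := z
    obtain ⟨x, rfl⟩ := proj_surj ξ
    obtain ⟨t, rfl⟩ := QuotientAddGroup.mk_surjective τ
    obtain ⟨γ, hγ, hγt, hγv, hfl⟩ := hφ.orbit x v t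
    have h1 := fun r => (ham_of_el hσ hP hN hl hγ r).1
    have h2 := fun r => (ham_of_el hσ hP hN hl hγ r).2
    have h3 := J_const hc hf hJX hsur h1 h2 (t + s) t
    have h4 : φ s (proj x, v, ((t : ℝ) : UnitAddCircle)) =
      (proj (γ (t + s)), deriv γ (t + s), ((t + s : ℝ) : UnitAddCircle)) := hfl s
    change F i ((φ s (proj x, v, ((t : ℝ) : UnitAddCircle))).1,
      mom L (φ s (proj x, v, ((t : ℝ) : UnitAddCircle))),
      (φ s (proj x, v, ((t : ℝ) : UnitAddCircle))).2.2) =
      F i (proj x, mom L (proj x, v, ((t : ℝ) : UnitAddCircle)), ((t : ℝ) : UnitAddCircle))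
    rw [h4]
    change F i (proj (γ (t + s)),
      mom L (proj (γ (t + s)), deriv γ (t + s), ((t + s : ℝ) : UnitAddCircle)),
      ((t + s : ℝ) : UnitAddCircle)) = _
    rw [hFJ, hFJ, h3, hγt, hγv]
  · obtain ⟨t, rfl⟩ := QuotientAddGroup.mk_surjective t
    have h1 := bracket_J hf hJs hsur hJl hX0 i j t x p
    unfold bracket
    have e1 : ∀ k, (fun y : Vec n => F k (proj y, p, ((t : ℝ) : UnitAddCircle))) =
        fun y : Vec n => J (t, y, p) k := fun k => funext fun y => hFJ k y p t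
    have e2 : ∀ k, (fun q : Vec n => F k (proj x, q, ((t : ℝ) : UnitAddCircle))) =
        fun q : Vec n => J (t, x, q) k := fun k => funext fun q => hFJ k x q t
    change ∑ l : Fin n,
      (fderiv ℝ (fun y : Vec n => F i (proj y, p, ((t : ℝ) : UnitAddCircle))) x
            (EuclideanSpace.single l 1) *
          fderiv ℝ (fun q : Vec n => F j (proj x, q, ((t : ℝ) : UnitAddCircle))) p
            (EuclideanSpace.single l 1) -
        fderiv ℝ (fun q : Vec n => F i (proj x, q, ((t : ℝ) : UnitAddCircle))) p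
            (EuclideanSpace.single l 1) *
          fderiv ℝ (fun y : Vec n => F j (proj y, p, ((t : ℝ) : UnitAddCircle))) x
            (EuclideanSpace.single l 1)) = 0
    rw [e1, e1, e2, e2]
    exact h1
  · obtain ⟨t, rfl⟩ := QuotientAddGroup.mk_surjective t
    have e1 : ∀ i, fderiv ℝ (fun y : Vec n × Vec n =>
        F i (proj y.1, y.2, ((t : ℝ) : UnitAddCircle))) (x, p) =
        (EuclideanSpace.proj i : Vec n →L[ℝ] ℝ).comp ((fderiv ℝ J (t, x, p)).comp
          (ContinuousLinearMap.inr ℝ ℝ (Vec n × Vec n))) := by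
      intro i
      have e2 : (fun y : Vec n × Vec n => F i (proj y.1, y.2, ((t : ℝ) : UnitAddCircle))) =
          fun y => (EuclideanSpace.proj i : Vec n →L[ℝ] ℝ) (J (t, y)) :=
        funext fun y => hFJ i y.1 y.2 t
      rw [e2]
      have h2 : HasFDerivAt (fun y : Vec n × Vec n => J (t, y))
          ((fderiv ℝ J (t, x, p)).comp (ContinuousLinearMap.inr ℝ ℝ (Vec n × Vec n))) (x, p) :=
        (hJdiff (t, x, p)).hasFDerivAt.comp (x, p) (hasFDerivAt_prodMk_right t (x, p))
      exact ((EuclideanSpace.proj i : Vec n →L[ℝ] ℝ).hasFDerivAt.comp (x, p) h2).fderiv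
    change LinearIndependent ℝ fun i : Fin n =>
      fderiv ℝ (fun y : Vec n × Vec n => F i (proj y.1, y.2, ((t : ℝ) : UnitAddCircle))) (x, p)
    rw [funext e1, Fintype.linearIndependent_iff]
    intro g hg i
    obtain ⟨v, v', hv⟩ := hJd (t, x, p) (EuclideanSpace.single i 1)
    have h2 := congrArg (fun l : Vec n × Vec n →L[ℝ] ℝ => l (v, v')) hg
    have h3 : ∀ k, ((EuclideanSpace.proj k : Vec n →L[ℝ] ℝ).comp ((fderiv ℝ J (t, x, p)).comp
        (ContinuousLinearMap.inr ℝ ℝ (Vec n × Vec n)))) (v, v') =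
        (EuclideanSpace.single i (1 : ℝ) : Vec n) k := by
      intro k
      rw [← hv]
      rfl
    simp only [sum_apply, smul_apply, h3, smul_eq_mul,
      zero_apply] at h2
    simpa using h2

end Pool.Agent.LRig
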